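import Pool.Agent.W46.KK.Final
import Pool.Agent.TH404.AK.Sdc3

/-!
# Progressions with common differences in an arbitrary set

The number of terms `k` does not depend on the dimension.
-/

set_option autoImplicit false

namespace Pool.Agent.R516.AKP

open Finset Filter Topology Pool.Agent.W46.KK

theorem gen {c : ℝ} (h : SD c) (hc : 0 < c) :
    ∃ k : ℕ, ∀ n : ℕ, ∃ D : ℝ, 1 ≤ D ∧ ∀ R B : Set (EuclideanSpace ℝ (Fin n)),
      (∀ r ∈ R, ∃ a : EuclideanSpace ℝ (Fin n), ∀ j : ℕ, j < k → a + (j : ℝ) • r ∈ B) →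
      ∀ δ : ℝ, 0 < δ → ∀ V : Finset (EuclideanSpace ℝ (Fin n)), (∀ v ∈ V, v ∈ R) →
        (∀ v ∈ V, ∀ w ∈ V, v ≠ w → ∃ i, δ ≤ |v i - w i|) →
        ∀ (ι : Type) [Fintype ι] (U : ι → Set (EuclideanSpace ℝ (Fin n))),
        (∀ i, ∀ x ∈ U i, ∀ y ∈ U i, dist x y ≤ δ) → B ⊆ ⋃ i, U i →
        (V.card : ℝ) ≤ (D * (Fintype.card ι : ℝ)) ^ c := by
  classical
  obtain ⟨S, hS⟩ := h
  -- times
  set sl : ℚ → ℚ := fun r => r / (1 + r) with hsl
  set η : ℕ := 2 * ∏ r ∈ S, (sl r).den with hη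
  have hη1 : 2 ≤ η := by
    have : 1 ≤ ∏ r ∈ S, (sl r).den := Finset.one_le_prod' fun r _ => (sl r).den_pos
    omega
  have hint : ∀ r ∈ S, ∃ z : ℤ, (z : ℚ) = sl r * η := by
    intro r hr
    obtain ⟨m, hm⟩ := Finset.dvd_prod_of_mem (fun r => (sl r).den) hr
    refine ⟨(sl r).num * (2 * m), ?_⟩
    have h1 : (η : ℚ) = (sl r).den * (2 * m) := by
      have h2 : η = (sl r).den * (2 * m) := by
        rw [hη, hm]
        ring
      exact_mod_cast h2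
    have h3 : sl r * (sl r).den = (sl r).num := Rat.mul_den_eq_num _
    rw [h1]
    push_cast
    rw [← h3]
    ring
  choose! z hz using hint
  set t₀ : ℕ := ∑ r ∈ S, (z r).natAbs with ht₀
  have hle : ∀ r ∈ S, (z r).natAbs ≤ t₀ := fun r hr => by
    rw [ht₀]
    exact Finset.single_le_sum (f := fun r => (z r).natAbs) (fun _ _ => Nat.zero_le _) hr
  set k : ℕ := 2 * t₀ + η + 1 with hk
  have hjr : ∀ r ∈ S, ∃ j : ℕ, j < k ∧ (j : ℝ) = (t₀ : ℝ) + (r : ℝ) / (1 + r) * (η : ℝ) := by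
    intro r hr
    have h1 := hle r hr
    refine ⟨((t₀ : ℤ) + z r).toNat, by omega, ?_⟩
    have h2 : ((((t₀ : ℤ) + z r).toNat : ℤ)) = (t₀ : ℤ) + z r := Int.toNat_of_nonneg (by omega)
    have h3 : ((((t₀ : ℤ) + z r).toNat : ℝ)) = (t₀ : ℝ) + (z r : ℝ) := by exact_mod_cast h2
    rw [h3]
    have h4 : ((z r : ℚ) : ℝ) = ((sl r * η : ℚ) : ℝ) := by rw [hz r hr]
    push_cast at h4
    rw [h4, hsl]
    push_cast
    ring
  refine ⟨k, fun n => ?_⟩
  obtain ⟨C, hC1, hcore⟩ := core hS hc.le n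
  have h3n : (1 : ℝ) ≤ 3 ^ n := one_le_pow₀ (by norm_num)
  refine ⟨C * 3 ^ n, by nlinarith, ?_⟩
  intro R B hB δ hδ V hVR hsep ι _ U hU hcov
  have hηR : (2 : ℝ) ≤ (η : ℝ) := by exact_mod_cast hη1
  have hηpos : (0 : ℝ) < (η : ℝ) := by linarith
  -- base points
  have hex : ∀ v : Fin n → ℝ, ∃ a : Fin n → ℝ, WithLp.toLp 2 v ∈ R →
      ∀ j : ℕ, j < k → WithLp.toLp 2 (fun i => a i + (j : ℝ) * v i) ∈ B := by
    intro v
    by_cases hv : WithLp.toLp 2 v ∈ R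
    · obtain ⟨a, ha⟩ := hB (WithLp.toLp 2 v) hv
      refine ⟨fun i => a i, fun _ j hj => ?_⟩
      convert ha j hj using 1
      ext i
      simp
    · exact ⟨0, fun h' => absurd h' hv⟩
  choose p hp using hex
  set V' : Finset (Fin n → ℝ) := V.image (fun v : EuclideanSpace ℝ (Fin n) => fun i => v i) with hV'
  have hcardV : V'.card = V.card := by
    rw [hV']
    refine Finset.card_image_of_injective _ fun v w hvw => ?_
    ext i
    exact congrFun hvw i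
  have hVmem : ∀ v ∈ V', WithLp.toLp 2 v ∈ V := by
    intro v hv
    obtain ⟨w, hw, rfl⟩ := Finset.mem_image.1 hv
    exact hw
  have hN : ∀ j : ℕ, j < k → ((V'.image (pos δ p j)).card : ℝ) ≤ 3 ^ n * (Fintype.card ι : ℝ) := by
    intro j hj
    have h1 := card_cells (d := n) hδ (fun i => (WithLp.toLp 2) ⁻¹' (U i))
      (fun i x hx y hy l => by
        have h2 := hU i _ hx _ hy
        refine le_trans ?_ h2
        rw [EuclideanSpace.dist_eq]
        have h3 : dist (x l) (y l) ^ 2 ≤ ∑ i, dist (x i) (y i) ^ 2 :=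
          Finset.single_le_sum (f := fun i => dist (x i) (y i) ^ 2) (fun _ _ => sq_nonneg _)
            (Finset.mem_univ l)
        rw [← Real.dist_eq]
        exact Real.le_sqrt_of_sq_le h3)
      V' (fun v i => p v i + (j : ℝ) * v i) (fun v hv => by
        have h2 := hp v (hVR _ (hVmem v hv)) j hj
        have h3 := hcov h2
        rw [Set.mem_iUnion] at h3
        exact h3)
    exact_mod_cast h1
  have hsep' : ∀ v ∈ V', ∀ w ∈ V', v ≠ w → ∃ i, 2 * δ / (η : ℝ) ≤ |v i - w i| := by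
    intro v hv w hw hne
    obtain ⟨i, hi⟩ := hsep _ (hVmem v hv) _ (hVmem w hw) (fun h' => hne (by
      have := congrArg WithLp.ofLp h'
      exact this))
    refine ⟨i, le_trans ?_ hi⟩
    rw [div_le_iff₀ hηpos]
    nlinarith
  have key := hcore δ hδ V' p t₀ η hηpos hsep'
    (3 ^ n * (Fintype.card ι : ℝ))
    (by
      have := hN (t₀ + η) (by omega)
      push_cast at this
      exact this)
    (by
      intro r hr
      obtain ⟨j, hj, hjr'⟩ := hjr r hr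
      have := hN j hj
      rwa [hjr'] at this)
  rw [hcardV] at key
  refine key.trans (le_of_eq ?_)
  rw [mul_assoc]

/-- All common differences in the unit cube. -/
theorem cube {c : ℝ} (h : SD c) (hc : 0 < c) :
    ∃ k : ℕ, (∀ n : ℕ, ∃ D : ℝ, 1 ≤ D ∧ ∀ R B : Set (EuclideanSpace ℝ (Fin n)),
      (∀ r ∈ R, ∃ a : EuclideanSpace ℝ (Fin n), ∀ j : ℕ, j < k → a + (j : ℝ) • r ∈ B) →
      ∀ δ : ℝ, 0 < δ → ∀ V : Finset (EuclideanSpace ℝ (Fin n)), (∀ v ∈ V, v ∈ R) →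
        (∀ v ∈ V, ∀ w ∈ V, v ≠ w → ∃ i, δ ≤ |v i - w i|) →
        ∀ (ι : Type) [Fintype ι] (U : ι → Set (EuclideanSpace ℝ (Fin n))),
        (∀ i, ∀ x ∈ U i, ∀ y ∈ U i, dist x y ≤ δ) → B ⊆ ⋃ i, U i →
        (V.card : ℝ) ≤ (D * (Fintype.card ι : ℝ)) ^ c) ∧
      ∀ n : ℕ, ∃ κ : ℝ, 0 < κ ∧ ∀ B : Set (EuclideanSpace ℝ (Fin n)),
      HasProgressions k B →
      ∀ δ : ℝ, 0 < δ → ∀ (ι : Type) [Fintype ι] (U : ι → Set (EuclideanSpace ℝ (Fin n))),
        (∀ i, ∀ x ∈ U i, ∀ y ∈ U i, dist x y ≤ δ) → B ⊆ ⋃ i, U i →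
        κ * δ ^ (-((n : ℝ) / c)) ≤ (Fintype.card ι : ℝ) := by
  classical
  obtain ⟨k, hk⟩ := gen h hc
  refine ⟨k, hk, fun n => ?_⟩
  obtain ⟨D, hD1, hD⟩ := hk n
  have hDpos : 0 < D := by linarith
  refine ⟨1 / D, by positivity, fun B hB δ hδ ι _ U hU hcov => ?_⟩
  set V : Finset (EuclideanSpace ℝ (Fin n)) := (grid n δ).image (fun v => WithLp.toLp 2 v) with hV
  have hVc : V.card = (grid n δ).card := by
    rw [hV]
    exact Finset.card_image_of_injective _ (WithLp.toLp_injective 2)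
  have h1 := hD {r | ∀ i, r i ∈ Set.Icc (0 : ℝ) 1} B (fun r hr => hB r hr) δ hδ V
    (by
      intro v hv
      obtain ⟨w, hw, rfl⟩ := Finset.mem_image.1 hv
      exact fun i => grid_mem hδ hw i)
    (by
      intro v hv w hw hne
      obtain ⟨v', hv', rfl⟩ := Finset.mem_image.1 hv
      obtain ⟨w', hw', rfl⟩ := Finset.mem_image.1 hw
      exact grid_sep hδ hv' hw' (fun h' => hne (congrArg (WithLp.toLp 2) h')))
    ι U hU hcov
  set N : ℝ := (Fintype.card ι : ℝ) with hNdef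
  have hNnn : 0 ≤ N := Nat.cast_nonneg _
  have h5 : (1 / δ) ^ n ≤ (D * N) ^ c := by
    refine le_trans ?_ h1
    rw [hVc]
    exact grid_card hδ
  have h6 : ((1 / δ) ^ n) ^ (1 / c) ≤ D * N := by
    have h7 := Real.rpow_le_rpow (by positivity) h5 (by positivity : 0 ≤ 1 / c)
    rwa [← Real.rpow_mul (by positivity), mul_one_div_cancel hc.ne', Real.rpow_one] at h7
  have h8 : ((1 / δ) ^ n) ^ (1 / c) = δ ^ (-((n : ℝ) / c)) := by
    rw [← Real.rpow_natCast, ← Real.rpow_mul (by positivity), mul_one_div,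
      one_div, Real.inv_rpow hδ.le, Real.rpow_neg hδ.le]
  rw [h8] at h6
  rw [div_mul_eq_mul_div, one_mul, div_le_iff₀ hDpos, mul_comm N D]
  exact h6

theorem ev {c κ : ℝ} (hκ : 0 < κ) (n : ℕ) (N : ℝ → ℕ)
    (hcount : ∀ δ : ℝ, 0 < δ → κ * δ ^ (-((n : ℝ) / c)) ≤ (N δ : ℝ)) (y : ℝ)
    (hy : y < (n : ℝ) / c) :
    ∀ᶠ δ : ℝ in 𝓝[>] (0 : ℝ), ((y : ℝ) : EReal) ≤
      ((Real.log (N δ) / Real.log (1 / δ) : ℝ) : EReal) := by
  set ε := (n : ℝ) / c - y with hε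
  have hεpos : 0 < ε := by rw [hε]; linarith
  have hlog : Tendsto Real.log (𝓝[>] 0) atBot := Real.tendsto_log_nhdsGT_zero
  have h1 : ∀ᶠ δ : ℝ in 𝓝[>] (0 : ℝ), Real.log δ < -(|Real.log κ| / ε + 1) :=
    hlog.eventually (eventually_lt_atBot _)
  have hsmall : ∀ᶠ δ : ℝ in 𝓝[>] (0 : ℝ), 0 < δ ∧ δ < 1 := Ioo_mem_nhdsGT one_pos
  filter_upwards [h1, hsmall] with δ h1 h2
  have habs : 0 ≤ |Real.log κ| / ε := by positivity
  have hneg : Real.log δ < 0 := by linarith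
  rw [EReal.coe_le_coe_iff, one_div, Real.log_inv, le_div_iff₀ (by linarith)]
  have hpos : 0 < κ * δ ^ (-((n : ℝ) / c)) := by
    have := h2.1
    positivity
  have h5 := Real.log_le_log hpos (hcount δ h2.1)
  rw [Real.log_mul hκ.ne' (by have := h2.1; positivity), Real.log_rpow h2.1] at h5
  have h6 : ε * Real.log δ ≤ Real.log κ := by
    have h7 : |Real.log κ| / ε < -Real.log δ := by linarith
    rw [div_lt_iff₀ hεpos] at h7
    have := neg_abs_le (Real.log κ)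
    nlinarith
  have h8 : y * -Real.log δ = -((n : ℝ) / c) * Real.log δ + ε * Real.log δ := by rw [hε]; ring
  rw [h8]
  linarith

/-- Everything with one `k`. -/
theorem all {c : ℝ} (h : SD c) (hc : 0 < c) :
    ∃ k : ℕ, (∀ n : ℕ, ∃ D : ℝ, 1 ≤ D ∧ ∀ R B : Set (EuclideanSpace ℝ (Fin n)),
      (∀ r ∈ R, ∃ a : EuclideanSpace ℝ (Fin n), ∀ j : ℕ, j < k → a + (j : ℝ) • r ∈ B) →
      ∀ δ : ℝ, 0 < δ → ∀ V : Finset (EuclideanSpace ℝ (Fin n)), (∀ v ∈ V, v ∈ R) →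
        (∀ v ∈ V, ∀ w ∈ V, v ≠ w → ∃ i, δ ≤ |v i - w i|) →
        ∀ (ι : Type) [Fintype ι] (U : ι → Set (EuclideanSpace ℝ (Fin n))),
        (∀ i, ∀ x ∈ U i, ∀ y ∈ U i, dist x y ≤ δ) → B ⊆ ⋃ i, U i →
        (V.card : ℝ) ≤ (D * (Fintype.card ι : ℝ)) ^ c) ∧
      (∀ n : ℕ, ∃ κ : ℝ, 0 < κ ∧ ∀ B : Set (EuclideanSpace ℝ (Fin n)),
      HasProgressions k B →
      ∀ δ : ℝ, 0 < δ → ∀ (ι : Type) [Fintype ι] (U : ι → Set (EuclideanSpace ℝ (Fin n))),
        (∀ i, ∀ x ∈ U i, ∀ y ∈ U i, dist x y ≤ δ) → B ⊆ ⋃ i, U i →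
        κ * δ ^ (-((n : ℝ) / c)) ≤ (Fintype.card ι : ℝ)) ∧
      (∀ (n : ℕ) (B : Set (EuclideanSpace ℝ (Fin n))), Bornology.IsBounded B →
        HasProgressions k B → (((n : ℝ) / c : ℝ) : EReal) ≤
          liminf (fun δ : ℝ => ((Real.log (coverNum B δ) / Real.log (1 / δ) : ℝ) : EReal))
            (𝓝[>] 0)) ∧
      ∀ n k' : ℕ, k ≤ k' → (((n : ℝ) / c : ℝ) : EReal) ≤ fM n k' := by
  obtain ⟨k, hk1, hk2⟩ := cube h hc
  have hcount : ∀ (n : ℕ) (B : Set (EuclideanSpace ℝ (Fin n))), Bornology.IsBounded B →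
      HasProgressions k B → ∃ κ : ℝ, 0 < κ ∧ ∀ δ : ℝ, 0 < δ →
        κ * δ ^ (-((n : ℝ) / c)) ≤ (coverNum B δ : ℝ) := by
    intro n B hB hP
    obtain ⟨κ, hκ, hprog⟩ := hk2 n
    refine ⟨κ, hκ, fun δ hδ => ?_⟩
    obtain ⟨U, hU1, hU2⟩ := Nat.sInf_mem (cover_nonempty hB hδ)
    have := hprog B hP δ hδ (Fin _) U hU1 hU2
    rwa [Fintype.card_fin] at this
  refine ⟨k, hk1, hk2, ?_, ?_⟩
  · intro n B hB hP
    obtain ⟨κ, hκ, hcnt⟩ := hcount n B hB hP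
    refine le_of_forall_lt fun x hx => ?_
    obtain ⟨y, hxy, hy⟩ := EReal.lt_iff_exists_real_btwn.mp hx
    refine lt_of_lt_of_le hxy ?_
    have hy' : y < (n : ℝ) / c := by exact_mod_cast hy
    exact le_liminf_of_le (by isBoundedDefault) (ev hκ n (coverNum B) hcnt y hy')
  · intro n k' hk'
    unfold fM
    refine le_iInf fun B => le_iInf fun hB => le_iInf fun hP => ?_
    have hP' : HasProgressions k B := by
      intro r hr
      obtain ⟨a, ha⟩ := hP r hr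
      exact ⟨a, fun j hj => ha j (lt_of_lt_of_le hj hk')⟩
    obtain ⟨κ, hκ, hcnt⟩ := hcount n B hB hP'
    refine le_of_forall_lt fun x hx => ?_
    obtain ⟨y, hxy, hy⟩ := EReal.lt_iff_exists_real_btwn.mp hx
    refine lt_of_lt_of_le hxy ?_
    have hy' : y < (n : ℝ) / c := by exact_mod_cast hy
    exact le_limsup_of_frequently_le
      (Eventually.frequently (ev hκ n (coverNum B) hcnt y hy')) (by isBoundedDefault)

end Pool.Agent.R516.AKP
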