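import Mathlib
import Pool.Agent.Y827.GS.R2Tr
import Pool.Agent.Y827.GS.Ttm

/-! Uniform constants for the translation estimate. -/

set_option autoImplicit false

namespace Pool.Agent.R516

open Finset Filter Topology
open Pool.Agent.H442R2.KF (Wt)
open Pool.Agent.Y827.LS (dc)
open Pool.Agent.W25.UB (RC)
open Pool.Agent.TH899.UG (ExG)
open Pool.Agent.W23.PL (Fc)

/-- the translation estimate with given constants -/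
def TrAt (θ δ ε₀ η ε₁ η₁ C : ℝ) : Prop :=
    ∀ (X D0 Z : ℕ), 2 ≤ X → (Z : ℝ) ≤ (X : ℝ) ^ θ → 1 ≤ D0 → (Z : ℝ) ≤ (X : ℝ) ^ ε₀ * D0 →
    ∀ (S Cl : ℕ → Prop) (Y R y : ℝ) (Φ : ℤ → ℝ) (m : ℝ),
    (X : ℝ) ^ ε₁ ≤ y → (∀ p, S p → (p : ℝ) ≤ y) → ExG S Y R Φ m → R ≤ (X : ℝ) ^ (ε₀ / 8) →
    Y ≤ (X : ℝ) ^ η → |m| ≤ 1 → ∀ (a a' : ℤ), |(a : ℝ)| ≤ X - (X : ℝ) ^ (1 / 2 : ℝ) →
    |(a' : ℝ)| ≤ X - (X : ℝ) ^ (1 / 2 : ℝ) → a ≠ a' →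
    (∀ p : ℕ, p.Prime → y < (p : ℝ) → (p : ℤ) ∣ a - a' → Cl p) →
    ∀ c c' : ℕ → ℝ, RC Cl y Z c → RC Cl y Z c' → (∀ d, c d ≠ 0 → D0 < d) →
    (∀ d, c' d ≠ 0 → D0 < d) → Fc X θ δ c c' →
    |∑' n : ℤ, Wt X n * (Φ n * (dc c Z (n - a) * dc c' Z (n - a')))| ≤ C * (X : ℝ) ^ (1 - η₁)

theorem TrAt.mono {θ δ ε₀ η ε₁ η₁ C ε₀' η' η₁' C' : ℝ} (h : TrAt θ δ ε₀ η ε₁ η₁ C)
    (h1 : ε₀' ≤ ε₀) (h2 : η' ≤ η) (h3 : η₁' ≤ η₁) (h4 : C ≤ C') (hC : 0 < C) :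
    TrAt θ δ ε₀' η' ε₁ η₁' C' := by
  intro X D0 Z hX hZ hD0 hZD S Cl Y R y Φ m hy hS hEx hR hY hm a a' ha ha' haa hCl c c' hc hc' hd
    hd' hF
  have hX1 : (1 : ℝ) ≤ X := by exact_mod_cast (by omega : 1 ≤ X)
  have g1 : (X : ℝ) ^ ε₀' ≤ (X : ℝ) ^ ε₀ := Real.rpow_le_rpow_of_exponent_le hX1 h1
  refine (h X D0 Z hX hZ hD0 (hZD.trans (mul_le_mul_of_nonneg_right g1 (Nat.cast_nonneg _))) S Cl Y
    R y Φ m hy hS hEx (hR.trans (Real.rpow_le_rpow_of_exponent_le hX1 (by linarith)))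
    (hY.trans (Real.rpow_le_rpow_of_exponent_le hX1 h2)) hm a a' ha ha' haa hCl c c' hc hc' hd hd'
    hF).trans ?_
  have hp : 0 ≤ (X : ℝ) ^ (1 - η₁) := Real.rpow_nonneg (by linarith) _
  calc C * (X : ℝ) ^ (1 - η₁) ≤ C' * (X : ℝ) ^ (1 - η₁) := mul_le_mul_of_nonneg_right h4 hp
    _ ≤ C' * (X : ℝ) ^ (1 - η₁') := by
        apply mul_le_mul_of_nonneg_left _ (by linarith)
        exact Real.rpow_le_rpow_of_exponent_le hX1 (by linarith)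

theorem trall (δ : ℝ) (hδ : 0 < δ) (T : ℕ → ℝ) (n : ℕ) (hT : ∀ w < n, 0 < T w ∧ T w < 5 / 9) :
    ∃ ε₀ η : ℝ, 0 < ε₀ ∧ ε₀ ≤ 1 / 100 ∧ 0 < η ∧ η ≤ 1 / 100 ∧ ∀ ε₁ : ℝ, 0 < ε₁ → ε₁ ≤ 1 →
      ∃ η₁ C : ℝ, 0 < η₁ ∧ η₁ ≤ 1 / 2 ∧ 0 < C ∧ ∀ w < n, TrAt (T w) δ ε₀ η ε₁ η₁ C := by
  induction n with
  | zero => exact ⟨1 / 100, 1 / 100, by norm_num, by norm_num, by norm_num, by norm_num,
      fun ε₁ _ _ => ⟨1 / 2, 1, by norm_num, by norm_num, by norm_num,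
        fun w hw => absurd hw (Nat.not_lt_zero _)⟩⟩
  | succ n ih =>
    obtain ⟨ε₀, η, h1, h2, h3, h4, h5⟩ := ih (fun w hw => hT w (by omega))
    obtain ⟨hT1, hT2⟩ := hT n (by omega)
    obtain ⟨ε₀', η', g1, g2, g3, g4, g5⟩ :=
      Pool.Agent.Y827.GS.r2tr Pool.Agent.Y827.GS.ttc (T n) δ hT1 hT2 hδ
    refine ⟨min ε₀ ε₀', min η η', lt_min h1 g1, (min_le_left _ _).trans h2, lt_min h3 g3,
      (min_le_left _ _).trans h4, fun ε₁ hε₁ hε₁1 => ?_⟩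
    obtain ⟨η₁, C, k1, k2, k3, k4⟩ := h5 ε₁ hε₁ hε₁1
    obtain ⟨η₁', C', l1, l2, l3, l4⟩ := g5 ε₁ hε₁ hε₁1
    refine ⟨min η₁ η₁', max C C', lt_min k1 l1, (min_le_left _ _).trans k2,
      lt_of_lt_of_le k3 (le_max_left _ _), fun w hw => ?_⟩
    rcases Nat.lt_succ_iff_lt_or_eq.1 hw with h | h
    · exact (k4 w h).mono (min_le_left _ _) (min_le_left _ _) (min_le_left _ _) (le_max_left _ _) k3
    · rw [h]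
      exact TrAt.mono (C := C') l4 (min_le_right _ _) (min_le_right _ _) (min_le_right _ _)
        (le_max_right _ _) l3

end Pool.Agent.R516
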