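import Mathlib
import Pool.Agent.W505.UBGAU
import Pool.Agent.H442R2.BX.Ex

/-! Gaussian averages of bounded functions on the integers. -/

set_option autoImplicit false

namespace Pool.Agent.R516

open Finset Filter Topology
open Pool.Agent.H442R2
open Pool.Agent.H442R2.KF (Wt)

/-- bounded functions -/
def Bd (F : ℤ → ℝ) : Prop := ∃ B : ℝ, ∀ n, |F n| ≤ B

/-- Gaussian average -/
noncomputable def Gs (N : ℕ) (F : ℤ → ℝ) : ℝ := ∑' n : ℤ, Wt N n * F n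

theorem Bd.const (c : ℝ) : Bd (fun _ => c) := ⟨|c|, fun _ => le_rfl⟩

theorem Bd.add {F G : ℤ → ℝ} (hF : Bd F) (hG : Bd G) : Bd (fun n => F n + G n) := by
  obtain ⟨B, hB⟩ := hF
  obtain ⟨B', hB'⟩ := hG
  exact ⟨B + B', fun n => (abs_add_le _ _).trans (add_le_add (hB n) (hB' n))⟩

theorem Bd.sub {F G : ℤ → ℝ} (hF : Bd F) (hG : Bd G) : Bd (fun n => F n - G n) := by
  obtain ⟨B, hB⟩ := hF
  obtain ⟨B', hB'⟩ := hG
  exact ⟨B + B', fun n => (abs_sub _ _).trans (add_le_add (hB n) (hB' n))⟩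

theorem Bd.mul {F G : ℤ → ℝ} (hF : Bd F) (hG : Bd G) : Bd (fun n => F n * G n) := by
  obtain ⟨B, hB⟩ := hF
  obtain ⟨B', hB'⟩ := hG
  refine ⟨B * B', fun n => ?_⟩
  rw [abs_mul]
  exact mul_le_mul (hB n) (hB' n) (abs_nonneg _) ((abs_nonneg _).trans (hB n))

theorem Bd.cmul {F : ℤ → ℝ} (c : ℝ) (hF : Bd F) : Bd (fun n => c * F n) := (Bd.const c).mul hF

theorem Bd.sum {ι : Type*} (s : Finset ι) {F : ι → ℤ → ℝ} (hF : ∀ i ∈ s, Bd (F i)) :
    Bd (fun n => ∑ i ∈ s, F i n) := by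
  classical
  induction s using Finset.induction_on with
  | empty => simpa using Bd.const 0
  | insert a s ha ih =>
    simp only [Finset.sum_insert ha]
    exact (hF a (Finset.mem_insert_self _ _)).add
      (ih fun i hi => hF i (Finset.mem_insert_of_mem hi))

theorem Bd.shift {F : ℤ → ℝ} (hF : Bd F) (a : ℤ) : Bd (fun n => F (n + a)) := by
  obtain ⟨B, hB⟩ := hF
  exact ⟨B, fun n => hB _⟩

theorem Bd.ite (d b : ℤ) : Bd (fun n => if d ∣ n - b then (1 : ℝ) else 0) := by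
  refine ⟨1, fun n => ?_⟩
  beta_reduce
  split_ifs <;> norm_num

theorem Bd.ite0 (d : ℤ) : Bd (fun n => if d ∣ n then (1 : ℝ) else 0) := by
  refine ⟨1, fun n => ?_⟩
  beta_reduce
  split_ifs <;> norm_num

theorem Bd.smb {N : ℕ} (hN : 1 ≤ N) {F : ℤ → ℝ} (hF : Bd F) :
    Summable (fun n : ℤ => Wt N n * F n) := by
  obtain ⟨B, hB⟩ := hF
  exact BX.TaskEX.summable_bd N hN F B hB

theorem Wt_nonneg (N : ℕ) (n : ℤ) : 0 ≤ Wt N n := (Real.exp_pos _).le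

theorem Gs_add {N : ℕ} (hN : 1 ≤ N) {F G : ℤ → ℝ} (hF : Bd F) (hG : Bd G) :
    Gs N (fun n => F n + G n) = Gs N F + Gs N G := by
  unfold Gs
  rw [← (hF.smb hN).tsum_add (hG.smb hN)]
  exact tsum_congr fun n => by ring

theorem Gs_sub {N : ℕ} (hN : 1 ≤ N) {F G : ℤ → ℝ} (hF : Bd F) (hG : Bd G) :
    Gs N (fun n => F n - G n) = Gs N F - Gs N G := by
  unfold Gs
  rw [← (hF.smb hN).tsum_sub (hG.smb hN)]
  exact tsum_congr fun n => by ring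

theorem Gs_cmul (N : ℕ) (c : ℝ) (F : ℤ → ℝ) : Gs N (fun n => c * F n) = c * Gs N F := by
  unfold Gs
  rw [← tsum_mul_left]
  exact tsum_congr fun n => by ring

theorem Gs_sum {ι : Type*} {N : ℕ} (hN : 1 ≤ N) (s : Finset ι) {F : ι → ℤ → ℝ}
    (hF : ∀ i ∈ s, Bd (F i)) : Gs N (fun n => ∑ i ∈ s, F i n) = ∑ i ∈ s, Gs N (F i) := by
  unfold Gs
  rw [← Summable.tsum_finsetSum fun i hi => (hF i hi).smb hN]
  exact tsum_congr fun n => by rw [Finset.mul_sum]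

theorem Gs_mono {N : ℕ} (hN : 1 ≤ N) {F G : ℤ → ℝ} (hF : Bd F) (hG : Bd G)
    (h : ∀ n, F n ≤ G n) : Gs N F ≤ Gs N G := by
  unfold Gs
  exact (hF.smb hN).tsum_le_tsum (fun n => mul_le_mul_of_nonneg_left (h n) (Wt_nonneg N n))
    (hG.smb hN)

theorem Gs_nonneg (N : ℕ) {F : ℤ → ℝ} (h : ∀ n, 0 ≤ F n) : 0 ≤ Gs N F :=
  tsum_nonneg fun n => mul_nonneg (Wt_nonneg N n) (h n)

theorem Gs_congr (N : ℕ) {F G : ℤ → ℝ} (h : ∀ n, F n = G n) : Gs N F = Gs N G := by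
  unfold Gs
  exact tsum_congr fun n => by rw [h n]

/-- a finite part is bounded by the whole sum -/
theorem Gs_part {N : ℕ} (hN : 1 ≤ N) {F : ℤ → ℝ} (hF : Bd F) (h : ∀ n, 0 ≤ F n) (M : ℕ)
    (hM : M ≤ N) : ∑ n ∈ Icc 0 M, F (n : ℤ) ≤ Real.exp Real.pi * Gs N F := by
  have hN0 : (0 : ℝ) < N := by exact_mod_cast hN
  have h1 : ∑ n ∈ Icc 0 M, Wt N (n : ℤ) * F (n : ℤ) ≤ Gs N F := by
    have e : ∑ n ∈ Icc 0 M, Wt N (n : ℤ) * F (n : ℤ) =
        ∑ n ∈ (Icc 0 M).map ⟨fun n : ℕ => (n : ℤ), Nat.cast_injective⟩, Wt N n * F n := by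
      rw [Finset.sum_map]
      rfl
    rw [e]
    exact (hF.smb hN).sum_le_tsum _ fun n _ => mul_nonneg (Wt_nonneg N n) (h n)
  have h2 : ∀ n ∈ Icc 0 M, F (n : ℤ) ≤ Real.exp Real.pi * (Wt N (n : ℤ) * F (n : ℤ)) := by
    intro n hn
    have hn' := (Finset.mem_Icc.1 hn).2
    have hw : Real.exp (-Real.pi) ≤ Wt N (n : ℤ) := by
      unfold Wt
      apply Real.exp_le_exp.2
      have h3 : (((n : ℤ) : ℝ) / N) ^ 2 ≤ 1 := by
        have h4 : ((n : ℤ) : ℝ) = (n : ℝ) := by push_cast; rfl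
        rw [h4]
        have h5 : (n : ℝ) / N ≤ 1 := by
          rw [div_le_one hN0]
          exact_mod_cast hn'.trans hM
        have h6 : 0 ≤ (n : ℝ) / N := by positivity
        nlinarith
      have := Real.pi_pos
      nlinarith
    have h7 : 1 ≤ Real.exp Real.pi * Wt N (n : ℤ) := by
      calc (1 : ℝ) = Real.exp Real.pi * Real.exp (-Real.pi) := by
            rw [← Real.exp_add, add_neg_cancel, Real.exp_zero]
        _ ≤ _ := mul_le_mul_of_nonneg_left hw (Real.exp_pos _).le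
    calc F (n : ℤ) = 1 * F (n : ℤ) := (one_mul _).symm
      _ ≤ (Real.exp Real.pi * Wt N (n : ℤ)) * F (n : ℤ) := mul_le_mul_of_nonneg_right h7 (h _)
      _ = _ := by ring
  calc _ ≤ ∑ n ∈ Icc 0 M, Real.exp Real.pi * (Wt N (n : ℤ) * F (n : ℤ)) := Finset.sum_le_sum h2
    _ = Real.exp Real.pi * ∑ n ∈ Icc 0 M, Wt N (n : ℤ) * F (n : ℤ) := by rw [Finset.mul_sum]
    _ ≤ _ := mul_le_mul_of_nonneg_left h1 (Real.exp_pos _).le

/-- one class -/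
theorem Gs_cl : ∃ N₀ : ℕ, ∀ N : ℕ, N₀ ≤ N → 1 ≤ N ∧ ∀ m : ℕ, 1 ≤ m → (m : ℝ) * Real.log N ≤ N →
    ∀ c : ℤ, |Gs N (fun n => if (m : ℤ) ∣ n - c then 1 else 0) - (N : ℝ) / m| ≤
      1 / (N : ℝ) ^ 5 := by
  obtain ⟨N₀, h⟩ := Pool.Agent.W505.UBGAU.one_class
  refine ⟨max N₀ 1, fun N hN => ⟨(le_max_right _ _).trans hN, fun m hm hmN c => ?_⟩⟩
  have := h N ((le_max_left _ _).trans hN) m hm hmN c
  have e : Gs N (fun n => if (m : ℤ) ∣ n - c then 1 else 0) =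
      ∑' n : ℤ, (if (m : ℤ) ∣ n - c then Wt N n else 0) := by
    unfold Gs
    refine tsum_congr fun n => ?_
    beta_reduce
    by_cases hh : (m : ℤ) ∣ n - c
    · rw [if_pos hh, if_pos hh, mul_one]
    · rw [if_neg hh, if_neg hh, mul_zero]
  rw [e]
  exact this

/-- intersection of two classes -/
theorem crt2 (d e : ℕ) (h h' : ℤ) :
    (¬ ((Nat.gcd d e : ℕ) : ℤ) ∣ h - h' → ∀ n : ℤ,
      (if (d : ℤ) ∣ n + h then (1 : ℝ) else 0) * (if (e : ℤ) ∣ n + h' then 1 else 0) = 0) ∧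
    (((Nat.gcd d e : ℕ) : ℤ) ∣ h - h' → ∃ b : ℤ, ∀ n : ℤ,
      (if (d : ℤ) ∣ n + h then (1 : ℝ) else 0) * (if (e : ℤ) ∣ n + h' then 1 else 0) =
        if ((Nat.lcm d e : ℕ) : ℤ) ∣ n - b then 1 else 0) := by
  constructor
  · intro hg n
    by_cases h1 : (d : ℤ) ∣ n + h
    · by_cases h2 : (e : ℤ) ∣ n + h'
      · exfalso
        apply hg
        have g1 : ((Nat.gcd d e : ℕ) : ℤ) ∣ n + h :=
          (Int.natCast_dvd_natCast.2 (Nat.gcd_dvd_left d e)).trans h1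
        have g2 : ((Nat.gcd d e : ℕ) : ℤ) ∣ n + h' :=
          (Int.natCast_dvd_natCast.2 (Nat.gcd_dvd_right d e)).trans h2
        have := dvd_sub g1 g2
        have e1 : n + h - (n + h') = h - h' := by ring
        rwa [e1] at this
      · rw [if_neg h2, mul_zero]
    · rw [if_neg h1, zero_mul]
  · rintro ⟨k, hk⟩
    have hb := Nat.gcd_eq_gcd_ab d e
    refine ⟨-h + d * Nat.gcdA d e * k, fun n => ?_⟩
    have e1 : (d : ℤ) ∣ n + h ↔ (d : ℤ) ∣ n - (-h + d * Nat.gcdA d e * k) := by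
      have : n + h = n - (-h + d * Nat.gcdA d e * k) + (d : ℤ) * (Nat.gcdA d e * k) := by ring
      rw [this]
      exact dvd_add_left (Dvd.intro _ rfl)
    have e2 : (e : ℤ) ∣ n + h' ↔ (e : ℤ) ∣ n - (-h + d * Nat.gcdA d e * k) := by
      have : n + h' = n - (-h + d * Nat.gcdA d e * k) + (e : ℤ) * (-(Nat.gcdB d e * k)) := by
        have h3 : h' = h - ((Nat.gcd d e : ℕ) : ℤ) * k := by linarith
        rw [h3, hb]
        ring
      rw [this]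
      exact dvd_add_left (Dvd.intro _ rfl)
    have e3 : ((Nat.lcm d e : ℕ) : ℤ) ∣ n - (-h + d * Nat.gcdA d e * k) ↔
        (d : ℤ) ∣ n - (-h + d * Nat.gcdA d e * k) ∧ (e : ℤ) ∣ n - (-h + d * Nat.gcdA d e * k) := by
      rw [Int.natCast_dvd, Int.natCast_dvd, Int.natCast_dvd, Nat.lcm_dvd_iff]
    by_cases h1 : (d : ℤ) ∣ n + h
    · by_cases h2 : (e : ℤ) ∣ n + h'
      · rw [if_pos h1, if_pos h2, if_pos (e3.2 ⟨e1.1 h1, e2.1 h2⟩), one_mul]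
      · rw [if_neg h2, mul_zero, if_neg fun hh => h2 (e2.2 (e3.1 hh).2)]
    · rw [if_neg h1, zero_mul, if_neg fun hh => h1 (e1.2 (e3.1 hh).1)]

/-- the average of a product of two classes -/
theorem Gs_cl2 {N D : ℕ} (hN : 1 ≤ N)
    (hcl : ∀ m : ℕ, 1 ≤ m → (m : ℝ) * Real.log N ≤ N →
    ∀ c : ℤ, |Gs N (fun n => if (m : ℤ) ∣ n - c then 1 else 0) - (N : ℝ) / m| ≤
      1 / (N : ℝ) ^ 5) (hD : (D : ℝ) ^ 2 * Real.log N ≤ N) (d e : ℕ) (hd : 1 ≤ d) (he : 1 ≤ e)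
    (hdD : d ≤ D) (heD : e ≤ D) (h h' : ℤ) :
    |Gs N (fun n => (if (d : ℤ) ∣ n + h then (1 : ℝ) else 0) * (if (e : ℤ) ∣ n + h' then 1 else 0)) -
      N * ((if ((Nat.gcd d e : ℕ) : ℤ) ∣ h - h' then 1 else 0) / ((Nat.lcm d e : ℕ) : ℝ))| ≤
      1 / (N : ℝ) ^ 5 := by
  obtain ⟨c1, c2⟩ := crt2 d e h h'
  by_cases hg : ((Nat.gcd d e : ℕ) : ℤ) ∣ h - h'
  · obtain ⟨b, hb⟩ := c2 hg
    rw [Gs_congr N hb, if_pos hg]
    have hl1 : 1 ≤ Nat.lcm d e := Nat.lcm_pos hd he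
    have hl2 : ((Nat.lcm d e : ℕ) : ℝ) ≤ (D : ℝ) ^ 2 := by
      have : Nat.lcm d e ≤ D * D := (Nat.le_of_dvd (Nat.mul_pos hd he) (Nat.lcm_dvd_mul d e)).trans
        (Nat.mul_le_mul hdD heD)
      rw [pow_two]
      exact_mod_cast this
    have hlog : 0 ≤ Real.log N := Real.log_natCast_nonneg N
    have := hcl (Nat.lcm d e) hl1 ((mul_le_mul_of_nonneg_right hl2 hlog).trans hD) b
    rwa [mul_one_div]
  · rw [if_neg hg, Gs_congr N (c1 hg)]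
    have : Gs N (fun _ => (0 : ℝ)) = 0 := by unfold Gs; simp
    rw [this, zero_div, mul_zero, sub_zero, abs_zero]
    positivity

end Pool.Agent.R516
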