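import Mathlib

/-! Squarefree products. -/

set_option autoImplicit false

namespace Pool.Agent.R516

open Finset

theorem prod_inj (P : Finset ℕ) (hP : ∀ p ∈ P, p.Prime) :
    Set.InjOn (fun Q : Finset ℕ => ∏ p ∈ Q, p) (P.powerset : Set (Finset ℕ)) := by
  intro Q hQ Q' hQ' h
  rw [Finset.mem_coe, Finset.mem_powerset] at hQ hQ'
  have key : ∀ R : Finset ℕ, R ⊆ P → (∏ p ∈ R, p).primeFactors = R := fun R hR =>
    Nat.primeFactors_prod fun p hp => hP p (hR hp)
  rw [← key Q hQ, ← key Q' hQ']
  exact congrArg _ h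

theorem sq_prod (Q : Finset ℕ) (hQ : ∀ p ∈ Q, p.Prime) : Squarefree (∏ p ∈ Q, p) := by
  classical
  induction Q using Finset.induction_on with
  | empty => simp
  | insert a s ha ih =>
    have hs : ∀ p ∈ s, p.Prime := fun p hp => hQ p (Finset.mem_insert_of_mem hp)
    have hap : a.Prime := hQ a (Finset.mem_insert_self _ _)
    rw [Finset.prod_insert ha, Nat.squarefree_mul]
    · exact ⟨hap.prime.squarefree, ih hs⟩
    · apply Nat.Coprime.prod_right
      intro p hp
      rw [Nat.coprime_primes hap (hs p hp)]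
      rintro rfl
      exact ha hp

end Pool.Agent.R516
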