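import Mathlib
import Pool.Agent.R516.Sqf

/-! Moments of the divisor function over squarefree numbers. -/

set_option autoImplicit false

namespace Pool.Agent.R516

open Finset

open Classical in
/-- `k ^ ω(d)` on squarefree numbers -/
noncomputable def wk (k : ℕ) (d : ℕ) : ℝ := if Squarefree d then (k : ℝ) ^ d.primeFactors.card else 0

theorem wk_nonneg (k d : ℕ) : 0 ≤ wk k d := by
  unfold wk
  split_ifs
  · positivity
  · exact le_rfl

theorem harm_le (D : ℕ) : ∑ n ∈ Icc 1 D, (1 : ℝ) / n ≤ 1 + Real.log D := by
  have h := harmonic_le_one_add_log D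
  have e : ((harmonic D : ℚ) : ℝ) = ∑ n ∈ Icc 1 D, (1 : ℝ) / n := by
    rw [harmonic_eq_sum_Icc]
    push_cast
    exact Finset.sum_congr rfl fun n _ => by rw [one_div]
  rw [e] at h
  exact h

theorem pow_omega (k d : ℕ) (hd : d ≠ 0) :
    ((k : ℝ) + 1) ^ d.primeFactors.card ≤ ∑ e ∈ d.divisors, wk k e := by
  classical
  have h1 := Finset.sum_pow_mul_eq_add_pow (k : ℝ) 1 d.primeFactors
  rw [← h1]
  have h2 : ∑ Q ∈ d.primeFactors.powerset, (k : ℝ) ^ Q.card * 1 ^ (d.primeFactors.card - Q.card) =
      ∑ Q ∈ d.primeFactors.powerset, wk k (∏ p ∈ Q, p) := by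
    refine Finset.sum_congr rfl fun Q hQ => ?_
    have hQp : ∀ p ∈ Q, p.Prime := fun p hp =>
      Nat.prime_of_mem_primeFactors (Finset.mem_powerset.1 hQ hp)
    unfold wk
    rw [if_pos (sq_prod Q hQp), Nat.primeFactors_prod hQp, one_pow, mul_one]
  rw [h2, ← Finset.sum_image (f := fun e => wk k e) (g := fun Q : Finset ℕ => ∏ p ∈ Q, p)
    (prod_inj _ fun p hp => Nat.prime_of_mem_primeFactors hp)]
  apply Finset.sum_le_sum_of_subset_of_nonneg
  · intro e he
    rw [Finset.mem_image] at he
    obtain ⟨Q, hQ, rfl⟩ := he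
    rw [Nat.mem_divisors]
    refine ⟨?_, hd⟩
    refine (Finset.prod_dvd_prod_of_subset Q d.primeFactors (fun p => p)
      (Finset.mem_powerset.1 hQ)).trans (Nat.prod_primeFactors_dvd d)
  · intro e _ _
    exact wk_nonneg k e

theorem wk_sum (k D : ℕ) (hD : 1 ≤ D) : ∑ d ∈ Icc 1 D, wk k d / d ≤ (1 + Real.log D) ^ k := by
  classical
  have hL : 0 ≤ 1 + Real.log D := by have := Real.log_natCast_nonneg D; linarith
  induction k with
  | zero =>
    rw [pow_zero]
    calc ∑ d ∈ Icc 1 D, wk 0 d / d ≤ ∑ d ∈ Icc 1 D, (if d = 1 then (1 : ℝ) else 0) := by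
          refine Finset.sum_le_sum fun d hd => ?_
          have hd1 := (Finset.mem_Icc.1 hd).1
          unfold wk
          split_ifs with h1 h2 h2
          · rw [h2]; simp
          · have : d.primeFactors.card ≠ 0 := by
              rw [Finset.card_ne_zero, Nat.nonempty_primeFactors]
              omega
            rw [Nat.cast_zero, zero_pow this, zero_div]
          · rw [zero_div]; exact zero_le_one
          · rw [zero_div]
      _ ≤ 1 := by
          rw [Finset.sum_ite_eq' (Icc 1 D) 1 (fun _ => (1 : ℝ))]
          split_ifs <;> norm_num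
  | succ k ih =>
    calc ∑ d ∈ Icc 1 D, wk (k + 1) d / d
        ≤ ∑ d ∈ Icc 1 D, ∑ e ∈ Icc 1 D, ∑ f ∈ Icc 1 D,
          (if e * f = d then wk k e / e * (1 / (f : ℝ)) else 0) := by
          refine Finset.sum_le_sum fun d hd => ?_
          have hd' := Finset.mem_Icc.1 hd
          have hd0 : d ≠ 0 := by omega
          have h1 : wk (k + 1) d ≤ ∑ e ∈ d.divisors, wk k e := by
            unfold wk
            split_ifs
            · have := pow_omega k d hd0
              push_cast
              exact this
            · exact Finset.sum_nonneg fun e _ => wk_nonneg k e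
          calc wk (k + 1) d / d ≤ (∑ e ∈ d.divisors, wk k e) / d := by gcongr
            _ = ∑ e ∈ d.divisors, wk k e / d := by rw [Finset.sum_div]
            _ ≤ ∑ e ∈ d.divisors, ∑ f ∈ Icc 1 D,
                (if e * f = d then wk k e / e * (1 / (f : ℝ)) else 0) := by
                refine Finset.sum_le_sum fun e he => ?_
                rw [Nat.mem_divisors] at he
                obtain ⟨⟨f, hf⟩, _⟩ := he
                have hf0 : f ≠ 0 := by rintro rfl; omega
                have he0 : e ≠ 0 := by rintro rfl; simp at hf; omega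
                have hfD : f ≤ D := (Nat.le_of_dvd (by omega) ⟨e, by rw [hf]; ring⟩).trans hd'.2
                have h2 : (if e * f = d then wk k e / e * (1 / (f : ℝ)) else 0) ≤
                    ∑ f ∈ Icc 1 D, (if e * f = d then wk k e / e * (1 / (f : ℝ)) else 0) := by
                  apply Finset.single_le_sum
                    (f := fun f : ℕ => if e * f = d then wk k e / e * (1 / (f : ℝ)) else 0)
                  · intro f _
                    show (0 : ℝ) ≤ if e * f = d then wk k e / e * (1 / (f : ℝ)) else 0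
                    have := wk_nonneg k e
                    split_ifs
                    · positivity
                    · exact le_rfl
                  · rw [Finset.mem_Icc]
                    omega
                refine le_trans (le_of_eq ?_) h2
                rw [if_pos hf.symm, hf]
                push_cast
                have : (e : ℝ) ≠ 0 := by exact_mod_cast he0
                have : (f : ℝ) ≠ 0 := by exact_mod_cast hf0
                field_simp
            _ ≤ _ := by
                apply Finset.sum_le_sum_of_subset_of_nonneg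
                · intro e he
                  rw [Nat.mem_divisors] at he
                  rw [Finset.mem_Icc]
                  have h3 := Nat.le_of_dvd (by omega) he.1
                  have h4 := Nat.pos_of_dvd_of_pos he.1 (by omega)
                  omega
                · intro e _ _
                  refine Finset.sum_nonneg fun f _ => ?_
                  have := wk_nonneg k e
                  split_ifs
                  · positivity
                  · exact le_rfl
      _ = ∑ e ∈ Icc 1 D, ∑ f ∈ Icc 1 D, ∑ d ∈ Icc 1 D,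
          (if e * f = d then wk k e / e * (1 / (f : ℝ)) else 0) := by
          rw [Finset.sum_comm]
          exact Finset.sum_congr rfl fun e _ => Finset.sum_comm
      _ ≤ ∑ e ∈ Icc 1 D, ∑ f ∈ Icc 1 D, wk k e / e * (1 / (f : ℝ)) := by
          refine Finset.sum_le_sum fun e _ => Finset.sum_le_sum fun f _ => ?_
          rw [Finset.sum_ite_eq (Icc 1 D) (e * f)]
          have := wk_nonneg k e
          split_ifs
          · exact le_rfl
          · positivity
      _ = (∑ e ∈ Icc 1 D, wk k e / e) * ∑ f ∈ Icc 1 D, (1 : ℝ) / f := by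
          rw [Finset.sum_mul_sum]
      _ ≤ (1 + Real.log D) ^ k * (1 + Real.log D) := by
          apply mul_le_mul ih (harm_le D) _ (by positivity)
          exact Finset.sum_nonneg fun f _ => by positivity
      _ = _ := by ring

/-- multiples of `g` -/
theorem mult_sum (D g : ℕ) (hg : 1 ≤ g) (F : ℕ → ℝ) (hF : ∀ n, 0 ≤ F n) :
    ∑ d ∈ (Icc 1 D).filter (fun d => g ∣ d), F d ≤ ∑ f ∈ Icc 1 D, F (g * f) := by
  classical
  rw [← Finset.sum_image (f := F) (g := fun f : ℕ => g * f)]
  · apply Finset.sum_le_sum_of_subset_of_nonneg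
    · intro d hd
      rw [Finset.mem_filter, Finset.mem_Icc] at hd
      obtain ⟨⟨h1, h2⟩, f, rfl⟩ := hd
      rw [Finset.mem_image]
      refine ⟨f, ?_, rfl⟩
      rw [Finset.mem_Icc]
      constructor
      · by_contra h3
        have : f = 0 := by omega
        subst this
        omega
      · nlinarith
    · intro d _ _
      exact hF d
  · intro a _ b _ hab
    exact Nat.eq_of_mul_eq_mul_left (by omega) hab

theorem wk_mul (k g f : ℕ) : wk k (g * f) ≤ wk k g * wk k f := by
  unfold wk
  by_cases h : Squarefree (g * f)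
  · have h1 := (Nat.squarefree_mul_iff.1 h)
    rw [if_pos h, if_pos h1.2.1, if_pos h1.2.2, h1.1.primeFactors_mul,
      Finset.card_union_of_disjoint h1.1.disjoint_primeFactors, pow_add]
  · rw [if_neg h]
    split_ifs
    · positivity
    · simp
    · simp
    · simp

/-- the quadratic moment -/
theorem wk_quad (k D : ℕ) (hD : 1 ≤ D) :
    ∑ d ∈ Icc 1 D, ∑ e ∈ Icc 1 D, wk k d * wk k e / ((Nat.lcm d e : ℕ) : ℝ) ≤
      (1 + Real.log D) ^ (k ^ 2 + 2 * k) := by
  classical
  have hL : 0 ≤ 1 + Real.log D := by have := Real.log_natCast_nonneg D; linarith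
  have h1 : ∀ d ∈ Icc 1 D, ∀ e ∈ Icc 1 D, wk k d * wk k e / ((Nat.lcm d e : ℕ) : ℝ) ≤
      ∑ g ∈ Icc 1 D, (g : ℝ) * ((if g ∣ d then wk k d / d else 0) *
        (if g ∣ e then wk k e / e else 0)) := by
    intro d hd e he
    rw [Finset.mem_Icc] at hd he
    have hg := Nat.gcd_pos_of_pos_left e (by omega : 0 < d)
    have hgd := Nat.le_of_dvd (by omega) (Nat.gcd_dvd_left d e)
    have hw1 := wk_nonneg k d
    have hw2 := wk_nonneg k e
    have h2 : ((Nat.gcd d e : ℕ) : ℝ) * ((if Nat.gcd d e ∣ d then wk k d / d else 0) *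
        (if Nat.gcd d e ∣ e then wk k e / e else 0)) ≤
        ∑ g ∈ Icc 1 D, (g : ℝ) * ((if g ∣ d then wk k d / d else 0) *
        (if g ∣ e then wk k e / e else 0)) := by
      apply Finset.single_le_sum (f := fun g : ℕ => (g : ℝ) * ((if g ∣ d then wk k d / d else 0) *
        (if g ∣ e then wk k e / e else 0)))
      · intro g _
        show (0 : ℝ) ≤ (g : ℝ) * ((if g ∣ d then wk k d / d else 0) *
          (if g ∣ e then wk k e / e else 0))
        apply mul_nonneg (Nat.cast_nonneg _)
        apply mul_nonneg <;> split_ifs <;> positivity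
      · rw [Finset.mem_Icc]
        omega
    refine le_trans (le_of_eq ?_) h2
    rw [if_pos (Nat.gcd_dvd_left d e), if_pos (Nat.gcd_dvd_right d e)]
    have h3 : ((Nat.gcd d e : ℕ) : ℝ) * ((Nat.lcm d e : ℕ) : ℝ) = d * e := by
      exact_mod_cast Nat.gcd_mul_lcm d e
    have hd0 : (0 : ℝ) < d := by exact_mod_cast (by omega : 0 < d)
    have he0 : (0 : ℝ) < e := by exact_mod_cast (by omega : 0 < e)
    have hg0 : (0 : ℝ) < (Nat.gcd d e : ℕ) := by exact_mod_cast hg
    have hl0 : (0 : ℝ) < (Nat.lcm d e : ℕ) := by
      exact_mod_cast Nat.lcm_pos (by omega : 0 < d) (by omega : 0 < e)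
    rw [div_mul_div_comm, ← h3]
    field_simp
  calc _ ≤ ∑ d ∈ Icc 1 D, ∑ e ∈ Icc 1 D, ∑ g ∈ Icc 1 D, (g : ℝ) *
        ((if g ∣ d then wk k d / d else 0) * (if g ∣ e then wk k e / e else 0)) :=
        Finset.sum_le_sum fun d hd => Finset.sum_le_sum fun e he => h1 d hd e he
    _ = ∑ g ∈ Icc 1 D, ∑ d ∈ Icc 1 D, ∑ e ∈ Icc 1 D, (g : ℝ) *
        ((if g ∣ d then wk k d / d else 0) * (if g ∣ e then wk k e / e else 0)) := by
        have : ∀ d ∈ Icc 1 D, ∑ e ∈ Icc 1 D, ∑ g ∈ Icc 1 D, (g : ℝ) *
          ((if g ∣ d then wk k d / d else 0) * (if g ∣ e then wk k e / e else 0)) =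
          ∑ g ∈ Icc 1 D, ∑ e ∈ Icc 1 D, (g : ℝ) *
          ((if g ∣ d then wk k d / d else 0) * (if g ∣ e then wk k e / e else 0)) := by
          intro d _
          rw [Finset.sum_comm]
        rw [Finset.sum_congr rfl this, Finset.sum_comm]
    _ = ∑ g ∈ Icc 1 D, (g : ℝ) * (∑ d ∈ Icc 1 D, if g ∣ d then wk k d / d else 0) ^ 2 := by
        refine Finset.sum_congr rfl fun g _ => ?_
        rw [pow_two, Finset.sum_mul_sum, Finset.mul_sum]
        refine Finset.sum_congr rfl fun d _ => ?_
        rw [Finset.mul_sum]
    _ ≤ ∑ g ∈ Icc 1 D, (g : ℝ) * (wk k g / g * (1 + Real.log D) ^ k) ^ 2 := by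
        refine Finset.sum_le_sum fun g hg => ?_
        rw [Finset.mem_Icc] at hg
        have hg0 : (0 : ℝ) < g := by exact_mod_cast (by omega : 0 < g)
        apply mul_le_mul_of_nonneg_left _ hg0.le
        have h0 : 0 ≤ ∑ d ∈ Icc 1 D, (if g ∣ d then wk k d / d else 0) := by
          refine Finset.sum_nonneg fun d _ => ?_
          have := wk_nonneg k d
          split_ifs
          · positivity
          · exact le_rfl
        apply pow_le_pow_left₀ h0
        rw [← Finset.sum_filter]
        refine (mult_sum D g hg.1 (fun d => wk k d / d) fun n => by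
          have := wk_nonneg k n; positivity).trans ?_
        calc ∑ f ∈ Icc 1 D, wk k (g * f) / ((g * f : ℕ) : ℝ)
            ≤ ∑ f ∈ Icc 1 D, wk k g / g * (wk k f / f) := by
              refine Finset.sum_le_sum fun f hf => ?_
              have hf0 : (0 : ℝ) < f := by exact_mod_cast (by have := (Finset.mem_Icc.1 hf).1; omega : 0 < f)
              rw [div_mul_div_comm]
              push_cast
              gcongr
              exact wk_mul k g f
          _ = wk k g / g * ∑ f ∈ Icc 1 D, wk k f / f := by rw [Finset.mul_sum]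
          _ ≤ _ := by
              apply mul_le_mul_of_nonneg_left (wk_sum k D hD)
              have := wk_nonneg k g
              positivity
    _ = (1 + Real.log D) ^ (2 * k) * ∑ g ∈ Icc 1 D, wk (k ^ 2) g / g := by
        rw [Finset.mul_sum]
        refine Finset.sum_congr rfl fun g hg => ?_
        rw [Finset.mem_Icc] at hg
        have hg0 : (0 : ℝ) < g := by exact_mod_cast (by omega : 0 < g)
        have h2 : wk k g ^ 2 = wk (k ^ 2) g := by
          unfold wk
          split_ifs
          · push_cast
            rw [← pow_mul, ← pow_mul, mul_comm]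
          · simp
        rw [← h2, mul_pow, div_pow, ← pow_mul, mul_comm k 2]
        field_simp
    _ ≤ (1 + Real.log D) ^ (2 * k) * (1 + Real.log D) ^ (k ^ 2) := by
        apply mul_le_mul_of_nonneg_left (wk_sum _ D hD) (by positivity)
    _ = _ := by rw [← pow_add, add_comm (2 * k)]

end Pool.Agent.R516
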