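import Mathlib
import Pool.Agent.R516.Gs
import Pool.Agent.R516.Mom
import Pool.Agent.Y827.LS.Stm

/-! The variance of the sieve for small primes in short windows. -/

set_option autoImplicit false

namespace Pool.Agent.R516

open Finset Filter Topology
open Pool.Agent.H442R2
open Pool.Agent.H442R2.KF (Wt)
open Pool.Agent.Y827.LS (dc)

theorem Bd.dl (d : ℕ) (h : ℤ) : Bd (fun n => BX.dl d (n + h)) := by
  unfold BX.dl
  exact ((Bd.ite0 (d : ℤ)).shift h).sub (Bd.const _)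

theorem Bd.dc (c : ℕ → ℝ) (Z : ℕ) (h : ℤ) : Bd (fun n => dc c Z (n + h)) := by
  unfold Pool.Agent.Y827.LS.dc
  exact Bd.sum _ fun d _ => (Bd.dl d h).cmul _

/-- number of elements of a class in a window -/
theorem cls_count (g : ℕ) (hg : 1 ≤ g) (h : ℤ) (H : ℕ) :
    |∑ k ∈ Icc 1 H, ((if (g : ℤ) ∣ h - k then (1 : ℝ) else 0) - 1 / g)| ≤ 1 := by
  have hg0 : (0 : ℝ) < g := by exact_mod_cast hg
  have hgz : (0 : ℤ) < g := by exact_mod_cast hg
  have h1 : ∀ H : ℕ, ∑ k ∈ Icc 1 H, (if (g : ℤ) ∣ h - k then (1 : ℝ) else 0) =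
      (((H - h) / g : ℤ) : ℝ) - (((-h) / g : ℤ) : ℝ) := by
    intro H
    induction H with
    | zero => simp
    | succ H ih =>
      rw [Finset.sum_Icc_succ_top (by omega), ih]
      have e1 : ((g : ℤ) ∣ h - ((H + 1 : ℕ) : ℤ)) ↔ (g : ℤ) ∣ (H : ℤ) - h + 1 := by
        rw [← dvd_neg]
        have : -(h - ((H + 1 : ℕ) : ℤ)) = (H : ℤ) - h + 1 := by push_cast; ring
        rw [this]
      have e2 : ((H + 1 : ℕ) : ℤ) - h = (H : ℤ) - h + 1 := by push_cast; ring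
      rw [e2]
      generalize (H : ℤ) - h = m at *
      by_cases hd : (g : ℤ) ∣ m + 1
      · rw [if_pos (e1.2 hd)]
        obtain ⟨q, hq⟩ := hd
        have e3 : (m + 1) / (g : ℤ) = q := by
          rw [hq]
          exact Int.mul_ediv_cancel_left q hgz.ne'
        have e4 : m / (g : ℤ) = q - 1 := by
          rw [Int.ediv_eq_iff_of_pos hgz]
          constructor <;> nlinarith
        rw [e3, e4]
        push_cast
        ring
      · rw [if_neg (fun hh => hd (e1.1 hh))]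
        have e5 : (m + 1) / (g : ℤ) = m / (g : ℤ) := by
          have q1 := Int.emod_nonneg m hgz.ne'
          have q2 := Int.emod_lt_of_pos m hgz
          have q3 := Int.mul_ediv_add_emod m g
          rw [Int.ediv_eq_iff_of_pos hgz]
          have q4 : m % (g : ℤ) + 1 ≠ g := by
            intro hh
            apply hd
            refine ⟨m / g + 1, ?_⟩
            have : (g : ℤ) * (m / g + 1) = g * (m / g) + g := by ring
            rw [this]
            omega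
          have q5 : m % (g : ℤ) + 1 < g := by omega
          constructor <;> nlinarith
        rw [e5]
        ring
  rw [Finset.sum_sub_distrib, h1, Finset.sum_const, Nat.card_Icc, nsmul_eq_mul]
  have f1 : ∀ m : ℤ, ((m / (g : ℤ) : ℤ) : ℝ) ≤ (m : ℝ) / g ∧ (m : ℝ) / g < ((m / (g : ℤ) : ℤ) : ℝ) + 1 := by
    intro m
    have q1 := Int.emod_nonneg m hgz.ne'
    have q2 := Int.emod_lt_of_pos m hgz
    have q3 := Int.mul_ediv_add_emod m g
    have r1 : (0 : ℝ) ≤ ((m % (g : ℤ) : ℤ) : ℝ) := by exact_mod_cast q1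
    have r2 : ((m % (g : ℤ) : ℤ) : ℝ) < g := by exact_mod_cast q2
    have r3 : (g : ℝ) * ((m / (g : ℤ) : ℤ) : ℝ) + ((m % (g : ℤ) : ℤ) : ℝ) = m := by
      exact_mod_cast q3
    constructor
    · rw [le_div_iff₀ hg0]
      nlinarith
    · rw [div_lt_iff₀ hg0]
      nlinarith
  have f2 := f1 (H - h)
  have f3 := f1 (-h)
  have f4 : (((H : ℤ) - h : ℤ) : ℝ) / g - ((-h : ℤ) : ℝ) / g = (H + 1 - 1 : ℕ) * (1 / (g : ℝ)) := by
    rw [Nat.add_sub_cancel]
    push_cast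
    ring
  rw [abs_le]
  constructor <;> linarith [f2.1, f2.2, f3.1, f3.2]

/-- the window sum of a centred indicator -/
noncomputable def ud (H d : ℕ) (n : ℤ) : ℝ := ∑ h ∈ Icc 1 H, BX.dl d (n + h)

theorem Bd.ud (H d : ℕ) : Bd (ud H d) := by
  unfold Pool.Agent.R516.ud
  exact Bd.sum _ fun h _ => Bd.dl d h

theorem Gs_one {N : ℕ} 
    (hcl : ∀ m : ℕ, 1 ≤ m → (m : ℝ) * Real.log N ≤ N →
    ∀ c : ℤ, |Gs N (fun n => if (m : ℤ) ∣ n - c then 1 else 0) - (N : ℝ) / m| ≤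
      1 / (N : ℝ) ^ 5) (hlog : Real.log N ≤ N) : |Gs N (fun _ => 1) - N| ≤ 1 / (N : ℝ) ^ 5 := by
  have h := hcl 1 le_rfl (by push_cast; linarith) 0
  have e : Gs N (fun n => if ((1 : ℕ) : ℤ) ∣ n - 0 then 1 else 0) = Gs N (fun _ => 1) := by
    apply Gs_congr
    intro n
    simp
  rw [e, Nat.cast_one, div_one] at h
  exact h

theorem Gs_dl2 {N D : ℕ} (hN : 1 ≤ N)
    (hcl : ∀ m : ℕ, 1 ≤ m → (m : ℝ) * Real.log N ≤ N →
    ∀ c : ℤ, |Gs N (fun n => if (m : ℤ) ∣ n - c then 1 else 0) - (N : ℝ) / m| ≤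
      1 / (N : ℝ) ^ 5) (hD : (D : ℝ) ^ 2 * Real.log N ≤ N) (d e : ℕ) (hd : 1 ≤ d) (he : 1 ≤ e)
    (hdD : d ≤ D) (heD : e ≤ D) (h h' : ℤ) :
    |Gs N (fun n => BX.dl d (n + h) * BX.dl e (n + h')) -
      N * (1 / ((Nat.lcm d e : ℕ) : ℝ) *
        ((if ((Nat.gcd d e : ℕ) : ℤ) ∣ h - h' then 1 else 0) - 1 / ((Nat.gcd d e : ℕ) : ℝ)))| ≤
      4 / (N : ℝ) ^ 5 := by
  have hlog : 0 ≤ Real.log N := Real.log_natCast_nonneg N
  have hD1 : (1 : ℝ) ≤ D := by exact_mod_cast hd.trans hdD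
  have hle : ∀ m : ℕ, m ≤ D → (m : ℝ) * Real.log N ≤ N := by
    intro m hm
    have : (m : ℝ) ≤ D := by exact_mod_cast hm
    calc (m : ℝ) * Real.log N ≤ (D : ℝ) ^ 2 * Real.log N := by
          apply mul_le_mul_of_nonneg_right _ hlog
          nlinarith
      _ ≤ N := hD
  have h2 := Gs_cl2 hN hcl hD d e hd he hdD heD h h'
  have h3 := hcl d hd (hle d hdD) (-h)
  have h4 := hcl e he (hle e heD) (-h')
  have h5 := Gs_one hcl (by have := hle 1 (hd.trans hdD); push_cast at this; linarith)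
  simp only [sub_neg_eq_add] at h3 h4
  have b1 := (Bd.ite0 (d : ℤ)).shift h
  have b2 := (Bd.ite0 (e : ℤ)).shift h'
  have e1 : Gs N (fun n => BX.dl d (n + h) * BX.dl e (n + h')) =
      Gs N (fun n => (if (d : ℤ) ∣ n + h then (1 : ℝ) else 0) * (if (e : ℤ) ∣ n + h' then 1 else 0)) -
      1 / (e : ℝ) * Gs N (fun n => if (d : ℤ) ∣ n + h then 1 else 0) -
      1 / (d : ℝ) * Gs N (fun n => if (e : ℤ) ∣ n + h' then 1 else 0) +
      1 / ((d : ℝ) * e) * Gs N (fun _ => 1) := by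
    rw [← Gs_cmul, ← Gs_cmul, ← Gs_cmul, ← Gs_sub hN (b1.mul b2) (b1.cmul _),
      ← Gs_sub hN ((b1.mul b2).sub (b1.cmul _)) (b2.cmul _),
      ← Gs_add hN (((b1.mul b2).sub (b1.cmul _)).sub (b2.cmul _)) ((Bd.const 1).cmul _)]
    apply Gs_congr
    intro n
    unfold BX.dl
    ring
  have hd0 : (0 : ℝ) < d := by exact_mod_cast hd
  have he0 : (0 : ℝ) < e := by exact_mod_cast he
  have hd1 : 1 / (d : ℝ) ≤ 1 := by rw [div_le_one hd0]; exact_mod_cast hd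
  have he1 : 1 / (e : ℝ) ≤ 1 := by rw [div_le_one he0]; exact_mod_cast he
  have hg0 : (0 : ℝ) < ((Nat.gcd d e : ℕ) : ℝ) := by
    exact_mod_cast Nat.gcd_pos_of_pos_left e hd
  have hl0 : (0 : ℝ) < ((Nat.lcm d e : ℕ) : ℝ) := by exact_mod_cast Nat.lcm_pos hd he
  have hgl : ((Nat.gcd d e : ℕ) : ℝ) * ((Nat.lcm d e : ℕ) : ℝ) = d * e := by
    exact_mod_cast Nat.gcd_mul_lcm d e
  have e2 : (1 : ℝ) / ((Nat.lcm d e : ℕ) : ℝ) * (1 / ((Nat.gcd d e : ℕ) : ℝ)) = 1 / ((d : ℝ) * e) := by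
    rw [← hgl, one_div_mul_one_div, mul_comm]
  have e3 : N * (1 / ((Nat.lcm d e : ℕ) : ℝ) *
        ((if ((Nat.gcd d e : ℕ) : ℤ) ∣ h - h' then 1 else 0) - 1 / ((Nat.gcd d e : ℕ) : ℝ))) =
      N * ((if ((Nat.gcd d e : ℕ) : ℤ) ∣ h - h' then 1 else 0) / ((Nat.lcm d e : ℕ) : ℝ)) -
      1 / (e : ℝ) * (N / d) - 1 / (d : ℝ) * (N / e) + 1 / ((d : ℝ) * e) * N := by
    rw [mul_sub (1 / ((Nat.lcm d e : ℕ) : ℝ)), e2]
    field_simp
    ring
  rw [e1, e3]
  have k1 : |1 / (e : ℝ) * (Gs N (fun n => if (d : ℤ) ∣ n + h then 1 else 0) - N / d)| ≤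
      1 / (N : ℝ) ^ 5 := by
    rw [abs_mul, abs_of_pos (by positivity : 0 < 1 / (e : ℝ))]
    calc _ ≤ 1 * (1 / (N : ℝ) ^ 5) := mul_le_mul he1 h3 (abs_nonneg _) zero_le_one
      _ = _ := one_mul _
  have k2 : |1 / (d : ℝ) * (Gs N (fun n => if (e : ℤ) ∣ n + h' then 1 else 0) - N / e)| ≤
      1 / (N : ℝ) ^ 5 := by
    rw [abs_mul, abs_of_pos (by positivity : 0 < 1 / (d : ℝ))]
    calc _ ≤ 1 * (1 / (N : ℝ) ^ 5) := mul_le_mul hd1 h4 (abs_nonneg _) zero_le_one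
      _ = _ := one_mul _
  have k3 : |1 / ((d : ℝ) * e) * (Gs N (fun _ => 1) - N)| ≤ 1 / (N : ℝ) ^ 5 := by
    rw [abs_mul, abs_of_pos (by positivity : 0 < 1 / ((d : ℝ) * e))]
    have : 1 / ((d : ℝ) * e) ≤ 1 := by
      rw [← one_div_mul_one_div]
      calc 1 / (d : ℝ) * (1 / e) ≤ 1 * 1 := by gcongr
        _ = 1 := one_mul _
    calc _ ≤ 1 * (1 / (N : ℝ) ^ 5) := mul_le_mul this h5 (abs_nonneg _) zero_le_one
      _ = _ := one_mul _
  have k4 : 4 / (N : ℝ) ^ 5 = 1 / (N : ℝ) ^ 5 + 1 / (N : ℝ) ^ 5 + 1 / (N : ℝ) ^ 5 + 1 / (N : ℝ) ^ 5 := by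
    ring
  rw [k4]
  rw [abs_le] at h2 k1 k2 k3 ⊢
  constructor <;> nlinarith [h2.1, h2.2, k1.1, k1.2, k2.1, k2.2, k3.1, k3.2]

theorem Gs_ud {N D : ℕ} (hN : 1 ≤ N)
    (hcl : ∀ m : ℕ, 1 ≤ m → (m : ℝ) * Real.log N ≤ N →
    ∀ c : ℤ, |Gs N (fun n => if (m : ℤ) ∣ n - c then 1 else 0) - (N : ℝ) / m| ≤
      1 / (N : ℝ) ^ 5) (hD : (D : ℝ) ^ 2 * Real.log N ≤ N) (d e : ℕ) (hd : 1 ≤ d) (he : 1 ≤ e)
    (hdD : d ≤ D) (heD : e ≤ D) (H : ℕ) :
    |Gs N (fun n => ud H d n * ud H e n)| ≤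
      N * H * (1 / ((Nat.lcm d e : ℕ) : ℝ)) + (H : ℝ) ^ 2 * (4 / (N : ℝ) ^ 5) := by
  have e1 : Gs N (fun n => ud H d n * ud H e n) =
      ∑ h ∈ Icc 1 H, ∑ h' ∈ Icc 1 H, Gs N (fun n => BX.dl d (n + h) * BX.dl e (n + h')) := by
    have e2 : ∀ n, ud H d n * ud H e n =
        ∑ h ∈ Icc 1 H, ∑ h' ∈ Icc 1 H, BX.dl d (n + h) * BX.dl e (n + h') := by
      intro n
      unfold ud
      rw [Finset.sum_mul_sum]
    rw [Gs_congr N e2, Gs_sum hN]
    · refine Finset.sum_congr rfl fun h _ => ?_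
      rw [Gs_sum hN]
      intro h' _
      exact (Bd.dl d h).mul (Bd.dl e h')
    · intro h _
      exact Bd.sum _ fun h' _ => (Bd.dl d h).mul (Bd.dl e h')
  rw [e1]
  have hl0 : (0 : ℝ) < ((Nat.lcm d e : ℕ) : ℝ) := by exact_mod_cast Nat.lcm_pos hd he
  have hg1 : 1 ≤ Nat.gcd d e := Nat.gcd_pos_of_pos_left e hd
  set T : ℕ → ℕ → ℝ := fun h h' => N * (1 / ((Nat.lcm d e : ℕ) : ℝ) *
        ((if ((Nat.gcd d e : ℕ) : ℤ) ∣ (h : ℤ) - h' then 1 else 0) - 1 / ((Nat.gcd d e : ℕ) : ℝ)))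
    with hT
  have e3 : ∑ h ∈ Icc 1 H, ∑ h' ∈ Icc 1 H, Gs N (fun n => BX.dl d (n + h) * BX.dl e (n + h')) =
      ∑ h ∈ Icc 1 H, ∑ h' ∈ Icc 1 H, T h h' +
      ∑ h ∈ Icc 1 H, ∑ h' ∈ Icc 1 H,
        (Gs N (fun n => BX.dl d (n + h) * BX.dl e (n + h')) - T h h') := by
    rw [← Finset.sum_add_distrib]
    refine Finset.sum_congr rfl fun h _ => ?_
    rw [← Finset.sum_add_distrib]
    refine Finset.sum_congr rfl fun h' _ => ?_
    ring
  rw [e3]
  refine (abs_add_le _ _).trans (add_le_add ?_ ?_)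
  · refine (Finset.abs_sum_le_sum_abs _ _).trans ?_
    calc ∑ h ∈ Icc 1 H, |∑ h' ∈ Icc 1 H, T h h'|
        ≤ ∑ h ∈ Icc 1 H, N * (1 / ((Nat.lcm d e : ℕ) : ℝ)) := by
          refine Finset.sum_le_sum fun h _ => ?_
          have e4 : ∑ h' ∈ Icc 1 H, T h h' = N * (1 / ((Nat.lcm d e : ℕ) : ℝ)) *
              ∑ h' ∈ Icc 1 H, ((if ((Nat.gcd d e : ℕ) : ℤ) ∣ (h : ℤ) - h' then (1 : ℝ) else 0) -
                1 / ((Nat.gcd d e : ℕ) : ℝ)) := by
            rw [Finset.mul_sum]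
            refine Finset.sum_congr rfl fun h' _ => ?_
            simp only [hT]
            ring
          rw [e4, abs_mul, abs_of_nonneg (by positivity)]
          have := cls_count (Nat.gcd d e) hg1 h H
          calc _ ≤ N * (1 / ((Nat.lcm d e : ℕ) : ℝ)) * 1 :=
                mul_le_mul_of_nonneg_left this (by positivity)
            _ = _ := mul_one _
      _ = _ := by
          rw [Finset.sum_const, Nat.card_Icc, nsmul_eq_mul, Nat.add_sub_cancel]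
          ring
  · refine (Finset.abs_sum_le_sum_abs _ _).trans ?_
    calc ∑ h ∈ Icc 1 H, |∑ h' ∈ Icc 1 H,
          (Gs N (fun n => BX.dl d (n + h) * BX.dl e (n + h')) - T h h')|
        ≤ ∑ h ∈ Icc 1 H, ∑ h' ∈ Icc 1 H, 4 / (N : ℝ) ^ 5 := by
          refine Finset.sum_le_sum fun h _ => (Finset.abs_sum_le_sum_abs _ _).trans ?_
          exact Finset.sum_le_sum fun h' _ => Gs_dl2 hN hcl hD d e hd he hdD heD h h'
      _ = _ := by
          rw [Finset.sum_const, Finset.sum_const, Nat.card_Icc, nsmul_eq_mul, nsmul_eq_mul,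
            Nat.add_sub_cancel]
          ring

theorem sum_wk_le (k D : ℕ) : ∑ d ∈ Icc 1 D, wk k d ≤ (k + 1 : ℝ) ^ D * D := by
  calc ∑ d ∈ Icc 1 D, wk k d ≤ ∑ d ∈ Icc 1 D, (k + 1 : ℝ) ^ D := by
        refine Finset.sum_le_sum fun d hd => ?_
        have hd' := Finset.mem_Icc.1 hd
        unfold wk
        have hk : (1 : ℝ) ≤ (k + 1 : ℝ) := by
          have : (0 : ℝ) ≤ k := Nat.cast_nonneg _
          linarith
        split_ifs
        · calc (k : ℝ) ^ d.primeFactors.card ≤ (k + 1 : ℝ) ^ d.primeFactors.card := by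
                gcongr
                linarith
            _ ≤ (k + 1 : ℝ) ^ D := by
                apply pow_le_pow_right₀ hk
                calc d.primeFactors.card ≤ (Icc 1 d).card := by
                      apply Finset.card_le_card
                      intro p hp
                      have h1 := Nat.le_of_mem_primeFactors hp
                      have h2 := (Nat.prime_of_mem_primeFactors hp).one_lt
                      rw [Finset.mem_Icc]
                      omega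
                  _ = d := by rw [Nat.card_Icc]; omega
                  _ ≤ D := hd'.2
        · positivity
    _ = _ := by
        rw [Finset.sum_const, Nat.card_Icc, nsmul_eq_mul, Nat.add_sub_cancel]
        ring

/-- `3 ^ ω(d) ≤ d ^ 2` -/
theorem wk3_le (d : ℕ) (hd : 1 ≤ d) : wk 3 d ≤ (d : ℝ) ^ 2 := by
  unfold wk
  split_ifs
  · have h1 : 2 ^ d.primeFactors.card ≤ d := by
      have h2 : ∏ p ∈ d.primeFactors, 2 ≤ ∏ p ∈ d.primeFactors, p :=
        Finset.prod_le_prod' fun p hp => (Nat.prime_of_mem_primeFactors hp).two_le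
      rw [Finset.prod_const] at h2
      exact h2.trans (Nat.le_of_dvd (by omega) (Nat.prod_primeFactors_dvd d))
    have h3 : (2 : ℝ) ^ d.primeFactors.card ≤ d := by exact_mod_cast h1
    calc ((3 : ℕ) : ℝ) ^ d.primeFactors.card ≤ ((2 : ℝ) ^ 2) ^ d.primeFactors.card := by
          gcongr
          norm_num
      _ = ((2 : ℝ) ^ d.primeFactors.card) ^ 2 := by rw [← pow_mul, ← pow_mul, mul_comm]
      _ ≤ _ := by gcongr
  · positivity

theorem sum_wk3 (D : ℕ) : ∑ d ∈ Icc 1 D, wk 3 d ≤ (D : ℝ) ^ 3 := by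
  calc ∑ d ∈ Icc 1 D, wk 3 d ≤ ∑ d ∈ Icc 1 D, (D : ℝ) ^ 2 := by
        refine Finset.sum_le_sum fun d hd => ?_
        have hd' := Finset.mem_Icc.1 hd
        refine (wk3_le d hd'.1).trans ?_
        have : (d : ℝ) ≤ D := by exact_mod_cast hd'.2
        gcongr
    _ = _ := by
        rw [Finset.sum_const, Nat.card_Icc, nsmul_eq_mul, Nat.add_sub_cancel]
        ring

/-- **variance of the sieve for small primes** -/
theorem var_A {N D : ℕ} (hN : 1 ≤ N) (hD1 : 1 ≤ D)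
    (hcl : ∀ m : ℕ, 1 ≤ m → (m : ℝ) * Real.log N ≤ N →
    ∀ c : ℤ, |Gs N (fun n => if (m : ℤ) ∣ n - c then 1 else 0) - (N : ℝ) / m| ≤
      1 / (N : ℝ) ^ 5) (hD : (D : ℝ) ^ 2 * Real.log N ≤ N) (c : ℕ → ℝ)
    (hc : ∀ d, |c d| ≤ wk 3 d) (H : ℕ) :
    Gs N (fun n => (∑ h ∈ Icc 1 H, dc c D (n + h)) ^ 2) ≤
      N * H * (1 + Real.log D) ^ 15 + (D : ℝ) ^ 6 * ((H : ℝ) ^ 2 * (4 / (N : ℝ) ^ 5)) := by
  have e1 : ∀ n, (∑ h ∈ Icc 1 H, dc c D (n + h)) ^ 2 =
      ∑ d ∈ Icc 1 D, ∑ e ∈ Icc 1 D, (c d * c e) * (ud H d n * ud H e n) := by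
    intro n
    have e2 : ∑ h ∈ Icc 1 H, dc c D (n + h) = ∑ d ∈ Icc 1 D, c d * ud H d n := by
      unfold dc ud
      rw [Finset.sum_comm]
      refine Finset.sum_congr rfl fun d _ => ?_
      rw [Finset.mul_sum]
    rw [e2, pow_two, Finset.sum_mul_sum]
    refine Finset.sum_congr rfl fun d _ => Finset.sum_congr rfl fun e _ => ?_
    ring
  rw [Gs_congr N e1, Gs_sum hN]
  swap
  · intro d _
    exact Bd.sum _ fun e _ => ((Bd.ud H d).mul (Bd.ud H e)).cmul _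
  calc ∑ d ∈ Icc 1 D, Gs N (fun n => ∑ e ∈ Icc 1 D, (c d * c e) * (ud H d n * ud H e n))
      ≤ ∑ d ∈ Icc 1 D, ∑ e ∈ Icc 1 D, wk 3 d * wk 3 e *
        (N * H * (1 / ((Nat.lcm d e : ℕ) : ℝ)) + (H : ℝ) ^ 2 * (4 / (N : ℝ) ^ 5)) := by
        refine Finset.sum_le_sum fun d hd => ?_
        rw [Gs_sum hN]
        swap
        · intro e _
          exact ((Bd.ud H d).mul (Bd.ud H e)).cmul _
        refine Finset.sum_le_sum fun e he => ?_
        rw [Gs_cmul]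
        refine (le_abs_self _).trans ?_
        rw [abs_mul, abs_mul]
        rw [Finset.mem_Icc] at hd he
        apply mul_le_mul _ (Gs_ud hN hcl hD d e hd.1 he.1 hd.2 he.2 H) (abs_nonneg _)
        · exact mul_nonneg (wk_nonneg 3 d) (wk_nonneg 3 e)
        · exact mul_le_mul (hc d) (hc e) (abs_nonneg _) (wk_nonneg 3 d)
    _ = N * H * ∑ d ∈ Icc 1 D, ∑ e ∈ Icc 1 D, wk 3 d * wk 3 e / ((Nat.lcm d e : ℕ) : ℝ) +
        (∑ d ∈ Icc 1 D, wk 3 d) * (∑ e ∈ Icc 1 D, wk 3 e) * ((H : ℝ) ^ 2 * (4 / (N : ℝ) ^ 5)) := by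
        rw [Finset.sum_mul_sum, Finset.mul_sum, Finset.sum_mul, ← Finset.sum_add_distrib]
        refine Finset.sum_congr rfl fun d _ => ?_
        rw [Finset.mul_sum, Finset.sum_mul, ← Finset.sum_add_distrib]
        refine Finset.sum_congr rfl fun e _ => ?_
        ring
    _ ≤ _ := by
        apply add_le_add
        · apply mul_le_mul_of_nonneg_left _ (by positivity)
          exact wk_quad 3 D hD1
        · apply mul_le_mul_of_nonneg_right _ (by positivity)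
          have h0 : 0 ≤ ∑ d ∈ Icc 1 D, wk 3 d := Finset.sum_nonneg fun d _ => wk_nonneg 3 d
          calc _ ≤ (D : ℝ) ^ 3 * (D : ℝ) ^ 3 := mul_le_mul (sum_wk3 D) (sum_wk3 D) h0 (by positivity)
            _ = _ := by ring

end Pool.Agent.R516
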