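import Mathlib
import Pool.Agent.R516.VarA
import Pool.Agent.TH899.UG.R2g

/-! The variance of one block of the linear sieve in short windows. -/

set_option autoImplicit false

namespace Pool.Agent.R516

open Finset Filter Topology
open Pool.Agent.H442R2
open Pool.Agent.H442R2.KF (Wt)
open Pool.Agent.Y827.LS (dc)
open Pool.Agent.W25.UB (ds)
open Pool.Agent.TH899.UG (ExG)

theorem ofFamG {κ : Type} (J : Finset κ) (q : κ → ℕ) (b : κ → ℤ) (φ : κ → ℝ) (S : ℕ → Prop)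
    (Y R : ℝ) (Φ : ℤ → ℝ) (m : ℝ)
    (h1 : ∀ n : ℤ, Φ n = ∑ j ∈ J, φ j * (if (q j : ℤ) ∣ n - b j then 1 else 0))
    (h2 : ∑ j ∈ J, |φ j| ≤ Y)
    (h3 : ∀ j ∈ J, 1 ≤ q j ∧ (q j : ℝ) ≤ R ∧ ∀ p : ℕ, p.Prime → p ∣ q j → S p)
    (h4 : m = ∑ j ∈ J, φ j / q j) : ExG S Y R Φ m := by
  classical
  set g : κ → ℕ × ℤ := fun j => (q j, b j) with hg
  have hmaps : ∀ j ∈ J, g j ∈ J.image g := fun j hj => Finset.mem_image_of_mem g hj
  refine ⟨J.image g, fun x => ∑ j ∈ J with g j = x, φ j, ?_, ?_, ?_, ?_⟩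
  · intro n
    rw [h1 n, ← Finset.sum_fiberwise_of_maps_to hmaps]
    refine Finset.sum_congr rfl fun x _ => ?_
    rw [Finset.sum_mul]
    refine Finset.sum_congr rfl fun j hj => ?_
    rw [← (Finset.mem_filter.1 hj).2]
  · refine le_trans ?_ h2
    rw [← Finset.sum_fiberwise_of_maps_to hmaps]
    exact Finset.sum_le_sum fun x _ => Finset.abs_sum_le_sum_abs _ _
  · intro x hx
    obtain ⟨j, hj, rfl⟩ := Finset.mem_image.1 hx
    exact h3 j hj
  · rw [h4, ← Finset.sum_fiberwise_of_maps_to hmaps]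
    refine Finset.sum_congr rfl fun x _ => ?_
    rw [Finset.sum_div]
    refine Finset.sum_congr rfl fun j hj => ?_
    rw [← (Finset.mem_filter.1 hj).2]

theorem ds_mul (c : ℕ → ℝ) (D : ℕ) (u v : ℤ) : ds c D u * ds c D v =
    ∑ x ∈ Icc 1 D ×ˢ Icc 1 D, c x.1 * c x.2 *
      ((if (x.1 : ℤ) ∣ u then (1 : ℝ) else 0) * (if (x.2 : ℤ) ∣ v then 1 else 0)) := by
  unfold ds
  rw [Finset.sum_mul_sum, Finset.sum_product]
  refine Finset.sum_congr rfl fun d _ => Finset.sum_congr rfl fun e _ => ?_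
  ring

theorem exg_pair (P : Finset ℕ) (D : ℕ) (hD : 1 ≤ D) (c : ℕ → ℝ) (hc : ∀ d, |c d| ≤ wk 3 d)
    (hP : ∀ d, c d ≠ 0 → ∀ p : ℕ, p.Prime → p ∣ d → p ∈ P) (h h' : ℤ) (K : ℝ) (hK : 1 ≤ K)
    (hK' : (1 + Real.log D) ^ 15 ≤ K) :
    ∃ m : ℝ, |m| ≤ 1 ∧ ExG (fun p => p ∈ P) ((D : ℝ) ^ 6) ((D : ℝ) ^ 2)
      (fun n => ds c D (n + h) * ds c D (n + h') / K) m := by
  classical
  have hK0 : 0 < K := by linarith
  have hb : ∀ x : ℕ × ℕ, ∃ b : ℤ, (((Nat.gcd x.1 x.2 : ℕ) : ℤ) ∣ h - h' → ∀ n : ℤ,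
      (if (x.1 : ℤ) ∣ n + h then (1 : ℝ) else 0) * (if (x.2 : ℤ) ∣ n + h' then 1 else 0) =
        if ((Nat.lcm x.1 x.2 : ℕ) : ℤ) ∣ n - b then 1 else 0) := by
    intro x
    by_cases hx : ((Nat.gcd x.1 x.2 : ℕ) : ℤ) ∣ h - h'
    · obtain ⟨b, hb⟩ := (crt2 x.1 x.2 h h').2 hx
      exact ⟨b, fun _ => hb⟩
    · exact ⟨0, fun hh => absurd hh hx⟩
  choose b hb using hb
  set J : Finset (ℕ × ℕ) := (Icc 1 D ×ˢ Icc 1 D).filter (fun x => c x.1 ≠ 0 ∧ c x.2 ≠ 0 ∧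
    ((Nat.gcd x.1 x.2 : ℕ) : ℤ) ∣ h - h') with hJ
  have hsub : J ⊆ Icc 1 D ×ˢ Icc 1 D := Finset.filter_subset _ _
  refine ⟨∑ x ∈ J, c x.1 * c x.2 / K / ((Nat.lcm x.1 x.2 : ℕ) : ℝ), ?_, ?_⟩
  · refine (Finset.abs_sum_le_sum_abs _ _).trans ?_
    calc ∑ x ∈ J, |c x.1 * c x.2 / K / ((Nat.lcm x.1 x.2 : ℕ) : ℝ)|
        ≤ ∑ x ∈ J, wk 3 x.1 * wk 3 x.2 / ((Nat.lcm x.1 x.2 : ℕ) : ℝ) / K := by
          refine Finset.sum_le_sum fun x _ => ?_
          rw [abs_div, abs_div, abs_mul, abs_of_pos hK0, Nat.abs_cast, div_right_comm]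
          have := mul_le_mul (hc x.1) (hc x.2) (abs_nonneg _) (wk_nonneg 3 x.1)
          gcongr
      _ ≤ ∑ x ∈ Icc 1 D ×ˢ Icc 1 D, wk 3 x.1 * wk 3 x.2 / ((Nat.lcm x.1 x.2 : ℕ) : ℝ) / K := by
          apply Finset.sum_le_sum_of_subset_of_nonneg hsub
          intro x _ _
          have := mul_nonneg (wk_nonneg 3 x.1) (wk_nonneg 3 x.2)
          positivity
      _ = (∑ d ∈ Icc 1 D, ∑ e ∈ Icc 1 D, wk 3 d * wk 3 e / ((Nat.lcm d e : ℕ) : ℝ)) / K := by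
          rw [← Finset.sum_div, Finset.sum_product]
      _ ≤ 1 := by
          rw [div_le_one hK0]
          exact (wk_quad 3 D hD).trans hK'
  · apply ofFamG J (fun x => Nat.lcm x.1 x.2) b (fun x => c x.1 * c x.2 / K)
    · intro n
      rw [ds_mul, Finset.sum_div, hJ, Finset.sum_filter]
      refine Finset.sum_congr rfl fun x _ => ?_
      by_cases hx : c x.1 ≠ 0 ∧ c x.2 ≠ 0 ∧ ((Nat.gcd x.1 x.2 : ℕ) : ℤ) ∣ h - h'
      · rw [if_pos hx, hb x hx.2.2 n]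
        ring
      · rw [if_neg hx]
        by_cases h1 : c x.1 = 0
        · rw [h1]; ring
        · by_cases h2 : c x.2 = 0
          · rw [h2]; ring
          · have h3 : ¬ ((Nat.gcd x.1 x.2 : ℕ) : ℤ) ∣ h - h' := fun hh => hx ⟨h1, h2, hh⟩
            rw [(crt2 x.1 x.2 h h').1 h3 n]
            ring
    · calc ∑ x ∈ J, |c x.1 * c x.2 / K| ≤ ∑ x ∈ J, wk 3 x.1 * wk 3 x.2 := by
            refine Finset.sum_le_sum fun x _ => ?_
            rw [abs_div, abs_mul, abs_of_pos hK0]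
            have h1 := mul_le_mul (hc x.1) (hc x.2) (abs_nonneg _) (wk_nonneg 3 x.1)
            have h2 := mul_nonneg (wk_nonneg 3 x.1) (wk_nonneg 3 x.2)
            calc |c x.1| * |c x.2| / K ≤ |c x.1| * |c x.2| := div_le_self (by positivity) hK
              _ ≤ _ := h1
        _ ≤ ∑ x ∈ Icc 1 D ×ˢ Icc 1 D, wk 3 x.1 * wk 3 x.2 := by
            apply Finset.sum_le_sum_of_subset_of_nonneg hsub
            intro x _ _
            exact mul_nonneg (wk_nonneg 3 x.1) (wk_nonneg 3 x.2)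
        _ = (∑ d ∈ Icc 1 D, wk 3 d) * ∑ e ∈ Icc 1 D, wk 3 e := by
            rw [Finset.sum_mul_sum, Finset.sum_product]
        _ ≤ (D : ℝ) ^ 3 * (D : ℝ) ^ 3 := mul_le_mul (sum_wk3 D) (sum_wk3 D)
            (Finset.sum_nonneg fun d _ => wk_nonneg 3 d) (by positivity)
        _ = _ := by ring
    · intro x hx
      have hx' := hsub hx
      rw [Finset.mem_product, Finset.mem_Icc, Finset.mem_Icc] at hx'
      rw [hJ, Finset.mem_filter] at hx
      refine ⟨Nat.lcm_pos hx'.1.1 hx'.2.1, ?_, ?_⟩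
      · have h1 : Nat.lcm x.1 x.2 ≤ D * D :=
          (Nat.le_of_dvd (Nat.mul_pos hx'.1.1 hx'.2.1) (Nat.lcm_dvd_mul x.1 x.2)).trans
            (Nat.mul_le_mul hx'.1.2 hx'.2.2)
        rw [pow_two]
        exact_mod_cast h1
      · intro p hp hpd
        have h2 : p ∣ x.1 * x.2 := hpd.trans (Nat.lcm_dvd_mul x.1 x.2)
        rcases (Nat.Prime.dvd_mul hp).1 h2 with h3 | h3
        · exact hP x.1 hx.2.1 p hp h3
        · exact hP x.2 hx.2.2.1 p hp h3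
    · rfl

theorem Bd.ds (c : ℕ → ℝ) (D : ℕ) (h : ℤ) : Bd (fun n => ds c D (n + h)) := by
  unfold Pool.Agent.W25.UB.ds
  exact Bd.sum _ fun d _ => ((Bd.ite0 (d : ℤ)).shift h).cmul _

theorem ds_abs (c : ℕ → ℝ) (D : ℕ) (hc : ∀ d, |c d| ≤ wk 3 d) (m : ℤ) : |ds c D m| ≤ (D : ℝ) ^ 3 := by
  unfold Pool.Agent.W25.UB.ds
  refine (Finset.abs_sum_le_sum_abs _ _).trans (le_trans ?_ (sum_wk3 D))
  refine Finset.sum_le_sum fun d _ => ?_
  rw [abs_mul]
  calc |c d| * |(if (d : ℤ) ∣ m then (1 : ℝ) else 0)| ≤ wk 3 d * 1 := by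
        apply mul_le_mul (hc d) _ (abs_nonneg _) (wk_nonneg 3 d)
        split_ifs <;> norm_num
    _ = _ := mul_one _

/-- second moment of the sieve for small primes -/
theorem Gs_sq {N D : ℕ} (hN : 1 ≤ N) (hD1 : 1 ≤ D)
    (hcl : ∀ m : ℕ, 1 ≤ m → (m : ℝ) * Real.log N ≤ N →
    ∀ c : ℤ, |Gs N (fun n => if (m : ℤ) ∣ n - c then 1 else 0) - (N : ℝ) / m| ≤
      1 / (N : ℝ) ^ 5) (hD : (D : ℝ) ^ 2 * Real.log N ≤ N) (c : ℕ → ℝ)
    (hc : ∀ d, |c d| ≤ wk 3 d) (h : ℤ) :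
    Gs N (fun n => ds c D (n + h) ^ 2) ≤
      N * (1 + Real.log D) ^ 15 + (D : ℝ) ^ 6 * (1 / (N : ℝ) ^ 5) := by
  have e1 : ∀ n, ds c D (n + h) ^ 2 = ∑ d ∈ Icc 1 D, ∑ e ∈ Icc 1 D, (c d * c e) *
      ((if (d : ℤ) ∣ n + h then (1 : ℝ) else 0) * (if (e : ℤ) ∣ n + h then 1 else 0)) := by
    intro n
    rw [pow_two, ds_mul, Finset.sum_product]
  rw [Gs_congr N e1]
  have hB : ∀ d e : ℕ, Bd (fun n => (if (d : ℤ) ∣ n + h then (1 : ℝ) else 0) *
      (if (e : ℤ) ∣ n + h then 1 else 0)) := fun d e =>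
    ((Bd.ite0 (d : ℤ)).shift h).mul ((Bd.ite0 (e : ℤ)).shift h)
  rw [Gs_sum hN]
  swap
  · intro d _
    exact Bd.sum _ fun e _ => (hB d e).cmul _
  calc _ ≤ ∑ d ∈ Icc 1 D, ∑ e ∈ Icc 1 D, wk 3 d * wk 3 e *
        (N * (1 / ((Nat.lcm d e : ℕ) : ℝ)) + 1 / (N : ℝ) ^ 5) := by
        refine Finset.sum_le_sum fun d hd => ?_
        rw [Gs_sum hN]
        swap
        · intro e _
          exact (hB d e).cmul _
        refine Finset.sum_le_sum fun e he => ?_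
        rw [Gs_cmul]
        rw [Finset.mem_Icc] at hd he
        have h2 := Gs_cl2 hN hcl hD d e hd.1 he.1 hd.2 he.2 h h
        rw [if_pos (by rw [sub_self]; exact dvd_zero _)] at h2
        refine (le_abs_self _).trans ?_
        rw [abs_mul, abs_mul]
        apply mul_le_mul _ _ (abs_nonneg _) (mul_nonneg (wk_nonneg 3 d) (wk_nonneg 3 e))
        · exact mul_le_mul (hc d) (hc e) (abs_nonneg _) (wk_nonneg 3 d)
        · have h3 : 0 ≤ (N : ℝ) * (1 / ((Nat.lcm d e : ℕ) : ℝ)) := by positivity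
          rw [abs_le] at h2 ⊢
          constructor <;> linarith [h2.1, h2.2, h3, (by positivity : (0 : ℝ) ≤ 1 / (N : ℝ) ^ 5)]
    _ = N * ∑ d ∈ Icc 1 D, ∑ e ∈ Icc 1 D, wk 3 d * wk 3 e / ((Nat.lcm d e : ℕ) : ℝ) +
        (∑ d ∈ Icc 1 D, wk 3 d) * (∑ e ∈ Icc 1 D, wk 3 e) * (1 / (N : ℝ) ^ 5) := by
        rw [Finset.sum_mul_sum, Finset.mul_sum, Finset.sum_mul, ← Finset.sum_add_distrib]
        refine Finset.sum_congr rfl fun d _ => ?_
        rw [Finset.mul_sum, Finset.sum_mul, ← Finset.sum_add_distrib]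
        refine Finset.sum_congr rfl fun e _ => ?_
        ring
    _ ≤ _ := by
        apply add_le_add
        · apply mul_le_mul_of_nonneg_left _ (by positivity)
          exact wk_quad 3 D hD1
        · apply mul_le_mul_of_nonneg_right _ (by positivity)
          have h0 : 0 ≤ ∑ d ∈ Icc 1 D, wk 3 d := Finset.sum_nonneg fun d _ => wk_nonneg 3 d
          calc _ ≤ (D : ℝ) ^ 3 * (D : ℝ) ^ 3 := mul_le_mul (sum_wk3 D) (sum_wk3 D) h0 (by positivity)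
            _ = _ := by ring

/-- comparison of the weights -/
theorem Wt_two {N : ℕ} (hN : 1 ≤ N) (n : ℤ) :
    Wt N n * (1 + |(n : ℝ)| / N) ≤ Real.exp 1 * Wt (2 * N) n := by
  have hN0 : (0 : ℝ) < N := by exact_mod_cast hN
  unfold KF.Wt
  have e1 : ((2 * N : ℕ) : ℝ) = 2 * N := by push_cast; ring
  rw [e1]
  set t : ℝ := |(n : ℝ)| / N with ht
  have ht0 : 0 ≤ t := by positivity
  have e2 : ((n : ℝ) / N) ^ 2 = t ^ 2 := by rw [ht, div_pow, div_pow, sq_abs]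
  have e3 : ((n : ℝ) / (2 * N)) ^ 2 = t ^ 2 / 4 := by
    rw [ht, div_pow, div_pow, sq_abs]
    field_simp
    norm_num
  rw [e2, e3, ← Real.exp_add]
  have h1 : 1 + t ≤ Real.exp t := by have := Real.add_one_le_exp t; linarith
  calc Real.exp (-Real.pi * t ^ 2) * (1 + t) ≤ Real.exp (-Real.pi * t ^ 2) * Real.exp t :=
        mul_le_mul_of_nonneg_left h1 (Real.exp_pos _).le
    _ = Real.exp (-Real.pi * t ^ 2 + t) := by rw [Real.exp_add]
    _ ≤ _ := by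
        apply Real.exp_le_exp.2
        have hp := Real.pi_gt_three
        nlinarith [sq_nonneg (t - 1), sq_nonneg t]

/-- the truncated block -/
noncomputable def at0 (c b : ℕ → ℝ) (D Z : ℕ) (m : ℤ) : ℝ :=
  if m = 0 then 0 else ds c D m * dc b Z m

theorem Bd.at0 (c b : ℕ → ℝ) (D Z : ℕ) (h : ℤ) : Bd (fun n => at0 c b D Z (n + h)) := by
  obtain ⟨B, hB⟩ := (Bd.ds c D h).mul (Bd.dc b Z h)
  refine ⟨B, fun n => ?_⟩
  beta_reduce
  unfold Pool.Agent.R516.at0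
  split_ifs
  · rw [abs_zero]
    exact (abs_nonneg _).trans (hB n)
  · exact hB n

theorem diag_T {N D Z : ℕ} (hN : 1 ≤ N) (hD1 : 1 ≤ D)
    (hcl : ∀ m : ℕ, 1 ≤ m → (m : ℝ) * Real.log (2 * N : ℕ) ≤ (2 * N : ℕ) →
    ∀ c : ℤ, |Gs (2 * N) (fun n => if (m : ℤ) ∣ n - c then 1 else 0) - ((2 * N : ℕ) : ℝ) / m| ≤
      1 / ((2 * N : ℕ) : ℝ) ^ 5) (hD : (D : ℝ) ^ 2 * Real.log (2 * N : ℕ) ≤ (2 * N : ℕ))
    (c b : ℕ → ℝ) (hc : ∀ d, |c d| ≤ wk 3 d) (h : ℤ) (E : ℝ)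
    (hE : ∀ n : ℤ, n + h ≠ 0 → |dc b Z (n + h)| ≤ E * (1 + |(n : ℝ)| / N) ^ (1 / 4 : ℝ)) :
    Gs N (fun n => at0 c b D Z (n + h) ^ 2) ≤ Real.exp 1 * E ^ 2 *
      (((2 * N : ℕ) : ℝ) * (1 + Real.log D) ^ 15 + (D : ℝ) ^ 6 * (1 / ((2 * N : ℕ) : ℝ) ^ 5)) := by
  have hN0 : (0 : ℝ) < N := by exact_mod_cast hN
  have h1 : ∀ n : ℤ, Wt N n * at0 c b D Z (n + h) ^ 2 ≤
      Real.exp 1 * E ^ 2 * (Wt (2 * N) n * ds c D (n + h) ^ 2) := by
    intro n
    have hw := Wt_two hN n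
    have hw0 := Wt_nonneg (2 * N) n
    unfold at0
    split_ifs with h0
    · rw [zero_pow two_ne_zero, mul_zero]
      positivity
    · have h2 := hE n h0
      have ht : 0 ≤ |(n : ℝ)| / N := by positivity
      have h3 : dc b Z (n + h) ^ 2 ≤ E ^ 2 * (1 + |(n : ℝ)| / N) := by
        rw [← sq_abs (dc b Z (n + h))]
        calc |dc b Z (n + h)| ^ 2 ≤ (E * (1 + |(n : ℝ)| / N) ^ (1 / 4 : ℝ)) ^ 2 :=
              pow_le_pow_left₀ (abs_nonneg _) h2 2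
          _ = E ^ 2 * ((1 + |(n : ℝ)| / N) ^ (1 / 4 : ℝ)) ^ 2 := by ring
          _ ≤ E ^ 2 * (1 + |(n : ℝ)| / N) := by
              apply mul_le_mul_of_nonneg_left _ (sq_nonneg _)
              rw [← Real.rpow_natCast, ← Real.rpow_mul (by positivity)]
              calc (1 + |(n : ℝ)| / N) ^ (1 / 4 * ((2 : ℕ) : ℝ)) ≤ (1 + |(n : ℝ)| / N) ^ (1 : ℝ) := by
                    apply Real.rpow_le_rpow_of_exponent_le (by linarith)
                    norm_num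
                _ = _ := Real.rpow_one _
      rw [mul_pow]
      have hw1 := Wt_nonneg N n
      calc Wt N n * (ds c D (n + h) ^ 2 * dc b Z (n + h) ^ 2)
          ≤ Wt N n * (ds c D (n + h) ^ 2 * (E ^ 2 * (1 + |(n : ℝ)| / N))) := by gcongr
        _ = (Wt N n * (1 + |(n : ℝ)| / N)) * (E ^ 2 * ds c D (n + h) ^ 2) := by ring
        _ ≤ (Real.exp 1 * Wt (2 * N) n) * (E ^ 2 * ds c D (n + h) ^ 2) :=
            mul_le_mul_of_nonneg_right hw (by positivity)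
        _ = _ := by ring
  have b1 : Bd (fun n => at0 c b D Z (n + h) ^ 2) := by
    simp only [pow_two]
    exact (Bd.at0 c b D Z h).mul (Bd.at0 c b D Z h)
  have b2 : Bd (fun n => ds c D (n + h) ^ 2) := by
    simp only [pow_two]
    exact (Bd.ds c D h).mul (Bd.ds c D h)
  have h2N : 1 ≤ 2 * N := by omega
  calc Gs N (fun n => at0 c b D Z (n + h) ^ 2)
      ≤ ∑' n : ℤ, Real.exp 1 * E ^ 2 * (Wt (2 * N) n * ds c D (n + h) ^ 2) := by
        unfold Gs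
        exact (b1.smb hN).tsum_le_tsum h1 ((b2.smb h2N).mul_left _)
    _ = Real.exp 1 * E ^ 2 * Gs (2 * N) (fun n => ds c D (n + h) ^ 2) := by
        rw [tsum_mul_left]
        rfl
    _ ≤ _ := mul_le_mul_of_nonneg_left (Gs_sq h2N hD1 hcl hD c hc h) (by positivity)

theorem Gs_single {N : ℕ} (b : ℤ) (v : ℝ) :
    Gs N (fun n => if n = b then v else 0) = Wt N b * v := by
  unfold Gs
  rw [tsum_eq_single b]
  · beta_reduce
    rw [if_pos rfl]
  · intro n hn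
    beta_reduce
    rw [if_neg hn, mul_zero]

theorem Bd.single (b : ℤ) (v : ℝ) : Bd (fun n => if n = b then v else 0) := by
  refine ⟨|v|, fun n => ?_⟩
  beta_reduce
  split_ifs
  · exact le_rfl
  · rw [abs_zero]; exact abs_nonneg _

theorem Wt_le_one (N : ℕ) (n : ℤ) : Wt N n ≤ 1 := by
  unfold KF.Wt
  rw [Real.exp_le_one_iff]
  have := Real.pi_pos
  have := sq_nonneg ((n : ℝ) / N)
  nlinarith

/-- off the diagonal -/
theorem off_T {N D Z : ℕ} (hN : 1 ≤ N) (c b : ℕ → ℝ) (h h' : ℤ) (hh : h ≠ h') (Q M : ℝ)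
    (hQ : |Gs N (fun n => (ds c D (n + h) * ds c D (n + h')) *
      (dc b Z (n + h) * dc b Z (n + h')))| ≤ Q)
    (hM : |(ds c D 0 * dc b Z 0) * (ds c D (h' - h) * dc b Z (h' - h))| ≤ M)
    (hM' : |(ds c D 0 * dc b Z 0) * (ds c D (h - h') * dc b Z (h - h'))| ≤ M) :
    Gs N (fun n => at0 c b D Z (n + h) * at0 c b D Z (n + h')) ≤ Q + 2 * M := by
  set v := (ds c D 0 * dc b Z 0) * (ds c D (h' - h) * dc b Z (h' - h)) with hv
  set v' := (ds c D 0 * dc b Z 0) * (ds c D (h - h') * dc b Z (h - h')) with hv'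
  have e1 : ∀ n : ℤ, at0 c b D Z (n + h) * at0 c b D Z (n + h') =
      (ds c D (n + h) * ds c D (n + h')) * (dc b Z (n + h) * dc b Z (n + h')) -
      (if n = -h then v else 0) - (if n = -h' then v' else 0) := by
    intro n
    unfold at0
    by_cases h1 : n + h = 0
    · have h2 : n = -h := by omega
      have h3 : n ≠ -h' := by omega
      have h4 : n + h' = h' - h := by omega
      rw [if_pos h1, if_pos h2, if_neg h3, h1, h4, hv]
      ring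
    · have h2 : n ≠ -h := by omega
      by_cases h3 : n + h' = 0
      · have h4 : n = -h' := by omega
        have h5 : n + h = h - h' := by omega
        rw [if_neg h1, if_pos h3, if_neg h2, if_pos h4, h5, h3, hv']
        ring
      · have h4 : n ≠ -h' := by omega
        rw [if_neg h1, if_neg h3, if_neg h2, if_neg h4]
        ring
  have b1 := ((Bd.ds c D h).mul (Bd.ds c D h')).mul ((Bd.dc b Z h).mul (Bd.dc b Z h'))
  rw [Gs_congr N e1, Gs_sub hN (b1.sub (Bd.single (-h) v)) (Bd.single (-h') v'),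
    Gs_sub hN b1 (Bd.single (-h) v), Gs_single, Gs_single]
  have h1 : |Wt N (-h) * v| ≤ M := by
    rw [abs_mul, abs_of_nonneg (Wt_nonneg _ _)]
    calc Wt N (-h) * |v| ≤ 1 * M := mul_le_mul (Wt_le_one _ _) hM (abs_nonneg _) zero_le_one
      _ = M := one_mul _
  have h2 : |Wt N (-h') * v'| ≤ M := by
    rw [abs_mul, abs_of_nonneg (Wt_nonneg _ _)]
    calc Wt N (-h') * |v'| ≤ 1 * M := mul_le_mul (Wt_le_one _ _) hM' (abs_nonneg _) zero_le_one
      _ = M := one_mul _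
  rw [abs_le] at h1 h2 hQ
  linarith [h1.1, h2.1, hQ.2]

/-- **variance of one block** -/
theorem var_T {N : ℕ} (hN : 1 ≤ N) (a : ℤ → ℝ) (ha : ∀ h : ℤ, Bd (fun n => a (n + h))) (H : ℕ)
    (Dg Of : ℝ) (hD : ∀ h ∈ Icc 1 H, Gs N (fun n => a (n + (h : ℕ)) ^ 2) ≤ Dg)
    (hO : ∀ h ∈ Icc 1 H, ∀ h' ∈ Icc 1 H, h ≠ h' →
      Gs N (fun n => a (n + (h : ℕ)) * a (n + (h' : ℕ))) ≤ Of) (hOf : 0 ≤ Of) :
    Gs N (fun n => (∑ h ∈ Icc 1 H, a (n + (h : ℕ))) ^ 2) ≤ H * Dg + (H : ℝ) ^ 2 * Of := by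
  have e1 : ∀ n : ℤ, (∑ h ∈ Icc 1 H, a (n + (h : ℕ))) ^ 2 =
      ∑ h ∈ Icc 1 H, ∑ h' ∈ Icc 1 H, a (n + (h : ℕ)) * a (n + (h' : ℕ)) := by
    intro n
    rw [pow_two, Finset.sum_mul_sum]
  rw [Gs_congr N e1, Gs_sum hN]
  swap
  · intro h _
    exact Bd.sum _ fun h' _ => (ha h).mul (ha h')
  have h1 : ∀ h ∈ Icc 1 H, Gs N (fun n => ∑ h' ∈ Icc 1 H, a (n + (h : ℕ)) * a (n + (h' : ℕ))) ≤
      Dg + H * Of := by
    intro h hh
    rw [Gs_sum hN]
    swap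
    · intro h' _
      exact (ha h).mul (ha h')
    rw [← Finset.add_sum_erase _ _ hh]
    apply add_le_add
    · have := hD h hh
      simp only [pow_two] at this
      exact this
    · calc ∑ h' ∈ (Icc 1 H).erase h, Gs N (fun n => a (n + (h : ℕ)) * a (n + (h' : ℕ)))
          ≤ ∑ h' ∈ (Icc 1 H).erase h, Of := by
            refine Finset.sum_le_sum fun h' hh' => ?_
            rw [Finset.mem_erase] at hh'
            exact hO h hh h' hh'.2 (fun e => hh'.1 e.symm)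
        _ = ((Icc 1 H).erase h).card * Of := by rw [Finset.sum_const, nsmul_eq_mul]
        _ ≤ H * Of := by
            apply mul_le_mul_of_nonneg_right _ hOf
            have : ((Icc 1 H).erase h).card ≤ (Icc 1 H).card := Finset.card_erase_le
            rw [Nat.card_Icc, Nat.add_sub_cancel] at this
            exact_mod_cast this
  calc _ ≤ ∑ h ∈ Icc 1 H, (Dg + H * Of) := Finset.sum_le_sum h1
    _ = _ := by
        rw [Finset.sum_const, Nat.card_Icc, nsmul_eq_mul, Nat.add_sub_cancel]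
        ring

end Pool.Agent.R516
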