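import Mathlib
import Pool.Agent.R516.VarT
import Pool.Agent.R516.Tra

/-! One block. -/

set_option autoImplicit false

namespace Pool.Agent.R516

open Finset Filter Topology
open Pool.Agent.H442R2
open Pool.Agent.H442R2.KF (Wt)
open Pool.Agent.Y827.LS (dc)
open Pool.Agent.W25.UB (ds RC)
open Pool.Agent.TH899.UG (ExG)
open Pool.Agent.W23.PL (Fc)

theorem off_main {X D Z D0 H : ℕ} {θ' δ e0 η ε₁ η₁ C K : ℝ} {cA b : ℕ → ℝ} {P : Finset ℕ}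
    (hTR : TrAt θ' δ e0 η ε₁ η₁ C) (hX : 2 ≤ X) (hZ : (Z : ℝ) ≤ (X : ℝ) ^ θ') (hD0 : 1 ≤ D0)
    (hZD : (Z : ℝ) ≤ (X : ℝ) ^ e0 * D0) (hP : ∀ p ∈ P, (p : ℝ) ≤ (X : ℝ) ^ ε₁) (hD1 : 1 ≤ D)
    (hwk : ∀ d, |cA d| ≤ wk 3 d) (hcP : ∀ d, cA d ≠ 0 → ∀ p : ℕ, p.Prime → p ∣ d → p ∈ P)
    (hK1 : 1 ≤ K) (hKD : (1 + Real.log D) ^ 15 ≤ K) (hR : (D : ℝ) ^ 2 ≤ (X : ℝ) ^ (e0 / 8))
    (hY : (D : ℝ) ^ 6 ≤ (X : ℝ) ^ η) (hRC : RC (fun p => p ∈ (∅ : Finset ℕ)) ((X : ℝ) ^ ε₁) Z b)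
    (hb0 : ∀ d, b d ≠ 0 → D0 < d) (hF : Fc X θ' δ b b) (hHε : (H : ℝ) ≤ (X : ℝ) ^ ε₁)
    (hH12 : (H : ℝ) ≤ X - (X : ℝ) ^ (1 / 2 : ℝ)) {h h' : ℕ} (hh : h ∈ Icc 1 H)
    (hh' : h' ∈ Icc 1 H) (hne : h ≠ h') :
    |Gs X (fun n => (ds cA D (n + (h : ℕ)) * ds cA D (n + (h' : ℕ))) *
      (dc b Z (n + (h : ℕ)) * dc b Z (n + (h' : ℕ))))| ≤ K * (C * (X : ℝ) ^ (1 - η₁)) := by
  have hK0 : 0 < K := by linarith only [hK1]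
  have hne' : ((h : ℕ) : ℤ) ≠ ((h' : ℕ) : ℤ) := by exact_mod_cast hne
  have b1 := Finset.mem_Icc.1 hh
  have b2 := Finset.mem_Icc.1 hh'
  have hHh : ((h : ℕ) : ℝ) ≤ H := by exact_mod_cast b1.2
  have hHh' : ((h' : ℕ) : ℝ) ≤ H := by exact_mod_cast b2.2
  have hdist : |(((h : ℕ) : ℤ) - ((h' : ℕ) : ℤ) : ℤ)| < H := by
    rw [abs_lt]
    constructor <;> omega
  obtain ⟨mm, hmm, hEx⟩ := exg_pair P D hD1 cA hwk hcP h h' K hK1 hKD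
  have c1 : |((-((h : ℕ) : ℤ) : ℤ) : ℝ)| ≤ X - (X : ℝ) ^ (1 / 2 : ℝ) := by
    push_cast
    rw [abs_neg, Nat.abs_cast]
    exact hHh.trans hH12
  have c2 : |((-((h' : ℕ) : ℤ) : ℤ) : ℝ)| ≤ X - (X : ℝ) ^ (1 / 2 : ℝ) := by
    push_cast
    rw [abs_neg, Nat.abs_cast]
    exact hHh'.trans hH12
  have c3 : (-((h : ℕ) : ℤ) : ℤ) ≠ -((h' : ℕ) : ℤ) := fun e => hne' (neg_injective e)
  have c4 : ∀ p : ℕ, p.Prime → (X : ℝ) ^ ε₁ < (p : ℝ) →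
      (p : ℤ) ∣ -((h : ℕ) : ℤ) - -((h' : ℕ) : ℤ) → (fun p => p ∈ (∅ : Finset ℕ)) p := by
    intro p hp hpX hpd
    exfalso
    have q1 : (p : ℤ) ∣ ((h : ℕ) : ℤ) - ((h' : ℕ) : ℤ) := by
      have : -((h : ℕ) : ℤ) - -((h' : ℕ) : ℤ) = -(((h : ℕ) : ℤ) - ((h' : ℕ) : ℤ)) := by
        ring
      rw [this, dvd_neg] at hpd
      exact hpd
    have q2 : (p : ℤ) ≤ |(((h : ℕ) : ℤ) - ((h' : ℕ) : ℤ) : ℤ)| :=
      Int.le_of_dvd (abs_pos.2 (sub_ne_zero.2 hne')) ((dvd_abs _ _).2 q1)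
    have q3 : (p : ℤ) < H := lt_of_le_of_lt q2 hdist
    have q4 : (p : ℝ) < H := by exact_mod_cast q3
    linarith only [q4, hHε, hpX]
  have hTT := hTR X D0 Z hX hZ hD0 hZD
    (fun p => p ∈ P) (fun p => p ∈ (∅ : Finset ℕ)) ((D : ℝ) ^ 6) ((D : ℝ) ^ 2)
    ((X : ℝ) ^ ε₁) _ mm le_rfl hP hEx hR hY hmm (-((h : ℕ) : ℤ)) (-((h' : ℕ) : ℤ)) c1 c2 c3 c4
    b b hRC hRC hb0 hb0 hF
  have e3 : Gs X (fun n => (ds cA D (n + (h : ℕ)) * ds cA D (n + (h' : ℕ))) *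
      (dc b Z (n + (h : ℕ)) * dc b Z (n + (h' : ℕ)))) =
      K * ∑' n : ℤ, Wt X n * ((ds cA D (n + (h : ℕ)) * ds cA D (n + (h' : ℕ)) / K) *
      (dc b Z (n - -((h : ℕ) : ℤ)) * dc b Z (n - -((h' : ℕ) : ℤ)))) := by
    rw [← tsum_mul_left]
    unfold Gs
    refine tsum_congr fun n => ?_
    rw [sub_neg_eq_add, sub_neg_eq_add]
    field_simp
  rw [e3, abs_mul, abs_of_pos hK0]
  exact mul_le_mul_of_nonneg_left hTT hK0.le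

theorem zero_val {X D Z : ℕ} {θ η E : ℝ} {cA b : ℕ → ℝ} (hX : 1 ≤ X)
    (hwk : ∀ d, |cA d| ≤ wk 3 d) (hb1 : ∀ d, |b d| ≤ 1) (hZ : (Z : ℝ) ≤ (X : ℝ) ^ θ)
    (hD6 : (D : ℝ) ^ 6 ≤ (X : ℝ) ^ η) (hE : 0 ≤ E) (hηθ : η + θ ≤ 3 / 5)
    (hrc : ∀ u n : ℤ, |(u : ℝ)| ≤ X → n + u ≠ 0 →
      |dc b Z (n + u)| ≤ E * (1 + |(n : ℝ)| / X) ^ (1 / 4 : ℝ))
    (t : ℤ) (ht : t ≠ 0) (htX : |(t : ℝ)| ≤ X) :
    |(ds cA D 0 * dc b Z 0) * (ds cA D t * dc b Z t)| ≤ 2 * E * (X : ℝ) ^ (3 / 5 : ℝ) := by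
  have hX0 : (0 : ℝ) < X := by exact_mod_cast hX
  have hX1 : (1 : ℝ) ≤ X := by exact_mod_cast hX
  have g1 := ds_abs cA D hwk 0
  have g2 := ds_abs cA D hwk t
  have g3 : |dc b Z 0| ≤ (X : ℝ) ^ θ := by
    refine le_trans ?_ hZ
    unfold dc
    refine (Finset.abs_sum_le_sum_abs _ _).trans ?_
    calc ∑ d ∈ Icc 1 Z, |b d * BX.dl d 0| ≤ ∑ d ∈ Icc 1 Z, (1 : ℝ) := by
          refine Finset.sum_le_sum fun d hd => ?_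
          have hd1 := (Finset.mem_Icc.1 hd).1
          rw [abs_mul]
          have h4 : |BX.dl d 0| ≤ 1 := by
            unfold BX.dl
            rw [if_pos (dvd_zero _)]
            have h5 : (1 : ℝ) ≤ d := by exact_mod_cast hd1
            have h6 : 1 / (d : ℝ) ≤ 1 := by
              rw [div_le_one (by linarith only [h5])]; exact h5
            have h7 : 0 ≤ 1 / (d : ℝ) := by positivity
            rw [abs_le]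
            constructor <;> linarith only [h6, h7]
          calc |b d| * |BX.dl d 0| ≤ 1 * 1 := mul_le_mul (hb1 d) h4 (abs_nonneg _) zero_le_one
            _ = 1 := one_mul _
      _ = _ := by rw [Finset.sum_const, Nat.card_Icc, nsmul_eq_mul, Nat.add_sub_cancel, mul_one]
  have g4 : |dc b Z t| ≤ 2 * E := by
    have h4 := hrc 0 t (by simp) (by simpa using ht)
    rw [add_zero] at h4
    refine h4.trans ?_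
    have h5 : |(t : ℝ)| / X ≤ 1 := by rw [div_le_one hX0]; exact htX
    have h7 : (0 : ℝ) ≤ |(t : ℝ)| / X := by positivity
    have h6 : (1 + |(t : ℝ)| / X) ^ (1 / 4 : ℝ) ≤ 2 := by
      calc (1 + |(t : ℝ)| / X) ^ (1 / 4 : ℝ) ≤ (1 + |(t : ℝ)| / X) ^ (1 : ℝ) := by
            apply Real.rpow_le_rpow_of_exponent_le (by linarith only [h7])
            norm_num
        _ = 1 + |(t : ℝ)| / X := Real.rpow_one _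
        _ ≤ 2 := by linarith only [h5]
    calc E * (1 + |(t : ℝ)| / X) ^ (1 / 4 : ℝ) ≤ E * 2 := mul_le_mul_of_nonneg_left h6 hE
      _ = 2 * E := by ring
  rw [abs_mul, abs_mul, abs_mul]
  calc |ds cA D 0| * |dc b Z 0| * (|ds cA D t| * |dc b Z t|)
      ≤ (D : ℝ) ^ 3 * (X : ℝ) ^ θ * ((D : ℝ) ^ 3 * (2 * E)) := by gcongr
    _ = 2 * E * ((D : ℝ) ^ 6 * (X : ℝ) ^ θ) := by ring
    _ ≤ 2 * E * ((X : ℝ) ^ η * (X : ℝ) ^ θ) := by gcongr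
    _ = 2 * E * (X : ℝ) ^ (η + θ) := by rw [Real.rpow_add hX0]
    _ ≤ _ := by
        apply mul_le_mul_of_nonneg_left _ (by positivity)
        exact Real.rpow_le_rpow_of_exponent_le hX1 hηθ

theorem blk_num {X H D : ℕ} {E C K η₁ κ : ℝ} (hX : 1 ≤ X) (hE : 0 ≤ E) (hC : 0 ≤ C)
    (hK1 : 1 ≤ K) (hKD : (1 + Real.log D) ^ 15 ≤ K) (hD6X : (D : ℝ) ^ 6 ≤ X) (hκ1 : κ ≤ η₁)
    (hHκ : (H : ℝ) ≤ (X : ℝ) ^ κ) (hH25 : (H : ℝ) ≤ (X : ℝ) ^ (2 / 5 : ℝ)) :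
    H * (Real.exp 1 * E ^ 2 * (((2 * X : ℕ) : ℝ) * (1 + Real.log D) ^ 15 +
          (D : ℝ) ^ 6 * (1 / ((2 * X : ℕ) : ℝ) ^ 5))) +
      (H : ℝ) ^ 2 * (K * (C * (X : ℝ) ^ (1 - η₁)) + 2 * (2 * E * (X : ℝ) ^ (3 / 5 : ℝ))) ≤
    (3 * Real.exp 1 * E ^ 2 + (C + 4 * E)) * (X * H * K) := by
  have hX0 : (0 : ℝ) < X := by exact_mod_cast hX
  have hX1 : (1 : ℝ) ≤ X := by exact_mod_cast hX
  have hK0 : 0 < K := by linarith only [hK1]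
  have hc2X : ((2 * X : ℕ) : ℝ) = 2 * X := by push_cast; ring
  have q1 : H * (Real.exp 1 * E ^ 2 * (((2 * X : ℕ) : ℝ) * (1 + Real.log D) ^ 15 +
      (D : ℝ) ^ 6 * (1 / ((2 * X : ℕ) : ℝ) ^ 5))) ≤ 3 * Real.exp 1 * E ^ 2 * (X * H * K) := by
    have h1 : ((2 * X : ℕ) : ℝ) * (1 + Real.log D) ^ 15 ≤ 2 * X * K := by
      rw [hc2X]
      gcongr
    have h2 : (D : ℝ) ^ 6 * (1 / ((2 * X : ℕ) : ℝ) ^ 5) ≤ X * K := by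
      have h3 : 1 / ((2 * X : ℕ) : ℝ) ^ 5 ≤ 1 := by
        rw [hc2X, div_le_one (by positivity)]
        exact one_le_pow₀ (by linarith only [hX1])
      calc (D : ℝ) ^ 6 * (1 / ((2 * X : ℕ) : ℝ) ^ 5) ≤ X * 1 := by
            apply mul_le_mul hD6X h3 (by positivity) hX0.le
        _ ≤ X * K := mul_le_mul_of_nonneg_left hK1 hX0.le
    calc _ ≤ H * (Real.exp 1 * E ^ 2 * (2 * X * K + X * K)) := by gcongr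
      _ = _ := by ring
  have q2 : (H : ℝ) * (X : ℝ) ^ (1 - η₁) ≤ X := by
    calc (H : ℝ) * (X : ℝ) ^ (1 - η₁) ≤ (X : ℝ) ^ κ * (X : ℝ) ^ (1 - η₁) := by gcongr
      _ = (X : ℝ) ^ (κ + (1 - η₁)) := by rw [Real.rpow_add hX0]
      _ ≤ (X : ℝ) ^ (1 : ℝ) := Real.rpow_le_rpow_of_exponent_le hX1 (by linarith only [hκ1])
      _ = X := Real.rpow_one _
  have q3 : (H : ℝ) * (X : ℝ) ^ (3 / 5 : ℝ) ≤ X := by
    calc (H : ℝ) * (X : ℝ) ^ (3 / 5 : ℝ) ≤ (X : ℝ) ^ (2 / 5 : ℝ) * (X : ℝ) ^ (3 / 5 : ℝ) := by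
          gcongr
      _ = (X : ℝ) ^ (2 / 5 + 3 / 5 : ℝ) := by rw [Real.rpow_add hX0]
      _ = X := by norm_num
  have q5 : (X : ℝ) ≤ X * K := by
    calc (X : ℝ) = X * 1 := (mul_one _).symm
      _ ≤ X * K := mul_le_mul_of_nonneg_left hK1 hX0.le
  have q4 : (H : ℝ) ^ 2 * (K * (C * (X : ℝ) ^ (1 - η₁)) + 2 * (2 * E * (X : ℝ) ^ (3 / 5 : ℝ))) ≤
      (C + 4 * E) * (X * H * K) := by
    calc _ = H * (K * C * ((H : ℝ) * (X : ℝ) ^ (1 - η₁)) +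
          4 * E * ((H : ℝ) * (X : ℝ) ^ (3 / 5 : ℝ))) := by ring
      _ ≤ H * (K * C * X + 4 * E * X) := by gcongr
      _ ≤ H * (K * C * X + 4 * E * (X * K)) := by gcongr
      _ = _ := by ring
  calc _ ≤ 3 * Real.exp 1 * E ^ 2 * (X * H * K) + (C + 4 * E) * (X * H * K) := add_le_add q1 q4
    _ = _ := by ring

/-- **one block** -/
theorem blk_var {X D Z D0 H : ℕ} {θ θ' δ e0 η ε₁ η₁ C K E κ : ℝ} {cA b : ℕ → ℝ} {P : Finset ℕ}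
    (hTR : TrAt θ' δ e0 η ε₁ η₁ C) (hX : 64 ≤ X) (hZ : (Z : ℝ) ≤ (X : ℝ) ^ θ') (hD0 : 1 ≤ D0)
    (hZθ : (Z : ℝ) ≤ (X : ℝ) ^ θ) (hηθ : η + θ ≤ 3 / 5) (hE : 0 < E) (hC : 0 < C)
    (hZD : (Z : ℝ) ≤ (X : ℝ) ^ e0 * D0) (hP : ∀ p ∈ P, (p : ℝ) ≤ (X : ℝ) ^ ε₁) (hD1 : 1 ≤ D)
    (hwk : ∀ d, |cA d| ≤ wk 3 d) (hcP : ∀ d, cA d ≠ 0 → ∀ p : ℕ, p.Prime → p ∣ d → p ∈ P)
    (hK1 : 1 ≤ K) (hKD : (1 + Real.log D) ^ 15 ≤ K) (hR : (D : ℝ) ^ 2 ≤ (X : ℝ) ^ (e0 / 8))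
    (hY : (D : ℝ) ^ 6 ≤ (X : ℝ) ^ η) (hD6X : (D : ℝ) ^ 6 ≤ X)
    (hRC : RC (fun p => p ∈ (∅ : Finset ℕ)) ((X : ℝ) ^ ε₁) Z b)
    (hb0 : ∀ d, b d ≠ 0 → D0 < d) (hF : Fc X θ' δ b b) (hHε : (H : ℝ) ≤ (X : ℝ) ^ ε₁)
    (hκ1 : κ ≤ η₁) (hHκ : (H : ℝ) ≤ (X : ℝ) ^ κ) (hH25 : (H : ℝ) ≤ (X : ℝ) ^ (2 / 5 : ℝ))
    (hH12 : (H : ℝ) ≤ X - (X : ℝ) ^ (1 / 2 : ℝ)) (hHX : (H : ℝ) ≤ X)
    (hcl : ∀ m : ℕ, 1 ≤ m → (m : ℝ) * Real.log (2 * X : ℕ) ≤ (2 * X : ℕ) →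
    ∀ c : ℤ, |Gs (2 * X) (fun n => if (m : ℤ) ∣ n - c then 1 else 0) - ((2 * X : ℕ) : ℝ) / m| ≤
      1 / ((2 * X : ℕ) : ℝ) ^ 5) (hDl2 : (D : ℝ) ^ 2 * Real.log (2 * X : ℕ) ≤ (2 * X : ℕ))
    (hrc : ∀ u n : ℤ, |(u : ℝ)| ≤ X → n + u ≠ 0 →
      |dc b Z (n + u)| ≤ E * (1 + |(n : ℝ)| / X) ^ (1 / 4 : ℝ)) :
    Gs X (fun n => (∑ h ∈ Icc 1 H, at0 cA b D Z (n + (h : ℕ))) ^ 2) ≤
      (3 * Real.exp 1 * E ^ 2 + (C + 4 * E)) * (X * H * K) := by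
  have hX1 : 1 ≤ X := by omega
  have hX0 : (0 : ℝ) < X := by exact_mod_cast hX1
  refine (var_T (N := X) hX1 (at0 cA b D Z) (fun h => Bd.at0 cA b D Z h) H
        (Real.exp 1 * E ^ 2 * (((2 * X : ℕ) : ℝ) * (1 + Real.log D) ^ 15 +
          (D : ℝ) ^ 6 * (1 / ((2 * X : ℕ) : ℝ) ^ 5)))
        (K * (C * (X : ℝ) ^ (1 - η₁)) + 2 * (2 * E * (X : ℝ) ^ (3 / 5 : ℝ)))
        ?_ ?_ ?_).trans (blk_num hX1 hE.le hC.le hK1 hKD hD6X hκ1 hHκ hH25)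
  · intro h hh
    apply diag_T hX1 hD1 hcl hDl2 cA b hwk (h : ℕ) E
    intro n hn
    apply hrc _ _ _ hn
    rw [Int.cast_natCast, Nat.abs_cast]
    have : ((h : ℕ) : ℝ) ≤ H := by exact_mod_cast (Finset.mem_Icc.1 hh).2
    exact this.trans hHX
  · intro h hh h' hh' hne
    have hne' : ((h : ℕ) : ℤ) ≠ ((h' : ℕ) : ℤ) := by exact_mod_cast hne
    have b1 := Finset.mem_Icc.1 hh
    have b2 := Finset.mem_Icc.1 hh'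
    have hdist : ∀ u v : ℕ, u ∈ Icc 1 H → v ∈ Icc 1 H →
        |(((u : ℤ) - (v : ℤ) : ℤ) : ℝ)| ≤ X := by
      intro u v hu hv
      rw [Finset.mem_Icc] at hu hv
      have h1 : |((u : ℤ) - (v : ℤ) : ℤ)| ≤ H := by
        rw [abs_le]
        constructor <;> omega
      have h2 : ((|((u : ℤ) - (v : ℤ) : ℤ)| : ℤ) : ℝ) ≤ ((H : ℤ) : ℝ) := by exact_mod_cast h1
      rw [Int.cast_abs, Int.cast_natCast] at h2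
      exact h2.trans hHX
    apply off_T hX1 cA b h h' hne'
    · exact off_main hTR (by omega) hZ hD0 hZD hP hD1 hwk hcP hK1 hKD hR hY hRC hb0 hF hHε hH12
        hh hh' hne
    · exact zero_val hX1 hwk hRC.bd hZθ hY hE.le hηθ hrc _ (sub_ne_zero.2 fun e => hne' e.symm)
        (hdist h' h hh' hh)
    · exact zero_val hX1 hwk hRC.bd hZθ hY hE.le hηθ hrc _ (sub_ne_zero.2 hne')
        (hdist h h' hh hh')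
  · positivity

end Pool.Agent.R516
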