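import Mathlib

/-! A covering lemma: intervals with small mass cover little mass. -/

set_option autoImplicit false

namespace Pool.Agent.R516

open Finset

/-- the points of some interval with small mean -/
def Lo (w : ℕ → ℝ) (l : ℝ) (N : ℕ) : Set ℕ :=
  {n | ∃ a b, a < n ∧ n ≤ b ∧ b ≤ N ∧ ∑ m ∈ Ioc a b, w m < l * ((b : ℝ) - a)}

open Classical in
theorem cover_aux (w : ℕ → ℝ) (hw : ∀ n, 0 ≤ w n) (l : ℝ) (hl : 0 ≤ l) (N : ℕ) : ∀ k : ℕ,
    ∀ c d : ℕ, N - c ≤ k → c ≤ N → d ≤ N →
    (∀ a b : ℕ, a ≤ b → c < b → b ≤ N → ∑ m ∈ Ioc a b, w m < l * ((b : ℝ) - a) → d ≤ a) →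
    ∑ n ∈ (Ioc c N).filter (fun n => n ∈ Lo w l N), w n ≤ l * (2 * N - c - d) := by
  intro k
  induction k with
  | zero =>
    intro c d hk hc hd _
    have : c = N := by omega
    subst this
    rw [Finset.Ioc_self, Finset.filter_empty, Finset.sum_empty]
    have h1 : (d : ℝ) ≤ c := by exact_mod_cast hd
    have : 0 ≤ 2 * (c : ℝ) - c - d := by linarith
    positivity
  | succ k ih =>
    intro c d hk hc hd hI
    have hcr : (c : ℝ) ≤ N := by exact_mod_cast hc
    have hdr : (d : ℝ) ≤ N := by exact_mod_cast hd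
    by_cases hne : ((Ioc c N).filter (fun n => n ∈ Lo w l N)).Nonempty
    · obtain ⟨n, hn⟩ : ∃ n, n = ((Ioc c N).filter (fun n => n ∈ Lo w l N)).min' hne := ⟨_, rfl⟩
      have hmem : n ∈ (Ioc c N).filter (fun n => n ∈ Lo w l N) := by
        rw [hn]; exact Finset.min'_mem _ _
      have hmin : ∀ m ∈ (Ioc c N).filter (fun n => n ∈ Lo w l N), n ≤ m := by
        intro m hm
        rw [hn]; exact Finset.min'_le _ _ hm
      rw [Finset.mem_filter, Finset.mem_Ioc] at hmem
      obtain ⟨⟨hn1, hn2⟩, hL⟩ := hmem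
      -- the longest interval
      set B : Finset ℕ := (Icc n N).filter (fun b => ∃ a, a < n ∧
        ∑ m ∈ Ioc a b, w m < l * ((b : ℝ) - a)) with hB
      have hBne : B.Nonempty := by
        obtain ⟨a, b, h1, h2, h3, h4⟩ := hL
        exact ⟨b, by rw [hB, Finset.mem_filter, Finset.mem_Icc]; exact ⟨⟨h2, h3⟩, a, h1, h4⟩⟩
      obtain ⟨b, hb⟩ : ∃ b, b = B.max' hBne := ⟨_, rfl⟩
      have hbmem : b ∈ B := by rw [hb]; exact Finset.max'_mem _ _
      have hbmax : ∀ b' ∈ B, b' ≤ b := by
        intro b' hb'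
        rw [hb]; exact Finset.le_max' _ _ hb'
      rw [hB, Finset.mem_filter, Finset.mem_Icc] at hbmem
      obtain ⟨⟨hb1, hb2⟩, a, ha, hsum⟩ := hbmem
      have hda : d ≤ a := hI a b (by omega) (by omega) hb2 hsum
      have hrest := ih b c (by omega) hb2 hc (by
        intro a' b' hab' hbb' hb'N hs
        by_contra hcon
        push Not at hcon
        have : b' ∈ B := by
          rw [hB, Finset.mem_filter, Finset.mem_Icc]
          exact ⟨⟨by omega, hb'N⟩, a', by omega, hs⟩
        have := hbmax b' this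
        omega)
      have hsplit : ∑ m ∈ (Ioc c N).filter (fun n => n ∈ Lo w l N), w m ≤
          ∑ m ∈ Ioc a b, w m + ∑ m ∈ (Ioc b N).filter (fun n => n ∈ Lo w l N), w m := by
        rw [← Finset.sum_union]
        · apply Finset.sum_le_sum_of_subset_of_nonneg
          · intro m hm
            have h1 := hmin m hm
            rw [Finset.mem_filter, Finset.mem_Ioc] at hm
            rw [Finset.mem_union, Finset.mem_Ioc, Finset.mem_filter, Finset.mem_Ioc]
            by_cases h2 : m ≤ b
            · left; omega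
            · right; exact ⟨by omega, hm.2⟩
          · intro m _ _
            exact hw m
        · rw [Finset.disjoint_left]
          intro m hm hm'
          rw [Finset.mem_Ioc] at hm
          rw [Finset.mem_filter, Finset.mem_Ioc] at hm'
          omega
      have har : (d : ℝ) ≤ a := by exact_mod_cast hda
      have : l * (d : ℝ) ≤ l * a := mul_le_mul_of_nonneg_left har hl
      nlinarith
    · rw [Finset.not_nonempty_iff_eq_empty] at hne
      rw [hne, Finset.sum_empty]
      have : 0 ≤ 2 * (N : ℝ) - c - d := by linarith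
      positivity

open Classical in
/-- **covering lemma** -/
theorem cover (w : ℕ → ℝ) (hw : ∀ n, 0 ≤ w n) (l : ℝ) (hl : 0 ≤ l) (N : ℕ) :
    ∑ n ∈ (Icc 1 N).filter (fun n => n ∈ Lo w l N), w n ≤ 2 * l * N := by
  have h := cover_aux w hw l hl N N 0 0 (by omega) (by omega) (by omega) (by
    intro a b _ _ _ _; omega)
  have e : Ioc 0 N = Icc 1 N := by
    ext m
    rw [Finset.mem_Ioc, Finset.mem_Icc]
    omega
  rw [e] at h
  push_cast at h
  linarith

end Pool.Agent.R516
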