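import Mathlib

/-! Primes in almost all intervals, beyond the level one half.  Statements. -/

set_option autoImplicit false

namespace Pool.Agent.R516

open Finset

/-- a majorant of the primes of density `18 / 5` with small variance in all short windows -/
def St_Core : Prop := ∀ δ : ℝ, 0 < δ → ∃ κ : ℝ, 0 < κ ∧ κ ≤ 2 / 5 ∧ ∃ X₀ : ℕ, ∀ X : ℕ, X₀ ≤ X →
    ∃ (ν : ℤ → ℝ) (V : ℝ), (∀ m, 0 ≤ ν m) ∧
      (∀ p : ℕ, p.Prime → (X : ℝ) ^ (3 / 5 : ℝ) < p → ν p = 1) ∧ 0 ≤ V ∧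
      V ≤ (18 / 5 + δ) / Real.log X ∧ ∀ H : ℕ, 1 ≤ H → (H : ℝ) ≤ (X : ℝ) ^ κ →
      ∑ n ∈ Icc 0 X, (∑ h ∈ Icc 1 H, ν ((n : ℤ) + (h : ℕ)) - H * V) ^ 2 ≤
        X * H * (Real.log X) ^ 17

/-- number of primes in `(a, b]` -/
def pcn (a b : ℕ) : ℕ := ((Ioc a b).filter Nat.Prime).card

/-- the integers of an interval of length `≥ H` with more than `c |I|` primes -/
def Hi (N : ℕ) (H c : ℝ) : Set ℕ :=
  {n | ∃ a b : ℕ, a < n ∧ n ≤ b ∧ b ≤ N ∧ H ≤ (b : ℝ) - a ∧ c * ((b : ℝ) - a) < (pcn a b : ℝ)}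

open Classical in
/-- almost all integers see at most `18 / 5` times the expected number of primes in each interval -/
def St_U : Prop := ∀ δ : ℝ, 0 < δ → ∃ κ : ℝ, 0 < κ ∧ ∃ N₀ : ℕ, ∀ N : ℕ, N₀ ≤ N →
  ∀ H : ℝ, 1 ≤ H → H ≤ (N : ℝ) ^ κ →
    (((Icc 1 N).filter (fun n => n ∈ Hi N H ((18 / 5 + δ) / Real.log N))).card : ℝ) ≤
      N * (Real.log N) ^ 20 / H

end Pool.Agent.R516
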