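import Mathlib

/-! The rising sun lemma for finite sequences. -/

set_option autoImplicit false

namespace Pool.Agent.R516

open Finset

/-- points before which some block has positive sum -/
def Bk (h : ℕ → ℝ) (N : ℕ) : Set ℕ := {n | n ≤ N ∧ ∃ a, a < n ∧ 0 < ∑ m ∈ Ioc a n, h m}

/-- points after which some block has positive sum -/
def Fw (h : ℕ → ℝ) (N : ℕ) : Set ℕ := {n | ∃ b, n < b ∧ b ≤ N ∧ 0 < ∑ m ∈ Ioc n b, h m}

open Classical in
theorem sun_bk_aux (h : ℕ → ℝ) (N : ℕ) : ∀ n ≤ N, ∀ a ≤ n,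
    ∑ m ∈ Ioc a n, h m ≤ ∑ k ∈ (Icc 1 n).filter (fun k => k ∈ Bk h N), h k := by
  intro n
  induction n with
  | zero =>
    intro _ a ha
    have : a = 0 := by omega
    subst this
    simp
  | succ n ih =>
    intro hn a ha
    have ih' := ih (by omega)
    have hT0 : 0 ≤ ∑ k ∈ (Icc 1 n).filter (fun k => k ∈ Bk h N), h k := by
      have := ih' n le_rfl
      simpa using this
    have hI : Icc 1 (n + 1) = insert (n + 1) (Icc 1 n) := by
      ext m
      rw [Finset.mem_insert, Finset.mem_Icc, Finset.mem_Icc]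
      omega
    have hS : ∀ a, a ≤ n → ∑ m ∈ Ioc a (n + 1), h m = ∑ m ∈ Ioc a n, h m + h (n + 1) := by
      intro a ha
      rw [Finset.sum_Ioc_succ_top ha]
    by_cases hmem : n + 1 ∈ Bk h N
    · have hT : ∑ k ∈ (Icc 1 (n + 1)).filter (fun k => k ∈ Bk h N), h k =
          ∑ k ∈ (Icc 1 n).filter (fun k => k ∈ Bk h N), h k + h (n + 1) := by
        rw [hI, Finset.filter_insert, if_pos hmem, Finset.sum_insert, add_comm]
        rw [Finset.mem_filter, Finset.mem_Icc]
        omega
      rw [hT]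
      rcases Nat.lt_or_ge a (n + 1) with h1 | h1
      · rw [hS a (by omega)]
        have := ih' a (by omega)
        linarith
      · have : a = n + 1 := by omega
        subst this
        rw [Finset.Ioc_self, Finset.sum_empty]
        obtain ⟨_, a', ha', hpos⟩ := hmem
        rw [hS a' (by omega)] at hpos
        have := ih' a' (by omega)
        linarith
    · have hT : ∑ k ∈ (Icc 1 (n + 1)).filter (fun k => k ∈ Bk h N), h k =
          ∑ k ∈ (Icc 1 n).filter (fun k => k ∈ Bk h N), h k := by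
        rw [hI, Finset.filter_insert, if_neg hmem]
      rw [hT]
      rcases Nat.lt_or_ge a (n + 1) with h1 | h1
      · by_contra hcon
        push Not at hcon
        exact hmem ⟨hn, a, h1, lt_of_le_of_lt hT0 hcon⟩
      · have : a = n + 1 := by omega
        subst this
        rw [Finset.Ioc_self, Finset.sum_empty]
        exact hT0

open Classical in
theorem sun_bk (h : ℕ → ℝ) (N : ℕ) :
    0 ≤ ∑ k ∈ (Icc 1 N).filter (fun k => k ∈ Bk h N), h k := by
  have := sun_bk_aux h N N le_rfl N le_rfl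
  simpa using this

open Classical in
theorem sun_fw_aux (h : ℕ → ℝ) (N : ℕ) : ∀ j ≤ N, ∀ b, N - j ≤ b → b ≤ N →
    ∑ m ∈ Ioc (N - j) b, h m ≤
      ∑ k ∈ (Ico (N - j) N).filter (fun k => k ∈ Fw h N), h (k + 1) := by
  intro j
  induction j with
  | zero =>
    intro _ b hb hb'
    have : b = N := by omega
    subst this
    simp
  | succ j ih =>
    intro hj b hb hb'
    have ih' := ih (by omega)
    obtain ⟨n, hn⟩ : ∃ n, n = N - (j + 1) := ⟨_, rfl⟩
    have hn1 : N - j = n + 1 := by omega
    rw [hn1] at ih'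
    rw [← hn] at hb ⊢
    have hnN : n + 1 ≤ N := by omega
    have hT0 : 0 ≤ ∑ k ∈ (Ico (n + 1) N).filter (fun k => k ∈ Fw h N), h (k + 1) := by
      have := ih' (n + 1) le_rfl hnN
      simpa using this
    have hI : Ico n N = insert n (Ico (n + 1) N) := by
      ext m
      rw [Finset.mem_insert, Finset.mem_Ico, Finset.mem_Ico]
      omega
    have hS : ∀ b, n + 1 ≤ b → ∑ m ∈ Ioc n b, h m = h (n + 1) + ∑ m ∈ Ioc (n + 1) b, h m := by
      intro b hb
      have e : Ioc n b = insert (n + 1) (Ioc (n + 1) b) := by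
        ext m
        rw [Finset.mem_insert, Finset.mem_Ioc, Finset.mem_Ioc]
        omega
      rw [e, Finset.sum_insert]
      rw [Finset.mem_Ioc]
      omega
    by_cases hmem : n ∈ Fw h N
    · have hT : ∑ k ∈ (Ico n N).filter (fun k => k ∈ Fw h N), h (k + 1) =
          h (n + 1) + ∑ k ∈ (Ico (n + 1) N).filter (fun k => k ∈ Fw h N), h (k + 1) := by
        rw [hI, Finset.filter_insert, if_pos hmem, Finset.sum_insert]
        rw [Finset.mem_filter, Finset.mem_Ico]
        omega
      rw [hT]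
      rcases Nat.lt_or_ge n b with h1 | h1
      · rw [hS b h1]
        have := ih' b h1 hb'
        linarith
      · have : b = n := by omega
        subst this
        rw [Finset.Ioc_self, Finset.sum_empty]
        obtain ⟨b', hb1, hb2, hpos⟩ := hmem
        rw [hS b' hb1] at hpos
        have := ih' b' hb1 hb2
        linarith
    · have hT : ∑ k ∈ (Ico n N).filter (fun k => k ∈ Fw h N), h (k + 1) =
          ∑ k ∈ (Ico (n + 1) N).filter (fun k => k ∈ Fw h N), h (k + 1) := by
        rw [hI, Finset.filter_insert, if_neg hmem]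
      rw [hT]
      rcases Nat.lt_or_ge n b with h1 | h1
      · by_contra hcon
        push Not at hcon
        exact hmem ⟨b, h1, hb', lt_of_le_of_lt hT0 hcon⟩
      · have : b = n := by omega
        subst this
        rw [Finset.Ioc_self, Finset.sum_empty]
        exact hT0

open Classical in
theorem sun_fw (h : ℕ → ℝ) (N : ℕ) :
    0 ≤ ∑ k ∈ (range N).filter (fun k => k ∈ Fw h N), h (k + 1) := by
  have := sun_fw_aux h N N le_rfl 0 (by omega) (by omega)
  rw [Nat.sub_self, Finset.Ioc_self, Finset.sum_empty, ← Finset.range_eq_Ico] at this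
  exact this

/-- the points of some interval with large mean -/
def Ex (g : ℕ → ℝ) (l : ℝ) (N : ℕ) : Set ℕ :=
  {n | ∃ a b, a < n ∧ n ≤ b ∧ b ≤ N ∧ l * ((b : ℝ) - a) < ∑ m ∈ Ioc a b, g m}

open Classical in
/-- the maximal inequality -/
theorem max_ineq (g : ℕ → ℝ) (hg : ∀ n, 0 ≤ g n) (l : ℝ) (N : ℕ) :
    l * ((Icc 1 N).filter (fun n => n ∈ Ex g l N)).card ≤ 2 * ∑ m ∈ Icc 1 N, g m := by
  have hcard : ∀ a b : ℕ, a ≤ b → ∑ m ∈ Ioc a b, (g m - l) = ∑ m ∈ Ioc a b, g m - l * ((b : ℝ) - a) := by
    intro a b hab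
    rw [Finset.sum_sub_distrib, Finset.sum_const, Nat.card_Ioc, nsmul_eq_mul, Nat.cast_sub hab]
    ring
  have hsub : (Icc 1 N).filter (fun n => n ∈ Ex g l N) ⊆
      (Icc 1 N).filter (fun n => n ∈ Bk (fun m => g m - l) N) ∪
      (range N).filter (fun n => n ∈ Fw (fun m => g m - l) N) := by
    intro n hn
    rw [Finset.mem_filter] at hn
    obtain ⟨hn1, a, b, ha, hb, hbN, hsum⟩ := hn
    rw [Finset.mem_Icc] at hn1
    rw [Finset.mem_union, Finset.mem_filter, Finset.mem_filter, Finset.mem_Icc, Finset.mem_range]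
    by_cases h1 : 0 < ∑ m ∈ Ioc a n, (g m - l)
    · left
      exact ⟨hn1, hn1.2, a, ha, h1⟩
    · right
      push Not at h1
      have h2 : 0 < ∑ m ∈ Ioc a b, (g m - l) := by
        rw [hcard a b (by omega)]
        linarith
      rw [← Finset.sum_Ioc_consecutive _ ha.le hb] at h2
      have h3 : 0 < ∑ m ∈ Ioc n b, (g m - l) := by linarith
      have h4 : n < b := by
        by_contra h5
        have : n = b := by omega
        subst this
        rw [Finset.Ioc_self, Finset.sum_empty] at h3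
        exact lt_irrefl _ h3
      exact ⟨by omega, b, h4, hbN, h3⟩
  rcases lt_or_ge l 0 with hl | hl
  · have h1 : l * (((Icc 1 N).filter (fun n => n ∈ Ex g l N)).card : ℝ) ≤ 0 :=
      mul_nonpos_of_nonpos_of_nonneg hl.le (Nat.cast_nonneg _)
    have h2 : 0 ≤ ∑ m ∈ Icc 1 N, g m := Finset.sum_nonneg fun m _ => hg m
    linarith
  have hB := sun_bk (fun m => g m - l) N
  have hF := sun_fw (fun m => g m - l) N
  rw [Finset.sum_sub_distrib, Finset.sum_const, nsmul_eq_mul] at hB hF
  have hB1 : ∑ k ∈ (Icc 1 N).filter (fun k => k ∈ Bk (fun m => g m - l) N), g k ≤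
      ∑ m ∈ Icc 1 N, g m :=
    Finset.sum_le_sum_of_subset_of_nonneg (Finset.filter_subset _ _) fun m _ _ => hg m
  have hF1 : ∑ k ∈ (range N).filter (fun k => k ∈ Fw (fun m => g m - l) N), g (k + 1) ≤
      ∑ m ∈ Icc 1 N, g m := by
    calc _ ≤ ∑ k ∈ range N, g (k + 1) :=
          Finset.sum_le_sum_of_subset_of_nonneg (Finset.filter_subset _ _) fun m _ _ => hg _
      _ = ∑ m ∈ Icc 1 N, g m := by
          rw [Finset.range_eq_Ico, Finset.sum_Ico_add' g 0 N 1]
          congr 1
  have hc : (((Icc 1 N).filter (fun n => n ∈ Ex g l N)).card : ℝ) ≤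
      (((Icc 1 N).filter (fun n => n ∈ Bk (fun m => g m - l) N)).card : ℝ) +
      (((range N).filter (fun n => n ∈ Fw (fun m => g m - l) N)).card : ℝ) := by
    exact_mod_cast (Finset.card_le_card hsub).trans (Finset.card_union_le _ _)
  have := mul_le_mul_of_nonneg_left hc hl
  linarith

end Pool.Agent.R516
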