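import Mathlib
import Pool.Agent.R516.Stm
import Pool.Agent.R516.Sun

/-! From the variance to all intervals. -/

set_option autoImplicit false

namespace Pool.Agent.R516

open Finset Filter Topology

theorem ev_nat' {p : ℝ → Prop} (h : ∀ᶠ x : ℝ in atTop, p x) : ∀ᶠ N : ℕ in atTop, p (N : ℝ) :=
  (tendsto_natCast_atTop_atTop (R := ℝ)).eventually h

theorem ev_rpow' (C : ℝ) {e : ℝ} (he : 0 < e) : ∀ᶠ N : ℕ in atTop, C ≤ (N : ℝ) ^ e :=
  ev_nat' ((tendsto_rpow_atTop he).eventually (eventually_ge_atTop C))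

theorem ev_log' (C : ℝ) : ∀ᶠ N : ℕ in atTop, C ≤ Real.log N :=
  ev_nat' (Real.tendsto_log_atTop.eventually (eventually_ge_atTop C))

theorem ev_logpow' (k : ℕ) {e : ℝ} (he : 0 < e) :
    ∀ᶠ N : ℕ in atTop, (Real.log N) ^ k ≤ (N : ℝ) ^ e := by
  have h0 := isLittleO_log_rpow_rpow_atTop (s := e) k he
  have h6 := (h0.bound one_pos)
  have h7 := (tendsto_natCast_atTop_atTop (R := ℝ)).eventually h6
  filter_upwards [h7, eventually_ge_atTop 1] with N h8 h9
  have hN : (1 : ℝ) ≤ N := by exact_mod_cast h9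
  rw [one_mul, Real.norm_eq_abs, Real.norm_eq_abs, Real.rpow_natCast] at h8
  exact (le_abs_self _).trans (h8.trans (abs_of_nonneg (by positivity)).le)

/-- averaging over windows -/
theorem avg_win (f : ℕ → ℝ) (hf : ∀ n, 0 ≤ f n) (H a b : ℕ) (hH : 1 ≤ H) (ha : H ≤ a) :
    H * ∑ m ∈ Ioc a b, f m ≤ ∑ n ∈ Ico (a - H) b, ∑ h ∈ Icc 1 H, f (n + h) := by
  rw [Finset.sum_comm]
  have h1 : ∀ h ∈ Icc 1 H, ∑ m ∈ Ioc a b, f m ≤ ∑ n ∈ Ico (a - H) b, f (n + h) := by
    intro h hh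
    rw [Finset.mem_Icc] at hh
    rw [← Finset.sum_image (f := f) (g := fun n => n + h) (fun x _ y _ hxy => Nat.add_right_cancel hxy)]
    apply Finset.sum_le_sum_of_subset_of_nonneg
    · intro m hm
      rw [Finset.mem_Ioc] at hm
      rw [Finset.mem_image]
      refine ⟨m - h, ?_, by omega⟩
      rw [Finset.mem_Ico]
      omega
    · intro m _ _
      exact hf m
  calc (H : ℝ) * ∑ m ∈ Ioc a b, f m = ∑ h ∈ Icc 1 H, ∑ m ∈ Ioc a b, f m := by
        rw [Finset.sum_const, Nat.card_Icc, nsmul_eq_mul, Nat.add_sub_cancel]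
    _ ≤ _ := Finset.sum_le_sum h1

/-- the basic step -/
theorem win_step {X : ℕ} {ν : ℤ → ℝ} {V : ℝ} (hν : ∀ m, 0 ≤ ν m) (hV : 0 ≤ V)
    (h35 : ∀ p : ℕ, p.Prime → (X : ℝ) ^ (3 / 5 : ℝ) < p → ν p = 1) {H : ℕ} (hH : 1 ≤ H)
    (hHX : (H : ℝ) ≤ (X : ℝ) ^ (3 / 5 : ℝ)) {l : ℝ} (hl : 0 ≤ l) {n a b : ℕ}
    (hna : a < n) (hnb : n ≤ b) (hb : b ≤ X)
    (hn : n ∉ Ex (fun k => (∑ h ∈ Icc 1 H, ν (((k - 1 : ℕ) : ℤ) + (h : ℕ)) - H * V) ^ 2) l X) :
    (((Ioc a b).filter (fun p : ℕ => p.Prime ∧ (X : ℝ) ^ (3 / 5 : ℝ) < p)).card : ℝ) ≤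
      ((b : ℝ) - a + H) * (V + Real.sqrt l / H) := by
  have hH0 : (0 : ℝ) < H := by exact_mod_cast hH
  have hab : (0 : ℝ) ≤ (b : ℝ) - a := by
    have : (a : ℝ) ≤ b := by exact_mod_cast (by omega : a ≤ b)
    linarith
  obtain ⟨a', ha'⟩ : ∃ a', a' = max a H := ⟨_, rfl⟩
  have ha1 : a ≤ a' := by rw [ha']; exact le_max_left _ _
  have ha2 : H ≤ a' := by rw [ha']; exact le_max_right _ _
  have hcard : (((Ioc a b).filter (fun p : ℕ => p.Prime ∧ (X : ℝ) ^ (3 / 5 : ℝ) < p)).card : ℝ) ≤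
      ∑ m ∈ Ioc a' b, ν (m : ℤ) := by
    calc _ = ∑ p ∈ (Ioc a b).filter (fun p : ℕ => p.Prime ∧ (X : ℝ) ^ (3 / 5 : ℝ) < p), (1 : ℝ) := by
          rw [Finset.sum_const, nsmul_eq_mul, mul_one]
      _ = ∑ p ∈ (Ioc a b).filter (fun p : ℕ => p.Prime ∧ (X : ℝ) ^ (3 / 5 : ℝ) < p), ν (p : ℤ) := by
          refine Finset.sum_congr rfl fun p hp => ?_
          rw [Finset.mem_filter] at hp
          exact (h35 p hp.2.1 hp.2.2).symm
      _ ≤ _ := by
          apply Finset.sum_le_sum_of_subset_of_nonneg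
          · intro p hp
            rw [Finset.mem_filter, Finset.mem_Ioc] at hp
            rw [Finset.mem_Ioc]
            refine ⟨?_, hp.1.2⟩
            rw [ha', max_lt_iff]
            refine ⟨hp.1.1, ?_⟩
            have : (H : ℝ) < p := lt_of_le_of_lt hHX hp.2.2
            exact_mod_cast this
          · intro m _ _
            exact hν _
  rcases Nat.lt_or_ge b a' with hba | hba
  · rw [Finset.Ioc_eq_empty (show ¬ a' < b by omega), Finset.sum_empty] at hcard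
    refine hcard.trans ?_
    have := Real.sqrt_nonneg l
    positivity
  have havg := avg_win (fun m => ν (m : ℤ)) (fun m => hν _) H a' b hH ha2
  -- the interval
  obtain ⟨L, hL⟩ : ∃ L : ℝ, L = ((b : ℝ) - ((a' - H : ℕ) : ℝ)) := ⟨_, rfl⟩
  have hLr : L = (b : ℝ) - a' + H := by
    rw [hL, Nat.cast_sub ha2]
    ring
  have hLle : L ≤ (b : ℝ) - a + H := by
    rw [hLr]
    have : (a : ℝ) ≤ a' := by exact_mod_cast ha1
    linarith
  have hL0 : 0 ≤ L := by
    rw [hLr]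
    have : (a' : ℝ) ≤ b := by exact_mod_cast hba
    linarith
  have hsq : ∑ k ∈ Ioc (a' - H) b,
      (∑ h ∈ Icc 1 H, ν (((k - 1 : ℕ) : ℤ) + (h : ℕ)) - H * V) ^ 2 ≤ l * L := by
    by_contra hcon
    push Not at hcon
    apply hn
    refine ⟨a' - H, b, ?_, hnb, hb, ?_⟩
    · rw [ha']
      omega
    · rw [← hL]
      exact hcon
  set T : ℕ → ℝ := fun n => ∑ h ∈ Icc 1 H, ν ((n : ℤ) + (h : ℕ)) - H * V with hT
  have hshift : ∑ n ∈ Ico (a' - H) b, T n ^ 2 = ∑ k ∈ Ioc (a' - H) b,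
      (∑ h ∈ Icc 1 H, ν (((k - 1 : ℕ) : ℤ) + (h : ℕ)) - H * V) ^ 2 := by
    have e : Ioc (a' - H) b = (Ico (a' - H) b).image (fun n => n + 1) := by
      ext k
      rw [Finset.mem_image, Finset.mem_Ioc]
      constructor
      · intro h
        exact ⟨k - 1, by rw [Finset.mem_Ico]; omega, by omega⟩
      · rintro ⟨n, hn, rfl⟩
        rw [Finset.mem_Ico] at hn
        omega
    rw [e, Finset.sum_image (fun x _ y _ hxy => Nat.add_right_cancel hxy)]
    rfl
  have hcardI : ((Ico (a' - H) b).card : ℝ) = L := by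
    rw [Nat.card_Ico, hL, Nat.cast_sub (by omega)]
  have hCS : (∑ n ∈ Ico (a' - H) b, T n) ^ 2 ≤ L * (l * L) := by
    calc (∑ n ∈ Ico (a' - H) b, T n) ^ 2 ≤ (Ico (a' - H) b).card * ∑ n ∈ Ico (a' - H) b, T n ^ 2 :=
          sq_sum_le_card_mul_sum_sq
      _ ≤ L * (l * L) := by
          rw [hcardI, hshift]
          exact mul_le_mul_of_nonneg_left hsq hL0
  have hS : ∑ n ∈ Ico (a' - H) b, T n ≤ Real.sqrt l * L := by
    apply le_of_sq_le_sq _ (by positivity)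
    rw [mul_pow, Real.sq_sqrt hl]
    calc _ ≤ L * (l * L) := hCS
      _ = _ := by ring
  have hsum : ∑ n ∈ Ico (a' - H) b, ∑ h ∈ Icc 1 H, ν (((n + h : ℕ) : ℕ) : ℤ) =
      ∑ n ∈ Ico (a' - H) b, T n + L * (H * V) := by
    simp only [hT]
    rw [Finset.sum_sub_distrib, Finset.sum_const, nsmul_eq_mul, hcardI]
    push_cast
    ring
  have hfin : (H : ℝ) * ∑ m ∈ Ioc a' b, ν (m : ℤ) ≤ Real.sqrt l * L + L * (H * V) := by
    refine havg.trans ?_
    rw [hsum]
    linarith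
  have hs0 := Real.sqrt_nonneg l
  calc _ ≤ ∑ m ∈ Ioc a' b, ν (m : ℤ) := hcard
    _ = (H * ∑ m ∈ Ioc a' b, ν (m : ℤ)) / H := by field_simp
    _ ≤ (Real.sqrt l * L + L * (H * V)) / H := by gcongr
    _ = L * (V + Real.sqrt l / H) := by field_simp; ring
    _ ≤ _ := mul_le_mul_of_nonneg_right hLle (by positivity)

/-- **(U)** -/
theorem winU (hcore : St_Core) : St_U := by
  classical
  intro δ₀ hδ₀
  obtain ⟨δ, hδ, hδ1, hδδ⟩ : ∃ δ : ℝ, 0 < δ ∧ δ ≤ 1 ∧ δ ≤ δ₀ :=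
    ⟨min δ₀ 1, lt_min hδ₀ one_pos, min_le_right _ _, min_le_left _ _⟩
  obtain ⟨κ, hκ, hκ1, X₀, hX₀⟩ := hcore (δ / 8) (by positivity)
  refine ⟨min κ (1 / 10), lt_min hκ (by norm_num), ?_⟩
  rw [← Filter.eventually_atTop]
  filter_upwards [eventually_ge_atTop X₀, eventually_ge_atTop 64, ev_log' (1000000 / δ ^ 3),
    ev_logpow' 1 (by norm_num : (0 : ℝ) < 1 / 20), ev_rpow' (100 / δ) (by norm_num : (0 : ℝ) < 1 / 20)]
    with N hN1 hN64 hlog hlog1 hrp H hH1 hHκ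
  have hNr : (64 : ℝ) ≤ N := by exact_mod_cast hN64
  have hN0 : (0 : ℝ) < N := by linarith
  have hNg1 : (1 : ℝ) < N := by linarith
  have hXle : ∀ s t : ℝ, s ≤ t → (N : ℝ) ^ s ≤ (N : ℝ) ^ t := fun s t hst =>
    Real.rpow_le_rpow_of_exponent_le hNg1.le hst
  have hδ3 : δ ^ 3 ≤ 1 := pow_le_one₀ hδ.le hδ1
  have hδ30 : 0 < δ ^ 3 := by positivity
  have hL1 : 1000000 ≤ Real.log N := by
    refine le_trans ?_ hlog
    rw [le_div_iff₀ hδ30]
    linarith only [hδ3]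
  have hL0 : 0 < Real.log N := by linarith
  have hHκ1 : H ≤ (N : ℝ) ^ κ := hHκ.trans (hXle _ _ (min_le_left _ _))
  have hH10 : H ≤ (N : ℝ) ^ (1 / 10 : ℝ) := hHκ.trans (hXle _ _ (min_le_right _ _))
  have hH0 : 0 < H := by linarith
  -- trivial range
  rcases lt_or_ge H ((Real.log N) ^ 20) with hHs | hHl
  · have h1 : (((Icc 1 N).filter (fun n => n ∈ Hi N H ((18 / 5 + δ₀) / Real.log N))).card : ℝ) ≤ N := by
      have h2 := Finset.card_le_card (Finset.filter_subset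
        (fun n => n ∈ Hi N H ((18 / 5 + δ₀) / Real.log N)) (Icc 1 N))
      rw [Nat.card_Icc, Nat.add_sub_cancel] at h2
      exact_mod_cast h2
    refine h1.trans ?_
    rw [le_div_iff₀ hH0]
    exact mul_le_mul_of_nonneg_left hHs.le hN0.le
  obtain ⟨ν, V, hν, h35, hV0, hV, hvar⟩ := hX₀ N hN1
  -- the window
  obtain ⟨W, hW⟩ : ∃ W : ℕ, W = ⌊δ / 16 * H⌋₊ := ⟨_, rfl⟩
  have hL20 : (1000000 / δ ^ 3) ≤ (Real.log N) ^ 20 := by
    calc (1000000 / δ ^ 3) ≤ Real.log N := hlog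
      _ = (Real.log N) ^ 1 := (pow_one _).symm
      _ ≤ _ := pow_le_pow_right₀ (by linarith) (by norm_num)
  have hHbig : 1000000 / δ ^ 3 ≤ H := hL20.trans hHl
  have hδH : 1000 ≤ δ * H := by
    have h1 : 1000000 ≤ H * δ ^ 3 := by rwa [div_le_iff₀ hδ30] at hHbig
    have h2 : δ ^ 3 ≤ δ := by
      calc δ ^ 3 = δ * δ ^ 2 := by ring
        _ ≤ δ * 1 := by
            apply mul_le_mul_of_nonneg_left _ hδ.le
            exact pow_le_one₀ hδ.le hδ1
        _ = δ := mul_one _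
    have h3 : H * δ ^ 3 ≤ H * δ := mul_le_mul_of_nonneg_left h2 hH0.le
    linarith only [h1, h3]
  have hWle : (W : ℝ) ≤ δ / 16 * H := by rw [hW]; exact Nat.floor_le (by positivity)
  have hWge : δ / 32 * H ≤ W := by
    have h1 : δ / 16 * H < W + 1 := by rw [hW]; exact Nat.lt_floor_add_one _
    linarith
  have hW1r : (1 : ℝ) ≤ W := by linarith
  have hW1 : 1 ≤ W := by exact_mod_cast hW1r
  have hW0 : (0 : ℝ) < W := by linarith
  have hWH : (W : ℝ) ≤ H := by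
    have : δ / 16 * H ≤ 1 * H := mul_le_mul_of_nonneg_right (by linarith only [hδ1]) hH0.le
    linarith only [this, hWle]
  have hvarW := hvar W hW1 (hWH.trans hHκ1)
  -- the level
  obtain ⟨l, hl⟩ : ∃ l : ℝ, l = (δ / 16 * W / Real.log N) ^ 2 := ⟨_, rfl⟩
  have hl0 : 0 < l := by rw [hl]; positivity
  have hsl : Real.sqrt l / W = δ / 16 / Real.log N := by
    rw [hl, Real.sqrt_sq (by positivity)]
    field_simp
  have hmax := max_ineq (fun k => (∑ h ∈ Icc 1 W, ν (((k - 1 : ℕ) : ℤ) + (h : ℕ)) - W * V) ^ 2)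
    (fun k => sq_nonneg _) l N
  have hG : ∑ k ∈ Icc 1 N, (∑ h ∈ Icc 1 W, ν (((k - 1 : ℕ) : ℤ) + (h : ℕ)) - W * V) ^ 2 ≤
      N * W * (Real.log N) ^ 17 := by
    refine le_trans ?_ hvarW
    have e : Icc 1 N = (range N).image (fun n => n + 1) := by
      ext k
      rw [Finset.mem_image, Finset.mem_Icc]
      constructor
      · intro h
        exact ⟨k - 1, by rw [Finset.mem_range]; omega, by omega⟩
      · rintro ⟨n, hn, rfl⟩
        rw [Finset.mem_range] at hn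
        omega
    rw [e, Finset.sum_image (fun x _ y _ hxy => Nat.add_right_cancel hxy)]
    have e2 : ∀ n ∈ range N, (∑ h ∈ Icc 1 W, ν (((n + 1 - 1 : ℕ) : ℤ) + (h : ℕ)) - W * V) ^ 2 =
        (∑ h ∈ Icc 1 W, ν ((n : ℤ) + (h : ℕ)) - W * V) ^ 2 := by
      intro n _
      rw [Nat.add_sub_cancel]
    rw [Finset.sum_congr rfl e2]
    apply Finset.sum_le_sum_of_subset_of_nonneg
    · intro n hn
      rw [Finset.mem_range] at hn
      rw [Finset.mem_Icc]
      omega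
    · intro n _ _
      positivity
  -- the exceptional set
  have hsub : (Icc 1 N).filter (fun n => n ∈ Hi N H ((18 / 5 + δ₀) / Real.log N)) ⊆
      (Icc 1 N).filter (fun n => n ∈ Ex (fun k => (∑ h ∈ Icc 1 W,
        ν (((k - 1 : ℕ) : ℤ) + (h : ℕ)) - W * V) ^ 2) l N) ∪ Icc 1 ⌊(N : ℝ) ^ (7 / 10 : ℝ)⌋₊ := by
    intro n hn
    rw [Finset.mem_filter] at hn
    obtain ⟨hn1, a, b, ha, hb, hbN, hHab, hcnt⟩ := hn
    rw [Finset.mem_union, Finset.mem_filter]
    by_contra hcon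
    push Not at hcon
    obtain ⟨hcon1, hcon2⟩ := hcon
    have hnE := hcon1 hn1
    rw [Finset.mem_Icc] at hn1 hcon2
    push Not at hcon2
    have hnbig : (N : ℝ) ^ (7 / 10 : ℝ) < n := (Nat.floor_lt (by positivity)).1 (hcon2 hn1.1)
    have hstep := win_step hν hV0 h35 hW1
      (by
        refine hWH.trans (hH10.trans (hXle _ _ (by norm_num)))) hl0.le ha hb hbN hnE
    rw [hsl] at hstep
    -- small primes
    have hsmall : ((((Ioc a b).filter (fun p : ℕ => p.Prime ∧ ¬ (N : ℝ) ^ (3 / 5 : ℝ) < p)).card : ℕ) : ℝ) ≤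
        δ / 16 * (((b : ℝ) - a) / Real.log N) := by
      by_cases hemp : ((Ioc a b).filter (fun p : ℕ => p.Prime ∧ ¬ (N : ℝ) ^ (3 / 5 : ℝ) < p)) = ∅
      · rw [hemp, Finset.card_empty, Nat.cast_zero]
        have : 0 ≤ (b : ℝ) - a := by linarith
        positivity
      · obtain ⟨p, hp⟩ := Finset.nonempty_iff_ne_empty.2 hemp
        rw [Finset.mem_filter, Finset.mem_Ioc] at hp
        push Not at hp
        have h1 : (a : ℝ) < (N : ℝ) ^ (3 / 5 : ℝ) := by
          have : (a : ℝ) < p := by exact_mod_cast hp.1.1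
          linarith [hp.2.2]
        have h2 : (n : ℝ) ≤ b := by exact_mod_cast hb
        have h3 : ((((Ioc a b).filter (fun p : ℕ => p.Prime ∧ ¬ (N : ℝ) ^ (3 / 5 : ℝ) < p)).card : ℕ) : ℝ) ≤
            (N : ℝ) ^ (3 / 5 : ℝ) := by
          have h4 : (Ioc a b).filter (fun p : ℕ => p.Prime ∧ ¬ (N : ℝ) ^ (3 / 5 : ℝ) < p) ⊆
              Icc 1 ⌊(N : ℝ) ^ (3 / 5 : ℝ)⌋₊ := by
            intro q hq
            rw [Finset.mem_filter] at hq
            rw [Finset.mem_Icc]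
            exact ⟨hq.2.1.one_lt.le, Nat.le_floor (not_lt.1 hq.2.2)⟩
          have h5 := Finset.card_le_card h4
          rw [Nat.card_Icc, Nat.add_sub_cancel] at h5
          have h6 : ((⌊(N : ℝ) ^ (3 / 5 : ℝ)⌋₊ : ℕ) : ℝ) ≤ (N : ℝ) ^ (3 / 5 : ℝ) :=
            Nat.floor_le (by positivity)
          have h7 : ((((Ioc a b).filter (fun p : ℕ => p.Prime ∧ ¬ (N : ℝ) ^ (3 / 5 : ℝ) < p)).card : ℕ) : ℝ)
            ≤ ((⌊(N : ℝ) ^ (3 / 5 : ℝ)⌋₊ : ℕ) : ℝ) := by exact_mod_cast h5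
          linarith
        refine h3.trans ?_
        -- N^(3/5) ≤ δ/16 (N^(7/10) - N^(3/5)) / log N
        have e1 : (N : ℝ) ^ (7 / 10 : ℝ) = (N : ℝ) ^ (3 / 5 : ℝ) * ((N : ℝ) ^ (1 / 20 : ℝ) *
            (N : ℝ) ^ (1 / 20 : ℝ)) := by
          rw [← Real.rpow_add hN0, ← Real.rpow_add hN0]
          norm_num
        have h8 : (b : ℝ) - a ≥ (N : ℝ) ^ (3 / 5 : ℝ) * ((N : ℝ) ^ (1 / 20 : ℝ) *
            (N : ℝ) ^ (1 / 20 : ℝ) - 1) := by
          have : (N : ℝ) ^ (3 / 5 : ℝ) * ((N : ℝ) ^ (1 / 20 : ℝ) * (N : ℝ) ^ (1 / 20 : ℝ) - 1) =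
            (N : ℝ) ^ (7 / 10 : ℝ) - (N : ℝ) ^ (3 / 5 : ℝ) := by rw [e1]; ring
          rw [this]
          linarith
        rw [pow_one] at hlog1
        obtain ⟨t, ht⟩ : ∃ t : ℝ, t = (N : ℝ) ^ (1 / 20 : ℝ) := ⟨_, rfl⟩
        rw [← ht] at h8 hlog1 hrp
        have ht1 : 100 ≤ δ * t := by
          rwa [div_le_iff₀ hδ, mul_comm] at hrp
        have ht0 : 0 < t := by rw [ht]; positivity
        have ht100 : 100 ≤ t := by
          have : δ * t ≤ 1 * t := mul_le_mul_of_nonneg_right hδ1 ht0.le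
          linarith only [this, ht1]
        have hN35 : 0 < (N : ℝ) ^ (3 / 5 : ℝ) := by positivity
        rw [← mul_div_assoc, le_div_iff₀ hL0]
        calc (N : ℝ) ^ (3 / 5 : ℝ) * Real.log N ≤ (N : ℝ) ^ (3 / 5 : ℝ) * t := by gcongr
          _ ≤ δ / 16 * ((N : ℝ) ^ (3 / 5 : ℝ) * (t * t - 1)) := by
              have h20 : t ≤ δ / 16 * (t * t - 1) := by
                have h21 : δ / 16 * (t * t) ≥ 100 / 16 * t := by
                  have : δ / 16 * (t * t) = δ * t / 16 * t := by ring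
                  rw [this]
                  apply mul_le_mul_of_nonneg_right _ ht0.le
                  linarith only [ht1]
                have h22 : δ / 16 ≤ 1 := by linarith only [hδ1]
                linarith only [h21, h22, ht100]
              have h23 : (N : ℝ) ^ (3 / 5 : ℝ) * t ≤
                  (N : ℝ) ^ (3 / 5 : ℝ) * (δ / 16 * (t * t - 1)) :=
                mul_le_mul_of_nonneg_left h20 hN35.le
              linarith only [h23]
          _ ≤ _ := by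
              apply mul_le_mul_of_nonneg_left h8 (by positivity)
    have hpc : (pcn a b : ℝ) =
        (((Ioc a b).filter (fun p : ℕ => p.Prime ∧ (N : ℝ) ^ (3 / 5 : ℝ) < p)).card : ℝ) +
        ((((Ioc a b).filter (fun p : ℕ => p.Prime ∧ ¬ (N : ℝ) ^ (3 / 5 : ℝ) < p)).card : ℕ) : ℝ) := by
      unfold pcn
      have := Finset.card_filter_add_card_filter_not (s := (Ioc a b).filter Nat.Prime)
        (fun p : ℕ => (N : ℝ) ^ (3 / 5 : ℝ) < p)
      rw [Finset.filter_filter, Finset.filter_filter] at this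
      exact_mod_cast this.symm
    -- conclusion
    have hLN : 0 < ((b : ℝ) - a) / Real.log N := by
      have : 0 < (b : ℝ) - a := by linarith
      positivity
    have hWab : (W : ℝ) ≤ δ / 16 * ((b : ℝ) - a) := by
      refine hWle.trans ?_
      apply mul_le_mul_of_nonneg_left hHab (by positivity)
    have h10 : ((b : ℝ) - a + W) * (V + δ / 16 / Real.log N) ≤
        (1 + δ / 16) * (18 / 5 + δ / 8 + δ / 16) * (((b : ℝ) - a) / Real.log N) := by
      have hab0 : 0 ≤ (b : ℝ) - a := by linarith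
      calc ((b : ℝ) - a + W) * (V + δ / 16 / Real.log N) ≤
          ((1 + δ / 16) * ((b : ℝ) - a)) * ((18 / 5 + δ / 8) / Real.log N + δ / 16 / Real.log N) := by
            apply mul_le_mul _ _ (by positivity) (by positivity)
            · linarith
            · linarith
        _ = _ := by ring
    have h11 : (1 + δ / 16) * (18 / 5 + δ / 8 + δ / 16) + δ / 16 ≤ 18 / 5 + δ₀ := by
      nlinarith only [hδ, hδ1, hδδ]
    have h12 : (pcn a b : ℝ) ≤ (18 / 5 + δ₀) * (((b : ℝ) - a) / Real.log N) := by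
      rw [hpc]
      calc _ ≤ (1 + δ / 16) * (18 / 5 + δ / 8 + δ / 16) * (((b : ℝ) - a) / Real.log N) +
            δ / 16 * (((b : ℝ) - a) / Real.log N) := add_le_add (hstep.trans h10) hsmall
        _ = ((1 + δ / 16) * (18 / 5 + δ / 8 + δ / 16) + δ / 16) * (((b : ℝ) - a) / Real.log N) := by
            ring
        _ ≤ _ := mul_le_mul_of_nonneg_right h11 hLN.le
    have h13 : (18 / 5 + δ₀) / Real.log N * ((b : ℝ) - a) =
        (18 / 5 + δ₀) * (((b : ℝ) - a) / Real.log N) := by ring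
    rw [h13] at hcnt
    linarith
  have hc1 : (((Icc 1 N).filter (fun n => n ∈ Hi N H ((18 / 5 + δ₀) / Real.log N))).card : ℝ) ≤
      (((Icc 1 N).filter (fun n => n ∈ Ex (fun k => (∑ h ∈ Icc 1 W,
        ν (((k - 1 : ℕ) : ℤ) + (h : ℕ)) - W * V) ^ 2) l N)).card : ℝ) + (N : ℝ) ^ (7 / 10 : ℝ) := by
    have h1 := (Finset.card_le_card hsub).trans (Finset.card_union_le _ _)
    rw [Nat.card_Icc, Nat.add_sub_cancel] at h1
    have h2 : ((⌊(N : ℝ) ^ (7 / 10 : ℝ)⌋₊ : ℕ) : ℝ) ≤ (N : ℝ) ^ (7 / 10 : ℝ) :=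
      Nat.floor_le (by positivity)
    have h3 : (((Icc 1 N).filter (fun n => n ∈ Hi N H ((18 / 5 + δ₀) / Real.log N))).card : ℝ) ≤
      (((Icc 1 N).filter (fun n => n ∈ Ex (fun k => (∑ h ∈ Icc 1 W,
        ν (((k - 1 : ℕ) : ℤ) + (h : ℕ)) - W * V) ^ 2) l N)).card : ℝ) +
        ((⌊(N : ℝ) ^ (7 / 10 : ℝ)⌋₊ : ℕ) : ℝ) := by exact_mod_cast h1
    linarith
  refine hc1.trans ?_
  have hEx : (((Icc 1 N).filter (fun n => n ∈ Ex (fun k => (∑ h ∈ Icc 1 W,
        ν (((k - 1 : ℕ) : ℤ) + (h : ℕ)) - W * V) ^ 2) l N)).card : ℝ) ≤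
      N * (Real.log N) ^ 20 / H / 2 := by
    have h1 : l * (((Icc 1 N).filter (fun n => n ∈ Ex (fun k => (∑ h ∈ Icc 1 W,
        ν (((k - 1 : ℕ) : ℤ) + (h : ℕ)) - W * V) ^ 2) l N)).card : ℝ) ≤
        2 * (N * W * (Real.log N) ^ 17) := hmax.trans (by linarith)
    rw [← le_div_iff₀' hl0] at h1
    refine h1.trans ?_
    rw [hl]
    have e1 : 2 * (N * W * (Real.log N) ^ 17) / (δ / 16 * W / Real.log N) ^ 2 =
        512 / δ ^ 2 * (N * (Real.log N) ^ 19 / W) := by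
      field_simp
      ring
    rw [e1]
    have h2 : N * (Real.log N) ^ 19 / W ≤ 32 / δ * (N * (Real.log N) ^ 19 / H) := by
      rw [div_le_iff₀ hW0]
      calc (N : ℝ) * (Real.log N) ^ 19 = 32 / δ * (N * (Real.log N) ^ 19 / H) * (δ / 32 * H) := by
            field_simp
        _ ≤ 32 / δ * (N * (Real.log N) ^ 19 / H) * W :=
            mul_le_mul_of_nonneg_left hWge (by positivity)
    calc 512 / δ ^ 2 * (N * (Real.log N) ^ 19 / W) ≤
        512 / δ ^ 2 * (32 / δ * (N * (Real.log N) ^ 19 / H)) :=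
          mul_le_mul_of_nonneg_left h2 (by positivity)
      _ = (16384 / δ ^ 3) * (N * (Real.log N) ^ 19 / H) := by
          field_simp
          norm_num
      _ ≤ (Real.log N / 2) * (N * (Real.log N) ^ 19 / H) := by
          apply mul_le_mul_of_nonneg_right _ (by positivity)
          have : 1000000 / δ ^ 3 ≤ Real.log N := hlog
          rw [div_le_iff₀ hδ30] at this
          rw [div_le_div_iff₀ hδ30 (by norm_num)]
          linarith only [this]
      _ = _ := by ring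
  have h7 : (N : ℝ) ^ (7 / 10 : ℝ) ≤ N * (Real.log N) ^ 20 / H / 2 := by
    rw [div_div, le_div_iff₀ (by positivity)]
    calc (N : ℝ) ^ (7 / 10 : ℝ) * (H * 2) ≤ (N : ℝ) ^ (7 / 10 : ℝ) * ((N : ℝ) ^ (1 / 10 : ℝ) * 2) := by
          gcongr
      _ = (N : ℝ) ^ (4 / 5 : ℝ) * 2 := by
          rw [← mul_assoc, ← Real.rpow_add hN0]
          norm_num
      _ ≤ N * (Real.log N) ^ 20 := by
          apply mul_le_mul _ _ (by norm_num) hN0.le
          · have := hXle (4 / 5) 1 (by norm_num)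
            rwa [Real.rpow_one] at this
          · have : (1 : ℝ) * 2 ≤ (Real.log N) ^ 20 := by
              calc (1 : ℝ) * 2 ≤ Real.log N := by linarith
                _ = (Real.log N) ^ 1 := (pow_one _).symm
                _ ≤ _ := pow_le_pow_right₀ (by linarith) (by norm_num)
            linarith
  linarith

end Pool.Agent.R516
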