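import Mathlib
import Pool.Agent.R516.Win
import Pool.Agent.R516.Cover
import Pool.Agent.H357R2.SI.Common

/-! Both bounds, in all intervals around most primes. -/

set_option autoImplicit false

namespace Pool.Agent.R516

open Finset Filter Topology

open Classical in
/-- indicator of the primes -/
noncomputable def wp (n : ℕ) : ℝ := if n.Prime then 1 else 0

theorem wp_nonneg (n : ℕ) : 0 ≤ wp n := by
  unfold wp
  split_ifs <;> norm_num

theorem wp_sum (a b : ℕ) : ∑ m ∈ Ioc a b, wp m = (pcn a b : ℝ) := by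
  unfold wp pcn
  rw [Finset.sum_boole]

theorem pcn_eq (a b : ℕ) : pcn a b = Pool.Agent.H357R2.SI.pc a b := rfl

theorem pcn_zero (n : ℕ) : (pcn 0 n : ℝ) = Nat.primeCounting n := by
  rw [pcn_eq, Pool.Agent.H357R2.SI.pc_zero]

open Classical in
/-- at least `(1 - 2 μ - δ) π(N)` primes `p ≤ N` are such that every interval in `[0, N]` containing
`p` has at least `μ` and, from the length `(log N) ^ 22` on, at most `18 / 5 + δ` times the expected
number of primes -/
theorem thmC (hU : St_U) (μ δ : ℝ) (hμ : 0 < μ) (hδ : 0 < δ) : ∀ᶠ N : ℕ in atTop,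
    (1 - 2 * μ - δ) * (Nat.primeCounting N : ℝ) ≤
      (((Icc 1 N).filter (fun p : ℕ => p.Prime ∧ ∀ a b : ℕ, a < p → p ≤ b → b ≤ N →
        μ * ((b : ℝ) - a) / Real.log N ≤ (pcn a b : ℝ) ∧
        ((Real.log N) ^ 22 ≤ (b : ℝ) - a →
          (pcn a b : ℝ) ≤ (18 / 5 + δ) * ((b : ℝ) - a) / Real.log N))).card : ℝ) := by
  obtain ⟨κ, hκ, N₀, hN₀⟩ := hU δ hδ
  obtain ⟨d, hd, hd'⟩ : ∃ d : ℝ, 0 < d ∧ (2 * μ + δ) * d = δ / 4 :=
    ⟨δ / 4 / (2 * μ + δ), by positivity, by field_simp⟩
  obtain ⟨X₀, hX3, hX₀⟩ := Pool.Agent.H357R2.SI.pnt d hd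
  filter_upwards [eventually_ge_atTop N₀, eventually_ge_atTop X₀, ev_log' (2 / δ + 1),
    ev_logpow' 22 hκ] with N h1 h2 h3 h4
  have hδi : 0 < 2 / δ := by positivity
  have hL1 : 1 < Real.log N := by linarith
  have hL0 : 0 < Real.log N := by linarith
  have hN0 : (0 : ℝ) ≤ N := Nat.cast_nonneg N
  obtain ⟨hp1, -⟩ := hX₀ N h2
  have hHi := hN₀ N h1 ((Real.log N) ^ 22) (one_le_pow₀ hL1.le) h4
  have hHi2 : N * (Real.log N) ^ 20 / (Real.log N) ^ 22 = N / Real.log N * (1 / Real.log N) := by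
    field_simp
  rw [hHi2] at hHi
  have hcov := cover wp wp_nonneg (μ / Real.log N) (by positivity) N
  set G := (Icc 1 N).filter (fun p : ℕ => p.Prime ∧ ∀ a b : ℕ, a < p → p ≤ b → b ≤ N →
        μ * ((b : ℝ) - a) / Real.log N ≤ (pcn a b : ℝ) ∧
        ((Real.log N) ^ 22 ≤ (b : ℝ) - a →
          (pcn a b : ℝ) ≤ (18 / 5 + δ) * ((b : ℝ) - a) / Real.log N)) with hG
  set LL := (Icc 1 N).filter (fun n => n ∈ Lo wp (μ / Real.log N) N) with hLL
  set HH := (Icc 1 N).filter (fun n => n ∈ Hi N ((Real.log N) ^ 22) ((18 / 5 + δ) / Real.log N))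
    with hHH
  have hsub : (Icc 1 N).filter Nat.Prime ⊆ G ∪ (LL.filter Nat.Prime ∪ HH) := by
    intro p hp
    rw [Finset.mem_filter] at hp
    rw [Finset.mem_union, Finset.mem_union]
    by_contra hcon
    rw [not_or, not_or] at hcon
    obtain ⟨g1, g2, g3⟩ := hcon
    apply g1
    rw [hG, Finset.mem_filter]
    refine ⟨hp.1, hp.2, fun a b hap hpb hbN => ⟨?_, fun hlen => ?_⟩⟩
    · by_contra hc
      push Not at hc
      refine g2 (Finset.mem_filter.2 ⟨?_, hp.2⟩)
      rw [hLL, Finset.mem_filter]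
      refine ⟨hp.1, a, b, hap, hpb, hbN, ?_⟩
      rw [wp_sum]
      calc (pcn a b : ℝ) < μ * ((b : ℝ) - a) / Real.log N := hc
        _ = _ := by ring
    · by_contra hc
      push Not at hc
      apply g3
      rw [hHH, Finset.mem_filter]
      refine ⟨hp.1, a, b, hap, hpb, hbN, hlen, ?_⟩
      calc (18 / 5 + δ) / Real.log N * ((b : ℝ) - a) = (18 / 5 + δ) * ((b : ℝ) - a) / Real.log N := by
            ring
        _ < _ := hc
  have hpi : (((Icc 1 N).filter Nat.Prime).card : ℝ) = Nat.primeCounting N := by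
    rw [← pcn_zero]
    unfold pcn
    congr 2
  have hLLc : ((LL.filter Nat.Prime).card : ℝ) ≤ 2 * (μ / Real.log N) * N := by
    refine le_trans (le_of_eq ?_) hcov
    unfold wp
    rw [Finset.sum_boole]
  have hcard : (Nat.primeCounting N : ℝ) ≤ G.card + ((LL.filter Nat.Prime).card + HH.card) := by
    rw [← hpi]
    have e1 := Finset.card_le_card hsub
    have e2 := Finset.card_union_le G (LL.filter Nat.Prime ∪ HH)
    have e3 := Finset.card_union_le (LL.filter Nat.Prime) HH
    exact_mod_cast e1.trans (e2.trans (by omega))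
  -- numbers
  have hNL : 0 ≤ N / Real.log N := by positivity
  have h5 : (1 - d) * (N / Real.log N) ≤ Nat.primeCounting N := by
    calc _ = (1 - d) * N / Real.log N := by ring
      _ ≤ _ := hp1
  have h6 : 1 / Real.log N ≤ δ / 2 := by
    rw [div_le_iff₀ hL0]
    have h7 : 2 / δ ≤ Real.log N := by linarith
    rw [div_le_iff₀ hδ] at h7
    linarith
  have h8 : 2 * (μ / Real.log N) * N + N / Real.log N * (1 / Real.log N) ≤
      (2 * μ + δ) * Nat.primeCounting N := by
    calc 2 * (μ / Real.log N) * N + N / Real.log N * (1 / Real.log N) ≤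
        2 * (μ / Real.log N) * N + N / Real.log N * (δ / 2) := by gcongr
      _ = (2 * μ + δ / 2) * (N / Real.log N) := by ring
      _ ≤ ((2 * μ + δ) * (1 - d)) * (N / Real.log N) := by
          apply mul_le_mul_of_nonneg_right _ hNL
          linarith
      _ = (2 * μ + δ) * ((1 - d) * (N / Real.log N)) := by ring
      _ ≤ _ := mul_le_mul_of_nonneg_left h5 (by positivity)
  have h9 : (HH.card : ℝ) ≤ N / Real.log N * (1 / Real.log N) := hHi
  linarith

end Pool.Agent.R516
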