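import Mathlib
import Pool.Agent.R516.TwoC

/-! Prime tuples in boxes: elementary lemmas. -/

set_option autoImplicit false

namespace Pool.Agent.R516

open Finset Filter Topology
open Pool.Agent.H357R2.SI (pc pc_add pc_zero pc_eq_sub pc_mono pc_anti)

/-- the number of `(n, h)` with `n ∈ S` and `v l < h l ≤ w l` for which all `n + h l` are prime -/
def tuples (S : Finset ℕ) {j : ℕ} (v w : Fin j → ℕ) : ℕ :=
  ∑ h ∈ Fintype.piFinset (fun l => Ioc (v l) (w l)),
    (S.filter (fun n => ∀ l, (n + h l).Prime)).card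

open Classical in
theorem pcn_shift (n v w : ℕ) :
    (pcn (n + v) (n + w) : ℝ) = ∑ h ∈ Ioc v w, (if (n + h).Prime then (1 : ℝ) else 0) := by
  unfold pcn
  rw [← Finset.sum_boole, ← Finset.image_add_left_Ioc, Finset.sum_image]
  intro a _ b _ h
  exact Nat.add_left_cancel h

open Classical in
theorem tuples_eq (S : Finset ℕ) {j : ℕ} (v w : Fin j → ℕ) :
    (tuples S v w : ℝ) = ∑ n ∈ S, ∏ l, (pcn (n + v l) (n + w l) : ℝ) := by
  unfold tuples
  push_cast
  have e : ∀ n ∈ S, ∏ l, (pcn (n + v l) (n + w l) : ℝ) =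
      ∑ h ∈ Fintype.piFinset (fun l => Ioc (v l) (w l)),
        (if ∀ l, (n + h l).Prime then (1 : ℝ) else 0) := by
    intro n _
    rw [Finset.prod_congr rfl (fun l _ => pcn_shift n (v l) (w l)), Finset.prod_univ_sum]
    refine Finset.sum_congr rfl fun h _ => ?_
    rw [Finset.prod_boole]
    simp
  rw [Finset.sum_congr rfl e, Finset.sum_comm]
  refine Finset.sum_congr rfl fun h _ => ?_
  rw [Finset.sum_boole]

theorem prod_close {ι : Type} (s : Finset ι) (x : ι → ℝ) (t e C : ℝ) (hC : 1 ≤ C)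
    (ht : |t| ≤ C) (he : 0 ≤ e) (hx : ∀ l ∈ s, |x l| ≤ C ∧ |x l - t| ≤ e) :
    |∏ l ∈ s, x l - t ^ s.card| ≤ s.card * C ^ s.card * e := by
  classical
  induction s using Finset.induction_on with
  | empty => simp
  | insert a s ha ih =>
    have ih' := ih (fun l hl => hx l (Finset.mem_insert_of_mem hl))
    obtain ⟨h1, h2⟩ := hx a (Finset.mem_insert_self a s)
    rw [Finset.prod_insert ha, Finset.card_insert_of_notMem ha]
    have hP : |∏ l ∈ s, x l| ≤ C ^ s.card := by
      rw [Finset.abs_prod]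
      calc ∏ l ∈ s, |x l| ≤ ∏ _l ∈ s, C := Finset.prod_le_prod (fun l _ => abs_nonneg _)
            (fun l hl => (hx l (Finset.mem_insert_of_mem hl)).1)
        _ = C ^ s.card := by rw [Finset.prod_const]
    have hC0 : 0 ≤ C := by linarith
    have e1 : x a * ∏ l ∈ s, x l - t ^ (s.card + 1) =
        (x a - t) * ∏ l ∈ s, x l + t * (∏ l ∈ s, x l - t ^ s.card) := by ring
    rw [e1]
    have hCp : 0 ≤ C ^ s.card := pow_nonneg hC0 _
    calc |(x a - t) * ∏ l ∈ s, x l + t * (∏ l ∈ s, x l - t ^ s.card)|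
        ≤ |x a - t| * |∏ l ∈ s, x l| + |t| * |∏ l ∈ s, x l - t ^ s.card| := by
          rw [← abs_mul, ← abs_mul]; exact abs_add_le _ _
      _ ≤ e * C ^ s.card + C * (s.card * C ^ s.card * e) :=
          add_le_add (mul_le_mul h2 hP (abs_nonneg _) he)
            (mul_le_mul ht ih' (abs_nonneg _) hC0)
      _ ≤ e * (C ^ s.card * C) + C * (s.card * C ^ s.card * e) := by
          have : C ^ s.card ≤ C ^ s.card * C := by nlinarith
          have := mul_le_mul_of_nonneg_left this he
          linarith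
      _ = ((s.card + 1 : ℕ) : ℝ) * C ^ (s.card + 1) * e := by push_cast; ring

open Classical in
theorem sum_pcn (N w : ℕ) : ∑ n ∈ range N, (pcn (n + 0) (n + w) : ℝ) =
    ∑ h ∈ Ioc 0 w, ((Nat.primeCounting (N + h - 1) : ℝ) - Nat.primeCounting (h - 1)) := by
  rw [Finset.sum_congr rfl (fun n _ => pcn_shift n 0 w), Finset.sum_comm]
  refine Finset.sum_congr rfl fun h hh => ?_
  have h1 := (Finset.mem_Ioc.1 hh).1
  rw [Finset.sum_boole, ← pc_eq_sub (by omega : h - 1 ≤ N + h - 1)]
  congr 1
  unfold pc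
  refine Finset.card_bij (fun n _ => n + h) ?_ ?_ ?_
  · intro n hn
    rw [Finset.mem_filter, Finset.mem_range] at hn
    rw [Finset.mem_filter, Finset.mem_Ioc]
    exact ⟨⟨by omega, by omega⟩, hn.2⟩
  · intro a _ b _ hab
    exact Nat.add_right_cancel hab
  · intro m hm
    rw [Finset.mem_filter, Finset.mem_Ioc] at hm
    refine ⟨m - h, ?_, by omega⟩
    rw [Finset.mem_filter, Finset.mem_range]
    have : m - h + h = m := by omega
    rw [this]
    exact ⟨by omega, hm.2⟩

/-- `π` is close to linear with slope `1 / log N` on `[0, 2 N]` -/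
theorem pi_lin (d : ℝ) (hd : 0 < d) : ∀ᶠ N : ℕ in atTop, ∀ m : ℕ, m ≤ 2 * N →
    |(Nat.primeCounting m : ℝ) - m / Real.log N| ≤ d * N / Real.log N := by
  obtain ⟨e, he, he1, hed⟩ : ∃ e : ℝ, 0 < e ∧ e ≤ 1 / 2 ∧ 100 * e ≤ d :=
    ⟨min (1 / 2) (d / 100), lt_min (by norm_num) (by positivity), min_le_left _ _, by
      have := min_le_right (1 / 2) (d / 100); linarith⟩
  obtain ⟨X₀, hX3, hX₀⟩ := Pool.Agent.H357R2.SI.pnt e he
  have hlog : ∀ᶠ N : ℕ in atTop, Real.log (2 / e) / e ≤ Real.log N := ev_log' _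
  filter_upwards [hlog, ev_log' (1 / e), ev_log' 1, eventually_ge_atTop (⌈(X₀ + 3) / e⌉₊ + 3),
    ev_logpow' 1 (by norm_num : (0 : ℝ) < 1)] with N h1 h2 h3 h4 h5 m hm
  have hNX : (X₀ + 3 : ℝ) / e ≤ N := by
    have := Nat.le_ceil ((X₀ + 3 : ℝ) / e)
    have h6 : ((⌈(X₀ + 3 : ℝ) / e⌉₊ + 3 : ℕ) : ℝ) ≤ N := by exact_mod_cast h4
    push_cast at h6
    linarith
  have hN3 : (3 : ℝ) ≤ N := by
    have : 3 ≤ N := by omega
    exact_mod_cast this
  have hN0 : (0 : ℝ) < N := by linarith
  set L := Real.log N with hL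
  have hL0 : 0 < L := by linarith
  have heN : (X₀ + 3 : ℝ) ≤ e * N := by
    rw [div_le_iff₀ he] at hNX
    linarith
  have hl2e : Real.log (2 / e) ≤ e * L := by
    rw [div_le_iff₀ he] at h1
    linarith
  have h2e : 1 ≤ 2 / e := by
    rw [le_div_iff₀ he]; linarith
  have hmR : (m : ℝ) ≤ 2 * N := by exact_mod_cast hm
  -- the main case
  have key : ∀ q : ℕ, e * N ≤ q → (q : ℝ) ≤ 2 * N →
      |(Nat.primeCounting q : ℝ) - q / L| ≤ 8 * e * N / L := by
    intro q hq1 hq2
    have hqX : X₀ ≤ q := by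
      have : (X₀ : ℝ) ≤ q := by linarith
      exact_mod_cast this
    have hq0 : (0 : ℝ) < q := by
      have : (0 : ℝ) ≤ X₀ := Nat.cast_nonneg _
      linarith
    obtain ⟨g1, g2⟩ := hX₀ q hqX
    have hlq1 : (1 - e) * L ≤ Real.log q := by
      have h6 : Real.log (e * N / 2) ≤ Real.log q := by
        apply Real.log_le_log (by positivity)
        linarith
      have h7 : Real.log (e * N / 2) = L - Real.log (2 / e) := by
        rw [show e * (N : ℝ) / 2 = N / (2 / e) by field_simp, Real.log_div hN0.ne' (by positivity)]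
      rw [h7] at h6
      linarith
    have hlq2 : Real.log q ≤ (1 + e) * L := by
      have h6 : Real.log q ≤ Real.log ((2 / e) * N) := by
        apply Real.log_le_log hq0
        calc (q : ℝ) ≤ 2 * N := hq2
          _ ≤ (2 / e) * N := by
              apply mul_le_mul_of_nonneg_right _ hN0.le
              rw [le_div_iff₀ he]; linarith
      rw [Real.log_mul (by positivity) hN0.ne'] at h6
      linarith
    have h1e : 0 < 1 - e := by linarith
    have hlq0 : 0 < Real.log q := lt_of_lt_of_le (by positivity) hlq1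
    have hqL : 0 ≤ q / L := by positivity
    rw [abs_le]
    constructor
    · have g3 : (1 - e) * q / ((1 + e) * L) ≤ (1 - e) * q / Real.log q := by
        apply div_le_div_of_nonneg_left (by positivity) hlq0 hlq2
      have g4 : (1 - 2 * e) * (q / L) ≤ (1 - e) * q / ((1 + e) * L) := by
        rw [div_eq_mul_inv, div_eq_mul_inv, mul_inv, ← sub_nonneg]
        have : (1 - e) * q * ((1 + e)⁻¹ * L⁻¹) - (1 - 2 * e) * (q * L⁻¹) =
            (q * L⁻¹) * ((2 * e ^ 2) * (1 + e)⁻¹) := by
          field_simp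
          ring
        rw [this]
        positivity
      have g5 : q / L ≤ 2 * N / L := div_le_div_of_nonneg_right hq2 hL0.le
      have g6 : 8 * e * N / L = 4 * e * (2 * N / L) := by ring
      rw [g6]
      nlinarith [mul_le_mul_of_nonneg_left g5 he.le, mul_nonneg he.le hqL]
    · have g3 : (1 + e) * q / Real.log q ≤ (1 + e) * q / ((1 - e) * L) := by
        apply div_le_div_of_nonneg_left (by positivity) (by positivity) hlq1
      have g4 : (1 + e) * q / ((1 - e) * L) ≤ (1 + 4 * e) * (q / L) := by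
        rw [div_eq_mul_inv, div_eq_mul_inv, mul_inv, ← sub_nonneg]
        have : (1 + 4 * e) * (q * L⁻¹) - (1 + e) * q * ((1 - e)⁻¹ * L⁻¹) =
            (q * L⁻¹) * ((2 * e * (1 - 2 * e)) * (1 - e)⁻¹) := by
          field_simp
          ring
        rw [this]
        have : 0 ≤ 1 - 2 * e := by linarith
        positivity
      have g5 : q / L ≤ 2 * N / L := div_le_div_of_nonneg_right hq2 hL0.le
      have g6 : 8 * e * N / L = 4 * e * (2 * N / L) := by ring
      rw [g6]
      nlinarith [mul_le_mul_of_nonneg_left g5 he.le, mul_nonneg he.le hqL]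
  have hNL : 0 ≤ N / L := by positivity
  have hdN : 100 * e * (N / L) ≤ d * N / L := by
    rw [mul_div_assoc]
    exact mul_le_mul_of_nonneg_right hed hNL
  rcases le_or_gt (e * N) (m : ℝ) with hc | hc
  · refine (key m hc hmR).trans ?_
    have : 8 * e * N / L = 8 * e * (N / L) := by ring
    rw [this]
    have := mul_nonneg he.le hNL
    linarith
  · obtain ⟨q, hq⟩ : ∃ q : ℕ, q = ⌈e * (N : ℝ)⌉₊ := ⟨_, rfl⟩
    have q1 : e * N ≤ q := by rw [hq]; exact Nat.le_ceil _
    have q2 : (q : ℝ) ≤ e * N + 1 := by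
      rw [hq]; exact (Nat.ceil_lt_add_one (by positivity)).le
    have q3 : (q : ℝ) ≤ 2 * (e * N) := by
      have : (0 : ℝ) ≤ X₀ := Nat.cast_nonneg _
      linarith
    have q4 := (abs_le.1 (key q q1 (by nlinarith))).2
    have q5 : (Nat.primeCounting m : ℝ) ≤ Nat.primeCounting q := by
      have : m ≤ q := by
        have : (m : ℝ) ≤ q := by linarith
        exact_mod_cast this
      exact_mod_cast Nat.monotone_primeCounting this
    have q6 : (q : ℝ) / L ≤ 2 * (e * N) / L := div_le_div_of_nonneg_right q3 hL0.le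
    have q7 : (m : ℝ) / L ≤ e * N / L := div_le_div_of_nonneg_right hc.le hL0.le
    have q8 : (0 : ℝ) ≤ m / L := by positivity
    have q9 : (0 : ℝ) ≤ Nat.primeCounting m := Nat.cast_nonneg _
    have r1 : 8 * e * N / L = 8 * e * (N / L) := by ring
    have r2 : 2 * (e * N) / L = 2 * e * (N / L) := by ring
    have r3 : e * N / L = e * (N / L) := by ring
    rw [r1] at q4
    rw [r2] at q6
    rw [r3] at q7
    have r4 := mul_nonneg he.le hNL
    rw [abs_le]
    constructor <;> linarith

end Pool.Agent.R516
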