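import Mathlib
import Pool.Agent.R516.Tup
import Pool.Agent.W123.FS.Main3

/-! Prime tuples in boxes: the comparison with the moments of a local density. -/

set_option autoImplicit false

namespace Pool.Agent.R516

open Finset Filter Topology
open Pool.Agent.H357R2.SI (pc pc_add pc_zero pc_eq_sub pc_mono pc_anti piS piS_nat)
open Pool.Agent.W123.FS (badset)

/-- normalised density of the primes in `(n, n + A]` -/
noncomputable def rd (N : ℕ) (A : ℝ) (n : ℕ) : ℝ := (piS n A : ℝ) / A * Real.log N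

theorem factA {N n w : ℕ} {H0 c : ℝ} (hN : 2 ≤ N) (hc : 0 ≤ c) (hn1 : 1 ≤ n)
    (hn : n ∉ Hi (2 * N) H0 (c / Real.log ((2 * N : ℕ) : ℝ))) (hw : n + w ≤ 2 * N)
    (hH : H0 ≤ (w : ℝ) + 1) : (pcn (n - 1) (n + w) : ℝ) * Real.log N ≤ c * ((w : ℝ) + 1) := by
  have hN0 : (2 : ℝ) ≤ N := by exact_mod_cast hN
  have hL0 : 0 < Real.log N := Real.log_pos (by linarith)
  have hL2 : Real.log N ≤ Real.log ((2 * N : ℕ) : ℝ) := by
    apply Real.log_le_log (by linarith)
    push_cast
    linarith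
  have hcast : (((n + w : ℕ) : ℝ)) - ((n - 1 : ℕ) : ℝ) = (w : ℝ) + 1 := by
    have : (n : ℝ) = ((n - 1 : ℕ) : ℝ) + 1 := by
      have : n = (n - 1) + 1 := by omega
      exact_mod_cast this
    push_cast
    linarith
  have h1 : ¬ (c / Real.log ((2 * N : ℕ) : ℝ) * (((n + w : ℕ) : ℝ) - ((n - 1 : ℕ) : ℝ)) <
      (pcn (n - 1) (n + w) : ℝ)) := by
    intro h
    apply hn
    refine ⟨n - 1, n + w, by omega, by omega, hw, ?_, h⟩
    rw [hcast]
    exact hH
  rw [hcast] at h1
  push Not at h1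
  have h2 : c / Real.log ((2 * N : ℕ) : ℝ) ≤ c / Real.log N :=
    div_le_div_of_nonneg_left hc hL0 hL2
  have hw0 : (0 : ℝ) ≤ (w : ℝ) + 1 := by positivity
  calc (pcn (n - 1) (n + w) : ℝ) * Real.log N
      ≤ (c / Real.log N * ((w : ℝ) + 1)) * Real.log N := by
        apply mul_le_mul_of_nonneg_right _ hL0.le
        exact h1.trans (mul_le_mul_of_nonneg_right h2 hw0)
    _ = c * ((w : ℝ) + 1) := by field_simp

theorem rd_nonneg (N : ℕ) (A : ℝ) (hA : 0 ≤ A) (n : ℕ) : 0 ≤ rd N A n := by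
  unfold rd
  have := Real.log_natCast_nonneg N
  positivity

theorem rd_le {N n : ℕ} {H0 c A : ℝ} (hN : 2 ≤ N) (hc : 0 ≤ c) (hn1 : 1 ≤ n) (hnN : n < N)
    (hn : n ∉ Hi (2 * N) H0 (c / Real.log ((2 * N : ℕ) : ℝ))) (hA1 : 1 ≤ A) (hAN : A ≤ N)
    (hH : H0 ≤ A) : rd N A n ≤ c + c / A := by
  have hA0 : 0 < A := by linarith
  have h1 : (⌊A⌋₊ : ℝ) ≤ A := Nat.floor_le hA0.le
  have h2 : A < ⌊A⌋₊ + 1 := Nat.lt_floor_add_one A
  have h3 : ⌊A⌋₊ ≤ N := by
    have : (⌊A⌋₊ : ℝ) ≤ N := h1.trans hAN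
    exact_mod_cast this
  have h4 := factA (w := ⌊A⌋₊) hN hc hn1 hn (by omega) (by linarith)
  have h5 : (piS n A : ℝ) ≤ pcn (n - 1) (n + ⌊A⌋₊) := by
    rw [piS_nat n A hA0.le, pcn_eq]
    exact_mod_cast pc_anti (by omega)
  have hL0 : 0 ≤ Real.log N := Real.log_natCast_nonneg N
  unfold rd
  have h6 : (piS n A : ℝ) / A * Real.log N = ((piS n A : ℝ) * Real.log N) / A := by ring
  rw [h6, div_le_iff₀ hA0]
  calc (piS n A : ℝ) * Real.log N ≤ (pcn (n - 1) (n + ⌊A⌋₊) : ℝ) * Real.log N :=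
        mul_le_mul_of_nonneg_right h5 hL0
    _ ≤ c * ((⌊A⌋₊ : ℝ) + 1) := h4
    _ ≤ c * (A + 1) := by
        apply mul_le_mul_of_nonneg_left _ hc
        linarith
    _ = (c + c / A) * A := by field_simp

/-- admissible intervals -/
def Adm (M : ℕ) (A A' : ℝ) (v w : ℕ) : Prop :=
  (v = 0 ∨ A ≤ (v : ℝ)) ∧ A ≤ (w : ℝ) ∧ (w : ℝ) ≤ A' ∧ (w : ℝ) ≤ M * ((w : ℝ) - v)

/-- the normalised number of primes in an interval -/
noncomputable def xl (N n v w : ℕ) : ℝ := (pcn (n + v) (n + w) : ℝ) * Real.log N / ((w : ℝ) - v)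

theorem adm_pos {M v w : ℕ} {A A' : ℝ} (hA : 1 ≤ A) (h : Adm M A A' v w) :
    0 < (w : ℝ) - v ∧ (w : ℝ) - v ≤ w ∧ v ≤ w := by
  obtain ⟨-, h2, -, h4⟩ := h
  have hw : 0 < (w : ℝ) := by linarith
  have hpos : 0 < (w : ℝ) - v := by
    by_contra hcon
    push Not at hcon
    have : (M : ℝ) * ((w : ℝ) - v) ≤ 0 := mul_nonpos_of_nonneg_of_nonpos (Nat.cast_nonneg M) hcon
    linarith
  have hv : (0 : ℝ) ≤ v := Nat.cast_nonneg v
  refine ⟨hpos, by linarith, ?_⟩
  have : (v : ℝ) ≤ w := by linarith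
  exact_mod_cast this

theorem xl_triv {M N n v w : ℕ} {A A' : ℝ} (hA : 1 ≤ A) (h : Adm M A A' v w) :
    0 ≤ xl N n v w ∧ xl N n v w ≤ Real.log N := by
  obtain ⟨h1, h2, h3⟩ := adm_pos hA h
  have hL := Real.log_natCast_nonneg N
  have hp : (pcn (n + v) (n + w) : ℝ) ≤ (w : ℝ) - v := by
    have e : pcn (n + v) (n + w) ≤ w - v := by
      unfold pcn
      refine (Finset.card_filter_le _ _).trans ?_
      rw [Nat.card_Ioc]
      omega
    have : ((w - v : ℕ) : ℝ) = (w : ℝ) - v := Nat.cast_sub h3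
    rw [← this]
    exact_mod_cast e
  unfold xl
  refine ⟨by positivity, ?_⟩
  rw [div_le_iff₀ h1, mul_comm]
  exact mul_le_mul_of_nonneg_left hp hL

theorem xl_hi {M N n v w : ℕ} {A A' H0 c : ℝ} (hA : 1 ≤ A) (h : Adm M A A' v w) (hN : 2 ≤ N)
    (hc : 0 ≤ c) (hn1 : 1 ≤ n) (hnN : n < N) (hA' : A' ≤ N)
    (hn : n ∉ Hi (2 * N) H0 (c / Real.log ((2 * N : ℕ) : ℝ))) (hH : H0 ≤ A) :
    xl N n v w ≤ 2 * c * M := by
  obtain ⟨h1, h2, h3⟩ := adm_pos hA h
  obtain ⟨g1, g2, g3, g4⟩ := h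
  have hL := Real.log_natCast_nonneg N
  have hwN : w ≤ N := by
    have : (w : ℝ) ≤ N := g3.trans hA'
    exact_mod_cast this
  have h4 := factA (w := w) hN hc hn1 hn (by omega) (by linarith)
  have h5 : (pcn (n + v) (n + w) : ℝ) ≤ pcn (n - 1) (n + w) := by
    rw [pcn_eq, pcn_eq]
    exact_mod_cast pc_anti (by omega)
  unfold xl
  rw [div_le_iff₀ h1]
  calc (pcn (n + v) (n + w) : ℝ) * Real.log N ≤ (pcn (n - 1) (n + w) : ℝ) * Real.log N :=
        mul_le_mul_of_nonneg_right h5 hL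
    _ ≤ c * ((w : ℝ) + 1) := h4
    _ ≤ c * (2 * w) := by
        apply mul_le_mul_of_nonneg_left _ hc
        linarith
    _ ≤ c * (2 * (M * ((w : ℝ) - v))) := by
        apply mul_le_mul_of_nonneg_left _ hc
        linarith
    _ = 2 * c * M * ((w : ℝ) - v) := by ring

theorem xl_close {M N n v w : ℕ} {A A' δ : ℝ} (hA : 1 ≤ A) (h : Adm M A A' v w) (hN : 2 ≤ N)
    (hδ : 0 ≤ δ) (hnN : n < N) (hn : n ∉ badset δ N A A') :
    |xl N n v w - rd N A n| ≤ 2 * δ * M := by
  obtain ⟨h1, h2, h3⟩ := adm_pos hA h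
  obtain ⟨g1, g2, g3, g4⟩ := h
  have hN0 : (2 : ℝ) ≤ N := by exact_mod_cast hN
  have hL0 : 0 < Real.log N := Real.log_pos (by linarith)
  have hgood : ∀ H H' : ℝ, A ≤ H → H ≤ A' → A ≤ H' → H' ≤ A' →
      |(piS n H : ℝ) / H - (piS n H' : ℝ) / H'| ≤ δ / Real.log N := by
    classical
    by_contra hcon
    apply hn
    unfold badset
    rw [Finset.mem_filter]
    exact ⟨Finset.mem_range.2 hnN, hcon⟩
  have hAA' : A ≤ A' := g2.trans g3
  -- the counting function at a point
  have key : ∀ q : ℕ, (q = 0 ∨ A ≤ (q : ℝ)) → (q : ℝ) ≤ A' →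
      |(pcn n (n + q) : ℝ) * Real.log N - rd N A n * q| ≤ δ * q := by
    intro q hq1 hq2
    rcases hq1 with hq1 | hq1
    · subst hq1
      rw [pcn_eq, add_zero, Pool.Agent.H357R2.SI.pc_self]
      simp
    · have hq0 : 0 < (q : ℝ) := by linarith
      have e1 := hgood q A hq1 hq2 le_rfl hAA'
      have e2 : (piS n (q : ℝ) : ℝ) = pcn n (n + q) := by
        rw [piS_nat n q hq0.le, Nat.floor_natCast, pcn_eq]
      rw [e2] at e1
      have e3 : (pcn n (n + q) : ℝ) * Real.log N - rd N A n * q =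
          ((pcn n (n + q) : ℝ) / q - (piS n A : ℝ) / A) * (Real.log N * q) := by
        unfold rd
        field_simp
      rw [e3, abs_mul, abs_of_pos (mul_pos hL0 hq0)]
      calc |(pcn n (n + q) : ℝ) / q - (piS n A : ℝ) / A| * (Real.log N * q) ≤
          δ / Real.log N * (Real.log N * q) :=
            mul_le_mul_of_nonneg_right e1 (mul_pos hL0 hq0).le
        _ = δ * q := by field_simp
  have hvw : (v : ℝ) ≤ w := by exact_mod_cast h3
  have k1 := key v g1 (hvw.trans g3)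
  have k2 := key w (Or.inr g2) g3
  have e4 : (pcn (n + v) (n + w) : ℝ) = pcn n (n + w) - pcn n (n + v) := by
    rw [pcn_eq, pcn_eq, pcn_eq]
    have := pc_add (a := n) (b := n + v) (c := n + w) (by omega) (by omega)
    have : (pc n (n + v) : ℝ) + pc (n + v) (n + w) = pc n (n + w) := by exact_mod_cast this
    linarith
  have e5 : xl N n v w - rd N A n = (((pcn n (n + w) : ℝ) * Real.log N - rd N A n * w) -
      ((pcn n (n + v) : ℝ) * Real.log N - rd N A n * v)) / ((w : ℝ) - v) := by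
    unfold xl
    rw [e4]
    field_simp
    ring
  rw [e5, abs_div, abs_of_pos h1, div_le_iff₀ h1]
  refine (abs_sub _ _).trans ?_
  calc |(pcn n (n + w) : ℝ) * Real.log N - rd N A n * w| +
        |(pcn n (n + v) : ℝ) * Real.log N - rd N A n * v| ≤ δ * w + δ * v := add_le_add k2 k1
    _ ≤ 2 * δ * w := by nlinarith
    _ ≤ 2 * δ * (M * ((w : ℝ) - v)) := by
        apply mul_le_mul_of_nonneg_left g4
        linarith
    _ = 2 * δ * M * ((w : ℝ) - v) := by ring

/-- the truncated density -/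
noncomputable def th (N : ℕ) (A c' : ℝ) (n : ℕ) : ℝ := min (rd N A n) c'

open Classical in
theorem box_main {k M N j : ℕ} (hjk : j ≤ k) {A A' H0 δ c c' C : ℝ} (hN : 2 ≤ N)
    (hL1 : 1 ≤ Real.log N) (hA : 1 ≤ A) (hA' : A' ≤ N) (hAA' : A ≤ A') (hH : H0 ≤ A) (hδ : 0 ≤ δ)
    (hc : 0 ≤ c) (hcc : c + c / A ≤ c') (hC1 : 1 ≤ C) (hcC : c' ≤ C) (hMC : 2 * c * M ≤ C)
    (v w : Fin j → ℕ) (hvw : ∀ l, Adm M A A' (v l) (w l)) (S : Finset ℕ) (hS : S ⊆ range N) :
    |(tuples S v w : ℝ) / (N * ∏ l, (((w l : ℝ) - v l) / Real.log N)) -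
      (∑ n ∈ S, th N A c' n ^ j) / N| ≤
      k * C ^ k * (2 * δ * M) + (badset δ N A A').card / N * (2 * C ^ k) +
        ((((Icc 1 (2 * N)).filter (fun n => n ∈ Hi (2 * N) H0
          (c / Real.log ((2 * N : ℕ) : ℝ)))).card : ℝ) + 1) / N * (Real.log N ^ k + C ^ k) := by
  have hN0 : (0 : ℝ) < N := by
    have : (2 : ℝ) ≤ N := by exact_mod_cast hN
    linarith
  have hL0 : 0 < Real.log N := by linarith
  have hC0 : 0 ≤ C := by linarith
  have hM0 : (0 : ℝ) ≤ M := Nat.cast_nonneg M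
  have hA0 : 0 < A := by linarith
  have hc'0 : 0 ≤ c' := le_trans (by positivity) hcc
  set HH := (Icc 1 (2 * N)).filter (fun n => n ∈ Hi (2 * N) H0
          (c / Real.log ((2 * N : ℕ) : ℝ))) with hHH
  -- rewriting of the left side
  have e1 : (tuples S v w : ℝ) / (N * ∏ l, (((w l : ℝ) - v l) / Real.log N)) =
      (∑ n ∈ S, ∏ l, xl N n (v l) (w l)) / N := by
    rw [tuples_eq, mul_comm (N : ℝ), ← div_div, Finset.sum_div]
    congr 1
    refine Finset.sum_congr rfl fun n _ => ?_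
    rw [← Finset.prod_div_distrib]
    refine Finset.prod_congr rfl fun l _ => ?_
    have := (adm_pos hA (hvw l)).1
    unfold xl
    field_simp
  rw [e1, ← sub_div, ← Finset.sum_sub_distrib, abs_div, abs_of_pos hN0]
  have hjR : (j : ℝ) ≤ k := by exact_mod_cast hjk
  have hCjk : C ^ j ≤ C ^ k := pow_le_pow_right₀ hC1 hjk
  have hLjk : Real.log N ^ j ≤ Real.log N ^ k := pow_le_pow_right₀ hL1 hjk
  have hCk0 : 0 ≤ C ^ k := pow_nonneg hC0 _
  have hLk0 : 0 ≤ Real.log N ^ k := pow_nonneg hL0.le _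
  have hth0 : ∀ n, 0 ≤ th N A c' n := fun n => le_min (rd_nonneg N A hA0.le n) hc'0
  have hthC : ∀ n, th N A c' n ≤ C := fun n => (min_le_right _ _).trans hcC
  have hthj : ∀ n, th N A c' n ^ j ≤ C ^ k := fun n =>
    (pow_le_pow_left₀ (hth0 n) (hthC n) j).trans hCjk
  have hB0 : 0 ≤ k * C ^ k * (2 * δ * M) := by positivity
  -- the three cases
  have hcase : ∀ n ∈ range N, |∏ l, xl N n (v l) (w l) - th N A c' n ^ j| ≤
      k * C ^ k * (2 * δ * M) + (if n ∈ badset δ N A A' then 2 * C ^ k else 0) +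
        (if n ∈ insert 0 HH then Real.log N ^ k + C ^ k else 0) := by
    intro n hn
    have hnN : n < N := Finset.mem_range.1 hn
    by_cases h1 : n ∈ insert 0 HH
    · rw [if_pos h1]
      have h2 : 0 ≤ (if n ∈ badset δ N A A' then 2 * C ^ k else 0) := by split_ifs <;> positivity
      have h3 : |∏ l, xl N n (v l) (w l) - th N A c' n ^ j| ≤ Real.log N ^ k + C ^ k := by
        have h4 : 0 ≤ ∏ l, xl N n (v l) (w l) :=
          Finset.prod_nonneg fun l _ => (xl_triv hA (hvw l)).1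
        have h5 : ∏ l, xl N n (v l) (w l) ≤ Real.log N ^ k := by
          calc ∏ l, xl N n (v l) (w l) ≤ ∏ _l : Fin j, Real.log N :=
                Finset.prod_le_prod (fun l _ => (xl_triv hA (hvw l)).1)
                  (fun l _ => (xl_triv hA (hvw l)).2)
            _ = Real.log N ^ j := by simp
            _ ≤ _ := hLjk
        have h6 := pow_nonneg (hth0 n) j
        rw [abs_le]
        constructor <;> linarith [hthj n]
      linarith
    · rw [if_neg h1, add_zero]
      rw [Finset.mem_insert, not_or] at h1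
      have hn1 : 1 ≤ n := Nat.one_le_iff_ne_zero.2 h1.1
      have hnHi : n ∉ Hi (2 * N) H0 (c / Real.log ((2 * N : ℕ) : ℝ)) := by
        intro h
        exact h1.2 (Finset.mem_filter.2 ⟨Finset.mem_Icc.2 ⟨hn1, by omega⟩, h⟩)
      have hxC : ∀ l, xl N n (v l) (w l) ≤ C := fun l =>
        (xl_hi hA (hvw l) hN hc hn1 hnN hA' hnHi hH).trans hMC
      by_cases h2 : n ∈ badset δ N A A'
      · rw [if_pos h2]
        have h4 : 0 ≤ ∏ l, xl N n (v l) (w l) :=
          Finset.prod_nonneg fun l _ => (xl_triv hA (hvw l)).1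
        have h5 : ∏ l, xl N n (v l) (w l) ≤ C ^ k := by
          calc ∏ l, xl N n (v l) (w l) ≤ ∏ _l : Fin j, C :=
                Finset.prod_le_prod (fun l _ => (xl_triv hA (hvw l)).1) (fun l _ => hxC l)
            _ = C ^ j := by simp
            _ ≤ _ := hCjk
        have h6 := pow_nonneg (hth0 n) j
        have h7 := hthj n
        have h8 : |∏ l, xl N n (v l) (w l) - th N A c' n ^ j| ≤ 2 * C ^ k := by
          rw [abs_le]
          constructor <;> linarith
        linarith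
      · rw [if_neg h2, add_zero]
        have hrd : th N A c' n = rd N A n := by
          unfold th
          apply min_eq_left
          exact (rd_le hN hc hn1 hnN hnHi hA (hAA'.trans hA') hH).trans hcc
        have h3 := prod_close (Finset.univ : Finset (Fin j)) (fun l => xl N n (v l) (w l))
          (th N A c' n) (2 * δ * M) C hC1 (by rw [abs_of_nonneg (hth0 n)]; exact hthC n)
          (by positivity) (fun l _ => ⟨by
            rw [abs_of_nonneg (xl_triv hA (hvw l)).1]; exact hxC l, by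
            rw [hrd]; exact xl_close hA (hvw l) hN hδ hnN h2⟩)
        rw [Finset.card_univ, Fintype.card_fin] at h3
        refine h3.trans ?_
        apply mul_le_mul_of_nonneg_right _ (by positivity)
        exact mul_le_mul hjR hCjk (pow_nonneg hC0 _) (Nat.cast_nonneg k)
  have hsum : |∑ n ∈ S, (∏ l, xl N n (v l) (w l) - th N A c' n ^ j)| ≤
      N * (k * C ^ k * (2 * δ * M)) + (badset δ N A A').card * (2 * C ^ k) +
        ((HH.card : ℝ) + 1) * (Real.log N ^ k + C ^ k) := by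
    refine (Finset.abs_sum_le_sum_abs _ _).trans ?_
    refine (Finset.sum_le_sum_of_subset_of_nonneg hS (fun n _ _ => abs_nonneg _)).trans ?_
    refine (Finset.sum_le_sum hcase).trans ?_
    rw [Finset.sum_add_distrib, Finset.sum_add_distrib]
    have s1 : ∑ _n ∈ range N, (k * C ^ k * (2 * δ * M)) = N * (k * C ^ k * (2 * δ * M)) := by
      rw [Finset.sum_const, Finset.card_range, nsmul_eq_mul]
    have s2 : ∑ n ∈ range N, (if n ∈ badset δ N A A' then 2 * C ^ k else 0) ≤
        (badset δ N A A').card * (2 * C ^ k) := by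
      rw [← Finset.sum_filter, Finset.sum_const, nsmul_eq_mul]
      apply mul_le_mul_of_nonneg_right _ (by positivity)
      have : ((range N).filter (fun n => n ∈ badset δ N A A')).card ≤
          (badset δ N A A').card := Finset.card_le_card fun n hn => (Finset.mem_filter.1 hn).2
      exact_mod_cast this
    have s3 : ∑ n ∈ range N, (if n ∈ insert 0 HH then Real.log N ^ k + C ^ k else 0) ≤
        ((HH.card : ℝ) + 1) * (Real.log N ^ k + C ^ k) := by
      rw [← Finset.sum_filter, Finset.sum_const, nsmul_eq_mul]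
      apply mul_le_mul_of_nonneg_right _ (by positivity)
      have h1 : ((range N).filter (fun n => n ∈ insert 0 HH)).card ≤ (insert 0 HH).card :=
        Finset.card_le_card fun n hn => (Finset.mem_filter.1 hn).2
      have h2 := Finset.card_insert_le 0 HH
      exact_mod_cast h1.trans h2
    rw [s1]
    linarith
  rw [div_le_iff₀ hN0]
  refine hsum.trans (le_of_eq ?_)
  field_simp

end Pool.Agent.R516
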