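import Mathlib
import Pool.Agent.W25.UB.Stm
import Pool.Agent.H510R2.Maier.MA4
import Pool.Agent.Helper256.KM.E1
import Pool.Agent.R516.Sqf

/-! The Selberg sum over all small primes, by Rankin's trick. -/

set_option autoImplicit false

namespace Pool.Agent.R516

open Finset Filter Topology
open Pool.Agent.W25.UB (GG sq)
open Pool.Agent.H510R2.Maier (QQ QQ_real QQ_pos)

/-- the primes up to `X ^ e` -/
noncomputable def Pr (X : ℕ) (e : ℝ) : Finset ℕ := (Finset.Icc 1 ⌊(X : ℝ) ^ e⌋₊).filter Nat.Prime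

theorem GG_nonneg (P : Finset ℕ) (z : ℕ) : 0 ≤ GG P z := by
  unfold GG
  exact Finset.sum_nonneg fun d _ => by positivity

theorem prod_totient (Q : Finset ℕ) (hQ : ∀ p ∈ Q, p.Prime) :
    ((Nat.totient (∏ p ∈ Q, p) : ℕ) : ℝ) = ∏ p ∈ Q, ((p : ℝ) - 1) := by
  classical
  induction Q using Finset.induction_on with
  | empty => simp
  | insert a s ha ih =>
    have hs : ∀ p ∈ s, p.Prime := fun p hp => hQ p (Finset.mem_insert_of_mem hp)
    have hap : a.Prime := hQ a (Finset.mem_insert_self _ _)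
    rw [Finset.prod_insert ha, Finset.prod_insert ha, Nat.totient_mul, Nat.cast_mul, ih hs,
      Nat.totient_prime hap, Nat.cast_sub hap.one_lt.le, Nat.cast_one]
    apply Nat.Coprime.prod_right
    intro p hp
    rw [Nat.coprime_primes hap (hs p hp)]
    rintro rfl
    exact ha hp

theorem GG_tail (P : Finset ℕ) (hP : ∀ p ∈ P, p.Prime) (z : ℕ) (hz : 1 ≤ z) (s : ℝ) (hs : 0 < s) :
    ∏ p ∈ P, (1 + 1 / ((p : ℝ) - 1)) ≤
      GG P z + (z : ℝ) ^ (-s) * ∏ p ∈ P, (1 + (p : ℝ) ^ s / ((p : ℝ) - 1)) := by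
  classical
  have hz0 : (0 : ℝ) < z := by exact_mod_cast hz
  have hp1 : ∀ p ∈ P, (0 : ℝ) < (p : ℝ) - 1 := by
    intro p hp
    have : (1 : ℝ) < p := by exact_mod_cast (hP p hp).one_lt
    linarith
  rw [Finset.prod_one_add, Finset.prod_one_add]
  rw [← Finset.sum_filter_add_sum_filter_not P.powerset (fun Q => ∏ p ∈ Q, p ≤ z)]
  apply add_le_add
  · have e : ∀ Q ∈ P.powerset.filter (fun Q => ∏ p ∈ Q, p ≤ z),
        ∏ p ∈ Q, (1 / ((p : ℝ) - 1)) = 1 / ((Nat.totient (∏ p ∈ Q, p) : ℕ) : ℝ) := by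
      intro Q hQ
      rw [Finset.mem_filter, Finset.mem_powerset] at hQ
      rw [prod_totient Q fun p hp => hP p (hQ.1 hp)]
      simp only [one_div]
      rw [Finset.prod_inv_distrib]
    rw [Finset.sum_congr rfl e]
    rw [← Finset.sum_image (f := fun d : ℕ => 1 / ((Nat.totient d : ℕ) : ℝ))
      (g := fun Q : Finset ℕ => ∏ p ∈ Q, p)]
    · unfold GG
      apply Finset.sum_le_sum_of_subset_of_nonneg
      · intro d hd
        rw [Finset.mem_image] at hd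
        obtain ⟨Q, hQ, rfl⟩ := hd
        rw [Finset.mem_filter, Finset.mem_powerset] at hQ
        have hQp : ∀ p ∈ Q, p.Prime := fun p hp => hP p (hQ.1 hp)
        unfold Pool.Agent.W25.UB.sq
        rw [Finset.mem_filter, Finset.mem_Icc]
        refine ⟨⟨Nat.one_le_iff_ne_zero.2 (Finset.prod_ne_zero_iff.2 fun p hp => (hQp p hp).ne_zero), hQ.2⟩,
          sq_prod Q hQp, ?_⟩
        intro p hp hpd
        obtain ⟨q, hq, hpq⟩ := (hp.prime.dvd_finsetProd_iff _).1 hpd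
        have := (Nat.prime_dvd_prime_iff_eq hp (hQp q hq)).1 hpq
        rw [this]
        exact hQ.1 hq
      · intro d _ _
        positivity
    · intro Q hQ Q' hQ' h
      apply prod_inj P hP _ _ h
      · rw [Finset.mem_coe] at hQ ⊢
        exact (Finset.mem_filter.1 hQ).1
      · rw [Finset.mem_coe] at hQ' ⊢
        exact (Finset.mem_filter.1 hQ').1
  · rw [Finset.mul_sum]
    calc ∑ Q ∈ P.powerset.filter (fun Q => ¬ ∏ p ∈ Q, p ≤ z), ∏ p ∈ Q, (1 / ((p : ℝ) - 1))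
        ≤ ∑ Q ∈ P.powerset.filter (fun Q => ¬ ∏ p ∈ Q, p ≤ z),
          (z : ℝ) ^ (-s) * ∏ p ∈ Q, ((p : ℝ) ^ s / ((p : ℝ) - 1)) := by
          refine Finset.sum_le_sum fun Q hQ => ?_
          rw [Finset.mem_filter, Finset.mem_powerset] at hQ
          have h1 : (z : ℝ) ≤ ∏ p ∈ Q, (p : ℝ) := by
            have h0 : z ≤ ∏ p ∈ Q, p := by omega
            have h0' : ((z : ℕ) : ℝ) ≤ ((∏ p ∈ Q, p : ℕ) : ℝ) := Nat.cast_le.2 h0
            rwa [Nat.cast_prod] at h0'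
          have h2 : (1 : ℝ) ≤ (z : ℝ) ^ (-s) * ∏ p ∈ Q, (p : ℝ) ^ s := by
            rw [Real.finsetProd_rpow Q (fun p : ℕ => (p : ℝ)) (fun p _ => Nat.cast_nonneg p) s,
              Real.rpow_neg hz0.le, ← Real.inv_rpow hz0.le,
              ← Real.mul_rpow (by positivity) (Finset.prod_nonneg fun p _ => Nat.cast_nonneg p)]
            apply Real.one_le_rpow _ hs.le
            rw [inv_mul_eq_div, le_div_iff₀ hz0, one_mul]
            exact h1
          have h3 : 0 ≤ ∏ p ∈ Q, (1 / ((p : ℝ) - 1)) :=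
            Finset.prod_nonneg fun p hp => (one_div_pos.2 (hp1 p (hQ.1 hp))).le
          calc ∏ p ∈ Q, (1 / ((p : ℝ) - 1)) = 1 * ∏ p ∈ Q, (1 / ((p : ℝ) - 1)) := (one_mul _).symm
            _ ≤ ((z : ℝ) ^ (-s) * ∏ p ∈ Q, (p : ℝ) ^ s) * ∏ p ∈ Q, (1 / ((p : ℝ) - 1)) :=
                mul_le_mul_of_nonneg_right h2 h3
            _ = (z : ℝ) ^ (-s) * ∏ p ∈ Q, ((p : ℝ) ^ s / ((p : ℝ) - 1)) := by
                rw [mul_assoc, ← Finset.prod_mul_distrib]
                congr 1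
                refine Finset.prod_congr rfl fun p _ => ?_
                rw [mul_one_div]
      _ ≤ _ := by
          apply Finset.sum_le_sum_of_subset_of_nonneg (Finset.filter_subset _ _)
          intro Q hQ _
          rw [Finset.mem_powerset] at hQ
          exact mul_nonneg (Real.rpow_nonneg hz0.le _) (Finset.prod_nonneg fun p hp =>
            div_nonneg (Real.rpow_nonneg (Nat.cast_nonneg _) _) (hp1 p (hQ hp)).le)

theorem exp_le_lin {t : ℝ} (h0 : 0 ≤ t) (h1 : t ≤ 1) : Real.exp t ≤ 1 + 2 * t := by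
  have h2 := convexOn_exp.2 (Set.mem_univ (0 : ℝ)) (Set.mem_univ (1 : ℝ))
    (sub_nonneg.2 h1) h0 (sub_add_cancel 1 t)
  simp only [smul_eq_mul, mul_zero, mul_one, zero_add, Real.exp_zero] at h2
  have h3 := Real.exp_one_lt_d9
  nlinarith

/-- Rankin's bound for the tail, all primes up to `y` -/
theorem GG_low : ∃ C : ℝ, 0 ≤ C ∧ ∀ (y : ℝ) (z : ℕ), 3 ≤ y → 1 ≤ z →
    (QQ ⌊y⌋₊)⁻¹ * (1 - Real.exp (C - Real.log z / Real.log y)) ≤
      GG ((Finset.Icc 1 ⌊y⌋₊).filter Nat.Prime) z := by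
  obtain ⟨C₃, hC₃, hM⟩ := Pool.Agent.Helper256.KM.e1_mertens_log'
  refine ⟨2 * C₃, by positivity, ?_⟩
  intro y z hy hz
  have hly : 0 < Real.log y := Real.log_pos (by linarith)
  have hz0 : (0 : ℝ) < z := by exact_mod_cast hz
  set P := (Finset.Icc 1 ⌊y⌋₊).filter Nat.Prime with hPdef
  have hP : ∀ p ∈ P, p.Prime := fun p hp => (Finset.mem_filter.1 hp).2
  have hPy : ∀ p ∈ P, (p : ℝ) ≤ y := by
    intro p hp
    have := (Finset.mem_Icc.1 (Finset.mem_filter.1 hp).1).2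
    exact (Nat.le_floor_iff (by linarith)).1 this
  have hp1 : ∀ p ∈ P, (0 : ℝ) < (p : ℝ) - 1 := by
    intro p hp
    have : (1 : ℝ) < p := by exact_mod_cast (hP p hp).one_lt
    linarith
  have hp0 : ∀ p ∈ P, (0 : ℝ) < (p : ℝ) := fun p hp => by have := hp1 p hp; linarith
  have h := GG_tail P hP z hz (1 / Real.log y) (by positivity)
  have e1 : ∏ p ∈ P, (1 + 1 / ((p : ℝ) - 1)) = (QQ ⌊y⌋₊)⁻¹ := by
    unfold QQ
    rw [← Finset.prod_inv_distrib]
    refine Finset.prod_congr rfl fun p hp => ?_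
    have h1 := hp1 p hp
    have h0 := hp0 p hp
    field_simp
    ring
  have e2 : (z : ℝ) ^ (-(1 / Real.log y)) = Real.exp (- (Real.log z / Real.log y)) := by
    rw [Real.rpow_def_of_pos hz0]
    congr 1
    ring
  have e3 : ∏ p ∈ P, (1 + (p : ℝ) ^ (1 / Real.log y) / ((p : ℝ) - 1)) ≤
      Real.exp (2 * C₃) * (QQ ⌊y⌋₊)⁻¹ := by
    rw [← e1]
    have e4 : ∏ p ∈ P, (1 + (p : ℝ) ^ (1 / Real.log y) / ((p : ℝ) - 1)) ≤
        ∏ p ∈ P, (Real.exp (2 / Real.log y * (Real.log p / p)) * (1 + 1 / ((p : ℝ) - 1))) := by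
      apply Finset.prod_le_prod
      · intro p hp
        have := hp1 p hp
        positivity
      · intro p hp
        have h1 := hp1 p hp
        have h0 := hp0 p hp
        have hlp : 0 ≤ Real.log p := Real.log_nonneg (by linarith)
        have h2 : (p : ℝ) ^ (1 / Real.log y) ≤ 1 + 2 * (Real.log p / Real.log y) := by
          rw [Real.rpow_def_of_pos h0]
          have : Real.log p * (1 / Real.log y) = Real.log p / Real.log y := by ring
          rw [this]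
          apply exp_le_lin (by positivity)
          rw [div_le_one hly]
          exact Real.log_le_log h0 (hPy p hp)
        have h3 : 1 + 2 / Real.log y * (Real.log p / p) ≤
            Real.exp (2 / Real.log y * (Real.log p / p)) := by
          have := Real.add_one_le_exp (2 / Real.log y * (Real.log p / p))
          linarith
        calc 1 + (p : ℝ) ^ (1 / Real.log y) / ((p : ℝ) - 1)
            ≤ 1 + (1 + 2 * (Real.log p / Real.log y)) / ((p : ℝ) - 1) := by gcongr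
          _ = (1 + 2 / Real.log y * (Real.log p / p)) * (1 + 1 / ((p : ℝ) - 1)) := by
              field_simp
              ring
          _ ≤ _ := by
              apply mul_le_mul_of_nonneg_right h3
              positivity
    refine e4.trans ?_
    rw [Finset.prod_mul_distrib, ← Real.exp_sum, ← Finset.mul_sum]
    have e5 : 2 / Real.log y * ∑ p ∈ P, Real.log p / p ≤ 2 * C₃ := by
      have := hM y (by linarith)
      calc 2 / Real.log y * ∑ p ∈ P, Real.log p / p ≤ 2 / Real.log y * (C₃ * Real.log y) := by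
            gcongr
        _ = 2 * C₃ := by field_simp
    apply mul_le_mul_of_nonneg_right (Real.exp_le_exp.2 e5)
    exact Finset.prod_nonneg fun p hp => by have := hp1 p hp; positivity
  rw [e1, e2] at h
  have hq : 0 < (QQ ⌊y⌋₊)⁻¹ := inv_pos.2 (QQ_pos _)
  have h4 : Real.exp (-(Real.log z / Real.log y)) *
      ∏ p ∈ P, (1 + (p : ℝ) ^ (1 / Real.log y) / ((p : ℝ) - 1)) ≤
      Real.exp (-(Real.log z / Real.log y)) * (Real.exp (2 * C₃) * (QQ ⌊y⌋₊)⁻¹) :=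
    mul_le_mul_of_nonneg_left e3 (Real.exp_pos _).le
  have h5 : Real.exp (2 * C₃ - Real.log z / Real.log y) =
      Real.exp (-(Real.log z / Real.log y)) * Real.exp (2 * C₃) := by
    rw [← Real.exp_add]
    congr 1
    ring
  rw [h5]
  have h6 : (QQ ⌊y⌋₊)⁻¹ * (1 - Real.exp (-(Real.log z / Real.log y)) * Real.exp (2 * C₃)) =
      (QQ ⌊y⌋₊)⁻¹ - Real.exp (-(Real.log z / Real.log y)) * (Real.exp (2 * C₃) * (QQ ⌊y⌋₊)⁻¹) := by
    ring
  rw [h6]
  linarith

/-- **the density of Selberg's sieve over all primes up to `X ^ ε₁`** -/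
theorem ggb : ∀ δ η₀ : ℝ, 0 < δ → 0 < η₀ → ∃ εs : ℝ, 0 < εs ∧ ∀ ε₁ : ℝ, 0 < ε₁ → ε₁ ≤ εs →
    ∃ X₀ : ℕ, ∀ X : ℕ, X₀ ≤ X → 0 < GG (Pr X ε₁) ⌊(X : ℝ) ^ η₀⌋₊ ∧
      1 / GG (Pr X ε₁) ⌊(X : ℝ) ^ η₀⌋₊ ≤
        (1 + δ) * (Real.exp (-Real.eulerMascheroniConstant) / (ε₁ * Real.log X)) := by
  intro δ η₀ hδ hη₀
  obtain ⟨C, hC, hG⟩ := GG_low
  -- δ' with (1 - δ')^2 (1 + δ) ≥ 1
  obtain ⟨δ', hδ', hδ'1, hδ'2⟩ : ∃ δ' : ℝ, 0 < δ' ∧ δ' < 1 ∧ 1 ≤ (1 + δ) * ((1 - δ') * (1 - δ')) := by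
    refine ⟨δ / (2 * (1 + δ)), by positivity, ?_, ?_⟩
    · rw [div_lt_one (by positivity)]
      linarith
    · have : 1 - δ / (2 * (1 + δ)) = (2 + δ) / (2 * (1 + δ)) := by
        field_simp
        ring
      rw [this]
      rw [show (1 + δ) * ((2 + δ) / (2 * (1 + δ)) * ((2 + δ) / (2 * (1 + δ)))) =
        (2 + δ) ^ 2 / (4 * (1 + δ)) by field_simp; ring]
      rw [le_div_iff₀ (by positivity)]
      nlinarith [sq_nonneg δ]
  -- εs
  obtain ⟨T, hT0, hT⟩ : ∃ T : ℝ, 0 < T ∧ ∀ t : ℝ, T ≤ t → Real.exp (C - t) ≤ δ' := by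
    refine ⟨C - Real.log δ', by have := Real.log_neg hδ' hδ'1; linarith, ?_⟩
    intro t ht
    rw [← Real.le_log_iff_exp_le hδ']
    linarith
  refine ⟨η₀ / (2 * T), by positivity, ?_⟩
  intro ε₁ hε₁ hε₁s
  have hγ := Real.exp_pos Real.eulerMascheroniConstant
  have h1 : Tendsto (fun x : ℝ => x ^ ε₁) atTop atTop := tendsto_rpow_atTop hε₁
  have h2 := (QQ_real.comp h1).comp (tendsto_natCast_atTop_atTop (R := ℝ))
  have hlt : (1 - δ') * Real.exp Real.eulerMascheroniConstant <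
      Real.exp Real.eulerMascheroniConstant := by nlinarith
  have h3 := h2.eventually (lt_mem_nhds hlt)
  have h4 : ∀ᶠ X : ℕ in atTop, (3 : ℝ) ≤ (X : ℝ) ^ ε₁ :=
    (h1.comp (tendsto_natCast_atTop_atTop (R := ℝ))).eventually (eventually_ge_atTop _)
  have h5 : ∀ᶠ X : ℕ in atTop, (4 : ℝ) ≤ (X : ℝ) ^ η₀ :=
    ((tendsto_rpow_atTop hη₀).comp (tendsto_natCast_atTop_atTop (R := ℝ))).eventually
      (eventually_ge_atTop _)
  obtain ⟨X₀, hX₀⟩ := Filter.eventually_atTop.1 (h3.and (h4.and (h5.and (eventually_ge_atTop 2))))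
  refine ⟨X₀, fun X hX => ?_⟩
  obtain ⟨g3, g4, g5, g6⟩ := hX₀ X hX
  have hX1 : (1 : ℝ) < X := by exact_mod_cast (by omega : 1 < X)
  have hX0 : (0 : ℝ) < X := by linarith
  have hlX : 0 < Real.log X := Real.log_pos hX1
  have hz1 : 1 ≤ ⌊(X : ℝ) ^ η₀⌋₊ := Nat.le_floor (by rw [Nat.cast_one]; linarith)
  have hly : Real.log ((X : ℝ) ^ ε₁) = ε₁ * Real.log X := Real.log_rpow hX0 _
  have hzlow : (X : ℝ) ^ (η₀ / 2) ≤ (⌊(X : ℝ) ^ η₀⌋₊ : ℝ) := by
    have a1 : (X : ℝ) ^ η₀ < ⌊(X : ℝ) ^ η₀⌋₊ + 1 := Nat.lt_floor_add_one _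
    have a2 : (X : ℝ) ^ η₀ = (X : ℝ) ^ (η₀ / 2) * (X : ℝ) ^ (η₀ / 2) := by
      rw [← Real.rpow_add hX0]; congr 1; ring
    have a3 : (0 : ℝ) < (X : ℝ) ^ (η₀ / 2) := Real.rpow_pos_of_pos hX0 _
    have a4 : (2 : ℝ) ≤ (X : ℝ) ^ (η₀ / 2) := by
      by_contra hh
      push Not at hh
      nlinarith
    nlinarith
  have hlz : η₀ / 2 * Real.log X ≤ Real.log (⌊(X : ℝ) ^ η₀⌋₊ : ℝ) := by
    rw [← Real.log_rpow hX0]
    exact Real.log_le_log (Real.rpow_pos_of_pos hX0 _) hzlow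
  have hratio : T ≤ Real.log (⌊(X : ℝ) ^ η₀⌋₊ : ℝ) / Real.log ((X : ℝ) ^ ε₁) := by
    rw [hly, le_div_iff₀ (by positivity)]
    refine le_trans ?_ hlz
    rw [le_div_iff₀ (by positivity)] at hε₁s
    nlinarith
  have hE := hT _ hratio
  have hGG := hG ((X : ℝ) ^ ε₁) ⌊(X : ℝ) ^ η₀⌋₊ g4 hz1
  have hq : 0 < (QQ ⌊(X : ℝ) ^ ε₁⌋₊)⁻¹ := inv_pos.2 (QQ_pos _)
  have hq2 : (1 - δ') * Real.exp Real.eulerMascheroniConstant * (ε₁ * Real.log X) ≤
      (QQ ⌊(X : ℝ) ^ ε₁⌋₊)⁻¹ := by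
    have g7 : (1 - δ') * Real.exp Real.eulerMascheroniConstant <
      (QQ ⌊(X : ℝ) ^ ε₁⌋₊)⁻¹ / Real.log ((X : ℝ) ^ ε₁) := g3
    rw [hly, lt_div_iff₀ (by positivity)] at g7
    exact g7.le
  have hlow : (1 - δ') * Real.exp Real.eulerMascheroniConstant * (ε₁ * Real.log X) * (1 - δ') ≤
      GG (Pr X ε₁) ⌊(X : ℝ) ^ η₀⌋₊ := by
    refine le_trans ?_ hGG
    have a1 : 1 - δ' ≤ 1 - Real.exp (C - Real.log (⌊(X : ℝ) ^ η₀⌋₊ : ℝ) /
      Real.log ((X : ℝ) ^ ε₁)) := by linarith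
    exact mul_le_mul hq2 a1 (by linarith) hq.le
  have hpos : 0 < (1 - δ') * Real.exp Real.eulerMascheroniConstant * (ε₁ * Real.log X) *
      (1 - δ') := by
    have : 0 < 1 - δ' := by linarith
    positivity
  refine ⟨lt_of_lt_of_le hpos hlow, ?_⟩
  calc 1 / GG (Pr X ε₁) ⌊(X : ℝ) ^ η₀⌋₊ ≤
      1 / ((1 - δ') * Real.exp Real.eulerMascheroniConstant * (ε₁ * Real.log X) * (1 - δ')) :=
        one_div_le_one_div_of_le hpos hlow
    _ = (1 / ((1 - δ') * (1 - δ'))) *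
        (Real.exp (-Real.eulerMascheroniConstant) / (ε₁ * Real.log X)) := by
        rw [Real.exp_neg]
        have : 0 < 1 - δ' := by linarith
        field_simp
    _ ≤ _ := by
        apply mul_le_mul_of_nonneg_right _ (by positivity)
        have : 0 < 1 - δ' := by linarith
        rw [div_le_iff₀ (by positivity)]
        exact hδ'2

end Pool.Agent.R516
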