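import Mathlib
import Pool.Agent.Y827.LS.Split
import Pool.Agent.R516.Win

/-! Parameters. -/

set_option autoImplicit false

namespace Pool.Agent.R516

open Finset Filter Topology
open Pool.Agent.Y827.LS (dc Dg Tw Dg_le lt_Dg)

theorem exp_gamma_lt2 : Real.exp Real.eulerMascheroniConstant < 2 := by
  have h := Real.eulerMascheroniConstant_lt_two_thirds
  have h1 : Real.exp Real.eulerMascheroniConstant < Real.exp (2 / 3) := Real.exp_lt_exp.2 h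
  have h2 : Real.exp (2 / 3) < 2 := by
    have h3 : Real.exp (2 / 3) ^ 3 = Real.exp 1 ^ 2 := by
      rw [← Real.exp_nat_mul, ← Real.exp_nat_mul]
      norm_num
    have h4 := Real.exp_one_lt_d9
    have h6 := Real.exp_pos 1
    by_contra hh
    push Not at hh
    have h7 : (2 : ℝ) ^ 3 ≤ Real.exp (2 / 3) ^ 3 := pow_le_pow_left₀ (by norm_num) hh 3
    rw [h3] at h7
    nlinarith only [h4, h6, h7]
  linarith only [h1, h2]

/-- squares of sums -/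
theorem sq_sum_le' (nb : ℕ) (β x₀ : ℝ) (x : ℕ → ℝ) (hβ : 0 ≤ β) (hβ1 : β ≤ 1) :
    (β * x₀ + ∑ i ∈ range nb, x i) ^ 2 ≤ (nb + 1) * (x₀ ^ 2 + ∑ i ∈ range nb, x i ^ 2) := by
  have h := sq_sum_le_card_mul_sum_sq (s := range (nb + 1))
    (f := fun i => if i = nb then β * x₀ else x i)
  rw [Finset.sum_range_succ, Finset.sum_range_succ, Finset.card_range] at h
  simp only [if_true] at h
  have e1 : ∑ i ∈ range nb, (if i = nb then β * x₀ else x i) = ∑ i ∈ range nb, x i := by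
    refine Finset.sum_congr rfl fun i hi => ?_
    rw [if_neg (Finset.mem_range.1 hi).ne]
  have e2 : ∑ i ∈ range nb, (if i = nb then β * x₀ else x i) ^ 2 = ∑ i ∈ range nb, x i ^ 2 := by
    refine Finset.sum_congr rfl fun i hi => ?_
    rw [if_neg (Finset.mem_range.1 hi).ne]
  rw [e1, e2] at h
  have h2 : (β * x₀) ^ 2 ≤ x₀ ^ 2 := by
    rw [mul_pow]
    have h3 : β ^ 2 ≤ 1 := pow_le_one₀ hβ hβ1
    calc β ^ 2 * x₀ ^ 2 ≤ 1 * x₀ ^ 2 := mul_le_mul_of_nonneg_right h3 (sq_nonneg _)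
      _ = _ := one_mul _
  have hnb : (0 : ℝ) ≤ (nb : ℝ) + 1 := by positivity
  push_cast at h
  calc (β * x₀ + ∑ i ∈ range nb, x i) ^ 2 = (∑ i ∈ range nb, x i + β * x₀) ^ 2 := by ring
    _ ≤ ((nb : ℝ) + 1) * (∑ i ∈ range nb, x i ^ 2 + (β * x₀) ^ 2) := h
    _ ≤ ((nb : ℝ) + 1) * (∑ i ∈ range nb, x i ^ 2 + x₀ ^ 2) := by gcongr
    _ = _ := by ring

/-- the parameters of the linear sieve -/
theorem params (δ : ℝ) (hδ : 0 < δ) : ∃ (J n₀ : ℕ) (κ₀ θ δf : ℝ), 1 ≤ n₀ ∧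
    κ₀ = 1 / (100 * (n₀ : ℝ)) ∧ 0 < κ₀ ∧ θ = J * κ₀ ∧ 51 / 100 ≤ θ ∧ θ < 5 / 9 ∧ 0 < δf ∧
    δf ≤ 1 / 100 ∧ 2 * δf ≤ 5 - 9 * θ ∧ κ₀ ≤ δf / 14 ∧ 2 / θ ≤ 18 / 5 + δ / 4 ∧
    (∀ w : ℕ, w < J → 0 < Tw κ₀ w ∧ Tw κ₀ w < 5 / 9) := by
  obtain ⟨k, hk⟩ : ∃ k : ℕ, 1 / δ + 2 ≤ k := exists_nat_ge _
  have h1δ : 0 < 1 / δ := by positivity
  have hk2 : (2 : ℝ) ≤ k := by linarith only [hk, h1δ]
  have hk0 : (0 : ℝ) < k := by linarith only [hk2]
  have hkn : 2 ≤ k := by exact_mod_cast hk2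
  have hJr : ((500 * k - 4 : ℕ) : ℝ) = 500 * k - 4 := by
    rw [Nat.cast_sub (by omega)]
    push_cast
    ring
  have hκ₀' : 1 / (100 * ((9 * k : ℕ) : ℝ)) = 1 / (900 * k) := by
    push_cast
    congr 1
    ring
  have hθ' : ((500 * k - 4 : ℕ) : ℝ) * (1 / (100 * ((9 * k : ℕ) : ℝ))) =
      (500 * k - 4) / (900 * k) := by
    rw [hJr, hκ₀']
    ring
  have hθ59 : (500 * (k : ℝ) - 4) / (900 * k) < 5 / 9 := by
    rw [div_lt_iff₀ (by positivity)]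
    linarith only [hk0]
  refine ⟨500 * k - 4, 9 * k, 1 / (100 * ((9 * k : ℕ) : ℝ)),
    ((500 * k - 4 : ℕ) : ℝ) * (1 / (100 * ((9 * k : ℕ) : ℝ))), 1 / (50 * (k : ℝ)), by omega, rfl,
    by rw [hκ₀']; positivity, rfl, ?_, ?_, by positivity, ?_, ?_, ?_, ?_, ?_⟩
  · rw [hθ', le_div_iff₀ (by positivity)]
    linarith only [hk2]
  · rw [hθ']
    exact hθ59
  · apply one_div_le_one_div_of_le (by norm_num)
    linarith only [hk2]
  · rw [hθ']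
    have : 5 - 9 * ((500 * (k : ℝ) - 4) / (900 * k)) = 2 * (1 / (50 * k)) := by
      field_simp
      ring
    rw [this]
  · rw [hκ₀', div_div]
    apply one_div_le_one_div_of_le (by positivity)
    linarith only [hk0]
  · rw [hθ', div_div_eq_mul_div, div_le_iff₀ (by linarith only [hk2])]
    have h3 : 1 ≤ δ * k := by
      have h4 : 1 / δ ≤ k := by linarith only [hk]
      rwa [div_le_iff₀ hδ, mul_comm] at h4
    have h5 : δ ≤ δ * k / 2 := by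
      have : δ * 2 ≤ δ * k := mul_le_mul_of_nonneg_left hk2 hδ.le
      linarith only [this]
    linarith only [h3, h5]
  · intro w hw
    unfold Tw
    refine ⟨lt_of_lt_of_le (by norm_num) (le_max_left _ _), max_lt (by norm_num) ?_⟩
    have h1 : (w : ℝ) + 1 ≤ ((500 * k - 4 : ℕ) : ℝ) := by exact_mod_cast hw
    have h0 : (0 : ℝ) ≤ 1 / (100 * ((9 * k : ℕ) : ℝ)) := by positivity
    calc ((w : ℝ) + 1) * (1 / (100 * ((9 * k : ℕ) : ℝ))) ≤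
        ((500 * k - 4 : ℕ) : ℝ) * (1 / (100 * ((9 * k : ℕ) : ℝ))) :=
          mul_le_mul_of_nonneg_right h1 h0
      _ = (500 * k - 4) / (900 * k) := hθ'
      _ < 5 / 9 := hθ59

/-- the density -/
theorem dens {δ δ₀ θ ε₁ L VA β : ℝ} (hδ : 0 < δ) (hδ1 : δ ≤ 1) (hδδ : δ ≤ δ₀) (hθ : 0 < θ)
    (hε₁ : 0 < ε₁) (hL : 0 < L) (h2 : 2 / θ ≤ 18 / 5 + δ / 4) (hβ0 : 0 ≤ β)
    (hVA : VA ≤ (1 + δ / 40) * (Real.exp (-Real.eulerMascheroniConstant) / (ε₁ * L)))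
    (hβ : β ≤ (1 + δ / 40) * (2 * Real.exp Real.eulerMascheroniConstant * ε₁ / θ)) :
    VA * β ≤ (18 / 5 + δ₀) / L := by
  have hγ := Real.exp_pos Real.eulerMascheroniConstant
  have h1 : VA * β ≤ (1 + δ / 40) * (Real.exp (-Real.eulerMascheroniConstant) /
      (ε₁ * L)) * ((1 + δ / 40) * (2 * Real.exp Real.eulerMascheroniConstant * ε₁ / θ)) :=
    mul_le_mul hVA hβ hβ0 (by positivity)
  refine h1.trans ?_
  have e1 : (1 + δ / 40) * (Real.exp (-Real.eulerMascheroniConstant) / (ε₁ * L)) *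
      ((1 + δ / 40) * (2 * Real.exp Real.eulerMascheroniConstant * ε₁ / θ)) =
      ((1 + δ / 40) ^ 2 * (2 / θ)) / L := by
    rw [Real.exp_neg]
    field_simp
  rw [e1]
  apply div_le_div_of_nonneg_right _ hL.le
  have h3 : (1 + δ / 40) ^ 2 ≤ 1 + δ / 16 := by nlinarith only [hδ, hδ1]
  calc (1 + δ / 40) ^ 2 * (2 / θ) ≤ (1 + δ / 16) * (18 / 5 + δ / 4) :=
        mul_le_mul h3 h2 (by positivity) (by positivity)
    _ ≤ 18 / 5 + δ := by nlinarith only [hδ, hδ1]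
    _ ≤ 18 / 5 + δ₀ := by linarith only [hδδ]

theorem beta_le {δ θ ε₁ β : ℝ} (_hδ : 0 ≤ δ) (hδ1 : δ ≤ 1) (hθ51 : 51 / 100 ≤ θ) (hε₁ : 0 < ε₁)
    (hε₁b : ε₁ ≤ 1 / 16)
    (hβ : β ≤ (1 + δ / 40) * (2 * Real.exp Real.eulerMascheroniConstant * ε₁ / θ)) : β ≤ 1 := by
  have hγ := Real.exp_pos Real.eulerMascheroniConstant
  have hγ2 := exp_gamma_lt2
  have hθp : 0 < θ := by linarith only [hθ51]
  refine hβ.trans ?_
  have h3 : 2 * Real.exp Real.eulerMascheroniConstant * ε₁ / θ ≤ 1 / 2 := by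
    rw [div_le_iff₀ hθp]
    have : Real.exp Real.eulerMascheroniConstant * ε₁ ≤ 2 * (1 / 16) :=
      mul_le_mul hγ2.le hε₁b hε₁.le (by norm_num)
    linarith only [this, hθ51]
  have h4 : 0 ≤ 2 * Real.exp Real.eulerMascheroniConstant * ε₁ / θ := by positivity
  calc (1 + δ / 40) * (2 * Real.exp Real.eulerMascheroniConstant * ε₁ / θ) ≤ 2 * (1 / 2) := by
        apply mul_le_mul (by linarith only [hδ1]) h3 h4 (by norm_num)
    _ = 1 := by norm_num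

/-- consecutive ends of blocks -/
theorem Dg_ratio {X i : ℕ} {s e0 : ℝ} (hX : 1 < X) (hs : s ≤ e0 / 2)
    (hhalf : 2 ≤ (X : ℝ) ^ (e0 / 2)) (h1 : 1 ≤ Dg X s i) :
    ((Dg X s (i + 1) : ℕ) : ℝ) ≤ (X : ℝ) ^ e0 * (Dg X s i : ℕ) := by
  have hX1 : (1 : ℝ) < X := by exact_mod_cast hX
  have hX0 : (0 : ℝ) < X := by linarith only [hX1]
  have h3 := lt_Dg (X := X) s i (Dg X s i + 1) (Nat.lt_succ_self _)
  have h4 : (1 : ℝ) ≤ (Dg X s i : ℕ) := by exact_mod_cast h1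
  push_cast at h3
  have h5 : (X : ℝ) ^ ((i : ℝ) * s) ≤ 2 * (Dg X s i : ℕ) := by linarith only [h3, h4]
  calc ((Dg X s (i + 1) : ℕ) : ℝ) ≤ (X : ℝ) ^ (((i + 1 : ℕ) : ℝ) * s) := Dg_le _ _
    _ = (X : ℝ) ^ s * (X : ℝ) ^ ((i : ℝ) * s) := by
        rw [← Real.rpow_add hX0]
        congr 1
        push_cast
        ring
    _ ≤ (X : ℝ) ^ (e0 / 2) * (2 * (Dg X s i : ℕ)) := by
        apply mul_le_mul (Real.rpow_le_rpow_of_exponent_le hX1.le hs) h5 (by positivity)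
          (by positivity)
    _ = (X : ℝ) ^ (e0 / 2) * 2 * (Dg X s i : ℕ) := by ring
    _ ≤ (X : ℝ) ^ (e0 / 2) * (X : ℝ) ^ (e0 / 2) * (Dg X s i : ℕ) := by
        apply mul_le_mul_of_nonneg_right _ (Nat.cast_nonneg _)
        exact mul_le_mul_of_nonneg_left hhalf (by positivity)
    _ = _ := by
        rw [← Real.rpow_add hX0]
        congr 2
        ring

theorem varA_num {X H D : ℕ} {K : ℝ} (hX : 64 ≤ X) (hHX : (H : ℝ) ≤ X) (hK1 : 1 ≤ K)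
    (hKD : (1 + Real.log D) ^ 15 ≤ K) (hD6X : (D : ℝ) ^ 6 ≤ X) :
    X * H * (1 + Real.log D) ^ 15 + (D : ℝ) ^ 6 * ((H : ℝ) ^ 2 * (4 / (X : ℝ) ^ 5)) ≤
      2 * (X * H * K) := by
  have hXr : (64 : ℝ) ≤ X := by exact_mod_cast hX
  have hX0 : (0 : ℝ) < X := by linarith only [hXr]
  have hH0 : (0 : ℝ) ≤ H := Nat.cast_nonneg _
  have h2 : (D : ℝ) ^ 6 * ((H : ℝ) ^ 2 * (4 / (X : ℝ) ^ 5)) ≤ X * H * K := by
    have h3 : (D : ℝ) ^ 6 * ((H : ℝ) ^ 2 * 4) ≤ X * H * (X : ℝ) ^ 5 := by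
      have h4 : (H : ℝ) ^ 2 * 4 ≤ (H * X) * X := by
        have h5 : (H : ℝ) * H ≤ H * X := mul_le_mul_of_nonneg_left hHX hH0
        have h6 : (H * X) * 4 ≤ (H * X) * (X : ℝ) := by
          apply mul_le_mul_of_nonneg_left _ (by positivity)
          linarith only [hXr]
        calc (H : ℝ) ^ 2 * 4 = (H * H) * 4 := by ring
          _ ≤ (H * X) * 4 := by gcongr
          _ ≤ _ := h6
      have h5 : (X : ℝ) ^ 2 ≤ (X : ℝ) ^ 5 :=
        pow_le_pow_right₀ (by linarith only [hXr]) (by norm_num)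
      calc _ ≤ (X : ℝ) * ((H * X) * X) := mul_le_mul hD6X h4 (by positivity) hX0.le
        _ = X * H * (X : ℝ) ^ 2 := by ring
        _ ≤ _ := by gcongr
    calc (D : ℝ) ^ 6 * ((H : ℝ) ^ 2 * (4 / (X : ℝ) ^ 5)) =
        ((D : ℝ) ^ 6 * ((H : ℝ) ^ 2 * 4)) / (X : ℝ) ^ 5 := by ring
      _ ≤ (X * H * (X : ℝ) ^ 5) / (X : ℝ) ^ 5 := by gcongr
      _ = X * H * 1 := by field_simp
      _ ≤ _ := by gcongr
  have h6 : X * H * (1 + Real.log D) ^ 15 ≤ X * H * K := by gcongr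
  linarith only [h2, h6]

end Pool.Agent.R516
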