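import Mathlib
import Pool.Agent.R516.Stm
import Pool.Agent.R516.Blk
import Pool.Agent.R516.Prm
import Pool.Agent.R516.GGB
import Pool.Agent.W356.UBSel
import Pool.Agent.Y827.LS.Rcx

/-! A majorant of the primes of density `18 / 5` with small variance in all short windows. -/

set_option autoImplicit false

namespace Pool.Agent.R516

open Finset Filter Topology
open Pool.Agent.H442R2
open Pool.Agent.H442R2.KF (Wt)
open Pool.Agent.Y827.LS (dc Dg cbk Tw Dg_le lt_Dg cbk_ok split)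
open Pool.Agent.W25.UB (ds RC GG)

theorem ds_dc (c : ℕ → ℝ) (D : ℕ) (m : ℤ) : ds c D m = ∑ d ∈ Icc 1 D, c d / d + dc c D m := by
  unfold ds dc BX.dl
  rw [← Finset.sum_add_distrib]
  refine Finset.sum_congr rfl fun d _ => ?_
  ring

/-- the pointwise decomposition -/
theorem ptwise {X H D Z J m : ℕ} {s VA β : ℝ} {cA b : ℕ → ℝ} (hX : 1 ≤ X) (hs : 0 ≤ s)
    (hDg : Dg X s (J * m) = Z) (hβ : β = ∑ d ∈ Icc 1 Z, b d / (d : ℝ))
    (hVA : ∑ d ∈ Icc 1 D, cA d / (d : ℝ) = VA) (h0 : 0 ≤ β) (h1 : β ≤ 1) (n : ℕ) :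
    (∑ h ∈ Icc 1 H, ds cA D ((n : ℤ) + (h : ℕ)) * ds b Z ((n : ℤ) + (h : ℕ)) -
      H * (VA * β)) ^ 2 ≤
      ((J * m : ℕ) + 1) * ((∑ h ∈ Icc 1 H, dc cA D ((n : ℤ) + (h : ℕ))) ^ 2 +
        ∑ i ∈ range (J * m), (∑ h ∈ Icc 1 H,
          at0 cA (cbk b X s i) D (Dg X s (i + 1)) ((n : ℤ) + (h : ℕ))) ^ 2) := by
  have e1 : ∑ h ∈ Icc 1 H, ds cA D ((n : ℤ) + (h : ℕ)) * ds b Z ((n : ℤ) + (h : ℕ)) -
      H * (VA * β) = β * (∑ h ∈ Icc 1 H, dc cA D ((n : ℤ) + (h : ℕ))) +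
        ∑ i ∈ range (J * m), (∑ h ∈ Icc 1 H,
          at0 cA (cbk b X s i) D (Dg X s (i + 1)) ((n : ℤ) + (h : ℕ))) := by
    have e2 : ∀ h ∈ Icc 1 H, ds cA D ((n : ℤ) + (h : ℕ)) * ds b Z ((n : ℤ) + (h : ℕ)) =
        VA * β + (β * dc cA D ((n : ℤ) + (h : ℕ)) + ∑ i ∈ range (J * m),
          at0 cA (cbk b X s i) D (Dg X s (i + 1)) ((n : ℤ) + (h : ℕ))) := by
      intro h hh
      have hh1 := (Finset.mem_Icc.1 hh).1
      have hne : (n : ℤ) + (h : ℕ) ≠ 0 := by omega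
      have hs' := split b hX hs (J * m) ((n : ℤ) + (h : ℕ))
      rw [hDg, ← hβ] at hs'
      have hat : ∀ i, at0 cA (cbk b X s i) D (Dg X s (i + 1))
          ((n : ℤ) + (h : ℕ)) = ds cA D ((n : ℤ) + (h : ℕ)) *
          dc (cbk b X s i) (Dg X s (i + 1)) ((n : ℤ) + (h : ℕ)) := by
        intro i
        unfold at0
        rw [if_neg hne]
      rw [Finset.sum_congr rfl fun i _ => hat i, ← Finset.mul_sum, hs']
      have hd := ds_dc cA D ((n : ℤ) + (h : ℕ))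
      rw [hVA] at hd
      rw [hd]
      ring
    rw [Finset.sum_congr rfl e2, Finset.sum_add_distrib, Finset.sum_add_distrib,
      Finset.sum_const, Nat.card_Icc, nsmul_eq_mul, Nat.add_sub_cancel, ← Finset.mul_sum,
      Finset.sum_comm]
    ring
  rw [e1]
  exact sq_sum_le' (J * m) β _ _ h0 h1

/-- the final summation -/
theorem total {X H D nb : ℕ} (hX : 1 ≤ X) {B1 B2 : ℝ} {cA : ℕ → ℝ} {c : ℕ → ℕ → ℝ} {Zs : ℕ → ℕ}
    {S : ℕ → ℝ} (hA : Gs X (fun n => (∑ h ∈ Icc 1 H, dc cA D (n + (h : ℕ))) ^ 2) ≤ B1)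
    (hB : ∀ i < nb, Gs X (fun n => (∑ h ∈ Icc 1 H,
      at0 cA (c i) D (Zs i) (n + (h : ℕ))) ^ 2) ≤ B2)
    (hS : ∀ n : ℕ, S n ≤ ((nb : ℕ) + 1) * ((∑ h ∈ Icc 1 H, dc cA D ((n : ℤ) + (h : ℕ))) ^ 2 +
        ∑ i ∈ range nb, (∑ h ∈ Icc 1 H, at0 cA (c i) D (Zs i) ((n : ℤ) + (h : ℕ))) ^ 2)) :
    ∑ n ∈ Icc 0 X, S n ≤ Real.exp Real.pi * (((nb : ℕ) + 1) * (B1 + nb * B2)) := by
  have hbx₀ : Bd (fun n => (∑ h ∈ Icc 1 H, dc cA D (n + (h : ℕ))) ^ 2) := by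
    simp only [pow_two]
    have : Bd (fun n => ∑ h ∈ Icc 1 H, dc cA D (n + (h : ℕ))) :=
      Bd.sum _ fun h _ => Bd.dc cA D (h : ℕ)
    exact this.mul this
  have hbx : ∀ i, Bd (fun n => (∑ h ∈ Icc 1 H, at0 cA (c i) D (Zs i) (n + (h : ℕ))) ^ 2) := by
    intro i
    simp only [pow_two]
    have : Bd (fun n => ∑ h ∈ Icc 1 H, at0 cA (c i) D (Zs i) (n + (h : ℕ))) :=
      Bd.sum _ fun h _ => Bd.at0 cA _ D _ (h : ℕ)
    exact this.mul this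
  have hbs : Bd (fun n => ∑ i ∈ range nb, (∑ h ∈ Icc 1 H,
      at0 cA (c i) D (Zs i) (n + (h : ℕ))) ^ 2) := Bd.sum _ fun i _ => hbx i
  have hF : Bd (fun n => ((nb : ℕ) + 1 : ℝ) * ((∑ h ∈ Icc 1 H, dc cA D (n + (h : ℕ))) ^ 2 +
      ∑ i ∈ range nb, (∑ h ∈ Icc 1 H, at0 cA (c i) D (Zs i) (n + (h : ℕ))) ^ 2)) :=
    (hbx₀.add hbs).cmul _
  calc ∑ n ∈ Icc 0 X, S n ≤ ∑ n ∈ Icc 0 X, ((nb : ℕ) + 1 : ℝ) *
        ((∑ h ∈ Icc 1 H, dc cA D ((n : ℤ) + (h : ℕ))) ^ 2 +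
        ∑ i ∈ range nb, (∑ h ∈ Icc 1 H, at0 cA (c i) D (Zs i) ((n : ℤ) + (h : ℕ))) ^ 2) :=
        Finset.sum_le_sum fun n _ => hS n
    _ ≤ Real.exp Real.pi * Gs X (fun n => ((nb : ℕ) + 1 : ℝ) *
        ((∑ h ∈ Icc 1 H, dc cA D (n + (h : ℕ))) ^ 2 +
        ∑ i ∈ range nb, (∑ h ∈ Icc 1 H, at0 cA (c i) D (Zs i) (n + (h : ℕ))) ^ 2)) := by
        apply Gs_part hX hF _ X le_rfl
        intro n
        positivity
    _ = Real.exp Real.pi * (((nb : ℕ) + 1) *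
        (Gs X (fun n => (∑ h ∈ Icc 1 H, dc cA D (n + (h : ℕ))) ^ 2) +
        ∑ i ∈ range nb, Gs X (fun n => (∑ h ∈ Icc 1 H,
          at0 cA (c i) D (Zs i) (n + (h : ℕ))) ^ 2))) := by
        rw [Gs_cmul, Gs_add hX hbx₀ hbs, Gs_sum hX _ fun i _ => hbx i]
    _ ≤ Real.exp Real.pi * (((nb : ℕ) + 1) * (B1 + ∑ i ∈ range nb, B2)) := by
        apply mul_le_mul_of_nonneg_left _ (Real.exp_pos _).le
        apply mul_le_mul_of_nonneg_left _ (by positivity)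
        apply add_le_add hA
        exact Finset.sum_le_sum fun i hi => hB i (Finset.mem_range.1 hi)
    _ = _ := by rw [Finset.sum_const, Finset.card_range, nsmul_eq_mul]

/-- **the majorant** -/
theorem core : St_Core := by
  classical
  intro δ₀ hδ₀
  obtain ⟨δ, hδ, hδ1, hδδ⟩ : ∃ δ : ℝ, 0 < δ ∧ δ ≤ 1 ∧ δ ≤ δ₀ :=
    ⟨min δ₀ 1, lt_min hδ₀ one_pos, min_le_right _ _, min_le_left _ _⟩
  obtain ⟨J, n₀, κ₀, θ, δf, hn₀1, hκ₀, hκ₀p, hθJ, hθ51, hθ59, hδf0, hδf1, hδf2, hκδ, h2θ, hTw⟩ :=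
    params δ hδ
  obtain ⟨e0, η, he0, he0', hη, hη', hTr⟩ := trall (δf / 2) (by linarith only [hδf0]) (Tw κ₀) J hTw
  obtain ⟨η₀, hη₀, hη₀1, hη₀2⟩ : ∃ η₀ : ℝ, 0 < η₀ ∧ 32 * η₀ ≤ e0 ∧ 12 * η₀ ≤ η :=
    ⟨min (e0 / 32) (η / 12), lt_min (by positivity) (by positivity), by
      have := min_le_left (e0 / 32) (η / 12); linarith only [this], by
      have := min_le_right (e0 / 32) (η / 12); linarith only [this]⟩
  obtain ⟨m, hmd⟩ : ∃ m : ℕ, m = ⌈2 * κ₀ / e0⌉₊ + 1 := ⟨_, rfl⟩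
  have hm1 : 1 ≤ m := by omega
  have hm1r : (1 : ℝ) ≤ m := by exact_mod_cast hm1
  have hsm : κ₀ / m ≤ e0 / 2 := by
    have h1 : 2 * κ₀ / e0 ≤ m := by
      rw [hmd]
      push_cast
      have := Nat.le_ceil (2 * κ₀ / e0)
      linarith only [this]
    rw [div_le_iff₀ he0] at h1
    rw [div_le_iff₀ (by linarith only [hm1r])]
    linarith only [h1]
  have hsp : 0 < κ₀ / m := by positivity
  have hnb : ((J * m : ℕ) : ℝ) * (κ₀ / m) = θ := by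
    rw [hθJ]
    push_cast
    field_simp
  obtain ⟨εs, hεs, hGG⟩ := ggb (δ / 40) η₀ (by positivity) hη₀
  obtain ⟨ε₁, hε₁, hε₁a, hε₁b⟩ : ∃ ε₁ : ℝ, 0 < ε₁ ∧ ε₁ ≤ εs ∧ ε₁ ≤ 1 / 16 :=
    ⟨min εs (1 / 16), lt_min hεs (by norm_num), min_le_left _ _, min_le_right _ _⟩
  obtain ⟨η₁, C, hη₁, hη₁1, hC, hTR⟩ := hTr ε₁ hε₁ (by linarith only [hε₁b])
  obtain ⟨c₁, hc₁, hRCX⟩ := Pool.Agent.Y827.LS.rcx
  obtain ⟨E, hE⟩ : ∃ E : ℝ, E = Real.exp (c₁ / ε₁) := ⟨_, rfl⟩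
  have hE0 : 0 < E := by rw [hE]; exact Real.exp_pos _
  obtain ⟨N1, hN1⟩ := hGG ε₁ hε₁ hε₁a
  obtain ⟨N2, hN2⟩ := Pool.Agent.Y827.LS.lsm θ (δ / 40) ε₁ (by linarith only [hθ51])
    (by linarith only [hθ59]) (by positivity) hε₁ (by linarith only [hε₁b])
  obtain ⟨N3, hN3⟩ := hRCX ε₁ hε₁ (by linarith only [hε₁b]) 1 le_rfl
  obtain ⟨N4, hN4⟩ := Gs_cl
  obtain ⟨κ, hκ, hκ1, hκ2, hκ3⟩ : ∃ κ : ℝ, 0 < κ ∧ κ ≤ η₁ ∧ κ ≤ 2 / 5 ∧ κ ≤ ε₁ :=
    ⟨min η₁ ε₁, lt_min hη₁ hε₁, min_le_left _ _, (min_le_right _ _).trans (by linarith only [hε₁b]),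
      min_le_right _ _⟩
  obtain ⟨Cf, hCf⟩ : ∃ Cf : ℝ, Cf = Real.exp Real.pi * (((J * m : ℕ) : ℝ) + 1) *
      (2 + ((J * m : ℕ) : ℝ) * (3 * Real.exp 1 * E ^ 2 + (C + 4 * E))) := ⟨_, rfl⟩
  refine ⟨κ, hκ, hκ2, ?_⟩
  rw [← Filter.eventually_atTop]
  filter_upwards [eventually_ge_atTop N1, eventually_ge_atTop N2, eventually_ge_atTop N3,
    eventually_ge_atTop N4, eventually_ge_atTop 64, ev_log' 4, ev_log' Cf,
    ev_logpow' 1 (by norm_num : (0 : ℝ) < 1 / 2), ev_rpow' 4 hη₀,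
    ev_rpow' 2 (by positivity : 0 < e0 / 2)]
    with X hX1 hX2 hX3 hX4 hX64 hl4 hlC hlX hzX hhalf
  have hX64r : (64 : ℝ) ≤ X := by exact_mod_cast hX64
  have hX0 : (0 : ℝ) < X := by linarith only [hX64r]
  have hXg1 : (1 : ℝ) < X := by linarith only [hX64r]
  have hL0 : 0 < Real.log X := by linarith only [hl4]
  have hXle : ∀ s t : ℝ, s ≤ t → (X : ℝ) ^ s ≤ (X : ℝ) ^ t := fun s t hst =>
    Real.rpow_le_rpow_of_exponent_le hXg1.le hst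
  -- the sieve for small primes
  have hPr : ∀ p ∈ Pr X ε₁, p.Prime := fun p hp => (Finset.mem_filter.1 hp).2
  have hPry : ∀ p ∈ Pr X ε₁, (p : ℝ) ≤ (X : ℝ) ^ ε₁ := by
    intro p hp
    have := (Finset.mem_Icc.1 (Finset.mem_filter.1 hp).1).2
    exact (Nat.le_floor_iff (by positivity)).1 this
  obtain ⟨z, hz⟩ : ∃ z : ℕ, z = ⌊(X : ℝ) ^ η₀⌋₊ := ⟨_, rfl⟩
  have hz1 : 1 ≤ z := by
    rw [hz]
    exact Nat.le_floor (by rw [Nat.cast_one]; linarith only [hzX])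
  have hzle : (z : ℝ) ≤ (X : ℝ) ^ η₀ := by rw [hz]; exact Nat.floor_le (by positivity)
  obtain ⟨cA, a1, a2, -, a4, a5, a6⟩ := Pool.Agent.W356.UBSel.main (Pr X ε₁) z hz1 hPr
  obtain ⟨D, hDz⟩ : ∃ D : ℕ, D = z ^ 2 := ⟨_, rfl⟩
  rw [← hDz] at a1 a2 a5 a6
  have hD1 : 1 ≤ D := by rw [hDz]; exact Nat.one_le_pow _ _ hz1
  have hD1r : (1 : ℝ) ≤ D := by exact_mod_cast hD1
  have hDle : (D : ℝ) ≤ (X : ℝ) ^ (2 * η₀) := by
    rw [hDz, two_mul, Real.rpow_add hX0]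
    push_cast
    rw [pow_two]
    exact mul_le_mul hzle hzle (Nat.cast_nonneg _) (by positivity)
  have hDpow : ∀ j : ℕ, (D : ℝ) ^ j ≤ (X : ℝ) ^ ((j : ℝ) * (2 * η₀)) := by
    intro j
    rw [mul_comm, Real.rpow_mul hX0.le, Real.rpow_natCast]
    exact pow_le_pow_left₀ (by positivity) hDle j
  obtain ⟨hG0, hG1⟩ := hN1 X hX1
  rw [← hz] at hG0 hG1
  have hwk : ∀ d, |cA d| ≤ wk 3 d := by
    intro d
    by_cases h0 : cA d = 0
    · rw [h0, abs_zero]; exact wk_nonneg 3 d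
    · have h1 := a5 d h0
      unfold Pool.Agent.W25.UB.sq at h1
      have h2 := (Finset.mem_filter.1 h1).2.1
      unfold wk
      rw [if_pos h2]
      exact_mod_cast a4 d
  have hcP : ∀ d, cA d ≠ 0 → ∀ p : ℕ, p.Prime → p ∣ d → p ∈ Pr X ε₁ := by
    intro d h0
    have h1 := a5 d h0
    unfold Pool.Agent.W25.UB.sq at h1
    exact (Finset.mem_filter.1 h1).2.2
  -- the linear sieve
  obtain ⟨Z, hZ⟩ : ∃ Z : ℕ, Z = ⌊(X : ℝ) ^ θ⌋₊ := ⟨_, rfl⟩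
  obtain ⟨b, -, b2, b3, b4, b5, b6, b7⟩ := hN2 X hX2 ∅ (by
    rw [Finset.card_empty, Nat.cast_zero]; positivity) Z hZ
  have hDg : Dg X (κ₀ / m) (J * m) = Z := by
    unfold Dg
    rw [hnb, hZ]
  obtain ⟨β, hβ⟩ : ∃ β : ℝ, β = ∑ d ∈ Icc 1 Z, b d / (d : ℝ) := ⟨_, rfl⟩
  rw [← hβ] at b6 b7
  have hθp : 0 < θ := by linarith only [hθ51]
  have hβ1 : β ≤ 1 := beta_le hδ.le hδ1 hθ51 hε₁ hε₁b b7
  obtain ⟨VA, hVA⟩ : ∃ VA : ℝ, VA = 1 / GG (Pr X ε₁) z := ⟨_, rfl⟩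
  rw [← hVA] at a6 hG1
  have hVA0 : 0 ≤ VA := by rw [hVA]; positivity
  -- the majorant
  refine ⟨fun m => ds cA D m * ds b Z m, VA * β, fun m => mul_nonneg (a1 m) (b4 m), ?_,
    mul_nonneg hVA0 b6, dens hδ hδ1 hδδ hθp hε₁ hL0 h2θ b6 hG1 b7, ?_⟩
  · intro p hp hpX
    have h1 : ds cA D (p : ℤ) = 1 := by
      apply a2
      intro q hq hqp
      have h2 := (Nat.prime_dvd_prime_iff_eq (hPr q hq) hp).1 (Int.natCast_dvd_natCast.1 hqp)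
      have h3 := hPry q hq
      rw [h2] at h3
      have := hXle ε₁ (3 / 5) (by linarith only [hε₁b])
      linarith only [this, h3, hpX]
    have h2 : ds b Z (p : ℤ) = 1 := by
      apply b5
      intro q hq _ hq2 _ hqp
      have h2 := (Nat.prime_dvd_prime_iff_eq hq hp).1 (Int.natCast_dvd_natCast.1 hqp)
      rw [h2] at hq2
      have := hXle θ (3 / 5) (by linarith only [hθ59])
      linarith only [this, hq2, hpX]
    show ds cA D (p : ℤ) * ds b Z (p : ℤ) = 1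
    rw [h1, h2, one_mul]
  · -- the variance
    intro H hH1 hHκ
    have hHε : (H : ℝ) ≤ (X : ℝ) ^ ε₁ := hHκ.trans (hXle _ _ hκ3)
    have hH25 : (H : ℝ) ≤ (X : ℝ) ^ (2 / 5 : ℝ) := hHκ.trans (hXle _ _ hκ2)
    have hX12 : (8 : ℝ) ≤ (X : ℝ) ^ (1 / 2 : ℝ) := by
      have e : (8 : ℝ) = (64 : ℝ) ^ (1 / 2 : ℝ) := by
        rw [← Real.sqrt_eq_rpow, show (64 : ℝ) = 8 ^ 2 by norm_num, Real.sqrt_sq (by norm_num)]
      rw [e]
      exact Real.rpow_le_rpow (by norm_num) hX64r (by norm_num)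
    have hXh : (X : ℝ) ^ (1 / 2 : ℝ) * (X : ℝ) ^ (1 / 2 : ℝ) = X := by
      rw [← Real.rpow_add hX0]
      norm_num
    have hH12 : (H : ℝ) ≤ X - (X : ℝ) ^ (1 / 2 : ℝ) := by
      have h1 : (H : ℝ) ≤ (X : ℝ) ^ (1 / 2 : ℝ) := hH25.trans (hXle _ _ (by norm_num))
      have h2 : 2 * (X : ℝ) ^ (1 / 2 : ℝ) ≤ (X : ℝ) ^ (1 / 2 : ℝ) * (X : ℝ) ^ (1 / 2 : ℝ) := by
        apply mul_le_mul_of_nonneg_right _ (by positivity)
        linarith only [hX12]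
      rw [hXh] at h2
      linarith only [h1, h2]
    have hHX : (H : ℝ) ≤ X := by
      have : 0 < (X : ℝ) ^ (1 / 2 : ℝ) := by positivity
      linarith only [this, hH12]
    obtain ⟨hXX1, hcl⟩ := hN4 X hX4
    obtain ⟨-, hcl2⟩ := hN4 (2 * X) (by omega)
    have hlX' : Real.log X ≤ (X : ℝ) ^ (1 / 2 : ℝ) := by rwa [pow_one] at hlX
    have hD2 : (D : ℝ) ^ 2 ≤ (X : ℝ) ^ (1 / 2 : ℝ) := by
      refine (hDpow 2).trans (hXle _ _ ?_)
      push_cast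
      linarith only [hη₀1, he0']
    have hDl : (D : ℝ) ^ 2 * Real.log X ≤ X := by
      calc (D : ℝ) ^ 2 * Real.log X ≤ (X : ℝ) ^ (1 / 2 : ℝ) * (X : ℝ) ^ (1 / 2 : ℝ) :=
            mul_le_mul hD2 hlX' hL0.le (by positivity)
        _ = X := hXh
    have hc2X : ((2 * X : ℕ) : ℝ) = 2 * X := by push_cast; ring
    have hDl2 : (D : ℝ) ^ 2 * Real.log (2 * X : ℕ) ≤ (2 * X : ℕ) := by
      rw [hc2X, Real.log_mul (by norm_num) hX0.ne']
      have h1 : Real.log 2 ≤ Real.log X := Real.log_le_log (by norm_num) (by linarith only [hX64r])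
      have h2 : 0 ≤ (D : ℝ) ^ 2 := by positivity
      have h3 := mul_le_mul_of_nonneg_left h1 h2
      linarith only [h3, hDl]
    have hD6 : (D : ℝ) ^ 6 ≤ (X : ℝ) ^ η := by
      refine (hDpow 6).trans (hXle _ _ ?_)
      push_cast
      linarith only [hη₀2]
    have hD6X : (D : ℝ) ^ 6 ≤ X := by
      refine hD6.trans ?_
      have := hXle η 1 (by linarith only [hη'])
      rwa [Real.rpow_one] at this
    have hD2e : (D : ℝ) ^ 2 ≤ (X : ℝ) ^ (e0 / 8) := by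
      refine (hDpow 2).trans (hXle _ _ ?_)
      push_cast
      linarith only [hη₀1]
    have hlogD : 1 + Real.log D ≤ Real.log X := by
      have h1 : Real.log D ≤ 2 * η₀ * Real.log X := by
        rw [← Real.log_rpow hX0]
        exact Real.log_le_log (by linarith only [hD1r]) hDle
      have h2 : 2 * η₀ * Real.log X ≤ 1 / 2 * Real.log X :=
        mul_le_mul_of_nonneg_right (by linarith only [hη₀1, he0']) hL0.le
      linarith only [h1, h2, hl4]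
    have hlogD0 : 0 ≤ 1 + Real.log D := by
      have := Real.log_nonneg hD1r
      linarith only [this]
    obtain ⟨K, hK⟩ : ∃ K : ℝ, K = (Real.log X) ^ 15 := ⟨_, rfl⟩
    have hK1 : 1 ≤ K := by rw [hK]; exact one_le_pow₀ (by linarith only [hl4])
    have hKD : (1 + Real.log D) ^ 15 ≤ K := by
      rw [hK]
      exact pow_le_pow_left₀ hlogD0 hlogD 15
    have hVarA : Gs X (fun n => (∑ h ∈ Icc 1 H, dc cA D (n + (h : ℕ))) ^ 2) ≤ 2 * (X * H * K) :=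
      (var_A hXX1 hD1 hcl hDl cA hwk H).trans (varA_num hX64 hHX hK1 hKD hD6X)
    have hblk : ∀ i < J * m, Gs X (fun n => (∑ h ∈ Icc 1 H,
        at0 cA (cbk b X (κ₀ / m) i) D (Dg X (κ₀ / m) (i + 1)) (n + (h : ℕ))) ^ 2) ≤
        (3 * Real.exp 1 * E ^ 2 + (C + 4 * E)) * (X * H * K) := by
      intro i hi
      obtain ⟨k1, k2, k3, k4, k5, k6, k7, k8⟩ := cbk_ok (X := X) (by omega) (θ := θ) (δ := δf)
        hn₀1 hκ₀ hm1 (by linarith only [hθ51]) hδf0 hδf1 hδf2 hκδ (y := (X : ℝ) ^ ε₁)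
        (Cl := (∅ : Finset ℕ)) b2 (fun d hd => by
          obtain ⟨s1, s2, s3, s4, s5⟩ := b3 d hd
          exact ⟨s1, s3, s4, s5⟩) i hi hnb.le
      have hiJ : i / m < J := Nat.div_lt_of_lt_mul (by rw [mul_comm]; exact hi)
      have hZD := Dg_ratio (i := i) (by omega : 1 < X) hsm hhalf k4
      have hZX : Dg X (κ₀ / m) (i + 1) ≤ X := by
        have h3 : ((Dg X (κ₀ / m) (i + 1) : ℕ) : ℝ) ≤ X := by
          refine k2.trans ?_
          have := hXle θ 1 (by linarith only [hθ59])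
          rwa [Real.rpow_one] at this
        exact_mod_cast h3
      refine blk_var (hTR (i / m) hiJ) hX64 k3 k4 k2 (by linarith only [hη', hθ59]) hE0 hC hZD hPry
        hD1 hwk hcP hK1 hKD hD2e hD6 hD6X k6 k5 k8 hHε hκ1 hHκ hH25 hH12 hHX hcl2 hDl2 ?_
      intro u n hu hnu
      have h3 := hN3 X (Dg X (κ₀ / m) (i + 1)) hX3 hZX (cbk b X (κ₀ / m) i) k1 k7 1 u n
        (by norm_num) (by push_cast; linarith only [hu, hX0]) (by rwa [one_mul])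
      rw [one_mul] at h3
      rw [hE]
      exact h3
    have hS := total (S := fun n : ℕ => (∑ h ∈ Icc 1 H, ds cA D ((n : ℤ) + (h : ℕ)) *
      ds b Z ((n : ℤ) + (h : ℕ)) - H * (VA * β)) ^ 2) hXX1 hVarA hblk
      (fun n => ptwise hXX1 hsp.le hDg hβ a6 b6 hβ1 n)
    refine hS.trans ?_
    have hK0 : 0 < K := by linarith only [hK1]
    calc Real.exp Real.pi * (((J * m : ℕ) + 1) * (2 * (X * H * K) +
          (J * m : ℕ) * ((3 * Real.exp 1 * E ^ 2 + (C + 4 * E)) * (X * H * K)))) =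
        Cf * (X * H * K) := by
          rw [hCf]
          ring
      _ ≤ Real.log X * (X * H * K) := mul_le_mul_of_nonneg_right hlC (by positivity)
      _ = X * H * (Real.log X) ^ 16 := by rw [hK]; ring
      _ ≤ X * H * (Real.log X) ^ 17 := by
          apply mul_le_mul_of_nonneg_left _ (by positivity)
          exact pow_le_pow_right₀ (by linarith only [hl4]) (by norm_num)

end Pool.Agent.R516
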