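import Mathlib
import Pool.Agent.R516.Box

/-! Prime tuples in boxes: vectors with equal entries are negligible. -/

set_option autoImplicit false

namespace Pool.Agent.R516

open Finset Filter Topology

open Classical in
/-- the number of `(n, a)` with `n ∈ S`, distinct `a l` and `v l < a l ≤ w l`, for which all
`n + a l` are prime -/
noncomputable def tuplesD (S : Finset ℕ) {j : ℕ} (v w : Fin j → ℕ) : ℕ :=
  ∑ a ∈ (Fintype.piFinset (fun l => Ioc (v l) (w l))).filter (fun a => Function.Injective a),
    (S.filter (fun n => ∀ l, (n + a l).Prime)).card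

/-- the shifts in an interval -/
def Sh (n v w : ℕ) : Finset ℕ := (Ioc v w).filter (fun h => (n + h).Prime)

theorem Sh_card (n v w : ℕ) : ((Sh n v w).card : ℝ) = pcn (n + v) (n + w) := by
  classical
  rw [pcn_shift, Finset.sum_boole]
  rfl

open Classical in
theorem swap_gen (S : Finset ℕ) {j : ℕ} (v w : Fin j → ℕ) (P : (Fin j → ℕ) → Prop) :
    ∑ a ∈ (Fintype.piFinset (fun l => Ioc (v l) (w l))).filter P,
      ((S.filter (fun n => ∀ l, (n + a l).Prime)).card : ℝ) =
    ∑ n ∈ S, (((Fintype.piFinset (fun l => Sh n (v l) (w l))).filter P).card : ℝ) := by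
  have e1 : ∀ a ∈ (Fintype.piFinset (fun l => Ioc (v l) (w l))).filter P,
      ((S.filter (fun n => ∀ l, (n + a l).Prime)).card : ℝ) =
      ∑ n ∈ S, (if ∀ l, (n + a l).Prime then (1 : ℝ) else 0) := by
    intro a _
    rw [Finset.sum_boole]
  rw [Finset.sum_congr rfl e1, Finset.sum_comm]
  refine Finset.sum_congr rfl fun n _ => ?_
  rw [Finset.sum_boole, Finset.filter_filter]
  congr 2
  ext a
  simp only [Finset.mem_filter, Fintype.mem_piFinset, Finset.mem_Ioc, Sh]
  constructor
  · rintro ⟨h1, h2, h3⟩
    exact ⟨fun l => ⟨h1 l, h3 l⟩, h2⟩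
  · rintro ⟨h1, h2⟩
    exact ⟨fun l => (h1 l).1, h2, fun l => (h1 l).2⟩

open Classical in
theorem pair_card {j : ℕ} (S : Fin j → Finset ℕ) (p q : Fin j) (hpq : p ≠ q) :
    (((Fintype.piFinset S).filter (fun a => a p = a q)).card : ℝ) ≤
      ∏ i, (if i = q then (1 : ℝ) else (S i).card) := by
  have h1 : ((Fintype.piFinset S).filter (fun a => a p = a q)).card ≤
      (Fintype.piFinset (Function.update S q {0})).card := by
    refine Finset.card_le_card_of_injOn (fun a => Function.update a q 0) ?_ ?_
    · intro a ha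
      rw [Finset.mem_coe, Finset.mem_filter, Fintype.mem_piFinset] at ha
      rw [Finset.mem_coe, Fintype.mem_piFinset]
      intro i
      by_cases hi : i = q
      · subst hi
        simp
      · simp only [Function.update_of_ne hi]
        exact ha.1 i
    · intro a ha b hb hab
      rw [Finset.mem_coe, Finset.mem_filter] at ha hb
      have hab' : Function.update a q 0 = Function.update b q 0 := hab
      funext i
      by_cases hi : i = q
      · subst hi
        have h3 := congrFun hab' p
        simp only [Function.update_of_ne hpq] at h3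
        rw [← ha.2, ← hb.2, h3]
      · have h3 := congrFun hab' i
        simp only [Function.update_of_ne hi] at h3
        exact h3
  have h2 : ((Fintype.piFinset (Function.update S q {0})).card : ℝ) =
      ∏ i, (if i = q then (1 : ℝ) else (S i).card) := by
    rw [Fintype.card_piFinset]
    push_cast
    refine Finset.prod_congr rfl fun i _ => ?_
    by_cases hi : i = q
    · subst hi
      simp
    · rw [if_neg hi, Function.update_of_ne hi]
  rw [← h2]
  exact_mod_cast h1

open Classical in
theorem noninj_card {j : ℕ} (S : Fin j → Finset ℕ) :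
    ((Fintype.piFinset S).card : ℝ) -
      ((Fintype.piFinset S).filter (fun a => Function.Injective a)).card ≤
      ∑ x : Fin j × Fin j, (if x.1 ≠ x.2 then ∏ i, (if i = x.2 then (1 : ℝ) else (S i).card) else 0) := by
  have h1 := Finset.card_filter_add_card_filter_not (s := Fintype.piFinset S)
    (fun a => Function.Injective a)
  have h2 : (Fintype.piFinset S).filter (fun a => ¬ Function.Injective a) ⊆
      (univ : Finset (Fin j × Fin j)).biUnion (fun x => if x.1 ≠ x.2 then
        (Fintype.piFinset S).filter (fun a => a x.1 = a x.2) else ∅) := by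
    intro a ha
    rw [Finset.mem_filter] at ha
    obtain ⟨h3, h4⟩ := ha
    unfold Function.Injective at h4
    push Not at h4
    obtain ⟨p, q, h5, h6⟩ := h4
    rw [Finset.mem_biUnion]
    refine ⟨(p, q), Finset.mem_univ _, ?_⟩
    rw [if_pos h6, Finset.mem_filter]
    exact ⟨h3, h5⟩
  have h3 := (Finset.card_le_card h2).trans Finset.card_biUnion_le
  have h4 : ((Fintype.piFinset S).card : ℝ) =
      ((Fintype.piFinset S).filter (fun a => Function.Injective a)).card +
        ((Fintype.piFinset S).filter (fun a => ¬ Function.Injective a)).card := by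
    exact_mod_cast h1.symm
  rw [h4, add_sub_cancel_left]
  have h5 : (((Fintype.piFinset S).filter (fun a => ¬ Function.Injective a)).card : ℝ) ≤
      ∑ x : Fin j × Fin j, (((if x.1 ≠ x.2 then
        (Fintype.piFinset S).filter (fun a => a x.1 = a x.2) else ∅) : Finset (Fin j → ℕ)).card : ℝ) := by
    exact_mod_cast h3
  refine h5.trans (Finset.sum_le_sum fun x _ => ?_)
  by_cases hx : x.1 ≠ x.2
  · rw [if_pos hx, if_pos hx]
    exact pair_card S x.1 x.2 hx
  · rw [if_neg hx, if_neg hx]
    simp

theorem prod_ub {j k : ℕ} (hjk : j ≤ k) (q : Fin j) (y : Fin j → ℝ) (B D : ℝ) (hB : 1 ≤ B)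
    (hD : 0 ≤ D) (hy0 : ∀ i, 0 ≤ y i) (hyq : y q ≤ D) (hy : ∀ i, i ≠ q → y i ≤ B) :
    ∏ i, y i ≤ D * B ^ k := by
  have h1 : ∀ i ∈ (univ : Finset (Fin j)), y i ≤ B * (if i = q then D else 1) := by
    intro i _
    by_cases hi : i = q
    · rw [if_pos hi, hi]
      nlinarith
    · rw [if_neg hi, mul_one]
      exact hy i hi
  refine (Finset.prod_le_prod (fun i _ => hy0 i) h1).trans ?_
  rw [Finset.prod_mul_distrib, Finset.prod_const, Finset.card_univ, Fintype.card_fin,
    Finset.prod_ite_eq' univ q, if_pos (Finset.mem_univ q), mul_comm]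
  exact mul_le_mul_of_nonneg_left (pow_le_pow_right₀ hB hjk) hD

open Classical in
theorem dist_main {k M N j : ℕ} (hjk : j ≤ k) {A A' H0 c C : ℝ} (hN : 2 ≤ N)
    (hL1 : 1 ≤ Real.log N) (hA : 1 ≤ A) (hA' : A' ≤ N) (hH : H0 ≤ A)
    (hc : 0 ≤ c) (hC1 : 1 ≤ C) (hMC : 2 * c * M ≤ C)
    (v w : Fin j → ℕ) (hvw : ∀ l, Adm M A A' (v l) (w l)) (S : Finset ℕ) (hS : S ⊆ range N) :
    0 ≤ ((tuples S v w : ℝ) - tuplesD S v w) / (N * ∏ l, (((w l : ℝ) - v l) / Real.log N)) ∧
    ((tuples S v w : ℝ) - tuplesD S v w) / (N * ∏ l, (((w l : ℝ) - v l) / Real.log N)) ≤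
      (k : ℝ) ^ 2 * ((M * Real.log N / A) * (C ^ k +
        ((((Icc 1 (2 * N)).filter (fun n => n ∈ Hi (2 * N) H0
          (c / Real.log ((2 * N : ℕ) : ℝ)))).card : ℝ) + 1) / N * Real.log N ^ k)) := by
  have hN0 : (0 : ℝ) < N := by
    have : (2 : ℝ) ≤ N := by exact_mod_cast hN
    linarith
  have hL0 : 0 < Real.log N := by linarith
  have hC0 : 0 ≤ C := by linarith
  have hM0 : (0 : ℝ) ≤ M := Nat.cast_nonneg M
  have hA0 : 0 < A := by linarith
  set HH := (Icc 1 (2 * N)).filter (fun n => n ∈ Hi (2 * N) H0
          (c / Real.log ((2 * N : ℕ) : ℝ))) with hHH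
  have hDpos : ∀ l, 0 < ((w l : ℝ) - v l) / Real.log N := fun l =>
    div_pos (adm_pos hA (hvw l)).1 hL0
  have hPpos : 0 < ∏ l, (((w l : ℝ) - v l) / Real.log N) := Finset.prod_pos fun l _ => hDpos l
  have hden : 0 < (N : ℝ) * ∏ l, (((w l : ℝ) - v l) / Real.log N) := mul_pos hN0 hPpos
  have hk0 : (0 : ℝ) ≤ k := Nat.cast_nonneg k
  have e1 : (tuples S v w : ℝ) = ∑ n ∈ S,
      ((Fintype.piFinset (fun l => Sh n (v l) (w l))).card : ℝ) := by
    have := swap_gen S v w (fun _ => True)
    simp only [Finset.filter_true] at this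
    rw [← this]
    unfold tuples
    push_cast
    rfl
  have e2 : (tuplesD S v w : ℝ) = ∑ n ∈ S,
      (((Fintype.piFinset (fun l => Sh n (v l) (w l))).filter
        (fun a => Function.Injective a)).card : ℝ) := by
    have h := swap_gen S v w (fun a => Function.Injective a)
    unfold tuplesD
    push_cast
    convert h
  have e3 : (tuples S v w : ℝ) - tuplesD S v w = ∑ n ∈ S,
      (((Fintype.piFinset (fun l => Sh n (v l) (w l))).card : ℝ) -
        ((Fintype.piFinset (fun l => Sh n (v l) (w l))).filter
          (fun a => Function.Injective a)).card) := by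
    rw [e1, e2, Finset.sum_sub_distrib]
  constructor
  · apply div_nonneg _ hden.le
    rw [e3]
    refine Finset.sum_nonneg fun n _ => sub_nonneg.2 ?_
    exact_mod_cast Finset.card_filter_le _ _
  -- the bound for one `n` and one pair
  have hone : ∀ n ∈ range N, ∀ q : Fin j,
      (∏ i, (if i = q then (1 : ℝ) else ((Sh n (v i) (w i)).card : ℝ))) ≤
      (∏ l, (((w l : ℝ) - v l) / Real.log N)) * ((M * Real.log N / A) *
        (C ^ k + (if n ∈ insert 0 HH then Real.log N ^ k else 0))) := by
    intro n hn q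
    have hnN : n < N := Finset.mem_range.1 hn
    have e4 : (∏ i, (if i = q then (1 : ℝ) else ((Sh n (v i) (w i)).card : ℝ))) =
        (∏ l, (((w l : ℝ) - v l) / Real.log N)) *
          ∏ i, (if i = q then Real.log N / ((w i : ℝ) - v i) else xl N n (v i) (w i)) := by
      rw [← Finset.prod_mul_distrib]
      refine Finset.prod_congr rfl fun i _ => ?_
      have := (adm_pos hA (hvw i)).1
      by_cases hi : i = q
      · rw [if_pos hi, if_pos hi]
        field_simp
      · rw [if_neg hi, if_neg hi, Sh_card]
        unfold xl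
        field_simp
    rw [e4]
    apply mul_le_mul_of_nonneg_left _ hPpos.le
    have hq := hvw q
    have hq1 := (adm_pos hA hq).1
    have hqD : Real.log N / ((w q : ℝ) - v q) ≤ M * Real.log N / A := by
      rw [div_le_div_iff₀ hq1 hA0]
      obtain ⟨-, a2, -, a4⟩ := hq
      have : A ≤ M * ((w q : ℝ) - v q) := a2.trans a4
      nlinarith
    have hD0 : 0 ≤ M * Real.log N / A := by positivity
    have hy0 : ∀ i, 0 ≤ (if i = q then Real.log N / ((w i : ℝ) - v i) else xl N n (v i) (w i)) := by
      intro i
      by_cases hi : i = q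
      · rw [if_pos hi]
        exact div_nonneg hL0.le (adm_pos hA (hvw i)).1.le
      · rw [if_neg hi]
        exact (xl_triv hA (hvw i)).1
    by_cases h1 : n ∈ insert 0 HH
    · rw [if_pos h1]
      have h2 := prod_ub hjk q (fun i => if i = q then Real.log N / ((w i : ℝ) - v i) else
        xl N n (v i) (w i)) (Real.log N) (M * Real.log N / A) hL1 hD0 hy0
        (by rw [if_pos rfl]; exact hqD)
        (fun i hi => by rw [if_neg hi]; exact (xl_triv hA (hvw i)).2)
      refine h2.trans (mul_le_mul_of_nonneg_left ?_ hD0)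
      have := pow_nonneg hC0 k
      linarith
    · rw [if_neg h1, add_zero]
      rw [Finset.mem_insert, not_or] at h1
      have hn1 : 1 ≤ n := Nat.one_le_iff_ne_zero.2 h1.1
      have hnHi : n ∉ Hi (2 * N) H0 (c / Real.log ((2 * N : ℕ) : ℝ)) := by
        intro h
        exact h1.2 (Finset.mem_filter.2 ⟨Finset.mem_Icc.2 ⟨hn1, by omega⟩, h⟩)
      exact prod_ub hjk q (fun i => if i = q then Real.log N / ((w i : ℝ) - v i) else
        xl N n (v i) (w i)) C (M * Real.log N / A) hC1 hD0 hy0
        (by rw [if_pos rfl]; exact hqD)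
        (fun i hi => by
          rw [if_neg hi]
          exact (xl_hi hA (hvw i) hN hc hn1 hnN hA' hnHi hH).trans hMC)
  rw [div_le_iff₀ hden, e3]
  have hD0 : 0 ≤ M * Real.log N / A := by positivity
  have hn2 : ∀ n ∈ range N, (((Fintype.piFinset (fun l => Sh n (v l) (w l))).card : ℝ) -
        ((Fintype.piFinset (fun l => Sh n (v l) (w l))).filter
          (fun a => Function.Injective a)).card) ≤
      (k : ℝ) ^ 2 * ((∏ l, (((w l : ℝ) - v l) / Real.log N)) * ((M * Real.log N / A) *
        (C ^ k + (if n ∈ insert 0 HH then Real.log N ^ k else 0)))) := by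
    intro n hn
    refine (noninj_card _).trans ?_
    have hX : 0 ≤ (∏ l, (((w l : ℝ) - v l) / Real.log N)) * ((M * Real.log N / A) *
        (C ^ k + (if n ∈ insert 0 HH then Real.log N ^ k else 0))) := by
      have : 0 ≤ (if n ∈ insert 0 HH then Real.log N ^ k else 0) := by split_ifs <;> positivity
      positivity
    calc ∑ x : Fin j × Fin j, (if x.1 ≠ x.2 then ∏ i, (if i = x.2 then (1 : ℝ) else
          ((Sh n (v i) (w i)).card : ℝ)) else 0)
        ≤ ∑ _x : Fin j × Fin j, ((∏ l, (((w l : ℝ) - v l) / Real.log N)) *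
          ((M * Real.log N / A) * (C ^ k + (if n ∈ insert 0 HH then Real.log N ^ k else 0)))) := by
          refine Finset.sum_le_sum fun x _ => ?_
          by_cases hx : x.1 ≠ x.2
          · rw [if_pos hx]
            exact hone n hn x.2
          · rw [if_neg hx]
            exact hX
      _ = (j : ℝ) ^ 2 * ((∏ l, (((w l : ℝ) - v l) / Real.log N)) *
          ((M * Real.log N / A) * (C ^ k + (if n ∈ insert 0 HH then Real.log N ^ k else 0)))) := by
          rw [Finset.sum_const, Finset.card_univ, Fintype.card_prod, Fintype.card_fin, nsmul_eq_mul]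
          push_cast
          ring
      _ ≤ _ := by
          apply mul_le_mul_of_nonneg_right _ hX
          have : (j : ℝ) ≤ k := by exact_mod_cast hjk
          exact pow_le_pow_left₀ (Nat.cast_nonneg j) this 2
  refine (Finset.sum_le_sum_of_subset_of_nonneg hS (fun n _ _ => sub_nonneg.2 (by
    exact_mod_cast Finset.card_filter_le _ _))).trans ?_
  refine (Finset.sum_le_sum hn2).trans ?_
  rw [← Finset.mul_sum, ← Finset.mul_sum, ← Finset.mul_sum, Finset.sum_add_distrib,
    Finset.sum_const, Finset.card_range, nsmul_eq_mul]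
  have s3 : ∑ n ∈ range N, (if n ∈ insert 0 HH then Real.log N ^ k else 0) ≤
      ((HH.card : ℝ) + 1) * Real.log N ^ k := by
    rw [← Finset.sum_filter, Finset.sum_const, nsmul_eq_mul]
    apply mul_le_mul_of_nonneg_right _ (by positivity)
    have h1 : ((range N).filter (fun n => n ∈ insert 0 HH)).card ≤ (insert 0 HH).card :=
      Finset.card_le_card fun n hn => (Finset.mem_filter.1 hn).2
    have h2 := Finset.card_insert_le 0 HH
    exact_mod_cast h1.trans h2
  calc (k : ℝ) ^ 2 * ((∏ l, (((w l : ℝ) - v l) / Real.log N)) * ((M * Real.log N / A) *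
        (N * C ^ k + ∑ n ∈ range N, (if n ∈ insert 0 HH then Real.log N ^ k else 0))))
      ≤ (k : ℝ) ^ 2 * ((∏ l, (((w l : ℝ) - v l) / Real.log N)) * ((M * Real.log N / A) *
        (N * C ^ k + ((HH.card : ℝ) + 1) * Real.log N ^ k))) := by
        apply mul_le_mul_of_nonneg_left _ (by positivity)
        apply mul_le_mul_of_nonneg_left _ hPpos.le
        apply mul_le_mul_of_nonneg_left _ hD0
        linarith
    _ = _ := by
        field_simp

end Pool.Agent.R516
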