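import Mathlib
import Pool.Agent.R516.Dst

/-! The average form of the prime tuples conjecture in boxes, up to the moments of a local
density. -/

set_option autoImplicit false

namespace Pool.Agent.R516

open Finset Filter Topology
open Pool.Agent.H357R2.SI (pc pc_add pc_zero pc_eq_sub pc_mono pc_anti piS piS_nat)
open Pool.Agent.W123.FS (badset)

open Classical in
/-- the exceptional integers are negligible -/
theorem exc_small {k N : ℕ} {C η κ : ℝ} (hη : 0 < η) (hC : 1 ≤ C) (hN : 2 ≤ N)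
    (hL : max C (2 ^ 22 * 32 / η + 1) ≤ Real.log N) (hlp : Real.log N ^ (k + 3) ≤ N)
    (hHκ : Real.log N ^ (k + 23) ≤ ((2 * N : ℕ) : ℝ) ^ κ) (c : ℝ)
    (hU : ∀ H : ℝ, 1 ≤ H → H ≤ ((2 * N : ℕ) : ℝ) ^ κ →
      ((((Icc 1 (2 * N)).filter (fun n => n ∈ Hi (2 * N) H c)).card : ℝ)) ≤
        ((2 * N : ℕ) : ℝ) * Real.log ((2 * N : ℕ) : ℝ) ^ 20 / H) :
    ((((Icc 1 (2 * N)).filter (fun n => n ∈ Hi (2 * N) (Real.log N ^ (k + 23)) c)).card : ℝ) + 1) /
      N * (Real.log N ^ (k + 1) + C ^ (k + 1)) ≤ η / 8 := by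
  have hN2 : (2 : ℝ) ≤ N := by exact_mod_cast hN
  have hN0 : (0 : ℝ) < N := by linarith
  obtain ⟨L, hLd⟩ : ∃ L, L = Real.log N := ⟨_, rfl⟩
  rw [← hLd] at hL hlp hHκ ⊢
  have hCL : C ≤ L := (le_max_left _ _).trans hL
  have hηL : 2 ^ 22 * 32 / η + 1 ≤ L := (le_max_right _ _).trans hL
  have h0 : 0 < 2 ^ 22 * 32 / η := by positivity
  have hL1 : 1 < L := by linarith
  have hL0 : 0 < L := by linarith
  have hH1 : 1 ≤ L ^ (k + 23) := one_le_pow₀ hL1.le
  have h1 := hU _ hH1 hHκ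
  obtain ⟨E, hE⟩ : ∃ E : ℝ, E = (((Icc 1 (2 * N)).filter (fun n =>
    n ∈ Hi (2 * N) (L ^ (k + 23)) c)).card : ℝ) := ⟨_, rfl⟩
  rw [← hE] at h1 ⊢
  have hlog : Real.log ((2 * N : ℕ) : ℝ) ≤ 2 * L := by
    push_cast
    rw [Real.log_mul (by norm_num) hN0.ne', ← hLd]
    have h2 := Real.log_two_lt_d9
    linarith
  have hlog0 : 0 ≤ Real.log ((2 * N : ℕ) : ℝ) := Real.log_natCast_nonneg _
  have h2 : E ≤ 2 ^ 21 * N / L ^ (k + 3) := by
    refine h1.trans ?_
    have h3 : Real.log ((2 * N : ℕ) : ℝ) ^ 20 ≤ (2 * L) ^ 20 := pow_le_pow_left₀ hlog0 hlog 20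
    have h4 : ((2 * N : ℕ) : ℝ) * Real.log ((2 * N : ℕ) : ℝ) ^ 20 / L ^ (k + 23) ≤
        (2 * N : ℝ) * (2 * L) ^ 20 / L ^ (k + 23) := by
      push_cast at h3 ⊢
      gcongr
    refine h4.trans (le_of_eq ?_)
    rw [show k + 23 = (k + 3) + 20 by ring, pow_add L (k + 3) 20]
    field_simp
  have h3 : C ^ (k + 1) ≤ L ^ (k + 1) := pow_le_pow_left₀ (by linarith) hCL _
  have h4 : (E + 1) / N ≤ 2 ^ 22 / L ^ (k + 3) := by
    rw [div_le_iff₀ hN0]
    have h5 : 1 ≤ N / L ^ (k + 3) := by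
      rw [le_div_iff₀ (by positivity)]
      linarith
    calc E + 1 ≤ 2 ^ 21 * N / L ^ (k + 3) + N / L ^ (k + 3) := add_le_add h2 h5
      _ = (2 ^ 21 + 1) * (N / L ^ (k + 3)) := by ring
      _ ≤ 2 ^ 22 * (N / L ^ (k + 3)) := by
          apply mul_le_mul_of_nonneg_right (by norm_num) (by positivity)
      _ = 2 ^ 22 / L ^ (k + 3) * N := by ring
  have hEn : 0 ≤ (E + 1) / N := by
    have : 0 ≤ E := by rw [hE]; positivity
    positivity
  calc (E + 1) / N * (L ^ (k + 1) + C ^ (k + 1)) ≤ (2 ^ 22 / L ^ (k + 3)) * (L ^ (k + 1) + L ^ (k + 1)) := by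
        gcongr
    _ = 2 ^ 22 * 2 / L ^ 2 := by
        rw [show k + 3 = (k + 1) + 2 by ring, pow_add L (k + 1) 2]
        field_simp
        ring
    _ ≤ 2 ^ 22 * 2 / L := by
        apply div_le_div_of_nonneg_left (by norm_num) hL0
        nlinarith
    _ ≤ η / 8 := by
        rw [div_le_iff₀ hL0]
        have h5 : 2 ^ 22 * 32 / η ≤ L := by linarith
        rw [div_le_iff₀ hη] at h5
        nlinarith

theorem mean_box {N w : ℕ} {d L : ℝ} (hL : L = Real.log N) (hL0 : 0 < L) (hw : 0 < w) (hwN : w ≤ N)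
    (hpi : ∀ m : ℕ, m ≤ 2 * N →
      |(Nat.primeCounting m : ℝ) - m / Real.log N| ≤ d * N / Real.log N) :
    |∑ n ∈ range N, (pcn (n + 0) (n + w) : ℝ) - w * (N / L)| ≤ w * (2 * d * N / L) := by
  rw [sum_pcn]
  have e : (w : ℝ) * (N / L) = ∑ _h ∈ Ioc 0 w, ((N : ℝ) / L) := by
    rw [Finset.sum_const, Nat.card_Ioc, nsmul_eq_mul, Nat.sub_zero]
  have e2 : (w : ℝ) * (2 * d * N / L) = ∑ _h ∈ Ioc 0 w, (2 * d * N / L) := by
    rw [Finset.sum_const, Nat.card_Ioc, nsmul_eq_mul, Nat.sub_zero]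
  rw [e, e2, ← Finset.sum_sub_distrib]
  refine (Finset.abs_sum_le_sum_abs _ _).trans (Finset.sum_le_sum fun h hh => ?_)
  obtain ⟨h1, h2⟩ := Finset.mem_Ioc.1 hh
  have g1 := hpi (N + h - 1) (by omega)
  have g2 := hpi (h - 1) (by omega)
  rw [← hL] at g1 g2
  have e3 : ((N + h - 1 : ℕ) : ℝ) = N + ((h - 1 : ℕ) : ℝ) := by
    have : N + h - 1 = N + (h - 1) := by omega
    rw [this]
    push_cast
    ring
  rw [e3] at g1
  rw [abs_le] at g1 g2 ⊢
  have e4 : ((N : ℝ) + ((h - 1 : ℕ) : ℝ)) / L = N / L + ((h - 1 : ℕ) : ℝ) / L := by ring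
  have e5 : 2 * d * N / L = 2 * (d * N / L) := by ring
  rw [e4] at g1
  rw [e5]
  constructor <;> linarith [g1.1, g1.2, g2.1, g2.2]

theorem T_mono {R : ℕ} {T : ℕ → ℝ} (h0 : 0 < T 0) (h : ∀ i < R, 2 * T i ≤ T (i + 1)) :
    ∀ i ≤ R, T 0 ≤ T i := by
  intro i
  induction i with
  | zero => intro _; exact le_rfl
  | succ i ih =>
    intro hi
    have h1 := ih (by omega)
    have h2 := h i (by omega)
    linarith

theorem T_mono' {R : ℕ} {T : ℕ → ℝ} (h0 : 0 < T 0) (h : ∀ i < R, 2 * T i ≤ T (i + 1)) :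
    ∀ m i : ℕ, i + m ≤ R → T i ≤ T (i + m) := by
  intro m
  induction m with
  | zero => intro i _; exact le_rfl
  | succ m ih =>
    intro i hi
    have h1 := ih i (by omega)
    have h2 := h (i + m) (by omega)
    have h3 := T_mono h0 h (i + m) (by omega)
    rw [← add_assoc]
    linarith

open Classical in
theorem hla (hU : St_U) (k M : ℕ) (η : ℝ) (hη : 0 < η) : ∃ K : ℕ, ∀ᶠ N : ℕ in atTop,
    ∀ (R : ℕ) (T : ℕ → ℝ), Real.log N ^ (k + 23) ≤ T 0 → (∀ i < R, 2 * T i ≤ T (i + 1)) →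
      T R ≤ N → ∃ B : Finset ℕ, B.card ≤ K ∧ ∀ i < R, i ∉ B → ∃ θ : ℕ → ℝ,
        (∀ n, 0 ≤ θ n ∧ θ n ≤ 18 / 5 + η) ∧ |(∑ n ∈ range N, θ n) / N - 1| ≤ η ∧
        ∀ j ≤ k, ∀ v w : Fin j → ℕ, (∀ l, Adm M (T i) (T (i + 1)) (v l) (w l)) →
          ∀ S : Finset ℕ, S ⊆ range N →
          |(tuples S v w : ℝ) / (N * ∏ l, (((w l : ℝ) - v l) / Real.log N)) -
            (∑ n ∈ S, θ n ^ j) / N| ≤ η ∧
          0 ≤ ((tuples S v w : ℝ) - tuplesD S v w) /
            (N * ∏ l, (((w l : ℝ) - v l) / Real.log N)) ∧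
          ((tuples S v w : ℝ) - tuplesD S v w) /
            (N * ∏ l, (((w l : ℝ) - v l) / Real.log N)) ≤ η := by
  obtain ⟨e, he, he1, heη⟩ : ∃ e : ℝ, 0 < e ∧ e ≤ 1 ∧ e ≤ η :=
    ⟨min η 1, lt_min hη one_pos, min_le_right _ _, min_le_left _ _⟩
  obtain ⟨C, hC⟩ : ∃ C : ℝ, C = 10 * ((M : ℝ) + 1) + 10 := ⟨_, rfl⟩
  have hM0 : (0 : ℝ) ≤ M := Nat.cast_nonneg M
  have hC1 : 1 ≤ C := by rw [hC]; linarith
  have hC0 : 0 < C := by linarith
  obtain ⟨δ, hδ⟩ : ∃ δ : ℝ, δ = e / (16 * ((k : ℝ) + 1) * C ^ (k + 1) * ((M : ℝ) + 1)) := ⟨_, rfl⟩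
  have hk0 : (0 : ℝ) ≤ k := Nat.cast_nonneg k
  have hδ0 : 0 < δ := by rw [hδ]; positivity
  have hδ1 : ((k : ℝ) + 1) * C ^ (k + 1) * (2 * δ * ((M : ℝ) + 1)) = e / 8 := by
    rw [hδ]; field_simp; norm_num
  have hδ2 : δ * (2 * C ^ (k + 1)) ≤ e / 8 := by
    rw [← hδ1]
    have : 1 ≤ ((k : ℝ) + 1) * ((M : ℝ) + 1) := by nlinarith
    calc δ * (2 * C ^ (k + 1)) = (δ * (2 * C ^ (k + 1))) * 1 := by ring
      _ ≤ (δ * (2 * C ^ (k + 1))) * (((k : ℝ) + 1) * ((M : ℝ) + 1)) := by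
          apply mul_le_mul_of_nonneg_left this (by positivity)
      _ = _ := by ring
  obtain ⟨K, hK⟩ := Pool.Agent.W123.FS.chain δ hδ0
  obtain ⟨κ, hκ, N₀, hN₀⟩ := hU (e / 2) (by positivity)
  refine ⟨K, ?_⟩
  filter_upwards [hK, pi_lin (e / 16) (by positivity), eventually_ge_atTop (max N₀ 2),
    ev_log' (max C (2 ^ 22 * 32 / e + 1)), ev_logpow' (k + 3) (one_pos), ev_logpow' (k + 23) hκ,
    ev_log' (K : ℝ), ev_log' (10 / e),
    ev_log' (8 * ((k : ℝ) ^ 2 * (M * (C ^ k + 1))) / e)] with N h1 h2 h3 h4 h5 h6 h7 h8 h9 R T g1 g2 g3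
  have hN2 : 2 ≤ N := (le_max_right _ _).trans h3
  have hNN₀ : N₀ ≤ 2 * N := by
    have := (le_max_left N₀ 2).trans h3
    omega
  have hN2R : (2 : ℝ) ≤ N := by exact_mod_cast hN2
  have hN0 : (0 : ℝ) < N := by linarith
  have hCL : C ≤ Real.log N := (le_max_left _ _).trans h4
  have hL1 : 1 ≤ Real.log N := hC1.trans hCL
  have hL0 : 0 < Real.log N := by linarith
  have hT0 : 1 ≤ T 0 := (one_le_pow₀ hL1).trans g1
  have hKT : (K : ℝ) * Real.log N ≤ T 0 := by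
    refine le_trans ?_ g1
    calc (K : ℝ) * Real.log N ≤ Real.log N * Real.log N :=
          mul_le_mul_of_nonneg_right h7 hL0.le
      _ = Real.log N ^ 2 := by ring
      _ ≤ _ := pow_le_pow_right₀ hL1 (by omega)
  obtain ⟨B, hB, hBi⟩ := h1 R T hKT g2 g3
  refine ⟨B, hB, fun i hiR hiB => ?_⟩
  have hbad := hBi i hiR hiB
  have hTi : T 0 ≤ T i := T_mono (by linarith) g2 i (by omega)
  have hTi1 : T (i + 1) ≤ N := by
    have := T_mono' (by linarith : 0 < T 0) g2 (R - (i + 1)) (i + 1) (by omega)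
    rw [show i + 1 + (R - (i + 1)) = R by omega] at this
    linarith
  have hA1 : 1 ≤ T i := hT0.trans hTi
  have hAA := g2 i hiR
  have hAA' : T i ≤ T (i + 1) := by linarith
  have hH : Real.log N ^ (k + 23) ≤ T i := g1.trans hTi
  have hLT : Real.log N ≤ T i := by
    refine le_trans ?_ hH
    calc Real.log N = Real.log N ^ 1 := by ring
      _ ≤ _ := pow_le_pow_right₀ hL1 (by omega)
  have h2N : (N : ℝ) ≤ ((2 * N : ℕ) : ℝ) := by push_cast; linarith
  have h5' : Real.log N ^ (k + 3) ≤ N := by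
    rw [Real.rpow_one] at h5
    exact h5
  have h6' : Real.log N ^ (k + 23) ≤ ((2 * N : ℕ) : ℝ) ^ κ :=
    h6.trans (Real.rpow_le_rpow hN0.le h2N hκ.le)
  have hex := exc_small (k := k) (c := (18 / 5 + e / 2) / Real.log ((2 * N : ℕ) : ℝ)) he hC1 hN2 h4
    h5' h6' (fun H a1 a2 => hN₀ (2 * N) hNN₀ H a1 a2)
  have hcc : (18 / 5 + e / 2) + (18 / 5 + e / 2) / T i ≤ 18 / 5 + e := by
    have : (18 / 5 + e / 2) / T i ≤ e / 2 := by
      rw [div_le_iff₀ (by linarith)]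
      have h10 : 10 / e ≤ T i := h8.trans hLT
      rw [div_le_iff₀ he] at h10
      nlinarith
    linarith
  have hcC : 18 / 5 + e ≤ C := by rw [hC]; linarith
  have hMC : 2 * (18 / 5 + e / 2) * ((M + 1 : ℕ) : ℝ) ≤ C := by
    rw [hC]
    push_cast
    nlinarith
  have hbig : ∀ j ≤ k + 1, ∀ v w : Fin j → ℕ, (∀ l, Adm (M + 1) (T i) (T (i + 1)) (v l) (w l)) →
      ∀ S : Finset ℕ, S ⊆ range N →
      |(tuples S v w : ℝ) / (N * ∏ l, (((w l : ℝ) - v l) / Real.log N)) -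
        (∑ n ∈ S, th N (T i) (18 / 5 + e) n ^ j) / N| ≤ 3 * (e / 8) := by
    intro j hj v w hvw S hS
    refine (box_main (k := k + 1) hj hN2 hL1 hA1 hTi1 hAA' hH hδ0.le (by linarith) hcc hC1 hcC hMC
      v w hvw S hS).trans ?_
    have s1 : (((k + 1 : ℕ) : ℝ)) * C ^ (k + 1) * (2 * δ * ((M + 1 : ℕ) : ℝ)) = e / 8 := by
      rw [← hδ1]
      push_cast
      ring
    have s2 : ((badset δ N (T i) (T (i + 1))).card : ℝ) / N * (2 * C ^ (k + 1)) ≤ e / 8 := by
      refine le_trans ?_ hδ2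
      apply mul_le_mul_of_nonneg_right _ (by positivity)
      rw [div_le_iff₀ hN0]
      exact hbad
    linarith
  refine ⟨th N (T i) (18 / 5 + e), fun n => ⟨le_min (rd_nonneg N _ (by linarith) n) (by linarith),
    (min_le_right _ _).trans (by linarith)⟩, ?_, ?_⟩
  · -- the mean
    obtain ⟨w, hw⟩ : ∃ w : ℕ, w = ⌈T i⌉₊ := ⟨_, rfl⟩
    have w1 : T i ≤ w := by rw [hw]; exact Nat.le_ceil _
    have w2 : (w : ℝ) ≤ T i + 1 := by rw [hw]; exact (Nat.ceil_lt_add_one (by linarith)).le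
    have w3 : (w : ℝ) ≤ T (i + 1) := by linarith
    have w4 : w ≤ N := by
      have : (w : ℝ) ≤ N := w3.trans hTi1
      exact_mod_cast this
    have w5 : (0 : ℝ) < w := by linarith
    have w6 : 0 < w := by exact_mod_cast w5
    have k1 := hbig 1 (by omega) (fun _ => 0) (fun _ => w) (fun l => by
      refine ⟨Or.inl rfl, w1, w3, ?_⟩
      push_cast
      nlinarith) (range N) subset_rfl
    have k2 := mean_box rfl hL0 w6 w4 h2
    rw [tuples_eq] at k1
    simp only [Finset.univ_unique, Finset.prod_singleton, pow_one] at k1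
    have k3 : (w : ℝ) * (N / Real.log N) = N * (w / Real.log N) := by ring
    have hden : 0 < (N : ℝ) * (w / Real.log N) := by positivity
    have k4 : |(∑ n ∈ range N, (pcn (n + 0) (n + w) : ℝ)) / (N * (w / Real.log N)) - 1| ≤ e / 8 := by
      have e1 : (∑ n ∈ range N, (pcn (n + 0) (n + w) : ℝ)) / (N * (w / Real.log N)) - 1 =
          (∑ n ∈ range N, (pcn (n + 0) (n + w) : ℝ) - w * (N / Real.log N)) /
            (N * (w / Real.log N)) := by
        rw [sub_div, k3, div_self hden.ne']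
      rw [e1, abs_div, abs_of_pos hden, div_le_iff₀ hden]
      refine k2.trans (le_of_eq ?_)
      ring
    have k5 : ((w : ℝ) - ((0 : ℕ) : ℝ)) = w := by simp
    rw [k5] at k1
    rw [abs_le] at k1 k4 ⊢
    constructor <;> linarith [k1.1, k1.2, k4.1, k4.2]
  · intro j hj v w hvw S hS
    refine ⟨(hbig j (by omega) v w (fun l => ?_) S hS).trans (by linarith), ?_⟩
    · obtain ⟨a1, a2, a3, a4⟩ := hvw l
      refine ⟨a1, a2, a3, a4.trans ?_⟩
      have hpos := (adm_pos hA1 (hvw l)).1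
      push_cast
      nlinarith
    · have hMC' : 2 * (18 / 5 + e / 2) * (M : ℝ) ≤ C := by
        refine le_trans ?_ hMC
        push_cast
        nlinarith
      obtain ⟨d1, d2⟩ := dist_main (k := k) hj hN2 hL1 hA1 hTi1 hH (by linarith) hC1 hMC' v w hvw S hS
      refine ⟨d1, d2.trans ?_⟩
      obtain ⟨X, hX⟩ : ∃ X : ℝ, X = ((((Icc 1 (2 * N)).filter (fun n => n ∈ Hi (2 * N)
        (Real.log N ^ (k + 23)) ((18 / 5 + e / 2) / Real.log ((2 * N : ℕ) : ℝ)))).card : ℝ) + 1) /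
          N := ⟨_, rfl⟩
      rw [← hX] at hex ⊢
      have hX0 : 0 ≤ X := by rw [hX]; positivity
      have hXL : X * Real.log N ^ k ≤ 1 := by
        calc X * Real.log N ^ k ≤ X * (Real.log N ^ (k + 1) + C ^ (k + 1)) := by
              apply mul_le_mul_of_nonneg_left _ hX0
              have a1 : Real.log N ^ k ≤ Real.log N ^ (k + 1) :=
                pow_le_pow_right₀ hL1 (by omega)
              have a2 : 0 ≤ C ^ (k + 1) := by positivity
              linarith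
          _ ≤ e / 8 := hex
          _ ≤ 1 := by linarith
      have hML : M * Real.log N / T i ≤ M / Real.log N := by
        rw [div_le_div_iff₀ (by linarith) hL0]
        have : Real.log N * Real.log N ≤ T i := by
          refine le_trans ?_ hH
          calc Real.log N * Real.log N = Real.log N ^ 2 := by ring
            _ ≤ _ := pow_le_pow_right₀ hL1 (by omega)
        nlinarith
      calc (k : ℝ) ^ 2 * ((M * Real.log N / T i) * (C ^ k + X * Real.log N ^ k))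
          ≤ (k : ℝ) ^ 2 * ((M / Real.log N) * (C ^ k + 1)) := by gcongr
        _ = ((k : ℝ) ^ 2 * (M * (C ^ k + 1))) / Real.log N := by ring
        _ ≤ e / 8 := by
            rw [div_le_iff₀ hL0]
            rw [div_le_iff₀ he] at h9
            linarith
        _ ≤ η := by linarith

end Pool.Agent.R516
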