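import Mathlib
import Pool.Agent.R516.Hla

/-! The average form of the prime tuples conjecture in boxes: vectors of distinct shifts. -/

set_option autoImplicit false

namespace Pool.Agent.R516

open Finset Filter Topology

/-- powers of a truncation -/
theorem trunc_pow {k j : ℕ} (hjk : j ≤ k) {e x : ℝ} (he : 0 ≤ e) (he1 : e ≤ 1) (hx : 0 ≤ x)
    (hx' : x ≤ 18 / 5 + e) :
    |x ^ j - (min x (18 / 5)) ^ j| ≤ k * 5 ^ k * e := by
  have h1 : 0 ≤ min x (18 / 5) := le_min hx (by norm_num)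
  have h2 : min x (18 / 5) ≤ 18 / 5 := min_le_right _ _
  have h3 : min x (18 / 5) ≤ x := min_le_left _ _
  have h4 : x - e ≤ min x (18 / 5) := le_min (by linarith) (by linarith)
  have h := prod_close (Finset.univ : Finset (Fin j)) (fun _ => x) (min x (18 / 5)) e 5
    (by norm_num) (by rw [abs_of_nonneg h1]; linarith) he (fun l _ => ⟨by
      rw [abs_of_nonneg hx]; linarith, by rw [abs_le]; constructor <;> linarith⟩)
  rw [Finset.card_univ, Fintype.card_fin, Finset.prod_const, Finset.card_univ,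
    Fintype.card_fin] at h
  refine h.trans (mul_le_mul_of_nonneg_right ?_ he)
  have hj : (j : ℝ) ≤ k := by exact_mod_cast hjk
  exact mul_le_mul hj (pow_le_pow_right₀ (by norm_num) hjk) (by positivity) (Nat.cast_nonneg k)

open Classical in
theorem hlb (hU : St_U) (k M : ℕ) (η : ℝ) (hη : 0 < η) : ∃ K : ℕ, ∀ᶠ N : ℕ in atTop,
    ∀ (R : ℕ) (T : ℕ → ℝ), Real.log N ^ (k + 23) ≤ T 0 → (∀ i < R, 2 * T i ≤ T (i + 1)) →
      T R ≤ N → ∃ B : Finset ℕ, B.card ≤ K ∧ ∀ i < R, i ∉ B → ∃ θ : ℕ → ℝ,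
        (∀ n, 0 ≤ θ n ∧ θ n ≤ 18 / 5) ∧ |(∑ n ∈ range N, θ n) / N - 1| ≤ η ∧
        (∀ j, 1 ≤ j → j ≤ k → 1 - η ≤ (∑ n ∈ range N, θ n ^ j) / N ∧
          (∑ n ∈ range N, θ n ^ j) / N ≤ (18 / 5) ^ (j - 1) + η) ∧
        ∀ j ≤ k, ∀ v w : Fin j → ℕ, (∀ l, Adm M (T i) (T (i + 1)) (v l) (w l)) →
          ∀ S : Finset ℕ, S ⊆ range N →
          |(tuplesD S v w : ℝ) / (N * ∏ l, (((w l : ℝ) - v l) / Real.log N)) -
            (∑ n ∈ S, θ n ^ j) / N| ≤ η := by
  obtain ⟨e, he, he1, heη⟩ : ∃ e : ℝ, 0 < e ∧ e ≤ 1 / 16 ∧ 16 * ((k : ℝ) + 1) * 5 ^ (k + 1) * e ≤ η := by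
    have hc : (16 : ℝ) ≤ 16 * ((k : ℝ) + 1) * 5 ^ (k + 1) := by
      have h1 : (1 : ℝ) ≤ 5 ^ (k + 1) := one_le_pow₀ (by norm_num)
      have h2 : (0 : ℝ) ≤ k := Nat.cast_nonneg k
      nlinarith
    refine ⟨min η 1 / (16 * ((k : ℝ) + 1) * 5 ^ (k + 1)), by
      have := lt_min hη one_pos
      positivity, ?_, ?_⟩
    · rw [div_le_div_iff₀ (by linarith) (by norm_num)]
      have := min_le_right η 1
      linarith
    · rw [mul_div_cancel₀ _ (by linarith)]
      exact min_le_left _ _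
  obtain ⟨K, hK⟩ := hla hU k M e he
  have hk0 : (0 : ℝ) ≤ k := Nat.cast_nonneg k
  have h5k : (1 : ℝ) ≤ 5 ^ (k + 1) := one_le_pow₀ (by norm_num)
  have hbase : 16 * (((k : ℝ) + 1) * 5 ^ (k + 1) * e) ≤ η := by linarith
  have hbase2 : 5 ^ (k + 1) * e ≤ ((k : ℝ) + 1) * 5 ^ (k + 1) * e := by
    have : (0 : ℝ) ≤ k * (5 ^ (k + 1) * e) := by positivity
    linarith
  have hbase3 : e ≤ 5 ^ (k + 1) * e := by nlinarith
  have hbase4 : ((k : ℝ) + 1) * e ≤ ((k : ℝ) + 1) * 5 ^ (k + 1) * e := by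
    have h := mul_le_mul_of_nonneg_left hbase3 (by linarith : (0 : ℝ) ≤ (k : ℝ) + 1)
    linarith
  refine ⟨K, ?_⟩
  filter_upwards [hK, eventually_ge_atTop 1] with N h1 hN R T g1 g2 g3
  have hN0 : (0 : ℝ) < N := by exact_mod_cast hN
  obtain ⟨B, hB, hBi⟩ := h1 R T g1 g2 g3
  refine ⟨B, hB, fun i hiR hiB => ?_⟩
  obtain ⟨θ, t1, t2, t3⟩ := hBi i hiR hiB
  obtain ⟨m, hm⟩ : ∃ m : ℝ, m = (∑ n ∈ range N, min (θ n) (18 / 5)) / N := ⟨_, rfl⟩
  have hm1 : |m - 1| ≤ 2 * e := by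
    have e1 : |m - (∑ n ∈ range N, θ n) / N| ≤ e := by
      rw [hm, ← sub_div, ← Finset.sum_sub_distrib, abs_div, abs_of_pos hN0, div_le_iff₀ hN0]
      refine (Finset.abs_sum_le_sum_abs _ _).trans ?_
      calc ∑ n ∈ range N, |min (θ n) (18 / 5) - θ n| ≤ ∑ _n ∈ range N, e := by
            refine Finset.sum_le_sum fun n _ => ?_
            have a1 := (t1 n).1
            have a2 := (t1 n).2
            have a3 : min (θ n) (18 / 5) ≤ θ n := min_le_left _ _
            have a4 : θ n - e ≤ min (θ n) (18 / 5) := le_min (by linarith) (by linarith)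
            rw [abs_le]
            constructor <;> linarith
        _ = e * N := by rw [Finset.sum_const, Finset.card_range, nsmul_eq_mul, mul_comm]
    rw [abs_le] at e1 t2 ⊢
    constructor <;> linarith [e1.1, e1.2, t2.1, t2.2]
  rw [abs_le] at hm1
  have hmin0 : ∀ n, 0 ≤ min (θ n) (18 / 5) := fun n => le_min (t1 n).1 (by norm_num)
  refine ⟨fun n => min (θ n) (18 / 5), fun n => ⟨hmin0 n, min_le_right _ _⟩, ?_, ?_, ?_⟩
  · beta_reduce
    rw [← hm, abs_le]
    constructor <;> linarith [hm1.1, hm1.2]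
  · intro j hj1 hjk
    beta_reduce
    constructor
    · have hJ := Real.pow_arith_mean_le_arith_mean_pow (range N) (fun _ => 1 / (N : ℝ))
        (fun n => min (θ n) (18 / 5)) (fun _ _ => by positivity) (by
          rw [Finset.sum_const, Finset.card_range, nsmul_eq_mul]
          field_simp) (fun n _ => hmin0 n) j
      rw [← Finset.mul_sum, ← Finset.mul_sum] at hJ
      have e2 : 1 / (N : ℝ) * ∑ n ∈ range N, min (θ n) (18 / 5) = m := by rw [hm]; ring
      have e3 : 1 / (N : ℝ) * ∑ n ∈ range N, min (θ n) (18 / 5) ^ j =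
          (∑ n ∈ range N, min (θ n) (18 / 5) ^ j) / N := by ring
      rw [e2, e3] at hJ
      refine le_trans ?_ hJ
      have hjR : (j : ℝ) ≤ k := by exact_mod_cast hjk
      have hB := one_add_mul_le_pow (a := -(2 * e)) (by linarith) j
      have hmm : 1 + -(2 * e) ≤ m := by linarith [hm1.1]
      calc 1 - η ≤ 1 + (j : ℝ) * -(2 * e) := by nlinarith
        _ ≤ (1 + -(2 * e)) ^ j := hB
        _ ≤ m ^ j := pow_le_pow_left₀ (by linarith) hmm j
    · obtain ⟨i', rfl⟩ : ∃ i', j = i' + 1 := ⟨j - 1, by omega⟩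
      rw [Nat.add_sub_cancel]
      have e4 : (∑ n ∈ range N, min (θ n) (18 / 5) ^ (i' + 1)) / N ≤ (18 / 5) ^ i' * m := by
        rw [hm, mul_div_assoc', div_le_div_iff_of_pos_right hN0, Finset.mul_sum]
        refine Finset.sum_le_sum fun n _ => ?_
        rw [pow_succ]
        exact mul_le_mul_of_nonneg_right (pow_le_pow_left₀ (hmin0 n) (min_le_right _ _) i')
          (hmin0 n)
      have e5 : (18 / 5 : ℝ) ^ i' ≤ 5 ^ (k + 1) := by
        calc (18 / 5 : ℝ) ^ i' ≤ 5 ^ i' := pow_le_pow_left₀ (by norm_num) (by norm_num) _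
          _ ≤ _ := pow_le_pow_right₀ (by norm_num) (by omega)
      have e6 : (0 : ℝ) ≤ (18 / 5) ^ i' := by positivity
      calc (∑ n ∈ range N, min (θ n) (18 / 5) ^ (i' + 1)) / N ≤ (18 / 5) ^ i' * m := e4
        _ ≤ (18 / 5) ^ i' * (1 + 2 * e) := by
            apply mul_le_mul_of_nonneg_left _ e6
            linarith [hm1.2]
        _ = (18 / 5) ^ i' + 2 * ((18 / 5) ^ i' * e) := by ring
        _ ≤ (18 / 5) ^ i' + 2 * (5 ^ (k + 1) * e) := by
            have := mul_le_mul_of_nonneg_right e5 he.le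
            linarith
        _ ≤ _ := by linarith
  · intro j hj v w hvw S hS
    beta_reduce
    obtain ⟨s1, s2, s3⟩ := t3 j hj v w hvw S hS
    have e7 : |(∑ n ∈ S, θ n ^ j) / N - (∑ n ∈ S, min (θ n) (18 / 5) ^ j) / N| ≤
        (k : ℝ) * 5 ^ k * e := by
      rw [← sub_div, ← Finset.sum_sub_distrib, abs_div, abs_of_pos hN0, div_le_iff₀ hN0]
      refine (Finset.abs_sum_le_sum_abs _ _).trans ?_
      refine (Finset.sum_le_sum_of_subset_of_nonneg hS (fun n _ _ => abs_nonneg _)).trans ?_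
      calc ∑ n ∈ range N, |θ n ^ j - min (θ n) (18 / 5) ^ j| ≤ ∑ _n ∈ range N, k * 5 ^ k * e :=
            Finset.sum_le_sum fun n _ => trunc_pow hj he.le (by linarith) (t1 n).1 (t1 n).2
        _ = k * 5 ^ k * e * N := by
            rw [Finset.sum_const, Finset.card_range, nsmul_eq_mul, mul_comm]
    have e8 : (k : ℝ) * 5 ^ k * e ≤ ((k : ℝ) + 1) * 5 ^ (k + 1) * e := by
      have a1 : (5 : ℝ) ^ k ≤ 5 ^ (k + 1) := pow_le_pow_right₀ (by norm_num) (by omega)
      have a2 : (k : ℝ) * 5 ^ k ≤ ((k : ℝ) + 1) * 5 ^ (k + 1) :=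
        mul_le_mul (by linarith) a1 (by positivity) (by linarith)
      exact mul_le_mul_of_nonneg_right a2 he.le
    rw [sub_div] at s2 s3
    rw [abs_le] at s1 e7 ⊢
    constructor <;> linarith [s1.1, s1.2, e7.1, e7.2]

end Pool.Agent.R516
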