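import Mathlib
import Pool.Agent.R516.Hlb

/-! Primes in windows at positions given by maps: elementary lemmas. -/

set_option autoImplicit false

namespace Pool.Agent.R516

open Finset Filter Topology
open Pool.Agent.H357R2.SI (pc pc_add pc_zero pc_eq_sub pc_mono pc_anti piS piS_nat)
open Pool.Agent.W123.FS (badset)

theorem prod_close2 {ι : Type} (s : Finset ι) (x y : ι → ℝ) (e C : ℝ) (hC : 1 ≤ C)
    (he : 0 ≤ e) (hx : ∀ l ∈ s, |x l| ≤ C ∧ |y l| ≤ C ∧ |x l - y l| ≤ e) :
    |∏ l ∈ s, x l - ∏ l ∈ s, y l| ≤ s.card * C ^ s.card * e := by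
  classical
  induction s using Finset.induction_on with
  | empty => simp
  | insert a s ha ih =>
    have ih' := ih (fun l hl => hx l (Finset.mem_insert_of_mem hl))
    obtain ⟨h1, h2, h3⟩ := hx a (Finset.mem_insert_self a s)
    rw [Finset.prod_insert ha, Finset.prod_insert ha, Finset.card_insert_of_notMem ha]
    have hP : |∏ l ∈ s, x l| ≤ C ^ s.card := by
      rw [Finset.abs_prod]
      calc ∏ l ∈ s, |x l| ≤ ∏ _l ∈ s, C := Finset.prod_le_prod (fun l _ => abs_nonneg _)
            (fun l hl => (hx l (Finset.mem_insert_of_mem hl)).1)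
        _ = C ^ s.card := by rw [Finset.prod_const]
    have hC0 : 0 ≤ C := by linarith
    have e1 : x a * ∏ l ∈ s, x l - y a * ∏ l ∈ s, y l =
        (x a - y a) * ∏ l ∈ s, x l + y a * (∏ l ∈ s, x l - ∏ l ∈ s, y l) := by ring
    rw [e1]
    have hCp : 0 ≤ C ^ s.card := pow_nonneg hC0 _
    calc |(x a - y a) * ∏ l ∈ s, x l + y a * (∏ l ∈ s, x l - ∏ l ∈ s, y l)|
        ≤ |x a - y a| * |∏ l ∈ s, x l| + |y a| * |∏ l ∈ s, x l - ∏ l ∈ s, y l| := by
          rw [← abs_mul, ← abs_mul]; exact abs_add_le _ _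
      _ ≤ e * C ^ s.card + C * (s.card * C ^ s.card * e) :=
          add_le_add (mul_le_mul h3 hP (abs_nonneg _) he)
            (mul_le_mul h2 ih' (abs_nonneg _) hC0)
      _ ≤ e * (C ^ s.card * C) + C * (s.card * C ^ s.card * e) := by
          have : C ^ s.card ≤ C ^ s.card * C := by nlinarith
          have := mul_le_mul_of_nonneg_left this he
          linarith
      _ = ((s.card + 1 : ℕ) : ℝ) * C ^ (s.card + 1) * e := by push_cast; ring

/-- the normalised number of primes in `(n, n + w]` -/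
noncomputable def nx (N n w : ℕ) : ℝ := (pcn n (n + w) : ℝ) * Real.log N / w

theorem nx_eq (N n w : ℕ) : nx N n w = xl N n 0 w := by
  unfold nx xl
  simp

theorem nx_triv {N n w : ℕ} (hw : 1 ≤ w) : 0 ≤ nx N n w ∧ nx N n w ≤ Real.log N := by
  rw [nx_eq]
  have h1 : (1 : ℝ) ≤ w := by exact_mod_cast hw
  exact xl_triv (M := 1) (A := 1) (A' := w) le_rfl ⟨Or.inl rfl, h1, le_rfl, by simp⟩

theorem adm0 {A A' : ℝ} {w : ℕ} (h1 : A ≤ w) (h2 : w ≤ A') : Adm 1 A A' 0 w :=
  ⟨Or.inl rfl, h1, h2, by simp⟩

/-- the fibres of a map on `[0, x)` have at most `D` elements -/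
def Fib (D x : ℕ) (g : ℕ → ℕ) : Prop :=
  ∀ y, ((range x).filter (fun n => g n = y)).card ≤ D

theorem fib_card {D x : ℕ} {g : ℕ → ℕ} (hg : Fib D x g) (E : Finset ℕ) :
    ((range x).filter (fun n => g n ∈ E)).card ≤ E.card * D := by
  classical
  have h1 : ((range x).filter (fun n => g n ∈ E)) ⊆
      E.biUnion (fun y => (range x).filter (fun n => g n = y)) := by
    intro n hn
    rw [Finset.mem_filter] at hn
    rw [Finset.mem_biUnion]
    exact ⟨g n, hn.2, Finset.mem_filter.2 ⟨hn.1, rfl⟩⟩
  refine (Finset.card_le_card h1).trans (Finset.card_biUnion_le_card_mul _ _ _ fun y _ => hg y)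

theorem fib_sum {D x j : ℕ} {g : Fin j → ℕ → ℕ} (hg : ∀ l, Fib D x (g l)) (E : Finset ℕ) {F : ℝ}
    (hF : 0 ≤ F) (S : Finset ℕ) (hS : S ⊆ range x) :
    ∑ n ∈ S, ∑ l, (if g l n ∈ E then F else 0) ≤ j * (D * (E.card * F)) := by
  classical
  rw [Finset.sum_comm]
  calc ∑ l, ∑ n ∈ S, (if g l n ∈ E then F else 0) ≤ ∑ _l : Fin j, (D * (E.card * F)) := by
        refine Finset.sum_le_sum fun l _ => ?_
        refine (Finset.sum_le_sum_of_subset_of_nonneg hS (fun n _ _ => by
          split_ifs
          · exact hF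
          · exact le_rfl)).trans ?_
        rw [← Finset.sum_filter, Finset.sum_const, nsmul_eq_mul]
        have h1 := fib_card (hg l) E
        have h2 : ((((range x).filter (fun n => g l n ∈ E)).card : ℕ) : ℝ) ≤ E.card * D := by
          exact_mod_cast h1
        calc ((((range x).filter (fun n => g l n ∈ E)).card : ℕ) : ℝ) * F ≤ (E.card * D) * F :=
              mul_le_mul_of_nonneg_right h2 hF
          _ = _ := by ring
    _ = j * (D * (E.card * F)) := by
        rw [Finset.sum_const, Finset.card_univ, Fintype.card_fin, nsmul_eq_mul]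

theorem pcn_le_pcn {a b a' b' : ℕ} (h1 : a' ≤ a) (h2 : b ≤ b') : pcn a b ≤ pcn a' b' := by
  unfold pcn
  refine Finset.card_le_card (Finset.filter_subset_filter _ ?_)
  exact Finset.Ioc_subset_Ioc h1 h2

theorem pcn_pi {a b : ℕ} (h : a ≤ b) :
    (pcn a b : ℝ) = (Nat.primeCounting b : ℝ) - Nat.primeCounting a := by
  rw [pcn_eq, pc_eq_sub h]

/-- moving a window -/
theorem pcn_move {a a' w E : ℕ} (h1 : a ≤ a' + E) (h2 : a' ≤ a + E) :
    |(pcn a' (a' + w) : ℝ) - pcn a (a + w)| ≤
      pcn (a - E) (a + E) + pcn (a + w - E) (a + w + E) := by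
  rw [pcn_pi (by omega), pcn_pi (by omega), pcn_pi (by omega), pcn_pi (by omega)]
  have m1 : (Nat.primeCounting (a - E) : ℝ) ≤ Nat.primeCounting a' := by
    exact_mod_cast Nat.monotone_primeCounting (by omega)
  have m2 : (Nat.primeCounting a' : ℝ) ≤ Nat.primeCounting (a + E) := by
    exact_mod_cast Nat.monotone_primeCounting (by omega)
  have m3 : (Nat.primeCounting (a - E) : ℝ) ≤ Nat.primeCounting a := by
    exact_mod_cast Nat.monotone_primeCounting (by omega)
  have m4 : (Nat.primeCounting a : ℝ) ≤ Nat.primeCounting (a + E) := by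
    exact_mod_cast Nat.monotone_primeCounting (by omega)
  have m5 : (Nat.primeCounting (a + w - E) : ℝ) ≤ Nat.primeCounting (a' + w) := by
    exact_mod_cast Nat.monotone_primeCounting (by omega)
  have m6 : (Nat.primeCounting (a' + w) : ℝ) ≤ Nat.primeCounting (a + w + E) := by
    exact_mod_cast Nat.monotone_primeCounting (by omega)
  have m7 : (Nat.primeCounting (a + w - E) : ℝ) ≤ Nat.primeCounting (a + w) := by
    exact_mod_cast Nat.monotone_primeCounting (by omega)
  have m8 : (Nat.primeCounting (a + w) : ℝ) ≤ Nat.primeCounting (a + w + E) := by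
    exact_mod_cast Nat.monotone_primeCounting (by omega)
  rw [abs_le]
  constructor <;> linarith

/-- the primes near an integer outside the exceptional set -/
theorem near {N a E : ℕ} {H0 c : ℝ} (hN : 2 ≤ N) (hc : 0 ≤ c) (ha : 1 ≤ a)
    (hE : 1 ≤ E) (hHE : H0 ≤ (E : ℝ)) (haE : a + E ≤ 2 * N)
    (hn : a ∉ Hi (2 * N) H0 (c / Real.log ((2 * N : ℕ) : ℝ))) :
    (pcn (a - E) (a + E) : ℝ) * Real.log N ≤ 2 * c * E := by
  have hN0 : (2 : ℝ) ≤ N := by exact_mod_cast hN
  have hL0 : 0 < Real.log N := Real.log_pos (by linarith)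
  have hL2 : Real.log N ≤ Real.log ((2 * N : ℕ) : ℝ) := by
    apply Real.log_le_log (by linarith)
    push_cast
    linarith
  have hE0 : (0 : ℝ) ≤ E := Nat.cast_nonneg E
  have h0 : ((a - E : ℕ) : ℝ) ≤ a := by exact_mod_cast Nat.sub_le a E
  have h0' : (a : ℝ) - E ≤ ((a - E : ℕ) : ℝ) := by
    have : a ≤ (a - E) + E := by omega
    have : (a : ℝ) ≤ ((a - E : ℕ) : ℝ) + E := by exact_mod_cast this
    linarith
  have h1 : ¬ (c / Real.log ((2 * N : ℕ) : ℝ) * (((a + E : ℕ) : ℝ) - ((a - E : ℕ) : ℝ)) <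
      (pcn (a - E) (a + E) : ℝ)) := by
    intro h
    apply hn
    refine ⟨a - E, a + E, by omega, by omega, haE, ?_, h⟩
    push_cast
    linarith
  push Not at h1
  have h2 : c / Real.log ((2 * N : ℕ) : ℝ) ≤ c / Real.log N :=
    div_le_div_of_nonneg_left hc hL0 hL2
  have h3 : ((a + E : ℕ) : ℝ) - ((a - E : ℕ) : ℝ) ≤ 2 * E := by
    push_cast
    linarith
  have h4 : 0 ≤ ((a + E : ℕ) : ℝ) - ((a - E : ℕ) : ℝ) := by
    push_cast
    linarith
  calc (pcn (a - E) (a + E) : ℝ) * Real.log N
      ≤ (c / Real.log N * (2 * E)) * Real.log N := by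
        apply mul_le_mul_of_nonneg_right _ hL0.le
        exact h1.trans (mul_le_mul h2 h3 h4 (by positivity))
    _ = 2 * c * E := by field_simp

open Classical in
/-- replacing the primes by the density of the primes in a window -/
theorem swapP (f W : ℕ → ℝ) (F0 : ℝ) (hf : ∀ n, 0 ≤ f n ∧ f n ≤ F0) (hW : ∀ m, 0 ≤ W m)
    (x t : ℕ) (hfW : ∀ m h, 1 ≤ h → h ≤ t → h ≤ m → m < x → |f m - f (m - h)| ≤ W m) :
    |t * ∑ m ∈ range x, (if m.Prime then f m else 0) -
      ∑ n ∈ range x, (pcn n (n + t) : ℝ) * f n| ≤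
      t * (2 * t * F0 + ∑ m ∈ range x, (if m.Prime then W m else 0)) := by
  have hF0 : 0 ≤ F0 := (hf 0).1.trans (hf 0).2
  obtain ⟨P, hP⟩ : ∃ P : ℝ, P = ∑ m ∈ range x, (if m.Prime then f m else 0) := ⟨_, rfl⟩
  obtain ⟨Q, hQ⟩ : ∃ Q : ℝ, Q = ∑ m ∈ range x, (if m.Prime then W m else 0) := ⟨_, rfl⟩
  have e1 : ∑ n ∈ range x, (pcn n (n + t) : ℝ) * f n =
      ∑ h ∈ Ioc 0 t, ∑ n ∈ range x, (if (n + h).Prime then f n else 0) := by
    rw [Finset.sum_comm]
    refine Finset.sum_congr rfl fun n _ => ?_
    have := pcn_shift n 0 t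
    rw [add_zero] at this
    rw [this, Finset.sum_mul]
    refine Finset.sum_congr rfl fun h _ => ?_
    split_ifs <;> simp
  have e2 : (t : ℝ) * P = ∑ _h ∈ Ioc 0 t, P := by
    rw [Finset.sum_const, Nat.card_Ioc, nsmul_eq_mul, Nat.sub_zero]
  rw [e1, ← hP, ← hQ, e2, ← Finset.sum_sub_distrib]
  refine (Finset.abs_sum_le_sum_abs _ _).trans ?_
  have key : ∀ h ∈ Ioc 0 t, |P - ∑ n ∈ range x, (if (n + h).Prime then f n else 0)| ≤
      2 * t * F0 + Q := by
    intro h hh
    obtain ⟨h1, h2⟩ := Finset.mem_Ioc.1 hh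
    have hQ0 : 0 ≤ Q := by
      rw [hQ]
      refine Finset.sum_nonneg fun m _ => ?_
      split_ifs
      · exact hW m
      · exact le_rfl
    have hhR : (h : ℝ) ≤ t := by exact_mod_cast h2
    have hP0 : ∀ n, 0 ≤ (if n.Prime then f n else 0) ∧ (if n.Prime then f n else 0) ≤ F0 := by
      intro n
      split_ifs
      · exact hf n
      · exact ⟨le_rfl, hF0⟩
    have hS0 : ∀ n, 0 ≤ (if (n + h).Prime then f n else 0) ∧
        (if (n + h).Prime then f n else 0) ≤ F0 := by
      intro n
      split_ifs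
      · exact hf n
      · exact ⟨le_rfl, hF0⟩
    -- both sums are close to the sums over the common range
    have c1 : ∑ i ∈ range (x - h), (if (i + h).Prime then f (i + h) else 0) ≤ P ∧
        P ≤ ∑ i ∈ range (x - h), (if (i + h).Prime then f (i + h) else 0) + h * F0 := by
      rcases le_total h x with hx | hx
      · have e3 : P = ∑ m ∈ range h, (if m.Prime then f m else 0) +
            ∑ i ∈ range (x - h), (if (i + h).Prime then f (i + h) else 0) := by
          rw [hP, ← Finset.sum_range_add_sum_Ico _ hx, Finset.sum_Ico_eq_sum_range]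
          simp only [add_comm h]
        have e4 : ∑ m ∈ range h, (if m.Prime then f m else 0) ≤ h * F0 := by
          calc ∑ m ∈ range h, (if m.Prime then f m else 0) ≤ ∑ _m ∈ range h, F0 :=
                Finset.sum_le_sum fun m _ => (hP0 m).2
            _ = h * F0 := by rw [Finset.sum_const, Finset.card_range, nsmul_eq_mul]
        have e5 : 0 ≤ ∑ m ∈ range h, (if m.Prime then f m else 0) :=
          Finset.sum_nonneg fun m _ => (hP0 m).1
        constructor <;> linarith
      · rw [Nat.sub_eq_zero_of_le hx, Finset.range_zero, Finset.sum_empty]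
        have e4 : P ≤ x * F0 := by
          rw [hP]
          calc ∑ m ∈ range x, (if m.Prime then f m else 0) ≤ ∑ _m ∈ range x, F0 :=
                Finset.sum_le_sum fun m _ => (hP0 m).2
            _ = x * F0 := by rw [Finset.sum_const, Finset.card_range, nsmul_eq_mul]
        have e5 : 0 ≤ P := by
          rw [hP]
          exact Finset.sum_nonneg fun m _ => (hP0 m).1
        have e6 : (x : ℝ) ≤ h := by exact_mod_cast hx
        have := mul_le_mul_of_nonneg_right e6 hF0
        constructor <;> linarith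
    have c2 : ∑ i ∈ range (x - h), (if (i + h).Prime then f i else 0) ≤
        ∑ n ∈ range x, (if (n + h).Prime then f n else 0) ∧
        ∑ n ∈ range x, (if (n + h).Prime then f n else 0) ≤
        ∑ i ∈ range (x - h), (if (i + h).Prime then f i else 0) + h * F0 := by
      have e3 : ∑ n ∈ range x, (if (n + h).Prime then f n else 0) =
          ∑ i ∈ range (x - h), (if (i + h).Prime then f i else 0) +
          ∑ i ∈ Ico (x - h) x, (if (i + h).Prime then f i else 0) := by
        rw [Finset.sum_range_add_sum_Ico _ (Nat.sub_le x h)]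
      have e4 : ∑ i ∈ Ico (x - h) x, (if (i + h).Prime then f i else 0) ≤ h * F0 := by
        calc ∑ i ∈ Ico (x - h) x, (if (i + h).Prime then f i else 0) ≤ ∑ _i ∈ Ico (x - h) x, F0 :=
              Finset.sum_le_sum fun m _ => (hS0 m).2
          _ = ((x - (x - h) : ℕ) : ℝ) * F0 := by
              rw [Finset.sum_const, Nat.card_Ico, nsmul_eq_mul]
          _ ≤ h * F0 := by
              apply mul_le_mul_of_nonneg_right _ hF0
              have : x - (x - h) ≤ h := by omega
              exact_mod_cast this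
      have e5 : 0 ≤ ∑ i ∈ Ico (x - h) x, (if (i + h).Prime then f i else 0) :=
        Finset.sum_nonneg fun m _ => (hS0 m).1
      constructor <;> linarith
    have c3 : |∑ i ∈ range (x - h), (if (i + h).Prime then f (i + h) else 0) -
        ∑ i ∈ range (x - h), (if (i + h).Prime then f i else 0)| ≤ Q := by
      rw [← Finset.sum_sub_distrib]
      refine (Finset.abs_sum_le_sum_abs _ _).trans ?_
      have e3 : ∀ i ∈ range (x - h), |(if (i + h).Prime then f (i + h) else 0) -
          (if (i + h).Prime then f i else 0)| ≤ (if (i + h).Prime then W (i + h) else 0) := by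
        intro i hi
        rw [Finset.mem_range] at hi
        split_ifs
        · have := hfW (i + h) h (by omega) h2 (by omega) (by omega)
          rw [Nat.add_sub_cancel] at this
          exact this
        · simp
      refine (Finset.sum_le_sum e3).trans ?_
      rcases le_total h x with hx | hx
      · rw [hQ, ← Finset.sum_range_add_sum_Ico _ hx, Finset.sum_Ico_eq_sum_range]
        simp only [add_comm h]
        have : 0 ≤ ∑ m ∈ range h, (if m.Prime then W m else 0) := by
          refine Finset.sum_nonneg fun m _ => ?_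
          split_ifs
          · exact hW m
          · exact le_rfl
        linarith
      · rw [Nat.sub_eq_zero_of_le hx, Finset.range_zero, Finset.sum_empty]
        exact hQ0
    have c4 : (h : ℝ) * F0 ≤ t * F0 := mul_le_mul_of_nonneg_right hhR hF0
    have c5 : 0 ≤ (h : ℝ) * F0 := mul_nonneg (Nat.cast_nonneg h) hF0
    rw [abs_le] at c3 ⊢
    constructor <;> linarith [c1.1, c1.2, c2.1, c2.2, c3.1, c3.2]
  refine (Finset.sum_le_sum key).trans (le_of_eq ?_)
  rw [Finset.sum_const, Nat.card_Ioc, nsmul_eq_mul, Nat.sub_zero]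

end Pool.Agent.R516
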