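import Mathlib
import Pool.Agent.R516.GenA

/-! Primes in windows at positions given by maps: comparison with the local density. -/

set_option autoImplicit false

namespace Pool.Agent.R516

open Finset Filter Topology
open Pool.Agent.H357R2.SI (pc pc_add pc_zero pc_eq_sub pc_mono pc_anti piS piS_nat)
open Pool.Agent.W123.FS (badset)

open Classical in
/-- the exceptional integers of the upper bound, together with `0` -/
noncomputable def HH (N : ℕ) (H0 c : ℝ) : Finset ℕ :=
  insert 0 ((Icc 1 (2 * N)).filter (fun n => n ∈ Hi (2 * N) H0 (c / Real.log ((2 * N : ℕ) : ℝ))))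

theorem notHH {N n : ℕ} {H0 c : ℝ} (h : n ∉ HH N H0 c) (hn : n ≤ 2 * N) :
    1 ≤ n ∧ n ∉ Hi (2 * N) H0 (c / Real.log ((2 * N : ℕ) : ℝ)) := by
  classical
  unfold HH at h
  rw [Finset.mem_insert, not_or] at h
  have h1 : 1 ≤ n := Nat.one_le_iff_ne_zero.2 h.1
  refine ⟨h1, fun h2 => h.2 ?_⟩
  rw [Finset.mem_filter]
  exact ⟨Finset.mem_Icc.2 ⟨h1, hn⟩, h2⟩

/-- the data shared by the comparison lemmas -/
structure Dat (N : ℕ) (A A' H0 δ c e C : ℝ) : Prop where
  hN : 2 ≤ N
  hL1 : 1 ≤ Real.log N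
  hA : 1 ≤ A
  hA' : A' ≤ N
  hAA' : A ≤ A'
  hH : H0 ≤ A
  hδ : 0 ≤ δ
  he : 0 ≤ e
  hc : 18 / 5 ≤ c
  hcc : c + c / A ≤ 18 / 5 + e
  hC1 : 2 * c + 1 ≤ C

/-- the local density -/
noncomputable def tt (N : ℕ) (A : ℝ) (n : ℕ) : ℝ := min (rd N A n) (18 / 5)

theorem tt_bd {N : ℕ} {A : ℝ} (hA : 0 ≤ A) (n : ℕ) : 0 ≤ tt N A n ∧ tt N A n ≤ 18 / 5 :=
  ⟨le_min (rd_nonneg N A hA n) (by norm_num), min_le_right _ _⟩

theorem point {N : ℕ} {A A' H0 δ c e C : ℝ} (d : Dat N A A' H0 δ c e C) {n w : ℕ} (hn : n < N)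
    (hw : A ≤ w) (hw' : w ≤ A') (h1 : n ∉ HH N H0 c) (h2 : n ∉ badset δ N A A') :
    |nx N n w - tt N A n| ≤ 2 * δ + e := by
  obtain ⟨hN, hL1, hA, hA', hAA', hH, hδ, he, hc, hcc, hC1⟩ := d
  obtain ⟨g1, g2⟩ := notHH h1 (by omega)
  have k1 := xl_close hA (adm0 hw hw') hN hδ hn h2
  have k2 := rd_le hN (by linarith) g1 hn g2 hA (hAA'.trans hA') hH
  have k3 : |rd N A n - tt N A n| ≤ e := by
    unfold tt
    have a1 : min (rd N A n) (18 / 5) ≤ rd N A n := min_le_left _ _
    have a2 : rd N A n - e ≤ min (rd N A n) (18 / 5) := le_min (by linarith) (by linarith)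
    rw [abs_le]
    constructor <;> linarith
  rw [nx_eq]
  push_cast at k1
  have k4 := abs_sub_le (xl N n 0 w) (rd N A n) (tt N A n)
  linarith

theorem nx_le {N : ℕ} {A A' H0 δ c e C : ℝ} (d : Dat N A A' H0 δ c e C) {n w : ℕ} (hn : n < N)
    (hw : A ≤ w) (hw' : w ≤ A') (h1 : n ∉ HH N H0 c) : nx N n w ≤ 2 * c := by
  obtain ⟨hN, hL1, hA, hA', hAA', hH, hδ, he, hc, hcc, hC1⟩ := d
  obtain ⟨g1, g2⟩ := notHH h1 (by omega)
  have := xl_hi hA (adm0 hw hw') hN (by linarith) g1 hn hA' g2 hH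
  rw [nx_eq]
  push_cast at this
  linarith

theorem nx_triv' {N : ℕ} {A A' H0 δ c e C : ℝ} (d : Dat N A A' H0 δ c e C) {n w : ℕ}
    (hw : A ≤ w) : 0 ≤ nx N n w ∧ nx N n w ≤ Real.log N := by
  apply nx_triv
  have := d.hA
  have : (1 : ℝ) ≤ w := by linarith
  exact_mod_cast this

open Classical in
/-- sums over sets -/
theorem gen_set {k D N x j : ℕ} (hjk : j ≤ k) {A A' H0 δ c e C : ℝ}
    (d : Dat N A A' H0 δ c e C) (hx : x ≤ N) (w : Fin j → ℕ)
    (hw : ∀ l, A ≤ w l ∧ (w l : ℝ) ≤ A') (g : Fin j → ℕ → ℕ) (hgN : ∀ l, ∀ n < x, g l n < N)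
    (hgf : ∀ l, Fib D x (g l)) (S : Finset ℕ) (hS : S ⊆ range x) :
    |∑ n ∈ S, ∏ l, nx N (g l n) (w l) - ∑ n ∈ S, ∏ l, tt N A (g l n)| ≤
      N * (k * C ^ k * (2 * δ + e)) + k * (D * ((badset δ N A A').card * (2 * C ^ k))) +
        k * (D * ((HH N H0 c).card * (Real.log N ^ k + C ^ k))) := by
  have hd := d
  obtain ⟨hN, hL1, hA, hA', hAA', hH, hδ, he, hc, hcc, hC1⟩ := d
  have hC1' : 1 ≤ C := by linarith
  have hC0 : 0 ≤ C := by linarith
  have hL0 : 0 < Real.log N := by linarith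
  have hjR : (j : ℝ) ≤ k := by exact_mod_cast hjk
  have hCjk : C ^ j ≤ C ^ k := pow_le_pow_right₀ hC1' hjk
  have hLjk : Real.log N ^ j ≤ Real.log N ^ k := pow_le_pow_right₀ hL1 hjk
  have hCk0 : 0 ≤ C ^ k := pow_nonneg hC0 _
  have hLk0 : 0 ≤ Real.log N ^ k := pow_nonneg hL0.le _
  have hA0 : 0 ≤ A := by linarith
  have ht : ∀ n, 0 ≤ ∏ l, tt N A (g l n) ∧ ∏ l, tt N A (g l n) ≤ C ^ k := by
    intro n
    refine ⟨Finset.prod_nonneg fun l _ => (tt_bd hA0 _).1, ?_⟩
    calc ∏ l, tt N A (g l n) ≤ ∏ _l : Fin j, C :=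
          Finset.prod_le_prod (fun l _ => (tt_bd hA0 _).1)
            (fun l _ => (tt_bd hA0 _).2.trans (by linarith))
      _ = C ^ j := by simp
      _ ≤ _ := hCjk
  have hp0 : ∀ n, 0 ≤ ∏ l, nx N (g l n) (w l) := fun n =>
    Finset.prod_nonneg fun l _ => (nx_triv' hd (hw l).1).1
  have hB0 : 0 ≤ k * C ^ k * (2 * δ + e) := by positivity
  have hcase : ∀ n ∈ S, |∏ l, nx N (g l n) (w l) - ∏ l, tt N A (g l n)| ≤
      k * C ^ k * (2 * δ + e) + ∑ l, (if g l n ∈ badset δ N A A' then 2 * C ^ k else 0) +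
        ∑ l, (if g l n ∈ HH N H0 c then Real.log N ^ k + C ^ k else 0) := by
    intro n hn
    have hnx : n < x := Finset.mem_range.1 (hS hn)
    have hs1 : ∀ l : Fin j, 0 ≤ (if g l n ∈ badset δ N A A' then 2 * C ^ k else 0) := by
      intro l; split_ifs <;> positivity
    have hs2 : ∀ l : Fin j, 0 ≤ (if g l n ∈ HH N H0 c then Real.log N ^ k + C ^ k else 0) := by
      intro l; split_ifs <;> positivity
    have hs1' : 0 ≤ ∑ l, (if g l n ∈ badset δ N A A' then 2 * C ^ k else 0) :=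
      Finset.sum_nonneg fun l _ => hs1 l
    have hs2' : 0 ≤ ∑ l, (if g l n ∈ HH N H0 c then Real.log N ^ k + C ^ k else 0) :=
      Finset.sum_nonneg fun l _ => hs2 l
    by_cases h1 : ∃ l, g l n ∈ HH N H0 c
    · obtain ⟨l, hl⟩ := h1
      have h2 : Real.log N ^ k + C ^ k ≤
          ∑ l, (if g l n ∈ HH N H0 c then Real.log N ^ k + C ^ k else 0) := by
        have := Finset.single_le_sum (fun l _ => hs2 l) (Finset.mem_univ l)
        rw [if_pos hl] at this
        exact this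
      have h5 : ∏ l, nx N (g l n) (w l) ≤ Real.log N ^ k := by
        calc ∏ l, nx N (g l n) (w l) ≤ ∏ _l : Fin j, Real.log N :=
              Finset.prod_le_prod (fun l _ => (nx_triv' hd (hw l).1).1)
                (fun l _ => (nx_triv' hd (hw l).1).2)
          _ = Real.log N ^ j := by simp
          _ ≤ _ := hLjk
      have h6 := hp0 n
      have h7 := ht n
      rw [abs_le]
      constructor <;> linarith [h7.1, h7.2]
    · push Not at h1
      have h5 : ∀ l, nx N (g l n) (w l) ≤ C := fun l =>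
        (nx_le hd (hgN l n hnx) (hw l).1 (hw l).2 (h1 l)).trans (by linarith)
      by_cases h2 : ∃ l, g l n ∈ badset δ N A A'
      · obtain ⟨l, hl⟩ := h2
        have h2 : 2 * C ^ k ≤ ∑ l, (if g l n ∈ badset δ N A A' then 2 * C ^ k else 0) := by
          have := Finset.single_le_sum (fun l _ => hs1 l) (Finset.mem_univ l)
          rw [if_pos hl] at this
          exact this
        have h6 : ∏ l, nx N (g l n) (w l) ≤ C ^ k := by
          calc ∏ l, nx N (g l n) (w l) ≤ ∏ _l : Fin j, C :=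
                Finset.prod_le_prod (fun l _ => (nx_triv' hd (hw l).1).1) (fun l _ => h5 l)
            _ = C ^ j := by simp
            _ ≤ _ := hCjk
        have h7 := ht n
        have h8 := hp0 n
        rw [abs_le]
        constructor <;> linarith [h7.1, h7.2]
      · push Not at h2
        have h3 := prod_close2 (Finset.univ : Finset (Fin j)) (fun l => nx N (g l n) (w l))
          (fun l => tt N A (g l n)) (2 * δ + e) C hC1' (by positivity) (fun l _ => ⟨by
            rw [abs_of_nonneg (nx_triv' hd (hw l).1).1]; exact h5 l, by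
            rw [abs_of_nonneg (tt_bd hA0 _).1]; exact (tt_bd hA0 _).2.trans (by linarith), 
            point hd (hgN l n hnx) (hw l).1 (hw l).2 (h1 l) (h2 l)⟩)
        rw [Finset.card_univ, Fintype.card_fin] at h3
        have h4 : (j : ℝ) * C ^ j * (2 * δ + e) ≤ k * C ^ k * (2 * δ + e) := by
          apply mul_le_mul_of_nonneg_right _ (by positivity)
          exact mul_le_mul hjR hCjk (pow_nonneg hC0 _) (Nat.cast_nonneg k)
        linarith
  rw [← Finset.sum_sub_distrib]
  refine (Finset.abs_sum_le_sum_abs _ _).trans ?_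
  refine (Finset.sum_le_sum hcase).trans ?_
  rw [Finset.sum_add_distrib, Finset.sum_add_distrib]
  have s1 : ∑ _n ∈ S, (k * C ^ k * (2 * δ + e)) ≤ N * (k * C ^ k * (2 * δ + e)) := by
    rw [Finset.sum_const, nsmul_eq_mul]
    apply mul_le_mul_of_nonneg_right _ hB0
    have h1 := Finset.card_le_card hS
    rw [Finset.card_range] at h1
    exact_mod_cast h1.trans hx
  have s2 := fib_sum hgf (badset δ N A A') (F := 2 * C ^ k) (by positivity) S hS
  have s3 := fib_sum hgf (HH N H0 c) (F := Real.log N ^ k + C ^ k) (by positivity) S hS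
  have s4 : (j : ℝ) * (D * ((badset δ N A A').card * (2 * C ^ k))) ≤
      k * (D * ((badset δ N A A').card * (2 * C ^ k))) :=
    mul_le_mul_of_nonneg_right hjR (by positivity)
  have s5 : (j : ℝ) * (D * ((HH N H0 c).card * (Real.log N ^ k + C ^ k))) ≤
      k * (D * ((HH N H0 c).card * (Real.log N ^ k + C ^ k))) :=
    mul_le_mul_of_nonneg_right hjR (by positivity)
  linarith

/-- maps with bounded speed and bounded fibres -/
structure Mp (D x N : ℕ) (g : ℕ → ℕ) : Prop where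
  lt : ∀ n < x, g n < N
  fib : Fib D x g
  lip : ∀ a b, a ≤ b → b < x → g b ≤ g a + D * (b - a) ∧ g a ≤ g b + D * (b - a)

open Classical in
/-- the weights that control the swap -/
noncomputable def Wt (j : ℕ) (N : ℕ) (H0 c : ℝ) (w : Fin j → ℕ) (g : Fin j → ℕ → ℕ) (Y F0 : ℝ)
    (m : ℕ) : ℝ :=
  Y + ∑ l, (if g l m ∈ HH N H0 c then F0 else 0) +
    ∑ l, (if g l m + w l ∈ HH N H0 c then F0 else 0)

open Classical in
theorem gen_move {k D N x j t : ℕ} (hjk : j ≤ k) {A A' H0 δ c e C Q : ℝ} (hD : 1 ≤ D)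
    (d : Dat N A A' H0 δ c e C) (hx : x ≤ N) (w : Fin j → ℕ)
    (hw : ∀ l, A ≤ w l ∧ (w l : ℝ) ≤ A' ∧ 4 * c * ((D * t : ℕ) : ℝ) ≤ Q * w l) (hQ : Q ≤ 1)
    (hQ0 : 0 ≤ Q) (hNN : A' + ((D * t : ℕ) : ℝ) ≤ N) (htH : H0 ≤ ((D * t : ℕ) : ℝ)) (ht : 1 ≤ t)
    (g : Fin j → ℕ → ℕ) (hg : ∀ l, Mp D x N (g l)) (m h : ℕ) (hh : 1 ≤ h) (hht : h ≤ t)
    (hhm : h ≤ m) (hmx : m < x) :
    |∏ l, nx N (g l m) (w l) - ∏ l, nx N (g l (m - h)) (w l)| ≤
      Wt j N H0 c w g (k * C ^ k * Q) (Real.log N ^ k) m := by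
  have hd := d
  obtain ⟨hN, hL1, hA, hA', hAA', hH, hδ, he, hc, hcc, hC1⟩ := d
  have hC1' : 1 ≤ C := by linarith
  have hC0 : 0 ≤ C := by linarith
  have hL0 : 0 < Real.log N := by linarith
  have hjR : (j : ℝ) ≤ k := by exact_mod_cast hjk
  have hCjk : C ^ j ≤ C ^ k := pow_le_pow_right₀ hC1' hjk
  have hLjk : Real.log N ^ j ≤ Real.log N ^ k := pow_le_pow_right₀ hL1 hjk
  have hLk0 : 0 ≤ Real.log N ^ k := pow_nonneg hL0.le _
  have hY0 : 0 ≤ k * C ^ k * Q := by positivity
  have hs1 : ∀ l : Fin j, 0 ≤ (if g l m ∈ HH N H0 c then Real.log N ^ k else 0) := by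
    intro l; split_ifs <;> positivity
  have hs2 : ∀ l : Fin j, 0 ≤ (if g l m + w l ∈ HH N H0 c then Real.log N ^ k else 0) := by
    intro l; split_ifs <;> positivity
  have hs1' : 0 ≤ ∑ l, (if g l m ∈ HH N H0 c then Real.log N ^ k else 0) :=
    Finset.sum_nonneg fun l _ => hs1 l
  have hs2' : 0 ≤ ∑ l, (if g l m + w l ∈ HH N H0 c then Real.log N ^ k else 0) :=
    Finset.sum_nonneg fun l _ => hs2 l
  have hp : ∀ n, 0 ≤ ∏ l, nx N (g l n) (w l) ∧ ∏ l, nx N (g l n) (w l) ≤ Real.log N ^ k := by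
    intro n
    refine ⟨Finset.prod_nonneg fun l _ => (nx_triv' hd (hw l).1).1, ?_⟩
    calc ∏ l, nx N (g l n) (w l) ≤ ∏ _l : Fin j, Real.log N :=
          Finset.prod_le_prod (fun l _ => (nx_triv' hd (hw l).1).1)
            (fun l _ => (nx_triv' hd (hw l).1).2)
      _ = Real.log N ^ j := by simp
      _ ≤ _ := hLjk
  have htriv : |∏ l, nx N (g l m) (w l) - ∏ l, nx N (g l (m - h)) (w l)| ≤ Real.log N ^ k := by
    have h1 := hp m
    have h2 := hp (m - h)
    rw [abs_le]
    constructor <;> linarith [h1.1, h1.2, h2.1, h2.2]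
  unfold Wt
  by_cases h1 : ∃ l, g l m ∈ HH N H0 c
  · obtain ⟨l, hl⟩ := h1
    have h2 : Real.log N ^ k ≤ ∑ l, (if g l m ∈ HH N H0 c then Real.log N ^ k else 0) := by
      have := Finset.single_le_sum (fun l _ => hs1 l) (Finset.mem_univ l)
      rw [if_pos hl] at this
      exact this
    linarith
  by_cases h2 : ∃ l, g l m + w l ∈ HH N H0 c
  · obtain ⟨l, hl⟩ := h2
    have h2 : Real.log N ^ k ≤ ∑ l, (if g l m + w l ∈ HH N H0 c then Real.log N ^ k else 0) := by
      have := Finset.single_le_sum (fun l _ => hs2 l) (Finset.mem_univ l)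
      rw [if_pos hl] at this
      exact this
    linarith
  push Not at h1 h2
  have hE1 : 1 ≤ D * t := Nat.one_le_iff_ne_zero.2 (Nat.mul_ne_zero (by omega) (by omega))
  have hmove : ∀ l, |nx N (g l m) (w l) - nx N (g l (m - h)) (w l)| ≤ Q := by
    intro l
    have hgm := (hg l).lt m hmx
    obtain ⟨q1, q2⟩ := (hg l).lip (m - h) m (by omega) hmx
    have q3 : m - (m - h) = h := by omega
    rw [q3] at q1 q2
    have q4 : D * h ≤ D * t := Nat.mul_le_mul_left D hht
    have hwN : w l + D * t ≤ N := by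
      have : (w l : ℝ) + ((D * t : ℕ) : ℝ) ≤ N := by linarith [(hw l).2.1]
      exact_mod_cast this
    have q5 := pcn_move (a := g l m) (a' := g l (m - h)) (w := w l) (E := D * t) (by omega)
      (by omega)
    obtain ⟨r1, r2⟩ := notHH (h1 l) (by omega)
    obtain ⟨r3, r4⟩ := notHH (h2 l) (by omega)
    have q6 := near hN (by linarith) r1 hE1 htH (by omega) r2
    have q7 := near hN (by linarith) r3 hE1 htH (by omega) r4
    have hw0 : (0 : ℝ) < w l := by linarith [(hw l).1]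
    have q8 : nx N (g l m) (w l) - nx N (g l (m - h)) (w l) =
        -(((pcn (g l (m - h)) (g l (m - h) + w l) : ℝ) - pcn (g l m) (g l m + w l)) *
          Real.log N / w l) := by
      unfold nx
      ring
    rw [q8, abs_neg, abs_div, abs_mul, abs_of_pos hL0, abs_of_pos hw0, div_le_iff₀ hw0]
    have q9 := mul_le_mul_of_nonneg_right q5 hL0.le
    have q10 := (hw l).2.2
    rw [add_mul] at q9
    linarith
  have h3 := prod_close2 (Finset.univ : Finset (Fin j)) (fun l => nx N (g l m) (w l))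
    (fun l => nx N (g l (m - h)) (w l)) Q C hC1' hQ0 (fun l _ => by
      have a1 := nx_le hd ((hg l).lt m hmx) (hw l).1 (hw l).2.1 (h1 l)
      have a2 := (nx_triv' hd (n := g l m) (hw l).1).1
      have a3 := (nx_triv' hd (n := g l (m - h)) (hw l).1).1
      have a4 := abs_le.1 (hmove l)
      refine ⟨?_, ?_, hmove l⟩
      · rw [abs_of_nonneg a2]; linarith
      · rw [abs_of_nonneg a3]; linarith [a4.1, a4.2])
  rw [Finset.card_univ, Fintype.card_fin] at h3
  have h4 : (j : ℝ) * C ^ j * Q ≤ k * C ^ k * Q := by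
    apply mul_le_mul_of_nonneg_right _ hQ0
    exact mul_le_mul hjR hCjk (pow_nonneg hC0 _) (Nat.cast_nonneg k)
  linarith

open Classical in
/-- sums over primes, compared with sums weighted by the density in `(n, n + t]` -/
theorem gen_swap {k D N x j t : ℕ} (hjk : j ≤ k) {A A' H0 δ c e C Q : ℝ} (hD : 1 ≤ D)
    (d : Dat N A A' H0 δ c e C) (hx : x ≤ N) (w : Fin j → ℕ)
    (hw : ∀ l, A ≤ w l ∧ (w l : ℝ) ≤ A' ∧ 4 * c * ((D * t : ℕ) : ℝ) ≤ Q * w l) (hQ : Q ≤ 1)
    (hQ0 : 0 ≤ Q) (hNN : A' + ((D * t : ℕ) : ℝ) ≤ N) (htH : H0 ≤ ((D * t : ℕ) : ℝ)) (ht : 1 ≤ t)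
    (g : Fin j → ℕ → ℕ) (hg : ∀ l, Mp D x N (g l))
    (hpi : (Nat.primeCounting N : ℝ) * Real.log N ≤ 2 * N) :
    |Real.log N * ∑ m ∈ range x, (if m.Prime then ∏ l, nx N (g l m) (w l) else 0) -
      ∑ n ∈ range x, nx N n t * ∏ l, nx N (g l n) (w l)| ≤
      2 * t * Real.log N ^ (k + 1) + 2 * N * (k * C ^ k * Q) +
        2 * (k * (D * ((HH N H0 c).card * Real.log N ^ (k + 1)))) := by
  have hd := d
  obtain ⟨hN, hL1, hA, hA', hAA', hH, hδ, he, hc, hcc, hC1⟩ := d
  have hC0 : 0 ≤ C := by linarith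
  have hL0 : 0 < Real.log N := by linarith
  have ht0 : (0 : ℝ) < t := by exact_mod_cast ht
  have hjR : (j : ℝ) ≤ k := by exact_mod_cast hjk
  have hLjk : Real.log N ^ j ≤ Real.log N ^ k := pow_le_pow_right₀ hL1 hjk
  have hLk0 : 0 ≤ Real.log N ^ k := pow_nonneg hL0.le _
  have hY0 : 0 ≤ k * C ^ k * Q := by positivity
  have hp : ∀ n, 0 ≤ ∏ l, nx N (g l n) (w l) ∧ ∏ l, nx N (g l n) (w l) ≤ Real.log N ^ k := by
    intro n
    refine ⟨Finset.prod_nonneg fun l _ => (nx_triv' hd (hw l).1).1, ?_⟩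
    calc ∏ l, nx N (g l n) (w l) ≤ ∏ _l : Fin j, Real.log N :=
          Finset.prod_le_prod (fun l _ => (nx_triv' hd (hw l).1).1)
            (fun l _ => (nx_triv' hd (hw l).1).2)
      _ = Real.log N ^ j := by simp
      _ ≤ _ := hLjk
  have hW0 : ∀ m, 0 ≤ Wt j N H0 c w g (k * C ^ k * Q) (Real.log N ^ k) m := by
    intro m
    unfold Wt
    have s1 : 0 ≤ ∑ l, (if g l m ∈ HH N H0 c then Real.log N ^ k else 0) :=
      Finset.sum_nonneg fun l _ => by split_ifs <;> positivity
    have s2 : 0 ≤ ∑ l, (if g l m + w l ∈ HH N H0 c then Real.log N ^ k else 0) :=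
      Finset.sum_nonneg fun l _ => by split_ifs <;> positivity
    positivity
  have h1 := swapP (fun n => ∏ l, nx N (g l n) (w l))
    (Wt j N H0 c w g (k * C ^ k * Q) (Real.log N ^ k)) (Real.log N ^ k) hp hW0 x t
    (fun m h a1 a2 a3 a4 => gen_move hjk hD hd hx w hw hQ hQ0 hNN htH ht g hg m h a1 a2 a3 a4)
  beta_reduce at h1
  -- the sum of the weights
  have h2 : ∑ m ∈ range x, (if m.Prime then Wt j N H0 c w g (k * C ^ k * Q) (Real.log N ^ k) m
      else 0) ≤ Nat.primeCounting N * (k * C ^ k * Q) +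
        2 * (k * (D * ((HH N H0 c).card * Real.log N ^ k))) := by
    have e1 : ∀ m ∈ range x, (if m.Prime then
        Wt j N H0 c w g (k * C ^ k * Q) (Real.log N ^ k) m else 0) ≤
        (if m.Prime then k * C ^ k * Q else 0) +
          ∑ l, (if g l m ∈ HH N H0 c then Real.log N ^ k else 0) +
            ∑ l, (if (fun n => g l n + w l) m ∈ HH N H0 c then Real.log N ^ k else 0) := by
      intro m _
      have s1 : 0 ≤ ∑ l, (if g l m ∈ HH N H0 c then Real.log N ^ k else 0) :=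
        Finset.sum_nonneg fun l _ => by split_ifs <;> positivity
      have s2 : 0 ≤ ∑ l, (if g l m + w l ∈ HH N H0 c then Real.log N ^ k else 0) :=
        Finset.sum_nonneg fun l _ => by split_ifs <;> positivity
      by_cases hm : m.Prime
      · rw [if_pos hm, if_pos hm]
        exact le_rfl
      · rw [if_neg hm, if_neg hm]
        beta_reduce
        linarith
    refine (Finset.sum_le_sum e1).trans ?_
    rw [Finset.sum_add_distrib, Finset.sum_add_distrib]
    have s1 : ∑ m ∈ range x, (if m.Prime then k * C ^ k * Q else 0) ≤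
        Nat.primeCounting N * (k * C ^ k * Q) := by
      rw [← Finset.sum_filter, Finset.sum_const, nsmul_eq_mul]
      apply mul_le_mul_of_nonneg_right _ hY0
      have : ((range x).filter Nat.Prime).card ≤ Nat.primeCounting N := by
        rw [Nat.primeCounting, Nat.primeCounting', Nat.count_eq_card_filter_range]
        refine Finset.card_le_card (Finset.filter_subset_filter _ ?_)
        exact Finset.range_subset_range.2 (by omega)
      exact_mod_cast this
    have s2 := fib_sum (fun l => (hg l).fib) (HH N H0 c) (F := Real.log N ^ k) hLk0 (range x)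
      subset_rfl
    have hfib : ∀ l, Fib D x ((fun (l : Fin j) (n : ℕ) => g l n + w l) l) := by
      intro l y
      beta_reduce
      rcases le_or_gt (w l) y with hy | hy
      · refine le_trans (Finset.card_le_card ?_) ((hg l).fib (y - w l))
        intro n hn
        rw [Finset.mem_filter] at hn ⊢
        exact ⟨hn.1, by omega⟩
      · have : ((range x).filter (fun n => g l n + w l = y)) = ∅ := by
          rw [Finset.filter_eq_empty_iff]
          intro n _ h
          omega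
        rw [this, Finset.card_empty]
        exact Nat.zero_le _
    have s3 := fib_sum hfib (HH N H0 c) (F := Real.log N ^ k) hLk0 (range x) subset_rfl
    have s4 : (j : ℝ) * (D * ((HH N H0 c).card * Real.log N ^ k)) ≤
        k * (D * ((HH N H0 c).card * Real.log N ^ k)) :=
      mul_le_mul_of_nonneg_right hjR (by positivity)
    beta_reduce at s3 ⊢
    linarith
  obtain ⟨Z, hZ⟩ : ∃ Z : ℝ, Z = ∑ m ∈ range x, (if m.Prime then
    Wt j N H0 c w g (k * C ^ k * Q) (Real.log N ^ k) m else 0) := ⟨_, rfl⟩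
  rw [← hZ] at h1 h2
  have h3 : Real.log N * ∑ m ∈ range x, (if m.Prime then ∏ l, nx N (g l m) (w l) else 0) -
      ∑ n ∈ range x, nx N n t * ∏ l, nx N (g l n) (w l) =
      (t * ∑ m ∈ range x, (if m.Prime then ∏ l, nx N (g l m) (w l) else 0) -
        ∑ n ∈ range x, (pcn n (n + t) : ℝ) * ∏ l, nx N (g l n) (w l)) * (Real.log N / t) := by
    rw [sub_mul, Finset.sum_mul]
    congr 1
    · field_simp
    · refine Finset.sum_congr rfl fun n _ => ?_
      have : nx N n t = (pcn n (n + t) : ℝ) * (Real.log N / t) := by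
        unfold nx
        ring
      rw [this]
      ring
  rw [h3, abs_mul, abs_of_nonneg (by positivity : 0 ≤ Real.log N / t)]
  calc _ ≤ (t * (2 * t * Real.log N ^ k + Z)) * (Real.log N / t) :=
        mul_le_mul_of_nonneg_right h1 (by positivity)
    _ = 2 * t * Real.log N ^ (k + 1) + Z * Real.log N := by
        rw [pow_succ]
        field_simp
    _ ≤ 2 * t * Real.log N ^ (k + 1) + (Nat.primeCounting N * (k * C ^ k * Q) +
        2 * (k * (D * ((HH N H0 c).card * Real.log N ^ k)))) * Real.log N := by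
        have := mul_le_mul_of_nonneg_right h2 hL0.le
        linarith
    _ = 2 * t * Real.log N ^ (k + 1) + (Nat.primeCounting N * Real.log N) * (k * C ^ k * Q) +
        2 * (k * (D * ((HH N H0 c).card * Real.log N ^ (k + 1)))) := by
        rw [pow_succ]
        ring
    _ ≤ _ := by
        have := mul_le_mul_of_nonneg_right hpi hY0
        linarith

end Pool.Agent.R516
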