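import Mathlib
import Pool.Agent.R516.GenB

/-! Primes in windows at positions given by maps: the main theorem. -/

set_option autoImplicit false

namespace Pool.Agent.R516

open Finset Filter Topology
open Pool.Agent.H357R2.SI (pc pc_add pc_zero pc_eq_sub pc_mono pc_anti piS piS_nat)
open Pool.Agent.W123.FS (badset)

theorem mean_x {N x w : ℕ} {d L : ℝ} (hL : L = Real.log N)
    (hwN : w ≤ N) (hx : x ≤ N) (hpi : ∀ m : ℕ, m ≤ 2 * N →
      |(Nat.primeCounting m : ℝ) - m / Real.log N| ≤ d * N / Real.log N) :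
    |∑ n ∈ range x, (pcn n (n + w) : ℝ) - w * (x / L)| ≤ w * (2 * d * N / L) := by
  have e0 := sum_pcn x w
  simp only [add_zero] at e0
  rw [e0]
  have e : (w : ℝ) * (x / L) = ∑ _h ∈ Ioc 0 w, ((x : ℝ) / L) := by
    rw [Finset.sum_const, Nat.card_Ioc, nsmul_eq_mul, Nat.sub_zero]
  have e2 : (w : ℝ) * (2 * d * N / L) = ∑ _h ∈ Ioc 0 w, (2 * d * N / L) := by
    rw [Finset.sum_const, Nat.card_Ioc, nsmul_eq_mul, Nat.sub_zero]
  rw [e, e2, ← Finset.sum_sub_distrib]
  refine (Finset.abs_sum_le_sum_abs _ _).trans (Finset.sum_le_sum fun h hh => ?_)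
  obtain ⟨h1, h2⟩ := Finset.mem_Ioc.1 hh
  have g1 := hpi (x + h - 1) (by omega)
  have g2 := hpi (h - 1) (by omega)
  rw [← hL] at g1 g2
  have e3 : ((x + h - 1 : ℕ) : ℝ) = x + ((h - 1 : ℕ) : ℝ) := by
    have : x + h - 1 = x + (h - 1) := by omega
    rw [this]
    push_cast
    ring
  rw [e3] at g1
  rw [abs_le] at g1 g2 ⊢
  have e4 : ((x : ℝ) + ((h - 1 : ℕ) : ℝ)) / L = x / L + ((h - 1 : ℕ) : ℝ) / L := by ring
  have e5 : 2 * d * N / L = 2 * (d * N / L) := by ring
  rw [e4] at g1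
  rw [e5]
  constructor <;> linarith [g1.1, g1.2, g2.1, g2.2]

theorem fib_id {D x : ℕ} (hD : 1 ≤ D) : Fib D x (fun n => n) := by
  intro y
  refine le_trans (Finset.card_le_card (t := {y}) ?_) (by simpa using hD)
  intro n hn
  rw [Finset.mem_filter] at hn
  exact Finset.mem_singleton.2 hn.2

open Classical in
theorem gen (hU : St_U) (k D : ℕ) (hD : 1 ≤ D) (η : ℝ) (hη : 0 < η) :
    ∃ K : ℕ, 1 ≤ K ∧ ∀ᶠ N : ℕ in atTop,
    ∀ (R : ℕ) (T : ℕ → ℝ), Real.log N ^ (k + 23) ≤ T 0 → (∀ i < R, 2 * T i ≤ T (i + 1)) →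
      T R ≤ N / Real.log N ^ (k + 4) → ∃ B : Finset ℕ, B.card ≤ K ∧ ∀ i < R, i ∉ B →
        ∃ θ : ℕ → ℝ, (∀ n, 0 ≤ θ n ∧ θ n ≤ 18 / 5) ∧
        (∀ x ≤ N, |∑ n ∈ range x, θ n - x| ≤ η * N) ∧
        (∀ j ≤ k, ∀ w : Fin j → ℕ, (∀ l, T i ≤ w l ∧ (w l : ℝ) ≤ T (i + 1)) → ∀ x ≤ N,
          ∀ g : Fin j → ℕ → ℕ, (∀ l, (∀ n < x, g l n < N) ∧ Fib D x (g l)) →
          ∀ S : Finset ℕ, S ⊆ range x →
          |∑ n ∈ S, ∏ l, nx N (g l n) (w l) - ∑ n ∈ S, ∏ l, θ (g l n)| ≤ η * N) ∧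
        (∀ j ≤ k, ∀ w : Fin j → ℕ, (∀ l, K * T i ≤ w l ∧ (w l : ℝ) ≤ T (i + 1)) → ∀ x ≤ N,
          ∀ g : Fin j → ℕ → ℕ, (∀ l, Mp D x N (g l)) →
          |Real.log N * ∑ m ∈ range x, (if m.Prime then ∏ l, nx N (g l m) (w l) else 0) -
            ∑ n ∈ range x, θ n * ∏ l, θ (g l n)| ≤ η * N) := by
  obtain ⟨η', hη', hη1, hηη⟩ : ∃ η' : ℝ, 0 < η' ∧ η' ≤ 1 ∧ η' ≤ η :=
    ⟨min η 1, lt_min hη one_pos, min_le_right _ _, min_le_left _ _⟩
  obtain ⟨C, hC⟩ : ∃ C : ℝ, C = 12 := ⟨_, rfl⟩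
  have hC1 : 1 ≤ C := by rw [hC]; norm_num
  have hC0 : 0 < C := by linarith
  have hk0 : (0 : ℝ) ≤ k := Nat.cast_nonneg k
  have hD1 : (1 : ℝ) ≤ D := by exact_mod_cast hD
  have hD0 : (0 : ℝ) < D := by linarith
  have hCk : 1 ≤ C ^ (k + 1) := one_le_pow₀ hC1
  obtain ⟨e, he⟩ : ∃ e : ℝ, e = η' / (64 * (((k : ℝ) + 1) * D * C ^ (k + 1))) := ⟨_, rfl⟩
  have he0 : 0 < e := by rw [he]; positivity
  have heP : ((k : ℝ) + 1) * D * C ^ (k + 1) * e = η' / 64 := by
    rw [he]; field_simp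
  have hP1 : ((k : ℝ) + 1) * C ^ (k + 1) * e ≤ η' / 64 := by
    rw [← heP]
    have h1 : 0 ≤ ((k : ℝ) + 1) * C ^ (k + 1) * e := by positivity
    calc ((k : ℝ) + 1) * C ^ (k + 1) * e = ((k : ℝ) + 1) * C ^ (k + 1) * e * 1 := by ring
      _ ≤ ((k : ℝ) + 1) * C ^ (k + 1) * e * D := mul_le_mul_of_nonneg_left hD1 h1
      _ = _ := by ring
  have hP2 : ((k : ℝ) + 1) * D * e ≤ η' / 64 := by
    rw [← heP]
    have h1 : 0 ≤ ((k : ℝ) + 1) * D * e := by positivity
    calc ((k : ℝ) + 1) * D * e = ((k : ℝ) + 1) * D * e * 1 := by ring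
      _ ≤ ((k : ℝ) + 1) * D * e * C ^ (k + 1) := mul_le_mul_of_nonneg_left hCk h1
      _ = _ := by ring
  have hP3 : e ≤ η' / 64 := by
    refine le_trans ?_ hP2
    have h1 : (1 : ℝ) ≤ ((k : ℝ) + 1) * D := by
      have : (0 : ℝ) ≤ k * D := by positivity
      linarith only [this, hD1]
    calc e = 1 * e := by ring
      _ ≤ _ := mul_le_mul_of_nonneg_right h1 he0.le
  have he1 : e ≤ 1 := by linarith
  have hP4 : (k : ℝ) * C ^ k * e ≤ η' / 64 := by
    refine le_trans ?_ hP1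
    apply mul_le_mul_of_nonneg_right _ he0.le
    exact mul_le_mul (by linarith) (pow_le_pow_right₀ hC1 (by omega)) (by positivity)
      (by linarith)
  obtain ⟨K₀, hK₀⟩ := Pool.Agent.W123.FS.chain e he0
  obtain ⟨κ, hκ, N₀, hN₀⟩ := hU (e / 2) (by positivity)
  obtain ⟨K, hK1, hK2, hK3⟩ : ∃ K : ℕ, 1 ≤ K ∧ K₀ ≤ K ∧ 40 * (D : ℝ) / e ≤ K := by
    refine ⟨max (max 1 K₀) ⌈40 * (D : ℝ) / e⌉₊, (le_max_left 1 K₀).trans (le_max_left _ _),
      (le_max_right 1 K₀).trans (le_max_left _ _), (Nat.le_ceil _).trans ?_⟩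
    exact_mod_cast le_max_right _ _
  refine ⟨K, hK1, ?_⟩
  filter_upwards [hK₀, pi_lin (e / 16) (by positivity), eventually_ge_atTop (max N₀ 2),
    ev_log' (max C (2 ^ 22 * 32 / e + 1)), ev_logpow' (k + 3) (one_pos), ev_logpow' (k + 23) hκ,
    ev_log' (K₀ : ℝ), ev_log' (10 / e), ev_log' ((D : ℝ) + 1),
    ev_log' (32 / η')] with N h1 h2 h3 h4 h5 h6 h7 h8 h9 h10 R T g1 g2 g3
  have hN2 : 2 ≤ N := (le_max_right _ _).trans h3
  have hNN₀ : N₀ ≤ 2 * N := by
    have := (le_max_left N₀ 2).trans h3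
    omega
  have hN2R : (2 : ℝ) ≤ N := by exact_mod_cast hN2
  have hN0 : (0 : ℝ) < N := by linarith
  have hCL : C ≤ Real.log N := (le_max_left _ _).trans h4
  have hL1 : 1 ≤ Real.log N := hC1.trans hCL
  have hL0 : 0 < Real.log N := by linarith
  have hT0 : 1 ≤ T 0 := (one_le_pow₀ hL1).trans g1
  have hKT : (K₀ : ℝ) * Real.log N ≤ T 0 := by
    refine le_trans ?_ g1
    calc (K₀ : ℝ) * Real.log N ≤ Real.log N * Real.log N :=
          mul_le_mul_of_nonneg_right h7 hL0.le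
      _ = Real.log N ^ 2 := by ring
      _ ≤ _ := pow_le_pow_right₀ hL1 (by omega)
  have hNLN : (N : ℝ) / Real.log N ^ (k + 4) ≤ N := by
    apply div_le_self hN0.le
    exact one_le_pow₀ hL1
  obtain ⟨B, hB, hBi⟩ := h1 R T hKT g2 (g3.trans hNLN)
  refine ⟨B, hB.trans hK2, fun i hiR hiB => ?_⟩
  have hbad := hBi i hiR hiB
  have hTi : T 0 ≤ T i := T_mono (by linarith) g2 i (by omega)
  have hTi1 : T (i + 1) ≤ N / Real.log N ^ (k + 4) := by
    have := T_mono' (by linarith : 0 < T 0) g2 (R - (i + 1)) (i + 1) (by omega)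
    rw [show i + 1 + (R - (i + 1)) = R by omega] at this
    linarith
  obtain ⟨A, hAd⟩ : ∃ A, A = T i := ⟨_, rfl⟩
  obtain ⟨A', hAd'⟩ : ∃ A', A' = T (i + 1) := ⟨_, rfl⟩
  have hAA := g2 i hiR
  rw [← hAd] at hTi hbad hAA ⊢
  rw [← hAd'] at hTi1 hbad hAA ⊢
  have hA1 : 1 ≤ A := hT0.trans hTi
  have hA0 : 0 ≤ A := by linarith
  have hAA' : A ≤ A' := by linarith
  have hA'N : A' ≤ N := hTi1.trans hNLN
  obtain ⟨H0, hH0⟩ : ∃ H0 : ℝ, H0 = Real.log N ^ (k + 23) := ⟨_, rfl⟩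
  have hH : H0 ≤ A := by rw [hH0]; exact g1.trans hTi
  have hLT : Real.log N ≤ A := by
    refine le_trans ?_ hH
    rw [hH0]
    calc Real.log N = Real.log N ^ 1 := by ring
      _ ≤ _ := pow_le_pow_right₀ hL1 (by omega)
  have h2N : (N : ℝ) ≤ ((2 * N : ℕ) : ℝ) := by push_cast; linarith
  have h5' : Real.log N ^ (k + 3) ≤ N := by
    rw [Real.rpow_one] at h5
    exact h5
  have h6' : Real.log N ^ (k + 23) ≤ ((2 * N : ℕ) : ℝ) ^ κ :=
    h6.trans (Real.rpow_le_rpow hN0.le h2N hκ.le)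
  obtain ⟨c, hc⟩ : ∃ c : ℝ, c = 18 / 5 + e / 2 := ⟨_, rfl⟩
  have hex := exc_small (k := k) (c := (18 / 5 + e / 2) / Real.log ((2 * N : ℕ) : ℝ)) he0 hC1 hN2 h4
    h5' h6' (fun H a1 a2 => hN₀ (2 * N) hNN₀ H a1 a2)
  rw [← hc, ← hH0] at hex
  have hHHc : ((HH N H0 c).card : ℝ) * (Real.log N ^ (k + 1) + C ^ (k + 1)) ≤ e / 8 * N := by
    have a1 : ((HH N H0 c).card : ℝ) ≤ ((((Icc 1 (2 * N)).filter (fun n => n ∈ Hi (2 * N) H0
        (c / Real.log ((2 * N : ℕ) : ℝ)))).card : ℝ) + 1) := by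
      have := Finset.card_insert_le 0 ((Icc 1 (2 * N)).filter (fun n => n ∈ Hi (2 * N) H0
        (c / Real.log ((2 * N : ℕ) : ℝ))))
      unfold HH
      exact_mod_cast this
    have a2 : 0 ≤ Real.log N ^ (k + 1) + C ^ (k + 1) := by positivity
    have a3 := mul_le_mul_of_nonneg_right a1 a2
    rw [div_mul_eq_mul_div, div_le_iff₀ hN0] at hex
    exact a3.trans hex
  have hcc : c + c / A ≤ 18 / 5 + e := by
    have : c / A ≤ e / 2 := by
      rw [div_le_iff₀ (by linarith)]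
      have h10 : 10 / e ≤ A := h8.trans hLT
      rw [div_le_iff₀ he0] at h10
      rw [hc]
      linarith only [h10, he1]
    rw [hc] at this ⊢
    linarith
  have hd : Dat N A A' H0 e c e C :=
    ⟨hN2, hL1, hA1, hA'N, hAA', hH, he0.le, he0.le, by rw [hc]; linarith, hcc,
      by rw [hc, hC]; linarith⟩
  have hLk : Real.log N ^ k ≤ Real.log N ^ (k + 1) := pow_le_pow_right₀ hL1 (by omega)
  -- the comparison for sets with `k + 1` factors
  have hset : ∀ j ≤ k + 1, ∀ w : Fin j → ℕ, (∀ l, A ≤ w l ∧ (w l : ℝ) ≤ A') → ∀ x ≤ N,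
      ∀ g : Fin j → ℕ → ℕ, (∀ l, (∀ n < x, g l n < N) ∧ Fib D x (g l)) →
      ∀ S : Finset ℕ, S ⊆ range x →
      |∑ n ∈ S, ∏ l, nx N (g l n) (w l) - ∑ n ∈ S, ∏ l, tt N A (g l n)| ≤ η' / 8 * N := by
    intro j hj w hw x hx g hg S hS
    refine (gen_set (k := k + 1) hj hd hx w hw g (fun l => (hg l).1) (fun l => (hg l).2) S
      hS).trans ?_
    push_cast
    have s1 : (N : ℝ) * (((k : ℝ) + 1) * C ^ (k + 1) * (2 * e + e)) ≤ 3 * (η' / 64) * N := by
      have := mul_le_mul_of_nonneg_right hP1 hN0.le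
      linarith
    have s2 : ((k : ℝ) + 1) * (D * ((badset e N A A').card * (2 * C ^ (k + 1)))) ≤
        2 * (η' / 64) * N := by
      have a1 : ((badset e N A A').card : ℝ) ≤ e * N := hbad
      calc ((k : ℝ) + 1) * (D * ((badset e N A A').card * (2 * C ^ (k + 1))))
          ≤ ((k : ℝ) + 1) * (D * ((e * N) * (2 * C ^ (k + 1)))) := by gcongr
        _ = 2 * (((k : ℝ) + 1) * D * C ^ (k + 1) * e) * N := by ring
        _ = _ := by rw [heP]
    have s3 : ((k : ℝ) + 1) * (D * ((HH N H0 c).card * (Real.log N ^ (k + 1) + C ^ (k + 1)))) ≤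
        (η' / 64) * N := by
      calc ((k : ℝ) + 1) * (D * ((HH N H0 c).card * (Real.log N ^ (k + 1) + C ^ (k + 1))))
          ≤ ((k : ℝ) + 1) * (D * (e / 8 * N)) := by gcongr
        _ = ((k : ℝ) + 1) * D * e * (N / 8) := by ring
        _ ≤ η' / 64 * (N / 8) := mul_le_mul_of_nonneg_right hP2 (by positivity)
        _ ≤ _ := by
            have : 0 ≤ η' / 64 * N := by positivity
            linarith
    have s4 : 0 ≤ η' / 64 * N := by positivity
    linarith
  obtain ⟨t, ht⟩ : ∃ t : ℕ, t = ⌈A⌉₊ := ⟨_, rfl⟩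
  have t1 : A ≤ t := by rw [ht]; exact Nat.le_ceil _
  have t2 : (t : ℝ) ≤ A + 1 := by rw [ht]; exact (Nat.ceil_lt_add_one hA0).le
  have t3 : (t : ℝ) ≤ 2 * A := by linarith
  have t4 : (t : ℝ) ≤ A' := by linarith
  have t5 : (1 : ℝ) ≤ t := by linarith
  have t6 : 1 ≤ t := by exact_mod_cast t5
  have t7 : t ≤ N := by
    have : (t : ℝ) ≤ N := by linarith
    exact_mod_cast this
  have t0 : (0 : ℝ) < t := by linarith
  refine ⟨tt N A, tt_bd hA0, ?_, ?_, ?_⟩
  · -- the mean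
    intro x hx
    have k1 := hset 1 (by omega) (fun _ => t) (fun _ => ⟨t1, t4⟩) x hx (fun _ n => n)
      (fun _ => ⟨fun n hn => lt_of_lt_of_le hn hx, fib_id hD⟩) (range x) subset_rfl
    simp only [Finset.univ_unique, Finset.prod_singleton] at k1
    have k2 := mean_x rfl t7 hx h2
    have k3 : |∑ n ∈ range x, nx N n t - x| ≤ 2 * (e / 16) * N := by
      have e1 : ∑ n ∈ range x, nx N n t - x =
          (∑ n ∈ range x, (pcn n (n + t) : ℝ) - t * (x / Real.log N)) * (Real.log N / t) := by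
        rw [sub_mul, Finset.sum_mul]
        congr 1
        · refine Finset.sum_congr rfl fun n _ => ?_
          unfold nx
          ring
        · field_simp
      rw [e1, abs_mul, abs_of_nonneg (by positivity : 0 ≤ Real.log N / t)]
      refine (mul_le_mul_of_nonneg_right k2 (by positivity)).trans (le_of_eq ?_)
      field_simp
    have k4 : 2 * (e / 16) * N ≤ η' / 8 * N := by
      apply mul_le_mul_of_nonneg_right _ hN0.le
      linarith
    have k5 : η' * N ≤ η * N := mul_le_mul_of_nonneg_right hηη hN0.le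
    have k6 : 0 ≤ η' * N := by positivity
    rw [abs_le] at k1 k3 ⊢
    constructor <;> linarith [k1.1, k1.2, k3.1, k3.2]
  · intro j hj w hw x hx g hg S hS
    refine (hset j (by omega) w hw x hx g hg S hS).trans ?_
    have k5 : η' * N ≤ η * N := mul_le_mul_of_nonneg_right hηη hN0.le
    have k6 : 0 ≤ η' * N := by positivity
    linarith
  · intro j hj w hw x hx g hg
    have hKR : (1 : ℝ) ≤ K := by exact_mod_cast hK1
    have hKA : A ≤ K * A := le_mul_of_one_le_left hA0 hKR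
    have hDt : ((D * t : ℕ) : ℝ) ≤ 2 * (D * A) := by
      push_cast
      have := mul_le_mul_of_nonneg_left t3 hD0.le
      linarith
    have hDt' : ((D * t : ℕ) : ℝ) ≤ D * A' := by
      push_cast
      exact mul_le_mul_of_nonneg_left t4 hD0.le
    have hDtA : A ≤ ((D * t : ℕ) : ℝ) := by
      push_cast
      exact t1.trans (le_mul_of_one_le_left t0.le hD1)
    have hw' : ∀ l, A ≤ w l ∧ (w l : ℝ) ≤ A' ∧ 4 * c * ((D * t : ℕ) : ℝ) ≤ e * w l := by
      intro l
      refine ⟨hKA.trans (hw l).1, (hw l).2, ?_⟩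
      have hc5 : c ≤ 5 := by rw [hc]; linarith
      have hc0 : 0 ≤ c := by rw [hc]; linarith
      have hDt0 : (0 : ℝ) ≤ ((D * t : ℕ) : ℝ) := Nat.cast_nonneg _
      calc 4 * c * ((D * t : ℕ) : ℝ) ≤ 4 * 5 * (2 * (D * A)) := by gcongr
        _ = (40 * D) * A := by ring
        _ ≤ (K * e) * A := by
            apply mul_le_mul_of_nonneg_right _ hA0
            rw [div_le_iff₀ he0] at hK3
            exact hK3
        _ = e * (K * A) := by ring
        _ ≤ e * w l := mul_le_mul_of_nonneg_left (hw l).1 he0.le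
    have hNN : A' + ((D * t : ℕ) : ℝ) ≤ N := by
      have a1 : ((D : ℝ) + 1) * A' ≤ Real.log N * (N / Real.log N ^ (k + 4)) :=
        mul_le_mul h9 hTi1 (by linarith) hL0.le
      have a2 : Real.log N * (N / Real.log N ^ (k + 4)) ≤ N := by
        rw [mul_div_assoc', div_le_iff₀ (by positivity), mul_comm]
        apply mul_le_mul_of_nonneg_left _ hN0.le
        calc Real.log N = Real.log N ^ 1 := by ring
          _ ≤ _ := pow_le_pow_right₀ hL1 (by omega)
      linarith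
    have hpiN : (Nat.primeCounting N : ℝ) * Real.log N ≤ 2 * N := by
      have a1 := (abs_le.1 (h2 N (by omega))).2
      have a2 : (Nat.primeCounting N : ℝ) ≤ N / Real.log N + e / 16 * N / Real.log N := by
        linarith
      calc (Nat.primeCounting N : ℝ) * Real.log N
          ≤ (N / Real.log N + e / 16 * N / Real.log N) * Real.log N :=
            mul_le_mul_of_nonneg_right a2 hL0.le
        _ = (1 + e / 16) * N := by field_simp
        _ ≤ 2 * N := by
            apply mul_le_mul_of_nonneg_right _ hN0.le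
            linarith
    have q1 := gen_swap hj hD hd hx w hw' he1 he0.le hNN (hH.trans hDtA) t6 g hg hpiN
    -- the comparison with the extra factor
    have q2 := hset (j + 1) (by omega) (Fin.cons t w) (by
        intro l
        refine Fin.cases ?_ (fun l => ?_) l
        · rw [Fin.cons_zero]; exact ⟨t1, t4⟩
        · rw [Fin.cons_succ]; exact ⟨hKA.trans (hw l).1, (hw l).2⟩) x hx
      (Fin.cons (fun n => n) g : Fin (j + 1) → ℕ → ℕ) (by
        intro l
        refine Fin.cases ?_ (fun l => ?_) l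
        · rw [Fin.cons_zero]; exact ⟨fun n hn => lt_of_lt_of_le hn hx, fib_id hD⟩
        · rw [Fin.cons_succ]; exact ⟨(hg l).lt, (hg l).fib⟩) (range x) subset_rfl
    have q3 : ∀ n, ∏ l, nx N ((Fin.cons (fun n => n) g : Fin (j + 1) → ℕ → ℕ) l n)
        ((Fin.cons t w : Fin (j + 1) → ℕ) l) = nx N n t * ∏ l, nx N (g l n) (w l) := by
      intro n
      rw [Fin.prod_univ_succ]
      simp only [Fin.cons_zero, Fin.cons_succ]
    have q4 : ∀ n, ∏ l, tt N A ((Fin.cons (fun n => n) g : Fin (j + 1) → ℕ → ℕ) l n) =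
        tt N A n * ∏ l, tt N A (g l n) := by
      intro n
      rw [Fin.prod_univ_succ]
      simp only [Fin.cons_zero, Fin.cons_succ]
    rw [Finset.sum_congr rfl (fun n _ => q3 n), Finset.sum_congr rfl (fun n _ => q4 n)] at q2
    have r1 : 2 * t * Real.log N ^ (k + 1) ≤ η' / 8 * N := by
      have a1 : (t : ℝ) ≤ N / Real.log N ^ (k + 4) := t4.trans hTi1
      have hL3 : 16 * Real.log N ^ 0 ≤ η' * Real.log N := by
        rw [div_le_iff₀ hη'] at h10
        rw [pow_zero]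
        linarith
      calc 2 * t * Real.log N ^ (k + 1) ≤ 2 * (N / Real.log N ^ (k + 4)) * Real.log N ^ (k + 1) := by
            gcongr
        _ = 2 * N / Real.log N ^ 3 := by
            rw [show k + 4 = (k + 1) + 3 by ring, pow_add]
            field_simp
        _ ≤ 2 * N / Real.log N := by
            apply div_le_div_of_nonneg_left (by positivity) hL0
            calc Real.log N = Real.log N ^ 1 := by ring
              _ ≤ _ := pow_le_pow_right₀ hL1 (by omega)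
        _ ≤ η' / 8 * N := by
            rw [div_le_iff₀ hL0]
            rw [pow_zero] at hL3
            have := mul_le_mul_of_nonneg_right hL3 hN0.le
            linarith
    have r2 : 2 * N * (k * C ^ k * e) ≤ 2 * (η' / 64) * N := by
      have := mul_le_mul_of_nonneg_left hP4 (by positivity : (0 : ℝ) ≤ 2 * N)
      linarith
    have r3 : 2 * ((k : ℝ) * (D * ((HH N H0 c).card * Real.log N ^ (k + 1)))) ≤
        2 * (η' / 64) * N := by
      have a1 : ((HH N H0 c).card : ℝ) * Real.log N ^ (k + 1) ≤ e / 8 * N := by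
        refine le_trans ?_ hHHc
        apply mul_le_mul_of_nonneg_left _ (Nat.cast_nonneg _)
        have : 0 ≤ C ^ (k + 1) := by positivity
        linarith
      calc 2 * ((k : ℝ) * (D * ((HH N H0 c).card * Real.log N ^ (k + 1))))
          ≤ 2 * (((k : ℝ) + 1) * (D * (e / 8 * N))) := by gcongr; linarith
        _ = 2 * (((k : ℝ) + 1) * D * e * (N / 8)) := by ring
        _ ≤ 2 * (η' / 64 * (N / 8)) := by
            have := mul_le_mul_of_nonneg_right hP2 (by positivity : (0 : ℝ) ≤ N / 8)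
            linarith
        _ ≤ _ := by
            have : 0 ≤ η' / 64 * N := by positivity
            linarith
    have k5 : η' * N ≤ η * N := mul_le_mul_of_nonneg_right hηη hN0.le
    have k6 : 0 ≤ η' * N := by positivity
    rw [abs_le] at q1 q2 ⊢
    constructor <;> linarith [q1.1, q1.2, q2.1, q2.2]

end Pool.Agent.R516
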