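import Mathlib
import Pool.Agent.R516.GenC

/-! Stability of the local densities of primes between consecutive scales, pointwise form. -/

set_option autoImplicit false

namespace Pool.Agent.R516

open Finset Filter Topology
open Pool.Agent.H357R2.SI (pc pc_add pc_zero pc_eq_sub pc_mono pc_anti piS piS_nat)
open Pool.Agent.W123.FS (badset)

open Classical in
theorem stab (hU : St_U) (η : ℝ) (hη : 0 < η) :
    ∃ K : ℕ, 1 ≤ K ∧ ∀ᶠ N : ℕ in atTop,
    ∀ (R : ℕ) (T : ℕ → ℝ), Real.log N ^ 23 ≤ T 0 → (∀ i < R, 2 * T i ≤ T (i + 1)) →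
      T R ≤ N / Real.log N ^ 4 → ∃ B : Finset ℕ, B.card ≤ K ∧ ∀ i < R, i ∉ B →
        ∃ θ : ℕ → ℝ, (∀ n, 0 ≤ θ n ∧ θ n ≤ 18 / 5) ∧
        (∀ x ≤ N, |∑ n ∈ range x, θ n - x| ≤ η * N) ∧
        ∃ E : Finset ℕ, (E.card : ℝ) ≤ η * N ∧ ∀ n < N, n ∉ E → ∀ H : ℝ, T i ≤ H →
          H ≤ T (i + 1) → |(piS n H : ℝ) * Real.log N / H - θ n| ≤ η := by
  obtain ⟨η', hη', hη1, hηη⟩ : ∃ η' : ℝ, 0 < η' ∧ η' ≤ 1 ∧ η' ≤ η :=
    ⟨min η 1, lt_min hη one_pos, min_le_right _ _, min_le_left _ _⟩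
  obtain ⟨C, hC⟩ : ∃ C : ℝ, C = 12 := ⟨_, rfl⟩
  have hC1 : 1 ≤ C := by rw [hC]; norm_num
  have hC0 : 0 < C := by linarith
  obtain ⟨e, he⟩ : ∃ e : ℝ, e = η' / (64 * C) := ⟨_, rfl⟩
  have he0 : 0 < e := by rw [he]; positivity
  have heP : C * e = η' / 64 := by
    rw [he]; field_simp
  have hP3 : e ≤ η' / 64 := by
    rw [← heP]
    exact le_mul_of_one_le_left he0.le hC1
  have he1 : e ≤ 1 := by linarith
  obtain ⟨K₀, hK₀⟩ := Pool.Agent.W123.FS.chain e he0
  obtain ⟨κ, hκ, N₀, hN₀⟩ := hU (e / 2) (by positivity)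
  obtain ⟨K, hK1, hK2⟩ : ∃ K : ℕ, 1 ≤ K ∧ K₀ ≤ K := ⟨max 1 K₀, le_max_left _ _, le_max_right _ _⟩
  refine ⟨K, hK1, ?_⟩
  filter_upwards [hK₀, pi_lin (e / 16) (by positivity), eventually_ge_atTop (max N₀ 2),
    ev_log' (max C (2 ^ 22 * 32 / e + 1)), ev_logpow' (0 + 3) (one_pos), ev_logpow' (0 + 23) hκ,
    ev_log' (K₀ : ℝ), ev_log' (10 / e)] with N h1 h2 h3 h4 h5 h6 h7 h8 R T g1 g2 g3
  have hN2 : 2 ≤ N := (le_max_right _ _).trans h3
  have hNN₀ : N₀ ≤ 2 * N := by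
    have := (le_max_left N₀ 2).trans h3
    omega
  have hN2R : (2 : ℝ) ≤ N := by exact_mod_cast hN2
  have hN0 : (0 : ℝ) < N := by linarith
  have hCL : C ≤ Real.log N := (le_max_left _ _).trans h4
  have hL1 : 1 ≤ Real.log N := hC1.trans hCL
  have hL0 : 0 < Real.log N := by linarith
  have hT0 : 1 ≤ T 0 := (one_le_pow₀ hL1).trans g1
  have hKT : (K₀ : ℝ) * Real.log N ≤ T 0 := by
    refine le_trans ?_ g1
    calc (K₀ : ℝ) * Real.log N ≤ Real.log N * Real.log N :=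
          mul_le_mul_of_nonneg_right h7 hL0.le
      _ = Real.log N ^ 2 := by ring
      _ ≤ _ := pow_le_pow_right₀ hL1 (by norm_num)
  have hNLN : (N : ℝ) / Real.log N ^ 4 ≤ N := by
    apply div_le_self hN0.le
    exact one_le_pow₀ hL1
  obtain ⟨B, hB, hBi⟩ := h1 R T hKT g2 (g3.trans hNLN)
  refine ⟨B, hB.trans hK2, fun i hiR hiB => ?_⟩
  have hbad := hBi i hiR hiB
  have hTi : T 0 ≤ T i := T_mono (by linarith) g2 i (by omega)
  have hTi1 : T (i + 1) ≤ N / Real.log N ^ 4 := by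
    have := T_mono' (by linarith : 0 < T 0) g2 (R - (i + 1)) (i + 1) (by omega)
    rw [show i + 1 + (R - (i + 1)) = R by omega] at this
    linarith
  obtain ⟨A, hAd⟩ : ∃ A, A = T i := ⟨_, rfl⟩
  obtain ⟨A', hAd'⟩ : ∃ A', A' = T (i + 1) := ⟨_, rfl⟩
  have hAA := g2 i hiR
  rw [← hAd] at hTi hbad hAA ⊢
  rw [← hAd'] at hTi1 hbad hAA ⊢
  have hA1 : 1 ≤ A := hT0.trans hTi
  have hA0 : 0 ≤ A := by linarith
  have hAA' : A ≤ A' := by linarith
  have hA'N : A' ≤ N := hTi1.trans hNLN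
  obtain ⟨H0, hH0⟩ : ∃ H0 : ℝ, H0 = Real.log N ^ (0 + 23) := ⟨_, rfl⟩
  have hH : H0 ≤ A := by rw [hH0]; exact g1.trans hTi
  have hLT : Real.log N ≤ A := by
    refine le_trans ?_ hH
    rw [hH0]
    calc Real.log N = Real.log N ^ 1 := by ring
      _ ≤ _ := pow_le_pow_right₀ hL1 (by norm_num)
  have h2N : (N : ℝ) ≤ ((2 * N : ℕ) : ℝ) := by push_cast; linarith
  have h5' : Real.log N ^ (0 + 3) ≤ N := by
    rw [Real.rpow_one] at h5
    exact h5
  have h6' : Real.log N ^ (0 + 23) ≤ ((2 * N : ℕ) : ℝ) ^ κ :=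
    h6.trans (Real.rpow_le_rpow hN0.le h2N hκ.le)
  obtain ⟨c, hc⟩ : ∃ c : ℝ, c = 18 / 5 + e / 2 := ⟨_, rfl⟩
  have hex := exc_small (k := 0) (c := (18 / 5 + e / 2) / Real.log ((2 * N : ℕ) : ℝ)) he0 hC1 hN2 h4
    h5' h6' (fun H a1 a2 => hN₀ (2 * N) hNN₀ H a1 a2)
  rw [← hc, ← hH0] at hex
  have hHHc : ((HH N H0 c).card : ℝ) * (Real.log N ^ (0 + 1) + C ^ (0 + 1)) ≤ e / 8 * N := by
    have a1 : ((HH N H0 c).card : ℝ) ≤ ((((Icc 1 (2 * N)).filter (fun n => n ∈ Hi (2 * N) H0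
        (c / Real.log ((2 * N : ℕ) : ℝ)))).card : ℝ) + 1) := by
      have := Finset.card_insert_le 0 ((Icc 1 (2 * N)).filter (fun n => n ∈ Hi (2 * N) H0
        (c / Real.log ((2 * N : ℕ) : ℝ))))
      unfold HH
      exact_mod_cast this
    have a2 : 0 ≤ Real.log N ^ (0 + 1) + C ^ (0 + 1) := by positivity
    have a3 := mul_le_mul_of_nonneg_right a1 a2
    rw [div_mul_eq_mul_div, div_le_iff₀ hN0] at hex
    exact a3.trans hex
  have hHHc' : ((HH N H0 c).card : ℝ) ≤ e / 8 * N := by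
    refine le_trans ?_ hHHc
    apply le_mul_of_one_le_right (Nat.cast_nonneg _)
    rw [zero_add, pow_one, pow_one]
    linarith
  have hcc : c + c / A ≤ 18 / 5 + e := by
    have : c / A ≤ e / 2 := by
      rw [div_le_iff₀ (by linarith)]
      have h10 : 10 / e ≤ A := h8.trans hLT
      rw [div_le_iff₀ he0] at h10
      rw [hc]
      linarith only [h10, he1]
    rw [hc] at this ⊢
    linarith
  have hd : Dat N A A' H0 e c e C :=
    ⟨hN2, hL1, hA1, hA'N, hAA', hH, he0.le, he0.le, by rw [hc]; linarith, hcc,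
      by rw [hc, hC]; linarith⟩
  have hset : ∀ j ≤ 1, ∀ w : Fin j → ℕ, (∀ l, A ≤ w l ∧ (w l : ℝ) ≤ A') → ∀ x ≤ N,
      ∀ g : Fin j → ℕ → ℕ, (∀ l, (∀ n < x, g l n < N) ∧ Fib 1 x (g l)) →
      ∀ S : Finset ℕ, S ⊆ range x →
      |∑ n ∈ S, ∏ l, nx N (g l n) (w l) - ∑ n ∈ S, ∏ l, tt N A (g l n)| ≤ η' / 8 * N := by
    intro j hj w hw x hx g hg S hS
    refine (gen_set (k := 1) hj hd hx w hw g (fun l => (hg l).1) (fun l => (hg l).2) S
      hS).trans ?_
    rw [zero_add, pow_one, pow_one] at hHHc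
    simp only [pow_one, Nat.cast_one, one_mul]
    have s1 : (N : ℝ) * (C * (2 * e + e)) ≤ 3 * (η' / 64) * N := by
      rw [← heP]
      linarith
    have s2 : (((badset e N A A').card : ℝ) * (2 * C)) ≤ 2 * (η' / 64) * N := by
      have a1 : ((badset e N A A').card : ℝ) ≤ e * N := hbad
      calc (((badset e N A A').card : ℝ) * (2 * C))
          ≤ ((e * N) * (2 * C)) := by gcongr
        _ = 2 * (C * e) * N := by ring
        _ = _ := by rw [heP]
    have s3 : (((HH N H0 c).card : ℝ) * (Real.log N + C)) ≤ (η' / 64) * N := by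
      refine hHHc.trans ?_
      have := mul_le_mul_of_nonneg_right hP3 hN0.le
      have : 0 ≤ e * N := by positivity
      linarith
    have s4 : 0 ≤ η' / 64 * N := by positivity
    linarith
  obtain ⟨t, ht⟩ : ∃ t : ℕ, t = ⌈A⌉₊ := ⟨_, rfl⟩
  have t1 : A ≤ t := by rw [ht]; exact Nat.le_ceil _
  have t2 : (t : ℝ) ≤ A + 1 := by rw [ht]; exact (Nat.ceil_lt_add_one hA0).le
  have t4 : (t : ℝ) ≤ A' := by linarith
  have t5 : (1 : ℝ) ≤ t := by linarith
  have t7 : t ≤ N := by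
    have : (t : ℝ) ≤ N := by linarith
    exact_mod_cast this
  have t0 : (0 : ℝ) < t := by linarith
  refine ⟨tt N A, tt_bd hA0, ?_, badset e N A A' ∪ HH N H0 c, ?_, ?_⟩
  · -- the mean
    intro x hx
    have k1 := hset 1 (by omega) (fun _ => t) (fun _ => ⟨t1, t4⟩) x hx (fun _ n => n)
      (fun _ => ⟨fun n hn => lt_of_lt_of_le hn hx, fib_id le_rfl⟩) (range x) subset_rfl
    simp only [Finset.univ_unique, Finset.prod_singleton] at k1
    have k2 := mean_x rfl t7 hx h2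
    have k3 : |∑ n ∈ range x, nx N n t - x| ≤ 2 * (e / 16) * N := by
      have e1 : ∑ n ∈ range x, nx N n t - x =
          (∑ n ∈ range x, (pcn n (n + t) : ℝ) - t * (x / Real.log N)) * (Real.log N / t) := by
        rw [sub_mul, Finset.sum_mul]
        congr 1
        · refine Finset.sum_congr rfl fun n _ => ?_
          unfold nx
          ring
        · field_simp
      rw [e1, abs_mul, abs_of_nonneg (by positivity : 0 ≤ Real.log N / t)]
      refine (mul_le_mul_of_nonneg_right k2 (by positivity)).trans (le_of_eq ?_)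
      field_simp
    have k4 : 2 * (e / 16) * N ≤ η' / 8 * N := by
      apply mul_le_mul_of_nonneg_right _ hN0.le
      linarith
    have k5 : η' * N ≤ η * N := mul_le_mul_of_nonneg_right hηη hN0.le
    have k6 : 0 ≤ η' * N := by positivity
    rw [abs_le] at k1 k3 ⊢
    constructor <;> linarith [k1.1, k1.2, k3.1, k3.2]
  · -- the exceptional set
    have a1 : ((badset e N A A' ∪ HH N H0 c).card : ℝ) ≤
        (badset e N A A').card + (HH N H0 c).card := by
      exact_mod_cast Finset.card_union_le _ _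
    have a2 : ((badset e N A A').card : ℝ) ≤ e * N := hbad
    have a3 : η' * N ≤ η * N := mul_le_mul_of_nonneg_right hηη hN0.le
    have a4 := mul_le_mul_of_nonneg_right hP3 hN0.le
    have a5 : 0 ≤ η' * N := by positivity
    linarith
  · -- the comparison
    intro n hn hnE H hH1 hH2
    rw [Finset.mem_union, not_or] at hnE
    obtain ⟨hb, hh⟩ := hnE
    have k1 := point hd hn t1 t4 hh hb
    have hgood : ∀ H H' : ℝ, A ≤ H → H ≤ A' → A ≤ H' → H' ≤ A' →
        |(piS n H : ℝ) / H - (piS n H' : ℝ) / H'| ≤ e / Real.log N := by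
      by_contra hcon
      apply hb
      unfold badset
      rw [Finset.mem_filter]
      exact ⟨Finset.mem_range.2 hn, hcon⟩
    have k2 := hgood H t hH1 hH2 t1 t4
    have e2 : (piS n (t : ℝ) : ℝ) = pcn n (n + t) := by
      rw [piS_nat n t t0.le, Nat.floor_natCast, pcn_eq]
    rw [e2] at k2
    have e3 : (piS n H : ℝ) * Real.log N / H - nx N n t =
        ((piS n H : ℝ) / H - (pcn n (n + t) : ℝ) / t) * Real.log N := by
      unfold nx
      ring
    have k3 : |(piS n H : ℝ) * Real.log N / H - nx N n t| ≤ e := by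
      rw [e3, abs_mul, abs_of_pos hL0]
      have := mul_le_mul_of_nonneg_right k2 hL0.le
      rwa [div_mul_cancel₀ _ hL0.ne'] at this
    have k4 := abs_sub_le ((piS n H : ℝ) * Real.log N / H) (nx N n t) (tt N A n)
    linarith

end Pool.Agent.R516
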