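import Mathlib
import Pool.Agent.R516.GenH

/-! Stability of the densities of primes in intervals of length `(log x) ^ s`, `a ≤ s ≤ a + 1`. -/

set_option autoImplicit false

namespace Pool.Agent.R516

open Finset Filter Topology MeasureTheory
open Pool.Agent.H357R2.SI (pc pc_add pc_zero pc_eq_sub pc_mono pc_anti piS piS_nat)

/-- `(log x / (log x) ^ s) (π(x + (log x) ^ s) - π(x))` -/
noncomputable def ratio (s x : ℝ) : ℝ :=
  Real.log x / Real.log x ^ s *
    ((Nat.primeCounting ⌊x + Real.log x ^ s⌋₊ : ℝ) - Nat.primeCounting ⌊x⌋₊)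

theorem ptw {n : ℕ} {L η θ h l c x : ℝ} (hh : 1 ≤ h) (hl : 0 < L) (hc : 0 ≤ c)
    (hlL : l ≤ L) (hlL' : L * (1 - c) ≤ l) (hl0 : 0 ≤ l) (hη : 0 ≤ η) (hη1 : η ≤ 1)
    (hθ : 0 ≤ θ ∧ θ ≤ 18 / 5) (hx : (n : ℝ) ≤ x) (hx' : x < n + 1)
    (h1 : |(piS n h : ℝ) * L / h - θ| ≤ η) (h2 : |(piS n (h + 1) : ℝ) * L / (h + 1) - θ| ≤ η) :
    |l / h * ((Nat.primeCounting ⌊x + h⌋₊ : ℝ) - Nat.primeCounting ⌊x⌋₊) - θ| ≤
      η + 5 / h + 5 * c := by
  have hh0 : 0 < h := by linarith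
  have hfl : ⌊x⌋₊ = n := by
    rw [Nat.floor_eq_iff (by linarith [Nat.cast_nonneg (α := ℝ) n])]
    exact ⟨hx, hx'⟩
  have hle : n ≤ ⌊x + h⌋₊ := by
    rw [← hfl]
    exact Nat.floor_le_floor (by linarith)
  rw [hfl, ← pc_eq_sub hle]
  have a1 : n + ⌊h⌋₊ ≤ ⌊x + h⌋₊ := by
    apply Nat.le_floor
    push_cast
    have := Nat.floor_le hh0.le
    linarith
  have a2 : ⌊x + h⌋₊ ≤ n + ⌊h + 1⌋₊ := by
    have e : (n : ℝ) + (h + 1) = (h + 1) + (n : ℕ) := by ring
    rw [add_comm n, ← Nat.floor_add_natCast (by linarith), ← e]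
    exact Nat.floor_le_floor (by linarith)
  have b1 : (piS n h : ℝ) ≤ pc n ⌊x + h⌋₊ := by
    rw [piS_nat n h hh0.le]
    exact_mod_cast pc_mono a1
  have b2 : (pc n ⌊x + h⌋₊ : ℝ) ≤ piS n (h + 1) := by
    rw [piS_nat n (h + 1) (by linarith)]
    exact_mod_cast pc_mono a2
  obtain ⟨P, hP⟩ : ∃ P : ℝ, P = pc n ⌊x + h⌋₊ := ⟨_, rfl⟩
  have hP0 : 0 ≤ P := by rw [hP]; exact Nat.cast_nonneg _
  rw [← hP] at b1 b2 ⊢
  obtain ⟨h11, h12⟩ := abs_le.1 h1
  obtain ⟨h21, h22⟩ := abs_le.1 h2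
  -- upper bound for `P L / h`
  have c1 : P * L / h ≤ (θ + η) * (1 + 1 / h) := by
    have d1 : (piS n (h + 1) : ℝ) * L ≤ (θ + η) * (h + 1) := by
      rw [← div_le_iff₀ (by linarith)]
      linarith
    have d2 : P * L ≤ (θ + η) * (h + 1) :=
      (mul_le_mul_of_nonneg_right b2 hl.le).trans d1
    rw [div_le_iff₀ hh0]
    refine d2.trans (le_of_eq ?_)
    field_simp
  have c2 : θ - η ≤ P * L / h := by
    have d1 : (piS n h : ℝ) * L / h ≤ P * L / h :=
      div_le_div_of_nonneg_right (mul_le_mul_of_nonneg_right b1 hl.le) hh0.le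
    linarith
  have c3 : l / h * P ≤ P * L / h := by
    rw [div_mul_eq_mul_div, mul_comm l P]
    exact div_le_div_of_nonneg_right (mul_le_mul_of_nonneg_left hlL hP0) hh0.le
  have c4 : P * L / h * (1 - c) ≤ l / h * P := by
    have : P * L / h * (1 - c) = (L * (1 - c)) / h * P := by ring
    rw [this]
    exact mul_le_mul_of_nonneg_right (div_le_div_of_nonneg_right hlL' hh0.le) hP0
  have c5 : 0 ≤ l / h * P := by positivity
  have c6 : (θ + η) * (1 / h) ≤ 5 / h := by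
    rw [mul_one_div]
    exact div_le_div_of_nonneg_right (by linarith) hh0.le
  have c7 : 0 ≤ 5 / h := by positivity
  rw [abs_le]
  constructor
  · rcases le_or_gt (θ - η) 0 with hneg | hpos
    · linarith
    · have d1 : (θ - η) * c ≤ 5 * c := mul_le_mul_of_nonneg_right (by linarith) hc
      rcases le_or_gt c 1 with hc1 | hc1
      · have d2 : (θ - η) * (1 - c) ≤ P * L / h * (1 - c) :=
          mul_le_mul_of_nonneg_right c2 (by linarith)
        linarith
      · linarith [hθ.2]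
  · have : (θ + η) * (1 + 1 / h) = θ + η + (θ + η) * (1 / h) := by ring
    linarith

theorem meas {S : Set ℝ} {y : ℝ} (hy : 0 ≤ y) (E : Finset ℕ)
    (h : S ⊆ Set.Icc 0 y ∪ ⋃ n ∈ E, Set.Icc (n : ℝ) (n + 1)) :
    volume S ≤ ENNReal.ofReal (y + E.card) := by
  refine (measure_mono h).trans ((measure_union_le _ _).trans ?_)
  rw [ENNReal.ofReal_add hy (Nat.cast_nonneg _)]
  refine add_le_add ?_ ?_
  · rw [Real.volume_Icc, sub_zero]
  · refine (measure_biUnion_finset_le _ _).trans ?_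
    have : ∀ n ∈ E, volume (Set.Icc (n : ℝ) (n + 1)) = 1 := by
      intro n _
      rw [Real.volume_Icc]
      simp
    rw [Finset.sum_congr rfl this]
    simp

/-- the scales -/
noncomputable def TT (L : ℝ) (c i : ℕ) : ℝ := L ^ (2 * (i : ℝ) + c + 47 / 2)

theorem TT_succ {L : ℝ} (hL : 2 ≤ L) (c i : ℕ) : 2 * TT L c i ≤ TT L c (i + 1) := by
  unfold TT
  have e : 2 * ((i + 1 : ℕ) : ℝ) + c + 47 / 2 = 2 + (2 * (i : ℝ) + c + 47 / 2) := by
    push_cast; ring
  have e2 : L ^ (2 + (2 * (i : ℝ) + c + 47 / 2)) = L ^ (2 : ℝ) * L ^ (2 * (i : ℝ) + c + 47 / 2) :=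
    Real.rpow_add (by linarith) _ _
  rw [e, e2]
  apply mul_le_mul_of_nonneg_right _ (Real.rpow_nonneg (by linarith) _)
  have : L ^ (2 : ℝ) = L ^ 2 := by exact_mod_cast Real.rpow_natCast L 2
  rw [this]
  nlinarith

open Classical in
theorem expo (hU : St_U) (ε : ℝ) (hε : 0 < ε) :
    ∃ K : ℕ, ∀ᶠ N : ℕ in atTop, ∃ B : Finset ℕ, B.card ≤ K ∧
      ∀ a : ℕ, 24 ≤ a → Real.log N ^ (a + 6) ≤ N → a ∉ B →
        ∃ θ : ℕ → ℝ, (∀ n, 0 ≤ θ n ∧ θ n ≤ 18 / 5) ∧
          (∀ x ≤ N, |∑ n ∈ range x, θ n - x| ≤ ε * N) ∧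
          volume {x : ℝ | 0 ≤ x ∧ x ≤ N ∧ ¬ ∀ s : ℝ, (a : ℝ) ≤ s → s ≤ a + 1 →
            |ratio s x - θ ⌊x⌋₊| ≤ ε} ≤ ENNReal.ofReal (ε * N) := by
  obtain ⟨η, hη, hη1, hηε⟩ : ∃ η : ℝ, 0 < η ∧ η ≤ 1 / 8 ∧ η ≤ ε / 8 :=
    ⟨min (1 / 8) (ε / 8), lt_min (by norm_num) (by positivity), min_le_left _ _, min_le_right _ _⟩
  obtain ⟨K, hK1, hK⟩ := stab hU η hη
  obtain ⟨c1, hc1⟩ : ∃ c1 : ℝ, c1 = Real.log (1 / η) := ⟨_, rfl⟩
  have hc10 : 0 ≤ c1 := by
    rw [hc1]
    apply Real.log_nonneg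
    rw [le_div_iff₀ hη]
    linarith
  refine ⟨K + K, ?_⟩
  have hNr : Tendsto (fun N : ℕ => (N : ℝ)) atTop atTop := tendsto_natCast_atTop_atTop
  have hloglog : Tendsto (fun N : ℕ => Real.log (Real.log N)) atTop atTop :=
    Real.tendsto_log_atTop.comp (Real.tendsto_log_atTop.comp hNr)
  filter_upwards [hK, ev_log' 16, ev_log' (2 * c1 + 1), hloglog.eventually_ge_atTop (2 * c1 + 1),
    ev_log' (5 * c1 / η), ev_log' (5 / η), ev_logpow' 30 one_pos,
    hNr.eventually_ge_atTop (3 / η)] with N h1 h2 h3 h4 h5 h6 h7 h8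
  obtain ⟨L, hL⟩ : ∃ L, L = Real.log N := ⟨_, rfl⟩
  rw [← hL] at h1 h2 h3 h4 h5 h6 h7 ⊢
  rw [Real.rpow_one] at h7
  have hL0 : 0 < L := by linarith
  have hL1 : 1 ≤ L := by linarith
  have hN0 : (0 : ℝ) < N := lt_of_lt_of_le (by positivity) h8
  have hll : 0 < Real.log L := by linarith
  obtain ⟨M, hM⟩ : ∃ M : ℕ, M = ⌊L / Real.log L⌋₊ := ⟨_, rfl⟩
  have hML : (M : ℝ) * Real.log L ≤ L := by
    rw [← le_div_iff₀ hll, hM]
    exact Nat.floor_le (by positivity)
  have hpw : ∀ u : ℝ, u * Real.log L ≤ L → L ^ u ≤ N := by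
    intro u hu
    rw [Real.rpow_def_of_pos hL0]
    calc Real.exp (Real.log L * u) ≤ Real.exp L := Real.exp_le_exp.2 (by linarith)
      _ = N := by rw [hL, Real.exp_log hN0]
  have hle : ∀ u : ℕ, L ^ u ≤ N → u ≤ M := by
    intro u hu
    rw [hM]
    apply Nat.le_floor
    rw [le_div_iff₀ hll]
    have := Real.log_le_log (by positivity) hu
    rwa [Real.log_pow, ← hL] at this
  have hM30 : 30 ≤ M := hle 30 h7
  -- the two chains
  have hch : ∀ c : ℕ, c < 2 → ∃ B : Finset ℕ, B.card ≤ K ∧ ∀ i < (M - 28 - c) / 2, i ∉ B →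
        ∃ θ : ℕ → ℝ, (∀ n, 0 ≤ θ n ∧ θ n ≤ 18 / 5) ∧
        (∀ x ≤ N, |∑ n ∈ range x, θ n - x| ≤ η * N) ∧
        ∃ E : Finset ℕ, (E.card : ℝ) ≤ η * N ∧ ∀ n < N, n ∉ E → ∀ H : ℝ, TT L c i ≤ H →
          H ≤ TT L c (i + 1) → |(piS n H : ℝ) * L / H - θ n| ≤ η := by
    intro c hc
    refine h1 ((M - 28 - c) / 2) (TT L c) ?_ (fun i _ => TT_succ (by linarith) c i) ?_
    · unfold TT
      rw [← Real.rpow_natCast]
      apply Real.rpow_le_rpow_of_exponent_le hL1
      push_cast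
      have : (0 : ℝ) ≤ c := Nat.cast_nonneg c
      linarith
    · rw [le_div_iff₀ (by positivity)]
      unfold TT
      rw [← Real.rpow_natCast, ← Real.rpow_add hL0]
      apply hpw
      refine le_trans ?_ hML
      apply mul_le_mul_of_nonneg_right _ hll.le
      have e1 : 2 * ((M - 28 - c) / 2) + c + 28 ≤ M := by omega
      have e2 : 2 * (((M - 28 - c) / 2 : ℕ) : ℝ) + c + 28 ≤ M := by exact_mod_cast e1
      push_cast
      linarith
  obtain ⟨B0, hB0, hB0'⟩ := hch 0 (by norm_num)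
  obtain ⟨B1, hB1, hB1'⟩ := hch 1 (by norm_num)
  refine ⟨B0.image (fun i => 2 * i + 24) ∪ B1.image (fun i => 2 * i + 25), ?_, ?_⟩
  · refine (Finset.card_union_le _ _).trans ?_
    exact add_le_add (Finset.card_image_le.trans hB0) (Finset.card_image_le.trans hB1)
  intro a ha haN haB
  rw [Finset.mem_union, not_or] at haB
  have haM := hle _ haN
  obtain ⟨i, c, hc, hai⟩ : ∃ i c : ℕ, c < 2 ∧ a = 2 * i + 24 + c :=
    ⟨(a - 24) / 2, (a - 24) % 2, Nat.mod_lt _ (by norm_num), by omega⟩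
  have hkey : ∃ θ : ℕ → ℝ, (∀ n, 0 ≤ θ n ∧ θ n ≤ 18 / 5) ∧
        (∀ x ≤ N, |∑ n ∈ range x, θ n - x| ≤ η * N) ∧
        ∃ E : Finset ℕ, (E.card : ℝ) ≤ η * N ∧ ∀ n < N, n ∉ E → ∀ H : ℝ, TT L c i ≤ H →
          H ≤ TT L c (i + 1) → |(piS n H : ℝ) * L / H - θ n| ≤ η := by
    interval_cases c
    · refine hB0' i (by omega) (fun hi => haB.1 ?_)
      exact Finset.mem_image.2 ⟨i, hi, by omega⟩
    · refine hB1' i (by omega) (fun hi => haB.2 ?_)
      exact Finset.mem_image.2 ⟨i, hi, by omega⟩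
  obtain ⟨θ, hθ, hmean, E, hE, hcmp⟩ := hkey
  have hT1 : TT L c i = L ^ ((a : ℝ) - 1 / 2) := by
    unfold TT
    congr 1
    rw [hai]; push_cast; ring
  have hT2 : TT L c (i + 1) = L ^ ((a : ℝ) + 3 / 2) := by
    unfold TT
    congr 1
    rw [hai]; push_cast; ring
  rw [hT1, hT2] at hcmp
  refine ⟨θ, hθ, fun x hx => (hmean x hx).trans (mul_le_mul_of_nonneg_right (by linarith) hN0.le),
    ?_⟩
  refine (meas (y := η * N + 1) (by positivity) (insert N E) ?_).trans ?_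
  · rintro x ⟨hx0, hxN, hx⟩
    by_contra hcon
    apply hx
    rw [Set.mem_union, not_or, Set.mem_iUnion₂] at hcon
    obtain ⟨hcon1, hcon2⟩ := hcon
    push Not at hcon2
    obtain ⟨n, hn⟩ : ∃ n : ℕ, n = ⌊x⌋₊ := ⟨_, rfl⟩
    have hn1 : (n : ℝ) ≤ x := by rw [hn]; exact Nat.floor_le hx0
    have hn2 : x < n + 1 := by rw [hn]; exact Nat.lt_floor_add_one x
    have hnE : n ∉ insert N E := fun h => hcon2 n h ⟨hn1, hn2.le⟩
    rw [Finset.mem_insert, not_or] at hnE
    have hnN : n < N := by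
      rcases lt_or_ge n N with h | h
      · exact h
      · exfalso
        have h' : (N : ℝ) ≤ n := by exact_mod_cast h
        exact hnE.1 (by exact_mod_cast (le_antisymm (hn1.trans hxN) h'))
    have hxbig : η * N + 1 < x := by
      by_contra h
      exact hcon1 ⟨hx0, by linarith⟩
    have hxpos : 0 < x := lt_of_le_of_lt (by positivity) hxbig
    have hx1 : 1 ≤ x := by
      have : 0 ≤ η * N := by positivity
      linarith
    obtain ⟨l, hl⟩ : ∃ l, l = Real.log x := ⟨_, rfl⟩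
    have hlL : l ≤ L := by rw [hl, hL]; exact Real.log_le_log hxpos hxN
    have hlL' : L - c1 ≤ l := by
      rw [hl, hL, hc1, one_div, Real.log_inv, sub_neg_eq_add, add_comm, ← Real.log_mul hη.ne' hN0.ne']
      exact Real.log_le_log (by positivity) (by linarith)
    have hl1 : 1 ≤ l := by linarith
    -- the lower bound for the length
    have haL : ((a : ℝ) + 6) * Real.log L ≤ L := by
      have h := Real.log_le_log (by positivity) haN
      rw [Real.log_pow, ← hL] at h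
      push_cast at h
      exact h
    have hac : (a : ℝ) * (c1 / L) ≤ 1 / 2 := by
      have ha0 : (0 : ℝ) ≤ a := Nat.cast_nonneg a
      have e1 : (a : ℝ) * (2 * c1) ≤ L := by
        calc (a : ℝ) * (2 * c1) ≤ ((a : ℝ) + 6) * Real.log L := by
              apply mul_le_mul (by linarith) (by linarith) (by positivity) (by linarith)
          _ ≤ L := haL
      rw [mul_div_assoc', div_le_iff₀ hL0]
      linarith
    have hlow : L ^ ((a : ℝ) - 1 / 2) ≤ l ^ a := by
      have b0 : -2 ≤ -(c1 / L) := by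
        have : c1 / L ≤ 1 := by
          rw [div_le_one hL0]
          linarith
        linarith
      have b1 := one_add_mul_le_pow b0 a
      have b2 : (1 : ℝ) / 2 ≤ (1 + -(c1 / L)) ^ a := by
        refine le_trans ?_ b1
        linarith
      have b3 : L * (1 + -(c1 / L)) ≤ l := by
        refine le_trans (le_of_eq ?_) hlL'
        field_simp
        ring
      have b4 : (0 : ℝ) ≤ L * (1 + -(c1 / L)) := by
        have : c1 / L ≤ 1 := by
          rw [div_le_one hL0]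
          linarith
        apply mul_nonneg hL0.le
        linarith
      calc L ^ ((a : ℝ) - 1 / 2) = L ^ a / L ^ (1 / 2 : ℝ) := by
            rw [Real.rpow_sub hL0, Real.rpow_natCast]
        _ ≤ L ^ a / 2 := by
            apply div_le_div_of_nonneg_left (by positivity) (by norm_num)
            rw [← Real.sqrt_eq_rpow]
            exact Real.le_sqrt_of_sq_le (by linarith)
        _ = L ^ a * (1 / 2) := by ring
        _ ≤ L ^ a * (1 + -(c1 / L)) ^ a := mul_le_mul_of_nonneg_left b2 (by positivity)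
        _ = (L * (1 + -(c1 / L))) ^ a := by rw [mul_pow]
        _ ≤ l ^ a := pow_le_pow_left₀ b4 b3 a
    intro s hs1 hs2
    obtain ⟨h, hh⟩ : ∃ h, h = l ^ s := ⟨_, rfl⟩
    have hh1 : L ^ ((a : ℝ) - 1 / 2) ≤ h := by
      refine hlow.trans ?_
      rw [hh, ← Real.rpow_natCast]
      exact Real.rpow_le_rpow_of_exponent_le hl1 hs1
    have hLh : L ≤ h := by
      refine le_trans ?_ hh1
      calc L = L ^ (1 : ℝ) := (Real.rpow_one L).symm
        _ ≤ _ := by
            apply Real.rpow_le_rpow_of_exponent_le hL1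
            have : (24 : ℝ) ≤ a := by exact_mod_cast ha
            linarith
    have hh2 : h ≤ L ^ ((a : ℝ) + 1) := by
      rw [hh]
      calc l ^ s ≤ l ^ ((a : ℝ) + 1) := Real.rpow_le_rpow_of_exponent_le hl1 hs2
        _ ≤ _ := Real.rpow_le_rpow (by linarith) hlL (by positivity)
    have hh3 : h + 1 ≤ L ^ ((a : ℝ) + 3 / 2) := by
      have e1 : (a : ℝ) + 3 / 2 = ((a : ℝ) + 1) + 1 / 2 := by ring
      rw [e1, Real.rpow_add hL0]
      have e2 : (4 : ℝ) ≤ L ^ (1 / 2 : ℝ) := by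
        rw [← Real.sqrt_eq_rpow]
        exact Real.le_sqrt_of_sq_le (by linarith)
      have e3 : 0 ≤ L ^ ((a : ℝ) + 1) := by positivity
      have e4 : L ^ ((a : ℝ) + 1) * 4 ≤ L ^ ((a : ℝ) + 1) * L ^ (1 / 2 : ℝ) :=
        mul_le_mul_of_nonneg_left e2 e3
      linarith
    have k1 := hcmp n hnN hnE.2 h hh1 (by linarith)
    have k2 := hcmp n hnN hnE.2 (h + 1) (by linarith) hh3
    have k3 := ptw (n := n) (L := L) (η := η) (θ := θ n) (h := h) (l := l) (c := c1 / L) (x := x)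
      (by linarith) hL0 (by positivity) hlL (by
        refine le_trans (le_of_eq ?_) hlL'
        field_simp) (by linarith) hη.le (by linarith) (hθ n) hn1 hn2 k1 k2
    unfold ratio
    rw [← hn, ← hl, ← hh]
    rw [← hn] at k3
    refine k3.trans ?_
    have m1 : 5 / h ≤ η := by
      rw [div_le_iff₀ (by linarith)]
      rw [div_le_iff₀ hη] at h6
      have := mul_le_mul_of_nonneg_left hLh hη.le
      linarith
    have m2 : 5 * (c1 / L) ≤ η := by
      rw [mul_div_assoc', div_le_iff₀ hL0]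
      rw [div_le_iff₀ hη] at h5
      linarith
    linarith
  · apply ENNReal.ofReal_le_ofReal
    have e1 : ((insert N E).card : ℝ) ≤ E.card + 1 := by exact_mod_cast Finset.card_insert_le N E
    have e2 : 3 ≤ η * N := by
      rw [div_le_iff₀ hη] at h8
      linarith
    have e3 : 8 * (η * N) ≤ ε * N := by
      have := mul_le_mul_of_nonneg_right hηε hN0.le
      linarith
    linarith

end Pool.Agent.R516
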