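import Mathlib
import Pool.Agent.R516.GenI

/-! Stability of the local densities of primes between consecutive scales, real variables. -/

set_option autoImplicit false

namespace Pool.Agent.R516

open Finset Filter Topology MeasureTheory
open Pool.Agent.H357R2.SI (pc pc_add pc_zero pc_eq_sub pc_mono pc_anti piS piS_nat)

/-- `R(x, y) = (π(x + y) - π(x)) / (y / log x)` -/
noncomputable def RR (x y : ℝ) : ℝ :=
  ((Nat.primeCounting ⌊x + y⌋₊ : ℝ) - Nat.primeCounting ⌊x⌋₊) / (y / Real.log x)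

theorem ptw2 {n : ℕ} {L η θ h l c x : ℝ} (hh : 1 ≤ h) (hl : 0 < L) (hc : 0 ≤ c)
    (hlL : l ≤ L) (hlL' : L * (1 - c) ≤ l) (hl0 : 0 ≤ l) (hη : 0 ≤ η) (hη1 : η ≤ 1)
    (hθ : 0 ≤ θ ∧ θ ≤ 18 / 5) (hx : (n : ℝ) ≤ x) (hx' : x < n + 1)
    (h1 : |(piS n h : ℝ) * L / h - θ| ≤ η) :
    |((Nat.primeCounting ⌊x + h⌋₊ : ℝ) - Nat.primeCounting ⌊x⌋₊) / (h / l) - θ| ≤
      η + L / h + 5 * c := by
  have hh0 : 0 < h := by linarith
  have hfl : ⌊x⌋₊ = n := by
    rw [Nat.floor_eq_iff (by linarith [Nat.cast_nonneg (α := ℝ) n])]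
    exact ⟨hx, hx'⟩
  have hle : n ≤ ⌊x + h⌋₊ := by
    rw [← hfl]
    exact Nat.floor_le_floor (by linarith)
  rw [hfl, ← pc_eq_sub hle]
  have a1 : n + ⌊h⌋₊ ≤ ⌊x + h⌋₊ := by
    apply Nat.le_floor
    push_cast
    have := Nat.floor_le hh0.le
    linarith
  have a2 : ⌊x + h⌋₊ ≤ n + ⌊h⌋₊ + 1 := by
    have : (⌊x + h⌋₊ : ℝ) < n + ⌊h⌋₊ + 2 := by
      have := Nat.floor_le (by linarith [Nat.cast_nonneg (α := ℝ) n] : 0 ≤ x + h)
      have := Nat.lt_floor_add_one h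
      linarith
    have h2 : ⌊x + h⌋₊ < n + ⌊h⌋₊ + 2 := by exact_mod_cast this
    omega
  have a3 : pc n (n + ⌊h⌋₊ + 1) ≤ pc n (n + ⌊h⌋₊) + 1 := by
    have h3 := pc_add (a := n) (b := n + ⌊h⌋₊) (c := n + ⌊h⌋₊ + 1) (by omega) (by omega)
    have h4 : pc (n + ⌊h⌋₊) (n + ⌊h⌋₊ + 1) ≤ 1 := by
      unfold pc
      refine (Finset.card_filter_le _ _).trans ?_
      rw [Nat.card_Ioc]
      omega
    omega
  have b1 : (piS n h : ℝ) ≤ pc n ⌊x + h⌋₊ := by
    rw [piS_nat n h hh0.le]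
    exact_mod_cast pc_mono a1
  have b2 : (pc n ⌊x + h⌋₊ : ℝ) ≤ piS n h + 1 := by
    rw [piS_nat n h hh0.le]
    exact_mod_cast (pc_mono a2).trans a3
  obtain ⟨P, hP⟩ : ∃ P : ℝ, P = pc n ⌊x + h⌋₊ := ⟨_, rfl⟩
  have hP0 : 0 ≤ P := by rw [hP]; exact Nat.cast_nonneg _
  rw [← hP] at b1 b2 ⊢
  obtain ⟨h11, h12⟩ := abs_le.1 h1
  have c1 : P * L / h ≤ θ + η + L / h := by
    have d1 : P * L / h ≤ (piS n h + 1) * L / h :=
      div_le_div_of_nonneg_right (mul_le_mul_of_nonneg_right b2 hl.le) hh0.le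
    have d2 : ((piS n h : ℝ) + 1) * L / h = (piS n h : ℝ) * L / h + L / h := by ring
    linarith
  have c2 : θ - η ≤ P * L / h := by
    have d1 : (piS n h : ℝ) * L / h ≤ P * L / h :=
      div_le_div_of_nonneg_right (mul_le_mul_of_nonneg_right b1 hl.le) hh0.le
    linarith
  have e : P / (h / l) = l / h * P := by
    rw [div_div_eq_mul_div]; ring
  rw [e]
  have c3 : l / h * P ≤ P * L / h := by
    rw [div_mul_eq_mul_div, mul_comm l P]
    exact div_le_div_of_nonneg_right (mul_le_mul_of_nonneg_left hlL hP0) hh0.le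
  have c4 : P * L / h * (1 - c) ≤ l / h * P := by
    have : P * L / h * (1 - c) = (L * (1 - c)) / h * P := by ring
    rw [this]
    exact mul_le_mul_of_nonneg_right (div_le_div_of_nonneg_right hlL' hh0.le) hP0
  have c5 : 0 ≤ l / h * P := by positivity
  have c7 : 0 ≤ L / h := by positivity
  rw [abs_le]
  constructor
  · rcases le_or_gt (θ - η) 0 with hneg | hpos
    · linarith
    · have d1 : (θ - η) * c ≤ 5 * c := mul_le_mul_of_nonneg_right (by linarith) hc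
      rcases le_or_gt c 1 with hc1 | hc1
      · have d2 : (θ - η) * (1 - c) ≤ P * L / h * (1 - c) :=
          mul_le_mul_of_nonneg_right c2 (by linarith)
        linarith
      · linarith [hθ.2]
  · linarith

open Classical in
theorem stabR (hU : St_U) (ε : ℝ) (hε : 0 < ε) :
    ∃ K : ℕ, ∀ᶠ N : ℕ in atTop, ∀ (R : ℕ) (T : ℕ → ℝ), Real.log N ^ 23 ≤ T 0 →
      (∀ i < R, 2 * T i ≤ T (i + 1)) → T R ≤ N / Real.log N ^ 4 →
      ∃ B : Finset ℕ, B.card ≤ K ∧ ∀ i < R, i ∉ B →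
        ∃ θ : ℕ → ℝ, (∀ n, 0 ≤ θ n ∧ θ n ≤ 18 / 5) ∧
          (∀ x ≤ N, |∑ n ∈ range x, θ n - x| ≤ ε * N) ∧
          volume {x : ℝ | 0 ≤ x ∧ x ≤ N ∧ ¬ ∀ y : ℝ, T i ≤ y → y ≤ T (i + 1) →
            |RR x y - θ ⌊x⌋₊| ≤ ε} ≤ ENNReal.ofReal (ε * N) := by
  obtain ⟨η, hη, hη1, hηε⟩ : ∃ η : ℝ, 0 < η ∧ η ≤ 1 / 8 ∧ η ≤ ε / 8 :=
    ⟨min (1 / 8) (ε / 8), lt_min (by norm_num) (by positivity), min_le_left _ _, min_le_right _ _⟩
  obtain ⟨K, hK1, hK⟩ := stab hU η hη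
  obtain ⟨c1, hc1⟩ : ∃ c1 : ℝ, c1 = Real.log (1 / η) := ⟨_, rfl⟩
  have hc10 : 0 ≤ c1 := by
    rw [hc1]
    apply Real.log_nonneg
    rw [le_div_iff₀ hη]
    linarith
  refine ⟨K, ?_⟩
  have hNr : Tendsto (fun N : ℕ => (N : ℝ)) atTop atTop := tendsto_natCast_atTop_atTop
  filter_upwards [hK, ev_log' 16, ev_log' (2 * c1 + 1), ev_log' (5 * c1 / η), ev_log' (1 / η),
    hNr.eventually_ge_atTop (3 / η)] with N h1 h2 h3 h5 h6 h8 R T g1 g2 g3
  obtain ⟨B, hB, hBi⟩ := h1 R T g1 g2 g3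
  refine ⟨B, hB, fun i hi hiB => ?_⟩
  obtain ⟨θ, hθ, hmean, E, hE, hcmp⟩ := hBi i hi hiB
  obtain ⟨L, hL⟩ : ∃ L, L = Real.log N := ⟨_, rfl⟩
  rw [← hL] at h2 h3 h5 h6 g1 hcmp
  have hL0 : 0 < L := by linarith
  have hL1 : 1 ≤ L := by linarith
  have hN0 : (0 : ℝ) < N := lt_of_lt_of_le (by positivity) h8
  have hTi : T 0 ≤ T i := T_mono (lt_of_lt_of_le (by positivity) g1) g2 i (by omega)
  have hLT : L * L ≤ T i := by
    refine le_trans ?_ (g1.trans hTi)
    calc L * L = L ^ 2 := by ring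
      _ ≤ L ^ 23 := pow_le_pow_right₀ hL1 (by norm_num)
  refine ⟨θ, hθ, fun x hx => (hmean x hx).trans (mul_le_mul_of_nonneg_right (by linarith) hN0.le),
    ?_⟩
  refine (meas (y := η * N + 1) (by positivity) (insert N E) ?_).trans ?_
  · rintro x ⟨hx0, hxN, hx⟩
    by_contra hcon
    apply hx
    rw [Set.mem_union, not_or, Set.mem_iUnion₂] at hcon
    obtain ⟨hcon1, hcon2⟩ := hcon
    push Not at hcon2
    obtain ⟨n, hn⟩ : ∃ n : ℕ, n = ⌊x⌋₊ := ⟨_, rfl⟩
    have hn1 : (n : ℝ) ≤ x := by rw [hn]; exact Nat.floor_le hx0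
    have hn2 : x < n + 1 := by rw [hn]; exact Nat.lt_floor_add_one x
    have hnE : n ∉ insert N E := fun h => hcon2 n h ⟨hn1, hn2.le⟩
    rw [Finset.mem_insert, not_or] at hnE
    have hnN : n < N := by
      rcases lt_or_ge n N with h | h
      · exact h
      · exfalso
        have h' : (N : ℝ) ≤ n := by exact_mod_cast h
        exact hnE.1 (by exact_mod_cast (le_antisymm (hn1.trans hxN) h'))
    have hxbig : η * N + 1 < x := by
      by_contra h
      exact hcon1 ⟨hx0, by linarith⟩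
    have hxpos : 0 < x := lt_of_le_of_lt (by positivity) hxbig
    obtain ⟨l, hl⟩ : ∃ l, l = Real.log x := ⟨_, rfl⟩
    have hlL : l ≤ L := by rw [hl, hL]; exact Real.log_le_log hxpos hxN
    have hlL' : L - c1 ≤ l := by
      rw [hl, hL, hc1, one_div, Real.log_inv, sub_neg_eq_add, add_comm, ← Real.log_mul hη.ne' hN0.ne']
      exact Real.log_le_log (by positivity) (by linarith)
    intro y hy1 hy2
    have k1 := hcmp n hnN hnE.2 y hy1 hy2
    have hyL : L * L ≤ y := hLT.trans hy1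
    have hy0 : 1 ≤ y := by nlinarith
    have k3 := ptw2 (n := n) (L := L) (η := η) (θ := θ n) (h := y) (l := l) (c := c1 / L) (x := x)
      hy0 hL0 (by positivity) hlL (by
        refine le_trans (le_of_eq ?_) hlL'
        field_simp) (by linarith) hη.le (by linarith) (hθ n) hn1 hn2 k1
    unfold RR
    rw [← hn, ← hl]
    rw [← hn] at k3
    refine k3.trans ?_
    have m1 : L / y ≤ η := by
      rw [div_le_iff₀ (by linarith)]
      rw [div_le_iff₀ hη] at h6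
      have h7 : 1 * L ≤ (L * η) * L := mul_le_mul_of_nonneg_right h6 hL0.le
      have h8 := mul_le_mul_of_nonneg_left hyL hη.le
      linarith
    have m2 : 5 * (c1 / L) ≤ η := by
      rw [mul_div_assoc', div_le_iff₀ hL0]
      rw [div_le_iff₀ hη] at h5
      linarith
    linarith
  · apply ENNReal.ofReal_le_ofReal
    have e1 : ((insert N E).card : ℝ) ≤ E.card + 1 := by exact_mod_cast Finset.card_insert_le N E
    have e2 : 3 ≤ η * N := by
      rw [div_le_iff₀ hη] at h8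
      linarith
    have e3 : 8 * (η * N) ≤ ε * N := by
      have := mul_le_mul_of_nonneg_right hηε hN0.le
      linarith
    linarith

open Classical in
theorem blockR (hU : St_U) (ε : ℝ) (hε : 0 < ε) (m : ℕ) (hm : 1 ≤ m) :
    ∃ A : ℕ, ∀ᶠ N : ℕ in atTop, ∃ a : ℕ, 23 ≤ a ∧ a + m ≤ A ∧
        ∃ θ : ℕ → ℝ, (∀ n, 0 ≤ θ n ∧ θ n ≤ 18 / 5) ∧
          (∀ x ≤ N, |∑ n ∈ range x, θ n - x| ≤ ε * N) ∧
          volume {x : ℝ | 0 ≤ x ∧ x ≤ N ∧ ¬ ∀ y : ℝ, Real.log N ^ a ≤ y →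
            y ≤ Real.log N ^ (a + m) → |RR x y - θ ⌊x⌋₊| ≤ ε} ≤ ENNReal.ofReal (ε * N) := by
  obtain ⟨K, hK⟩ := stabR hU ε hε
  refine ⟨23 + m * (K + 1), ?_⟩
  filter_upwards [hK, ev_log' 2, ev_logpow' (23 + m * (K + 1) + 4) one_pos,
    eventually_ge_atTop 1] with N h1 h2 h3 h4
  rw [Real.rpow_one] at h3
  have hL0 : 0 < Real.log N := by linarith
  obtain ⟨B, hB, hBi⟩ := h1 (K + 1) (fun i => Real.log N ^ (23 + m * i)) (by simp) (by
      intro i _
      have e : 23 + m * (i + 1) = (23 + m * i) + m := by ring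
      show 2 * Real.log N ^ (23 + m * i) ≤ Real.log N ^ (23 + m * (i + 1))
      rw [e, pow_add (Real.log (N : ℝ)) (23 + m * i) m,
        mul_comm (2 : ℝ) (Real.log (N : ℝ) ^ (23 + m * i))]
      apply mul_le_mul_of_nonneg_left _ (by positivity)
      calc (2 : ℝ) ≤ Real.log N := h2
        _ = Real.log N ^ 1 := by ring
        _ ≤ _ := pow_le_pow_right₀ (by linarith) hm) (by
      rw [le_div_iff₀ (by positivity), ← pow_add]
      exact h3)
  obtain ⟨i, hi, hiB⟩ : ∃ i ∈ Finset.range (K + 1), i ∉ B := by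
    by_contra hcon
    push Not at hcon
    have := Finset.card_le_card (show Finset.range (K + 1) ⊆ B from fun i hi => hcon i hi)
    rw [Finset.card_range] at this
    omega
  rw [Finset.mem_range] at hi
  refine ⟨23 + m * i, by omega, ?_, ?_⟩
  · have : m * (i + 1) ≤ m * (K + 1) := Nat.mul_le_mul_left m hi
    have e : m * (i + 1) = m * i + m := by ring
    omega
  · have e : 23 + m * (i + 1) = 23 + m * i + m := by ring
    have := hBi i hi hiB
    simp only [e] at this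
    exact this

end Pool.Agent.R516
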