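import Pool.Agent.H31R2.DH.Detect
import Pool.Agent.H31R2.DH.MVd
import Pool.Agent.H306R2.ZetaGrowth

/-!
Mean square of `ζ M_X - 1` to the right of the line `Re s = 1` at one point of each unit interval.
-/

open Complex MeasureTheory Set Filter Topology

namespace Pool.Agent.R516.LI

open DH31

/-- the mollified zeta function minus `1` -/
noncomputable def Fz (X : ℕ) (s : ℂ) : ℂ := riemannZeta s * MX X s - 1

/-- dyadic pieces of the coefficients -/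
noncomputable def pb (δ : ℝ) (X j : ℕ) (n : ℕ) : ℂ :=
  if X < n ∧ Nat.log 2 n = j then aX X n * (n : ℂ) ^ (-(1 + δ : ℝ) : ℂ) else 0

lemma dp_pb (δ : ℝ) (X J : ℕ) {j : ℕ} (hj : j < J) (t : ℝ) :
    dp (pb δ X j) (2 ^ (j + 1)) t =
      ∑ n ∈ Finset.range (2 ^ J), pb δ X j n * (n : ℂ) ^ (-(t : ℂ) * I) := by
  unfold dp pb
  simp_rw [ite_mul, zero_mul]
  rw [← Finset.sum_filter, ← Finset.sum_filter]
  refine Finset.sum_congr ?_ fun _ _ => rfl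
  ext n
  simp only [Finset.mem_filter, Finset.mem_Icc, Finset.mem_range]
  constructor
  · rintro ⟨_, h2, h3⟩
    refine ⟨?_, h2, h3⟩
    have h4 := Nat.lt_pow_succ_log_self (show 1 < 2 by norm_num) n
    rw [h3] at h4
    exact h4.trans_le (Nat.pow_le_pow_right (by norm_num) hj)
  · rintro ⟨_, h2, h3⟩
    refine ⟨⟨by omega, ?_⟩, h2, h3⟩
    have h4 := Nat.lt_pow_succ_log_self (show 1 < 2 by norm_num) n
    rw [h3] at h4
    exact h4.le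

lemma cpow_split {n : ℕ} (hn : 1 ≤ n) (x t : ℝ) :
    (n : ℂ) ^ (-(x : ℝ) : ℂ) * (n : ℂ) ^ (-(t : ℂ) * I) = (n : ℂ) ^ (-((x : ℂ) + t * I)) := by
  have hn0 : (n : ℂ) ≠ 0 := by
    have : n ≠ 0 := by omega
    exact_mod_cast this
  rw [← Complex.cpow_add _ _ hn0]
  congr 1
  ring

lemma partial_sum (δ : ℝ) {X J : ℕ} (hX : 1 ≤ X) (hJ : 1 ≤ J) (t : ℝ) :
    ∑ n ∈ Finset.range (2 ^ J), aX X n * (n : ℂ) ^ (-(((1 + δ : ℝ) : ℂ) + t * I)) - 1 =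
      ∑ j ∈ Finset.range J, dp (pb δ X j) (2 ^ (j + 1)) t := by
  have h1 : ∑ j ∈ Finset.range J, dp (pb δ X j) (2 ^ (j + 1)) t =
      ∑ n ∈ Finset.range (2 ^ J), ∑ j ∈ Finset.range J, pb δ X j n * (n : ℂ) ^ (-(t : ℂ) * I) := by
    rw [Finset.sum_comm]
    exact Finset.sum_congr rfl fun j hj => dp_pb δ X J (Finset.mem_range.1 hj) t
  have h2 : ∀ n ∈ Finset.range (2 ^ J),
      ∑ j ∈ Finset.range J, pb δ X j n * (n : ℂ) ^ (-(t : ℂ) * I) =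
      aX X n * (n : ℂ) ^ (-(((1 + δ : ℝ) : ℂ) + t * I)) - (if n = 1 then 1 else 0) := by
    intro n hn
    rw [Finset.mem_range] at hn
    rcases Nat.lt_or_ge X n with hXn | hXn
    · have hlog : Nat.log 2 n < J := Nat.log_lt_of_lt_pow (by omega) hn
      rw [Finset.sum_eq_single (Nat.log 2 n)]
      · rw [if_neg (by omega), sub_zero, ← cpow_split (by omega)]
        unfold pb
        rw [if_pos ⟨hXn, rfl⟩, mul_assoc]
      · intro j _ hj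
        unfold pb
        rw [if_neg (fun h => hj h.2.symm), zero_mul]
      · intro h
        exact absurd (Finset.mem_range.2 hlog) h
    · have h3 : ∀ j ∈ Finset.range J, pb δ X j n * (n : ℂ) ^ (-(t : ℂ) * I) = 0 := by
        intro j _
        unfold pb
        rw [if_neg (fun h => by omega), zero_mul]
      rw [Finset.sum_congr rfl h3, Finset.sum_const_zero]
      rcases Nat.lt_trichotomy n 1 with h | h | h
      · have : n = 0 := by omega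
        subst this
        rw [aX_map_zero]
        simp
      · subst h
        rw [aX_one hX]
        simp
      · rw [aX_zero h hXn, if_neg (by omega)]
        simp
  rw [h1, Finset.sum_congr rfl h2, Finset.sum_sub_distrib]
  congr 1
  rw [Finset.sum_ite_eq' (Finset.range (2 ^ J)) 1 (fun _ => (1 : ℂ)), if_pos]
  rw [Finset.mem_range]
  exact Nat.one_lt_two_pow (by omega)

lemma tendsto_F {δ : ℝ} (hδ : 0 < δ) {X : ℕ} (hX : 1 ≤ X) (t : ℝ) :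
    Tendsto (fun J : ℕ => ∑ j ∈ Finset.range J, dp (pb δ X j) (2 ^ (j + 1)) t) atTop
      (𝓝 (Fz X (((1 + δ : ℝ) : ℂ) + t * I))) := by
  have hre : 1 < (((1 + δ : ℝ) : ℂ) + t * I).re := by simp [hδ]
  have h1 := hasSum_tc_F X 0 hre
  have h2 : HasSum (fun n : ℕ => aX X n * (n : ℂ) ^ (-(((1 + δ : ℝ) : ℂ) + t * I)))
      (riemannZeta (((1 + δ : ℝ) : ℂ) + t * I) * MX X (((1 + δ : ℝ) : ℂ) + t * I)) := by
    simpa [tc] using h1
  have h3 := (h2.tendsto_sum_nat.comp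
    (tendsto_pow_atTop_atTop_of_one_lt (show 1 < 2 by norm_num))).sub_const 1
  refine h3.congr' ?_
  filter_upwards [eventually_ge_atTop 1] with J hJ
  exact partial_sum δ hX hJ t

lemma pb_norm_le {δ C : ℝ} (hδ : 0 < δ)
    (hC : ∀ n : ℕ, 1 ≤ n → (n.divisors.card : ℝ) ≤ C * (n : ℝ) ^ (δ / 2 : ℝ)) (X j n : ℕ) :
    ‖pb δ X j n‖ ^ 2 ≤ C ^ 2 * ((2 : ℝ) ^ j) ^ (-(2 + δ) : ℝ) := by
  unfold pb
  split_ifs with h
  · have hn : 1 ≤ n := by omega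
    have hnr : (1 : ℝ) ≤ n := by exact_mod_cast hn
    have h1 := (aX_norm_le X n).trans (hC n hn)
    have h2 : ((2 : ℝ) ^ j) ≤ n := by
      have := Nat.pow_log_le_self 2 (show n ≠ 0 by omega)
      rw [h.2] at this
      exact_mod_cast this
    have h3 : (n : ℝ) ^ (-(2 + δ) : ℝ) ≤ ((2 : ℝ) ^ j) ^ (-(2 + δ) : ℝ) :=
      Real.rpow_le_rpow_of_nonpos (by positivity) h2 (by linarith)
    rw [norm_mul, Complex.norm_natCast_cpow_of_pos (by omega)]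
    have h4 : (-((1 + δ : ℝ) : ℂ)).re = -(1 + δ) := by
      rw [Complex.neg_re, Complex.ofReal_re]
    rw [h4]
    have h0 : 0 ≤ (n : ℝ) ^ (-(1 + δ) : ℝ) := by positivity
    calc (‖aX X n‖ * (n : ℝ) ^ (-(1 + δ) : ℝ)) ^ 2
        ≤ ((C * (n : ℝ) ^ (δ / 2 : ℝ)) * (n : ℝ) ^ (-(1 + δ) : ℝ)) ^ 2 := by gcongr
      _ = C ^ 2 * ((n : ℝ) ^ (δ / 2 : ℝ) * (n : ℝ) ^ (-(1 + δ) : ℝ)) ^ 2 := by ring
      _ = C ^ 2 * (n : ℝ) ^ (-(2 + δ) : ℝ) := by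
          rw [← Real.rpow_add (by linarith), ← Real.rpow_natCast ((n : ℝ) ^ (δ / 2 + -(1 + δ))) 2,
            ← Real.rpow_mul (by linarith)]
          congr 2
          push_cast
          ring
      _ ≤ _ := mul_le_mul_of_nonneg_left h3 (by positivity)
  · rw [norm_zero, zero_pow two_ne_zero]
    positivity

lemma piece {δ C : ℝ} (hδ : 0 < δ)
    (hC : ∀ n : ℕ, 1 ≤ n → (n.divisors.card : ℝ) ≤ C * (n : ℝ) ^ (δ / 2 : ℝ)) (N0 j : ℕ)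
    (S : Finset ℕ) (hS : S ⊆ Finset.range N0)
    (t : ℕ → ℝ) (ht : ∀ n ∈ S, t n ∈ Icc (n : ℝ) (n + 1)) :
    ∑ n ∈ S, ‖dp (pb δ N0 j) (2 ^ (j + 1)) (t n)‖ ^ 2 ≤
      72 * C ^ 2 * ((j + 2 : ℝ) ^ 3 * ((2 : ℝ) ^ (-δ : ℝ)) ^ j) := by
  rcases le_or_gt (2 ^ (j + 1)) N0 with h | h
  · have h0 : ∀ n, pb δ N0 j n = 0 := by
      intro n
      unfold pb
      rw [if_neg]
      rintro ⟨h1, h2⟩
      have h4 := Nat.lt_pow_succ_log_self (show 1 < 2 by norm_num) n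
      rw [h2] at h4
      omega
    have h5 : ∑ n ∈ S, ‖dp (pb δ N0 j) (2 ^ (j + 1)) (t n)‖ ^ 2 = 0 := by
      refine Finset.sum_eq_zero fun n _ => ?_
      unfold dp
      simp [h0]
    rw [h5]
    positivity
  · have h1 := discrete_mv (pb δ N0 j) (2 ^ (j + 1)) N0 S hS t ht
    refine h1.trans ?_
    have h2j : (0 : ℝ) < 2 ^ j := by positivity
    have hlog : Real.log ((2 ^ (j + 1) : ℕ) : ℝ) ≤ j + 1 := by
      push_cast
      rw [Real.log_pow]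
      have := Real.log_two_lt_d9
      push_cast
      nlinarith [show (0 : ℝ) ≤ j by positivity]
    have hlog0 : 0 ≤ Real.log ((2 ^ (j + 1) : ℕ) : ℝ) := Real.log_natCast_nonneg _
    have hN0 : (N0 : ℝ) ≤ 2 * 2 ^ j := by
      have : (N0 : ℝ) ≤ ((2 ^ (j + 1) : ℕ) : ℝ) := by exact_mod_cast h.le
      refine this.trans (le_of_eq ?_)
      push_cast
      ring
    have hj0 : (0 : ℝ) ≤ j := by positivity
    have e1 : 2 + Real.log ((2 ^ (j + 1) : ℕ) : ℝ) ^ 2 ≤ 2 * (j + 2 : ℝ) ^ 2 := by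
      have : Real.log ((2 ^ (j + 1) : ℕ) : ℝ) ^ 2 ≤ ((j : ℝ) + 1) ^ 2 := by gcongr
      nlinarith
    have e2 : (N0 : ℝ) + 8 * ((2 ^ (j + 1) : ℕ) : ℝ) * (1 + Real.log ((2 ^ (j + 1) : ℕ) : ℝ)) ≤
        18 * 2 ^ j * (j + 2) := by
      have e3 : ((2 ^ (j + 1) : ℕ) : ℝ) = 2 * 2 ^ j := by push_cast; ring
      have e4 : 8 * ((2 ^ (j + 1) : ℕ) : ℝ) * (1 + Real.log ((2 ^ (j + 1) : ℕ) : ℝ)) ≤
          8 * (2 * 2 ^ j) * (1 + (j + 1)) := by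
        rw [e3] at hlog ⊢
        gcongr
      have e5 : (0 : ℝ) ≤ 2 ^ j * j := by positivity
      nlinarith
    have e3 : ∑ n ∈ Finset.Icc 1 (2 ^ (j + 1)), ‖pb δ N0 j n‖ ^ 2 ≤
        2 * 2 ^ j * (C ^ 2 * ((2 : ℝ) ^ j) ^ (-(2 + δ) : ℝ)) := by
      refine (Finset.sum_le_sum fun n _ => pb_norm_le hδ hC N0 j n).trans (le_of_eq ?_)
      rw [Finset.sum_const, Nat.card_Icc, nsmul_eq_mul, Nat.add_sub_cancel]
      push_cast
      ring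
    have e6 : ((2 : ℝ) ^ j) ^ (-(2 + δ) : ℝ) * 2 ^ j * 2 ^ j = ((2 : ℝ) ^ (-δ : ℝ)) ^ j := by
      rw [← Real.rpow_natCast 2 j, ← Real.rpow_mul (by norm_num), ← Real.rpow_add (by norm_num),
        ← Real.rpow_add (by norm_num), ← Real.rpow_natCast ((2 : ℝ) ^ (-δ : ℝ)) j,
        ← Real.rpow_mul (by norm_num)]
      congr 1
      ring
    have e7 : 0 ≤ ∑ n ∈ Finset.Icc 1 (2 ^ (j + 1)), ‖pb δ N0 j n‖ ^ 2 :=
      Finset.sum_nonneg fun _ _ => by positivity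
    calc (2 + Real.log ((2 ^ (j + 1) : ℕ) : ℝ) ^ 2) *
          (N0 + 8 * ((2 ^ (j + 1) : ℕ) : ℝ) * (1 + Real.log ((2 ^ (j + 1) : ℕ) : ℝ))) *
          ∑ n ∈ Finset.Icc 1 (2 ^ (j + 1)), ‖pb δ N0 j n‖ ^ 2
        ≤ (2 * (j + 2 : ℝ) ^ 2) * (18 * 2 ^ j * (j + 2)) *
          (2 * 2 ^ j * (C ^ 2 * ((2 : ℝ) ^ j) ^ (-(2 + δ) : ℝ))) := by
          gcongr
      _ = 72 * C ^ 2 * ((j + 2 : ℝ) ^ 3 * (((2 : ℝ) ^ j) ^ (-(2 + δ) : ℝ) * 2 ^ j * 2 ^ j)) := by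
          ring
      _ = _ := by rw [e6]

theorem right_mv {δ : ℝ} (hδ : 0 < δ) : ∃ C : ℝ, 0 < C ∧ ∀ N0 : ℕ, 1 ≤ N0 →
    ∀ S : Finset ℕ, S ⊆ Finset.range N0 → ∀ t : ℕ → ℝ, (∀ n ∈ S, t n ∈ Icc (n : ℝ) (n + 1)) →
    ∑ n ∈ S, ‖Fz N0 (((1 + δ : ℝ) : ℂ) + t n * I)‖ ^ 2 ≤ C := by
  obtain ⟨Cd, hCd1, hCd⟩ := div_bound (ε := δ / 2) (by positivity)
  set r : ℝ := (2 : ℝ) ^ (-(δ / 2) : ℝ) with hr
  have hr0 : 0 < r := by positivity
  have hr1 : r < 1 := Real.rpow_lt_one_of_one_lt_of_neg (by norm_num) (by linarith)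
  have hr2 : (2 : ℝ) ^ (-δ : ℝ) = r * r := by
    rw [hr, ← Real.rpow_add (by norm_num)]
    congr 1
    ring
  have hs0 : Summable (fun j : ℕ => (((j : ℝ) + 2) ^ 3 * r ^ j)) := by
    have h1 := summable_pow_mul_geometric_of_norm_lt_one 3 (r := r)
      (by rw [Real.norm_of_nonneg hr0.le]; exact hr1)
    have h2 := (summable_nat_add_iff 2).2 h1
    have h3 := h2.mul_left ((r ^ 2)⁻¹)
    refine h3.congr fun j => ?_
    push_cast
    rw [pow_add]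
    field_simp
  set K3 : ℝ := ∑' j : ℕ, (((j : ℝ) + 2) ^ 3 * r ^ j) with hK3
  have hK30 : 0 ≤ K3 := tsum_nonneg fun j => by positivity
  refine ⟨(1 - r)⁻¹ * (72 * Cd ^ 2 * K3) + 1, ?_, ?_⟩
  · have : 0 < 1 - r := by linarith
    positivity
  intro N0 hN0 S hS t ht
  have hlim : Tendsto (fun J : ℕ => ∑ n ∈ S,
      ‖∑ j ∈ Finset.range J, dp (pb δ N0 j) (2 ^ (j + 1)) (t n)‖ ^ 2) atTop
      (𝓝 (∑ n ∈ S, ‖Fz N0 (((1 + δ : ℝ) : ℂ) + t n * I)‖ ^ 2)) :=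
    tendsto_finsetSum _ fun n _ => ((tendsto_F hδ hN0 (t n)).norm).pow 2
  refine le_of_tendsto hlim (Eventually.of_forall fun J => ?_)
  have hcs : ∀ n ∈ S, ‖∑ j ∈ Finset.range J, dp (pb δ N0 j) (2 ^ (j + 1)) (t n)‖ ^ 2 ≤
      (∑ j ∈ Finset.range J, r ^ j) *
      ∑ j ∈ Finset.range J, (r ^ j)⁻¹ * ‖dp (pb δ N0 j) (2 ^ (j + 1)) (t n)‖ ^ 2 := by
    intro n _
    have h1 : ‖∑ j ∈ Finset.range J, dp (pb δ N0 j) (2 ^ (j + 1)) (t n)‖ ≤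
        ∑ j ∈ Finset.range J, ‖dp (pb δ N0 j) (2 ^ (j + 1)) (t n)‖ := norm_sum_le _ _
    refine (pow_le_pow_left₀ (norm_nonneg _) h1 2).trans ?_
    refine Finset.sum_sq_le_sum_mul_sum_of_sq_le_mul _ (fun j _ => by positivity)
      (fun j _ => by positivity) fun j _ => le_of_eq ?_
    have : r ^ j ≠ 0 := by positivity
    field_simp
  have hgeo : ∑ j ∈ Finset.range J, r ^ j ≤ (1 - r)⁻¹ := by
    rw [← tsum_geometric_of_lt_one hr0.le hr1]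
    exact (summable_geometric_of_lt_one hr0.le hr1).sum_le_tsum _ fun j _ => by positivity
  have hgeo0 : 0 ≤ ∑ j ∈ Finset.range J, r ^ j := Finset.sum_nonneg fun j _ => by positivity
  have hinner : ∑ n ∈ S, ∑ j ∈ Finset.range J,
      (r ^ j)⁻¹ * ‖dp (pb δ N0 j) (2 ^ (j + 1)) (t n)‖ ^ 2 ≤ 72 * Cd ^ 2 * K3 := by
    rw [Finset.sum_comm]
    have h2 : ∀ j ∈ Finset.range J, ∑ n ∈ S,
        (r ^ j)⁻¹ * ‖dp (pb δ N0 j) (2 ^ (j + 1)) (t n)‖ ^ 2 ≤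
        72 * Cd ^ 2 * (((j : ℝ) + 2) ^ 3 * r ^ j) := by
      intro j _
      rw [← Finset.mul_sum]
      have h3 := piece hδ hCd N0 j S hS t ht
      rw [hr2, mul_pow] at h3
      have h4 : 0 ≤ (r ^ j)⁻¹ := by positivity
      calc (r ^ j)⁻¹ * ∑ n ∈ S, ‖dp (pb δ N0 j) (2 ^ (j + 1)) (t n)‖ ^ 2
          ≤ (r ^ j)⁻¹ * (72 * Cd ^ 2 * ((j + 2 : ℝ) ^ 3 * (r ^ j * r ^ j))) :=
            mul_le_mul_of_nonneg_left h3 h4
        _ = _ := by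
            have : r ^ j ≠ 0 := by positivity
            field_simp
    refine (Finset.sum_le_sum h2).trans ?_
    rw [← Finset.mul_sum]
    exact mul_le_mul_of_nonneg_left (hs0.sum_le_tsum _ fun j _ => by positivity) (by positivity)
  calc ∑ n ∈ S, ‖∑ j ∈ Finset.range J, dp (pb δ N0 j) (2 ^ (j + 1)) (t n)‖ ^ 2
      ≤ ∑ n ∈ S, (∑ j ∈ Finset.range J, r ^ j) *
        ∑ j ∈ Finset.range J, (r ^ j)⁻¹ * ‖dp (pb δ N0 j) (2 ^ (j + 1)) (t n)‖ ^ 2 :=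
        Finset.sum_le_sum hcs
    _ = (∑ j ∈ Finset.range J, r ^ j) * ∑ n ∈ S,
        ∑ j ∈ Finset.range J, (r ^ j)⁻¹ * ‖dp (pb δ N0 j) (2 ^ (j + 1)) (t n)‖ ^ 2 := by
        rw [← Finset.mul_sum]
    _ ≤ (1 - r)⁻¹ * (72 * Cd ^ 2 * K3) := by
        refine mul_le_mul hgeo hinner ?_ (inv_nonneg.2 (by linarith))
        exact Finset.sum_nonneg fun _ _ => Finset.sum_nonneg fun _ _ => by positivity
    _ ≤ _ := by linarith

end Pool.Agent.R516.LI
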