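import Pool.Agent.R516.LIA

/-!
The mollifier on the critical line, and interpolation between two lines near a zero.
-/

open Complex MeasureTheory Set Filter Topology

namespace Pool.Agent.R516.LI

open DH31
open Pool.Agent.H306R2 (Zt Zt_norm_le Zt_differentiableAt zeta_eq_pos)

lemma MX_eq_dp (X : ℕ) (t : ℝ) : MX X (((1 / 2 : ℝ) : ℂ) + t * I) =
    dp (fun m => (ArithmeticFunction.moebius m : ℂ) * (m : ℂ) ^ (-((1 / 2 : ℝ) : ℂ))) X t := by
  unfold MX dp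
  refine Finset.sum_congr rfl fun m hm => ?_
  rw [Finset.mem_Icc] at hm
  rw [mul_assoc, cpow_split hm.1]

theorem left_mv (N0 : ℕ) (hN0 : 1 ≤ N0) (S : Finset ℕ) (hS : S ⊆ Finset.range N0) (t : ℕ → ℝ)
    (ht : ∀ n ∈ S, t n ∈ Icc (n : ℝ) (n + 1)) :
    ∑ n ∈ S, ‖MX N0 (((1 / 2 : ℝ) : ℂ) + t n * I)‖ ^ 2 ≤
      18 * N0 * (1 + Real.log N0) ^ 4 := by
  simp_rw [MX_eq_dp]
  refine (discrete_mv _ N0 N0 S hS t ht).trans ?_
  have hN : (1 : ℝ) ≤ N0 := by exact_mod_cast hN0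
  have hlog : 0 ≤ Real.log N0 := Real.log_nonneg hN
  have h1 : ∑ m ∈ Finset.Icc 1 N0,
      ‖(ArithmeticFunction.moebius m : ℂ) * (m : ℂ) ^ (-((1 / 2 : ℝ) : ℂ))‖ ^ 2 ≤
      1 + Real.log N0 := by
    have h2 : ∀ m ∈ Finset.Icc 1 N0,
        ‖(ArithmeticFunction.moebius m : ℂ) * (m : ℂ) ^ (-((1 / 2 : ℝ) : ℂ))‖ ^ 2 ≤ ((m : ℝ))⁻¹ := by
      intro m hm
      rw [Finset.mem_Icc] at hm
      have hm1 : (1 : ℝ) ≤ m := by exact_mod_cast hm.1
      rw [norm_mul, Complex.norm_natCast_cpow_of_pos (by omega), Complex.neg_re, Complex.ofReal_re,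
        mul_pow]
      have h3 : ‖(ArithmeticFunction.moebius m : ℂ)‖ ^ 2 ≤ 1 :=
        pow_le_one₀ (norm_nonneg _) (moebius_norm_le m)
      have h4 : ((m : ℝ) ^ (-(1 / 2) : ℝ)) ^ 2 = (m : ℝ)⁻¹ := by
        rw [← Real.rpow_natCast, ← Real.rpow_mul (by linarith), ← Real.rpow_neg_one]
        congr 1
        norm_num
      rw [h4]
      have h5 : 0 ≤ (m : ℝ)⁻¹ := by positivity
      nlinarith
    refine (Finset.sum_le_sum h2).trans ?_
    have h6 := harmonic_le_one_add_log N0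
    rw [harmonic_eq_sum_Icc] at h6
    push_cast at h6
    exact h6
  have h0 : 0 ≤ ∑ m ∈ Finset.Icc 1 N0,
      ‖(ArithmeticFunction.moebius m : ℂ) * (m : ℂ) ^ (-((1 / 2 : ℝ) : ℂ))‖ ^ 2 :=
    Finset.sum_nonneg fun _ _ => by positivity
  calc (2 + Real.log N0 ^ 2) * (N0 + 8 * N0 * (1 + Real.log N0)) * ∑ m ∈ Finset.Icc 1 N0,
        ‖(ArithmeticFunction.moebius m : ℂ) * (m : ℂ) ^ (-((1 / 2 : ℝ) : ℂ))‖ ^ 2
      ≤ (2 * (1 + Real.log N0) ^ 2) * (9 * N0 * (1 + Real.log N0)) * (1 + Real.log N0) := by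
        have e1 : 2 + Real.log N0 ^ 2 ≤ 2 * (1 + Real.log N0) ^ 2 := by nlinarith
        have e2 : (N0 : ℝ) + 8 * N0 * (1 + Real.log N0) ≤ 9 * N0 * (1 + Real.log N0) := by
          nlinarith [mul_nonneg (show (0 : ℝ) ≤ N0 by linarith) hlog]
        gcongr
    _ = _ := by ring

/-- the auxiliary function -/
noncomputable def Ga (X : ℕ) (k : ℝ) (ρ s : ℂ) : ℂ :=
  (Zt s * MX X s - (s - 1)) / (s + 1) * cexp ((k : ℂ) * (s - ρ) ^ 2)

lemma norm_gauss (k : ℝ) (ρ s : ℂ) : ‖cexp ((k : ℂ) * (s - ρ) ^ 2)‖ =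
    Real.exp (k * (s.re - ρ.re) ^ 2) * Real.exp (-(k * (s.im - ρ.im) ^ 2)) := by
  rw [Complex.norm_exp, ← Real.exp_add]
  congr 1
  rw [Complex.re_ofReal_mul, sq, Complex.mul_re, Complex.sub_re, Complex.sub_im]
  ring

lemma Ga_diff {X : ℕ} {k : ℝ} {ρ s : ℂ} (hs : 0 < s.re) : DifferentiableAt ℂ (Ga X k ρ) s := by
  unfold Ga
  have h1 := Zt_differentiableAt hs
  have h2 := MX_differentiable X s
  have h3 : s + 1 ≠ 0 := by
    intro h
    have := congrArg Complex.re h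
    simp at this
    linarith
  exact (((h1.mul h2).sub (by fun_prop)).div (by fun_prop) h3).mul (by fun_prop)

lemma one_add_sq_exp {k u H : ℝ} (hk : 1 ≤ k) (hH : 0 ≤ H) (hu : H ≤ u) :
    (1 + u) ^ 2 * Real.exp (-(k * u ^ 2)) ≤ 4 * Real.exp (-(k * H ^ 2 / 2)) := by
  have h1 : (1 + u) ^ 2 ≤ 4 * Real.exp (u ^ 2 / 2) := by
    have := Real.add_one_le_exp (u ^ 2 / 2)
    nlinarith [sq_nonneg (u - 1)]
  have h2 : Real.exp (u ^ 2 / 2) * Real.exp (-(k * u ^ 2)) ≤ Real.exp (-(k * H ^ 2 / 2)) := by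
    rw [← Real.exp_add]
    apply Real.exp_le_exp.2
    have h3 : H ^ 2 ≤ u ^ 2 := by gcongr
    have h4 : k * H ^ 2 ≤ k * u ^ 2 := by gcongr
    have h5 : 1 * u ^ 2 ≤ k * u ^ 2 := by gcongr
    linarith
  calc (1 + u) ^ 2 * Real.exp (-(k * u ^ 2))
      ≤ (4 * Real.exp (u ^ 2 / 2)) * Real.exp (-(k * u ^ 2)) := by gcongr
    _ = 4 * (Real.exp (u ^ 2 / 2) * Real.exp (-(k * u ^ 2))) := by ring
    _ ≤ _ := by gcongr

/-- growth of the auxiliary function -/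
lemma Ga_norm_le {δ : ℝ} (hδ : 0 < δ) (hδ1 : δ ≤ 1 / 2) {X : ℕ} (hX : 1 ≤ X) {k : ℝ} (hk : 1 ≤ k)
    {ρ s : ℂ} (h3 : 3 ≤ ρ.im) (h1 : 1 / 2 ≤ ρ.re) (h2 : ρ.re ≤ 1) (hs1 : 1 / 2 ≤ s.re)
    (hs2 : s.re ≤ 1 + δ) {H : ℝ} (hH : 0 ≤ H) (hu : H ≤ |s.im - ρ.im|) :
    ‖Ga X k ρ s‖ ≤ 16 * X * (ρ.im + 4) ^ 2 * Real.exp k * Real.exp (-(k * H ^ 2 / 2)) := by
  have hXr : (1 : ℝ) ≤ X := by exact_mod_cast hX
  set u := |s.im - ρ.im| with hudef
  have hu0 : 0 ≤ u := abs_nonneg _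
  have hZ := Zt_norm_le hs1
  have hM := MX_norm_le X (s := s) (by linarith)
  have hsn := norm_nonneg s
  have hsm : ‖s - 1‖ ≤ ‖s‖ + 1 := by
    have := norm_sub_le s 1
    rwa [norm_one] at this
  have hsp : 1 ≤ ‖s + 1‖ := by
    have h4 := Complex.re_le_norm (s + 1)
    rw [Complex.add_re, Complex.one_re] at h4
    linarith
  have hnum : ‖Zt s * MX X s - (s - 1)‖ ≤ 4 * X * (‖s‖ + 1) ^ 2 := by
    calc ‖Zt s * MX X s - (s - 1)‖ ≤ ‖Zt s‖ * ‖MX X s‖ + ‖s - 1‖ := by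
          rw [← norm_mul]; exact norm_sub_le _ _
      _ ≤ (3 * (‖s‖ + 1) ^ 2) * X + (‖s‖ + 1) := by gcongr
      _ ≤ _ := by nlinarith [mul_nonneg (show (0 : ℝ) ≤ X - 1 by linarith) (sq_nonneg (‖s‖ + 1))]
  have hsb : ‖s‖ + 1 ≤ (ρ.im + 4) * (1 + u) := by
    have h4 := Complex.norm_le_abs_re_add_abs_im s
    have h5 : |s.re| ≤ 3 / 2 := by rw [abs_le]; constructor <;> linarith
    have h6 : |s.im| ≤ ρ.im + u := by
      have := abs_add_le (s.im - ρ.im) ρ.im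
      rw [sub_add_cancel, abs_of_nonneg (by linarith : (0 : ℝ) ≤ ρ.im)] at this
      linarith
    nlinarith
  have hfrac : ‖(Zt s * MX X s - (s - 1)) / (s + 1)‖ ≤ 4 * X * ((ρ.im + 4) * (1 + u)) ^ 2 := by
    rw [norm_div]
    calc ‖Zt s * MX X s - (s - 1)‖ / ‖s + 1‖ ≤ ‖Zt s * MX X s - (s - 1)‖ / 1 := by gcongr
      _ ≤ 4 * X * (‖s‖ + 1) ^ 2 := by rw [div_one]; exact hnum
      _ ≤ _ := by gcongr
  have hre : Real.exp (k * (s.re - ρ.re) ^ 2) ≤ Real.exp k := by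
    apply Real.exp_le_exp.2
    have h4 : |s.re - ρ.re| ≤ 1 := by rw [abs_le]; constructor <;> linarith
    have h5 : (s.re - ρ.re) ^ 2 ≤ 1 := by
      rw [← sq_abs]
      exact pow_le_one₀ (abs_nonneg _) h4
    nlinarith
  have him : (s.im - ρ.im) ^ 2 = u ^ 2 := by rw [hudef, sq_abs]
  unfold Ga
  rw [norm_mul, norm_gauss, him]
  have h6 := one_add_sq_exp hk hH hu
  calc ‖(Zt s * MX X s - (s - 1)) / (s + 1)‖ *
        (Real.exp (k * (s.re - ρ.re) ^ 2) * Real.exp (-(k * u ^ 2)))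
      ≤ (4 * X * ((ρ.im + 4) * (1 + u)) ^ 2) * (Real.exp k * Real.exp (-(k * u ^ 2))) := by
        gcongr
    _ = 4 * X * (ρ.im + 4) ^ 2 * Real.exp k * ((1 + u) ^ 2 * Real.exp (-(k * u ^ 2))) := by ring
    _ ≤ 4 * X * (ρ.im + 4) ^ 2 * Real.exp k * (4 * Real.exp (-(k * H ^ 2 / 2))) := by gcongr
    _ = _ := by ring

/-- the auxiliary function near the zero -/
lemma Ga_norm_near {δ : ℝ} (hδ : 0 < δ) (hδ1 : δ ≤ 1 / 2) {X : ℕ} {k : ℝ} (hk : 1 ≤ k)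
    {ρ s : ℂ} (h1 : 1 / 2 ≤ ρ.re) (h2 : ρ.re ≤ 1) (hs1 : 1 / 2 ≤ s.re)
    (hs2 : s.re ≤ 1 + δ) (hs : s ≠ 1) : ‖Ga X k ρ s‖ ≤ Real.exp k * ‖Fz X s‖ := by
  have e1 : Zt s * MX X s - (s - 1) = (s - 1) * Fz X s := by
    rw [← zeta_eq_pos (by linarith) hs]
    unfold Fz
    ring
  have hsp : 0 < ‖s + 1‖ := by
    have h4 := Complex.re_le_norm (s + 1)
    rw [Complex.add_re, Complex.one_re] at h4
    linarith
  have hsm : ‖s - 1‖ ≤ ‖s + 1‖ := by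
    rw [← sq_le_sq₀ (norm_nonneg _) (norm_nonneg _), Complex.sq_norm, Complex.sq_norm,
      Complex.normSq_apply, Complex.normSq_apply]
    simp only [Complex.sub_re, Complex.sub_im, Complex.add_re, Complex.add_im, Complex.one_re,
      Complex.one_im]
    nlinarith
  have hre : Real.exp (k * (s.re - ρ.re) ^ 2) ≤ Real.exp k := by
    apply Real.exp_le_exp.2
    have h4 : |s.re - ρ.re| ≤ 1 := by rw [abs_le]; constructor <;> linarith
    have h5 : (s.re - ρ.re) ^ 2 ≤ 1 := by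
      rw [← sq_abs]
      exact pow_le_one₀ (abs_nonneg _) h4
    nlinarith
  have him : Real.exp (-(k * (s.im - ρ.im) ^ 2)) ≤ 1 := by
    rw [Real.exp_le_one_iff]
    have : 0 ≤ k * (s.im - ρ.im) ^ 2 := by positivity
    linarith
  unfold Ga
  rw [e1, norm_mul, norm_div, norm_mul, norm_gauss]
  have h5 : ‖s - 1‖ * ‖Fz X s‖ / ‖s + 1‖ ≤ ‖Fz X s‖ := by
    rw [div_le_iff₀ hsp, mul_comm]
    gcongr
  calc ‖s - 1‖ * ‖Fz X s‖ / ‖s + 1‖ *
        (Real.exp (k * (s.re - ρ.re) ^ 2) * Real.exp (-(k * (s.im - ρ.im) ^ 2)))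
      ≤ ‖Fz X s‖ * (Real.exp k * 1) := by gcongr
    _ = _ := by ring

/-- interpolation near a zero -/
theorem interp {δ : ℝ} (hδ : 0 < δ) (hδ1 : δ ≤ 1 / 2) {X : ℕ} (hX : 1 ≤ X) {k H : ℝ}
    (hk : 1 ≤ k) (hH : 0 ≤ H) {ρ : ℂ} (hρ : riemannZeta ρ = 0) (h3 : 3 ≤ ρ.im)
    (h1 : 1 / 2 ≤ ρ.re) (h2 : ρ.re ≤ 1) {a b η : ℝ} (ha0 : 0 ≤ a) (hb0 : 0 ≤ b)
    (hη : 16 * X * (ρ.im + 4) ^ 2 * Real.exp k * Real.exp (-(k * H ^ 2 / 2)) ≤ η)
    (hHρ : H + 1 ≤ ρ.im)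
    (ha : ∀ t : ℝ, |t - ρ.im| ≤ H → ‖Fz X (((1 / 2 : ℝ) : ℂ) + t * I)‖ ≤ a)
    (hb : ∀ t : ℝ, |t - ρ.im| ≤ H → ‖Fz X (((1 + δ : ℝ) : ℂ) + t * I)‖ ≤ b) :
    1 / 2 ≤ (Real.exp k * a + η) ^ (1 - (ρ.re - 1 / 2) / (1 + δ - 1 / 2)) *
      (Real.exp k * b + η) ^ ((ρ.re - 1 / 2) / (1 + δ - 1 / 2)) := by
  have hη0 : 0 ≤ η := le_trans (by positivity) hη
  have hrep : ∀ s : ℂ, s = ((s.re : ℝ) : ℂ) + (s.im : ℂ) * I := fun s => (Complex.re_add_im s).symm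
  have hfar : ∀ s : ℂ, 1 / 2 ≤ s.re → s.re ≤ 1 + δ → H ≤ |s.im - ρ.im| → ‖Ga X k ρ s‖ ≤ η :=
    fun s hs1 hs2 hu => (Ga_norm_le hδ hδ1 hX hk h3 h1 h2 hs1 hs2 hH hu).trans hη
  have hne : ∀ s : ℂ, |s.im - ρ.im| ≤ H → s ≠ 1 := by
    rintro s hs rfl
    rw [Complex.one_im, zero_sub, abs_neg, abs_of_nonneg (by linarith)] at hs
    linarith
  have key := HadamardThreeLines.norm_le_interp_of_mem_verticalClosedStrip'
    (f := Ga X k ρ) (z := ρ) (a := Real.exp k * a + η) (b := Real.exp k * b + η)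
    (l := 1 / 2) (u := 1 + δ) (by linarith)
    (show ρ.re ∈ Set.Icc (1 / 2) (1 + δ) from ⟨h1, by linarith⟩)
    (by
      apply DifferentiableOn.diffContOnCl
      intro z hz
      have hz' : z.re ∈ Set.Icc (1 / 2) (1 + δ) := by
        have h3 : closure (HadamardThreeLines.verticalStrip (1 / 2) (1 + δ)) ⊆
            Complex.re ⁻¹' (Set.Icc (1 / 2) (1 + δ)) := by
          apply closure_minimal
          · intro w hw
            exact Set.Ioo_subset_Icc_self hw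
          · exact isClosed_Icc.preimage Complex.continuous_re
        exact h3 hz
      exact (Ga_diff (by linarith [hz'.1])).differentiableWithinAt)
    (by
      refine ⟨16 * X * (ρ.im + 4) ^ 2 * Real.exp k * Real.exp (-(k * 0 ^ 2 / 2)), ?_⟩
      rintro _ ⟨z, hz, rfl⟩
      have hz' : 1 / 2 ≤ z.re ∧ z.re ≤ 1 + δ := hz
      exact Ga_norm_le hδ hδ1 hX hk h3 h1 h2 hz'.1 hz'.2 le_rfl (abs_nonneg _))
    (by
      intro z hz
      have hz' : z.re = 1 / 2 := hz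
      rcases le_total |z.im - ρ.im| H with h | h
      · have h4 := Ga_norm_near hδ hδ1 (X := X) hk h1 h2 (s := z) (by linarith) (by linarith)
          (hne z h)
        have h5 := ha z.im h
        have h6 : z = (((1 / 2 : ℝ) : ℂ) + (z.im : ℂ) * I) := by
          conv_lhs => rw [hrep z, hz']
        rw [← h6] at h5
        have h7 : Real.exp k * ‖Fz X z‖ ≤ Real.exp k * a := by gcongr
        linarith
      · have h4 := hfar z (by linarith) (by linarith) h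
        have h7 : 0 ≤ Real.exp k * a := by positivity
        linarith)
    (by
      intro z hz
      have hz' : z.re = 1 + δ := hz
      rcases le_total |z.im - ρ.im| H with h | h
      · have h4 := Ga_norm_near hδ hδ1 (X := X) hk h1 h2 (s := z) (by linarith) (by linarith)
          (hne z h)
        have h5 := hb z.im h
        have h6 : z = (((1 + δ : ℝ) : ℂ) + (z.im : ℂ) * I) := by
          conv_lhs => rw [hrep z, hz']
        rw [← h6] at h5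
        have h7 : Real.exp k * ‖Fz X z‖ ≤ Real.exp k * b := by gcongr
        linarith
      · have h4 := hfar z (by linarith) (by linarith) h
        have h7 : 0 ≤ Real.exp k * b := by positivity
        linarith)
  refine le_trans ?_ key
  have hρ1 : ρ ≠ 1 := by
    rintro rfl
    simp at h3
    linarith
  have e1 : Ga X k ρ ρ = -((ρ - 1) / (ρ + 1)) := by
    unfold Ga
    rw [← zeta_eq_pos (by linarith) hρ1, hρ]
    simp
    ring
  rw [e1, norm_neg, norm_div]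
  have hsp : 0 < ‖ρ + 1‖ := by
    have h4 := Complex.re_le_norm (ρ + 1)
    rw [Complex.add_re, Complex.one_re] at h4
    linarith
  rw [le_div_iff₀ hsp]
  have h4 : ‖ρ + 1‖ ≤ 2 + ρ.im := by
    have := Complex.norm_le_abs_re_add_abs_im (ρ + 1)
    rw [Complex.add_re, Complex.add_im, Complex.one_re, Complex.one_im, add_zero,
      abs_of_nonneg (by linarith), abs_of_nonneg (by linarith)] at this
    linarith
  have h5 : ρ.im ≤ ‖ρ - 1‖ := by
    have := Complex.abs_im_le_norm (ρ - 1)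
    rw [Complex.sub_im, Complex.one_im, sub_zero, abs_of_nonneg (by linarith)] at this
    exact this
  linarith

end Pool.Agent.R516.LI
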