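import Pool.Agent.R516.LIB

/-!
The number of windows: Hölder's inequality, and the choice of the parameters.
-/

open Complex MeasureTheory Set Filter Topology

namespace Pool.Agent.R516.LI

open DH31

lemma holder_count {ι : Type} (S : Finset ι) (A B x : ι → ℝ) (hA : ∀ i ∈ S, 0 ≤ A i)
    (hB : ∀ i ∈ S, 0 ≤ B i) {y P Q : ℝ} (hy0 : 0 ≤ y) (hy1 : y ≤ 1) (hx : ∀ i ∈ S, y ≤ x i)
    (hx1 : ∀ i ∈ S, x i ≤ 1) (h : ∀ i ∈ S, 1 / 2 ≤ A i ^ (1 - x i) * B i ^ x i) (hP : 0 < P)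
    (hQ : 0 < Q) (hAP : ∑ i ∈ S, A i ^ 2 ≤ P) (hBQ : ∑ i ∈ S, B i ^ 2 ≤ Q) :
    (S.card : ℝ) ≤ 4 * ((P + Q) ^ (1 - y) * Q ^ y) := by
  have hPQ : 0 < P + Q := by linarith
  have key : ∀ i ∈ S, 1 ≤ 4 * ((P + Q) ^ (1 - y) * Q ^ y *
      ((1 - y) * ((A i ^ 2 + B i ^ 2) / (P + Q)) + y * (B i ^ 2 / Q))) := by
    intro i hi
    have hAi := hA i hi
    have hBi := hB i hi
    have hxi := hx i hi
    have hxi1 := hx1 i hi
    have hhi := h i hi
    have h1 : 1 ≤ 4 * ((A i ^ 2 + B i ^ 2) ^ (1 - y) * (B i ^ 2) ^ y) := by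
      have e0 : (1 / 2 : ℝ) ^ 2 ≤ (A i ^ (1 - x i) * B i ^ x i) ^ 2 := by gcongr
      have e1 : (A i ^ (1 - x i) * B i ^ x i) ^ 2 = (A i ^ 2) ^ (1 - x i) * (B i ^ 2) ^ x i := by
        rw [mul_pow, ← Real.rpow_natCast, ← Real.rpow_natCast, ← Real.rpow_natCast,
          ← Real.rpow_natCast, ← Real.rpow_mul hAi, ← Real.rpow_mul hBi, ← Real.rpow_mul hAi,
          ← Real.rpow_mul hBi]
        congr 2 <;> ring
      have e2 : (A i ^ 2) ^ (1 - x i) ≤ (A i ^ 2 + B i ^ 2) ^ (1 - x i) :=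
        Real.rpow_le_rpow (by positivity) (by nlinarith [sq_nonneg (B i)]) (by linarith)
      rcases eq_or_lt_of_le hBi with h0 | h0
      · rcases eq_or_lt_of_le (hy0.trans hxi) with h00 | h00
        · have hy : y = 0 := le_antisymm (by linarith) hy0
          rw [hy, sub_zero, Real.rpow_zero]
          rw [← h00, sub_zero] at e1 e2
          simp only [Real.rpow_zero, mul_one] at e1
          rw [← h00, sub_zero, Real.rpow_zero, mul_one] at e0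
          rw [e1] at e0
          linarith
        · exfalso
          rw [← h0, Real.zero_rpow h00.ne', mul_zero] at hhi
          linarith
      · have hb : 0 < B i ^ 2 := by positivity
        have hab : B i ^ 2 ≤ A i ^ 2 + B i ^ 2 := by nlinarith [sq_nonneg (A i)]
        have ha : 0 < A i ^ 2 + B i ^ 2 := hb.trans_le hab
        have e3 : (B i ^ 2) ^ x i ≤ (B i ^ 2) ^ y * (A i ^ 2 + B i ^ 2) ^ (x i - y) := by
          calc (B i ^ 2) ^ x i = (B i ^ 2) ^ y * (B i ^ 2) ^ (x i - y) := by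
                rw [← Real.rpow_add hb]; congr 1; ring
            _ ≤ _ := by
                apply mul_le_mul_of_nonneg_left _ (by positivity)
                exact Real.rpow_le_rpow hb.le hab (by linarith)
        have e4 : (A i ^ 2 + B i ^ 2) ^ (1 - x i) * (A i ^ 2 + B i ^ 2) ^ (x i - y) =
            (A i ^ 2 + B i ^ 2) ^ (1 - y) := by
          rw [← Real.rpow_add ha]; congr 1; ring
        have e5 : (A i ^ 2) ^ (1 - x i) * (B i ^ 2) ^ x i ≤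
            (A i ^ 2 + B i ^ 2) ^ (1 - y) * (B i ^ 2) ^ y := by
          calc (A i ^ 2) ^ (1 - x i) * (B i ^ 2) ^ x i
              ≤ (A i ^ 2 + B i ^ 2) ^ (1 - x i) *
                ((B i ^ 2) ^ y * (A i ^ 2 + B i ^ 2) ^ (x i - y)) := by gcongr
            _ = (A i ^ 2 + B i ^ 2) ^ (1 - x i) * (A i ^ 2 + B i ^ 2) ^ (x i - y) *
                (B i ^ 2) ^ y := by ring
            _ = _ := by rw [e4]
        rw [e1] at e0
        linarith
    refine h1.trans ?_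
    have h2 := Real.geom_mean_le_arith_mean2_weighted (w₁ := 1 - y) (w₂ := y)
      (p₁ := (A i ^ 2 + B i ^ 2) / (P + Q)) (p₂ := B i ^ 2 / Q) (by linarith) hy0 (by positivity)
      (by positivity) (by ring)
    have h3 : (A i ^ 2 + B i ^ 2) ^ (1 - y) * (B i ^ 2) ^ y = (P + Q) ^ (1 - y) * Q ^ y *
        (((A i ^ 2 + B i ^ 2) / (P + Q)) ^ (1 - y) * (B i ^ 2 / Q) ^ y) := by
      rw [Real.div_rpow (by positivity) hPQ.le, Real.div_rpow (by positivity) hQ.le]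
      have : (P + Q) ^ (1 - y) ≠ 0 := by positivity
      have : Q ^ y ≠ 0 := by positivity
      field_simp
    rw [h3]
    gcongr
  calc (S.card : ℝ) = ∑ i ∈ S, 1 := by simp
    _ ≤ ∑ i ∈ S, 4 * ((P + Q) ^ (1 - y) * Q ^ y *
      ((1 - y) * ((A i ^ 2 + B i ^ 2) / (P + Q)) + y * (B i ^ 2 / Q))) := Finset.sum_le_sum key
    _ = 4 * ((P + Q) ^ (1 - y) * Q ^ y) * ((1 - y) * ((∑ i ∈ S, A i ^ 2 + ∑ i ∈ S, B i ^ 2) / (P + Q)) +
        y * ((∑ i ∈ S, B i ^ 2) / Q)) := by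
        simp_rw [← mul_assoc]
        rw [← Finset.mul_sum, Finset.sum_add_distrib, ← Finset.mul_sum, ← Finset.mul_sum,
          ← Finset.sum_div, ← Finset.sum_div, Finset.sum_add_distrib]
    _ ≤ 4 * ((P + Q) ^ (1 - y) * Q ^ y) * ((1 - y) * 1 + y * 1) := by
        have h4 : (∑ i ∈ S, A i ^ 2 + ∑ i ∈ S, B i ^ 2) / (P + Q) ≤ 1 := by
          rw [div_le_one hPQ]; linarith
        have h5 : (∑ i ∈ S, B i ^ 2) / Q ≤ 1 := by
          rw [div_le_one hQ]; exact hBQ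
        have h6 : 0 ≤ 1 - y := by linarith
        gcongr
    _ = _ := by ring

lemma exists_max {f : ℝ → ℝ} (hf : Continuous f) : ∃ τ : ℕ → ℝ, ∀ m : ℕ,
    τ m ∈ Icc (m : ℝ) (m + 1) ∧ ∀ t ∈ Icc (m : ℝ) (m + 1), f t ≤ f (τ m) := by
  have h : ∀ m : ℕ, ∃ τ : ℝ, τ ∈ Icc (m : ℝ) (m + 1) ∧ ∀ t ∈ Icc (m : ℝ) (m + 1), f t ≤ f τ := by
    intro m
    obtain ⟨x, hx, hmax⟩ := isCompact_Icc.exists_isMaxOn
      (nonempty_Icc.2 (by linarith : (m : ℝ) ≤ m + 1)) hf.continuousOn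
    exact ⟨x, hx, fun t ht => hmax ht⟩
  choose τ hτ using h
  exact ⟨τ, hτ⟩

/-- sums over neighbouring windows -/
lemma nbr_sum (g : ℕ → ℝ) (hg : ∀ m, 0 ≤ g m) (S : Finset ℕ) {h N0 : ℕ} (hS : ∀ n ∈ S, h ≤ n)
    (hS2 : ∀ n ∈ S, n + h + 2 ≤ N0) :
    ∑ n ∈ S, ∑ j ∈ Finset.range (2 * h + 2), g (n - h + j) ≤
      (2 * h + 2) * ∑ m ∈ Finset.range N0, g m := by
  rw [Finset.sum_comm]
  have h1 : ∀ j ∈ Finset.range (2 * h + 2), ∑ n ∈ S, g (n - h + j) ≤ ∑ m ∈ Finset.range N0, g m := by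
    intro j hj
    rw [Finset.mem_range] at hj
    have hinj : Set.InjOn (fun n => n - h + j) (S : Set ℕ) := by
      intro a ha b hb hab
      have := hS a ha
      have := hS b hb
      simp only at hab
      omega
    rw [← Finset.sum_image (f := g) hinj]
    refine Finset.sum_le_sum_of_subset_of_nonneg ?_ fun m _ _ => hg m
    intro m hm
    rw [Finset.mem_image] at hm
    obtain ⟨n, hn, rfl⟩ := hm
    have := hS2 n hn
    have := hS n hn
    rw [Finset.mem_range]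
    omega
  refine (Finset.sum_le_sum h1).trans ?_
  rw [Finset.sum_const, Finset.card_range, nsmul_eq_mul]
  push_cast
  exact le_rfl

lemma nbr_le (g : ℕ → ℝ) (hg : ∀ m, 0 ≤ g m) {n h : ℕ} (hn : h ≤ n) {γ t : ℝ}
    (h1 : (n : ℝ) < γ) (h2 : γ ≤ n + 1) (ht : |t - γ| ≤ h) :
    t ∈ Icc ((⌊t⌋₊ : ℕ) : ℝ) ((⌊t⌋₊ : ℕ) + 1) ∧
      g ⌊t⌋₊ ≤ ∑ j ∈ Finset.range (2 * h + 2), g (n - h + j) := by
  have hnr : (h : ℝ) ≤ n := by exact_mod_cast hn
  rw [abs_le] at ht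
  have ht0 : 0 ≤ t := by linarith [ht.1]
  have hf1 := Nat.floor_le ht0
  have hf2 := Nat.lt_floor_add_one t
  refine ⟨⟨hf1, hf2.le⟩, ?_⟩
  have h3 : n - h ≤ ⌊t⌋₊ := by
    apply Nat.le_floor
    rw [Nat.cast_sub hn]
    linarith [ht.1]
  have h4 : ⌊t⌋₊ ≤ n + h + 1 := by
    have : ((⌊t⌋₊ : ℕ) : ℝ) ≤ ((n + h + 1 : ℕ) : ℝ) := by push_cast; linarith [ht.2]
    exact_mod_cast this
  have h5 : ⌊t⌋₊ = n - h + (⌊t⌋₊ - (n - h)) := by omega
  conv_lhs => rw [h5]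
  exact Finset.single_le_sum (f := fun j => g (n - h + j)) (fun j _ => hg _)
    (Finset.mem_range.2 (by omega))

end Pool.Agent.R516.LI
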