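import Pool.Agent.R516.LIC
import Pool.Agent.H31R2.DH.CountA

/-!
The number of unit intervals with a zero near which zeta is small on the critical line.
-/

open Complex MeasureTheory Set Filter Topology

namespace Pool.Agent.R516.LI

open DH31

lemma MX_line_cont (X : ℕ) (x : ℝ) : Continuous fun t : ℝ => ‖MX X ((x : ℂ) + t * I)‖ ^ 2 := by
  have h1 : Continuous (MX X) := (MX_differentiable X).continuous
  have h2 : Continuous fun t : ℝ => (x : ℂ) + t * I := by fun_prop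
  exact ((h1.comp h2).norm).pow 2

lemma Fz_line_cont (X : ℕ) {x : ℝ} (hx : 1 < x) :
    Continuous fun t : ℝ => ‖Fz X ((x : ℂ) + t * I)‖ ^ 2 := by
  have h0 : ∀ t : ℝ, (x : ℂ) + t * I ≠ 1 := by
    intro t h
    have := congrArg Complex.re h
    simp at this
    linarith
  have h1 : Continuous fun t : ℝ => riemannZeta ((x : ℂ) + t * I) := by
    refine continuous_iff_continuousAt.2 fun t => ?_
    have h3 := (differentiableAt_riemannZeta (h0 t)).continuousAt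
    have h2 : ContinuousAt (fun t : ℝ => (x : ℂ) + t * I) t := by fun_prop
    exact ContinuousAt.comp (f := fun t : ℝ => (x : ℂ) + t * I) h3 h2
  have h2 : Continuous fun t : ℝ => MX X ((x : ℂ) + t * I) :=
    (MX_differentiable X).continuous.comp (by fun_prop)
  unfold Fz
  exact (((h1.mul h2).sub continuous_const).norm).pow 2

theorem windows {ε : ℝ} (hε : 0 < ε) : ∃ h : ℕ, 1 ≤ h ∧ ∃ T0 : ℝ, 3 ≤ T0 ∧ ∀ T : ℝ, T0 ≤ T →
    ∀ κ : ℝ, 0 ≤ κ → κ ≤ 1 → ∀ σ : ℝ, 1 / 2 ≤ σ → σ ≤ 1 → ∀ (S : Finset ℕ) (ρ : ℕ → ℂ),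
    (∀ n ∈ S, riemannZeta (ρ n) = 0 ∧ σ ≤ (ρ n).re ∧ (ρ n).re ≤ 1 ∧ (n : ℝ) < (ρ n).im ∧
      (ρ n).im ≤ n + 1 ∧ (ρ n).im ≤ T ∧ h + 3 ≤ n ∧
      ∀ t : ℝ, |t - (ρ n).im| ≤ h → ‖riemannZeta (((1 / 2 : ℝ) : ℂ) + t * I)‖ ≤ T ^ κ) →
    (S.card : ℝ) ≤ 8 * T ^ ((2 + 4 * κ) * (1 - σ) + ε) := by
  obtain ⟨δ, hδ⟩ : ∃ δ : ℝ, δ = min (1 / 2) (ε / 12) := ⟨_, rfl⟩
  have hδ0 : 0 < δ := by rw [hδ]; exact lt_min (by norm_num) (by positivity)
  have hδ1 : δ ≤ 1 / 2 := by rw [hδ]; exact min_le_left _ _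
  have hδ2 : 12 * δ ≤ ε := by
    have : δ ≤ ε / 12 := by rw [hδ]; exact min_le_right _ _
    linarith
  obtain ⟨e, he⟩ : ∃ e : ℝ, e = min 1 (ε / 8) := ⟨_, rfl⟩
  have he0 : 0 < e := by rw [he]; exact lt_min (by norm_num) (by positivity)
  have he1 : e ≤ 1 := by rw [he]; exact min_le_left _ _
  have he2 : 8 * e ≤ ε := by
    have : e ≤ ε / 8 := by rw [he]; exact min_le_right _ _
    linarith
  obtain ⟨C, hC, hright⟩ := right_mv hδ0
  obtain ⟨h, hh⟩ : ∃ h : ℕ, h = ⌈12 / e⌉₊ := ⟨_, rfl⟩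
  have hh1 : 12 / e ≤ h := by rw [hh]; exact Nat.le_ceil _
  have heh : 12 ≤ e * h := by
    rw [div_le_iff₀ he0] at hh1
    linarith
  have hh12 : (12 : ℝ) ≤ h := by
    refine le_trans ?_ hh1
    rw [le_div_iff₀ he0]
    linarith
  have hhn : 12 ≤ h := by exact_mod_cast hh12
  have ev1 : ∀ᶠ T : ℝ in atTop, 1 / e ≤ Real.log T := Real.tendsto_log_atTop.eventually_ge_atTop _
  have ev2 := ev_log (8748 * (2 * h + 2) + 12) (2 * e) 4 (by positivity)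
  have ev3 : ∀ᶠ T : ℝ in atTop, 2 * (2 * h + 2) * C + 2 ≤ T ^ (2 * e) :=
    (tendsto_rpow_atTop (show 0 < 2 * e by positivity)).eventually_ge_atTop _
  obtain ⟨T0, hT0⟩ := Filter.eventually_atTop.1 ((ev1.and ev2).and (ev3.and
    (eventually_ge_atTop ((h : ℝ) + 128))))
  refine ⟨h, by omega, max T0 3, le_max_right _ _, ?_⟩
  intro T hT κ hκ0 hκ1 σ hσ1 hσ2 S ρ hS
  obtain ⟨⟨e1, e2⟩, ⟨e3, e4⟩⟩ := hT0 T ((le_max_left _ _).trans hT)
  have hTpos : 0 < T := by linarith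
  have hT1 : 1 ≤ T := by linarith
  have hT128 : 128 ≤ T := by linarith
  have hk1 : 1 ≤ e * Real.log T := by
    rw [div_le_iff₀ he0] at e1
    linarith
  have hlog1 : 1 ≤ Real.log T := by
    have : 1 ≤ 1 / e := by rw [le_div_iff₀ he0]; linarith
    linarith
  obtain ⟨E, hE⟩ : ∃ E : ℝ, E = T ^ e := ⟨_, rfl⟩
  have hE1 : 1 ≤ E := by rw [hE]; exact Real.one_le_rpow hT1 he0.le
  have hEexp : Real.exp (e * Real.log T) = E := by
    rw [hE, Real.rpow_def_of_pos hTpos, mul_comm]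
  have hE2 : T ^ (2 * e) = E ^ 2 := by
    rw [hE, ← Real.rpow_natCast, ← Real.rpow_mul hTpos.le]
    congr 1
    push_cast
    ring
  have hE4 : T ^ (4 * e) = E ^ 4 := by
    rw [hE, ← Real.rpow_natCast, ← Real.rpow_mul hTpos.le]
    congr 1
    push_cast
    ring
  rw [hE2] at e2 e3
  obtain ⟨N0, hN0⟩ : ∃ N0 : ℕ, N0 = ⌊T⌋₊ + h + 3 := ⟨_, rfl⟩
  have hN01 : 1 ≤ N0 := by omega
  have hN0T : (N0 : ℝ) ≤ 2 * T := by
    rw [hN0]
    push_cast
    have := Nat.floor_le hTpos.le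
    linarith
  have hN0r : (1 : ℝ) ≤ N0 := by exact_mod_cast hN01
  -- maxima
  obtain ⟨τ, hτ⟩ := exists_max (MX_line_cont N0 (1 / 2))
  obtain ⟨τ', hτ'⟩ := exists_max (Fz_line_cont N0 (show 1 < 1 + δ by linarith))
  obtain ⟨g, hg⟩ : ∃ g : ℕ → ℝ, g = fun m => ‖MX N0 (((1 / 2 : ℝ) : ℂ) + τ m * I)‖ ^ 2 := ⟨_, rfl⟩
  obtain ⟨g', hg'⟩ : ∃ g' : ℕ → ℝ, g' = fun m => ‖Fz N0 (((1 + δ : ℝ) : ℂ) + τ' m * I)‖ ^ 2 :=
    ⟨_, rfl⟩
  have hg0 : ∀ m, 0 ≤ g m := fun m => by rw [hg]; positivity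
  have hg0' : ∀ m, 0 ≤ g' m := fun m => by rw [hg']; positivity
  have hgs : ∑ m ∈ Finset.range N0, g m ≤ 18 * N0 * (1 + Real.log N0) ^ 4 := by
    rw [hg]
    exact left_mv N0 hN01 _ le_rfl τ fun n _ => (hτ n).1
  have hgs' : ∑ m ∈ Finset.range N0, g' m ≤ C := by
    rw [hg']
    exact hright N0 hN01 _ le_rfl τ' fun n _ => (hτ' n).1
  obtain ⟨U, hU⟩ : ∃ U : ℕ → ℝ, U = fun n => ∑ j ∈ Finset.range (2 * h + 2), g (n - h + j) :=
    ⟨_, rfl⟩
  obtain ⟨V, hV⟩ : ∃ V : ℕ → ℝ, V = fun n => ∑ j ∈ Finset.range (2 * h + 2), g' (n - h + j) :=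
    ⟨_, rfl⟩
  have hU0 : ∀ n, 0 ≤ U n := fun n => by rw [hU]; exact Finset.sum_nonneg fun _ _ => hg0 _
  have hV0 : ∀ n, 0 ≤ V n := fun n => by rw [hV]; exact Finset.sum_nonneg fun _ _ => hg0' _
  have hSn : ∀ n ∈ S, n + h + 2 ≤ N0 := by
    intro n hn
    obtain ⟨-, -, -, h4, -, h6, -, -⟩ := hS n hn
    have : n ≤ ⌊T⌋₊ := Nat.le_floor (by linarith)
    omega
  have hSn' : ∀ n ∈ S, h ≤ n := by
    intro n hn
    obtain ⟨-, -, -, -, -, -, h7, -⟩ := hS n hn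
    omega
  have hUs : ∑ n ∈ S, U n ≤ (2 * h + 2) * (18 * N0 * (1 + Real.log N0) ^ 4) := by
    rw [hU]
    refine (nbr_sum g hg0 S hSn' hSn).trans ?_
    gcongr
  have hVs : ∑ n ∈ S, V n ≤ (2 * h + 2) * C := by
    rw [hV]
    refine (nbr_sum g' hg0' S hSn' hSn).trans ?_
    gcongr
  -- the bounds on the two lines
  have hTκ : 1 ≤ T ^ κ := Real.one_le_rpow hT1 hκ0
  have hint : ∀ n ∈ S, 1 / 2 ≤
      (E * (T ^ κ * Real.sqrt (U n) + 1) + T⁻¹) ^ (1 - ((ρ n).re - 1 / 2) / (1 + δ - 1 / 2)) *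
      (E * Real.sqrt (V n) + T⁻¹) ^ (((ρ n).re - 1 / 2) / (1 + δ - 1 / 2)) := by
    intro n hn
    obtain ⟨h1, h2, h3, h4, h5, h6, h7, h8⟩ := hS n hn
    have h7r : (h : ℝ) + 3 ≤ n := by exact_mod_cast h7
    have hγ3 : 3 ≤ (ρ n).im := by linarith
    have key := interp hδ0 hδ1 hN01 (k := e * Real.log T) (H := h) hk1 (by positivity) h1 hγ3
      (hσ1.trans h2) h3 (a := T ^ κ * Real.sqrt (U n) + 1) (b := Real.sqrt (V n)) (η := T⁻¹)
      (by positivity) (by positivity)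
      (by
        have e5 : Real.exp (e * Real.log T) * Real.exp (-(e * Real.log T * (h : ℝ) ^ 2 / 2)) ≤
            (T ^ 5)⁻¹ := by
          rw [← Real.exp_add]
          have e6 : (T ^ 5)⁻¹ = Real.exp (-(5 * Real.log T)) := by
            rw [Real.exp_neg]
            congr 1
            have : (5 : ℝ) * Real.log T = ((5 : ℕ) : ℝ) * Real.log T := by norm_num
            rw [this, Real.exp_nat_mul, Real.exp_log hTpos]
          rw [e6]
          apply Real.exp_le_exp.2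
          have e7 : 12 * 12 ≤ e * h * h := by
            calc (12 : ℝ) * 12 ≤ (e * h) * h := by gcongr
              _ = _ := by ring
          have e8 : 5 ≤ e * ((h : ℝ) ^ 2 / 2) - e := by nlinarith
          have e9 : 5 * Real.log T ≤ (e * ((h : ℝ) ^ 2 / 2) - e) * Real.log T := by gcongr
          linarith
        have e10 : (ρ n).im + 4 ≤ 2 * T := by linarith
        calc 16 * (N0 : ℝ) * ((ρ n).im + 4) ^ 2 * Real.exp (e * Real.log T) *
              Real.exp (-(e * Real.log T * (h : ℝ) ^ 2 / 2))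
            = 16 * (N0 : ℝ) * ((ρ n).im + 4) ^ 2 * (Real.exp (e * Real.log T) *
              Real.exp (-(e * Real.log T * (h : ℝ) ^ 2 / 2))) := by ring
          _ ≤ 16 * (2 * T) * (2 * T) ^ 2 * (T ^ 5)⁻¹ := by gcongr
          _ = 128 * T⁻¹ * T⁻¹ := by field_simp; norm_num
          _ ≤ 1 * T⁻¹ := by
              have : 128 * T⁻¹ ≤ 1 := by
                rw [← div_eq_mul_inv, div_le_one hTpos]; exact hT128
              gcongr
          _ = T⁻¹ := one_mul _)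
      (by linarith)
      (by
        intro t ht
        obtain ⟨h9, h10⟩ := nbr_le g hg0 (hSn' n hn) h4 h5 ht
        have h11 := (hτ ⌊t⌋₊).2 t h9
        have h12 : ‖MX N0 (((1 / 2 : ℝ) : ℂ) + t * I)‖ ≤ Real.sqrt (U n) := by
          apply Real.le_sqrt_of_sq_le
          refine h11.trans ?_
          rw [hU]
          rw [hg] at h10 ⊢
          exact h10
        have h13 := h8 t ht
        unfold Fz
        refine (norm_sub_le _ _).trans ?_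
        rw [norm_mul, norm_one]
        gcongr)
      (by
        intro t ht
        obtain ⟨h9, h10⟩ := nbr_le g' hg0' (hSn' n hn) h4 h5 ht
        have h11 := (hτ' ⌊t⌋₊).2 t h9
        apply Real.le_sqrt_of_sq_le
        refine h11.trans ?_
        rw [hV]
        rw [hg'] at h10 ⊢
        exact h10)
    rw [hEexp] at key
    exact key
  -- the exponents
  obtain ⟨y, hy⟩ : ∃ y : ℝ, y = (σ - 1 / 2) / (1 + δ - 1 / 2) := ⟨_, rfl⟩
  have hden : 0 < 1 + δ - 1 / 2 := by linarith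
  have hy0 : 0 ≤ y := by rw [hy]; exact div_nonneg (by linarith) hden.le
  have hy1 : y ≤ 1 := by rw [hy, div_le_one hden]; linarith
  have hTi : T⁻¹ ≤ 1 := inv_le_one_of_one_le₀ hT1
  have hTi0 : 0 < T⁻¹ := by positivity
  have hScard : (S.card : ℝ) ≤ 2 * T := by
    have h1 : S ⊆ Finset.range N0 := by
      intro n hn
      rw [Finset.mem_range]
      have := hSn n hn
      omega
    have h2 := Finset.card_le_card h1
    rw [Finset.card_range] at h2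
    have h3 : (S.card : ℝ) ≤ N0 := by exact_mod_cast h2
    linarith
  have hlogN : 1 + Real.log N0 ≤ 3 * Real.log T := by
    have h1 : Real.log N0 ≤ Real.log (2 * T) := Real.log_le_log (by linarith) hN0T
    rw [Real.log_mul (by norm_num) hTpos.ne'] at h1
    have := Real.log_two_lt_d9
    linarith
  have hlogN0 : 0 ≤ Real.log N0 := Real.log_nonneg hN0r
  have hAs : ∑ n ∈ S, (E * (T ^ κ * Real.sqrt (U n) + 1) + T⁻¹) ^ 2 ≤ T ^ (1 + 2 * κ) * E ^ 4 := by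
    have h1 : ∀ n ∈ S, (E * (T ^ κ * Real.sqrt (U n) + 1) + T⁻¹) ^ 2 ≤
        3 * (E ^ 2 * (T ^ κ) ^ 2 * U n) + 6 * E ^ 2 := by
      intro n _
      have h2 : Real.sqrt (U n) ^ 2 = U n := Real.sq_sqrt (hU0 n)
      have h3 : (E * (T ^ κ * Real.sqrt (U n) + 1) + T⁻¹) ^ 2 ≤
          3 * ((E * (T ^ κ * Real.sqrt (U n))) ^ 2 + E ^ 2 + (T⁻¹) ^ 2) := by
        nlinarith [sq_nonneg (E * (T ^ κ * Real.sqrt (U n)) - E),
          sq_nonneg (E * (T ^ κ * Real.sqrt (U n)) - T⁻¹), sq_nonneg (E - T⁻¹)]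
      have h4 : (T⁻¹) ^ 2 ≤ E ^ 2 := by gcongr; linarith
      calc _ ≤ _ := h3
        _ ≤ 3 * ((E * (T ^ κ * Real.sqrt (U n))) ^ 2 + E ^ 2 + E ^ 2) := by gcongr
        _ = 3 * (E ^ 2 * (T ^ κ) ^ 2 * Real.sqrt (U n) ^ 2) + 6 * E ^ 2 := by ring
        _ = _ := by rw [h2]
    refine (Finset.sum_le_sum h1).trans ?_
    rw [Finset.sum_add_distrib, Finset.sum_const, nsmul_eq_mul, ← Finset.mul_sum, ← Finset.mul_sum]
    have h5 : (T ^ κ) ^ 2 = T ^ (2 * κ) := by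
      rw [← Real.rpow_natCast, ← Real.rpow_mul hTpos.le]
      congr 1
      push_cast
      ring
    have h6 : T ^ (1 + 2 * κ) = T * (T ^ κ) ^ 2 := by
      rw [h5, Real.rpow_add hTpos, Real.rpow_one]
    have h7 : ∑ n ∈ S, U n ≤ (2 * h + 2) * (18 * (2 * T) * (3 * Real.log T) ^ 4) := by
      refine hUs.trans ?_
      gcongr
    have h8 : (1 : ℝ) ≤ Real.log T ^ 4 := one_le_pow₀ hlog1
    have h9 : (1 : ℝ) ≤ (T ^ κ) ^ 2 := one_le_pow₀ hTκ
    rw [h6]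
    calc 3 * (E ^ 2 * (T ^ κ) ^ 2 * ∑ n ∈ S, U n) + (S.card : ℝ) * (6 * E ^ 2)
        ≤ 3 * (E ^ 2 * (T ^ κ) ^ 2 * ((2 * h + 2) * (18 * (2 * T) * (3 * Real.log T) ^ 4))) +
          (2 * T) * (6 * E ^ 2) := by gcongr
      _ ≤ 3 * (E ^ 2 * (T ^ κ) ^ 2 * ((2 * h + 2) * (18 * (2 * T) * (3 * Real.log T) ^ 4))) +
          (2 * T) * (6 * E ^ 2) * ((T ^ κ) ^ 2 * Real.log T ^ 4) := by
          have h10 : 1 ≤ (T ^ κ) ^ 2 * Real.log T ^ 4 := by nlinarith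
          have h11 : 0 ≤ (2 * T) * (6 * E ^ 2) := by positivity
          nlinarith
      _ = E ^ 2 * (T * (T ^ κ) ^ 2) * ((8748 * (2 * h + 2) + 12) * Real.log T ^ 4) := by ring
      _ ≤ E ^ 2 * (T * (T ^ κ) ^ 2) * E ^ 2 := by gcongr
      _ = _ := by ring
  have hBs : ∑ n ∈ S, (E * Real.sqrt (V n) + T⁻¹) ^ 2 ≤ E ^ 4 := by
    have h1 : ∀ n ∈ S, (E * Real.sqrt (V n) + T⁻¹) ^ 2 ≤ 2 * (E ^ 2 * V n) + 2 * (T⁻¹) ^ 2 := by
      intro n _
      have h2 : Real.sqrt (V n) ^ 2 = V n := Real.sq_sqrt (hV0 n)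
      calc (E * Real.sqrt (V n) + T⁻¹) ^ 2 ≤ 2 * (E ^ 2 * Real.sqrt (V n) ^ 2) + 2 * (T⁻¹) ^ 2 := by
            nlinarith [sq_nonneg (E * Real.sqrt (V n) - T⁻¹)]
        _ = _ := by rw [h2]
    refine (Finset.sum_le_sum h1).trans ?_
    rw [Finset.sum_add_distrib, Finset.sum_const, nsmul_eq_mul, ← Finset.mul_sum, ← Finset.mul_sum]
    have h3 : (S.card : ℝ) * (2 * (T⁻¹) ^ 2) ≤ 2 := by
      calc (S.card : ℝ) * (2 * (T⁻¹) ^ 2) ≤ (2 * T) * (2 * (T⁻¹) ^ 2) := by gcongr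
        _ = 4 * T⁻¹ := by field_simp; norm_num
        _ ≤ 2 := by
            rw [← div_eq_mul_inv, div_le_iff₀ hTpos]; linarith
    have h4 : (1 : ℝ) ≤ E ^ 2 := one_le_pow₀ hE1
    calc 2 * (E ^ 2 * ∑ n ∈ S, V n) + (S.card : ℝ) * (2 * (T⁻¹) ^ 2)
        ≤ 2 * (E ^ 2 * ((2 * h + 2) * C)) + 2 := by gcongr
      _ ≤ 2 * (E ^ 2 * ((2 * h + 2) * C)) + 2 * E ^ 2 := by linarith
      _ = E ^ 2 * (2 * (2 * h + 2) * C + 2) := by ring
      _ ≤ E ^ 2 * E ^ 2 := by gcongr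
      _ = _ := by ring
  have hcount := holder_count S (fun n => E * (T ^ κ * Real.sqrt (U n) + 1) + T⁻¹)
    (fun n => E * Real.sqrt (V n) + T⁻¹) (fun n => ((ρ n).re - 1 / 2) / (1 + δ - 1 / 2))
    (fun n _ => by positivity) (fun n _ => by positivity) (y := y) hy0 hy1
    (fun n hn => by
      obtain ⟨-, h2, -⟩ := hS n hn
      rw [hy]
      gcongr)
    (fun n hn => by
      obtain ⟨-, -, h3, -⟩ := hS n hn
      rw [div_le_one hden]
      linarith)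
    hint (P := T ^ (1 + 2 * κ) * E ^ 4) (Q := E ^ 4) (by positivity) (by positivity) hAs hBs
  have hP1 : (1 : ℝ) ≤ T ^ (1 + 2 * κ) := Real.one_le_rpow hT1 (by linarith)
  have hE40 : (1 : ℝ) ≤ E ^ 4 := one_le_pow₀ hE1
  have h1y : 0 ≤ 1 - y := by linarith
  have hsum : T ^ (1 + 2 * κ) * E ^ 4 + E ^ 4 ≤ 2 * (T ^ (1 + 2 * κ) * E ^ 4) := by nlinarith
  have hpow : (T ^ (1 + 2 * κ) * E ^ 4 + E ^ 4) ^ (1 - y) ≤
      2 * ((T ^ (1 + 2 * κ)) ^ (1 - y) * (E ^ 4) ^ (1 - y)) := by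
    calc (T ^ (1 + 2 * κ) * E ^ 4 + E ^ 4) ^ (1 - y)
        ≤ (2 * (T ^ (1 + 2 * κ) * E ^ 4)) ^ (1 - y) :=
          Real.rpow_le_rpow (by positivity) hsum h1y
      _ = 2 ^ (1 - y) * ((T ^ (1 + 2 * κ)) ^ (1 - y) * (E ^ 4) ^ (1 - y)) := by
          rw [Real.mul_rpow (by norm_num) (by positivity), Real.mul_rpow (by positivity) (by positivity)]
      _ ≤ 2 * ((T ^ (1 + 2 * κ)) ^ (1 - y) * (E ^ 4) ^ (1 - y)) := by
          have : (2 : ℝ) ^ (1 - y) ≤ 2 := by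
            calc (2 : ℝ) ^ (1 - y) ≤ 2 ^ (1 : ℝ) :=
                  Real.rpow_le_rpow_of_exponent_le (by norm_num) (by linarith)
              _ = 2 := Real.rpow_one _
          gcongr
  have hEy : (E ^ 4) ^ (1 - y) * (E ^ 4) ^ y = E ^ 4 := by
    rw [← Real.rpow_add (by positivity), sub_add_cancel, Real.rpow_one]
  have hexp : (1 + 2 * κ) * (1 - y) + 4 * e ≤ (2 + 4 * κ) * (1 - σ) + ε := by
    have h1 : 1 - y ≤ 2 * (1 - σ) + 2 * δ := by
      have h2 : 1 - y = (1 + δ - σ) / (1 + δ - 1 / 2) := by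
        rw [hy, eq_div_iff hden.ne', sub_mul, div_mul_cancel₀ _ hden.ne']
        ring
      rw [h2, div_le_iff₀ hden]
      nlinarith
    have h3 : (1 + 2 * κ) * (1 - y) ≤ (1 + 2 * κ) * (2 * (1 - σ) + 2 * δ) := by gcongr
    nlinarith
  calc (S.card : ℝ) ≤ 4 * ((T ^ (1 + 2 * κ) * E ^ 4 + E ^ 4) ^ (1 - y) * (E ^ 4) ^ y) := hcount
    _ ≤ 4 * ((2 * ((T ^ (1 + 2 * κ)) ^ (1 - y) * (E ^ 4) ^ (1 - y))) * (E ^ 4) ^ y) := by gcongr
    _ = 8 * (T ^ (1 + 2 * κ)) ^ (1 - y) * ((E ^ 4) ^ (1 - y) * (E ^ 4) ^ y) := by ring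
    _ = 8 * (T ^ (1 + 2 * κ)) ^ (1 - y) * E ^ 4 := by rw [hEy]
    _ = 8 * T ^ ((1 + 2 * κ) * (1 - y) + 4 * e) := by
        have q1 := Real.rpow_add hTpos ((1 + 2 * κ) * (1 - y)) (4 * e)
        have q2 := Real.rpow_mul hTpos.le (1 + 2 * κ) (1 - y)
        rw [q1, q2, hE4]
        ring
    _ ≤ _ := by
        have := Real.rpow_le_rpow_of_exponent_le hT1 hexp
        gcongr

end Pool.Agent.R516.LI
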