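import Pool.Agent.R516.LID
import Pool.Agent.H31R2.DH.Assemble

/-!
The number of zeros near which zeta is small on the critical line.
-/

open Complex MeasureTheory Set Filter Topology

namespace Pool.Agent.R516.LI

open DH31

/-- the zeros near which zeta is at most `V` on the critical line -/
def good (V H σ T : ℝ) : Set ℂ :=
  {ρ : ℂ | ρ ∈ zeros σ T ∧ ∀ t : ℝ, |t - ρ.im| ≤ H → ‖riemannZeta (1 / 2 + t * I)‖ ≤ V}

/-- unit intervals with a value larger than `V` of zeta on the critical line -/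
def large (V T : ℝ) : Set ℕ :=
  {n : ℕ | (n : ℝ) ≤ T ∧ ∃ t : ℝ, n ≤ t ∧ t ≤ n + 1 ∧ V < ‖riemannZeta (1 / 2 + t * I)‖}

lemma large_finite (V T : ℝ) : (large V T).Finite := by
  refine (Finset.finite_toSet (Finset.range (⌊T⌋₊ + 1))).subset ?_
  rintro n ⟨h1, -⟩
  rw [Finset.mem_coe, Finset.mem_range]
  have := Nat.le_floor h1
  omega

lemma half_cast : (((1 / 2 : ℝ) : ℝ) : ℂ) = 1 / 2 := by norm_num

lemma re_le_one {ρ : ℂ} (h : riemannZeta ρ = 0) : ρ.re ≤ 1 := by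
  by_contra hcon
  push Not at hcon
  exact riemannZeta_ne_zero_of_one_le_re hcon.le h

lemma window_of {x : ℝ} (hx : 3 < x) : ((⌈x⌉₊ - 1 : ℕ) : ℝ) < x ∧ x ≤ ((⌈x⌉₊ - 1 : ℕ) : ℝ) + 1 := by
  have hceil : 1 ≤ ⌈x⌉₊ := Nat.one_le_iff_ne_zero.2 (by
    intro h; rw [Nat.ceil_eq_zero] at h; linarith)
  have hn1 : ((⌈x⌉₊ - 1 : ℕ) : ℝ) + 1 = (⌈x⌉₊ : ℝ) := by
    push_cast [Nat.cast_sub hceil]; ring
  constructor
  · have := Nat.ceil_lt_add_one (show 0 ≤ x by linarith)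
    linarith
  · rw [hn1]; exact Nat.le_ceil _

theorem main (ε : ℝ) (hε : 0 < ε) : ∃ H C T₀ : ℝ, 0 < H ∧ 0 < C ∧ ∀ T : ℝ, T₀ ≤ T →
    ∀ κ : ℝ, 0 ≤ κ → κ ≤ 1 → ∀ σ : ℝ, 1 / 2 ≤ σ → σ ≤ 1 →
      (cnt (good (T ^ κ) H σ T) : ℝ) ≤ C * T ^ ((2 + 4 * κ) * (1 - σ) + ε) ∧
      (cnt (zeros σ T) : ℝ) ≤
        C * T ^ ε * (T ^ ((2 + 4 * κ) * (1 - σ)) + ((large (T ^ κ) (T + H)).ncard : ℝ)) := by
  classical
  obtain ⟨h, hh, T1, hT13, hw⟩ := windows (ε := ε / 2) (by positivity)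
  obtain ⟨C₃, hC₃, h₃⟩ := windows_to_count
  obtain ⟨T₄, h₄⟩ := Filter.eventually_atTop.1 (ev_log 1 (ε / 2) 1 (by positivity))
  have hhr : (1 : ℝ) ≤ h := by exact_mod_cast hh
  refine ⟨h, C₃ * (2 * h + 16), max T1 T₄, by linarith, by positivity, ?_⟩
  intro T hT κ hκ0 hκ1 σ hσ1 hσ2
  have hTT1 : T1 ≤ T := (le_max_left _ _).trans hT
  have hT3 : 3 ≤ T := hT13.trans hTT1
  have hT1 : 1 ≤ T := by linarith
  have hTpos : 0 < T := by linarith
  have hlog : Real.log T ≤ T ^ (ε / 2) := by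
    have := h₄ T ((le_max_right _ _).trans hT)
    simpa using this
  have hlog0 : 0 ≤ Real.log T := Real.log_nonneg hT1
  have hTe2 : 1 ≤ T ^ (ε / 2) := Real.one_le_rpow hT1 (by positivity)
  have hTe : 1 ≤ T ^ ε := Real.one_le_rpow hT1 hε.le
  have hTee : T ^ (ε / 2) * T ^ (ε / 2) = T ^ ε := by
    rw [← Real.rpow_add hTpos]; congr 1; ring
  have hTe2' : T ^ (ε / 2) ≤ T ^ ε := Real.rpow_le_rpow_of_exponent_le hT1 (by linarith)
  obtain ⟨M, hM⟩ : ∃ M : ℝ, M = T ^ ((2 + 4 * κ) * (1 - σ)) := ⟨_, rfl⟩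
  have hM1 : 1 ≤ M := by
    rw [hM]
    refine Real.one_le_rpow hT1 (mul_nonneg (by linarith) (by linarith))
  have hMe : T ^ ((2 + 4 * κ) * (1 - σ) + ε / 2) = M * T ^ (ε / 2) := by
    rw [hM, Real.rpow_add hTpos]
  have hMe2 : T ^ ((2 + 4 * κ) * (1 - σ) + ε) = M * T ^ ε := by
    rw [hM, Real.rpow_add hTpos]
  have hsub : zeros σ T ⊆ zeros (1 / 2) T := fun ρ hρ => ⟨hρ.1, hσ1.trans hρ.2.1, hρ.2.2⟩
  -- the first bound
  have hgsub : good (T ^ κ) h σ T ⊆ zeros (1 / 2) T := fun ρ hρ => hsub hρ.1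
  have hfirst : (cnt (good (T ^ κ) h σ T) : ℝ) ≤ C₃ * (h + 12) * (M * T ^ ε) := by
    set A := good (T ^ κ) h σ T with hA
    set P : ℕ → Prop := fun n => h + 3 ≤ n ∧ ∃ ρ ∈ A, (n : ℝ) < ρ.im ∧ ρ.im ≤ n + 1 with hP
    set S : Finset ℕ := (Finset.range (⌊T⌋₊ + 1)).filter P with hS
    have hSP : ∀ n ∈ S, P n := fun n hn => (Finset.mem_filter.1 hn).2
    have hSP2 : ∀ n ∈ S, ∃ ρ ∈ A, (n : ℝ) < ρ.im ∧ ρ.im ≤ n + 1 := fun n hn => (hSP n hn).2
    choose! ρ hρA hρn hρn1 using hSP2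
    have hScard : (S.card : ℝ) ≤ 8 * T ^ ((2 + 4 * κ) * (1 - σ) + ε / 2) := by
      refine hw T hTT1 κ hκ0 hκ1 σ hσ1 hσ2 S ρ fun n hn => ?_
      obtain ⟨⟨a1, a2, a3, a4⟩, a5⟩ := hρA n hn
      refine ⟨a1, a2, re_le_one a1, hρn n hn, hρn1 n hn, a4, (hSP n hn).1, fun t ht => ?_⟩
      rw [half_cast]
      exact a5 t ht
    have hcnt := h₃ T hT3 A hgsub (Finset.range (h + 3) ∪ S) (by
      intro w hw hw3
      obtain ⟨h10, h11⟩ := window_of hw3
      refine ⟨⌈w.im⌉₊ - 1, ?_, h10, h11⟩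
      rw [Finset.mem_union, Finset.mem_range]
      rcases Nat.lt_or_ge (⌈w.im⌉₊ - 1) (h + 3) with h5 | h5
      · exact Or.inl h5
      · right
        rw [hS, Finset.mem_filter, Finset.mem_range]
        refine ⟨?_, h5, w, hw, h10, h11⟩
        have h12 : ((⌈w.im⌉₊ - 1 : ℕ) : ℝ) ≤ T := h10.le.trans hw.1.2.2.2
        have := Nat.le_floor h12
        omega)
    have hcard : ((Finset.range (h + 3) ∪ S).card : ℝ) ≤ (h + 3) + S.card := by
      have := Finset.card_union_le (Finset.range (h + 3)) S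
      rw [Finset.card_range] at this
      exact_mod_cast this
    rw [hMe] at hScard
    calc (cnt A : ℝ) ≤ C₃ + ((Finset.range (h + 3) ∪ S).card : ℝ) * (C₃ * Real.log T) := hcnt
      _ ≤ C₃ + ((h + 3) + 8 * (M * T ^ (ε / 2))) * (C₃ * T ^ (ε / 2)) := by
          gcongr
          linarith
      _ = C₃ * 1 + C₃ * (h + 3) * T ^ (ε / 2) + 8 * C₃ * (M * (T ^ (ε / 2) * T ^ (ε / 2))) := by ring
      _ ≤ C₃ * (M * T ^ ε) + C₃ * (h + 3) * (M * T ^ ε) + 8 * C₃ * (M * T ^ ε) := by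
          rw [hTee]
          have e1 : 1 ≤ M * T ^ ε := by nlinarith
          have e2 : T ^ (ε / 2) ≤ M * T ^ ε := by nlinarith
          gcongr
      _ = _ := by ring
  have hMT0 : 0 ≤ M * T ^ ε := by positivity
  constructor
  · rw [hMe2]
    refine hfirst.trans (mul_le_mul_of_nonneg_right ?_ hMT0)
    exact mul_le_mul_of_nonneg_left (by linarith) hC₃.le
  -- the second bound
  set bad : Set ℂ := {ρ : ℂ | ρ ∈ zeros σ T ∧
    ¬ ∀ t : ℝ, |t - ρ.im| ≤ h → ‖riemannZeta (1 / 2 + t * I)‖ ≤ T ^ κ} with hbad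
  set L : Finset ℕ := (large_finite (T ^ κ) (T + h)).toFinset with hL
  have hLcard : (L.card : ℝ) = ((large (T ^ κ) (T + h)).ncard : ℝ) := by
    rw [hL, ← Set.ncard_eq_toFinset_card _ (large_finite (T ^ κ) (T + h))]
  set W : Finset ℕ := L.biUnion fun m => Finset.Icc (m - h - 1) (m + h + 1) with hW
  have hWcard : (W.card : ℝ) ≤ (2 * h + 3) * L.card := by
    have h5 : W.card ≤ ∑ m ∈ L, (2 * h + 3) := by
      refine Finset.card_biUnion_le.trans (Finset.sum_le_sum fun m _ => ?_)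
      rw [Nat.card_Icc]
      omega
    rw [Finset.sum_const, smul_eq_mul] at h5
    have h6 : (W.card : ℝ) ≤ ((L.card * (2 * h + 3) : ℕ) : ℝ) := by exact_mod_cast h5
    refine h6.trans (le_of_eq ?_)
    push_cast
    ring
  have hbadcnt : (cnt bad : ℝ) ≤ C₃ + ((h + 3) + (2 * h + 3) * L.card) * (C₃ * T ^ (ε / 2)) := by
    have hcnt := h₃ T hT3 bad (fun ρ hρ => hsub hρ.1) (Finset.range (h + 3) ∪ W) (by
      intro w hw hw3
      obtain ⟨h10, h11⟩ := window_of hw3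
      refine ⟨⌈w.im⌉₊ - 1, ?_, h10, h11⟩
      rw [Finset.mem_union, Finset.mem_range]
      rcases Nat.lt_or_ge (⌈w.im⌉₊ - 1) (h + 3) with h5 | h5
      · exact Or.inl h5
      · right
        obtain ⟨hwz, hwt⟩ := hw
        push Not at hwt
        obtain ⟨t, ht, htV⟩ := hwt
        obtain ⟨n, hn⟩ : ∃ n : ℕ, n = ⌈w.im⌉₊ - 1 := ⟨_, rfl⟩
        rw [← hn] at h5 h10 h11 ⊢
        have h5r : (h : ℝ) + 3 ≤ n := by exact_mod_cast h5
        rw [abs_le] at ht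
        have ht0 : 0 ≤ t := by linarith [ht.1]
        have hf1 := Nat.floor_le ht0
        have hf2 := Nat.lt_floor_add_one t
        rw [hW, Finset.mem_biUnion]
        refine ⟨⌊t⌋₊, ?_, ?_⟩
        · rw [hL, Set.Finite.mem_toFinset]
          refine ⟨?_, t, hf1, hf2.le, htV⟩
          have := hwz.2.2.2
          linarith [ht.2]
        · rw [Finset.mem_Icc]
          have h6 : ⌊t⌋₊ ≤ n + h + 1 := by
            have : ((⌊t⌋₊ : ℕ) : ℝ) ≤ ((n + h + 1 : ℕ) : ℝ) := by push_cast; linarith [ht.2]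
            exact_mod_cast this
          have h7 : n ≤ ⌊t⌋₊ + h + 1 := by
            have : (n : ℝ) ≤ ((⌊t⌋₊ + h + 1 : ℕ) : ℝ) := by push_cast; linarith [ht.1]
            exact_mod_cast this
          omega)
    have hcard : ((Finset.range (h + 3) ∪ W).card : ℝ) ≤ (h + 3) + W.card := by
      have := Finset.card_union_le (Finset.range (h + 3)) W
      rw [Finset.card_range] at this
      exact_mod_cast this
    refine hcnt.trans ?_
    gcongr
    linarith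
  have hsplit : cnt (zeros σ T) = cnt (good (T ^ κ) h σ T) + cnt bad := by
    have hun : zeros σ T = good (T ^ κ) h σ T ∪ bad := by
      ext ρ
      simp only [good, hbad, Set.mem_union, Set.mem_ofPred_eq]
      tauto
    have hd : Disjoint (good (T ^ κ) h σ T) bad := by
      rw [Set.disjoint_left]
      rintro ρ ⟨_, h1⟩ ⟨_, h2⟩
      exact h2 h1
    have hz := zeros_finite (1 / 2) T
    conv_lhs => rw [hun]
    unfold cnt
    exact finsum_mem_union hd (hz.subset hgsub) (hz.subset fun ρ hρ => hsub hρ.1)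
  have hL0 : (0 : ℝ) ≤ L.card := by positivity
  rw [hsplit, ← hLcard]
  push_cast
  calc (cnt (good (T ^ κ) h σ T) : ℝ) + cnt bad
      ≤ C₃ * (h + 12) * (M * T ^ ε) +
        (C₃ + ((h + 3) + (2 * h + 3) * L.card) * (C₃ * T ^ (ε / 2))) := add_le_add hfirst hbadcnt
    _ ≤ C₃ * (h + 12) * (M * T ^ ε) +
        (C₃ * (M * T ^ ε) + ((h + 3) * M + (2 * h + 3) * L.card) * (C₃ * T ^ ε)) := by
        have e1 : 1 ≤ M * T ^ ε := by nlinarith
        have e2 : C₃ ≤ C₃ * (M * T ^ ε) := by nlinarith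
        have e3 : ((h : ℝ) + 3) ≤ (h + 3) * M := by nlinarith
        gcongr
    _ = C₃ * T ^ ε * ((2 * h + 16) * M + (2 * h + 3) * L.card) := by ring
    _ ≤ C₃ * T ^ ε * ((2 * h + 16) * M + (2 * h + 16) * L.card) := by
        gcongr
        norm_num
    _ = _ := by rw [hM]; ring

end Pool.Agent.R516.LI
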