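import Pool.Agent.R327.SIFin

/-!
The sum of `|∑_{n < L} (u + n)^{is}|` over well-spaced `s` with `|s| ≤ Δ`: Kusmin–Landau.
-/

set_option autoImplicit false

namespace Pool.Agent.R516.MP

open Finset
open Pool.Agent.H469R2.NK (e norm_e kusmin_landau_anti harm_le)
open Pool.Agent.H442R2.EHI (EL SL)
open Pool.Agent.TH705.DL (ph ph_norm Sep)
open Pool.Agent.R327.SI (card_sep)

theorem e_int_mul (x : ℝ) (k : ℕ) : e (x - k) = e x := by
  unfold e
  rw [Complex.exp_eq_exp_iff_exists_int]
  refine ⟨-(k : ℤ), ?_⟩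
  push_cast
  ring

theorem log_step (y : ℝ) (hy : 0 < y) : 1 / (y + 1) ≤ Real.log (y + 1) - Real.log y ∧
    Real.log (y + 1) - Real.log y ≤ 1 / y := by
  have h1 : Real.log (y + 1) - Real.log y = Real.log ((y + 1) / y) := by
    rw [Real.log_div (by positivity) (by positivity)]
  constructor
  · rw [h1]
    have h2 := Real.one_sub_inv_le_log_of_pos (show 0 < (y + 1) / y by positivity)
    refine le_trans (le_of_eq ?_) h2
    field_simp
    ring
  · rw [h1]
    have h2 := Real.log_le_sub_one_of_pos (show 0 < (y + 1) / y by positivity)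
    refine h2.trans (le_of_eq ?_)
    field_simp
    ring

/-- Kusmin–Landau, the derivative `Z / x` between `a + θ` and `a + 1 - θ` -/
theorem kl (Z u : ℝ) (L a : ℕ) (θ : ℝ) (hZ : 0 ≤ Z) (hu : 0 < u) (hθ : 0 < θ)
    (h1 : Z / u ≤ a + 1 - θ) (h2 : a + θ ≤ Z / (u + L)) : ‖SL Z u L []‖ ≤ 2 / θ := by
  have h3 := kusmin_landau_anti (fun n : ℕ => Z * Real.log (u + n) - a * n) L hθ
    (by
      intro n hn
      have hn1 : ((n + 1 : ℕ) : ℝ) ≤ L := by exact_mod_cast hn
      push_cast at hn1
      have hpos : 0 < u + (n : ℝ) := by positivity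
      have h4 := (log_step (u + n) hpos).1
      have h5 : Z / (u + L) ≤ Z * (1 / (u + n + 1)) := by
        rw [mul_one_div]
        apply div_le_div_of_nonneg_left hZ (by positivity) (by linarith)
      have h6 : Z * (1 / (u + n + 1)) ≤ Z * (Real.log (u + n + 1) - Real.log (u + n)) :=
        mul_le_mul_of_nonneg_left h4 hZ
      push_cast
      rw [← add_assoc]
      linarith)
    (by
      intro n _
      have hpos : 0 < u + (n : ℝ) := by positivity
      have h4 := (log_step (u + n) hpos).2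
      have h5 : Z * (1 / (u + n)) ≤ Z / u := by
        rw [mul_one_div]
        apply div_le_div_of_nonneg_left hZ hu
        have : (0 : ℝ) ≤ n := Nat.cast_nonneg n
        linarith
      have h6 : Z * (Real.log (u + n + 1) - Real.log (u + n)) ≤ Z * (1 / (u + n)) :=
        mul_le_mul_of_nonneg_left h4 hZ
      push_cast
      rw [← add_assoc]
      linarith)
    (by
      intro n _
      have hpos : 0 < u + (n : ℝ) := by positivity
      push_cast
      set y : ℝ := u + n with hy
      have e1 : u + ((n : ℝ) + 2) = y + 2 := by rw [hy]; ring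
      have e2 : u + ((n : ℝ) + 1) = y + 1 := by rw [hy]; ring
      rw [e1, e2]
      have h4 : Real.log (y + 2) + Real.log y ≤ 2 * Real.log (y + 1) := by
        have e3 : 2 * Real.log (y + 1) = Real.log ((y + 1) ^ 2) := by
          rw [Real.log_pow]; push_cast; ring
        rw [e3, ← Real.log_mul (by positivity) (by positivity)]
        apply Real.log_le_log (by positivity)
        nlinarith
      have h5 : Z * (Real.log (y + 2) + Real.log y) ≤ Z * (2 * Real.log (y + 1)) :=
        mul_le_mul_of_nonneg_left h4 hZ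
      linarith)
  refine le_trans (le_of_eq ?_) h3
  congr 1
  unfold SL
  simp only [List.sum_nil, Nat.sub_zero, EL]
  apply sum_congr rfl
  intro n _
  have e1 : Z * Real.log (u + n) - a * n = Z * Real.log (u + n) - ((a * n : ℕ) : ℝ) := by
    push_cast; ring
  rw [e1, e_int_mul]

theorem shift_sum (g : ℕ → ℝ) (hg0 : g 0 = 0) (hg : ∀ i, 0 ≤ g i) (L k : ℕ) :
    ∑ j ∈ range L, g (j - k) ≤ ∑ j ∈ range L, g j := by
  induction k generalizing L with
  | zero => simp
  | succ k ih =>
    rcases L with _ | L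
    · simp
    · rw [sum_range_succ']
      have h1 : ∀ j, g (j + 1 - (k + 1)) = g (j - k) := fun j => by rw [Nat.add_sub_add_right]
      simp only [h1, Nat.zero_sub, hg0, add_zero]
      refine (ih L).trans ?_
      rw [sum_range_succ]
      linarith [hg L]

theorem harm (L : ℕ) (hL : 1 ≤ L) : ∑ i ∈ range L, (1 : ℝ) / i ≤ 1 + Real.log L := by
  refine le_trans (le_of_eq ?_) (harm_le L)
  rw [range_eq_Ico, sum_eq_sum_Ico_succ_bot (by omega)]
  simp

/-- **The near part.** -/
theorem near (u : ℝ) (L : ℕ) (hu : 1 ≤ u) (hL : 1 ≤ L) (hLu : (L : ℝ) ≤ 2 * u) (S : Finset ℝ) (hS : Sep S)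
    (Δ : ℝ) (hΔ : 0 ≤ Δ) (hSΔ : ∀ s ∈ S, |s| ≤ Δ) :
    ∑ s ∈ S, ‖SL (|s| / (2 * Real.pi)) u L []‖ ≤
      126 * (Δ + u) * (Δ * L ^ 2 / u ^ 2 + 1 + Real.log L) := by
  classical
  have hpi := Real.pi_gt_three
  have hpi2 := Real.pi_lt_d2
  have hL1 : (1 : ℝ) ≤ L := by exact_mod_cast hL
  have hL0 : (0 : ℝ) < L := by linarith
  have hu0 : 0 < u := by linarith
  have hlogL : 0 ≤ Real.log L := Real.log_nonneg hL1
  set ω : ℝ := 2 * Real.pi with hω
  have hω6 : 6 < ω := by rw [hω]; linarith
  have hω7 : ω < 7 := by rw [hω]; linarith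
  have hω0 : 0 < ω := by linarith
  set v : ℝ → ℝ := fun s => |s| / ω / u with hv
  have hv0 : ∀ s, 0 ≤ v s := fun s => by simp only [hv]; positivity
  set aa : ℝ → ℕ := fun s => ⌊v s⌋₊ with haa
  have hav : ∀ s, (aa s : ℝ) ≤ v s ∧ v s < aa s + 1 := fun s =>
    ⟨Nat.floor_le (hv0 s), Nat.lt_floor_add_one _⟩
  set jj : ℝ → ℕ := fun s => ⌊(v s - aa s) * L⌋₊ with hjj
  have hjv : ∀ s, (jj s : ℝ) ≤ (v s - aa s) * L ∧ (v s - aa s) * L < jj s + 1 := fun s =>
    ⟨Nat.floor_le (mul_nonneg (by linarith [(hav s).1]) hL0.le), Nat.lt_floor_add_one _⟩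
  have hjL : ∀ s, jj s < L := by
    intro s
    have h1 : (jj s : ℝ) < L := by
      calc (jj s : ℝ) ≤ (v s - aa s) * L := (hjv s).1
        _ < 1 * L := by
            apply mul_lt_mul_of_pos_right _ hL0
            linarith [(hav s).2]
        _ = L := one_mul _
    exact_mod_cast h1
  set κ : ℝ := Δ / ω * L / u ^ 2 with hκ
  have hκ0 : 0 ≤ κ := by rw [hκ]; positivity
  obtain ⟨k0, hk0⟩ : ∃ k0 : ℕ, k0 = ⌈κ * L⌉₊ := ⟨_, rfl⟩
  have hk0a : κ * L ≤ k0 := by rw [hk0]; exact Nat.le_ceil _
  have hk0b : (k0 : ℝ) ≤ κ * L + 1 := by rw [hk0]; exact (Nat.ceil_lt_add_one (by positivity)).le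
  set G : ℕ → ℝ := fun j => (if j ≤ k0 then (L : ℝ) else 0) + (if j = L - 1 then (L : ℝ) else 0) +
    2 * L * (1 / ((j - k0 : ℕ) : ℝ)) + 2 * L * (1 / ((L - 1 - j : ℕ) : ℝ)) with hG
  have hG0 : ∀ j, 0 ≤ G j := by
    intro j
    simp only [hG]
    have h1 : 0 ≤ (if j ≤ k0 then (L : ℝ) else 0) := by split_ifs <;> linarith
    have h2 : 0 ≤ (if j = L - 1 then (L : ℝ) else 0) := by split_ifs <;> linarith
    have h3 : 0 ≤ 2 * (L : ℝ) * (1 / ((j - k0 : ℕ) : ℝ)) := by positivity
    have h4 : 0 ≤ 2 * (L : ℝ) * (1 / ((L - 1 - j : ℕ) : ℝ)) := by positivity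
    linarith
  -- pointwise
  have hF : ∀ s ∈ S, ‖SL (|s| / ω) u L []‖ ≤ G (jj s) := by
    intro s hs
    have htriv : ‖SL (|s| / ω) u L []‖ ≤ L := by
      unfold SL
      refine (norm_sum_le _ _).trans ?_
      simp only [norm_e, sum_const, card_range, nsmul_eq_mul, mul_one, List.sum_nil, Nat.sub_zero]
      exact le_rfl
    obtain ⟨a1, a2⟩ := hav s
    obtain ⟨b1, b2⟩ := hjv s
    have hj := hjL s
    generalize jj s = j at b1 b2 hj ⊢
    generalize aa s = a at a1 a2 b1 b2
    simp only [hG]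
    have h3 : 0 ≤ 2 * (L : ℝ) * (1 / ((j - k0 : ℕ) : ℝ)) := by positivity
    have h4 : 0 ≤ 2 * (L : ℝ) * (1 / ((L - 1 - j : ℕ) : ℝ)) := by positivity
    obtain ⟨p, hp⟩ : ∃ p : ℕ, p = j - k0 := ⟨_, rfl⟩
    obtain ⟨r, hr⟩ : ∃ r : ℕ, r = L - 1 - j := ⟨_, rfl⟩
    rw [← hp] at h3 ⊢
    rw [← hr] at h4 ⊢
    by_cases c1 : j ≤ k0
    · rw [if_pos c1]
      have h2 : 0 ≤ (if j = L - 1 then (L : ℝ) else 0) := by split_ifs <;> linarith
      linarith
    by_cases c2 : j = L - 1
    · rw [if_pos c2]
      have h2 : 0 ≤ (if j ≤ k0 then (L : ℝ) else 0) := by split_ifs <;> linarith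
      linarith
    rw [if_neg c1, if_neg c2]
    push Not at c1
    have hp1 : 1 ≤ p := by omega
    have hr1 : 1 ≤ r := by omega
    have hp1' : (1 : ℝ) ≤ p := by exact_mod_cast hp1
    have hr1' : (1 : ℝ) ≤ r := by exact_mod_cast hr1
    have hjp : (j : ℝ) = p + k0 := by
      have : j = p + k0 := by omega
      exact_mod_cast this
    have hjr : (j : ℝ) + 1 + r = L := by
      have : j + 1 + r = L := by omega
      exact_mod_cast this
    set θ : ℝ := min (p : ℝ) r / L with hθ
    have hmin : (1 : ℝ) ≤ min (p : ℝ) r := le_min hp1' hr1'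
    have hθ0 : 0 < θ := by rw [hθ]; positivity
    have hθp : θ ≤ p / L := by
      rw [hθ]; gcongr; exact min_le_left _ _
    have hθr : θ ≤ r / L := by
      rw [hθ]; gcongr; exact min_le_right _ _
    have hvs : v s = |s| / ω / u := rfl
    have e1 : (v s - a) < (j + 1) / L := by rw [lt_div_iff₀ hL0]; exact b2
    have e2 : (j : ℝ) / L ≤ v s - a := by rw [div_le_iff₀ hL0]; exact b1
    have e3 : ((j : ℝ) + 1) / L = 1 - r / L := by
      rw [← hjr]; field_simp; ring
    have e4 : (j : ℝ) / L = p / L + k0 / L := by rw [hjp, add_div]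
    have e5 : κ ≤ k0 / L := by rw [le_div_iff₀ hL0]; exact hk0a
    have hk := kl (|s| / ω) u L a θ (by positivity) hu0 hθ0 (by
      rw [← hvs]; linarith) (by
      have e6 : v s - κ ≤ |s| / ω / (u + L) := by
        have e7 : |s| / ω / (u + L) ≥ |s| / ω / u - |s| / ω * L / u ^ 2 := by
          have e8 : (1 : ℝ) / (u + L) ≥ 1 / u - L / u ^ 2 := by
            rw [ge_iff_le, sub_le_iff_le_add, div_add_div _ _ (by positivity) (by positivity),
              div_le_div_iff₀ hu0 (by positivity)]
            nlinarith [mul_pos hu0 hL0, mul_pos (mul_pos hu0 hL0) hL0]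
          have e9 : 0 ≤ |s| / ω := by positivity
          calc |s| / ω / u - |s| / ω * L / u ^ 2 = |s| / ω * (1 / u - L / u ^ 2) := by ring
            _ ≤ |s| / ω * (1 / (u + L)) := mul_le_mul_of_nonneg_left e8 e9
            _ = _ := by ring
        have e10 : |s| / ω * L / u ^ 2 ≤ κ := by
          rw [hκ]
          have := hSΔ s hs
          gcongr
        rw [hvs]
        linarith
      linarith)
    refine hk.trans ?_
    have e11 : 2 / θ = 2 * L * (1 / min (p : ℝ) r) := by
      rw [hθ]; field_simp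
    rw [e11]
    rcases min_choice (p : ℝ) r with hc | hc
    · rw [hc]; linarith
    · rw [hc]; linarith
  -- the number of points of a fibre
  have hcount : ∀ j : ℕ, ((S.filter (fun s => jj s = j)).card : ℝ) ≤ 2 * (Δ / (ω * u) + 1) * (ω * u / L + 1) := by
    intro j
    set A0 : ℕ := ⌊Δ / (ω * u)⌋₊ with hA0
    have hA0' : (A0 : ℝ) ≤ Δ / (ω * u) := Nat.floor_le (by positivity)
    set n0 : ℕ := ⌊ω * u / L + 1⌋₊ with hn0
    have hn0' : (n0 : ℝ) ≤ ω * u / L + 1 := Nat.floor_le (by positivity)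
    set f : ℝ → ℕ × Bool := fun s => (aa s, decide (0 ≤ s)) with hf
    have h1 := card_le_mul_card_image (f := f) (S.filter (fun s => jj s = j)) n0 (by
      intro b hb
      apply Nat.le_floor
      set R := (S.filter (fun s => jj s = j)).filter (fun s => f s = b) with hR
      have hRS : ∀ s ∈ R, s ∈ S ∧ jj s = j ∧ aa s = b.1 ∧ decide (0 ≤ s) = b.2 := by
        intro s hs
        rw [hR, mem_filter, mem_filter] at hs
        refine ⟨hs.1.1, hs.1.2, ?_, ?_⟩
        · rw [← hs.2]
        · rw [← hs.2]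
      have hsep : Sep R := by
        intro t ht t' ht' hne
        exact hS t (hRS t ht).1 t' (hRS t' ht').1 hne
      have hint : ∀ s ∈ R, ω * u * (b.1 + j / L) ≤ |s| ∧ |s| ≤ ω * u * (b.1 + j / L) + ω * u / L := by
        intro s hs
        obtain ⟨_, h2, h3, _⟩ := hRS s hs
        obtain ⟨b1, b2⟩ := hjv s
        rw [h2, h3] at b1 b2
        have e1 : |s| = ω * u * v s := by
          simp only [hv]; field_simp
        have e2 : (j : ℝ) / L ≤ v s - b.1 := by rw [div_le_iff₀ hL0]; exact b1
        have e3 : v s - b.1 ≤ (j + 1) / L := by rw [le_div_iff₀ hL0]; exact b2.le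
        have e4 : 0 < ω * u := by positivity
        rw [e1]
        constructor
        · apply mul_le_mul_of_nonneg_left _ e4.le
          linarith
        · have e5 : ω * u * (b.1 + j / L) + ω * u / L = ω * u * (b.1 + (j + 1) / L) := by
            ring
          rw [e5]
          apply mul_le_mul_of_nonneg_left _ e4.le
          linarith
      have hω' : 0 ≤ ω * u / L := by positivity
      rcases hb2 : b.2 with _ | _
      · have h5 : ∀ s ∈ R, s < 0 := by
          intro s hs
          have h6 := (hRS s hs).2.2.2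
          rw [hb2, decide_eq_false_iff_not, not_le] at h6
          exact h6
        have h6 := card_sep R hsep (-(ω * u * (b.1 + j / L) + ω * u / L)) (-(ω * u * (b.1 + j / L)))
          (by linarith) (by
            intro s hs
            have h7 := hint s hs
            rw [abs_of_neg (h5 s hs)] at h7
            constructor <;> linarith)
        linarith
      · have h5 : ∀ s ∈ R, 0 ≤ s := by
          intro s hs
          have h6 := (hRS s hs).2.2.2
          rw [hb2, decide_eq_true_eq] at h6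
          exact h6
        have h6 := card_sep R hsep (ω * u * (b.1 + j / L)) (ω * u * (b.1 + j / L) + ω * u / L)
          (by linarith) (by
            intro s hs
            have h7 := hint s hs
            rw [abs_of_nonneg (h5 s hs)] at h7
            exact h7)
        linarith)
    have h2 : ((S.filter (fun s => jj s = j)).image f).card ≤ 2 * (A0 + 1) := by
      have h3 : (S.filter (fun s => jj s = j)).image f ⊆ (range (A0 + 1)) ×ˢ (univ : Finset Bool) := by
        intro b hb
        rw [mem_image] at hb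
        obtain ⟨s, hs, rfl⟩ := hb
        rw [mem_product]
        refine ⟨?_, mem_univ _⟩
        rw [mem_range]
        have hs' := hSΔ s (mem_filter.1 hs).1
        have h4 : aa s ≤ A0 := by
          apply Nat.floor_le_floor
          simp only [hv]
          rw [div_div]
          gcongr
        exact Nat.lt_succ_of_le h4
      have h4 := card_le_card h3
      rw [card_product, card_range] at h4
      simp only [Finset.card_univ, Fintype.card_bool] at h4
      linarith
    have h3 : ((S.filter (fun s => jj s = j)).card : ℝ) ≤ n0 * (2 * (A0 + 1)) := by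
      have : (S.filter (fun s => jj s = j)).card ≤ n0 * (2 * (A0 + 1)) :=
        h1.trans (Nat.mul_le_mul_left _ h2)
      exact_mod_cast this
    calc ((S.filter (fun s => jj s = j)).card : ℝ) ≤ n0 * (2 * (A0 + 1)) := h3
      _ ≤ (ω * u / L + 1) * (2 * (Δ / (ω * u) + 1)) := by gcongr
      _ = _ := by ring
  -- summation
  set nm : ℝ := 2 * (Δ / (ω * u) + 1) * (ω * u / L + 1) with hnm
  have hnm0 : 0 ≤ nm := by rw [hnm]; positivity
  have hsumG : ∑ j ∈ range L, G j ≤ L * (k0 + 6 + 4 * Real.log L) := by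
    have g1 : ∑ j ∈ range L, (if j ≤ k0 then (L : ℝ) else 0) ≤ L * (k0 + 1) := by
      rw [← sum_filter, sum_const, nsmul_eq_mul]
      have h1 : ((range L).filter (fun j => j ≤ k0)).card ≤ k0 + 1 := by
        have h2 : (range L).filter (fun j => j ≤ k0) ⊆ range (k0 + 1) := by
          intro j hj
          rw [mem_range]
          have := (mem_filter.1 hj).2
          omega
        have h3 := card_le_card h2
        rwa [card_range] at h3
      have h2 : (((range L).filter (fun j => j ≤ k0)).card : ℝ) ≤ k0 + 1 := by exact_mod_cast h1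
      calc (((range L).filter (fun j => j ≤ k0)).card : ℝ) * L ≤ (k0 + 1) * L := by gcongr
        _ = _ := by ring
    have g2 : ∑ j ∈ range L, (if j = L - 1 then (L : ℝ) else 0) ≤ L := by
      rw [sum_ite_eq' (range L) (L - 1)]
      split_ifs <;> linarith
    have g3 : ∑ j ∈ range L, (1 : ℝ) / ((j - k0 : ℕ) : ℝ) ≤ 1 + Real.log L := by
      refine (shift_sum (fun i : ℕ => (1 : ℝ) / i) (by simp) (fun i => by positivity) L k0).trans ?_
      exact harm L hL
    have g4 : ∑ j ∈ range L, (1 : ℝ) / ((L - 1 - j : ℕ) : ℝ) ≤ 1 + Real.log L := by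
      rw [sum_range_reflect (fun i : ℕ => (1 : ℝ) / (i : ℝ)) L]
      exact harm L hL
    have e1 : ∑ j ∈ range L, G j = ∑ j ∈ range L, (if j ≤ k0 then (L : ℝ) else 0) +
        ∑ j ∈ range L, (if j = L - 1 then (L : ℝ) else 0) +
        2 * L * ∑ j ∈ range L, (1 : ℝ) / ((j - k0 : ℕ) : ℝ) +
        2 * L * ∑ j ∈ range L, (1 : ℝ) / ((L - 1 - j : ℕ) : ℝ) := by
      simp only [hG]
      rw [sum_add_distrib, sum_add_distrib, sum_add_distrib, mul_sum, mul_sum]
    rw [e1]
    have g3' : 2 * (L : ℝ) * ∑ j ∈ range L, (1 : ℝ) / ((j - k0 : ℕ) : ℝ) ≤ 2 * L * (1 + Real.log L) := by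
      gcongr
    have g4' : 2 * (L : ℝ) * ∑ j ∈ range L, (1 : ℝ) / ((L - 1 - j : ℕ) : ℝ) ≤ 2 * L * (1 + Real.log L) := by
      gcongr
    linarith
  have hmaps : ∀ s ∈ S, jj s ∈ range L := fun s _ => mem_range.2 (hjL s)
  calc ∑ s ∈ S, ‖SL (|s| / ω) u L []‖ ≤ ∑ s ∈ S, G (jj s) := sum_le_sum hF
    _ = ∑ j ∈ range L, ∑ s ∈ S.filter (fun s => jj s = j), G (jj s) :=
        (sum_fiberwise_of_maps_to hmaps _).symm
    _ ≤ ∑ j ∈ range L, nm * G j := by
        apply sum_le_sum
        intro j _
        have h1 : ∑ s ∈ S.filter (fun s => jj s = j), G (jj s) =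
            ((S.filter (fun s => jj s = j)).card : ℝ) * G j := by
          rw [← nsmul_eq_mul, ← sum_const]
          apply sum_congr rfl
          intro s hs
          rw [(mem_filter.1 hs).2]
        rw [h1]
        exact mul_le_mul_of_nonneg_right (hcount j) (hG0 j)
    _ = nm * ∑ j ∈ range L, G j := by rw [mul_sum]
    _ ≤ nm * (L * (k0 + 6 + 4 * Real.log L)) := by gcongr
    _ = (2 * (Δ / (ω * u) + 1) * (ω * u + L)) * (k0 + 6 + 4 * Real.log L) := by
        rw [hnm]; field_simp
    _ ≤ (18 * (Δ + u)) * (7 * (Δ * L ^ 2 / u ^ 2 + 1 + Real.log L)) := by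
        have f1 : 2 * (Δ / (ω * u) + 1) * (ω * u + L) ≤ 18 * (Δ + u) := by
          have f2 : ω * u + L ≤ 9 * u := by nlinarith
          have f3 : Δ / (ω * u) ≤ Δ / u / 6 := by
            rw [div_div]
            apply div_le_div_of_nonneg_left hΔ (by positivity)
            nlinarith
          calc 2 * (Δ / (ω * u) + 1) * (ω * u + L) ≤ 2 * (Δ / u / 6 + 1) * (9 * u) := by gcongr
            _ = 3 * Δ + 18 * u := by field_simp; ring
            _ ≤ _ := by linarith
        have f2 : κ * L ≤ Δ * L ^ 2 / u ^ 2 := by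
          rw [hκ]
          calc Δ / ω * L / u ^ 2 * L ≤ Δ / 1 * L / u ^ 2 * L := by
                gcongr
                linarith
            _ = _ := by ring
        have f3 : 0 ≤ Δ * (L : ℝ) ^ 2 / u ^ 2 := by positivity
        have f4 : (k0 : ℝ) + 6 + 4 * Real.log L ≤ 7 * (Δ * L ^ 2 / u ^ 2 + 1 + Real.log L) := by linarith
        have f5 : 0 ≤ (k0 : ℝ) + 6 + 4 * Real.log L := by positivity
        have f6 : 0 ≤ 18 * (Δ + u) := by positivity
        exact mul_le_mul f1 f4 f5 f6
    _ = _ := by ring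

end Pool.Agent.R516.MP
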