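import Pool.Agent.R516.MPA

/-!
A power of `N` is saved in `∑_{n < L} (u + n)^{2πiZ}` if `u N^η ≤ 2 L^3` and `(u/L)^2 N^δ ≤ 7 Z ≤ 7 (2N)^A`.
-/

set_option autoImplicit false

namespace Pool.Agent.R516.MP

open Finset
open Pool.Agent.H469R2.NK (e norm_e)
open Pool.Agent.H442R2.EHI (EL SL)
open Pool.Agent.TH705.DL (ph ph_norm Sep)
open Pool.Agent.R327.SI (card_sep test CK CK_pos lg_pow)

theorem SL_triv (Z u : ℝ) (L : ℕ) : ‖SL Z u L []‖ ≤ L := by
  unfold SL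
  refine (norm_sum_le _ _).trans ?_
  simp only [norm_e, sum_const, card_range, nsmul_eq_mul, mul_one, List.sum_nil, Nat.sub_zero]
  exact le_rfl

/-- **The far part.** -/
theorem far (A η δ0 : ℝ) (hA : 1 ≤ A) (hη : 0 < η) (hη1 : η ≤ 1) (hδ0 : 0 < δ0) :
    ∃ δ C : ℝ, 0 < δ ∧ δ ≤ 1 ∧ 1 ≤ C ∧ ∀ (N : ℕ) (u : ℝ) (L : ℕ) (Z : ℝ), 1 ≤ N → 1 ≤ u → u ≤ 2 * N →
      1 ≤ L → (L : ℝ) ≤ u + 1 → u * (N : ℝ) ^ η ≤ 2 * (L : ℝ) ^ 3 → (u / L) ^ 2 * (N : ℝ) ^ δ0 ≤ 7 * Z →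
      Z ≤ (2 * N : ℝ) ^ A → ‖SL Z u L []‖ ≤ C * L * (N : ℝ) ^ (-δ) := by
  obtain ⟨Q, hQ⟩ : ∃ Q : ℕ, Q = ⌈4 * (2 * A + 1) / η⌉₊ + 2 := ⟨_, rfl⟩
  have hQA : 4 * (2 * A + 1) / η ≤ Q := by
    rw [hQ]; push_cast
    have := Nat.le_ceil (4 * (2 * A + 1) / η)
    linarith
  have hQ2 : 2 ≤ Q := by omega
  have hQ2' : (2 : ℝ) ≤ Q := by exact_mod_cast hQ2
  have hQ0 : (0 : ℝ) < Q := by linarith
  set δ2 : ℝ := min δ0 (η / (2 * Q)) with hδ2
  have hδ20 : 0 < δ2 := by rw [hδ2]; positivity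
  have hδ2a : δ2 ≤ δ0 := min_le_left _ _
  have hδ2b : δ2 ≤ η / (2 * Q) := min_le_right _ _
  have hδ2c : δ2 ≤ η / 4 := by
    refine hδ2b.trans ?_
    apply div_le_div_of_nonneg_left hη.le (by norm_num)
    linarith
  obtain ⟨C2, hC2, hlg⟩ := lg_pow Q (δ2 / 2) (by linarith) (by positivity)
  obtain ⟨S, hS⟩ : ∃ S : ℝ, S = ∑ q ∈ range (Q + 1), CK q := ⟨_, rfl⟩
  have hCKS : ∀ q ≤ Q, CK q ≤ S := by
    intro q hq
    rw [hS]
    exact single_le_sum (fun i _ => by linarith [CK_pos i]) (mem_range.2 (by omega))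
  have hS1 : 1 ≤ S := (CK_pos 0).trans (hCKS 0 (by omega))
  set K : ℝ := S * (2 ^ Q * C2) * 10 with hK
  have h2Q : (1 : ℝ) ≤ 2 ^ Q := one_le_pow₀ (by norm_num)
  have hK1 : 1 ≤ K := by
    rw [hK]
    exact one_le_mul_of_one_le_of_one_le (one_le_mul_of_one_le_of_one_le hS1
      (one_le_mul_of_one_le_of_one_le h2Q hC2)) (by norm_num)
  set δ : ℝ := δ2 / 2 ^ (Q + 1) with hδ
  have h2Q1 : (1 : ℝ) ≤ 2 ^ (Q + 1) := one_le_pow₀ (by norm_num)
  have hδp : 0 < δ := by rw [hδ]; positivity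
  have hδ1 : δ ≤ 1 := by
    rw [hδ, div_le_one (by positivity)]
    linarith
  set N0 : ℝ := (24 : ℝ) ^ (4 / η) with hN0
  have hN01 : 1 ≤ N0 := Real.one_le_rpow (by norm_num) (by positivity)
  have hN0p : 0 < N0 := by linarith
  refine ⟨δ, max K (N0 ^ δ), hδp, hδ1, le_max_of_le_left hK1, ?_⟩
  intro N u L Z hN hu hu2 hL hLu hLη hZ1 hZ2
  have hN1 : (1 : ℝ) ≤ N := by exact_mod_cast hN
  have hn0 : (0 : ℝ) < N := by linarith
  have hL1 : (1 : ℝ) ≤ L := by exact_mod_cast hL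
  have hL0 : (0 : ℝ) < L := by linarith
  have hu0 : 0 < u := by linarith
  obtain ⟨n, hn⟩ : ∃ n : ℝ, n = N := ⟨_, rfl⟩
  have hlgN := hlg N hN
  rw [← hn] at hu2 hLη hZ1 hZ2 hN1 hn0 hlgN ⊢
  have hpow : ∀ x y : ℝ, x ≤ y → n ^ x ≤ n ^ y := fun x y h => Real.rpow_le_rpow_of_exponent_le hN1 h
  rcases lt_or_ge n N0 with hcase | hcase
  · refine (SL_triv Z u L).trans ?_
    have h1 : (1 : ℝ) ≤ N0 ^ δ * n ^ (-δ) := by
      rw [Real.rpow_neg hn0.le, ← div_eq_mul_inv, le_div_iff₀ (by positivity), one_mul]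
      exact Real.rpow_le_rpow hn0.le hcase.le hδp.le
    have h2 : N0 ^ δ ≤ max K (N0 ^ δ) := le_max_right _ _
    calc (L : ℝ) = 1 * L := (one_mul _).symm
      _ ≤ (N0 ^ δ * n ^ (-δ)) * L := by gcongr
      _ ≤ (max K (N0 ^ δ) * n ^ (-δ)) * L := by gcongr
      _ = _ := by ring
  -- large `N`
  have h24 : (24 : ℝ) ≤ n ^ (η / 4) := by
    calc (24 : ℝ) = N0 ^ (η / 4) := by
          rw [hN0, ← Real.rpow_mul (by norm_num)]
          have : 4 / η * (η / 4) = 1 := by field_simp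
          rw [this, Real.rpow_one]
      _ ≤ n ^ (η / 4) := Real.rpow_le_rpow hN0p.le hcase (by positivity)
  have hη4 : n ^ η = (n ^ (η / 4)) ^ 4 := by
    rw [← Real.rpow_natCast, ← Real.rpow_mul hn0.le]
    congr 1; push_cast; ring
  set y : ℝ := n ^ (η / 4) with hy
  have hy0 : 0 < y := by linarith
  -- `u ≥ 6 y`
  have hu_low : 6 * y ≤ u := by
    have h1 : (L : ℝ) ^ 3 ≤ (2 * u) ^ 3 := by
      apply pow_le_pow_left₀ hL0.le
      linarith
    have h2 : u * n ^ η ≤ 16 * u ^ 3 := by nlinarith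
    have h3 : n ^ η ≤ 16 * u ^ 2 := by
      have h4 : u * n ^ η ≤ u * (16 * u ^ 2) := by nlinarith
      exact le_of_mul_le_mul_left h4 hu0
    have h4 : (24 * y) ^ 2 ≤ (4 * u) ^ 2 := by
      calc (24 * y) ^ 2 = 24 ^ 2 * y ^ 2 := by ring
        _ ≤ y ^ 2 * y ^ 2 := by gcongr
        _ = n ^ η := by rw [hη4]; ring
        _ ≤ 16 * u ^ 2 := h3
        _ = _ := by ring
    have h5 := le_of_pow_le_pow_left₀ (by norm_num) (by positivity) h4
    linarith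
  have hL_low : y ≤ L := by
    have h1 : y ^ 3 ≤ (L : ℝ) ^ 3 := by
      have h2 : 1 * n ^ η ≤ u * n ^ η := by gcongr
      have h3 : y ^ 4 = y ^ 3 * y := by ring
      rw [hη4, one_mul] at h2
      rw [hη4] at hLη
      have h4 : 2 * y ^ 3 ≤ y ^ 3 * y := by
        have : (0 : ℝ) < y ^ 3 := by positivity
        nlinarith
      linarith
    exact le_of_pow_le_pow_left₀ (by norm_num) hL0.le h1
  obtain ⟨M, hM⟩ : ∃ M : ℕ, M = ⌊u⌋₊ := ⟨_, rfl⟩
  have hMu : (M : ℝ) ≤ u := by rw [hM]; exact Nat.floor_le hu0.le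
  have huM : u < M + 1 := by rw [hM]; exact Nat.lt_floor_add_one u
  have hMy : y ≤ M := by linarith
  have hM3 : (3 : ℝ) ≤ M := by linarith
  have hM1 : 1 ≤ M := by
    have : (1 : ℝ) ≤ M := by linarith
    exact_mod_cast this
  have hM0 : (0 : ℝ) < M := by linarith
  have huL3 : u + L ≤ 3 * M := by linarith
  have hZ0 : 0 < Z := by
    have : 0 < (u / L) ^ 2 * n ^ δ0 := by positivity
    linarith
  -- choice of `q`
  have hn2 : (2 : ℝ) ≤ n := by
    have h1 : n ^ (η / 4) ≤ n ^ (1 : ℝ) := hpow _ _ (by linarith)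
    rw [Real.rpow_one] at h1
    linarith
  have hZA : Z ≤ n ^ (2 * A) := by
    calc Z ≤ (2 * n) ^ A := hZ2
      _ ≤ (n ^ (2 : ℝ)) ^ A := by
          apply Real.rpow_le_rpow (by positivity) _ (by linarith)
          rw [Real.rpow_two]
          nlinarith
      _ = n ^ (2 * A) := by rw [← Real.rpow_mul hn0.le]
  have hexQ : Z * n ^ (η / 2) ≤ (M : ℝ) ^ (Q + 1) := by
    calc Z * n ^ (η / 2) ≤ n ^ (2 * A) * n ^ (η / 2) := by gcongr
      _ = n ^ (2 * A + η / 2) := by rw [Real.rpow_add hn0]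
      _ ≤ n ^ ((η / 4) * ((Q + 1 : ℕ) : ℝ)) := by
          apply hpow
          push_cast
          have h1 : 4 * (2 * A + 1) ≤ Q * η := by rwa [div_le_iff₀ hη] at hQA
          nlinarith
      _ = y ^ (Q + 1) := by rw [Real.rpow_mul hn0.le, Real.rpow_natCast]
      _ ≤ (M : ℝ) ^ (Q + 1) := by gcongr
  have hex : ∃ q : ℕ, 1 ≤ q ∧ Z * n ^ (η / 2) ≤ (M : ℝ) ^ (q + 1) := ⟨Q, by omega, hexQ⟩
  classical
  obtain ⟨q, hqf⟩ : ∃ q : ℕ, q = Nat.find hex := ⟨_, rfl⟩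
  have hq := Nat.find_spec hex
  rw [← hqf] at hq
  obtain ⟨hq1, hqM⟩ := hq
  have hqQ : q ≤ Q := by
    rw [hqf]
    exact Nat.find_min' hex ⟨by omega, hexQ⟩
  have hqmin : 2 ≤ q → (M : ℝ) ^ q < Z * n ^ (η / 2) := by
    intro h2
    by_contra hcon
    rw [not_lt] at hcon
    have h3 : q ≤ q - 1 := by
      conv_lhs => rw [hqf]
      apply Nat.find_min' hex
      refine ⟨by omega, ?_⟩
      rw [show q - 1 + 1 = q by omega]
      exact hcon
    omega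
  have hq0 : (0 : ℝ) < q := by exact_mod_cast hq1
  have hqQ' : (q : ℝ) ≤ Q := by exact_mod_cast hqQ
  have h := test q hq1 Z hZ0 M u L hM1 hL hMu huL3
  set R : ℝ := ‖SL Z u L []‖ / L with hR
  have hR0 : 0 ≤ R := by rw [hR]; positivity
  set E : ℝ := n ^ (-δ2) with hE
  have hE0 : 0 < E := by rw [hE]; positivity
  have hX1 : 1 / (L : ℝ) ≤ E := by
    calc 1 / (L : ℝ) ≤ 1 / y := one_div_le_one_div_of_le hy0 hL_low
      _ = n ^ (-(η / 4)) := by rw [Real.rpow_neg hn0.le, one_div]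
      _ ≤ E := hpow _ _ (by linarith)
  have hX2 : (Z / (M : ℝ) ^ (q + 1)) ^ ((1 : ℝ) / q) ≤ E := by
    have h1 : Z / (M : ℝ) ^ (q + 1) ≤ n ^ (-(η / 2)) := by
      rw [div_le_iff₀ (by positivity), Real.rpow_neg hn0.le]
      rw [← div_eq_inv_mul, le_div_iff₀ (by positivity)]
      exact hqM
    calc (Z / (M : ℝ) ^ (q + 1)) ^ ((1 : ℝ) / q) ≤ (n ^ (-(η / 2))) ^ ((1 : ℝ) / q) := by
          gcongr
      _ = n ^ (-(η / (2 * q)) : ℝ) := by
          rw [← Real.rpow_mul hn0.le]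
          congr 1
          field_simp
      _ ≤ E := by
          apply hpow
          have : η / (2 * Q) ≤ η / (2 * q) := by
            apply div_le_div_of_nonneg_left hη.le (by positivity)
            linarith
          linarith
  have hX3 : (M : ℝ) ^ (q + 1) / (Z * (L : ℝ) ^ (q + 1)) ≤ 7 * E := by
    rcases Nat.lt_or_ge q 2 with hq2 | hq2
    · have hq1' : q = 1 := by omega
      rw [hq1']
      norm_num
      rw [div_le_iff₀ (by positivity)]
      have e1 : (u / L) ^ 2 * n ^ δ0 * (L : ℝ) ^ 2 = u ^ 2 * n ^ δ0 := by field_simp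
      have e2 : u ^ 2 * n ^ δ0 ≤ 7 * Z * (L : ℝ) ^ 2 := by
        rw [← e1]; gcongr
      have e3 : (M : ℝ) ^ 2 ≤ u ^ 2 := by gcongr
      have e4 : (1 : ℝ) ≤ n ^ δ0 * E := by
        rw [hE, ← Real.rpow_add hn0]
        exact Real.one_le_rpow hN1 (by linarith)
      calc (M : ℝ) ^ 2 ≤ u ^ 2 * 1 := by linarith
        _ ≤ u ^ 2 * (n ^ δ0 * E) := by gcongr
        _ = (u ^ 2 * n ^ δ0) * E := by ring
        _ ≤ (7 * Z * (L : ℝ) ^ 2) * E := by gcongr
        _ = _ := by ring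
    · have h1 := hqmin hq2
      rw [div_le_iff₀ (by positivity)]
      have e1 : (L : ℝ) ^ 3 ≤ (L : ℝ) ^ (q + 1) := pow_le_pow_right₀ hL1 (by omega)
      have e2 : n ^ (η / 2) * n ^ (η / 2) = n ^ η := by
        rw [← Real.rpow_add hn0]; congr 1; ring
      have e3 : (1 : ℝ) ≤ n ^ (η / 2) * E := by
        rw [hE, ← Real.rpow_add hn0]
        exact Real.one_le_rpow hN1 (by linarith)
      have e0 : 0 < n ^ (η / 2) := by positivity
      calc (M : ℝ) ^ (q + 1) = (M : ℝ) ^ q * M := by rw [pow_succ]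
        _ ≤ (Z * n ^ (η / 2)) * u := by gcongr
        _ = Z * (u * n ^ (η / 2)) * 1 := by ring
        _ ≤ Z * (u * n ^ (η / 2)) * (n ^ (η / 2) * E) := by gcongr
        _ = Z * (u * (n ^ (η / 2) * n ^ (η / 2))) * E := by ring
        _ = Z * (u * n ^ η) * E := by rw [e2]
        _ ≤ Z * (2 * (L : ℝ) ^ 3) * E := by gcongr
        _ ≤ Z * (2 * (L : ℝ) ^ (q + 1)) * E := by gcongr
        _ ≤ 7 * E * (Z * (L : ℝ) ^ (q + 1)) := by
            have : 0 < Z * (L : ℝ) ^ (q + 1) * E := by positivity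
            nlinarith
  have hlogL : (1 + Real.log L) ^ q ≤ 2 ^ Q * (C2 * n ^ (δ2 / 2)) := by
    have hlogL0 : 0 ≤ Real.log L := Real.log_nonneg hL1
    have h1 : Real.log L ≤ Real.log (4 * n) := by
      apply Real.log_le_log hL0
      linarith
    have h2 : Real.log (4 * n) = Real.log 2 + Real.log (2 * n) := by
      rw [← Real.log_mul (by norm_num) (by positivity)]
      congr 1
      ring
    have h3 := Real.log_two_lt_d9
    have h4 : 0 ≤ Real.log (2 * n) := Real.log_nonneg (by linarith)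
    calc (1 + Real.log L) ^ q ≤ (1 + Real.log L) ^ Q := pow_le_pow_right₀ (by linarith) hqQ
      _ ≤ (2 * (1 + Real.log (2 * n))) ^ Q := by
          apply pow_le_pow_left₀ (by linarith)
          linarith
      _ = 2 ^ Q * (1 + Real.log (2 * n)) ^ Q := by rw [mul_pow]
      _ ≤ 2 ^ Q * (C2 * n ^ (δ2 / 2)) := by
          rw [Real.rpow_natCast] at hlgN
          gcongr
  have hRw : R ^ (2 ^ q) ≤ K * n ^ (-(δ2 / 2)) := by
    refine h.trans ?_
    have hCK := CK_pos q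
    have hCKS' := hCKS q hqQ
    have hlogL0 : 0 ≤ 1 + Real.log L := by
      have := Real.log_nonneg hL1
      linarith
    calc CK q * (1 + Real.log L) ^ q * (1 / L + (Z / (M : ℝ) ^ (q + 1)) ^ ((1 : ℝ) / q) +
          (M : ℝ) ^ (q + 1) / (Z * (L : ℝ) ^ (q + 1)))
        ≤ S * (2 ^ Q * (C2 * n ^ (δ2 / 2))) * (E + E + 7 * E) := by gcongr
      _ = S * (2 ^ Q * C2) * 9 * (n ^ (δ2 / 2) * E) := by ring
      _ ≤ S * (2 ^ Q * C2) * 10 * (n ^ (δ2 / 2) * E) := by gcongr; norm_num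
      _ = K * n ^ (-(δ2 / 2)) := by
          rw [hE, ← Real.rpow_add hn0, hK]
          congr 2
          ring
  -- the root
  have hw0 : (0 : ℝ) < ((2 ^ q : ℕ) : ℝ) := by positivity
  have hfin : R ≤ K * n ^ (-δ) := by
    have h1 : R = (R ^ (2 ^ q)) ^ ((1 : ℝ) / ((2 ^ q : ℕ) : ℝ)) := by
      rw [← Real.rpow_natCast R (2 ^ q), ← Real.rpow_mul hR0, mul_one_div_cancel hw0.ne', Real.rpow_one]
    rw [h1]
    calc (R ^ (2 ^ q)) ^ ((1 : ℝ) / ((2 ^ q : ℕ) : ℝ))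
        ≤ (K * n ^ (-(δ2 / 2))) ^ ((1 : ℝ) / ((2 ^ q : ℕ) : ℝ)) :=
          Real.rpow_le_rpow (by positivity) hRw (by positivity)
      _ = K ^ ((1 : ℝ) / ((2 ^ q : ℕ) : ℝ)) * n ^ (-(δ2 / 2) * ((1 : ℝ) / ((2 ^ q : ℕ) : ℝ))) := by
          rw [Real.mul_rpow (by linarith) (by positivity), ← Real.rpow_mul hn0.le]
      _ ≤ K * n ^ (-δ) := by
          have h2 : K ^ ((1 : ℝ) / ((2 ^ q : ℕ) : ℝ)) ≤ K := by
            calc K ^ ((1 : ℝ) / ((2 ^ q : ℕ) : ℝ)) ≤ K ^ (1 : ℝ) := by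
                  apply Real.rpow_le_rpow_of_exponent_le hK1
                  rw [div_le_one hw0]
                  exact_mod_cast Nat.one_le_two_pow
              _ = K := Real.rpow_one _
          have h3 : -(δ2 / 2) * ((1 : ℝ) / ((2 ^ q : ℕ) : ℝ)) ≤ -δ := by
            have h4 : δ ≤ δ2 / 2 * ((1 : ℝ) / ((2 ^ q : ℕ) : ℝ)) := by
              have h5 : δ2 / 2 * ((1 : ℝ) / ((2 ^ q : ℕ) : ℝ)) = δ2 / 2 ^ (q + 1) := by
                push_cast
                rw [pow_succ]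
                field_simp
              rw [h5, hδ]
              apply div_le_div_of_nonneg_left hδ20.le (by positivity)
              exact pow_le_pow_right₀ (by norm_num) (by omega)
            linarith
          have h4 := hpow _ _ h3
          gcongr
  have hK2 : K ≤ max K (N0 ^ δ) := le_max_left _ _
  calc ‖SL Z u L []‖ = R * L := by rw [hR]; field_simp
    _ ≤ (K * n ^ (-δ)) * L := by gcongr
    _ ≤ (max K (N0 ^ δ) * n ^ (-δ)) * L := by gcongr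
    _ = _ := by ring

end Pool.Agent.R516.MP
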