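import Pool.Agent.R516.MPB
import Pool.Agent.R327.SIMain

/-!
Mean values over well-spaced sets for coefficients supported on one arithmetic progression.
-/

set_option autoImplicit false

namespace Pool.Agent.R516.MP

open Finset
open Pool.Agent.H442R2.EHI (EL SL)
open Pool.Agent.TH705.DL (ph ph_norm Sep)
open Pool.Agent.R327.SI (card_sep lg_pow toSL ker_abs schur AP sum_AP mem_AP)

/-- one progression -/
theorem one (A η : ℝ) (hA : 1 ≤ A) (hη : 0 < η) (hη1 : η ≤ 1) :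
    ∃ δ C : ℝ, 0 < δ ∧ δ ≤ 1 ∧ 1 ≤ C ∧ ∀ (M m d L : ℕ), 1 ≤ M → M ≤ m → 1 ≤ d → 2 ≤ L →
      m + d * (L - 1) ≤ 2 * M → (M : ℝ) ^ (1 + η) ≤ d * (L : ℝ) ^ 3 →
      ∀ (T x : ℝ) (W : Finset ℝ), T ≤ (2 * M : ℝ) ^ A → Sep W → (∀ t ∈ W, x ≤ t ∧ t ≤ x + T) →
      ∀ b : ℕ → ℂ, ∑ t ∈ W, ‖∑ n ∈ AP m d L, b n * ph t n‖ ^ 2 ≤
        C * L * ((M : ℝ) ^ (1 - η / 4) + W.card * (M : ℝ) ^ (-δ)) * ∑ n ∈ AP m d L, ‖b n‖ ^ 2 := by
  obtain ⟨δ, C0, hδ, hδ1, hC0, hfar⟩ := far A η (η / 12) hA hη hη1 (by positivity)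
  obtain ⟨C2, hC2, hlg⟩ := lg_pow 1 (η / 12) (by norm_num) (by positivity)
  refine ⟨δ, 126 * 8 * (3 * C2) + C0, hδ, hδ1, by nlinarith, ?_⟩
  intro M m d L hM hMm hd hL hmL hdL T x W hT hW hWT b
  classical
  have hM1 : (1 : ℝ) ≤ M := by exact_mod_cast hM
  have hL2 : (2 : ℝ) ≤ L := by exact_mod_cast hL
  have hL1n : 1 ≤ L := by omega
  have hL1 : (1 : ℝ) ≤ L := by linarith
  have hL0 : (0 : ℝ) < L := by linarith
  have hd1 : (1 : ℝ) ≤ d := by exact_mod_cast hd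
  have hd0 : (0 : ℝ) < d := by linarith
  have hlgM := hlg M hM
  rw [Real.rpow_one] at hlgM
  have hfarM := hfar M
  obtain ⟨n, hn⟩ : ∃ n : ℝ, n = M := ⟨_, rfl⟩
  rw [← hn] at hM1 hdL hT hlgM hfarM ⊢
  have hn0 : 0 < n := by linarith
  have hpow : ∀ x y : ℝ, x ≤ y → n ^ x ≤ n ^ y := fun x y h => Real.rpow_le_rpow_of_exponent_le hM1 h
  obtain ⟨u, hu⟩ : ∃ u : ℝ, u = (m : ℝ) / d := ⟨_, rfl⟩
  have hm1 : 1 ≤ m := by omega
  have hm0 : (0 : ℝ) < m := by exact_mod_cast hm1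
  have hu0 : 0 < u := by rw [hu]; positivity
  have hmr : (m : ℝ) ≤ 2 * n := by
    rw [hn]
    have : m ≤ 2 * M := by omega
    exact_mod_cast this
  have hud : u * d = m := by rw [hu]; field_simp
  have hnm : n ≤ m := by rw [hn]; exact_mod_cast hMm
  have hmL' : (m : ℝ) + d * (L - 1) ≤ 2 * n := by
    rw [hn]
    have h1 : ((m + d * (L - 1) : ℕ) : ℝ) ≤ ((2 * M : ℕ) : ℝ) := by exact_mod_cast hmL
    push_cast [Nat.cast_sub hL1n] at h1
    exact h1
  have hLu : (L : ℝ) ≤ u + 1 := by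
    have h1 : (d : ℝ) * (L - 1) ≤ d * u := by nlinarith
    have h2 := le_of_mul_le_mul_left h1 hd0
    linarith
  have hu1 : 1 ≤ u := by linarith
  have hu2 : u ≤ 2 * n := by
    rw [hu]
    exact (div_le_self hm0.le hd1).trans hmr
  have hLη : u * n ^ η ≤ 2 * (L : ℝ) ^ 3 := by
    have h1 : n ^ (1 + η) = n * n ^ η := by rw [Real.rpow_add hn0, Real.rpow_one]
    rw [h1] at hdL
    have h2 : d * (u * n ^ η) ≤ d * (2 * (L : ℝ) ^ 3) := by
      calc d * (u * n ^ η) = (u * d) * n ^ η := by ring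
        _ = m * n ^ η := by rw [hud]
        _ ≤ (2 * n) * n ^ η := by gcongr
        _ = 2 * (n * n ^ η) := by ring
        _ ≤ 2 * (d * (L : ℝ) ^ 3) := by gcongr
        _ = _ := by ring
    exact le_of_mul_le_mul_left h2 hd0
  -- the sizes
  have s1 : (u / L) ^ 2 ≤ 4 * L * n ^ (1 - η) := by
    have e1 : n ^ (1 - η) = n / n ^ η := by rw [Real.rpow_sub hn0, Real.rpow_one]
    have hηp : 0 < n ^ η := by positivity
    rw [e1, div_pow, div_le_iff₀ (by positivity)]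
    have e2 : 4 * (L : ℝ) * (n / n ^ η) * (L : ℝ) ^ 2 = (2 * n) * (2 * (L : ℝ) ^ 3) / n ^ η := by ring
    rw [e2, le_div_iff₀ hηp]
    calc u ^ 2 * n ^ η = u * (u * n ^ η) := by ring
      _ ≤ (2 * n) * (2 * (L : ℝ) ^ 3) := by gcongr
  have s2 : n ^ (η / 3) ≤ 2 * L := by
    have h1 : (n ^ (η / 3)) ^ 3 ≤ (2 * (L : ℝ)) ^ 3 := by
      calc (n ^ (η / 3)) ^ 3 = n ^ η := by
            rw [← Real.rpow_natCast, ← Real.rpow_mul hn0.le]
            congr 1; push_cast; ring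
        _ ≤ u * n ^ η := le_mul_of_one_le_left (by positivity) hu1
        _ ≤ 2 * (L : ℝ) ^ 3 := hLη
        _ ≤ (2 * (L : ℝ)) ^ 3 := by
            have : 0 < (L : ℝ) ^ 3 := by positivity
            nlinarith
    exact le_of_pow_le_pow_left₀ (by norm_num) (by positivity) h1
  have s3 : u ≤ 4 * L * n ^ (1 - η / 3) := by
    have e1 : n ^ (1 - η / 3) = n / n ^ (η / 3) := by rw [Real.rpow_sub hn0, Real.rpow_one]
    have hηp : 0 < n ^ (η / 3) := by positivity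
    rw [e1, ← mul_div_assoc, le_div_iff₀ hηp]
    calc u * n ^ (η / 3) ≤ (2 * n) * (2 * L) := by gcongr
      _ = _ := by ring
  have s4 : n ^ (1 - η) * n ^ (η / 12) ≤ n ^ (1 - η / 3) := by
    rw [← Real.rpow_add hn0]
    apply hpow
    linarith
  obtain ⟨Δ, hΔ⟩ : ∃ Δ : ℝ, Δ = (u / L) ^ 2 * n ^ (η / 12) := ⟨_, rfl⟩
  have hΔ0 : 0 ≤ Δ := by rw [hΔ]; positivity
  have s5 : Δ + u ≤ 8 * L * n ^ (1 - η / 3) := by
    have h1 : Δ ≤ 4 * L * n ^ (1 - η / 3) := by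
      rw [hΔ]
      calc (u / L) ^ 2 * n ^ (η / 12) ≤ (4 * L * n ^ (1 - η)) * n ^ (η / 12) := by gcongr
        _ = 4 * L * (n ^ (1 - η) * n ^ (η / 12)) := by ring
        _ ≤ _ := by gcongr
    linarith
  have hlogL0 : 0 ≤ Real.log L := Real.log_nonneg hL1
  have s6 : Δ * (L : ℝ) ^ 2 / u ^ 2 + 1 + Real.log L ≤ 3 * C2 * n ^ (η / 12) := by
    have e1 : Δ * (L : ℝ) ^ 2 / u ^ 2 = n ^ (η / 12) := by rw [hΔ]; field_simp
    have h1 : Real.log L ≤ Real.log (4 * n) := by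
      apply Real.log_le_log hL0
      linarith
    have h2 : Real.log (4 * n) = Real.log 2 + Real.log (2 * n) := by
      rw [← Real.log_mul (by norm_num) (by positivity)]
      congr 1
      ring
    have h3 := Real.log_two_lt_d9
    have h4 : 0 ≤ Real.log (2 * n) := Real.log_nonneg (by linarith)
    have h5 : n ^ (η / 12) ≤ C2 * n ^ (η / 12) := le_mul_of_one_le_left (by positivity) hC2
    rw [e1]
    linarith
  have s7 : 126 * (Δ + u) * (Δ * (L : ℝ) ^ 2 / u ^ 2 + 1 + Real.log L) ≤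
      126 * 8 * (3 * C2) * L * n ^ (1 - η / 4) := by
    have h1 : 0 ≤ Δ * (L : ℝ) ^ 2 / u ^ 2 + 1 + Real.log L := by positivity
    calc 126 * (Δ + u) * (Δ * (L : ℝ) ^ 2 / u ^ 2 + 1 + Real.log L)
        ≤ 126 * (8 * L * n ^ (1 - η / 3)) * (3 * C2 * n ^ (η / 12)) := by gcongr
      _ = 126 * 8 * (3 * C2) * L * (n ^ (1 - η / 3) * n ^ (η / 12)) := by ring
      _ = _ := by
          rw [← Real.rpow_add hn0]
          congr 2
          ring
  -- the kernel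
  have hker : ∀ τ : ℝ, ‖∑ k ∈ AP m d L, ph τ k‖ = ‖SL (|τ| / (2 * Real.pi)) u L []‖ := by
    intro τ
    rw [sum_AP m d L hd, ker_abs, toSL |τ| m d L hm1 hd, hu]
  set Λ : ℝ := (126 * 8 * (3 * C2) + C0) * L * (n ^ (1 - η / 4) + W.card * n ^ (-δ)) with hΛ
  have hΛ0 : 0 ≤ Λ := by
    have : 0 ≤ 126 * 8 * (3 * C2) + C0 := by nlinarith
    rw [hΛ]; positivity
  apply schur (AP m d L) W Λ hΛ0
  intro t ht
  simp only [hker]
  set Wn := W.filter (fun s => |t - s| ≤ Δ) with hWn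
  have h1 : ∑ s ∈ Wn, ‖SL (|t - s| / (2 * Real.pi)) u L []‖ ≤ 126 * 8 * (3 * C2) * L * n ^ (1 - η / 4) := by
    set S : Finset ℝ := Wn.image (fun s => t - s) with hS
    have hinj : Set.InjOn (fun s : ℝ => t - s) (Wn : Set ℝ) := by
      intro s _ s' _ h
      simpa using h
    have h2 : ∑ s ∈ Wn, ‖SL (|t - s| / (2 * Real.pi)) u L []‖ =
        ∑ s ∈ S, ‖SL (|s| / (2 * Real.pi)) u L []‖ := by
      rw [hS, sum_image hinj]
    rw [h2]
    refine (near u L hu1 hL1n (by linarith) S ?_ Δ hΔ0 ?_).trans s7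
    · intro s hs s' hs' hne
      rw [hS, mem_image] at hs hs'
      obtain ⟨r, hr, rfl⟩ := hs
      obtain ⟨r', hr', rfl⟩ := hs'
      have h3 : r ≠ r' := by rintro rfl; exact hne rfl
      have h4 := hW r (mem_filter.1 hr).1 r' (mem_filter.1 hr').1 h3
      rw [show t - r - (t - r') = -(r - r') by ring, abs_neg]
      exact h4
    · intro s hs
      rw [hS, mem_image] at hs
      obtain ⟨r, hr, rfl⟩ := hs
      exact (mem_filter.1 hr).2
  have h2 : ∑ s ∈ W.filter (fun s => ¬ |t - s| ≤ Δ), ‖SL (|t - s| / (2 * Real.pi)) u L []‖ ≤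
      W.card * (C0 * L * n ^ (-δ)) := by
    have hpi := Real.pi_gt_three
    have hpi2 := Real.pi_lt_d2
    have h3 : ∀ s ∈ W.filter (fun s => ¬ |t - s| ≤ Δ),
        ‖SL (|t - s| / (2 * Real.pi)) u L []‖ ≤ C0 * L * n ^ (-δ) := by
      intro s hs
      rw [mem_filter, not_le] at hs
      have a1 := hWT t ht
      have a2 := hWT s hs.1
      have a3 : |t - s| ≤ T := by
        rw [abs_le]
        constructor <;> linarith
      have a4 : |t - s| ≤ 7 * (|t - s| / (2 * Real.pi)) := by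
        rw [← mul_div_assoc, le_div_iff₀ (by positivity)]
        have := abs_nonneg (t - s)
        nlinarith
      have a5 : |t - s| / (2 * Real.pi) ≤ |t - s| := by
        rw [div_le_iff₀ (by positivity)]
        have := abs_nonneg (t - s)
        nlinarith
      apply hfarM u L _ hM hu1 hu2 hL1n hLu hLη
      · rw [← hΔ]; linarith [hs.2]
      · linarith
    refine (sum_le_card_nsmul _ _ _ h3).trans ?_
    rw [nsmul_eq_mul]
    have : ((W.filter (fun s => ¬ |t - s| ≤ Δ)).card : ℝ) ≤ W.card := by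
      exact_mod_cast card_filter_le _ _
    have h4 : 0 ≤ C0 * L * n ^ (-δ) := by positivity
    exact mul_le_mul_of_nonneg_right this h4
  rw [← sum_filter_add_sum_filter_not W (fun s => |t - s| ≤ Δ)]
  refine (add_le_add h1 h2).trans ?_
  rw [hΛ]
  have g1 : 0 ≤ n ^ (1 - η / 4) := by positivity
  have g2 : 0 ≤ (W.card : ℝ) * n ^ (-δ) := by positivity
  have g3 : 0 ≤ C0 * L * n ^ (1 - η / 4) := by positivity
  have g4 : 0 ≤ 126 * 8 * (3 * C2) * L * (W.card * n ^ (-δ)) := by positivity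
  have e : (126 * 8 * (3 * C2) + C0) * L * (n ^ (1 - η / 4) + W.card * n ^ (-δ)) =
      126 * 8 * (3 * C2) * L * n ^ (1 - η / 4) + W.card * (C0 * L * n ^ (-δ)) +
      (C0 * L * n ^ (1 - η / 4) + 126 * 8 * (3 * C2) * L * (W.card * n ^ (-δ))) := by ring
  rw [e]
  linarith

end Pool.Agent.R516.MP
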