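import Pool.Agent.R516.MSD

/-!
The hypothesis on the support in terms of `N`, and the mean value for `[N, 2N]` and for `[1, N]`.
-/

set_option autoImplicit false

namespace Pool.Agent.R516.MS

open Finset
open Pool.Agent.TH705.DL (ph ph_norm Sep)
open Pool.Agent.R327.SI (card_sep)

theorem sq_le {N : ℕ} {M : ℕ} (E : Finset ℕ) (h : (E.card : ℝ) ≤ (N : ℝ) ^ (1 / 2 : ℝ)) (hNM : N ≤ 2 * M) :
    (E.card : ℝ) ^ 2 ≤ 2 * M := by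
  have h1 : (E.card : ℝ) ^ 2 ≤ ((N : ℝ) ^ (1 / 2 : ℝ)) ^ 2 := pow_le_pow_left₀ (Nat.cast_nonneg _) h 2
  have h2 : ((N : ℝ) ^ (1 / 2 : ℝ)) ^ 2 = N := by
    rw [← Real.rpow_natCast, ← Real.rpow_mul (Nat.cast_nonneg _)]
    norm_num
  have h3 : (N : ℝ) ≤ 2 * M := by exact_mod_cast hNM
  linarith

theorem pow_le {N M : ℕ} {T A : ℝ} (hA : 1 ≤ A) (hNM : N ≤ 2 * M) (hT : T ≤ (N : ℝ) ^ A) :
    T ≤ (2 * M : ℝ) ^ A := by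
  have h3 : (N : ℝ) ≤ 2 * M := by exact_mod_cast hNM
  exact hT.trans (Real.rpow_le_rpow (Nat.cast_nonneg _) h3 (by linarith))

/-- the hypothesis `Adm` is monotone in `c` -/
theorem Adm.mono {M : ℕ} {μ c c' : ℝ} {K : ℕ} {B : Finset (ℕ × ℕ)} (hM : 1 ≤ M) (h : Adm M μ c' K B)
    (hc : c' ≤ c) : Adm M μ c K B := by
  have hM1 : (1 : ℝ) ≤ M := by exact_mod_cast hM
  refine ⟨h.1, h.2.trans ?_⟩
  have : (M : ℝ) ^ (1 / 2 + c') ≤ (M : ℝ) ^ (1 / 2 + c) :=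
    Real.rpow_le_rpow_of_exponent_le hM1 (by linarith)
  linarith

/-- the mean value on `[N, 2N]` -/
theorem onTwo (A μ : ℝ) (K : ℕ) (hA : 1 ≤ A) (hμ : 0 < μ) (hμ1 : μ ≤ 1) (hK : 1 ≤ K) :
    ∃ c C : ℝ, 0 < c ∧ 1 ≤ C ∧ ∀ (N : ℕ) (B : Finset (ℕ × ℕ)) (E : Finset ℕ), 1 ≤ N →
      (∀ p ∈ B, 1 ≤ p.1 ∧ (p.1 : ℝ) ≤ (N : ℝ) ^ (1 - μ) ∧ 1 ≤ p.2 ∧ p.2 ≤ K) →
      ∑ p ∈ B, ((N : ℝ) / p.1) ^ ((1 : ℝ) / p.2) ≤ (N : ℝ) ^ (1 / 2 + c) →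
      (E.card : ℝ) ≤ (N : ℝ) ^ (1 / 2 : ℝ) → ∀ (T : ℝ) (W : Finset ℝ) (b : ℕ → ℂ),
      T ≤ (N : ℝ) ^ A → Sep W → (∀ t ∈ W, 0 ≤ t ∧ t ≤ T) →
      (∀ n ∈ Icc N (2 * N), b n ≠ 0 → n ∈ E ∨ ∃ p ∈ B, ∃ d : ℕ, n = p.1 * d ^ p.2) → (∀ n, ‖b n‖ ≤ 1) →
      ∑ t ∈ W, ‖∑ n ∈ Icc N (2 * N), b n * ph t n‖ ^ 2 ≤ C * ((N : ℝ) + W.card) * N := by
  obtain ⟨c, C, hc0, hc1, hC, h⟩ := mainE A μ K hA hμ hμ1 hK
  refine ⟨c, C, hc0, hC, ?_⟩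
  intro N B E hN hB1 hB2 hE T W b hT hW hWT hs hb
  exact h N B E hN (adm_of hN le_rfl (by omega) hμ hμ1 hc0 hc1 hB1 hB2) (sq_le E hE (by omega)) T 0 W b
    (pow_le hA (by omega) hT) hW (fun t ht => ⟨(hWT t ht).1, by linarith [(hWT t ht).2]⟩) hs hb

/-- the mean value on `[1, N]`, for `[x, x + T]` -/
theorem onOne (A μ : ℝ) (K : ℕ) (hA : 1 ≤ A) (hμ : 0 < μ) (hμ1 : μ ≤ 1) (hK : 1 ≤ K) :
    ∃ c C : ℝ, 0 < c ∧ 1 ≤ C ∧ ∀ (N : ℕ) (B : Finset (ℕ × ℕ)) (E : Finset ℕ), 1 ≤ N →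
      (∀ p ∈ B, 1 ≤ p.1 ∧ (p.1 : ℝ) ≤ (N : ℝ) ^ (1 - μ) ∧ 1 ≤ p.2 ∧ p.2 ≤ K) →
      ∑ p ∈ B, ((N : ℝ) / p.1) ^ ((1 : ℝ) / p.2) ≤ (N : ℝ) ^ (1 / 2 + c) →
      (E.card : ℝ) ≤ (N : ℝ) ^ (1 / 2 : ℝ) → ∀ (T x : ℝ) (W : Finset ℝ) (a : ℕ → ℂ),
      T ≤ (N : ℝ) ^ A → Sep W → (∀ t ∈ W, x ≤ t ∧ t ≤ x + T) →
      (∀ n ∈ Icc 1 N, a n ≠ 0 → N ≤ 2 * n ∧ (n ∈ E ∨ ∃ p ∈ B, ∃ d : ℕ, n = p.1 * d ^ p.2)) →
      ((∀ n, ‖a n‖ ≤ 1) →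
        ∑ t ∈ W, ‖∑ n ∈ Icc 1 N, a n * ph t n‖ ^ 2 ≤ C * ((N : ℝ) + W.card) * N) ∧
      (E = ∅ → ∑ t ∈ W, ‖∑ n ∈ Icc 1 N, a n * ph t n‖ ^ 2 ≤
        C * ((N : ℝ) ^ (3 / 2 - c) + W.card * (N : ℝ) ^ (1 / 2 - c)) * ∑ n ∈ Icc 1 N, ‖a n‖ ^ 2) := by
  classical
  obtain ⟨c1, C1, hc10, hc11, hC1, h1⟩ := mainE A μ K hA hμ hμ1 hK
  obtain ⟨c2, C2, hc20, hc21, hC2, h2⟩ := main A μ K hA hμ hμ1 hK
  have hc0 : 0 < min c1 c2 := lt_min hc10 hc20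
  refine ⟨min c1 c2, max C1 C2, hc0, le_max_of_le_left hC1, ?_⟩
  intro N B E hN hB1 hB2 hE T x W a hT hW hWT hs
  set c := min c1 c2 with hc
  have hcc1 : c ≤ c1 := min_le_left _ _
  have hcc2 : c ≤ c2 := min_le_right _ _
  set M := (N + 1) / 2 with hM
  have hM1 : 1 ≤ M := by omega
  have hMN : M ≤ N := by omega
  have hNM : N ≤ 2 * M := by omega
  have hMr : (1 : ℝ) ≤ M := by exact_mod_cast hM1
  have hMNr : (M : ℝ) ≤ N := by exact_mod_cast hMN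
  have hadm : Adm M μ c K B := adm_of hM1 hMN hNM hμ hμ1 hc0 (hcc1.trans hc11) hB1 hB2
  set b : ℕ → ℂ := fun n => if n ≤ N then a n else 0 with hb
  have hbs : ∀ n ∈ Icc M (2 * M), b n ≠ 0 → n ∈ Icc 1 N ∧ a n ≠ 0 := by
    intro n hn hne
    simp only [hb] at hne
    split_ifs at hne with h
    · rw [mem_Icc] at hn ⊢
      exact ⟨⟨by omega, h⟩, hne⟩
    · exact absurd rfl hne
  have hlift : ∀ t : ℝ, ∑ n ∈ Icc 1 N, a n * ph t n = ∑ n ∈ Icc M (2 * M), b n * ph t n := by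
    intro t
    exact lift N hN a (fun n => ph t n) (fun n hn hne => (hs n hn hne).1)
  simp only [hlift]
  constructor
  · intro ha
    have h3 := h1 M B E hM1 (hadm.mono hM1 hcc1) (sq_le E hE hNM) T x W b (pow_le hA hNM hT) hW hWT (by
      intro n hn hne
      obtain ⟨h4, h5⟩ := hbs n hn hne
      exact (hs n h4 h5).2) (by
      intro n
      simp only [hb]
      split_ifs
      · exact ha n
      · simp)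
    refine h3.trans ?_
    have h5 : C1 ≤ max C1 C2 := le_max_left _ _
    have h6 : 0 ≤ C1 := by linarith
    gcongr
  · intro hEe
    have h3 := (h2 M B hM1 (hadm.mono hM1 hcc2) T x W b (pow_le hA hNM hT) hW hWT (by
      intro n hn hne
      obtain ⟨h4, h5⟩ := hbs n hn hne
      rcases (hs n h4 h5).2 with h6 | h6
      · rw [hEe] at h6
        exact absurd h6 (notMem_empty n)
      · exact h6)).1
    refine h3.trans ?_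
    have h5 : C2 ≤ max C1 C2 := le_max_right _ _
    have h6 : 0 ≤ C2 := by linarith
    have h7 : ∑ n ∈ Icc M (2 * M), ‖b n‖ ^ 2 ≤ ∑ n ∈ Icc 1 N, ‖a n‖ ^ 2 := by
      have e1 : ∑ n ∈ Icc M (2 * M), ‖b n‖ ^ 2 =
          ∑ n ∈ (Icc M (2 * M)).filter (fun n => n ≤ N), ‖a n‖ ^ 2 := by
        rw [sum_filter]
        apply sum_congr rfl
        intro n _
        simp only [hb]
        split_ifs <;> simp
      rw [e1]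
      apply sum_le_sum_of_subset_of_nonneg
      · intro n hn
        rw [mem_filter, mem_Icc] at hn
        rw [mem_Icc]
        omega
      · intros; positivity
    have h8 : (M : ℝ) ^ (3 / 2 - c2) ≤ (N : ℝ) ^ (3 / 2 - c) := by
      calc (M : ℝ) ^ (3 / 2 - c2) ≤ (M : ℝ) ^ (3 / 2 - c) := Real.rpow_le_rpow_of_exponent_le hMr (by linarith)
        _ ≤ _ := Real.rpow_le_rpow (by linarith) hMNr (by linarith)
    have h9 : (M : ℝ) ^ (1 / 2 - c2) ≤ (N : ℝ) ^ (1 / 2 - c) := by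
      calc (M : ℝ) ^ (1 / 2 - c2) ≤ (M : ℝ) ^ (1 / 2 - c) := Real.rpow_le_rpow_of_exponent_le hMr (by linarith)
        _ ≤ _ := Real.rpow_le_rpow (by linarith) hMNr (by linarith)
    have h10 : 0 ≤ ∑ n ∈ Icc M (2 * M), ‖b n‖ ^ 2 := sum_nonneg fun _ _ => by positivity
    gcongr

end Pool.Agent.R516.MS
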