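import Pool.Agent.R516.MPC
import Pool.Agent.R516.MSE

/-!
Mean values over well-spaced sets for coefficients supported on a union of arithmetic progressions.
-/

set_option autoImplicit false

namespace Pool.Agent.R516.MP

open Finset
open Pool.Agent.TH705.DL (ph ph_norm Sep)
open Pool.Agent.R327.SI (AP sum_AP mem_AP)
open Pool.Agent.R516.MS (lift sq_le pow_le)

/-- from single progressions to their union -/
theorem assemble (M : ℕ) (J : Finset ℕ) (m d L : ℕ → ℕ) (W : Finset ℝ) (l : ℝ) (hl : 0 ≤ l)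
    (hL : ∀ j ∈ J, 1 ≤ L j) (hsub : ∀ j ∈ J, ∀ i < L j, m j + d j * i ∈ Icc M (2 * M))
    (h1 : ∀ j ∈ J, ∀ b : ℕ → ℂ, ∑ t ∈ W, ‖∑ n ∈ AP (m j) (d j) (L j), b n * ph t n‖ ^ 2 ≤
      L j * l * ∑ n ∈ AP (m j) (d j) (L j), ‖b n‖ ^ 2)
    (b : ℕ → ℂ) (hs : ∀ n ∈ Icc M (2 * M), b n ≠ 0 → ∃ j ∈ J, ∃ i < L j, n = m j + d j * i) :
    ∑ t ∈ W, ‖∑ n ∈ Icc M (2 * M), b n * ph t n‖ ^ 2 ≤
      (∑ j ∈ J, (L j : ℝ)) * l * ∑ n ∈ Icc M (2 * M), ‖b n‖ ^ 2 := by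
  classical
  have hex : ∃ g : ℕ → ℕ, ∀ n ∈ Icc M (2 * M), b n ≠ 0 → g n ∈ J ∧ ∃ i < L (g n), n = m (g n) + d (g n) * i := by
    refine ⟨fun n => if h : ∃ j ∈ J, ∃ i < L j, n = m j + d j * i then h.choose else 0, ?_⟩
    intro n hn hne
    have h := hs n hn hne
    simp only [dif_pos h]
    exact h.choose_spec
  obtain ⟨g, hg⟩ := hex
  set bj : ℕ → ℕ → ℂ := fun j n => if g n = j then b n else 0 with hbj
  set P : ℕ → Finset ℕ := fun j => AP (m j) (d j) (L j) with hP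
  have hPsub : ∀ j ∈ J, P j ⊆ Icc M (2 * M) := by
    intro j hj n hn
    obtain ⟨i, hi, rfl⟩ := mem_AP.1 hn
    exact hsub j hj i hi
  -- decomposition
  have hdec : ∀ t : ℝ, ∑ n ∈ Icc M (2 * M), b n * ph t n = ∑ j ∈ J, ∑ n ∈ P j, bj j n * ph t n := by
    intro t
    have e1 : ∀ j ∈ J, ∑ n ∈ P j, bj j n * ph t n = ∑ n ∈ Icc M (2 * M), bj j n * ph t n := by
      intro j hj
      apply sum_subset (hPsub j hj)
      intro n hn hnP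
      by_contra hne
      have h2 : bj j n ≠ 0 := left_ne_zero_of_mul hne
      simp only [hbj] at h2
      split_ifs at h2 with h3
      · obtain ⟨_, i, hi, h4⟩ := hg n hn h2
        rw [h3] at hi h4
        exact hnP (mem_AP.2 ⟨i, hi, h4⟩)
      · exact h2 rfl
    rw [sum_congr rfl e1, sum_comm]
    apply sum_congr rfl
    intro n hn
    rw [← sum_mul]
    congr 1
    by_cases h0 : b n = 0
    · rw [h0]
      symm
      apply sum_eq_zero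
      intro j _
      simp only [hbj]
      split_ifs
      · exact h0
      · rfl
    · have h2 := (hg n hn h0).1
      simp only [hbj]
      rw [sum_ite_eq J (g n) (fun _ => b n), if_pos h2]
  have hl2 : ∑ j ∈ J, ∑ n ∈ P j, ‖bj j n‖ ^ 2 ≤ ∑ n ∈ Icc M (2 * M), ‖b n‖ ^ 2 := by
    calc ∑ j ∈ J, ∑ n ∈ P j, ‖bj j n‖ ^ 2 ≤ ∑ j ∈ J, ∑ n ∈ Icc M (2 * M), ‖bj j n‖ ^ 2 := by
          apply sum_le_sum
          intro j hj
          exact sum_le_sum_of_subset_of_nonneg (hPsub j hj) (fun _ _ _ => by positivity)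
      _ = ∑ n ∈ Icc M (2 * M), ∑ j ∈ J, ‖bj j n‖ ^ 2 := sum_comm
      _ ≤ ∑ n ∈ Icc M (2 * M), ‖b n‖ ^ 2 := by
          apply sum_le_sum
          intro n _
          have e1 : ∑ j ∈ J, ‖bj j n‖ ^ 2 = ∑ j ∈ J, (if g n = j then ‖b n‖ ^ 2 else 0) := by
            apply sum_congr rfl
            intro j _
            simp only [hbj]
            split_ifs <;> simp
          rw [e1, sum_ite_eq J (g n) (fun _ => ‖b n‖ ^ 2)]
          split_ifs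
          · exact le_rfl
          · positivity
  have hSL : 0 ≤ ∑ j ∈ J, (L j : ℝ) := sum_nonneg fun _ _ => Nat.cast_nonneg _
  -- Cauchy–Schwarz
  have hcs : ∀ t : ℝ, ‖∑ n ∈ Icc M (2 * M), b n * ph t n‖ ^ 2 ≤
      (∑ j ∈ J, (L j : ℝ)) * ∑ j ∈ J, ‖∑ n ∈ P j, bj j n * ph t n‖ ^ 2 / L j := by
    intro t
    rw [hdec]
    have h2 := norm_sum_le J (fun j => ∑ n ∈ P j, bj j n * ph t n)
    have h3 : (∑ j ∈ J, ‖∑ n ∈ P j, bj j n * ph t n‖) ^ 2 ≤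
        (∑ j ∈ J, (L j : ℝ)) * ∑ j ∈ J, ‖∑ n ∈ P j, bj j n * ph t n‖ ^ 2 / L j := by
      apply sum_sq_le_sum_mul_sum_of_sq_eq_mul
      · intro j _; exact Nat.cast_nonneg _
      · intro j _; positivity
      · intro j hj
        have hLj : (0 : ℝ) < L j := by exact_mod_cast hL j hj
        field_simp
    exact (pow_le_pow_left₀ (norm_nonneg _) h2 2).trans h3
  calc ∑ t ∈ W, ‖∑ n ∈ Icc M (2 * M), b n * ph t n‖ ^ 2
      ≤ ∑ t ∈ W, (∑ j ∈ J, (L j : ℝ)) * ∑ j ∈ J, ‖∑ n ∈ P j, bj j n * ph t n‖ ^ 2 / L j :=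
        sum_le_sum fun t _ => hcs t
    _ = (∑ j ∈ J, (L j : ℝ)) * ∑ j ∈ J, (∑ t ∈ W, ‖∑ n ∈ P j, bj j n * ph t n‖ ^ 2) / L j := by
        rw [← mul_sum, sum_comm]
        congr 1
        apply sum_congr rfl
        intro j _
        rw [sum_div]
    _ ≤ (∑ j ∈ J, (L j : ℝ)) * ∑ j ∈ J, l * ∑ n ∈ P j, ‖bj j n‖ ^ 2 := by
        apply mul_le_mul_of_nonneg_left _ hSL
        apply sum_le_sum
        intro j hj
        have hLj : (0 : ℝ) < L j := by exact_mod_cast hL j hj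
        rw [div_le_iff₀ hLj]
        refine (h1 j hj (bj j)).trans (le_of_eq ?_)
        ring
    _ = (∑ j ∈ J, (L j : ℝ)) * l * ∑ j ∈ J, ∑ n ∈ P j, ‖bj j n‖ ^ 2 := by
        rw [← mul_sum]; ring
    _ ≤ _ := by
        apply mul_le_mul_of_nonneg_left hl2
        positivity

/-- a few more integers in the support -/
theorem withE {M : ℕ} {C : ℝ} (hM : 1 ≤ M) (hC : 1 ≤ C) (Cov : ℕ → Prop) (E : Finset ℕ) (W : Finset ℝ)
    (hE : (E.card : ℝ) ^ 2 ≤ 2 * M)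
    (h : ∀ b : ℕ → ℂ, (∀ n ∈ Icc M (2 * M), b n ≠ 0 → Cov n) → (∀ n, ‖b n‖ ≤ 1) →
      ∑ t ∈ W, ‖∑ n ∈ Icc M (2 * M), b n * ph t n‖ ^ 2 ≤ C * ((M : ℝ) + W.card) * M)
    (b : ℕ → ℂ) (hs : ∀ n ∈ Icc M (2 * M), b n ≠ 0 → n ∈ E ∨ Cov n) (hb : ∀ n, ‖b n‖ ≤ 1) :
    ∑ t ∈ W, ‖∑ n ∈ Icc M (2 * M), b n * ph t n‖ ^ 2 ≤ (2 * C + 4) * ((M : ℝ) + W.card) * M := by
  classical
  have hM1 : (1 : ℝ) ≤ M := by exact_mod_cast hM
  set b1 : ℕ → ℂ := fun n => if n ∈ E then 0 else b n with hb1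
  set b2 : ℕ → ℂ := fun n => if n ∈ E then b n else 0 with hb2
  have hb12 : ∀ n, b n = b1 n + b2 n := by
    intro n
    simp only [hb1, hb2]
    split_ifs <;> simp
  have hbn1 : ∀ n, ‖b1 n‖ ≤ 1 := by
    intro n
    simp only [hb1]
    split_ifs
    · simp
    · exact hb n
  have h1 := h b1 (by
    intro n hn hne
    simp only [hb1] at hne
    split_ifs at hne with hnE
    · exact absurd rfl hne
    · rcases hs n hn hne with h1 | h1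
      · exact absurd h1 hnE
      · exact h1) hbn1
  have h2 : ∀ t : ℝ, ‖∑ n ∈ Icc M (2 * M), b2 n * ph t n‖ ^ 2 ≤ 2 * M := by
    intro t
    have h3 : ‖∑ n ∈ Icc M (2 * M), b2 n * ph t n‖ ≤ E.card := by
      calc ‖∑ n ∈ Icc M (2 * M), b2 n * ph t n‖ ≤ ∑ n ∈ Icc M (2 * M), ‖b2 n * ph t n‖ := norm_sum_le _ _
        _ ≤ ∑ n ∈ Icc M (2 * M), (if n ∈ E then (1 : ℝ) else 0) := by
            apply sum_le_sum
            intro n _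
            rw [norm_mul, ph_norm, mul_one]
            simp only [hb2]
            split_ifs
            · exact hb n
            · simp
        _ = (((Icc M (2 * M)).filter (fun n => n ∈ E)).card : ℝ) := by
            rw [← sum_filter]; simp
        _ ≤ E.card := by
            have : (Icc M (2 * M)).filter (fun n => n ∈ E) ⊆ E := fun n hn => (mem_filter.1 hn).2
            exact_mod_cast card_le_card this
    exact (pow_le_pow_left₀ (norm_nonneg _) h3 2).trans hE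
  have h3 : ∀ t : ℝ, ‖∑ n ∈ Icc M (2 * M), b n * ph t n‖ ^ 2 ≤
      2 * ‖∑ n ∈ Icc M (2 * M), b1 n * ph t n‖ ^ 2 + 2 * (2 * M) := by
    intro t
    have e : ∑ n ∈ Icc M (2 * M), b n * ph t n =
        ∑ n ∈ Icc M (2 * M), b1 n * ph t n + ∑ n ∈ Icc M (2 * M), b2 n * ph t n := by
      rw [← sum_add_distrib]
      apply sum_congr rfl
      intro n _
      rw [hb12 n]; ring
    rw [e]
    have h4 := norm_add_le (∑ n ∈ Icc M (2 * M), b1 n * ph t n) (∑ n ∈ Icc M (2 * M), b2 n * ph t n)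
    have h5 := h2 t
    set u := ‖∑ n ∈ Icc M (2 * M), b1 n * ph t n‖ with hu
    set v := ‖∑ n ∈ Icc M (2 * M), b2 n * ph t n‖ with hv
    have hu0 : 0 ≤ u := norm_nonneg _
    have hv0 : 0 ≤ v := norm_nonneg _
    have h6 : ‖∑ n ∈ Icc M (2 * M), b1 n * ph t n + ∑ n ∈ Icc M (2 * M), b2 n * ph t n‖ ^ 2 ≤ (u + v) ^ 2 :=
      pow_le_pow_left₀ (norm_nonneg _) h4 2
    nlinarith [sq_nonneg (u - v)]
  have h4 : ∑ t ∈ W, ‖∑ n ∈ Icc M (2 * M), b n * ph t n‖ ^ 2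
      ≤ ∑ t ∈ W, (2 * ‖∑ n ∈ Icc M (2 * M), b1 n * ph t n‖ ^ 2 + 2 * (2 * M)) :=
        sum_le_sum fun t _ => h3 t
  have h5 : ∑ t ∈ W, (2 * ‖∑ n ∈ Icc M (2 * M), b1 n * ph t n‖ ^ 2 + 2 * (2 * (M : ℝ))) =
      2 * ∑ t ∈ W, ‖∑ n ∈ Icc M (2 * M), b1 n * ph t n‖ ^ 2 + W.card * (2 * (2 * M)) := by
    have e1 : ∀ (r : ℝ) (G : ℝ → ℝ), ∑ t ∈ W, (2 * G t + r) = 2 * ∑ t ∈ W, G t + W.card * r := by
      intro r G
      rw [sum_add_distrib, ← mul_sum, sum_const, nsmul_eq_mul]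
    exact e1 _ (fun t => ‖∑ n ∈ Icc M (2 * M), b1 n * ph t n‖ ^ 2)
  rw [h5] at h4
  refine h4.trans ?_
  clear h4 h5
  have h6 : 0 ≤ (M : ℝ) * M := by positivity
  have h7 : 0 ≤ (W.card : ℝ) * M := mul_nonneg (Nat.cast_nonneg _) (Nat.cast_nonneg _)
  have h8 : (2 * C + 4) * ((M : ℝ) + W.card) * M =
      2 * (C * ((M : ℝ) + W.card) * M) + W.card * (2 * (2 * M)) + 4 * (M * M) := by ring
  rw [h8]
  linarith

/-- the family of progressions -/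
def Fam (M : ℕ) (η c : ℝ) (J : Finset ℕ) (m d L : ℕ → ℕ) : Prop :=
  (∀ j ∈ J, M ≤ m j ∧ 1 ≤ d j ∧ 2 ≤ L j ∧ m j + d j * (L j - 1) ≤ 2 * M ∧
    (M : ℝ) ^ (1 + η) ≤ d j * (L j : ℝ) ^ 3) ∧
  ∑ j ∈ J, (L j : ℝ) ≤ 2 * (M : ℝ) ^ (1 / 2 + c)

/-- `n` lies in one of the progressions -/
def Cov (J : Finset ℕ) (m d L : ℕ → ℕ) (n : ℕ) : Prop := ∃ j ∈ J, ∃ i < L j, n = m j + d j * i

/-- **The mean value.** -/
theorem main (A η : ℝ) (hA : 1 ≤ A) (hη : 0 < η) (hη1 : η ≤ 1) :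
    ∃ c C : ℝ, 0 < c ∧ c ≤ 1 / 4 ∧ 1 ≤ C ∧ ∀ (M : ℕ) (J : Finset ℕ) (m d L : ℕ → ℕ), 1 ≤ M →
      Fam M η c J m d L → ∀ (T x : ℝ) (W : Finset ℝ) (b : ℕ → ℂ), T ≤ (2 * M : ℝ) ^ A → Sep W →
      (∀ t ∈ W, x ≤ t ∧ t ≤ x + T) → (∀ n ∈ Icc M (2 * M), b n ≠ 0 → Cov J m d L n) →
      (∑ t ∈ W, ‖∑ n ∈ Icc M (2 * M), b n * ph t n‖ ^ 2 ≤
        C * ((M : ℝ) ^ (3 / 2 - c) + W.card * (M : ℝ) ^ (1 / 2 - c)) * ∑ n ∈ Icc M (2 * M), ‖b n‖ ^ 2) ∧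
      ((∀ n, ‖b n‖ ≤ 1) → ∑ t ∈ W, ‖∑ n ∈ Icc M (2 * M), b n * ph t n‖ ^ 2 ≤
        C * ((M : ℝ) + W.card) * M) := by
  obtain ⟨δ, C0, hδ, hδ1, hC0, hone⟩ := one A η hA hη hη1
  set c : ℝ := min (η / 8) (δ / 2) with hc
  have hc0 : 0 < c := by rw [hc]; positivity
  have hc1 : c ≤ η / 8 := min_le_left _ _
  have hc2 : c ≤ δ / 2 := min_le_right _ _
  refine ⟨c, 4 * C0, hc0, by linarith, by linarith, ?_⟩
  intro M J m d L hM hF T x W b hT hW hWT hs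
  obtain ⟨hF1, hF2⟩ := hF
  have hM1 : (1 : ℝ) ≤ M := by exact_mod_cast hM
  have hM0 : (0 : ℝ) < M := by linarith
  have hpow : ∀ x y : ℝ, x ≤ y → (M : ℝ) ^ x ≤ (M : ℝ) ^ y :=
    fun x y h => Real.rpow_le_rpow_of_exponent_le hM1 h
  have hSL : 0 ≤ ∑ j ∈ J, (L j : ℝ) := sum_nonneg fun _ _ => Nat.cast_nonneg _
  obtain ⟨l, hl⟩ : ∃ l : ℝ, l = C0 * ((M : ℝ) ^ (1 - η / 4) + W.card * (M : ℝ) ^ (-δ)) := ⟨_, rfl⟩
  have hl0 : 0 ≤ l := by rw [hl]; positivity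
  have h1 := assemble M J m d L W l hl0 (fun j hj => by have := (hF1 j hj).2.2.1; omega) (by
    intro j hj i hi
    obtain ⟨a1, a2, a3, a4, a5⟩ := hF1 j hj
    rw [mem_Icc]
    have h2 : d j * i ≤ d j * (L j - 1) := Nat.mul_le_mul_left _ (by omega)
    constructor <;> omega) (by
    intro j hj b'
    obtain ⟨a1, a2, a3, a4, a5⟩ := hF1 j hj
    refine (hone M (m j) (d j) (L j) hM a1 a2 a3 a4 a5 T x W hT hW hWT b').trans (le_of_eq ?_)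
    rw [hl]; ring) b hs
  have hG0 : 0 ≤ ∑ n ∈ Icc M (2 * M), ‖b n‖ ^ 2 := sum_nonneg fun _ _ => by positivity
  -- the bound with the `ℓ²` norm
  have h2 : (∑ j ∈ J, (L j : ℝ)) * l ≤
      2 * C0 * ((M : ℝ) ^ (3 / 2 - c) + W.card * (M : ℝ) ^ (1 / 2 - c)) := by
    have e1 : (M : ℝ) ^ (1 / 2 + c) * (M : ℝ) ^ (1 - η / 4) ≤ (M : ℝ) ^ (3 / 2 - c) := by
      rw [← Real.rpow_add hM0]; apply hpow; linarith
    have e2 : (M : ℝ) ^ (1 / 2 + c) * (M : ℝ) ^ (-δ) ≤ (M : ℝ) ^ (1 / 2 - c) := by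
      rw [← Real.rpow_add hM0]; apply hpow; linarith
    calc (∑ j ∈ J, (L j : ℝ)) * l ≤ (2 * (M : ℝ) ^ (1 / 2 + c)) * l := by gcongr
      _ = 2 * C0 * ((M : ℝ) ^ (1 / 2 + c) * (M : ℝ) ^ (1 - η / 4) +
          W.card * ((M : ℝ) ^ (1 / 2 + c) * (M : ℝ) ^ (-δ))) := by rw [hl]; ring
      _ ≤ _ := by gcongr
  constructor
  · refine h1.trans ?_
    apply mul_le_mul_of_nonneg_right _ hG0
    refine h2.trans ?_
    have h3 : 0 ≤ (M : ℝ) ^ (3 / 2 - c) + W.card * (M : ℝ) ^ (1 / 2 - c) := by positivity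
    nlinarith [mul_nonneg (by linarith : (0 : ℝ) ≤ C0) h3]
  · intro hb
    have h3 : ∑ n ∈ Icc M (2 * M), ‖b n‖ ^ 2 ≤ 2 * (M : ℝ) ^ (1 / 2 + c) := by
      refine le_trans ?_ hF2
      classical
      have e1 : ∀ n ∈ Icc M (2 * M), ‖b n‖ ^ 2 ≤ ∑ j ∈ J, (if n ∈ AP (m j) (d j) (L j) then (1 : ℝ) else 0) := by
        intro n hn
        have hnn : ∀ j ∈ J, (0 : ℝ) ≤ (if n ∈ AP (m j) (d j) (L j) then (1 : ℝ) else 0) := by
          intro j _; split_ifs <;> norm_num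
        by_cases h0 : b n = 0
        · rw [h0]
          simp only [norm_zero, ne_eq, OfNat.ofNat_ne_zero, not_false_eq_true, zero_pow]
          exact sum_nonneg hnn
        · obtain ⟨j, hj, i, hi, h4⟩ := hs n hn h0
          have h5 := single_le_sum hnn hj
          have h6 : n ∈ AP (m j) (d j) (L j) := mem_AP.2 ⟨i, hi, h4⟩
          rw [if_pos h6] at h5
          exact (pow_le_one₀ (norm_nonneg _) (hb n)).trans h5
      calc ∑ n ∈ Icc M (2 * M), ‖b n‖ ^ 2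
          ≤ ∑ n ∈ Icc M (2 * M), ∑ j ∈ J, (if n ∈ AP (m j) (d j) (L j) then (1 : ℝ) else 0) := sum_le_sum e1
        _ = ∑ j ∈ J, ∑ n ∈ Icc M (2 * M), (if n ∈ AP (m j) (d j) (L j) then (1 : ℝ) else 0) := sum_comm
        _ ≤ ∑ j ∈ J, (L j : ℝ) := by
            apply sum_le_sum
            intro j _
            rw [← sum_filter]
            simp only [sum_const, nsmul_eq_mul, mul_one]
            have h4 : ((Icc M (2 * M)).filter (fun n => n ∈ AP (m j) (d j) (L j))).card ≤ L j := by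
              refine (card_le_card (fun n hn => (mem_filter.1 hn).2)).trans
                (Pool.Agent.R327.SI.card_AP (m j) (d j) (L j))
            exact_mod_cast h4
    have h4 : (∑ j ∈ J, (L j : ℝ)) * l * ∑ n ∈ Icc M (2 * M), ‖b n‖ ^ 2 ≤
        (2 * C0 * ((M : ℝ) ^ (3 / 2 - c) + W.card * (M : ℝ) ^ (1 / 2 - c))) * (2 * (M : ℝ) ^ (1 / 2 + c)) := by
      apply mul_le_mul h2 h3 hG0 (by positivity)
    refine h1.trans (h4.trans (le_of_eq ?_))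
    have e1 : (M : ℝ) ^ (3 / 2 - c) * (M : ℝ) ^ (1 / 2 + c) = M ^ 2 := by
      rw [← Real.rpow_add hM0, ← Real.rpow_natCast (M : ℝ) 2]
      congr 1; push_cast; ring
    have e2 : (M : ℝ) ^ (1 / 2 - c) * (M : ℝ) ^ (1 / 2 + c) = M := by
      rw [← Real.rpow_add hM0]
      have : (1 / 2 - c + (1 / 2 + c) : ℝ) = 1 := by ring
      rw [this, Real.rpow_one]
    calc (2 * C0 * ((M : ℝ) ^ (3 / 2 - c) + W.card * (M : ℝ) ^ (1 / 2 - c))) * (2 * (M : ℝ) ^ (1 / 2 + c))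
        = 4 * C0 * ((M : ℝ) ^ (3 / 2 - c) * (M : ℝ) ^ (1 / 2 + c) +
          W.card * ((M : ℝ) ^ (1 / 2 - c) * (M : ℝ) ^ (1 / 2 + c))) := by ring
      _ = _ := by rw [e1, e2]; ring

/-- the hypothesis for `N` implies the hypothesis for `M`, `M ≤ N ≤ 2M` -/
theorem fam_of {N M : ℕ} {η c : ℝ} {J : Finset ℕ} {m d L : ℕ → ℕ} (hM : 1 ≤ M) (hMN : M ≤ N) (hNM : N ≤ 2 * M)
    (hη : 0 < η) (hc : 0 < c) (hc1 : c ≤ 1 / 4)
    (h0 : ∀ j ∈ J, M ≤ m j ∧ m j + d j * (L j - 1) ≤ 2 * M)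
    (h1 : ∀ j ∈ J, 1 ≤ d j ∧ 2 ≤ L j ∧ (N : ℝ) ^ (1 + η) ≤ d j * (L j : ℝ) ^ 3)
    (h2 : ∑ j ∈ J, (L j : ℝ) ≤ (N : ℝ) ^ (1 / 2 + c)) : Fam M η c J m d L := by
  have hM1 : (1 : ℝ) ≤ M := by exact_mod_cast hM
  have hM0 : (0 : ℝ) < M := by linarith
  have hMN' : (M : ℝ) ≤ N := by exact_mod_cast hMN
  have hNM' : (N : ℝ) ≤ 2 * M := by exact_mod_cast hNM
  constructor
  · intro j hj
    obtain ⟨a1, a2⟩ := h0 j hj
    obtain ⟨b1, b2, b3⟩ := h1 j hj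
    refine ⟨a1, b1, b2, a2, le_trans ?_ b3⟩
    exact Real.rpow_le_rpow hM0.le hMN' (by linarith)
  · refine h2.trans ?_
    calc (N : ℝ) ^ (1 / 2 + c) ≤ (2 * M : ℝ) ^ (1 / 2 + c) :=
          Real.rpow_le_rpow (by linarith) hNM' (by linarith)
      _ = 2 ^ (1 / 2 + c) * (M : ℝ) ^ (1 / 2 + c) := Real.mul_rpow (by norm_num) hM0.le
      _ ≤ 2 * (M : ℝ) ^ (1 / 2 + c) := by
          have : (2 : ℝ) ^ (1 / 2 + c) ≤ 2 := by
            calc (2 : ℝ) ^ (1 / 2 + c) ≤ 2 ^ (1 : ℝ) :=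
                  Real.rpow_le_rpow_of_exponent_le (by norm_num) (by linarith)
              _ = 2 := Real.rpow_one _
          gcongr

/-- the mean value on `[N, 2N]` -/
theorem onTwo (A η : ℝ) (hA : 1 ≤ A) (hη : 0 < η) (hη1 : η ≤ 1) :
    ∃ c C : ℝ, 0 < c ∧ 1 ≤ C ∧ ∀ (N : ℕ) (J : Finset ℕ) (m d L : ℕ → ℕ) (E : Finset ℕ), 1 ≤ N →
      (∀ j ∈ J, N ≤ m j ∧ m j + d j * (L j - 1) ≤ 2 * N) →
      (∀ j ∈ J, 1 ≤ d j ∧ 2 ≤ L j ∧ (N : ℝ) ^ (1 + η) ≤ d j * (L j : ℝ) ^ 3) →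
      ∑ j ∈ J, (L j : ℝ) ≤ (N : ℝ) ^ (1 / 2 + c) →
      (E.card : ℝ) ≤ (N : ℝ) ^ (1 / 2 : ℝ) → ∀ (T : ℝ) (W : Finset ℝ) (b : ℕ → ℂ),
      T ≤ (N : ℝ) ^ A → Sep W → (∀ t ∈ W, 0 ≤ t ∧ t ≤ T) →
      (∀ n ∈ Icc N (2 * N), b n ≠ 0 → n ∈ E ∨ Cov J m d L n) → (∀ n, ‖b n‖ ≤ 1) →
      ∑ t ∈ W, ‖∑ n ∈ Icc N (2 * N), b n * ph t n‖ ^ 2 ≤ C * ((N : ℝ) + W.card) * N := by
  obtain ⟨c, C, hc0, hc1, hC, h⟩ := main A η hA hη hη1
  refine ⟨c, 2 * C + 4, hc0, by linarith, ?_⟩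
  intro N J m d L E hN h0 h1 h2 hE T W b hT hW hWT hs hb
  have hF := fam_of hN le_rfl (by omega) hη hc0 hc1 h0 h1 h2
  exact withE hN hC (Cov J m d L) E W (sq_le E hE (by omega)) (fun b' hs' hb' =>
    (h N J m d L hN hF T 0 W b' (pow_le hA (by omega) hT) hW
      (fun t ht => ⟨(hWT t ht).1, by linarith [(hWT t ht).2]⟩) hs').2 hb') b hs hb

/-- the mean value on `[1, N]`, for `[x, x + T]` -/
theorem onOne (A η : ℝ) (hA : 1 ≤ A) (hη : 0 < η) (hη1 : η ≤ 1) :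
    ∃ c C : ℝ, 0 < c ∧ 1 ≤ C ∧ ∀ (N : ℕ) (J : Finset ℕ) (m d L : ℕ → ℕ) (E : Finset ℕ), 1 ≤ N →
      (∀ j ∈ J, N ≤ 2 * m j ∧ m j + d j * (L j - 1) ≤ N) →
      (∀ j ∈ J, 1 ≤ d j ∧ 2 ≤ L j ∧ (N : ℝ) ^ (1 + η) ≤ d j * (L j : ℝ) ^ 3) →
      ∑ j ∈ J, (L j : ℝ) ≤ (N : ℝ) ^ (1 / 2 + c) →
      (E.card : ℝ) ≤ (N : ℝ) ^ (1 / 2 : ℝ) → ∀ (T x : ℝ) (W : Finset ℝ) (a : ℕ → ℂ),
      T ≤ (N : ℝ) ^ A → Sep W → (∀ t ∈ W, x ≤ t ∧ t ≤ x + T) →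
      (∀ n ∈ Icc 1 N, a n ≠ 0 → N ≤ 2 * n ∧ (n ∈ E ∨ Cov J m d L n)) →
      ((∀ n, ‖a n‖ ≤ 1) →
        ∑ t ∈ W, ‖∑ n ∈ Icc 1 N, a n * ph t n‖ ^ 2 ≤ C * ((N : ℝ) + W.card) * N) ∧
      (E = ∅ → ∑ t ∈ W, ‖∑ n ∈ Icc 1 N, a n * ph t n‖ ^ 2 ≤
        C * ((N : ℝ) ^ (3 / 2 - c) + W.card * (N : ℝ) ^ (1 / 2 - c)) * ∑ n ∈ Icc 1 N, ‖a n‖ ^ 2) := by
  classical
  obtain ⟨c, C, hc0, hc1, hC, h⟩ := main A η hA hη hη1
  refine ⟨c, 2 * C + 4, hc0, by linarith, ?_⟩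
  intro N J m d L E hN h0 h1 h2 hE T x W a hT hW hWT hs
  set M := (N + 1) / 2 with hM
  have hM1 : 1 ≤ M := by omega
  have hMN : M ≤ N := by omega
  have hNM : N ≤ 2 * M := by omega
  have hMr : (1 : ℝ) ≤ M := by exact_mod_cast hM1
  have hMNr : (M : ℝ) ≤ N := by exact_mod_cast hMN
  have hF : Fam M η c J m d L := fam_of hM1 hMN hNM hη hc0 hc1 (by
    intro j hj
    obtain ⟨a1, a2⟩ := h0 j hj
    constructor <;> omega) h1 h2
  set b : ℕ → ℂ := fun n => if n ≤ N then a n else 0 with hb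
  have hbs : ∀ n ∈ Icc M (2 * M), b n ≠ 0 → n ∈ Icc 1 N ∧ a n ≠ 0 := by
    intro n hn hne
    simp only [hb] at hne
    split_ifs at hne with h
    · rw [mem_Icc] at hn ⊢
      exact ⟨⟨by omega, h⟩, hne⟩
    · exact absurd rfl hne
  have hlift : ∀ t : ℝ, ∑ n ∈ Icc 1 N, a n * ph t n = ∑ n ∈ Icc M (2 * M), b n * ph t n := by
    intro t
    exact lift N hN a (fun n => ph t n) (fun n hn hne => (hs n hn hne).1)
  simp only [hlift]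
  constructor
  · intro ha
    have h3 := withE hM1 hC (Cov J m d L) E W (sq_le E hE hNM) (fun b' hs' hb' =>
      (h M J m d L hM1 hF T x W b' (pow_le hA hNM hT) hW hWT hs').2 hb') b (by
      intro n hn hne
      obtain ⟨h4, h5⟩ := hbs n hn hne
      exact (hs n h4 h5).2) (by
      intro n
      simp only [hb]
      split_ifs
      · exact ha n
      · simp)
    refine h3.trans ?_
    have h6 : 0 ≤ 2 * C + 4 := by linarith
    gcongr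
  · intro hEe
    have h3 := (h M J m d L hM1 hF T x W b (pow_le hA hNM hT) hW hWT (by
      intro n hn hne
      obtain ⟨h4, h5⟩ := hbs n hn hne
      rcases (hs n h4 h5).2 with h6 | h6
      · rw [hEe] at h6
        exact absurd h6 (notMem_empty n)
      · exact h6)).1
    refine h3.trans ?_
    have h5 : C ≤ 2 * C + 4 := by linarith
    have h7 : ∑ n ∈ Icc M (2 * M), ‖b n‖ ^ 2 ≤ ∑ n ∈ Icc 1 N, ‖a n‖ ^ 2 := by
      have e1 : ∑ n ∈ Icc M (2 * M), ‖b n‖ ^ 2 =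
          ∑ n ∈ (Icc M (2 * M)).filter (fun n => n ≤ N), ‖a n‖ ^ 2 := by
        rw [sum_filter]
        apply sum_congr rfl
        intro n _
        simp only [hb]
        split_ifs <;> simp
      rw [e1]
      apply sum_le_sum_of_subset_of_nonneg
      · intro n hn
        rw [mem_filter, mem_Icc] at hn
        rw [mem_Icc]
        omega
      · intros; positivity
    have h8 : (M : ℝ) ^ (3 / 2 - c) ≤ (N : ℝ) ^ (3 / 2 - c) :=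
      Real.rpow_le_rpow (by linarith) hMNr (by linarith)
    have h9 : (M : ℝ) ^ (1 / 2 - c) ≤ (N : ℝ) ^ (1 / 2 - c) :=
      Real.rpow_le_rpow (by linarith) hMNr (by linarith)
    have h10 : 0 ≤ ∑ n ∈ Icc M (2 * M), ‖b n‖ ^ 2 := sum_nonneg fun _ _ => by positivity
    have h11 : 0 ≤ C := by linarith
    gcongr

end Pool.Agent.R516.MP
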