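import Pool.Agent.R327.SIFin

/-!
Sums of `(b d^k)^{it}` over all `d` with `M ≤ b d^k ≤ 2M`: a power of `M` is saved if `b` is at most
`2 M^(1-μ)` and `M ≤ |t| ≤ (2M)^A`.
-/

set_option autoImplicit false

namespace Pool.Agent.R516.MS

open Finset
open Pool.Agent.H469R2.NK (e norm_e)
open Pool.Agent.H442R2.EHI (EL SL)
open Pool.Agent.TH705.DL (ph ph_norm ph_conj ph_eq Sep)
open Pool.Agent.R327.SI (test CK CK_pos toSL ker_abs ker_triv pow_quot lg_pow)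

/-- a power of `D` is saved -/
theorem ker0 (q : ℕ) (hq : 1 ≤ q) (C1 : ℝ) (hC1 : 1 ≤ C1) : ∃ C : ℝ, 1 ≤ C ∧ ∀ D L : ℕ, 1 ≤ D → L ≤ 2 * D →
    ∀ Z : ℝ, 0 < Z → Z ≤ C1 * (D : ℝ) ^ q → (D : ℝ) ≤ C1 * Z →
      ‖SL Z D L []‖ ≤ C * (D : ℝ) ^ (1 - 1 / (2 * q * 2 ^ q) : ℝ) := by
  have hq' : (1 : ℝ) ≤ q := by exact_mod_cast hq
  obtain ⟨C2, hC2, hlg⟩ := lg_pow q (1 / (2 * q)) (by linarith) (by positivity)
  have hCK := CK_pos q
  set K : ℝ := CK q * C2 * 2 ^ (2 ^ q) * (3 * C1) with hK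
  have hK1 : 1 ≤ K := by
    rw [hK]
    have h1 : (1 : ℝ) ≤ 2 ^ (2 ^ q) := one_le_pow₀ (by norm_num)
    exact one_le_mul_of_one_le_of_one_le (one_le_mul_of_one_le_of_one_le
      (one_le_mul_of_one_le_of_one_le hCK hC2) h1) (by linarith)
  refine ⟨K, hK1, ?_⟩
  intro D L hD hL Z hZ hZ1 hZ2
  have hD1 : (1 : ℝ) ≤ D := by exact_mod_cast hD
  have hD0 : (0 : ℝ) < D := by linarith
  rcases Nat.eq_zero_or_pos L with h0 | hLpos
  · subst h0
    have : ‖SL Z D 0 []‖ = 0 := by unfold SL; simp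
    rw [this]
    positivity
  have hL1 : (1 : ℝ) ≤ L := by exact_mod_cast hLpos
  have hL0 : (0 : ℝ) < L := by linarith
  have hLD : (L : ℝ) ≤ 2 * D := by exact_mod_cast hL
  have ht := test q hq Z hZ D D L hD hLpos le_rfl (by linarith)
  have hw : q + 1 ≤ 2 ^ q := Nat.succ_le_of_lt Nat.lt_two_pow_self
  have hw1 : 1 ≤ 2 ^ q := Nat.one_le_two_pow
  have hD2 : (1 : ℝ) ≤ 2 * D := by linarith
  set n2 : ℕ := 2 ^ q with hn2
  have hlogL : 0 ≤ Real.log L := Real.log_nonneg hL1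
  have hlogD : 0 ≤ Real.log (2 * (D : ℝ)) := Real.log_nonneg hD2
  -- the power of the logarithm
  have hlgL : (1 + Real.log L) ^ q ≤ C2 * (D : ℝ) ^ (1 / (2 * q) : ℝ) := by
    have h1 := hlg D hD
    rw [Real.rpow_natCast] at h1
    refine le_trans (pow_le_pow_left₀ (by linarith) ?_ q) h1
    have := Real.log_le_log hL0 hLD
    linarith
  -- the three terms
  have e1 : (L : ℝ) ^ n2 * (1 / L) ≤ (2 * D : ℝ) ^ n2 * (C1 * (D : ℝ) ^ (-(1 / q) : ℝ)) := by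
    have h1 := pow_quot hL0 hLD (k := 1) (w := n2) (by omega)
    rw [pow_one, pow_one] at h1
    have h2 : 1 / (2 * (D : ℝ)) ≤ C1 * (D : ℝ) ^ (-(1 / q) : ℝ) := by
      calc 1 / (2 * (D : ℝ)) ≤ 1 / D := by
            apply one_div_le_one_div_of_le hD0; linarith
        _ = (D : ℝ) ^ (-1 : ℝ) := by rw [Real.rpow_neg_one, one_div]
        _ ≤ (D : ℝ) ^ (-(1 / q) : ℝ) := by
            apply Real.rpow_le_rpow_of_exponent_le hD1
            have : (1 : ℝ) / q ≤ 1 := by rw [div_le_one (by linarith)]; exact hq'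
            linarith
        _ ≤ _ := le_mul_of_one_le_left (by positivity) hC1
    calc (L : ℝ) ^ n2 * (1 / L) = (L : ℝ) ^ n2 / L := by ring
      _ ≤ (2 * D : ℝ) ^ n2 / (2 * D) := h1
      _ = (2 * D : ℝ) ^ n2 * (1 / (2 * D)) := by ring
      _ ≤ _ := by gcongr
  have e2 : (L : ℝ) ^ n2 * (Z / (D : ℝ) ^ (q + 1)) ^ ((1 : ℝ) / q) ≤
      (2 * D : ℝ) ^ n2 * (C1 * (D : ℝ) ^ (-(1 / q) : ℝ)) := by
    have h1 : Z / (D : ℝ) ^ (q + 1) ≤ C1 * (D : ℝ) ^ (-1 : ℝ) := by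
      rw [div_le_iff₀ (by positivity), Real.rpow_neg_one]
      calc Z ≤ C1 * (D : ℝ) ^ q := hZ1
        _ = _ := by rw [pow_succ]; field_simp
    have h2 : (Z / (D : ℝ) ^ (q + 1)) ^ ((1 : ℝ) / q) ≤ C1 * (D : ℝ) ^ (-(1 / q) : ℝ) := by
      calc (Z / (D : ℝ) ^ (q + 1)) ^ ((1 : ℝ) / q) ≤ (C1 * (D : ℝ) ^ (-1 : ℝ)) ^ ((1 : ℝ) / q) :=
            Real.rpow_le_rpow (by positivity) h1 (by positivity)
        _ = C1 ^ ((1 : ℝ) / q) * (D : ℝ) ^ (-(1 / q) : ℝ) := by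
            rw [Real.mul_rpow (by linarith) (by positivity), ← Real.rpow_mul hD0.le]
            congr 2; ring
        _ ≤ C1 * (D : ℝ) ^ (-(1 / q) : ℝ) := by
            gcongr
            calc C1 ^ ((1 : ℝ) / q) ≤ C1 ^ (1 : ℝ) := by
                  apply Real.rpow_le_rpow_of_exponent_le hC1
                  rw [div_le_one (by linarith)]; exact hq'
              _ = C1 := Real.rpow_one _
    gcongr
  have e3 : (L : ℝ) ^ n2 * ((D : ℝ) ^ (q + 1) / (Z * (L : ℝ) ^ (q + 1))) ≤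
      (2 * D : ℝ) ^ n2 * (C1 * (D : ℝ) ^ (-(1 / q) : ℝ)) := by
    have h1 := pow_quot hL0 hLD (k := q + 1) (w := n2) hw
    have h2 : 1 / Z ≤ C1 * (D : ℝ) ^ (-(1 / q) : ℝ) := by
      calc 1 / Z ≤ C1 * (D : ℝ) ^ (-1 : ℝ) := by
            rw [div_le_iff₀ hZ, Real.rpow_neg_one]
            calc (1 : ℝ) = (D : ℝ)⁻¹ * D := by field_simp
              _ ≤ (D : ℝ)⁻¹ * (C1 * Z) := by gcongr
              _ = _ := by ring
        _ ≤ C1 * (D : ℝ) ^ (-(1 / q) : ℝ) := by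
            gcongr
            rw [div_le_one (by linarith)]; exact hq'
    calc (L : ℝ) ^ n2 * ((D : ℝ) ^ (q + 1) / (Z * (L : ℝ) ^ (q + 1)))
        = ((L : ℝ) ^ n2 / (L : ℝ) ^ (q + 1)) * ((D : ℝ) ^ (q + 1) * (1 / Z)) := by field_simp
      _ ≤ ((2 * D : ℝ) ^ n2 / (2 * D : ℝ) ^ (q + 1)) * ((D : ℝ) ^ (q + 1) *
          (C1 * (D : ℝ) ^ (-(1 / q) : ℝ))) := by gcongr
      _ = (2 * D : ℝ) ^ n2 * (C1 * (D : ℝ) ^ (-(1 / q) : ℝ)) * (1 / 2 ^ (q + 1)) := by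
          rw [mul_pow 2 (D : ℝ) (q + 1)]
          field_simp
      _ ≤ (2 * D : ℝ) ^ n2 * (C1 * (D : ℝ) ^ (-(1 / q) : ℝ)) * 1 := by
          have : (1 : ℝ) / 2 ^ (q + 1) ≤ 1 := by
            rw [div_le_one (by positivity)]
            exact one_le_pow₀ (by norm_num)
          gcongr
      _ = _ := mul_one _
  have hmain : ‖SL Z D L []‖ ^ n2 ≤ K * (D : ℝ) ^ ((n2 : ℝ) - 1 / (2 * q)) := by
    have h1 : ‖SL Z D L []‖ ^ n2 = (L : ℝ) ^ n2 * (‖SL Z D L []‖ / L) ^ n2 := by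
      rw [div_pow]; field_simp
    rw [h1]
    calc (L : ℝ) ^ n2 * (‖SL Z D L []‖ / L) ^ n2
        ≤ (L : ℝ) ^ n2 * (CK q * (1 + Real.log L) ^ q *
      (1 / L + (Z / (D : ℝ) ^ (q + 1)) ^ ((1 : ℝ) / q) + (D : ℝ) ^ (q + 1) / (Z * (L : ℝ) ^ (q + 1)))) := by
          gcongr
      _ = CK q * (1 + Real.log L) ^ q * ((L : ℝ) ^ n2 * (1 / L) +
          (L : ℝ) ^ n2 * (Z / (D : ℝ) ^ (q + 1)) ^ ((1 : ℝ) / q) +
          (L : ℝ) ^ n2 * ((D : ℝ) ^ (q + 1) / (Z * (L : ℝ) ^ (q + 1)))) := by ring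
      _ ≤ CK q * (C2 * (D : ℝ) ^ (1 / (2 * q) : ℝ)) *
          ((2 * D : ℝ) ^ n2 * (C1 * (D : ℝ) ^ (-(1 / q) : ℝ)) +
          (2 * D : ℝ) ^ n2 * (C1 * (D : ℝ) ^ (-(1 / q) : ℝ)) +
          (2 * D : ℝ) ^ n2 * (C1 * (D : ℝ) ^ (-(1 / q) : ℝ))) := by
          gcongr
      _ = K * ((D : ℝ) ^ (1 / (2 * q) : ℝ) * ((D : ℝ) ^ n2 * (D : ℝ) ^ (-(1 / q) : ℝ))) := by
          rw [hK, mul_pow]; ring
      _ = _ := by
          rw [← Real.rpow_natCast (D : ℝ) n2, ← Real.rpow_add hD0, ← Real.rpow_add hD0]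
          congr 2
          have : (q : ℝ) ≠ 0 := by positivity
          field_simp
          ring
  have hfin : ‖SL Z D L []‖ ^ n2 ≤ (K * (D : ℝ) ^ (1 - 1 / (2 * q * 2 ^ q) : ℝ)) ^ n2 := by
    refine hmain.trans ?_
    rw [mul_pow, ← Real.rpow_natCast ((D : ℝ) ^ (1 - 1 / (2 * q * 2 ^ q) : ℝ)) n2, ← Real.rpow_mul hD0.le]
    have h1 : (1 - 1 / (2 * q * 2 ^ q) : ℝ) * n2 = (n2 : ℝ) - 1 / (2 * q) := by
      rw [hn2]; push_cast; field_simp
    rw [h1]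
    have h2 : K ≤ K ^ n2 := by
      calc K = K ^ 1 := (pow_one K).symm
        _ ≤ _ := pow_le_pow_right₀ hK1 hw1
    gcongr
  exact le_of_pow_le_pow_left₀ (by omega) (by positivity) hfin

/-- the integers `d` with `M ≤ b d^k ≤ 2M` -/
def I (M b k : ℕ) : Finset ℕ := (range (2 * M + 1)).filter (fun d => M ≤ b * d ^ k ∧ b * d ^ k ≤ 2 * M)

theorem I_Ico (M b k : ℕ) (hM : 1 ≤ M) (hb : 1 ≤ b) (hk : 1 ≤ k) :
    ∃ D L : ℕ, 1 ≤ D ∧ L ≤ 2 * D ∧ I M b k = Ico D (D + L) ∧ M ≤ b * D ^ k ∧ b * (D - 1) ^ k < M := by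
  classical
  have hex : ∃ d, M ≤ b * d ^ k := ⟨M, by
    calc M = 1 * M ^ 1 := by simp
      _ ≤ b * M ^ k := Nat.mul_le_mul hb (Nat.pow_le_pow_right hM hk)⟩
  have hex2 : ∃ d, 2 * M < b * d ^ k := ⟨2 * M + 1, by
    calc 2 * M < 1 * (2 * M + 1) ^ 1 := by simp
      _ ≤ b * (2 * M + 1) ^ k := Nat.mul_le_mul hb (Nat.pow_le_pow_right (by omega) hk)⟩
  set D := Nat.find hex with hD
  set E := Nat.find hex2 with hE
  have hD1 : M ≤ b * D ^ k := Nat.find_spec hex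
  have hE1 : 2 * M < b * E ^ k := Nat.find_spec hex2
  have hDmin : ∀ d, d < D → b * d ^ k < M := fun d hd => not_le.1 (Nat.find_min hex hd)
  have hEmin : ∀ d, d < E → b * d ^ k ≤ 2 * M := fun d hd => not_lt.1 (Nat.find_min hex2 hd)
  have hDpos : 1 ≤ D := by
    by_contra h
    have h0 : D = 0 := by omega
    rw [h0, zero_pow (by omega), mul_zero] at hD1
    omega
  have hmono : ∀ d d', d ≤ d' → b * d ^ k ≤ b * d' ^ k := fun d d' h =>
    Nat.mul_le_mul_left b (Nat.pow_le_pow_left h k)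
  have hED : E ≤ 2 * D + 1 := by
    by_contra h
    have h1 := hEmin (2 * D + 1) (by omega)
    have h2 : 2 * (b * D ^ k) ≤ b * (2 * D) ^ k := by
      have h3 : 2 ≤ 2 ^ k := by
        calc 2 = 2 ^ 1 := by norm_num
          _ ≤ 2 ^ k := Nat.pow_le_pow_right (by norm_num) hk
      calc 2 * (b * D ^ k) ≤ 2 ^ k * (b * D ^ k) := Nat.mul_le_mul_right _ h3
        _ = _ := by rw [mul_pow]; ring
    have h3 : b * (2 * D) ^ k < b * (2 * D + 1) ^ k :=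
      Nat.mul_lt_mul_of_pos_left (Nat.pow_lt_pow_left (by omega) (by omega)) (by omega)
    omega
  refine ⟨D, E - D, hDpos, by omega, ?_, hD1, hDmin (D - 1) (by omega)⟩
  ext d
  simp only [I, mem_filter, mem_range, mem_Ico]
  constructor
  · rintro ⟨_, h2, h3⟩
    have h4 : D ≤ d := by
      by_contra h
      have := hDmin d (by omega)
      omega
    have h5 : d < E := by
      by_contra h
      have := hmono E d (by omega)
      omega
    omega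
  · rintro ⟨h1, h2⟩
    have h3 : d < E := by omega
    have h4 := hEmin d h3
    have h5 := hmono D d h1
    refine ⟨?_, by omega, h4⟩
    have h6 : d ≤ b * d ^ k := by
      calc d = 1 * d ^ 1 := by simp
        _ ≤ b * d ^ k := by
          rcases Nat.eq_zero_or_pos d with h0 | h0
          · subst h0; simp
          · exact Nat.mul_le_mul hb (Nat.pow_le_pow_right h0 hk)
    omega

theorem ph_mul (t : ℝ) (a b : ℕ) (ha : 1 ≤ a) (hb : 1 ≤ b) : ph t (a * b) = ph t a * ph t b := by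
  have ha0 : (0 : ℝ) < a := by exact_mod_cast ha
  have hb0 : (0 : ℝ) < b := by exact_mod_cast hb
  rw [ph_eq, ph_eq, ph_eq, ← Complex.exp_add]
  congr 1
  push_cast
  rw [Real.log_mul (by positivity) (by positivity)]
  push_cast
  ring

theorem ph_pow (t : ℝ) (a k : ℕ) : ph t (a ^ k) = ph (k * t) a := by
  rw [ph_eq, ph_eq]
  congr 2
  push_cast
  rw [Real.log_pow]
  push_cast
  ring

/-- **The kernel.** -/
theorem ker (A μ : ℝ) (K : ℕ) (hA : 1 ≤ A) (hμ : 0 < μ) (hμ1 : μ ≤ 1) (hK : 1 ≤ K) :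
    ∃ δ C : ℝ, 0 < δ ∧ 1 ≤ C ∧ ∀ M b k : ℕ, 1 ≤ M → 1 ≤ b → 1 ≤ k → k ≤ K →
      (b : ℝ) ≤ 2 * (M : ℝ) ^ (1 - μ) → ∀ t : ℝ, (M : ℝ) ≤ |t| → |t| ≤ (2 * M : ℝ) ^ A →
      ‖∑ d ∈ I M b k, ph t (b * d ^ k)‖ ≤ C * ((M : ℝ) / b) ^ ((1 : ℝ) / k) * (M : ℝ) ^ (-δ) := by
  obtain ⟨q, hq⟩ : ∃ q : ℕ, q = ⌈A * K / μ⌉₊ + 1 := ⟨_, rfl⟩
  have hK' : (1 : ℝ) ≤ K := by exact_mod_cast hK
  have hq1 : 1 ≤ q := by omega
  have hqr : A * K / μ ≤ q := by
    rw [hq]; push_cast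
    have := Nat.le_ceil (A * K / μ)
    linarith
  have hqμ : A ≤ μ / K * q := by
    rw [div_le_iff₀ hμ] at hqr
    rw [div_mul_eq_mul_div, le_div_iff₀ (by linarith)]
    nlinarith
  set C1 : ℝ := 16 + K * 2 ^ A * 2 ^ q with hC1
  have hC1' : 1 ≤ C1 := by
    have : 0 ≤ K * (2 : ℝ) ^ A * 2 ^ q := by positivity
    linarith
  obtain ⟨C, hC, h0⟩ := ker0 q hq1 C1 hC1'
  set δ0 : ℝ := 1 / (2 * q * 2 ^ q) with hδ0
  have hq' : (1 : ℝ) ≤ q := by exact_mod_cast hq1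
  have hδ0pos : 0 < δ0 := by rw [hδ0]; positivity
  have hδ01 : δ0 ≤ 1 := by
    rw [hδ0, div_le_one (by positivity)]
    have : (1 : ℝ) ≤ 2 ^ q := one_le_pow₀ (by norm_num)
    nlinarith
  refine ⟨μ / K * δ0, 6 * C, by positivity, by linarith, ?_⟩
  intro M b k hM hb hk hkK hbM t ht1 ht2
  have hM1 : (1 : ℝ) ≤ M := by exact_mod_cast hM
  have hM0 : (0 : ℝ) < M := by linarith
  have hb1 : (1 : ℝ) ≤ b := by exact_mod_cast hb
  have hb0 : (0 : ℝ) < b := by linarith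
  have hk1 : (1 : ℝ) ≤ k := by exact_mod_cast hk
  have hk0 : (0 : ℝ) < k := by linarith
  have hkK' : (k : ℝ) ≤ K := by exact_mod_cast hkK
  obtain ⟨D, L, hD, hL, hI, hD1, hD2⟩ := I_Ico M b k hM hb hk
  have hDr1 : (1 : ℝ) ≤ D := by exact_mod_cast hD
  have hDr0 : (0 : ℝ) < D := by linarith
  set X : ℝ := ((M : ℝ) / b) ^ ((1 : ℝ) / k) with hX
  have hX0 : 0 < X := by positivity
  have hXk : X ^ k = (M : ℝ) / b := by
    rw [hX, ← Real.rpow_natCast, ← Real.rpow_mul (by positivity), one_div_mul_cancel (by positivity),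
      Real.rpow_one]
  -- `X ≤ D ≤ 3 X`
  have hXD : X ≤ D := by
    apply le_of_pow_le_pow_left₀ (n := k) (by omega) hDr0.le
    rw [hXk, div_le_iff₀ hb0]
    have : (M : ℝ) ≤ (b * D ^ k : ℕ) := by exact_mod_cast hD1
    push_cast at this
    linarith
  have hDX : (D : ℝ) - 1 ≤ X := by
    apply le_of_pow_le_pow_left₀ (n := k) (by omega) hX0.le
    rw [hXk, le_div_iff₀ hb0]
    have : ((b * (D - 1) ^ k : ℕ) : ℝ) ≤ M := by exact_mod_cast hD2.le
    push_cast at this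
    rw [Nat.cast_sub hD] at this
    push_cast at this
    linarith
  have hMμ : (1 : ℝ) ≤ (M : ℝ) ^ μ := Real.one_le_rpow hM1 hμ.le
  have hXlow : (M : ℝ) ^ (μ / K) / 2 ≤ X := by
    have h1 : (M : ℝ) ^ μ / 2 ≤ (M : ℝ) / b := by
      rw [div_le_div_iff₀ (by norm_num) hb0]
      calc (M : ℝ) ^ μ * b ≤ (M : ℝ) ^ μ * (2 * (M : ℝ) ^ (1 - μ)) := by gcongr
        _ = 2 * ((M : ℝ) ^ μ * (M : ℝ) ^ (1 - μ)) := by ring
        _ = M * 2 := by rw [← Real.rpow_add hM0, show μ + (1 - μ) = 1 by ring, Real.rpow_one]; ring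
    calc (M : ℝ) ^ (μ / K) / 2 ≤ (M : ℝ) ^ (μ / k) / 2 ^ ((1 : ℝ) / k) := by
          apply div_le_div₀ (by positivity)
          · exact Real.rpow_le_rpow_of_exponent_le hM1 (by gcongr)
          · positivity
          · calc (2 : ℝ) ^ ((1 : ℝ) / k) ≤ 2 ^ (1 : ℝ) := by
                  apply Real.rpow_le_rpow_of_exponent_le (by norm_num)
                  rw [div_le_one hk0]; exact hk1
              _ = 2 := Real.rpow_one _
      _ = ((M : ℝ) ^ μ / 2) ^ ((1 : ℝ) / k) := by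
          rw [Real.div_rpow (by positivity) (by norm_num), ← Real.rpow_mul hM0.le]
          congr 2; ring
      _ ≤ X := Real.rpow_le_rpow (by positivity) h1 (by positivity)
  have hX2 : 1 / 2 ≤ X := by
    have : (1 : ℝ) ≤ (M : ℝ) ^ (μ / K) := Real.one_le_rpow hM1 (by positivity)
    linarith
  have hDX3 : (D : ℝ) ≤ 3 * X := by linarith
  have hDlow : (M : ℝ) ^ (μ / K) / 2 ≤ D := hXlow.trans hXD
  -- the kernel as a sum of the type of `ker0`
  have hsum : ‖∑ d ∈ I M b k, ph t (b * d ^ k)‖ = ‖SL (k * |t| / (2 * Real.pi)) D L []‖ := by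
    rw [hI, sum_Ico_eq_sum_range, Nat.add_sub_cancel_left]
    have h1 : ∀ j ∈ range L, ph t (b * (D + j) ^ k) = ph t b * ph (k * t) (D + 1 * j) := by
      intro j _
      rw [ph_mul t b _ hb (Nat.one_le_pow _ _ (by omega)), ph_pow, one_mul]
    rw [sum_congr rfl h1, ← mul_sum, norm_mul, ph_norm, one_mul, ker_abs, toSL _ D 1 L hD le_rfl,
      abs_mul, abs_of_pos hk0]
    simp
  rw [hsum]
  have hpi := Real.pi_pos
  have hpi3 := Real.pi_gt_three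
  have hpi4 := Real.pi_le_four
  have ht0 : 0 < |t| := by linarith
  have hZ0 : 0 < k * |t| / (2 * Real.pi) := by positivity
  have hZ1 : k * |t| / (2 * Real.pi) ≤ C1 * (D : ℝ) ^ q := by
    have h1 : (M : ℝ) ^ A ≤ 2 ^ q * (D : ℝ) ^ q := by
      calc (M : ℝ) ^ A ≤ (M : ℝ) ^ (μ / K * q) := Real.rpow_le_rpow_of_exponent_le hM1 hqμ
        _ = ((M : ℝ) ^ (μ / K)) ^ q := by rw [Real.rpow_mul hM0.le, Real.rpow_natCast]
        _ ≤ (2 * D) ^ q := by
            apply pow_le_pow_left₀ (by positivity)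
            linarith
        _ = _ := mul_pow _ _ _
    calc k * |t| / (2 * Real.pi) ≤ k * |t| / 1 := by
          apply div_le_div_of_nonneg_left (by positivity) one_pos (by linarith)
      _ = k * |t| := div_one _
      _ ≤ K * (2 * M : ℝ) ^ A := by gcongr
      _ = K * 2 ^ A * (M : ℝ) ^ A := by rw [Real.mul_rpow (by norm_num) hM0.le]; ring
      _ ≤ K * 2 ^ A * (2 ^ q * (D : ℝ) ^ q) := by gcongr
      _ = (K * 2 ^ A * 2 ^ q) * (D : ℝ) ^ q := by ring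
      _ ≤ C1 * (D : ℝ) ^ q := by
          apply mul_le_mul_of_nonneg_right _ (by positivity)
          rw [hC1]; linarith
  have hZ2 : (D : ℝ) ≤ C1 * (k * |t| / (2 * Real.pi)) := by
    have h1 : (D : ℝ) ≤ 1 + M := by
      have h2 : X ≤ M := by
        have h3 : (M : ℝ) / b ≤ M := div_le_self hM0.le hb1
        rcases le_or_gt 1 ((M : ℝ) / b) with h4 | h4
        · calc X ≤ ((M : ℝ) / b) ^ (1 : ℝ) := by
                apply Real.rpow_le_rpow_of_exponent_le h4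
                rw [div_le_one hk0]; exact hk1
            _ = (M : ℝ) / b := Real.rpow_one _
            _ ≤ M := h3
        · calc X ≤ 1 := Real.rpow_le_one (by positivity) h4.le (by positivity)
            _ ≤ M := hM1
      linarith
    have h2 : (M : ℝ) / 8 ≤ k * |t| / (2 * Real.pi) := by
      calc (M : ℝ) / 8 ≤ 1 * |t| / (2 * Real.pi) := by
            rw [div_le_div_iff₀ (by norm_num) (by positivity)]
            nlinarith
        _ ≤ _ := by gcongr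
    calc (D : ℝ) ≤ 16 * ((M : ℝ) / 8) := by linarith
      _ ≤ 16 * (k * |t| / (2 * Real.pi)) := by gcongr
      _ ≤ C1 * (k * |t| / (2 * Real.pi)) := by
          apply mul_le_mul_of_nonneg_right _ hZ0.le
          have : 0 ≤ K * (2 : ℝ) ^ A * 2 ^ q := by positivity
          rw [hC1]; linarith
  have hker := h0 D L hD hL _ hZ0 hZ1 hZ2
  refine hker.trans ?_
  have hDe : (D : ℝ) ^ (1 - δ0) = D * (D : ℝ) ^ (-δ0) := by
    rw [sub_eq_add_neg, Real.rpow_add hDr0, Real.rpow_one]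
  rw [hDe]
  have h3 : (D : ℝ) ^ (-δ0) ≤ 2 * (M : ℝ) ^ (-(μ / K * δ0)) := by
    calc (D : ℝ) ^ (-δ0) ≤ ((M : ℝ) ^ (μ / K) / 2) ^ (-δ0) :=
          Real.rpow_le_rpow_of_nonpos (by positivity) hDlow (by linarith)
      _ = 2 ^ δ0 * (M : ℝ) ^ (-(μ / K * δ0)) := by
          rw [Real.div_rpow (by positivity) (by norm_num), ← Real.rpow_mul hM0.le,
            Real.rpow_neg (by norm_num : (0 : ℝ) ≤ 2)]
          rw [div_inv_eq_mul, mul_comm]
          congr 2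
          ring
      _ ≤ 2 * (M : ℝ) ^ (-(μ / K * δ0)) := by
          have : (2 : ℝ) ^ δ0 ≤ 2 := by
            calc (2 : ℝ) ^ δ0 ≤ 2 ^ (1 : ℝ) := Real.rpow_le_rpow_of_exponent_le (by norm_num) hδ01
              _ = 2 := Real.rpow_one _
          gcongr
  calc C * (D * (D : ℝ) ^ (-δ0)) ≤ C * ((3 * X) * (2 * (M : ℝ) ^ (-(μ / K * δ0)))) := by gcongr
    _ = _ := by ring

end Pool.Agent.R516.MS
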