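import Pool.Agent.R516.MSA
import Pool.Agent.R516.MSB

/-!
Mean values over well-spaced sets for coefficients supported on the integers `b d^k`, `(b, k) ∈ B`.
-/

set_option autoImplicit false

namespace Pool.Agent.R516.MS

open Finset
open Pool.Agent.TH705.DL (ph ph_norm Sep)
open Pool.Agent.R327.SI (lg_pow)

/-- `n` is of the form `b d^k` with `(b, k) ∈ B` -/
def Mono (B : Finset (ℕ × ℕ)) (n : ℕ) : Prop := ∃ p ∈ B, ∃ d : ℕ, n = p.1 * d ^ p.2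

/-- the pairs `((b, k), d)` with `M ≤ b d^k ≤ 2M` -/
def Q (M : ℕ) (B : Finset (ℕ × ℕ)) : Finset ((_ : ℕ × ℕ) × ℕ) := B.sigma (fun p => I M p.1 p.2)

/-- the integer of a pair -/
def nu (x : (_ : ℕ × ℕ) × ℕ) : ℕ := x.1.1 * x.2 ^ x.1.2

/-- the integers -/
def P (M : ℕ) (B : Finset (ℕ × ℕ)) : Finset ℕ := (Q M B).image nu

/-- the multiplicities -/
noncomputable def wt (M : ℕ) (B : Finset (ℕ × ℕ)) (n : ℕ) : ℝ := (((Q M B).filter (fun x => nu x = n)).card : ℝ)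

theorem mem_Q {M : ℕ} {B : Finset (ℕ × ℕ)} {x : (_ : ℕ × ℕ) × ℕ} (hx : x ∈ Q M B) :
    x.1 ∈ B ∧ M ≤ nu x ∧ nu x ≤ 2 * M := by
  unfold Q at hx
  rw [mem_sigma] at hx
  have := hx.2
  unfold I at this
  rw [mem_filter] at this
  exact ⟨hx.1, this.2.1, this.2.2⟩

theorem P_mem {M : ℕ} {B : Finset (ℕ × ℕ)} {n : ℕ} (hn : n ∈ P M B) : M ≤ n ∧ n ≤ 2 * M := by
  unfold P at hn
  rw [mem_image] at hn
  obtain ⟨x, hx, rfl⟩ := hn
  exact (mem_Q hx).2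

theorem wt_one {M : ℕ} {B : Finset (ℕ × ℕ)} {n : ℕ} (hn : n ∈ P M B) : 1 ≤ wt M B n := by
  unfold P at hn
  rw [mem_image] at hn
  obtain ⟨x, hx, hxn⟩ := hn
  unfold wt
  have : 0 < ((Q M B).filter (fun x => nu x = n)).card := card_pos.2 ⟨x, mem_filter.2 ⟨hx, hxn⟩⟩
  exact_mod_cast this

theorem wt_le {M : ℕ} {B : Finset (ℕ × ℕ)} (hM : 1 ≤ M) (hB : ∀ p ∈ B, 1 ≤ p.1 ∧ 1 ≤ p.2) (n : ℕ) :
    wt M B n ≤ B.card := by
  unfold wt
  have : ((Q M B).filter (fun x => nu x = n)).card ≤ B.card := by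
    apply card_le_card_of_injOn (fun x => x.1)
    · intro x hx
      rw [mem_coe, mem_filter] at hx
      exact (mem_Q hx.1).1
    · intro x hx y hy hxy
      rw [mem_coe, mem_filter] at hx hy
      obtain ⟨p, d⟩ := x
      obtain ⟨p', d'⟩ := y
      simp only at hxy
      subst hxy
      have h1 : p.1 * d ^ p.2 = p.1 * d' ^ p.2 := by
        have a1 := hx.2
        have a2 := hy.2
        unfold nu at a1 a2
        simp only at a1 a2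
        rw [a1, a2]
      have hp := hB p (mem_Q hx.1).1
      have h2 : d ^ p.2 = d' ^ p.2 := Nat.eq_of_mul_eq_mul_left hp.1 h1
      have h3 : d = d' := Nat.pow_left_injective (by omega : p.2 ≠ 0) h2
      rw [h3]
  exact_mod_cast this

theorem sum_wt (M : ℕ) (B : Finset (ℕ × ℕ)) : ∑ n ∈ P M B, wt M B n = (Q M B).card := by
  unfold P wt
  rw [card_eq_sum_card_image nu (Q M B)]
  push_cast
  rfl

theorem kw_eq (M : ℕ) (B : Finset (ℕ × ℕ)) (t : ℝ) :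
    KW (P M B) (wt M B) t = ∑ p ∈ B, ∑ d ∈ I M p.1 p.2, ph t (p.1 * d ^ p.2) := by
  unfold KW
  have h1 : ∑ p ∈ B, ∑ d ∈ I M p.1 p.2, ph t (p.1 * d ^ p.2) = ∑ x ∈ Q M B, ph t (nu x) := by
    unfold Q
    rw [sum_sigma]
    rfl
  rw [h1, sum_comp (fun n => ph t n) nu]
  unfold P wt
  apply sum_congr rfl
  intro n _
  rw [nsmul_eq_mul]
  push_cast
  rfl

theorem card_I (M b k : ℕ) (hM : 1 ≤ M) (hb : 1 ≤ b) (hk : 1 ≤ k) (hbM : b ≤ 2 * M) :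
    ((I M b k).card : ℝ) ≤ 6 * ((M : ℝ) / b) ^ ((1 : ℝ) / k) := by
  have hM1 : (1 : ℝ) ≤ M := by exact_mod_cast hM
  have hb1 : (1 : ℝ) ≤ b := by exact_mod_cast hb
  have hb0 : (0 : ℝ) < b := by linarith
  have hk1 : (1 : ℝ) ≤ k := by exact_mod_cast hk
  obtain ⟨D, L, hD, hL, hI, hD1, hD2⟩ := I_Ico M b k hM hb hk
  set X : ℝ := ((M : ℝ) / b) ^ ((1 : ℝ) / k) with hX
  have hX0 : 0 < X := by positivity
  have hXk : X ^ k = (M : ℝ) / b := by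
    rw [hX, ← Real.rpow_natCast, ← Real.rpow_mul (by positivity), one_div_mul_cancel (by positivity),
      Real.rpow_one]
  have hDX : (D : ℝ) - 1 ≤ X := by
    apply le_of_pow_le_pow_left₀ (n := k) (by omega) hX0.le
    rw [hXk, le_div_iff₀ hb0]
    have : ((b * (D - 1) ^ k : ℕ) : ℝ) ≤ M := by exact_mod_cast hD2.le
    push_cast at this
    rw [Nat.cast_sub hD] at this
    push_cast at this
    linarith
  have hX2 : 1 / 2 ≤ X := by
    have hbM' : (b : ℝ) ≤ 2 * M := by exact_mod_cast hbM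
    have h1 : (1 / 2 : ℝ) ≤ (M : ℝ) / b := by rw [le_div_iff₀ hb0]; linarith
    calc (1 / 2 : ℝ) = (1 / 2) ^ (1 : ℝ) := (Real.rpow_one _).symm
      _ ≤ (1 / 2) ^ ((1 : ℝ) / k) := by
          apply Real.rpow_le_rpow_of_exponent_ge (by norm_num) (by norm_num)
          rw [div_le_one (by linarith)]; exact hk1
      _ ≤ X := Real.rpow_le_rpow (by norm_num) h1 (by positivity)
  have hc : (I M b k).card = L := by rw [hI]; simp
  rw [hc]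
  have : (L : ℝ) ≤ 2 * D := by exact_mod_cast hL
  linarith

theorem supp (M : ℕ) (hM : 1 ≤ M) (B : Finset (ℕ × ℕ)) (hB : ∀ p ∈ B, 1 ≤ p.1 ∧ 1 ≤ p.2) (f : ℕ → ℂ)
    (hf : ∀ n ∈ Icc M (2 * M), f n ≠ 0 → Mono B n) : ∑ n ∈ Icc M (2 * M), f n = ∑ n ∈ P M B, f n := by
  symm
  apply sum_subset
  · intro n hn
    rw [mem_Icc]
    exact P_mem hn
  · intro n hn hnP
    by_contra hne
    obtain ⟨p, hp, d, rfl⟩ := hf n hn hne
    apply hnP
    unfold P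
    rw [mem_image]
    refine ⟨⟨p, d⟩, ?_, rfl⟩
    unfold Q
    rw [mem_sigma]
    refine ⟨hp, ?_⟩
    unfold I
    rw [mem_Icc] at hn
    rw [mem_filter, mem_range]
    refine ⟨?_, hn.1, hn.2⟩
    have h6 : d ≤ p.1 * d ^ p.2 := by
      have h7 := hB p hp
      calc d = 1 * d ^ 1 := by simp
        _ ≤ p.1 * d ^ p.2 := by
          rcases Nat.eq_zero_or_pos d with h0 | h0
          · subst h0; simp
          · exact Nat.mul_le_mul h7.1 (Nat.pow_le_pow_right h0 h7.2)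
    simp only at h6 ⊢
    omega

/-- the hypothesis on `B` -/
def Adm (M : ℕ) (μ c : ℝ) (K : ℕ) (B : Finset (ℕ × ℕ)) : Prop :=
  (∀ p ∈ B, 1 ≤ p.1 ∧ (p.1 : ℝ) ≤ 2 * (M : ℝ) ^ (1 - μ) ∧ 1 ≤ p.2 ∧ p.2 ≤ K) ∧
    ∑ p ∈ B, ((M : ℝ) / p.1) ^ ((1 : ℝ) / p.2) ≤ 2 * (M : ℝ) ^ (1 / 2 + c)

/-- **The mean value.** -/
theorem main (A μ : ℝ) (K : ℕ) (hA : 1 ≤ A) (hμ : 0 < μ) (hμ1 : μ ≤ 1) (hK : 1 ≤ K) :
    ∃ c C : ℝ, 0 < c ∧ c ≤ 1 / 4 ∧ 1 ≤ C ∧ ∀ (M : ℕ) (B : Finset (ℕ × ℕ)), 1 ≤ M → Adm M μ c K B →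
      ∀ (T x : ℝ) (W : Finset ℝ) (b : ℕ → ℂ), T ≤ (2 * M : ℝ) ^ A → Sep W →
      (∀ t ∈ W, x ≤ t ∧ t ≤ x + T) → (∀ n ∈ Icc M (2 * M), b n ≠ 0 → Mono B n) →
      (∑ t ∈ W, ‖∑ n ∈ Icc M (2 * M), b n * ph t n‖ ^ 2 ≤
        C * ((M : ℝ) ^ (3 / 2 - c) + W.card * (M : ℝ) ^ (1 / 2 - c)) * ∑ n ∈ Icc M (2 * M), ‖b n‖ ^ 2) ∧
      ((∀ n, ‖b n‖ ≤ 1) → ∑ t ∈ W, ‖∑ n ∈ Icc M (2 * M), b n * ph t n‖ ^ 2 ≤
        C * ((M : ℝ) + W.card) * M) := by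
  obtain ⟨δ, C0, hδ, hC0, hker⟩ := ker A μ K hA hμ hμ1 hK
  have hK' : (1 : ℝ) ≤ K := by exact_mod_cast hK
  have hK0 : (0 : ℝ) < K := by linarith
  obtain ⟨C2, hC2, hlg⟩ := lg_pow 2 (μ / (8 * K)) (by norm_num) (by positivity)
  set c : ℝ := min (δ / 2) (μ / (16 * K)) with hc
  have hc0 : 0 < c := by rw [hc]; positivity
  have hc1 : c ≤ δ / 2 := min_le_left _ _
  have hc2 : c ≤ μ / (16 * K) := min_le_right _ _
  have hc3 : μ / (16 * K) ≤ 1 / 16 := by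
    rw [div_le_div_iff₀ (by positivity) (by norm_num)]
    nlinarith
  set C : ℝ := 12 * (70 * C2 + 2 * C0) with hC
  have hC1 : 1 ≤ C := by linarith
  refine ⟨c, C, hc0, by linarith, hC1, ?_⟩
  intro M B hM hAdm T x W b hT hW hWT hs
  obtain ⟨hB, hSm⟩ := hAdm
  have hM1 : (1 : ℝ) ≤ M := by exact_mod_cast hM
  have hM0 : (0 : ℝ) < M := by linarith
  have hB2 : ∀ p ∈ B, 1 ≤ p.1 ∧ 1 ≤ p.2 := fun p hp => ⟨(hB p hp).1, (hB p hp).2.2.1⟩
  have hB3 : ∀ p ∈ B, p.1 ≤ 2 * M := by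
    intro p hp
    have h1 := (hB p hp).2.1
    have h2 : (M : ℝ) ^ (1 - μ) ≤ M := by
      calc (M : ℝ) ^ (1 - μ) ≤ (M : ℝ) ^ (1 : ℝ) := Real.rpow_le_rpow_of_exponent_le hM1 (by linarith)
        _ = M := Real.rpow_one _
    have h3 : (p.1 : ℝ) ≤ 2 * M := by linarith
    exact_mod_cast h3
  -- the number of the pairs
  have hQ : ((Q M B).card : ℝ) ≤ 12 * (M : ℝ) ^ (1 / 2 + c) := by
    unfold Q
    rw [card_sigma]
    push_cast
    calc ∑ p ∈ B, ((I M p.1 p.2).card : ℝ) ≤ ∑ p ∈ B, 6 * ((M : ℝ) / p.1) ^ ((1 : ℝ) / p.2) := by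
          apply sum_le_sum
          intro p hp
          exact card_I M p.1 p.2 hM (hB2 p hp).1 (hB2 p hp).2 (hB3 p hp)
      _ = 6 * ∑ p ∈ B, ((M : ℝ) / p.1) ^ ((1 : ℝ) / p.2) := by rw [mul_sum]
      _ ≤ 6 * (2 * (M : ℝ) ^ (1 / 2 + c)) := by gcongr
      _ = _ := by ring
  -- the number of the elements of `B`
  have hBc : (B.card : ℝ) ≤ 4 * (M : ℝ) ^ (1 / 2 + c - μ / K) := by
    have h1 : ∀ p ∈ B, (M : ℝ) ^ (μ / K) / 2 ≤ ((M : ℝ) / p.1) ^ ((1 : ℝ) / p.2) := by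
      intro p hp
      obtain ⟨a1, a2, a3, a4⟩ := hB p hp
      have b1 : (1 : ℝ) ≤ p.1 := by exact_mod_cast a1
      have b0 : (0 : ℝ) < p.1 := by linarith
      have k1 : (1 : ℝ) ≤ p.2 := by exact_mod_cast a3
      have kK : (p.2 : ℝ) ≤ K := by exact_mod_cast a4
      have h1 : (M : ℝ) ^ μ / 2 ≤ (M : ℝ) / p.1 := by
        rw [div_le_div_iff₀ (by norm_num) b0]
        calc (M : ℝ) ^ μ * p.1 ≤ (M : ℝ) ^ μ * (2 * (M : ℝ) ^ (1 - μ)) := by gcongr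
          _ = 2 * ((M : ℝ) ^ μ * (M : ℝ) ^ (1 - μ)) := by ring
          _ = M * 2 := by rw [← Real.rpow_add hM0, show μ + (1 - μ) = 1 by ring, Real.rpow_one]; ring
      calc (M : ℝ) ^ (μ / K) / 2 ≤ (M : ℝ) ^ (μ / p.2) / 2 ^ ((1 : ℝ) / p.2) := by
            apply div_le_div₀ (by positivity)
            · exact Real.rpow_le_rpow_of_exponent_le hM1 (by gcongr)
            · positivity
            · calc (2 : ℝ) ^ ((1 : ℝ) / p.2) ≤ 2 ^ (1 : ℝ) := by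
                    apply Real.rpow_le_rpow_of_exponent_le (by norm_num)
                    rw [div_le_one (by linarith)]; exact k1
                _ = 2 := Real.rpow_one _
        _ = ((M : ℝ) ^ μ / 2) ^ ((1 : ℝ) / p.2) := by
            rw [Real.div_rpow (by positivity) (by norm_num), ← Real.rpow_mul hM0.le]
            congr 2; ring
        _ ≤ _ := Real.rpow_le_rpow (by positivity) h1 (by positivity)
    have h2 : B.card * ((M : ℝ) ^ (μ / K) / 2) ≤ 2 * (M : ℝ) ^ (1 / 2 + c) := by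
      calc B.card * ((M : ℝ) ^ (μ / K) / 2) = ∑ p ∈ B, (M : ℝ) ^ (μ / K) / 2 := by
            rw [sum_const, nsmul_eq_mul]
        _ ≤ ∑ p ∈ B, ((M : ℝ) / p.1) ^ ((1 : ℝ) / p.2) := sum_le_sum h1
        _ ≤ _ := hSm
    have h3 : (M : ℝ) ^ (1 / 2 + c - μ / K) = (M : ℝ) ^ (1 / 2 + c) / (M : ℝ) ^ (μ / K) :=
      Real.rpow_sub hM0 _ _
    have h4 : 0 < (M : ℝ) ^ (μ / K) := by positivity
    rw [h3, mul_div_assoc', le_div_iff₀ h4]
    linarith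
  have hw2 : ∑ n ∈ P M B, wt M B n ^ 2 ≤ 48 * (M : ℝ) ^ (1 + 2 * c - μ / K) := by
    calc ∑ n ∈ P M B, wt M B n ^ 2 ≤ ∑ n ∈ P M B, B.card * wt M B n := by
          apply sum_le_sum
          intro n hn
          rw [pow_two]
          exact mul_le_mul_of_nonneg_right (wt_le hM hB2 n) (by linarith [wt_one hn])
      _ = B.card * (Q M B).card := by rw [← mul_sum, sum_wt]
      _ ≤ (4 * (M : ℝ) ^ (1 / 2 + c - μ / K)) * (12 * (M : ℝ) ^ (1 / 2 + c)) := by gcongr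
      _ = 48 * ((M : ℝ) ^ (1 / 2 + c - μ / K) * (M : ℝ) ^ (1 / 2 + c)) := by ring
      _ = _ := by
          rw [← Real.rpow_add hM0]
          congr 2; ring
  have hsq : Real.sqrt (∑ n ∈ P M B, wt M B n ^ 2) ≤ 7 * (M : ℝ) ^ (1 / 2 + c - μ / (2 * K)) := by
    rw [Real.sqrt_le_left (by positivity)]
    refine hw2.trans ?_
    rw [mul_pow, ← Real.rpow_natCast ((M : ℝ) ^ (1 / 2 + c - μ / (2 * K))) 2, ← Real.rpow_mul hM0.le]
    have e1 : (1 / 2 + c - μ / (2 * K)) * ((2 : ℕ) : ℝ) = 1 + 2 * c - μ / K := by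
      push_cast; field_simp
    rw [e1]
    have : 0 ≤ (M : ℝ) ^ (1 + 2 * c - μ / K) := by positivity
    nlinarith
  have hKW : ∀ t : ℝ, (M : ℝ) < |t| → |t| ≤ T → ‖KW (P M B) (wt M B) t‖ ≤
      2 * C0 * (M : ℝ) ^ (1 / 2 - c) := by
    intro t h1 h2
    rw [kw_eq]
    calc ‖∑ p ∈ B, ∑ d ∈ I M p.1 p.2, ph t (p.1 * d ^ p.2)‖
        ≤ ∑ p ∈ B, ‖∑ d ∈ I M p.1 p.2, ph t (p.1 * d ^ p.2)‖ := norm_sum_le _ _
      _ ≤ ∑ p ∈ B, C0 * ((M : ℝ) / p.1) ^ ((1 : ℝ) / p.2) * (M : ℝ) ^ (-δ) := by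
          apply sum_le_sum
          intro p hp
          obtain ⟨a1, a2, a3, a4⟩ := hB p hp
          exact hker M p.1 p.2 hM a1 a3 a4 a2 t h1.le (h2.trans hT)
      _ = C0 * (M : ℝ) ^ (-δ) * ∑ p ∈ B, ((M : ℝ) / p.1) ^ ((1 : ℝ) / p.2) := by
          rw [mul_sum]
          apply sum_congr rfl
          intro p _
          ring
      _ ≤ C0 * (M : ℝ) ^ (-δ) * (2 * (M : ℝ) ^ (1 / 2 + c)) := by gcongr
      _ = 2 * C0 * ((M : ℝ) ^ (-δ) * (M : ℝ) ^ (1 / 2 + c)) := by ring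
      _ ≤ 2 * C0 * (M : ℝ) ^ (1 / 2 - c) := by
          rw [← Real.rpow_add hM0]
          have : (M : ℝ) ^ (-δ + (1 / 2 + c)) ≤ (M : ℝ) ^ (1 / 2 - c) :=
            Real.rpow_le_rpow_of_exponent_le hM1 (by linarith)
          gcongr
  have hls := lsW M hM (P M B) (wt M B) (fun n hn => wt_one hn)
    (fun n hn => ⟨hM.trans (P_mem hn).1, (P_mem hn).2⟩) W hW x T M (2 * C0 * (M : ℝ) ^ (1 / 2 - c)) hWT le_rfl
    (by positivity) hKW b
  have hsum1 : ∀ t, ∑ n ∈ Icc M (2 * M), b n * ph t n = ∑ n ∈ P M B, b n * ph t n := by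
    intro t
    apply supp M hM B hB2
    intro n hn hne
    exact hs n hn (left_ne_zero_of_mul hne)
  have hlg2 : (1 + Real.log (2 * M)) ^ 2 ≤ C2 * (M : ℝ) ^ (μ / (8 * K)) := by
    have := hlg M hM
    rwa [Real.rpow_two] at this
  have hlog0 : 0 ≤ Real.log (2 * (M : ℝ)) := Real.log_nonneg (by linarith)
  have hfirst : 10 * (M : ℝ) * (1 + Real.log (2 * M)) ^ 2 * Real.sqrt (∑ n ∈ P M B, wt M B n ^ 2) ≤
      70 * C2 * (M : ℝ) ^ (3 / 2 - c) := by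
    calc 10 * (M : ℝ) * (1 + Real.log (2 * M)) ^ 2 * Real.sqrt (∑ n ∈ P M B, wt M B n ^ 2)
        ≤ 10 * (M : ℝ) * (C2 * (M : ℝ) ^ (μ / (8 * K))) * (7 * (M : ℝ) ^ (1 / 2 + c - μ / (2 * K))) := by
          gcongr
      _ = 70 * C2 * ((M : ℝ) ^ (1 : ℝ) * (M : ℝ) ^ (μ / (8 * K)) * (M : ℝ) ^ (1 / 2 + c - μ / (2 * K))) := by
          rw [Real.rpow_one]; ring
      _ = 70 * C2 * (M : ℝ) ^ (1 + μ / (8 * K) + (1 / 2 + c - μ / (2 * K))) := by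
          rw [← Real.rpow_add hM0, ← Real.rpow_add hM0]
      _ ≤ 70 * C2 * (M : ℝ) ^ (3 / 2 - c) := by
          have h1 : 1 + μ / (8 * K) + (1 / 2 + c - μ / (2 * K)) ≤ 3 / 2 - c := by
            have e1 : μ / (8 * K) = 2 * (μ / (16 * K)) := by field_simp; norm_num
            have e2 : μ / (2 * K) = 8 * (μ / (16 * K)) := by field_simp; norm_num
            rw [e1, e2]
            linarith
          have := Real.rpow_le_rpow_of_exponent_le hM1 h1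
          gcongr
  have hnorm2 : ∑ n ∈ P M B, ‖b n‖ ^ 2 ≤ ∑ n ∈ Icc M (2 * M), ‖b n‖ ^ 2 := by
    apply sum_le_sum_of_subset_of_nonneg
    · intro n hn
      rw [mem_Icc]
      exact P_mem hn
    · intro _ _ _
      positivity
  have hbase : ∑ t ∈ W, ‖∑ n ∈ Icc M (2 * M), b n * ph t n‖ ^ 2 ≤
      (70 * C2 + 2 * C0) * ((M : ℝ) ^ (3 / 2 - c) + W.card * (M : ℝ) ^ (1 / 2 - c)) * ∑ n ∈ P M B, ‖b n‖ ^ 2 := by
    simp only [hsum1]
    refine hls.trans ?_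
    apply mul_le_mul_of_nonneg_right _ (sum_nonneg fun _ _ => by positivity)
    have h1 : 0 ≤ (M : ℝ) ^ (3 / 2 - c) := by positivity
    have h2 : 0 ≤ W.card * (M : ℝ) ^ (1 / 2 - c) := by positivity
    nlinarith
  constructor
  · refine hbase.trans ?_
    have h1 : 0 ≤ (M : ℝ) ^ (3 / 2 - c) + W.card * (M : ℝ) ^ (1 / 2 - c) := by positivity
    have h2 : (70 * C2 + 2 * C0) ≤ C := by rw [hC]; linarith
    have h3 : 0 ≤ ∑ n ∈ P M B, ‖b n‖ ^ 2 := sum_nonneg fun _ _ => by positivity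
    gcongr
  · intro hb
    have hP : ((P M B).card : ℝ) ≤ 12 * (M : ℝ) ^ (1 / 2 + c) := by
      refine le_trans ?_ hQ
      exact_mod_cast card_image_le
    have h1 : ∑ n ∈ P M B, ‖b n‖ ^ 2 ≤ 12 * (M : ℝ) ^ (1 / 2 + c) := by
      calc ∑ n ∈ P M B, ‖b n‖ ^ 2 ≤ ∑ n ∈ P M B, (1 : ℝ) := by
            apply sum_le_sum
            intro n _
            exact pow_le_one₀ (norm_nonneg _) (hb n)
        _ = (P M B).card := by simp
        _ ≤ _ := hP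
    calc _ ≤ _ := hbase
      _ ≤ (70 * C2 + 2 * C0) * ((M : ℝ) ^ (3 / 2 - c) + W.card * (M : ℝ) ^ (1 / 2 - c)) *
          (12 * (M : ℝ) ^ (1 / 2 + c)) := by gcongr
      _ = C * ((M : ℝ) ^ (3 / 2 - c) * (M : ℝ) ^ (1 / 2 + c) +
          W.card * ((M : ℝ) ^ (1 / 2 - c) * (M : ℝ) ^ (1 / 2 + c))) := by rw [hC]; ring
      _ = C * ((M : ℝ) + W.card) * M := by
          rw [← Real.rpow_add hM0, ← Real.rpow_add hM0]
          rw [show (3 / 2 - c + (1 / 2 + c) : ℝ) = 2 by ring, show (1 / 2 - c + (1 / 2 + c) : ℝ) = 1 by ring,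
            Real.rpow_one, Real.rpow_two]
          ring

end Pool.Agent.R516.MS
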