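import Pool.Agent.R516.MSC

/-!
Final forms: a small set of further integers in the support, large values, `ℓ^q` norms.
-/

set_option autoImplicit false

namespace Pool.Agent.R516.MS

open Finset
open Pool.Agent.TH705.DL (ph ph_norm Sep)
open Pool.Agent.R327.SI (card_sep)

/-- the mean value with up to `(2M)^(1/2)` further integers in the support -/
theorem mainE (A μ : ℝ) (K : ℕ) (hA : 1 ≤ A) (hμ : 0 < μ) (hμ1 : μ ≤ 1) (hK : 1 ≤ K) :
    ∃ c C : ℝ, 0 < c ∧ c ≤ 1 / 4 ∧ 1 ≤ C ∧ ∀ (M : ℕ) (B : Finset (ℕ × ℕ)) (E : Finset ℕ), 1 ≤ M →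
      Adm M μ c K B → (E.card : ℝ) ^ 2 ≤ 2 * M → ∀ (T x : ℝ) (W : Finset ℝ) (b : ℕ → ℂ),
      T ≤ (2 * M : ℝ) ^ A → Sep W → (∀ t ∈ W, x ≤ t ∧ t ≤ x + T) →
      (∀ n ∈ Icc M (2 * M), b n ≠ 0 → n ∈ E ∨ Mono B n) → (∀ n, ‖b n‖ ≤ 1) →
      ∑ t ∈ W, ‖∑ n ∈ Icc M (2 * M), b n * ph t n‖ ^ 2 ≤ C * ((M : ℝ) + W.card) * M := by
  classical
  obtain ⟨c, C, hc0, hc1, hC, h⟩ := main A μ K hA hμ hμ1 hK
  refine ⟨c, 2 * C + 4, hc0, hc1, by linarith, ?_⟩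
  intro M B E hM hB hE T x W b hT hW hWT hs hb
  have hM1 : (1 : ℝ) ≤ M := by exact_mod_cast hM
  set b1 : ℕ → ℂ := fun n => if n ∈ E then 0 else b n with hb1
  set b2 : ℕ → ℂ := fun n => if n ∈ E then b n else 0 with hb2
  have hb12 : ∀ n, b n = b1 n + b2 n := by
    intro n
    simp only [hb1, hb2]
    split_ifs <;> simp
  have hbn1 : ∀ n, ‖b1 n‖ ≤ 1 := by
    intro n
    simp only [hb1]
    split_ifs
    · simp
    · exact hb n
  have h1 := (h M B hM hB T x W b1 hT hW hWT (by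
    intro n hn hne
    simp only [hb1] at hne
    split_ifs at hne with hnE
    · exact absurd rfl hne
    · rcases hs n hn hne with h1 | h1
      · exact absurd h1 hnE
      · exact h1)).2 hbn1
  have h2 : ∀ t : ℝ, ‖∑ n ∈ Icc M (2 * M), b2 n * ph t n‖ ^ 2 ≤ 2 * M := by
    intro t
    have h3 : ‖∑ n ∈ Icc M (2 * M), b2 n * ph t n‖ ≤ E.card := by
      calc ‖∑ n ∈ Icc M (2 * M), b2 n * ph t n‖ ≤ ∑ n ∈ Icc M (2 * M), ‖b2 n * ph t n‖ := norm_sum_le _ _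
        _ ≤ ∑ n ∈ Icc M (2 * M), (if n ∈ E then (1 : ℝ) else 0) := by
            apply sum_le_sum
            intro n _
            rw [norm_mul, ph_norm, mul_one]
            simp only [hb2]
            split_ifs
            · exact hb n
            · simp
        _ = (((Icc M (2 * M)).filter (fun n => n ∈ E)).card : ℝ) := by
            rw [← sum_filter]; simp
        _ ≤ E.card := by
            have : (Icc M (2 * M)).filter (fun n => n ∈ E) ⊆ E := fun n hn => (mem_filter.1 hn).2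
            exact_mod_cast card_le_card this
    exact (pow_le_pow_left₀ (norm_nonneg _) h3 2).trans hE
  have h3 : ∀ t : ℝ, ‖∑ n ∈ Icc M (2 * M), b n * ph t n‖ ^ 2 ≤
      2 * ‖∑ n ∈ Icc M (2 * M), b1 n * ph t n‖ ^ 2 + 2 * (2 * M) := by
    intro t
    have e : ∑ n ∈ Icc M (2 * M), b n * ph t n =
        ∑ n ∈ Icc M (2 * M), b1 n * ph t n + ∑ n ∈ Icc M (2 * M), b2 n * ph t n := by
      rw [← sum_add_distrib]
      apply sum_congr rfl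
      intro n _
      rw [hb12 n]; ring
    rw [e]
    have h4 := norm_add_le (∑ n ∈ Icc M (2 * M), b1 n * ph t n) (∑ n ∈ Icc M (2 * M), b2 n * ph t n)
    have h5 := h2 t
    set u := ‖∑ n ∈ Icc M (2 * M), b1 n * ph t n‖ with hu
    set v := ‖∑ n ∈ Icc M (2 * M), b2 n * ph t n‖ with hv
    have hu0 : 0 ≤ u := norm_nonneg _
    have hv0 : 0 ≤ v := norm_nonneg _
    have h6 : ‖∑ n ∈ Icc M (2 * M), b1 n * ph t n + ∑ n ∈ Icc M (2 * M), b2 n * ph t n‖ ^ 2 ≤ (u + v) ^ 2 :=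
      pow_le_pow_left₀ (norm_nonneg _) h4 2
    nlinarith [sq_nonneg (u - v)]
  have h4 : ∑ t ∈ W, ‖∑ n ∈ Icc M (2 * M), b n * ph t n‖ ^ 2
      ≤ ∑ t ∈ W, (2 * ‖∑ n ∈ Icc M (2 * M), b1 n * ph t n‖ ^ 2 + 2 * (2 * M)) :=
        sum_le_sum fun t _ => h3 t
  have h5 : ∑ t ∈ W, (2 * ‖∑ n ∈ Icc M (2 * M), b1 n * ph t n‖ ^ 2 + 2 * (2 * (M : ℝ))) =
      2 * ∑ t ∈ W, ‖∑ n ∈ Icc M (2 * M), b1 n * ph t n‖ ^ 2 + W.card * (2 * (2 * M)) := by
    have e1 : ∀ (r : ℝ) (G : ℝ → ℝ), ∑ t ∈ W, (2 * G t + r) = 2 * ∑ t ∈ W, G t + W.card * r := by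
      intro r G
      rw [sum_add_distrib, ← mul_sum, sum_const, nsmul_eq_mul]
    exact e1 _ (fun t => ‖∑ n ∈ Icc M (2 * M), b1 n * ph t n‖ ^ 2)
  rw [h5] at h4
  refine h4.trans ?_
  clear h4 h5
  have h6 : 0 ≤ (M : ℝ) * M := by positivity
  have h7 : 0 ≤ (W.card : ℝ) * M := mul_nonneg (Nat.cast_nonneg _) (Nat.cast_nonneg _)
  have h8 : (2 * C + 4) * ((M : ℝ) + W.card) * M =
      2 * (C * ((M : ℝ) + W.card) * M) + W.card * (2 * (2 * M)) + 4 * (M * M) := by ring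
  rw [h8]
  linarith

/-- large values -/
theorem large {C M V : ℝ} (hC : 0 ≤ C) (hM : 0 ≤ M) (W : Finset ℝ) (F : ℝ → ℝ)
    (h : ∑ t ∈ W, F t ^ 2 ≤ C * (M + W.card) * M) (hV : 0 < V) (hVM : 2 * C * M ≤ V ^ 2)
    (hF : ∀ t ∈ W, V ≤ F t) :
    (W.card : ℝ) ≤ 2 * C * M ^ 2 / V ^ 2 ∧ ∑ t ∈ W, F t ^ 2 ≤ 2 * C * M ^ 2 := by
  have h1 : (W.card : ℝ) * V ^ 2 ≤ ∑ t ∈ W, F t ^ 2 := by
    calc (W.card : ℝ) * V ^ 2 = ∑ t ∈ W, V ^ 2 := by rw [sum_const, nsmul_eq_mul]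
      _ ≤ _ := by
        apply sum_le_sum
        intro t ht
        exact pow_le_pow_left₀ hV.le (hF t ht) 2
  have h2 : 2 * C * M * W.card ≤ V ^ 2 * W.card := mul_le_mul_of_nonneg_right hVM (Nat.cast_nonneg _)
  have h3 : ∑ t ∈ W, F t ^ 2 ≤ 2 * C * M ^ 2 := by nlinarith
  refine ⟨?_, h3⟩
  rw [le_div_iff₀ (by positivity)]
  linarith

/-- few points in the case of bounded `N` -/
theorem sigmaForm (K A σ : ℝ) (hK : 1 ≤ K) (hA : 0 ≤ A) (hσ : 1 / 2 < σ) : ∃ C : ℝ,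
    ∀ (N : ℕ) (T : ℝ) (F : ℝ → ℝ) (W : Finset ℝ), 1 ≤ N → T ≤ (N : ℝ) ^ A → (∀ t ∈ W, 0 ≤ t ∧ t ≤ T) →
      Sep W → (∀ t ∈ W, (N : ℝ) ^ σ < F t) →
      (∀ V : ℝ, 0 < V → K * N ≤ V ^ 2 → (∀ t ∈ W, V ≤ F t) → (W.card : ℝ) ≤ K * (N : ℝ) ^ 2 / V ^ 2) →
      (W.card : ℝ) ≤ C * (N : ℝ) ^ (2 - 2 * σ) := by
  set N0 : ℝ := K ^ (1 / (2 * σ - 1)) with hN0def
  have hσ' : 0 < 2 * σ - 1 := by linarith
  have hN0 : 1 ≤ N0 := Real.one_le_rpow hK (by positivity)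
  refine ⟨K + 2 * N0 ^ (A + 2 * σ), ?_⟩
  intro N T F W hN hT hW hsep hD hNL
  have hN1 : (1 : ℝ) ≤ N := by exact_mod_cast hN
  have hNp : (0 : ℝ) < N := by linarith
  have hN00 : 0 < N0 := by linarith
  rcases le_or_gt (N : ℝ) N0 with h1 | h1
  · rcases W.eq_empty_or_nonempty with hWe | ⟨t0, ht0⟩
    · rw [hWe]
      simp only [card_empty, Nat.cast_zero]
      positivity
    have hT0 : 0 ≤ T := (hW t0 ht0).1.trans (hW t0 ht0).2
    have hcard := card_sep W hsep 0 T hT0 hW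
    have h2 : (N : ℝ) ^ A ≤ N0 ^ A := Real.rpow_le_rpow hNp.le h1 hA
    have h3 : (1 : ℝ) ≤ N0 ^ A := Real.one_le_rpow hN0 hA
    have h4 : (W.card : ℝ) ≤ 2 * N0 ^ A := by linarith
    have h5 : N0 ^ (-(2 * σ)) ≤ (N : ℝ) ^ (2 - 2 * σ) := by
      calc N0 ^ (-(2 * σ)) ≤ (N : ℝ) ^ (-(2 * σ)) :=
            Real.rpow_le_rpow_of_nonpos hNp h1 (by linarith)
        _ ≤ _ := Real.rpow_le_rpow_of_exponent_le hN1 (by linarith)
    calc (W.card : ℝ) ≤ 2 * N0 ^ A := h4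
      _ = 2 * N0 ^ (A + 2 * σ) * N0 ^ (-(2 * σ)) := by
          rw [mul_assoc, ← Real.rpow_add hN00]
          congr 2
          ring
      _ ≤ 2 * N0 ^ (A + 2 * σ) * (N : ℝ) ^ (2 - 2 * σ) := by gcongr
      _ ≤ (K + 2 * N0 ^ (A + 2 * σ)) * (N : ℝ) ^ (2 - 2 * σ) := by
          have : 0 ≤ K := by linarith
          gcongr
          linarith
  · have hV : (0 : ℝ) < (N : ℝ) ^ σ := by positivity
    have hsq : ((N : ℝ) ^ σ) ^ 2 = (N : ℝ) ^ (2 * σ) := by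
      rw [← Real.rpow_natCast, ← Real.rpow_mul hNp.le]
      congr 1
      push_cast
      ring
    have h2 := hNL ((N : ℝ) ^ σ) hV (by
      rw [hsq]
      have h3 : K ≤ (N : ℝ) ^ (2 * σ - 1) := by
        calc K = N0 ^ (2 * σ - 1) := by
              rw [hN0def, ← Real.rpow_mul (by linarith), one_div_mul_cancel hσ'.ne', Real.rpow_one]
          _ ≤ _ := Real.rpow_le_rpow hN00.le h1.le hσ'.le
      calc K * N ≤ (N : ℝ) ^ (2 * σ - 1) * (N : ℝ) ^ (1 : ℝ) := by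
            rw [Real.rpow_one]; gcongr
        _ = _ := by
            rw [← Real.rpow_add hNp]
            congr 1; ring) (fun t ht => (hD t ht).le)
    refine h2.trans ?_
    rw [hsq]
    calc K * (N : ℝ) ^ 2 / (N : ℝ) ^ (2 * σ) = K * (N : ℝ) ^ (2 - 2 * σ) := by
          rw [Real.rpow_sub hNp, Real.rpow_two]
          ring
      _ ≤ (K + 2 * N0 ^ (A + 2 * σ)) * (N : ℝ) ^ (2 - 2 * σ) := by
          have h3 : 0 ≤ 2 * N0 ^ (A + 2 * σ) := by positivity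
          gcongr
          linarith

/-- the `ℓ^q` norm over the integers `1, …, T` -/
theorem lqForm {C : ℝ} {q : ℝ} (hC : 1 ≤ C) (hq : 2 ≤ q) (N T : ℕ) (hN : 1 ≤ N) (F : ℝ → ℝ)
    (hF0 : ∀ t, 0 ≤ F t) (hF : ∀ t, F t ≤ 2 * N)
    (h : ∀ W : Finset ℝ, (∀ t ∈ W, (0 : ℝ) ≤ t ∧ t ≤ 0 + (T : ℝ)) → Sep W →
      ∑ t ∈ W, F t ^ 2 ≤ C * ((N : ℝ) + W.card) * N) :
    ∑ t ∈ Icc 1 T, F (t : ℝ) ^ q ≤ (2 ^ q * (2 * C) + (2 * C) ^ (q / 2)) * ((N : ℝ) ^ q + T * (N : ℝ) ^ (q / 2)) := by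
  classical
  have hN1 : (1 : ℝ) ≤ N := by exact_mod_cast hN
  have hN0 : (0 : ℝ) < N := by linarith
  have hq0 : 0 < q := by linarith
  set K : ℝ := 2 * C with hK
  have hK0 : 0 < K := by rw [hK]; linarith
  obtain ⟨B, hB⟩ : ∃ B : ℝ, B = Real.sqrt (K * N) := ⟨_, rfl⟩
  have hBsq : B ^ 2 = K * N := by rw [hB, Real.sq_sqrt (by positivity)]
  have hB0 : 0 < B := by rw [hB]; positivity
  set W0 : Finset ℕ := (Icc 1 T).filter (fun t : ℕ => B ≤ F (t : ℝ)) with hW0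
  set W : Finset ℝ := W0.image (fun t : ℕ => (t : ℝ)) with hW
  have hinj : Set.InjOn (fun t : ℕ => (t : ℝ)) (W0 : Set ℕ) := fun _ _ _ _ h => Nat.cast_injective h
  have hWsep : Sep W := by
    intro t ht u hu hne
    rw [hW, mem_image] at ht hu
    obtain ⟨i, _, rfl⟩ := ht
    obtain ⟨j, _, rfl⟩ := hu
    have hij : (i : ℤ) - j ≠ 0 := by
      intro h
      apply hne
      have : (i : ℤ) = j := by linarith
      have h2 : i = j := by exact_mod_cast this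
      rw [h2]
    have h1 : (1 : ℤ) ≤ |(i : ℤ) - j| := Int.one_le_abs hij
    have h2 : ((1 : ℤ) : ℝ) ≤ ((|(i : ℤ) - j| : ℤ) : ℝ) := by exact_mod_cast h1
    push_cast at h2
    exact h2
  have hWT : ∀ t ∈ W, (0 : ℝ) ≤ t ∧ t ≤ 0 + (T : ℝ) := by
    intro t ht
    rw [hW, mem_image] at ht
    obtain ⟨i, hi, rfl⟩ := ht
    have h1 := (mem_Icc.1 (mem_filter.1 hi).1).2
    refine ⟨Nat.cast_nonneg i, ?_⟩
    rw [zero_add]
    exact_mod_cast h1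
  have hlarge := (large (by linarith) hN0.le W F (h W hWT hWsep) hB0 (le_of_eq hBsq.symm) (by
    intro t ht
    rw [hW, mem_image] at ht
    obtain ⟨i, hi, rfl⟩ := ht
    exact (mem_filter.1 hi).2)).2
  have hlarge2 : ∑ t ∈ W0, F (t : ℝ) ^ 2 ≤ K * (N : ℝ) ^ 2 := by
    refine le_trans (le_of_eq ?_) hlarge
    rw [hW, sum_image hinj]
  have hL : ∑ t ∈ W0, F (t : ℝ) ^ q ≤ 2 ^ q * K * (N : ℝ) ^ q := by
    have h1 : ∀ t ∈ W0, F (t : ℝ) ^ q ≤ (2 * (N : ℝ)) ^ (q - 2) * F (t : ℝ) ^ 2 := by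
      intro t ht
      have hpos : 0 < F (t : ℝ) := lt_of_lt_of_le hB0 (mem_filter.1 ht).2
      calc F (t : ℝ) ^ q = F (t : ℝ) ^ (q - 2) * F (t : ℝ) ^ 2 := by
            rw [← Real.rpow_natCast (F (t : ℝ)) 2, ← Real.rpow_add hpos]
            congr 1
            push_cast
            ring
        _ ≤ _ := by
            apply mul_le_mul_of_nonneg_right _ (by positivity)
            exact Real.rpow_le_rpow hpos.le (hF t) (by linarith)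
    calc ∑ t ∈ W0, F (t : ℝ) ^ q ≤
          ∑ t ∈ W0, (2 * (N : ℝ)) ^ (q - 2) * F (t : ℝ) ^ 2 := sum_le_sum h1
      _ = (2 * (N : ℝ)) ^ (q - 2) * ∑ t ∈ W0, F (t : ℝ) ^ 2 := by rw [mul_sum]
      _ ≤ (2 * (N : ℝ)) ^ (q - 2) * (K * (N : ℝ) ^ 2) := by gcongr
      _ ≤ (2 * (N : ℝ)) ^ (q - 2) * (K * (2 * (N : ℝ)) ^ 2) := by
          have : (N : ℝ) ^ 2 ≤ (2 * (N : ℝ)) ^ 2 := pow_le_pow_left₀ hN0.le (by linarith) 2
          gcongr
      _ = K * (2 * (N : ℝ)) ^ q := by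
          have h2N : 0 < 2 * (N : ℝ) := by linarith
          have : (2 * (N : ℝ)) ^ q = (2 * (N : ℝ)) ^ (q - 2) * (2 * (N : ℝ)) ^ 2 := by
            rw [← Real.rpow_natCast (2 * (N : ℝ)) 2, ← Real.rpow_add h2N]
            congr 1
            push_cast
            ring
          rw [this]
          ring
      _ = _ := by rw [Real.mul_rpow (by norm_num) hN0.le]; ring
  have hS : ∑ t ∈ (Icc 1 T).filter (fun t : ℕ => ¬ B ≤ F (t : ℝ)), F (t : ℝ) ^ q ≤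
      T * (K ^ (q / 2) * (N : ℝ) ^ (q / 2)) := by
    have hBq : B ^ q = K ^ (q / 2) * (N : ℝ) ^ (q / 2) := by
      have h1 : B ^ q = (B ^ 2) ^ (q / 2) := by
        rw [← Real.rpow_natCast B 2, ← Real.rpow_mul hB0.le]
        congr 1
        push_cast
        ring
      rw [h1, hBsq, Real.mul_rpow hK0.le hN0.le]
    have h1 : ∀ t ∈ (Icc 1 T).filter (fun t : ℕ => ¬ B ≤ F (t : ℝ)), F (t : ℝ) ^ q ≤
        K ^ (q / 2) * (N : ℝ) ^ (q / 2) := by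
      intro t ht
      have h2 := (mem_filter.1 ht).2
      rw [not_le] at h2
      calc F (t : ℝ) ^ q ≤ B ^ q := Real.rpow_le_rpow (hF0 _) h2.le hq0.le
        _ = _ := hBq
    refine (sum_le_card_nsmul _ _ _ h1).trans ?_
    rw [nsmul_eq_mul]
    have h2 : (((Icc 1 T).filter (fun t : ℕ => ¬ B ≤ F (t : ℝ))).card : ℝ) ≤ T := by
      have := card_filter_le (Icc 1 T) (fun t : ℕ => ¬ B ≤ F (t : ℝ))
      rw [Nat.card_Icc] at this
      simp only [add_tsub_cancel_right] at this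
      exact_mod_cast this
    gcongr
  rw [← sum_filter_add_sum_filter_not (Icc 1 T) (fun t : ℕ => B ≤ F (t : ℝ))]
  have hKq : 0 ≤ K ^ (q / 2) := by positivity
  have h2q : 0 ≤ (2 : ℝ) ^ q * K := by positivity
  have hNq : 0 ≤ (N : ℝ) ^ q := by positivity
  have hNq2 : 0 ≤ T * (N : ℝ) ^ (q / 2) := by positivity
  have := add_le_add hL hS
  nlinarith [mul_nonneg hKq hNq, mul_nonneg h2q hNq2]

/-- the trivial bound -/
theorem triv (N : ℕ) (hN : 1 ≤ N) (b : ℕ → ℂ) (hb : ∀ n, ‖b n‖ ≤ 1) (t : ℝ) :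
    ‖∑ n ∈ Icc N (2 * N), b n * ph t n‖ ≤ 2 * N := by
  have hN1 : (1 : ℝ) ≤ N := by exact_mod_cast hN
  refine (norm_sum_le _ _).trans ?_
  calc ∑ n ∈ Icc N (2 * N), ‖b n * ph t n‖
      ≤ ∑ n ∈ Icc N (2 * N), (1 : ℝ) := by
        apply sum_le_sum
        intro n _
        rw [norm_mul, ph_norm, mul_one]
        exact hb n
    _ = (N : ℝ) + 1 := by
        rw [sum_const, Nat.card_Icc, nsmul_eq_mul, mul_one]
        have : 2 * N + 1 - N = N + 1 := by omega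
        rw [this]
        push_cast
        ring
    _ ≤ 2 * N := by linarith

/-- from `[N/2, N]` to `[M, 2M]`, `M = ⌈N/2⌉` -/
theorem lift (N : ℕ) (hN : 1 ≤ N) (a : ℕ → ℂ) (g : ℕ → ℂ) (ha : ∀ n ∈ Icc 1 N, a n ≠ 0 → N ≤ 2 * n) :
    ∑ n ∈ Icc 1 N, a n * g n =
      ∑ n ∈ Icc ((N + 1) / 2) (2 * ((N + 1) / 2)), (if n ≤ N then a n else 0) * g n := by
  classical
  set M := (N + 1) / 2 with hM
  have h1 : ∑ n ∈ Icc M (2 * M), (if n ≤ N then a n else 0) * g n =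
      ∑ n ∈ (Icc M (2 * M)).filter (fun n => n ≤ N), a n * g n := by
    rw [sum_filter]
    apply sum_congr rfl
    intro n _
    split_ifs <;> simp
  rw [h1]
  symm
  apply sum_subset
  · intro n hn
    rw [mem_filter, mem_Icc] at hn
    rw [mem_Icc]
    omega
  · intro n hn hnot
    by_contra hne
    have h2 := ha n hn (left_ne_zero_of_mul hne)
    apply hnot
    rw [mem_Icc] at hn
    rw [mem_filter, mem_Icc]
    omega

/-- the hypothesis on `B` for `N` implies the hypothesis for `M`, `M ≤ N ≤ 2M` -/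
theorem adm_of {N M : ℕ} {μ c : ℝ} {K : ℕ} {B : Finset (ℕ × ℕ)} (hM : 1 ≤ M) (hMN : M ≤ N) (hNM : N ≤ 2 * M)
    (hμ : 0 < μ) (hμ1 : μ ≤ 1) (hc : 0 < c) (hc1 : c ≤ 1 / 4)
    (h1 : ∀ p ∈ B, 1 ≤ p.1 ∧ (p.1 : ℝ) ≤ (N : ℝ) ^ (1 - μ) ∧ 1 ≤ p.2 ∧ p.2 ≤ K)
    (h2 : ∑ p ∈ B, ((N : ℝ) / p.1) ^ ((1 : ℝ) / p.2) ≤ (N : ℝ) ^ (1 / 2 + c)) : Adm M μ c K B := by
  have hM1 : (1 : ℝ) ≤ M := by exact_mod_cast hM
  have hM0 : (0 : ℝ) < M := by linarith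
  have hMN' : (M : ℝ) ≤ N := by exact_mod_cast hMN
  have hNM' : (N : ℝ) ≤ 2 * M := by exact_mod_cast hNM
  have two : ∀ s : ℝ, 0 ≤ s → s ≤ 1 → (N : ℝ) ^ s ≤ 2 * (M : ℝ) ^ s := by
    intro s hs hs1
    calc (N : ℝ) ^ s ≤ (2 * M : ℝ) ^ s := Real.rpow_le_rpow (by linarith) hNM' hs
      _ = 2 ^ s * (M : ℝ) ^ s := Real.mul_rpow (by norm_num) hM0.le
      _ ≤ 2 * (M : ℝ) ^ s := by
          have : (2 : ℝ) ^ s ≤ 2 := by
            calc (2 : ℝ) ^ s ≤ 2 ^ (1 : ℝ) := Real.rpow_le_rpow_of_exponent_le (by norm_num) hs1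
              _ = 2 := Real.rpow_one _
          gcongr
  constructor
  · intro p hp
    obtain ⟨a1, a2, a3, a4⟩ := h1 p hp
    exact ⟨a1, a2.trans (two _ (by linarith) (by linarith)), a3, a4⟩
  · calc ∑ p ∈ B, ((M : ℝ) / p.1) ^ ((1 : ℝ) / p.2) ≤ ∑ p ∈ B, ((N : ℝ) / p.1) ^ ((1 : ℝ) / p.2) := by
          apply sum_le_sum
          intro p _
          apply Real.rpow_le_rpow (by positivity) _ (by positivity)
          gcongr
      _ ≤ (N : ℝ) ^ (1 / 2 + c) := h2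
      _ ≤ _ := two _ (by linarith) (by linarith)

end Pool.Agent.R516.MS
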