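import Mathlib
import Pool.Agent.R516.GGB

/-! Selberg's sieve without the prime factors of a modulus. -/

set_option autoImplicit false

namespace Pool.Agent.R516

open Finset Filter Topology
open Pool.Agent.W25.UB (GG)

theorem mem_sq' {P : Finset ℕ} {z d : ℕ} : d ∈ Pool.Agent.W25.UB.sq P z ↔
    (1 ≤ d ∧ d ≤ z) ∧ Squarefree d ∧ ∀ p : ℕ, p.Prime → p ∣ d → p ∈ P := by
  classical
  unfold Pool.Agent.W25.UB.sq
  rw [Finset.mem_filter, Finset.mem_Icc]

/-- removing one prime -/
theorem GG_one (P : Finset ℕ) (z p : ℕ) (hp : p.Prime) :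
    GG P z ≤ (1 + 1 / ((p : ℝ) - 1)) * GG (P.erase p) z := by
  classical
  have hp1 : (0 : ℝ) < (p : ℝ) - 1 := by
    have : (1 : ℝ) < p := by exact_mod_cast hp.one_lt
    linarith
  unfold GG
  rw [← Finset.sum_filter_add_sum_filter_not (Pool.Agent.W25.UB.sq P z) (fun d => ¬ p ∣ d), add_mul, one_mul]
  apply add_le_add
  · apply Finset.sum_le_sum_of_subset_of_nonneg
    · intro d hd
      rw [Finset.mem_filter, mem_sq'] at hd
      rw [mem_sq']
      refine ⟨hd.1.1, hd.1.2.1, fun r hr hrd => ?_⟩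
      rw [Finset.mem_erase]
      refine ⟨?_, hd.1.2.2 r hr hrd⟩
      rintro rfl
      exact hd.2 hrd
    · intro d _ _
      positivity
  · have h1 : ∀ d ∈ (Pool.Agent.W25.UB.sq P z).filter (fun d => ¬ ¬ p ∣ d), d = p * (d / p) ∧
        d / p ∈ Pool.Agent.W25.UB.sq (P.erase p) z ∧ ((Nat.totient d : ℕ) : ℝ) =
          ((p : ℝ) - 1) * ((Nat.totient (d / p) : ℕ) : ℝ) := by
      intro d hd
      rw [Finset.mem_filter, mem_sq', not_not] at hd
      obtain ⟨⟨⟨hd1, hdz⟩, hsq, hpr⟩, hpd⟩ := hd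
      obtain ⟨e, rfl⟩ := hpd
      have he : p * e / p = e := Nat.mul_div_cancel_left e hp.pos
      have hcop : Nat.Coprime p e := (Nat.squarefree_mul_iff.1 hsq).1
      have he1 : 1 ≤ e := by
        rcases Nat.eq_zero_or_pos e with h | h
        · rw [h, mul_zero] at hd1
          omega
        · exact h
      rw [he]
      refine ⟨rfl, ?_, ?_⟩
      · rw [mem_sq']
        refine ⟨⟨he1, (Nat.le_mul_of_pos_left e hp.pos).trans hdz⟩,
          (Nat.squarefree_mul_iff.1 hsq).2.2, fun r hr hrd => ?_⟩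
        rw [Finset.mem_erase]
        refine ⟨?_, hpr r hr (hrd.mul_left p)⟩
        rintro rfl
        exact (Nat.Prime.coprime_iff_not_dvd hr).1 hcop hrd
      · rw [Nat.totient_mul hcop, Nat.totient_prime hp, Nat.cast_mul, Nat.cast_sub hp.one_lt.le,
          Nat.cast_one]
    calc ∑ d ∈ (Pool.Agent.W25.UB.sq P z).filter (fun d => ¬ ¬ p ∣ d), 1 / (Nat.totient d : ℝ)
        = ∑ d ∈ (Pool.Agent.W25.UB.sq P z).filter (fun d => ¬ ¬ p ∣ d),
          1 / ((p : ℝ) - 1) * (1 / (Nat.totient (d / p) : ℝ)) := by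
          refine Finset.sum_congr rfl fun d hd => ?_
          rw [(h1 d hd).2.2, one_div_mul_one_div]
      _ = 1 / ((p : ℝ) - 1) * ∑ d ∈ (Pool.Agent.W25.UB.sq P z).filter (fun d => ¬ ¬ p ∣ d),
          1 / (Nat.totient (d / p) : ℝ) := by rw [Finset.mul_sum]
      _ = 1 / ((p : ℝ) - 1) * ∑ e ∈ ((Pool.Agent.W25.UB.sq P z).filter (fun d => ¬ ¬ p ∣ d)).image (fun d => d / p),
          1 / (Nat.totient e : ℝ) := by
          rw [Finset.sum_image]
          intro d hd d' hd' h
          rw [Finset.mem_coe] at hd hd'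
          have a1 := (h1 d hd).1
          have a2 := (h1 d' hd').1
          beta_reduce at h
          rw [h] at a1
          rw [a1]
          exact a2.symm
      _ ≤ _ := by
          apply mul_le_mul_of_nonneg_left _ (one_div_pos.2 hp1).le
          apply Finset.sum_le_sum_of_subset_of_nonneg
          · intro e he
            rw [Finset.mem_image] at he
            obtain ⟨d, hd, rfl⟩ := he
            exact (h1 d hd).2.1
          · intro d _ _
            positivity

theorem GG_remove (P : Finset ℕ) (z : ℕ) (R : Finset ℕ) (hR : ∀ p ∈ R, p.Prime) :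
    GG P z ≤ (∏ p ∈ R, (1 + 1 / ((p : ℝ) - 1))) * GG (P \ R) z := by
  classical
  induction R using Finset.induction_on with
  | empty => simp
  | insert a s ha ih =>
    have ih' := ih (fun p hp => hR p (Finset.mem_insert_of_mem hp))
    have h1 := GG_one (P \ s) z a (hR a (Finset.mem_insert_self _ _))
    rw [Finset.prod_insert ha]
    have e : P \ insert a s = (P \ s).erase a := by
      ext x
      rw [Finset.mem_erase, Finset.mem_sdiff, Finset.mem_sdiff, Finset.mem_insert]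
      tauto
    rw [e]
    have h2 : 0 ≤ ∏ p ∈ s, (1 + 1 / ((p : ℝ) - 1)) := by
      refine Finset.prod_nonneg fun p hp => ?_
      have : (1 : ℝ) < p := by exact_mod_cast (hR p (Finset.mem_insert_of_mem hp)).one_lt
      have : (0 : ℝ) < (p : ℝ) - 1 := by linarith
      positivity
    calc GG P z ≤ (∏ p ∈ s, (1 + 1 / ((p : ℝ) - 1))) * GG (P \ s) z := ih'
      _ ≤ (∏ p ∈ s, (1 + 1 / ((p : ℝ) - 1))) *
          ((1 + 1 / ((a : ℝ) - 1)) * GG ((P \ s).erase a) z) := mul_le_mul_of_nonneg_left h1 h2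
      _ = _ := by ring

theorem prod_tot (q : ℕ) (hq : 1 ≤ q) :
    ∏ p ∈ q.primeFactors, (1 + 1 / ((p : ℝ) - 1)) = q / (Nat.totient q : ℝ) := by
  have h := Nat.totient_eq_mul_prod_factors q
  have h2 : ((Nat.totient q : ℕ) : ℝ) = q * ∏ p ∈ q.primeFactors, (1 - (p : ℝ)⁻¹) := by
    have : (((Nat.totient q : ℕ) : ℚ) : ℝ) = ((q * ∏ p ∈ q.primeFactors, (1 - (p : ℚ)⁻¹) : ℚ) : ℝ) := by
      rw [h]
    push_cast at this
    exact this
  have hφ : (0 : ℝ) < Nat.totient q := by exact_mod_cast Nat.totient_pos.2 hq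
  rw [eq_div_iff hφ.ne', h2]
  have h3 : (∏ p ∈ q.primeFactors, (1 + 1 / ((p : ℝ) - 1))) *
      (q * ∏ p ∈ q.primeFactors, (1 - (p : ℝ)⁻¹)) =
      q * ∏ p ∈ q.primeFactors, ((1 + 1 / ((p : ℝ) - 1)) * (1 - (p : ℝ)⁻¹)) := by
    rw [Finset.prod_mul_distrib]
    ring
  rw [h3]
  have h4 : ∏ p ∈ q.primeFactors, ((1 + 1 / ((p : ℝ) - 1)) * (1 - (p : ℝ)⁻¹)) = 1 := by
    refine Finset.prod_eq_one fun p hp => ?_
    have h5 : (1 : ℝ) < p := by exact_mod_cast (Nat.prime_of_mem_primeFactors hp).one_lt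
    have h6 : (p : ℝ) - 1 ≠ 0 := by linarith
    have h7 : (p : ℝ) ≠ 0 := by linarith
    field_simp
    ring
  rw [h4, mul_one]

theorem GG_q (P : Finset ℕ) (z q : ℕ) (hq : 1 ≤ q) (hG : 0 < GG P z) :
    0 < GG (P \ q.primeFactors) z ∧
      1 / GG (P \ q.primeFactors) z ≤ (q / (Nat.totient q : ℝ)) * (1 / GG P z) := by
  have h := GG_remove P z q.primeFactors (fun p hp => Nat.prime_of_mem_primeFactors hp)
  rw [prod_tot q hq] at h
  have hφ : (0 : ℝ) < Nat.totient q := by exact_mod_cast Nat.totient_pos.2 hq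
  have hq0 : (0 : ℝ) < q := by exact_mod_cast hq
  have h0 := GG_nonneg (P \ q.primeFactors) z
  have h1 : 0 < GG (P \ q.primeFactors) z := by
    rcases h0.lt_or_eq with h2 | h2
    · exact h2
    · rw [← h2, mul_zero] at h
      linarith
  refine ⟨h1, ?_⟩
  rw [mul_one_div, div_le_div_iff₀ h1 hG, one_mul]
  exact h

end Pool.Agent.R516
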