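import Mathlib
import Pool.Agent.R516.Blk
import Pool.Agent.R516.QA

/-! Windows in arithmetic progressions: the variance of the pieces of the majorant. -/

set_option autoImplicit false

namespace Pool.Agent.R516

open Finset Filter Topology
open Pool.Agent.H442R2
open Pool.Agent.H442R2.KF (Wt)
open Pool.Agent.Y827.LS (dc)
open Pool.Agent.W25.UB (ds RC)
open Pool.Agent.TH899.UG (ExG)
open Pool.Agent.W23.PL (Fc)

/-- the window sum of a centred indicator along a progression -/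
noncomputable def udq (q H d : ℕ) (n : ℤ) : ℝ := ∑ h ∈ Icc 1 H, BX.dl d (n + ((q * h : ℕ) : ℤ))

theorem Bd.udq (q H d : ℕ) : Bd (udq q H d) := by
  unfold Pool.Agent.R516.udq
  exact Bd.sum _ fun h _ => Bd.dl d ((q * h : ℕ) : ℤ)

theorem dvd_q {g q : ℕ} (hgq : Nat.Coprime g q) (h h' : ℕ) :
    (g : ℤ) ∣ ((q * h : ℕ) : ℤ) - ((q * h' : ℕ) : ℤ) ↔ (g : ℤ) ∣ (h : ℤ) - h' := by
  have e : ((q * h : ℕ) : ℤ) - ((q * h' : ℕ) : ℤ) = (q : ℤ) * ((h : ℤ) - h') := by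
    push_cast
    ring
  rw [e]
  constructor
  · intro hd
    exact IsCoprime.dvd_of_dvd_mul_left (Nat.isCoprime_iff_coprime.2 hgq) hd
  · intro hd
    exact hd.mul_left _

theorem Gs_udq {N D q : ℕ} (hN : 1 ≤ N)
    (hcl : ∀ m : ℕ, 1 ≤ m → (m : ℝ) * Real.log N ≤ N →
    ∀ c : ℤ, |Gs N (fun n => if (m : ℤ) ∣ n - c then 1 else 0) - (N : ℝ) / m| ≤
      1 / (N : ℝ) ^ 5) (hD : (D : ℝ) ^ 2 * Real.log N ≤ N) (d e : ℕ) (hd : 1 ≤ d) (he : 1 ≤ e)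
    (hdD : d ≤ D) (heD : e ≤ D) (hdq : Nat.Coprime d q) (H : ℕ) :
    |Gs N (fun n => udq q H d n * udq q H e n)| ≤
      N * H * (1 / ((Nat.lcm d e : ℕ) : ℝ)) + (H : ℝ) ^ 2 * (4 / (N : ℝ) ^ 5) := by
  have e1 : Gs N (fun n => udq q H d n * udq q H e n) =
      ∑ h ∈ Icc 1 H, ∑ h' ∈ Icc 1 H,
        Gs N (fun n => BX.dl d (n + ((q * h : ℕ) : ℤ)) * BX.dl e (n + ((q * h' : ℕ) : ℤ))) := by
    have e2 : ∀ n, udq q H d n * udq q H e n =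
        ∑ h ∈ Icc 1 H, ∑ h' ∈ Icc 1 H,
          BX.dl d (n + ((q * h : ℕ) : ℤ)) * BX.dl e (n + ((q * h' : ℕ) : ℤ)) := by
      intro n
      unfold udq
      rw [Finset.sum_mul_sum]
    rw [Gs_congr N e2, Gs_sum hN]
    · refine Finset.sum_congr rfl fun h _ => ?_
      rw [Gs_sum hN]
      intro h' _
      exact (Bd.dl d _).mul (Bd.dl e _)
    · intro h _
      exact Bd.sum _ fun h' _ => (Bd.dl d _).mul (Bd.dl e _)
  rw [e1]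
  have hl0 : (0 : ℝ) < ((Nat.lcm d e : ℕ) : ℝ) := by exact_mod_cast Nat.lcm_pos hd he
  have hg1 : 1 ≤ Nat.gcd d e := Nat.gcd_pos_of_pos_left e hd
  have hgq : Nat.Coprime (Nat.gcd d e) q := Nat.Coprime.coprime_dvd_left (Nat.gcd_dvd_left d e) hdq
  set T : ℕ → ℕ → ℝ := fun h h' => N * (1 / ((Nat.lcm d e : ℕ) : ℝ) *
        ((if ((Nat.gcd d e : ℕ) : ℤ) ∣ (h : ℤ) - h' then 1 else 0) - 1 / ((Nat.gcd d e : ℕ) : ℝ)))
    with hT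
  have e3 : ∑ h ∈ Icc 1 H, ∑ h' ∈ Icc 1 H,
        Gs N (fun n => BX.dl d (n + ((q * h : ℕ) : ℤ)) * BX.dl e (n + ((q * h' : ℕ) : ℤ))) =
      ∑ h ∈ Icc 1 H, ∑ h' ∈ Icc 1 H, T h h' +
      ∑ h ∈ Icc 1 H, ∑ h' ∈ Icc 1 H,
        (Gs N (fun n => BX.dl d (n + ((q * h : ℕ) : ℤ)) *
          BX.dl e (n + ((q * h' : ℕ) : ℤ))) - T h h') := by
    rw [← Finset.sum_add_distrib]
    refine Finset.sum_congr rfl fun h _ => ?_
    rw [← Finset.sum_add_distrib]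
    refine Finset.sum_congr rfl fun h' _ => ?_
    ring
  rw [e3]
  refine (abs_add_le _ _).trans (add_le_add ?_ ?_)
  · refine (Finset.abs_sum_le_sum_abs _ _).trans ?_
    calc ∑ h ∈ Icc 1 H, |∑ h' ∈ Icc 1 H, T h h'|
        ≤ ∑ h ∈ Icc 1 H, N * (1 / ((Nat.lcm d e : ℕ) : ℝ)) := by
          refine Finset.sum_le_sum fun h _ => ?_
          have e4 : ∑ h' ∈ Icc 1 H, T h h' = N * (1 / ((Nat.lcm d e : ℕ) : ℝ)) *
              ∑ h' ∈ Icc 1 H, ((if ((Nat.gcd d e : ℕ) : ℤ) ∣ (h : ℤ) - h' then (1 : ℝ) else 0) -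
                1 / ((Nat.gcd d e : ℕ) : ℝ)) := by
            rw [Finset.mul_sum]
            refine Finset.sum_congr rfl fun h' _ => ?_
            simp only [hT]
            ring
          rw [e4, abs_mul, abs_of_nonneg (by positivity)]
          have := cls_count (Nat.gcd d e) hg1 h H
          calc _ ≤ N * (1 / ((Nat.lcm d e : ℕ) : ℝ)) * 1 :=
                mul_le_mul_of_nonneg_left this (by positivity)
            _ = _ := mul_one _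
      _ = _ := by
          rw [Finset.sum_const, Nat.card_Icc, nsmul_eq_mul, Nat.add_sub_cancel]
          ring
  · refine (Finset.abs_sum_le_sum_abs _ _).trans ?_
    calc ∑ h ∈ Icc 1 H, |∑ h' ∈ Icc 1 H,
          (Gs N (fun n => BX.dl d (n + ((q * h : ℕ) : ℤ)) *
            BX.dl e (n + ((q * h' : ℕ) : ℤ))) - T h h')|
        ≤ ∑ h ∈ Icc 1 H, ∑ h' ∈ Icc 1 H, 4 / (N : ℝ) ^ 5 := by
          refine Finset.sum_le_sum fun h _ => (Finset.abs_sum_le_sum_abs _ _).trans ?_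
          refine Finset.sum_le_sum fun h' _ => ?_
          have h5 := Gs_dl2 hN hcl hD d e hd he hdD heD ((q * h : ℕ) : ℤ) ((q * h' : ℕ) : ℤ)
          simp only [dvd_q hgq h h'] at h5
          exact h5
      _ = _ := by
          rw [Finset.sum_const, Finset.sum_const, Nat.card_Icc, nsmul_eq_mul, nsmul_eq_mul,
            Nat.add_sub_cancel]
          ring

/-- **variance of the sieve for small primes**, along progressions -/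
theorem var_Aq {N D q : ℕ} (hN : 1 ≤ N) (hD1 : 1 ≤ D)
    (hcl : ∀ m : ℕ, 1 ≤ m → (m : ℝ) * Real.log N ≤ N →
    ∀ c : ℤ, |Gs N (fun n => if (m : ℤ) ∣ n - c then 1 else 0) - (N : ℝ) / m| ≤
      1 / (N : ℝ) ^ 5) (hD : (D : ℝ) ^ 2 * Real.log N ≤ N) (c : ℕ → ℝ)
    (hc : ∀ d, |c d| ≤ wk 3 d) (hcq : ∀ d, c d ≠ 0 → Nat.Coprime d q) (H : ℕ) :
    Gs N (fun n => (∑ h ∈ Icc 1 H, dc c D (n + ((q * h : ℕ) : ℤ))) ^ 2) ≤
      N * H * (1 + Real.log D) ^ 15 + (D : ℝ) ^ 6 * ((H : ℝ) ^ 2 * (4 / (N : ℝ) ^ 5)) := by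
  have e1 : ∀ n, (∑ h ∈ Icc 1 H, dc c D (n + ((q * h : ℕ) : ℤ))) ^ 2 =
      ∑ d ∈ Icc 1 D, ∑ e ∈ Icc 1 D, (c d * c e) * (udq q H d n * udq q H e n) := by
    intro n
    have e2 : ∑ h ∈ Icc 1 H, dc c D (n + ((q * h : ℕ) : ℤ)) =
        ∑ d ∈ Icc 1 D, c d * udq q H d n := by
      unfold dc udq
      rw [Finset.sum_comm]
      refine Finset.sum_congr rfl fun d _ => ?_
      rw [Finset.mul_sum]
    rw [e2, pow_two, Finset.sum_mul_sum]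
    refine Finset.sum_congr rfl fun d _ => Finset.sum_congr rfl fun e _ => ?_
    ring
  rw [Gs_congr N e1, Gs_sum hN]
  swap
  · intro d _
    exact Bd.sum _ fun e _ => ((Bd.udq q H d).mul (Bd.udq q H e)).cmul _
  calc ∑ d ∈ Icc 1 D, Gs N (fun n => ∑ e ∈ Icc 1 D, (c d * c e) * (udq q H d n * udq q H e n))
      ≤ ∑ d ∈ Icc 1 D, ∑ e ∈ Icc 1 D, wk 3 d * wk 3 e *
        (N * H * (1 / ((Nat.lcm d e : ℕ) : ℝ)) + (H : ℝ) ^ 2 * (4 / (N : ℝ) ^ 5)) := by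
        refine Finset.sum_le_sum fun d hd => ?_
        rw [Gs_sum hN]
        swap
        · intro e _
          exact ((Bd.udq q H d).mul (Bd.udq q H e)).cmul _
        refine Finset.sum_le_sum fun e he => ?_
        rw [Gs_cmul]
        refine (le_abs_self _).trans ?_
        rw [abs_mul, abs_mul]
        rw [Finset.mem_Icc] at hd he
        by_cases h0 : c d = 0
        · rw [h0, abs_zero, zero_mul, zero_mul]
          exact mul_nonneg (mul_nonneg (wk_nonneg 3 d) (wk_nonneg 3 e)) (by positivity)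
        · apply mul_le_mul _ (Gs_udq hN hcl hD d e hd.1 he.1 hd.2 he.2 (hcq d h0) H)
            (abs_nonneg _)
          · exact mul_nonneg (wk_nonneg 3 d) (wk_nonneg 3 e)
          · exact mul_le_mul (hc d) (hc e) (abs_nonneg _) (wk_nonneg 3 d)
    _ = N * H * ∑ d ∈ Icc 1 D, ∑ e ∈ Icc 1 D, wk 3 d * wk 3 e / ((Nat.lcm d e : ℕ) : ℝ) +
        (∑ d ∈ Icc 1 D, wk 3 d) * (∑ e ∈ Icc 1 D, wk 3 e) * ((H : ℝ) ^ 2 * (4 / (N : ℝ) ^ 5)) := by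
        rw [Finset.sum_mul_sum, Finset.mul_sum, Finset.sum_mul, ← Finset.sum_add_distrib]
        refine Finset.sum_congr rfl fun d _ => ?_
        rw [Finset.mul_sum, Finset.sum_mul, ← Finset.sum_add_distrib]
        refine Finset.sum_congr rfl fun e _ => ?_
        ring
    _ ≤ _ := by
        apply add_le_add
        · apply mul_le_mul_of_nonneg_left _ (by positivity)
          exact wk_quad 3 D hD1
        · apply mul_le_mul_of_nonneg_right _ (by positivity)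
          have h0 : 0 ≤ ∑ d ∈ Icc 1 D, wk 3 d := Finset.sum_nonneg fun d _ => wk_nonneg 3 d
          calc _ ≤ (D : ℝ) ^ 3 * (D : ℝ) ^ 3 := mul_le_mul (sum_wk3 D) (sum_wk3 D) h0 (by positivity)
            _ = _ := by ring

/-- **variance of one block**, general shifts -/
theorem var_Ts {N : ℕ} (hN : 1 ≤ N) (a : ℤ → ℝ) (ha : ∀ h : ℤ, Bd (fun n => a (n + h))) (H : ℕ)
    (s : ℕ → ℤ) (Dg Of : ℝ) (hD : ∀ h ∈ Icc 1 H, Gs N (fun n => a (n + s h) ^ 2) ≤ Dg)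
    (hO : ∀ h ∈ Icc 1 H, ∀ h' ∈ Icc 1 H, h ≠ h' →
      Gs N (fun n => a (n + s h) * a (n + s h')) ≤ Of) (hOf : 0 ≤ Of) :
    Gs N (fun n => (∑ h ∈ Icc 1 H, a (n + s h)) ^ 2) ≤ H * Dg + (H : ℝ) ^ 2 * Of := by
  have e1 : ∀ n : ℤ, (∑ h ∈ Icc 1 H, a (n + s h)) ^ 2 =
      ∑ h ∈ Icc 1 H, ∑ h' ∈ Icc 1 H, a (n + s h) * a (n + s h') := by
    intro n
    rw [pow_two, Finset.sum_mul_sum]
  rw [Gs_congr N e1, Gs_sum hN]
  swap
  · intro h _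
    exact Bd.sum _ fun h' _ => (ha _).mul (ha _)
  have h1 : ∀ h ∈ Icc 1 H, Gs N (fun n => ∑ h' ∈ Icc 1 H, a (n + s h) * a (n + s h')) ≤
      Dg + H * Of := by
    intro h hh
    rw [Gs_sum hN]
    swap
    · intro h' _
      exact (ha _).mul (ha _)
    rw [← Finset.add_sum_erase _ _ hh]
    apply add_le_add
    · have := hD h hh
      simp only [pow_two] at this
      exact this
    · calc ∑ h' ∈ (Icc 1 H).erase h, Gs N (fun n => a (n + s h) * a (n + s h'))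
          ≤ ∑ h' ∈ (Icc 1 H).erase h, Of := by
            refine Finset.sum_le_sum fun h' hh' => ?_
            rw [Finset.mem_erase] at hh'
            exact hO h hh h' hh'.2 (fun e => hh'.1 e.symm)
        _ = ((Icc 1 H).erase h).card * Of := by rw [Finset.sum_const, nsmul_eq_mul]
        _ ≤ H * Of := by
            apply mul_le_mul_of_nonneg_right _ hOf
            have : ((Icc 1 H).erase h).card ≤ (Icc 1 H).card := Finset.card_erase_le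
            rw [Nat.card_Icc, Nat.add_sub_cancel] at this
            exact_mod_cast this
  calc _ ≤ ∑ h ∈ Icc 1 H, (Dg + H * Of) := Finset.sum_le_sum h1
    _ = _ := by
        rw [Finset.sum_const, Nat.card_Icc, nsmul_eq_mul, Nat.add_sub_cancel]
        ring

theorem off_mainq {X D Z D0 H q : ℕ} {θ' δ e0 η ε₁ η₁ C K : ℝ} {cA b : ℕ → ℝ} {P : Finset ℕ}
    (hq : 1 ≤ q)
    (hTR : TrAt θ' δ e0 η ε₁ η₁ C) (hX : 2 ≤ X) (hZ : (Z : ℝ) ≤ (X : ℝ) ^ θ') (hD0 : 1 ≤ D0)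
    (hZD : (Z : ℝ) ≤ (X : ℝ) ^ e0 * D0) (hP : ∀ p ∈ P, (p : ℝ) ≤ (X : ℝ) ^ ε₁) (hD1 : 1 ≤ D)
    (hwk : ∀ d, |cA d| ≤ wk 3 d) (hcP : ∀ d, cA d ≠ 0 → ∀ p : ℕ, p.Prime → p ∣ d → p ∈ P)
    (hK1 : 1 ≤ K) (hKD : (1 + Real.log D) ^ 15 ≤ K) (hR : (D : ℝ) ^ 2 ≤ (X : ℝ) ^ (e0 / 8))
    (hY : (D : ℝ) ^ 6 ≤ (X : ℝ) ^ η)
    (hRC : RC (fun p => p ∈ q.primeFactors) ((X : ℝ) ^ ε₁) Z b)
    (hb0 : ∀ d, b d ≠ 0 → D0 < d) (hF : Fc X θ' δ b b) (hHε : (H : ℝ) ≤ (X : ℝ) ^ ε₁)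
    (hH12 : ((q * H : ℕ) : ℝ) ≤ X - (X : ℝ) ^ (1 / 2 : ℝ)) {h h' : ℕ} (hh : h ∈ Icc 1 H)
    (hh' : h' ∈ Icc 1 H) (hne : h ≠ h') :
    |Gs X (fun n => (ds cA D (n + ((q * h : ℕ) : ℤ)) * ds cA D (n + ((q * h' : ℕ) : ℤ))) *
      (dc b Z (n + ((q * h : ℕ) : ℤ)) * dc b Z (n + ((q * h' : ℕ) : ℤ))))| ≤
      K * (C * (X : ℝ) ^ (1 - η₁)) := by
  have hK0 : 0 < K := by linarith only [hK1]
  have hne' : ((h : ℕ) : ℤ) ≠ ((h' : ℕ) : ℤ) := by exact_mod_cast hne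
  have hneq : ((q * h : ℕ) : ℤ) ≠ ((q * h' : ℕ) : ℤ) := by
    intro e
    have e' : q * h = q * h' := by exact_mod_cast e
    exact hne (Nat.eq_of_mul_eq_mul_left (by omega) e')
  have b1 := Finset.mem_Icc.1 hh
  have b2 := Finset.mem_Icc.1 hh'
  have hHh : ((q * h : ℕ) : ℝ) ≤ ((q * H : ℕ) : ℝ) := by
    exact_mod_cast Nat.mul_le_mul_left q b1.2
  have hHh' : ((q * h' : ℕ) : ℝ) ≤ ((q * H : ℕ) : ℝ) := by
    exact_mod_cast Nat.mul_le_mul_left q b2.2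
  have hdist : |(((h : ℕ) : ℤ) - ((h' : ℕ) : ℤ) : ℤ)| < H := by
    rw [abs_lt]
    constructor <;> omega
  obtain ⟨mm, hmm, hEx⟩ := exg_pair P D hD1 cA hwk hcP ((q * h : ℕ) : ℤ) ((q * h' : ℕ) : ℤ) K hK1
    hKD
  have c1 : |((-((q * h : ℕ) : ℤ) : ℤ) : ℝ)| ≤ X - (X : ℝ) ^ (1 / 2 : ℝ) := by
    rw [Int.cast_neg, Int.cast_natCast, abs_neg, Nat.abs_cast]
    exact hHh.trans hH12
  have c2 : |((-((q * h' : ℕ) : ℤ) : ℤ) : ℝ)| ≤ X - (X : ℝ) ^ (1 / 2 : ℝ) := by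
    rw [Int.cast_neg, Int.cast_natCast, abs_neg, Nat.abs_cast]
    exact hHh'.trans hH12
  have c3 : (-((q * h : ℕ) : ℤ) : ℤ) ≠ -((q * h' : ℕ) : ℤ) := fun e => hneq (neg_injective e)
  have c4 : ∀ p : ℕ, p.Prime → (X : ℝ) ^ ε₁ < (p : ℝ) →
      (p : ℤ) ∣ -((q * h : ℕ) : ℤ) - -((q * h' : ℕ) : ℤ) →
      (fun p => p ∈ q.primeFactors) p := by
    intro p hp hpX hpd
    beta_reduce
    rw [Nat.mem_primeFactors]
    refine ⟨hp, ?_, by omega⟩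
    have e : -((q * h : ℕ) : ℤ) - -((q * h' : ℕ) : ℤ) = (q : ℤ) * ((h' : ℤ) - h) := by
      push_cast
      ring
    rw [e] at hpd
    rcases (Nat.prime_iff_prime_int.1 hp).dvd_or_dvd hpd with h1 | h1
    · exact Int.natCast_dvd_natCast.1 h1
    · exfalso
      have q1 : (p : ℤ) ∣ ((h : ℕ) : ℤ) - ((h' : ℕ) : ℤ) := by
        have : ((h' : ℤ) - h) = -(((h : ℕ) : ℤ) - ((h' : ℕ) : ℤ)) := by
          ring
        rw [this, dvd_neg] at h1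
        exact h1
      have q2 : (p : ℤ) ≤ |(((h : ℕ) : ℤ) - ((h' : ℕ) : ℤ) : ℤ)| :=
        Int.le_of_dvd (abs_pos.2 (sub_ne_zero.2 hne')) ((dvd_abs _ _).2 q1)
      have q3 : (p : ℤ) < H := lt_of_le_of_lt q2 hdist
      have q4 : (p : ℝ) < H := by exact_mod_cast q3
      linarith only [q4, hHε, hpX]
  have hTT := hTR X D0 Z hX hZ hD0 hZD
    (fun p => p ∈ P) (fun p => p ∈ q.primeFactors) ((D : ℝ) ^ 6) ((D : ℝ) ^ 2)
    ((X : ℝ) ^ ε₁) _ mm le_rfl hP hEx hR hY hmm (-((q * h : ℕ) : ℤ)) (-((q * h' : ℕ) : ℤ)) c1 c2 c3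
    c4 b b hRC hRC hb0 hb0 hF
  have e3 : Gs X (fun n => (ds cA D (n + ((q * h : ℕ) : ℤ)) * ds cA D (n + ((q * h' : ℕ) : ℤ))) *
      (dc b Z (n + ((q * h : ℕ) : ℤ)) * dc b Z (n + ((q * h' : ℕ) : ℤ)))) =
      K * ∑' n : ℤ, Wt X n * ((ds cA D (n + ((q * h : ℕ) : ℤ)) *
        ds cA D (n + ((q * h' : ℕ) : ℤ)) / K) *
      (dc b Z (n - -((q * h : ℕ) : ℤ)) * dc b Z (n - -((q * h' : ℕ) : ℤ)))) := by
    rw [← tsum_mul_left]
    unfold Gs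
    refine tsum_congr fun n => ?_
    rw [sub_neg_eq_add, sub_neg_eq_add]
    field_simp
  rw [e3, abs_mul, abs_of_pos hK0]
  exact mul_le_mul_of_nonneg_left hTT hK0.le

/-- **one block**, along progressions -/
theorem blk_varq {X D Z D0 H q : ℕ} {θ θ' δ e0 η ε₁ η₁ C K E κ : ℝ} {cA b : ℕ → ℝ}
    {P : Finset ℕ} (hq : 1 ≤ q)
    (hTR : TrAt θ' δ e0 η ε₁ η₁ C) (hX : 64 ≤ X) (hZ : (Z : ℝ) ≤ (X : ℝ) ^ θ') (hD0 : 1 ≤ D0)
    (hZθ : (Z : ℝ) ≤ (X : ℝ) ^ θ) (hηθ : η + θ ≤ 3 / 5) (hE : 0 < E) (hC : 0 < C)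
    (hZD : (Z : ℝ) ≤ (X : ℝ) ^ e0 * D0) (hP : ∀ p ∈ P, (p : ℝ) ≤ (X : ℝ) ^ ε₁) (hD1 : 1 ≤ D)
    (hwk : ∀ d, |cA d| ≤ wk 3 d) (hcP : ∀ d, cA d ≠ 0 → ∀ p : ℕ, p.Prime → p ∣ d → p ∈ P)
    (hK1 : 1 ≤ K) (hKD : (1 + Real.log D) ^ 15 ≤ K) (hR : (D : ℝ) ^ 2 ≤ (X : ℝ) ^ (e0 / 8))
    (hY : (D : ℝ) ^ 6 ≤ (X : ℝ) ^ η) (hD6X : (D : ℝ) ^ 6 ≤ X)
    (hRC : RC (fun p => p ∈ q.primeFactors) ((X : ℝ) ^ ε₁) Z b)
    (hb0 : ∀ d, b d ≠ 0 → D0 < d) (hF : Fc X θ' δ b b) (hHε : (H : ℝ) ≤ (X : ℝ) ^ ε₁)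
    (hκ1 : κ ≤ η₁) (hHκ : (H : ℝ) ≤ (X : ℝ) ^ κ) (hH25 : (H : ℝ) ≤ (X : ℝ) ^ (2 / 5 : ℝ))
    (hH12 : ((q * H : ℕ) : ℝ) ≤ X - (X : ℝ) ^ (1 / 2 : ℝ)) (hHX : q * H ≤ X)
    (hcl : ∀ m : ℕ, 1 ≤ m → (m : ℝ) * Real.log (2 * X : ℕ) ≤ (2 * X : ℕ) →
    ∀ c : ℤ, |Gs (2 * X) (fun n => if (m : ℤ) ∣ n - c then 1 else 0) - ((2 * X : ℕ) : ℝ) / m| ≤
      1 / ((2 * X : ℕ) : ℝ) ^ 5) (hDl2 : (D : ℝ) ^ 2 * Real.log (2 * X : ℕ) ≤ (2 * X : ℕ))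
    (hrc : ∀ u n : ℤ, |(u : ℝ)| ≤ X → n + u ≠ 0 →
      |dc b Z (n + u)| ≤ E * (1 + |(n : ℝ)| / X) ^ (1 / 4 : ℝ)) :
    Gs X (fun n => (∑ h ∈ Icc 1 H, at0 cA b D Z (n + ((q * h : ℕ) : ℤ))) ^ 2) ≤
      (3 * Real.exp 1 * E ^ 2 + (C + 4 * E)) * (X * H * K) := by
  have hX1 : 1 ≤ X := by omega
  have hX0 : (0 : ℝ) < X := by exact_mod_cast hX1
  refine (var_Ts (N := X) hX1 (at0 cA b D Z) (fun h => Bd.at0 cA b D Z h) H
        (fun h => ((q * h : ℕ) : ℤ))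
        (Real.exp 1 * E ^ 2 * (((2 * X : ℕ) : ℝ) * (1 + Real.log D) ^ 15 +
          (D : ℝ) ^ 6 * (1 / ((2 * X : ℕ) : ℝ) ^ 5)))
        (K * (C * (X : ℝ) ^ (1 - η₁)) + 2 * (2 * E * (X : ℝ) ^ (3 / 5 : ℝ)))
        ?_ ?_ ?_).trans (blk_num hX1 hE.le hC.le hK1 hKD hD6X hκ1 hHκ hH25)
  · intro h hh
    apply diag_T hX1 hD1 hcl hDl2 cA b hwk ((q * h : ℕ) : ℤ) E
    intro n hn
    apply hrc _ _ _ hn
    rw [Int.cast_natCast, Nat.abs_cast]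
    have : q * h ≤ X := (Nat.mul_le_mul_left q (Finset.mem_Icc.1 hh).2).trans hHX
    exact_mod_cast this
  · intro h hh h' hh' hne
    have hneq : ((q * h : ℕ) : ℤ) ≠ ((q * h' : ℕ) : ℤ) := by
      intro e
      have e' : q * h = q * h' := by exact_mod_cast e
      exact hne (Nat.eq_of_mul_eq_mul_left (by omega) e')
    have hdist : ∀ u v : ℕ, u ∈ Icc 1 H → v ∈ Icc 1 H →
        |((((q * u : ℕ) : ℤ) - ((q * v : ℕ) : ℤ) : ℤ) : ℝ)| ≤ X := by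
      intro u v hu hv
      rw [Finset.mem_Icc] at hu hv
      have hu' : q * u ≤ X := (Nat.mul_le_mul_left q hu.2).trans hHX
      have hv' : q * v ≤ X := (Nat.mul_le_mul_left q hv.2).trans hHX
      have h1 : |(((q * u : ℕ) : ℤ) - ((q * v : ℕ) : ℤ) : ℤ)| ≤ X := by
        rw [abs_le]
        constructor <;> omega
      have h2 : ((|(((q * u : ℕ) : ℤ) - ((q * v : ℕ) : ℤ) : ℤ)| : ℤ) : ℝ) ≤ ((X : ℤ) : ℝ) := by
        exact_mod_cast h1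
      rw [Int.cast_abs, Int.cast_natCast] at h2
      exact h2
    apply off_T hX1 cA b ((q * h : ℕ) : ℤ) ((q * h' : ℕ) : ℤ) hneq
    · exact off_mainq hq hTR (by omega) hZ hD0 hZD hP hD1 hwk hcP hK1 hKD hR hY hRC hb0 hF hHε hH12
        hh hh' hne
    · exact zero_val hX1 hwk hRC.bd hZθ hY hE.le hηθ hrc _ (sub_ne_zero.2 fun e => hneq e.symm)
        (hdist h' h hh' hh)
    · exact zero_val hX1 hwk hRC.bd hZθ hY hE.le hηθ hrc _ (sub_ne_zero.2 hneq)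
        (hdist h h' hh hh')
  · positivity

end Pool.Agent.R516
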