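import Mathlib
import Pool.Agent.R516.QC
import Pool.Agent.R516.Win

/-! Primes in almost all short progressions to every modulus: preliminaries. -/

set_option autoImplicit false

namespace Pool.Agent.R516

open Finset Filter Topology

open Classical in
theorem classes_card (N q : ℕ) (hq : 1 ≤ q) (B : ℕ → Set ℕ) :
    ((Icc 1 N).filter (fun n => q ≤ n ∧ n / q ∈ B (n % q))).card ≤
      ∑ r ∈ range q, ((Icc 1 ((N - r) / q)).filter (fun m => m ∈ B r)).card := by
  have hm : ∀ n ∈ (Icc 1 N).filter (fun n => q ≤ n ∧ n / q ∈ B (n % q)), n % q ∈ range q :=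
    fun n _ => Finset.mem_range.2 (Nat.mod_lt _ (by omega))
  rw [Finset.card_eq_sum_card_fiberwise hm]
  refine Finset.sum_le_sum fun r _ => ?_
  refine Finset.card_le_card_of_injOn (fun n => n / q) ?_ ?_
  · intro n hn
    rw [Finset.mem_coe, Finset.mem_filter, Finset.mem_filter, Finset.mem_Icc] at hn
    obtain ⟨⟨hn1, hn2, hn3⟩, hn4⟩ := hn
    rw [Finset.mem_coe, Finset.mem_filter, Finset.mem_Icc]
    beta_reduce
    rw [hn4] at hn3
    refine ⟨⟨?_, ?_⟩, hn3⟩
    · exact Nat.div_pos hn2 (by omega)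
    · rw [Nat.le_div_iff_mul_le (by omega)]
      have := Nat.div_add_mod n q
      rw [hn4, mul_comm] at this
      omega
  · intro n hn n' hn' h
    rw [Finset.mem_coe, Finset.mem_filter, Finset.mem_filter, Finset.mem_Icc] at hn hn'
    beta_reduce at h
    have e1 := Nat.div_add_mod n q
    have e2 := Nat.div_add_mod n' q
    rw [hn.2] at e1
    rw [hn'.2] at e2
    rw [← e1, ← e2, h]

theorem classes_sum (N q : ℕ) (hq : 1 ≤ q) (F : ℕ → ℝ) (hF : ∀ n, 0 ≤ F n) :
    ∑ r ∈ range q, ∑ k ∈ Icc 1 ((N - r) / q), F (r + q * (k - 1)) ≤ ∑ n ∈ Icc 0 N, F n := by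
  classical
  have hm : ∀ n ∈ Icc 0 N, n % q ∈ range q :=
    fun n _ => Finset.mem_range.2 (Nat.mod_lt _ (by omega))
  rw [← Finset.sum_fiberwise_of_maps_to hm]
  refine Finset.sum_le_sum fun r hr => ?_
  rw [Finset.mem_range] at hr
  rw [← Finset.sum_image (f := F) (g := fun k => r + q * (k - 1))]
  · apply Finset.sum_le_sum_of_subset_of_nonneg
    · intro n hn
      rw [Finset.mem_image] at hn
      obtain ⟨k, hk, rfl⟩ := hn
      rw [Finset.mem_Icc] at hk
      rw [Finset.mem_filter, Finset.mem_Icc]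
      have h1 : k * q ≤ N - r := (Nat.le_div_iff_mul_le (by omega)).1 hk.2
      have h2 : q * (k - 1) + q = q * k := by
        obtain ⟨j, rfl⟩ : ∃ j, k = j + 1 := ⟨k - 1, by omega⟩
        rw [Nat.add_sub_cancel]
        ring
      rw [mul_comm k q] at h1
      refine ⟨⟨Nat.zero_le _, by omega⟩, ?_⟩
      rw [Nat.add_mul_mod_self_left]
      exact Nat.mod_eq_of_lt hr
    · intro n _ _
      exact hF n
  · intro k hk k' hk' h
    rw [Finset.mem_coe, Finset.mem_Icc] at hk hk'
    beta_reduce at h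
    have h1 : q * (k - 1) = q * (k' - 1) := by omega
    have h2 := Nat.eq_of_mul_eq_mul_left (by omega) h1
    omega

/-- the basic step, for a general sequence -/
theorem win_stepf {K : ℕ} {f : ℕ → ℝ} {V : ℝ} (hf : ∀ m, 0 ≤ f m) (hV : 0 ≤ V) {H : ℕ}
    (hH : 1 ≤ H) {l : ℝ} (hl : 0 ≤ l) {n a b : ℕ}
    (hna : a < n) (hnb : n ≤ b) (hb : b ≤ K)
    (hn : n ∉ Ex (fun k => (∑ h ∈ Icc 1 H, f ((k - 1) + h) - H * V) ^ 2) l K) :
    ∑ m ∈ Ioc (max a H) b, f m ≤ ((b : ℝ) - a + H) * (V + Real.sqrt l / H) := by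
  have hH0 : (0 : ℝ) < H := by exact_mod_cast hH
  have hab : (0 : ℝ) ≤ (b : ℝ) - a := by
    have : (a : ℝ) ≤ b := by exact_mod_cast (by omega : a ≤ b)
    linarith
  obtain ⟨a', ha'⟩ : ∃ a', a' = max a H := ⟨_, rfl⟩
  have ha1 : a ≤ a' := by rw [ha']; exact le_max_left _ _
  have ha2 : H ≤ a' := by rw [ha']; exact le_max_right _ _
  rw [← ha']
  rcases Nat.lt_or_ge b a' with hba | hba
  · rw [Finset.Ioc_eq_empty (show ¬ a' < b by omega), Finset.sum_empty]
    have := Real.sqrt_nonneg l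
    positivity
  have havg := avg_win f hf H a' b hH ha2
  obtain ⟨L, hL⟩ : ∃ L : ℝ, L = ((b : ℝ) - ((a' - H : ℕ) : ℝ)) := ⟨_, rfl⟩
  have hLr : L = (b : ℝ) - a' + H := by
    rw [hL, Nat.cast_sub ha2]
    ring
  have hLle : L ≤ (b : ℝ) - a + H := by
    rw [hLr]
    have : (a : ℝ) ≤ a' := by exact_mod_cast ha1
    linarith
  have hL0 : 0 ≤ L := by
    rw [hLr]
    have : (a' : ℝ) ≤ b := by exact_mod_cast hba
    linarith
  have hsq : ∑ k ∈ Ioc (a' - H) b,
      (∑ h ∈ Icc 1 H, f ((k - 1) + h) - H * V) ^ 2 ≤ l * L := by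
    by_contra hcon
    push Not at hcon
    apply hn
    refine ⟨a' - H, b, ?_, hnb, hb, ?_⟩
    · rw [ha']
      omega
    · rw [← hL]
      exact hcon
  set T : ℕ → ℝ := fun n => ∑ h ∈ Icc 1 H, f (n + h) - H * V with hT
  have hshift : ∑ n ∈ Ico (a' - H) b, T n ^ 2 = ∑ k ∈ Ioc (a' - H) b,
      (∑ h ∈ Icc 1 H, f ((k - 1) + h) - H * V) ^ 2 := by
    have e : Ioc (a' - H) b = (Ico (a' - H) b).image (fun n => n + 1) := by
      ext k
      rw [Finset.mem_image, Finset.mem_Ioc]
      constructor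
      · intro h
        exact ⟨k - 1, by rw [Finset.mem_Ico]; omega, by omega⟩
      · rintro ⟨n, hn, rfl⟩
        rw [Finset.mem_Ico] at hn
        omega
    rw [e, Finset.sum_image (fun x _ y _ hxy => Nat.add_right_cancel hxy)]
    rfl
  have hcardI : ((Ico (a' - H) b).card : ℝ) = L := by
    rw [Nat.card_Ico, hL, Nat.cast_sub (by omega)]
  have hCS : (∑ n ∈ Ico (a' - H) b, T n) ^ 2 ≤ L * (l * L) := by
    calc (∑ n ∈ Ico (a' - H) b, T n) ^ 2 ≤ (Ico (a' - H) b).card * ∑ n ∈ Ico (a' - H) b, T n ^ 2 :=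
          sq_sum_le_card_mul_sum_sq
      _ ≤ L * (l * L) := by
          rw [hcardI, hshift]
          exact mul_le_mul_of_nonneg_left hsq hL0
  have hS : ∑ n ∈ Ico (a' - H) b, T n ≤ Real.sqrt l * L := by
    apply le_of_sq_le_sq _ (by positivity)
    rw [mul_pow, Real.sq_sqrt hl]
    calc _ ≤ L * (l * L) := hCS
      _ = _ := by ring
  have hsum : ∑ n ∈ Ico (a' - H) b, ∑ h ∈ Icc 1 H, f (n + h) =
      ∑ n ∈ Ico (a' - H) b, T n + L * (H * V) := by
    simp only [hT]
    rw [Finset.sum_sub_distrib, Finset.sum_const, nsmul_eq_mul, hcardI]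
    ring
  have hfin : (H : ℝ) * ∑ m ∈ Ioc a' b, f m ≤ Real.sqrt l * L + L * (H * V) := by
    refine havg.trans ?_
    rw [hsum]
    linarith
  have hs0 := Real.sqrt_nonneg l
  calc ∑ m ∈ Ioc a' b, f m = (H * ∑ m ∈ Ioc a' b, f m) / H := by field_simp
    _ ≤ (Real.sqrt l * L + L * (H * V)) / H := by gcongr
    _ = L * (V + Real.sqrt l / H) := by field_simp; ring
    _ ≤ _ := mul_le_mul_of_nonneg_right hLle (by positivity)

/-- the primes of a class in an interval, in terms of the position in the class -/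
theorem cls_le {q r a b : ℕ} (hq : 1 ≤ q) (S : ℕ → Prop) [DecidablePred S] :
    ((Ioc a b).filter (fun p => S p ∧ p % q = r)).card ≤ 1 +
      ((Ioc ((a - r) / q) ((b - r) / q)).filter (fun m => S (r + q * m))).card := by
  classical
  have hsub : (Ioc a b).filter (fun p => S p ∧ p % q = r) ⊆ insert r
      (((Ioc ((a - r) / q) ((b - r) / q)).filter (fun m => S (r + q * m))).image
        (fun m => r + q * m)) := by
    intro p hp
    rw [Finset.mem_filter, Finset.mem_Ioc] at hp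
    obtain ⟨⟨h1, h2⟩, h3, h4⟩ := hp
    have e := Nat.div_add_mod p q
    rw [h4] at e
    rw [Finset.mem_insert, Finset.mem_image]
    rcases Nat.eq_zero_or_pos (p / q) with h5 | h5
    · left
      rw [h5, mul_zero, zero_add] at e
      exact e.symm
    · right
      refine ⟨p / q, ?_, by omega⟩
      rw [Finset.mem_filter, Finset.mem_Ioc]
      have e' : r + q * (p / q) = p := by omega
      rw [e']
      refine ⟨⟨?_, ?_⟩, h3⟩
      · rw [Nat.div_lt_iff_lt_mul (by omega), mul_comm]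
        have : 0 < q * (p / q) := Nat.mul_pos (by omega) h5
        omega
      · rw [Nat.le_div_iff_mul_le (by omega), mul_comm]
        omega
  refine (Finset.card_le_card hsub).trans ((Finset.card_insert_le _ _).trans ?_)
  rw [add_comm]
  exact Nat.add_le_add_left Finset.card_image_le 1

end Pool.Agent.R516
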