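import Mathlib
import Pool.Agent.R516.QD

/-! Primes in almost all short progressions to every modulus. -/

set_option autoImplicit false

namespace Pool.Agent.R516

open Finset Filter Topology

/-- the integers `n` for which some interval around `n`, of length at least `q H`, contains more than
`c` times its length primes congruent to `n` modulo `q` -/
def HiQ (N q : ℕ) (H c : ℝ) : Set ℕ :=
  {n | ∃ a b : ℕ, a < n ∧ n ≤ b ∧ b ≤ N ∧ q * H ≤ (b : ℝ) - a ∧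
    c * ((b : ℝ) - a) < (((Ioc a b).filter (fun p => p.Prime ∧ p % q = n % q)).card : ℝ)}

open Classical in
/-- almost all integers see at most `18 / 5` times the expected number of primes in each segment of
their class -/
def St_UQ : Prop := ∀ δ : ℝ, 0 < δ → ∃ κ : ℝ, 0 < κ ∧ ∃ N₀ : ℕ, ∀ N : ℕ, N₀ ≤ N →
  ∀ q : ℕ, 1 ≤ q → ∀ H : ℝ, 1 ≤ H → H ≤ (N : ℝ) ^ κ → q * H ≤ N →
    (((Icc 1 N).filter (fun n =>
      n ∈ HiQ N q H ((18 / 5 + δ) / (Nat.totient q * Real.log N)))).card : ℝ) ≤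
      N * (Real.log N) ^ 21 / H

theorem small_cls {q r b : ℕ} (hq : 1 ≤ q) (a : ℕ) (x : ℝ) (hx : 0 ≤ x) :
    (((Ioc a b).filter (fun p : ℕ => (p.Prime ∧ (p : ℝ) ≤ x) ∧ p % q = r)).card : ℝ) ≤
      x / q + 1 := by
  classical
  have hq0 : (0 : ℝ) < q := by exact_mod_cast hq
  have h1 : (Ioc a b).filter (fun p : ℕ => (p.Prime ∧ (p : ℝ) ≤ x) ∧ p % q = r) ⊆
      (Ioc 0 ⌊x⌋₊).filter (fun p : ℕ => p.Prime ∧ p % q = r) := by
    intro p hp
    rw [Finset.mem_filter] at hp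
    rw [Finset.mem_filter, Finset.mem_Ioc]
    exact ⟨⟨hp.2.1.1.pos, Nat.le_floor hp.2.1.2⟩, hp.2.1.1, hp.2.2⟩
  have h2 := (Finset.card_le_card h1).trans (cls_le (r := r) hq (a := 0) (b := ⌊x⌋₊) Nat.Prime)
  have h3 : ((Ioc ((0 - r) / q) ((⌊x⌋₊ - r) / q)).filter (fun m => (r + q * m).Prime)).card ≤
      ⌊x⌋₊ / q := by
    refine (Finset.card_filter_le _ _).trans ?_
    rw [Nat.card_Ioc]
    refine (Nat.sub_le _ _).trans ?_
    exact Nat.div_le_div_right (Nat.sub_le _ _)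
  have h4 : ((((Ioc a b).filter (fun p : ℕ => (p.Prime ∧ (p : ℝ) ≤ x) ∧ p % q = r)).card : ℕ) : ℝ) ≤
      1 + ((⌊x⌋₊ / q : ℕ) : ℝ) := by
    exact_mod_cast h2.trans (Nat.add_le_add_left h3 1)
  have h5 : ((⌊x⌋₊ / q : ℕ) : ℝ) ≤ x / q := by
    refine Nat.cast_div_le.trans ?_
    exact div_le_div_of_nonneg_right (Nat.floor_le hx) hq0.le
  linarith

/-- the count at one integer -/
theorem pointQ {N q n a b W r m : ℕ} {ν : ℤ → ℝ} {V δ H l L : ℝ} (hq : 1 ≤ q) (hδ : 0 < δ)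
    (hδ1 : δ ≤ 1) (hL : 1 ≤ L) (hν : ∀ m, 0 ≤ ν m) (hV0 : 0 ≤ V)
    (h35 : ∀ p : ℕ, p.Prime → (N : ℝ) ^ (3 / 5 : ℝ) < p → ν p = 1)
    (hV : V ≤ (q / (Nat.totient q : ℝ)) * ((18 / 5 + δ / 8) / L)) (hW1 : 1 ≤ W)
    (hW : (W : ℝ) ≤ δ / 32 * H / L) (hH : 1 ≤ δ / 32 * H / L)
    (hl : l = (δ / 16 * W / L) ^ 2) (hr : r = n % q) (hm : m = n / q) (hqn : q ≤ n)
    (hnE : m ∉ Ex (fun k => (∑ h ∈ Icc 1 W, ν ((r + q * ((k - 1) + h) : ℕ) : ℤ) - W * V) ^ 2) l
      ((N - r) / q))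
    (hn7 : (N : ℝ) ^ (7 / 10 : ℝ) < n)
    (h710 : 32 / δ * ((N : ℝ) ^ (3 / 5 : ℝ) * L) + (N : ℝ) ^ (3 / 5 : ℝ) ≤
      (N : ℝ) ^ (7 / 10 : ℝ))
    (ha : a < n) (hb : n ≤ b) (hbN : b ≤ N) (hab : q * H ≤ (b : ℝ) - a) :
    (((Ioc a b).filter (fun p => p.Prime ∧ p % q = n % q)).card : ℝ) ≤
      (18 / 5 + δ) / (Nat.totient q * L) * ((b : ℝ) - a) := by
  classical
  have hq0 : (0 : ℝ) < q := by exact_mod_cast hq
  obtain ⟨φ, hφ⟩ : ∃ φ : ℝ, φ = (Nat.totient q : ℝ) := ⟨_, rfl⟩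
  rw [← hφ] at hV ⊢
  have hφ0 : 0 < φ := by rw [hφ]; exact_mod_cast Nat.totient_pos.2 hq
  have hφq : φ ≤ q := by rw [hφ]; exact_mod_cast Nat.totient_le q
  have hL0 : 0 < L := by linarith
  have hN35 : (0 : ℝ) ≤ (N : ℝ) ^ (3 / 5 : ℝ) := Real.rpow_nonneg (Nat.cast_nonneg N) _
  have hW0 : (0 : ℝ) < W := by exact_mod_cast hW1
  obtain ⟨Δ, hΔ⟩ : ∃ Δ : ℝ, Δ = (b : ℝ) - a := ⟨_, rfl⟩
  rw [← hΔ] at hab ⊢
  have hH0 : 0 < H := by
    by_contra hcon
    push Not at hcon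
    have : δ / 32 * H / L ≤ 0 := by
      apply div_nonpos_of_nonpos_of_nonneg _ hL0.le
      exact mul_nonpos_of_nonneg_of_nonpos (by positivity) hcon
    linarith
  have hΔ0 : 0 < Δ := lt_of_lt_of_le (by positivity) hab
  have hHΔ : H ≤ Δ / q := by
    rw [le_div_iff₀ hq0]
    linarith
  have hΔφ : Δ / q ≤ Δ / φ := div_le_div_of_nonneg_left hΔ0.le hφ0 hφq
  obtain ⟨D, hD⟩ : ∃ D : ℝ, D = Δ / (φ * L) := ⟨_, rfl⟩
  have hD0 : 0 < D := by rw [hD]; positivity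
  have hDe : Δ / φ / L = D := by rw [hD, div_div]
  have hHD : δ / 32 * H / L ≤ δ / 32 * D := by
    rw [← hDe, mul_div_assoc]
    apply mul_le_mul_of_nonneg_left _ (by positivity)
    exact div_le_div_of_nonneg_right (hHΔ.trans hΔφ) hL0.le
  have hrq : r < q := by rw [hr]; exact Nat.mod_lt _ (by omega)
  have hnrm : n = r + q * m := by
    rw [hr, hm]
    have := Nat.div_add_mod n q
    omega
  have hm1 : 1 ≤ m := by rw [hm]; exact Nat.div_pos hqn (by omega)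
  -- splitting the primes
  have hsplit : (((Ioc a b).filter (fun p => p.Prime ∧ p % q = n % q)).card : ℝ) ≤
      (((Ioc a b).filter (fun p : ℕ => (p.Prime ∧ (N : ℝ) ^ (3 / 5 : ℝ) < p) ∧ p % q = r)).card : ℝ) +
      (((Ioc a b).filter (fun p : ℕ => (p.Prime ∧ (p : ℝ) ≤ (N : ℝ) ^ (3 / 5 : ℝ)) ∧
        p % q = r)).card : ℝ) := by
    rw [← hr]
    have h1 : (Ioc a b).filter (fun p => p.Prime ∧ p % q = r) ⊆
        (Ioc a b).filter (fun p : ℕ => (p.Prime ∧ (N : ℝ) ^ (3 / 5 : ℝ) < p) ∧ p % q = r) ∪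
        (Ioc a b).filter (fun p : ℕ => (p.Prime ∧ (p : ℝ) ≤ (N : ℝ) ^ (3 / 5 : ℝ)) ∧
          p % q = r) := by
      intro p hp
      rw [Finset.mem_filter] at hp
      rw [Finset.mem_union, Finset.mem_filter, Finset.mem_filter]
      rcases lt_or_ge ((N : ℝ) ^ (3 / 5 : ℝ)) (p : ℝ) with h | h
      · exact Or.inl ⟨hp.1, ⟨hp.2.1, h⟩, hp.2.2⟩
      · exact Or.inr ⟨hp.1, ⟨hp.2.1, h⟩, hp.2.2⟩
    exact_mod_cast (Finset.card_le_card h1).trans (Finset.card_union_le _ _)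
  -- the small primes
  have hsmall : (((Ioc a b).filter (fun p : ℕ => (p.Prime ∧ (p : ℝ) ≤ (N : ℝ) ^ (3 / 5 : ℝ)) ∧
        p % q = r)).card : ℝ) ≤ δ / 16 * D := by
    rcases Finset.eq_empty_or_nonempty ((Ioc a b).filter (fun p : ℕ =>
      (p.Prime ∧ (p : ℝ) ≤ (N : ℝ) ^ (3 / 5 : ℝ)) ∧ p % q = r)) with hemp | ⟨p, hp⟩
    · rw [hemp, Finset.card_empty, Nat.cast_zero]
      positivity
    · rw [Finset.mem_filter, Finset.mem_Ioc] at hp
      have h1 : (a : ℝ) < (N : ℝ) ^ (3 / 5 : ℝ) := by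
        have : (a : ℝ) < p := by exact_mod_cast hp.1.1
        linarith [hp.2.1.2]
      have h2 : (n : ℝ) ≤ b := by exact_mod_cast hb
      have h3 : 32 / δ * ((N : ℝ) ^ (3 / 5 : ℝ) * L) ≤ Δ := by
        rw [hΔ]
        linarith
      refine (small_cls hq a _ hN35).trans ?_
      have h4 : (N : ℝ) ^ (3 / 5 : ℝ) / q ≤ δ / 32 * D := by
        have h5 : (N : ℝ) ^ (3 / 5 : ℝ) ≤ δ / 32 * (Δ / L) := by
          rw [mul_div_assoc', le_div_iff₀ hL0]
          calc (N : ℝ) ^ (3 / 5 : ℝ) * L = δ / 32 * (32 / δ * ((N : ℝ) ^ (3 / 5 : ℝ) * L)) := by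
                field_simp
            _ ≤ _ := mul_le_mul_of_nonneg_left h3 (by positivity)
        calc (N : ℝ) ^ (3 / 5 : ℝ) / q ≤ (N : ℝ) ^ (3 / 5 : ℝ) / φ :=
              div_le_div_of_nonneg_left hN35 hφ0 hφq
          _ ≤ (δ / 32 * (Δ / L)) / φ := div_le_div_of_nonneg_right h5 hφ0.le
          _ = _ := by rw [hD]; field_simp
      have h6 := hH.trans hHD
      linarith
  -- the large primes
  obtain ⟨u, hu⟩ : ∃ u, u = (a - r) / q := ⟨_, rfl⟩
  obtain ⟨v, hv⟩ : ∃ v, v = (b - r) / q := ⟨_, rfl⟩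
  have hum : u < m := by
    rw [hu, Nat.div_lt_iff_lt_mul (by omega), mul_comm]
    have : 0 < q * m := Nat.mul_pos (by omega) hm1
    omega
  have hmv : m ≤ v := by
    rw [hv, Nat.le_div_iff_mul_le (by omega), mul_comm]
    omega
  have hvK : v ≤ (N - r) / q := by
    rw [hv]
    exact Nat.div_le_div_right (by omega)
  have hl0 : 0 ≤ l := by rw [hl]; positivity
  have hstep := win_stepf (f := fun k => ν ((r + q * k : ℕ) : ℤ)) (fun k => hν _) hV0 hW1 hl0 hum hmv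
    hvK hnE
  have hbig : (((Ioc a b).filter (fun p : ℕ =>
      (p.Prime ∧ (N : ℝ) ^ (3 / 5 : ℝ) < p) ∧ p % q = r)).card : ℝ) ≤
      1 + W + ∑ k ∈ Ioc (max u W) v, ν ((r + q * k : ℕ) : ℤ) := by
    have h1 := cls_le (r := r) hq (a := a) (b := b)
      (fun p : ℕ => p.Prime ∧ (N : ℝ) ^ (3 / 5 : ℝ) < p)
    rw [← hu, ← hv] at h1
    have h2 : (Ioc u v).filter (fun k => (r + q * k).Prime ∧
        (N : ℝ) ^ (3 / 5 : ℝ) < ((r + q * k : ℕ) : ℝ)) ⊆ Icc 1 W ∪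
        (Ioc (max u W) v).filter (fun k => (r + q * k).Prime ∧
        (N : ℝ) ^ (3 / 5 : ℝ) < ((r + q * k : ℕ) : ℝ)) := by
      intro k hk
      rw [Finset.mem_filter, Finset.mem_Ioc] at hk
      rw [Finset.mem_union, Finset.mem_Icc, Finset.mem_filter, Finset.mem_Ioc]
      rcases Nat.lt_or_ge W k with h | h
      · right
        exact ⟨⟨max_lt hk.1.1 h, hk.1.2⟩, hk.2⟩
      · left
        omega
    have h3 := (Finset.card_le_card h2).trans (Finset.card_union_le _ _)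
    rw [Nat.card_Icc, Nat.add_sub_cancel] at h3
    have h4 : ((((Ioc (max u W) v).filter (fun k => (r + q * k).Prime ∧
        (N : ℝ) ^ (3 / 5 : ℝ) < ((r + q * k : ℕ) : ℝ))).card : ℕ) : ℝ) ≤
        ∑ k ∈ Ioc (max u W) v, ν ((r + q * k : ℕ) : ℤ) := by
      calc _ = ∑ k ∈ (Ioc (max u W) v).filter (fun k => (r + q * k).Prime ∧
            (N : ℝ) ^ (3 / 5 : ℝ) < ((r + q * k : ℕ) : ℝ)), (1 : ℝ) := by
            rw [Finset.sum_const, nsmul_eq_mul, mul_one]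
        _ = ∑ k ∈ (Ioc (max u W) v).filter (fun k => (r + q * k).Prime ∧
            (N : ℝ) ^ (3 / 5 : ℝ) < ((r + q * k : ℕ) : ℝ)), ν ((r + q * k : ℕ) : ℤ) := by
            refine Finset.sum_congr rfl fun k hk => ?_
            rw [Finset.mem_filter] at hk
            exact (h35 _ hk.2.1 hk.2.2).symm
        _ ≤ _ := Finset.sum_le_sum_of_subset_of_nonneg (Finset.filter_subset _ _)
            (fun k _ _ => hν _)
    have h5 : ((((Ioc a b).filter (fun p : ℕ =>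
      (p.Prime ∧ (N : ℝ) ^ (3 / 5 : ℝ) < p) ∧ p % q = r)).card : ℕ) : ℝ) ≤
      1 + (W + ((((Ioc (max u W) v).filter (fun k => (r + q * k).Prime ∧
        (N : ℝ) ^ (3 / 5 : ℝ) < ((r + q * k : ℕ) : ℝ))).card : ℕ) : ℝ)) := by
      exact_mod_cast h1.trans (Nat.add_le_add_left h3 1)
    linarith
  -- the length
  have hlen : (v : ℝ) - u + W ≤ Δ / q * (1 + δ / 16) := by
    have h1 : (v : ℝ) ≤ ((b : ℝ) - r) / q := by
      rw [hv]
      refine Nat.cast_div_le.trans (le_of_eq ?_)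
      rw [Nat.cast_sub]
      have : r ≤ n := by omega
      omega
    have h2 : ((a : ℝ) - r) / q - 1 ≤ u := by
      rcases Nat.lt_or_ge a r with h | h
      · have h3 : (a : ℝ) < r := by exact_mod_cast h
        have h4 : ((a : ℝ) - r) / q ≤ 0 := div_nonpos_of_nonpos_of_nonneg (by linarith) hq0.le
        have : (0 : ℝ) ≤ u := Nat.cast_nonneg u
        linarith
      · have h3 : (a - r : ℕ) < q * (u + 1) := by
          rw [hu]
          exact Nat.lt_mul_div_succ _ (by omega)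
        have h4 : (a : ℝ) - r < q * ((u : ℝ) + 1) := by
          have h5 : (((a - r : ℕ) : ℕ) : ℝ) < ((q * (u + 1) : ℕ) : ℝ) := by exact_mod_cast h3
          rw [Nat.cast_sub h] at h5
          push_cast at h5
          exact h5
        have h6 : ((a : ℝ) - r) / q < (u : ℝ) + 1 := by
          rw [div_lt_iff₀ hq0]
          linarith
        linarith
    have h3 : ((b : ℝ) - r) / q - (((a : ℝ) - r) / q - 1) = Δ / q + 1 := by
      rw [hΔ]
      ring
    have h4 : 1 + (W : ℝ) ≤ δ / 16 * H := by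
      have h5 : δ / 32 * H / L ≤ δ / 32 * H := div_le_self (by positivity) hL
      linarith
    have h6 : δ / 16 * H ≤ δ / 16 * (Δ / q) := mul_le_mul_of_nonneg_left hHΔ (by positivity)
    linarith
  have hs : Real.sqrt l / W = δ / 16 / L := by
    rw [hl, Real.sqrt_sq (by positivity)]
    field_simp
  rw [hs] at hstep
  have hqφ1 : 1 ≤ q / φ := by rw [le_div_iff₀ hφ0]; linarith
  have hVs : V + δ / 16 / L ≤ (q / φ) * ((18 / 5 + 3 * δ / 16) / L) := by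
    have h1 : δ / 16 / L ≤ (q / φ) * (δ / 16 / L) :=
      le_mul_of_one_le_left (by positivity) hqφ1
    calc V + δ / 16 / L ≤ (q / φ) * ((18 / 5 + δ / 8) / L) + (q / φ) * (δ / 16 / L) :=
          add_le_add hV h1
      _ = _ := by ring
  have hprod : ((v : ℝ) - u + W) * (V + δ / 16 / L) ≤
      (1 + δ / 16) * (18 / 5 + 3 * δ / 16) * D := by
    calc ((v : ℝ) - u + W) * (V + δ / 16 / L)
        ≤ (Δ / q * (1 + δ / 16)) * ((q / φ) * ((18 / 5 + 3 * δ / 16) / L)) := by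
          apply mul_le_mul hlen hVs (by positivity) (by positivity)
      _ = _ := by
          rw [hD]
          field_simp
  have hfin : (((Ioc a b).filter (fun p => p.Prime ∧ p % q = n % q)).card : ℝ) ≤
      (δ / 8 + (1 + δ / 16) * (18 / 5 + 3 * δ / 16)) * D := by
    have h1 : 1 + (W : ℝ) ≤ δ / 16 * D := by linarith
    have h2 := hstep.trans hprod
    calc _ ≤ _ := hsplit
      _ ≤ (1 + W + (1 + δ / 16) * (18 / 5 + 3 * δ / 16) * D) + δ / 16 * D := by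
          apply add_le_add _ hsmall
          refine hbig.trans ?_
          linarith
      _ ≤ _ := by linarith
  refine hfin.trans ?_
  have h1 : δ / 8 + (1 + δ / 16) * (18 / 5 + 3 * δ / 16) ≤ 18 / 5 + δ := by
    nlinarith only [hδ, hδ1]
  calc (δ / 8 + (1 + δ / 16) * (18 / 5 + 3 * δ / 16)) * D ≤ (18 / 5 + δ) * D :=
        mul_le_mul_of_nonneg_right h1 hD0.le
    _ = _ := by rw [hD]; ring

end Pool.Agent.R516
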