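import Mathlib
import Pool.Agent.R516.QE

/-! Primes in almost all short progressions to every modulus: the theorem. -/

set_option autoImplicit false

namespace Pool.Agent.R516

open Finset Filter Topology

theorem winUQ (hcore : St_CoreQ) : St_UQ := by
  classical
  intro δ₀ hδ₀
  obtain ⟨δ, hδ, hδ1, hδδ⟩ : ∃ δ : ℝ, 0 < δ ∧ δ ≤ 1 ∧ δ ≤ δ₀ :=
    ⟨min δ₀ 1, lt_min hδ₀ one_pos, min_le_right _ _, min_le_left _ _⟩
  obtain ⟨κ, hκ, hκ1, X₀, hX₀⟩ := hcore (δ / 8) (by positivity)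
  refine ⟨min κ (1 / 10), lt_min hκ (by norm_num), ?_⟩
  rw [← Filter.eventually_atTop]
  filter_upwards [eventually_ge_atTop X₀, eventually_ge_atTop 64, ev_log' (1000000 / δ ^ 3),
    ev_logpow' 1 (by norm_num : (0 : ℝ) < 1 / 20), ev_rpow' (100 / δ) (by norm_num : (0 : ℝ) < 1 / 20)]
    with N hN1 hN64 hlog hlog1 hrp q hq H hH1 hHκ hqH
  have hNr : (64 : ℝ) ≤ N := by exact_mod_cast hN64
  have hN0 : (0 : ℝ) < N := by linarith
  have hNg1 : (1 : ℝ) < N := by linarith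
  have hq0 : (0 : ℝ) < q := by exact_mod_cast hq
  have hXle : ∀ s t : ℝ, s ≤ t → (N : ℝ) ^ s ≤ (N : ℝ) ^ t := fun s t hst =>
    Real.rpow_le_rpow_of_exponent_le hNg1.le hst
  have hδ3 : δ ^ 3 ≤ 1 := pow_le_one₀ hδ.le hδ1
  have hδ30 : 0 < δ ^ 3 := by positivity
  obtain ⟨L, hLd⟩ : ∃ L, L = Real.log N := ⟨_, rfl⟩
  rw [← hLd] at hlog hlog1 ⊢
  have hL1 : 1000000 ≤ L := by
    refine le_trans ?_ hlog
    rw [le_div_iff₀ hδ30]
    linarith only [hδ3]
  have hL0 : 0 < L := by linarith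
  have hHκ1 : H ≤ (N : ℝ) ^ κ := hHκ.trans (hXle _ _ (min_le_left _ _))
  have hH10 : H ≤ (N : ℝ) ^ (1 / 10 : ℝ) := hHκ.trans (hXle _ _ (min_le_right _ _))
  have hH0 : 0 < H := by linarith
  -- trivial range
  rcases lt_or_ge H (L ^ 21) with hHs | hHl
  · have h1 : (((Icc 1 N).filter (fun n =>
        n ∈ HiQ N q H ((18 / 5 + δ₀) / (Nat.totient q * L)))).card : ℝ) ≤ N := by
      have h2 := Finset.card_le_card (Finset.filter_subset
        (fun n => n ∈ HiQ N q H ((18 / 5 + δ₀) / (Nat.totient q * L))) (Icc 1 N))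
      rw [Nat.card_Icc, Nat.add_sub_cancel] at h2
      exact_mod_cast h2
    refine h1.trans ?_
    rw [le_div_iff₀ hH0]
    exact mul_le_mul_of_nonneg_left hHs.le hN0.le
  have hqN : q ≤ N := by
    have : (q : ℝ) * 1 ≤ q * H := mul_le_mul_of_nonneg_left hH1 hq0.le
    have : (q : ℝ) ≤ N := by linarith
    exact_mod_cast this
  obtain ⟨ν, V, hν, h35, hV0, hV, hvar⟩ := hX₀ N hN1 q hq hqN
  rw [← hLd] at hV hvar
  -- the window
  obtain ⟨W, hW⟩ : ∃ W : ℕ, W = ⌊δ / 32 * H / L⌋₊ := ⟨_, rfl⟩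
  have hHL : L ^ 20 ≤ H / L := by
    rw [le_div_iff₀ hL0]
    calc L ^ 20 * L = L ^ 21 := by ring
      _ ≤ H := hHl
  have hHLbig : 1000000 / δ ^ 3 ≤ H / L := by
    refine le_trans ?_ hHL
    calc (1000000 / δ ^ 3) ≤ L := hlog
      _ = L ^ 1 := (pow_one _).symm
      _ ≤ _ := pow_le_pow_right₀ (by linarith) (by norm_num)
  have hδH : 1000 ≤ δ * (H / L) := by
    have h1 : 1000000 ≤ (H / L) * δ ^ 3 := by rwa [div_le_iff₀ hδ30] at hHLbig
    have h2 : δ ^ 3 ≤ δ := by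
      calc δ ^ 3 = δ * δ ^ 2 := by ring
        _ ≤ δ * 1 := by
            apply mul_le_mul_of_nonneg_left _ hδ.le
            exact pow_le_one₀ hδ.le hδ1
        _ = δ := mul_one _
    have h3 : (H / L) * δ ^ 3 ≤ (H / L) * δ := mul_le_mul_of_nonneg_left h2 (by positivity)
    linarith only [h1, h3]
  have hWH0 : δ / 32 * H / L = δ / 32 * (H / L) := by ring
  have hWle : (W : ℝ) ≤ δ / 32 * H / L := by rw [hW]; exact Nat.floor_le (by positivity)
  have hWge : δ / 64 * (H / L) ≤ W := by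
    have h1 : δ / 32 * H / L < W + 1 := by rw [hW]; exact Nat.lt_floor_add_one _
    rw [hWH0] at h1
    linarith only [h1, hδH]
  have hone : 1 ≤ δ / 32 * H / L := by
    rw [hWH0]
    linarith only [hδH]
  have hW1r : (1 : ℝ) ≤ W := by linarith only [hWge, hδH]
  have hW1 : 1 ≤ W := by exact_mod_cast hW1r
  have hW0 : (0 : ℝ) < W := by linarith only [hW1r]
  have hWH : (W : ℝ) ≤ H / 32 := by
    rw [hWH0] at hWle
    have h1 : H / L ≤ H := div_le_self hH0.le (by linarith only [hL1])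
    have h2 : δ / 32 * (H / L) ≤ 1 / 32 * H :=
      mul_le_mul (by linarith only [hδ1]) h1 (by positivity) (by norm_num)
    linarith only [hWle, h2]
  have hqW : 2 * (q * W) ≤ N := by
    have h1 : (q : ℝ) * W ≤ q * (H / 32) := mul_le_mul_of_nonneg_left hWH hq0.le
    have h2 : 2 * ((q : ℝ) * W) ≤ N := by
      have : 0 ≤ (q : ℝ) * H := by positivity
      linarith only [h1, hqH, this]
    exact_mod_cast h2
  have hvarW := hvar W hW1 (by linarith only [hWH, hHκ1, hH0]) hqW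
  -- the level
  obtain ⟨l, hl⟩ : ∃ l : ℝ, l = (δ / 16 * W / L) ^ 2 := ⟨_, rfl⟩
  have hl0 : 0 < l := by rw [hl]; positivity
  obtain ⟨g, hg⟩ : ∃ g : ℕ → ℕ → ℝ, g = fun r k =>
    (∑ h ∈ Icc 1 W, ν ((r + q * ((k - 1) + h) : ℕ) : ℤ) - W * V) ^ 2 := ⟨_, rfl⟩
  have hg0 : ∀ r k, 0 ≤ g r k := by
    intro r k
    rw [hg]
    exact sq_nonneg _
  have hG : ∑ r ∈ range q, ∑ k ∈ Icc 1 ((N - r) / q), g r k ≤ N * W * L ^ 17 := by
    refine le_trans ?_ hvarW
    have e2 : ∀ r k : ℕ, g r k = (fun n : ℕ => (∑ h ∈ Icc 1 W, ν ((n : ℤ) + ((q * h : ℕ) : ℤ)) -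
        W * V) ^ 2) (r + q * (k - 1)) := by
      intro r k
      rw [hg]
      beta_reduce
      congr 2
      refine Finset.sum_congr rfl fun h _ => ?_
      congr 1
      push_cast
      ring
    simp only [e2]
    exact classes_sum N q hq (fun n : ℕ => (∑ h ∈ Icc 1 W, ν ((n : ℤ) + ((q * h : ℕ) : ℤ)) -
        W * V) ^ 2) (fun n => sq_nonneg _)
  have hmax : l * ((∑ r ∈ range q, ((Icc 1 ((N - r) / q)).filter
      (fun m => m ∈ Ex (g r) l ((N - r) / q))).card : ℕ) : ℝ) ≤ 2 * (N * W * L ^ 17) := by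
    rw [Nat.cast_sum, Finset.mul_sum]
    calc ∑ r ∈ range q, l * (((Icc 1 ((N - r) / q)).filter
          (fun m => m ∈ Ex (g r) l ((N - r) / q))).card : ℝ)
        ≤ ∑ r ∈ range q, 2 * ∑ k ∈ Icc 1 ((N - r) / q), g r k := by
          refine Finset.sum_le_sum fun r _ => ?_
          convert max_ineq (g r) (fun k => hg0 r k) l ((N - r) / q)
      _ = 2 * ∑ r ∈ range q, ∑ k ∈ Icc 1 ((N - r) / q), g r k := by rw [Finset.mul_sum]
      _ ≤ _ := mul_le_mul_of_nonneg_left hG (by norm_num)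
  -- comparison of powers
  have h710 : 32 / δ * ((N : ℝ) ^ (3 / 5 : ℝ) * L) + (N : ℝ) ^ (3 / 5 : ℝ) ≤
      (N : ℝ) ^ (7 / 10 : ℝ) := by
    have e1 : (N : ℝ) ^ (7 / 10 : ℝ) = (N : ℝ) ^ (3 / 5 : ℝ) * ((N : ℝ) ^ (1 / 20 : ℝ) *
        (N : ℝ) ^ (1 / 20 : ℝ)) := by
      rw [← Real.rpow_add hN0, ← Real.rpow_add hN0]
      norm_num
    rw [pow_one] at hlog1
    obtain ⟨t, ht⟩ : ∃ t : ℝ, t = (N : ℝ) ^ (1 / 20 : ℝ) := ⟨_, rfl⟩
    rw [← ht] at hlog1 hrp e1
    have hN35 : 0 < (N : ℝ) ^ (3 / 5 : ℝ) := by positivity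
    have ht0 : 0 < t := by rw [ht]; positivity
    have ht1 : 1 ≤ t := by linarith only [hlog1, hL1]
    rw [e1]
    calc 32 / δ * ((N : ℝ) ^ (3 / 5 : ℝ) * L) + (N : ℝ) ^ (3 / 5 : ℝ) =
        (N : ℝ) ^ (3 / 5 : ℝ) * (32 / δ * L + 1) := by ring
      _ ≤ (N : ℝ) ^ (3 / 5 : ℝ) * (t * t) := by
          apply mul_le_mul_of_nonneg_left _ hN35.le
          have h2 : 32 / δ * L ≤ 32 / δ * t := mul_le_mul_of_nonneg_left hlog1 (by positivity)
          have h3 : 32 / δ ≤ t / 2 := by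
            have : 32 / δ = 64 / 2 / δ := by norm_num
            have h4 : 100 / δ = 32 / δ * (100 / 32) := by ring
            have h5 : 0 ≤ 32 / δ := by positivity
            rw [h4] at hrp
            linarith only [hrp, h5]
          have h4 : 32 / δ * t ≤ t / 2 * t := mul_le_mul_of_nonneg_right h3 ht0.le
          have h5 : 2 ≤ t := by linarith only [hlog1, hL1]
          have h6 : 1 ≤ t / 2 * t := by nlinarith only [h5]
          linarith only [h2, h4, h6]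
  -- the exceptional set
  have hsub : (Icc 1 N).filter (fun n => n ∈ HiQ N q H ((18 / 5 + δ₀) / (Nat.totient q * L))) ⊆
      ((Icc 1 N).filter (fun n => q ≤ n ∧ n / q ∈ (fun r => Ex (g r) l ((N - r) / q)) (n % q)) ∪
        Icc 1 q) ∪ Icc 1 ⌊(N : ℝ) ^ (7 / 10 : ℝ)⌋₊ := by
    intro n hn
    rw [Finset.mem_filter] at hn
    obtain ⟨hn1, a, b, ha, hb, hbN, hHab, hcnt⟩ := hn
    rw [Finset.mem_union, Finset.mem_union, Finset.mem_filter]
    by_contra hcon
    push Not at hcon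
    obtain ⟨⟨hcon1, hcon3⟩, hcon2⟩ := hcon
    have hqn : q ≤ n := by
      by_contra h
      apply hcon3
      rw [Finset.mem_Icc] at hn1 ⊢
      omega
    have hnE := hcon1 hn1 hqn
    rw [Finset.mem_Icc] at hn1 hcon2
    push Not at hcon2
    have hnbig : (N : ℝ) ^ (7 / 10 : ℝ) < n := (Nat.floor_lt (by positivity)).1 (hcon2 hn1.1)
    beta_reduce at hnE
    rw [hg] at hnE
    have h1 := pointQ (N := N) (H := H) (l := l) (L := L) hq hδ hδ1 (by linarith only [hL1]) hν hV0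
      h35 hV hW1 hWle hone hl rfl rfl hqn hnE hnbig h710 ha hb hbN hHab
    have h2 : (18 / 5 + δ) / (Nat.totient q * L) * ((b : ℝ) - a) ≤
        (18 / 5 + δ₀) / (Nat.totient q * L) * ((b : ℝ) - a) := by
      apply mul_le_mul_of_nonneg_right
      · apply div_le_div_of_nonneg_right _ (by positivity)
        linarith only [hδδ]
      · have : (a : ℝ) ≤ b := by exact_mod_cast (by omega : a ≤ b)
        linarith only [this]
    have h3 := h1.trans h2
    refine absurd hcnt (not_lt.2 ?_)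
    convert h3
  have hE1 := classes_card N q hq (fun r => Ex (g r) l ((N - r) / q))
  have hc1 : (((Icc 1 N).filter (fun n =>
      n ∈ HiQ N q H ((18 / 5 + δ₀) / (Nat.totient q * L)))).card : ℝ) ≤
      ((∑ r ∈ range q, ((Icc 1 ((N - r) / q)).filter
      (fun m => m ∈ Ex (g r) l ((N - r) / q))).card : ℕ) : ℝ) + q + (N : ℝ) ^ (7 / 10 : ℝ) := by
    have h1 := (Finset.card_le_card hsub).trans ((Finset.card_union_le _ _).trans
      (Nat.add_le_add_right (Finset.card_union_le _ _) _))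
    rw [Nat.card_Icc, Nat.add_sub_cancel, Nat.card_Icc, Nat.add_sub_cancel] at h1
    have h2 : ((⌊(N : ℝ) ^ (7 / 10 : ℝ)⌋₊ : ℕ) : ℝ) ≤ (N : ℝ) ^ (7 / 10 : ℝ) :=
      Nat.floor_le (by positivity)
    have h3 : (((Icc 1 N).filter (fun n =>
      n ∈ HiQ N q H ((18 / 5 + δ₀) / (Nat.totient q * L)))).card : ℝ) ≤
      ((∑ r ∈ range q, ((Icc 1 ((N - r) / q)).filter
      (fun m => m ∈ Ex (g r) l ((N - r) / q))).card : ℕ) : ℝ) + q +
        ((⌊(N : ℝ) ^ (7 / 10 : ℝ)⌋₊ : ℕ) : ℝ) := by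
      have h4 := h1.trans (Nat.add_le_add_right (Nat.add_le_add_right hE1 q)
        ⌊(N : ℝ) ^ (7 / 10 : ℝ)⌋₊)
      exact_mod_cast h4
    linarith only [h2, h3]
  refine hc1.trans ?_
  obtain ⟨S, hS⟩ : ∃ S : ℝ, S = ((∑ r ∈ range q, ((Icc 1 ((N - r) / q)).filter
      (fun m => m ∈ Ex (g r) l ((N - r) / q))).card : ℕ) : ℝ) := ⟨_, rfl⟩
  rw [← hS] at hmax ⊢
  have hSle : S ≤ N * L ^ 21 / H / 4 := by
    rw [← le_div_iff₀' hl0] at hmax
    refine hmax.trans ?_
    rw [hl]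
    have e1 : 2 * (N * W * L ^ 17) / (δ / 16 * W / L) ^ 2 =
        512 / δ ^ 2 * (N * L ^ 19 / W) := by
      field_simp
      ring
    rw [e1]
    have h2 : N * L ^ 19 / W ≤ 64 / δ * (N * L ^ 20 / H) := by
      rw [div_le_iff₀ hW0]
      calc (N : ℝ) * L ^ 19 = 64 / δ * (N * L ^ 20 / H) * (δ / 64 * (H / L)) := by
            field_simp
        _ ≤ 64 / δ * (N * L ^ 20 / H) * W :=
            mul_le_mul_of_nonneg_left hWge (by positivity)
    calc 512 / δ ^ 2 * (N * L ^ 19 / W) ≤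
        512 / δ ^ 2 * (64 / δ * (N * L ^ 20 / H)) :=
          mul_le_mul_of_nonneg_left h2 (by positivity)
      _ = (32768 / δ ^ 3) * (N * L ^ 20 / H) := by
          field_simp
          norm_num
      _ ≤ (L / 4) * (N * L ^ 20 / H) := by
          apply mul_le_mul_of_nonneg_right _ (by positivity)
          have : 1000000 / δ ^ 3 ≤ L := hlog
          rw [div_le_iff₀ hδ30] at this
          rw [div_le_div_iff₀ hδ30 (by norm_num)]
          linarith only [this]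
      _ = _ := by ring
  have hL21 : 4 ≤ L ^ 21 := by
    calc (4 : ℝ) ≤ L := by linarith only [hL1]
      _ = L ^ 1 := (pow_one _).symm
      _ ≤ _ := pow_le_pow_right₀ (by linarith only [hL1]) (by norm_num)
  have hqle : (q : ℝ) ≤ N * L ^ 21 / H / 4 := by
    rw [div_div, le_div_iff₀ (by positivity)]
    have h1 := mul_le_mul hqH hL21 (by norm_num) hN0.le
    linarith only [h1]
  have h7 : (N : ℝ) ^ (7 / 10 : ℝ) ≤ N * L ^ 21 / H / 4 := by
    rw [div_div, le_div_iff₀ (by positivity)]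
    calc (N : ℝ) ^ (7 / 10 : ℝ) * (H * 4) ≤ (N : ℝ) ^ (7 / 10 : ℝ) * ((N : ℝ) ^ (1 / 10 : ℝ) * 4) := by
          gcongr
      _ = (N : ℝ) ^ (4 / 5 : ℝ) * 4 := by
          rw [← mul_assoc, ← Real.rpow_add hN0]
          norm_num
      _ ≤ N * L ^ 21 := by
          apply mul_le_mul _ hL21 (by norm_num) hN0.le
          have := hXle (4 / 5) 1 (by norm_num)
          rwa [Real.rpow_one] at this
  have hfinal : 0 ≤ N * L ^ 21 / H := by positivity
  linarith only [hSle, hqle, h7, hfinal]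

end Pool.Agent.R516
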