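import Mathlib
import Pool.Agent.R516.QC
import Pool.Agent.R516.QF

/-! Primes in almost all classes to every modulus. -/

set_option autoImplicit false

namespace Pool.Agent.R516

open Finset Filter Topology

/-- the number of primes `p ≤ X` with `p % q = a` -/
def pcq (X q a : ℕ) : ℕ := ((Ioc 0 X).filter (fun p => p.Prime ∧ p % q = a)).card

/-- the number of primes in almost all classes is at most `18 / 5` times the expected one -/
def St_CQ : Prop := ∀ δ : ℝ, 0 < δ → ∃ κ : ℝ, 0 < κ ∧ ∃ X₀ : ℕ, ∀ X : ℕ, X₀ ≤ X →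
  ∀ q : ℕ, 1 ≤ q →
    (((range q).filter (fun a => (18 / 5 + δ) / (Nat.totient q * Real.log X) * X <
      (pcq X q a : ℝ))).card : ℝ) ≤
      q * (Real.log X) ^ 22 * ((X : ℝ) ^ (-κ) + q / X)

theorem card_mul_le {X q : ℕ} (hq : 1 ≤ q) (B : Finset ℕ) (hB : ∀ a ∈ B, a < q) (S : Finset ℕ)
    (hS : ∀ n ∈ Icc 1 X, n % q ∈ B → n ∈ S) : B.card * (X / q) ≤ S.card := by
  classical
  rw [← Finset.card_range (X / q), ← Finset.card_product]
  apply Finset.card_le_card_of_injOn (fun z => q * z.2 + (if z.1 = 0 then q else z.1))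
  · rintro ⟨a, k⟩ hz
    rw [Finset.mem_coe, Finset.mem_product, Finset.mem_range] at hz
    have ha := hB a hz.1
    have hk : q * (k + 1) ≤ X := by
      have h1 : k + 1 ≤ X / q := hz.2
      calc q * (k + 1) ≤ q * (X / q) := Nat.mul_le_mul_left q h1
        _ ≤ X := Nat.mul_div_le X q
    rw [mul_add, mul_one] at hk
    have hmem : q * k + (if a = 0 then q else a) ∈ S := by
      apply hS
      · rw [Finset.mem_Icc]
        split_ifs with h0
        · exact ⟨by omega, hk⟩
        · exact ⟨by omega, by omega⟩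
      · have e : (q * k + (if a = 0 then q else a)) % q = a := by
          split_ifs with h0
          · rw [h0, Nat.mul_add_mod, Nat.mod_self]
          · rw [Nat.mul_add_mod, Nat.mod_eq_of_lt ha]
        rw [e]
        exact hz.1
    exact Finset.mem_coe.2 hmem
  · rintro ⟨a, k⟩ hz ⟨a', k'⟩ hz' he
    rw [Finset.mem_coe, Finset.mem_product] at hz hz'
    have ha := hB a hz.1
    have ha' := hB a' hz'.1
    have he' : q * k + (if a = 0 then q else a) = q * k' + (if a' = 0 then q else a') := he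
    have e : ∀ a k : ℕ, a < q → (q * k + (if a = 0 then q else a)) % q = a := by
      intro a k ha
      split_ifs with h0
      · rw [h0, Nat.mul_add_mod, Nat.mod_self]
      · rw [Nat.mul_add_mod, Nat.mod_eq_of_lt ha]
    have h1 : a = a' := by
      rw [← e a k ha, he', e a' k' ha']
    subst h1
    have h2 : q * k = q * k' := Nat.add_right_cancel he'
    have h3 : k = k' := Nat.eq_of_mul_eq_mul_left (by omega) h2
    rw [h3]

theorem classU (hU : St_UQ) : St_CQ := by
  classical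
  intro δ hδ
  obtain ⟨κ₀, hκ₀, N₀, hN₀⟩ := hU δ hδ
  obtain ⟨κ, hκ, hκκ, hκ1⟩ : ∃ κ : ℝ, 0 < κ ∧ κ ≤ κ₀ ∧ κ ≤ 1 :=
    ⟨min κ₀ 1, lt_min hκ₀ one_pos, min_le_left _ _, min_le_right _ _⟩
  refine ⟨κ, hκ, ?_⟩
  rw [← Filter.eventually_atTop]
  filter_upwards [eventually_ge_atTop N₀, eventually_ge_atTop 3, ev_log' 4] with X hX0 hX3 hL4 q hq
  have hXr : (3 : ℝ) ≤ X := by exact_mod_cast hX3
  have hXp : (0 : ℝ) < X := by linarith only [hXr]
  have hX1 : (1 : ℝ) ≤ X := by linarith only [hXr]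
  have hq0 : (0 : ℝ) < q := by exact_mod_cast hq
  have hq1 : (1 : ℝ) ≤ q := by exact_mod_cast hq
  obtain ⟨L, hL⟩ : ∃ L, L = Real.log X := ⟨_, rfl⟩
  rw [← hL] at hL4 ⊢
  have hL1 : 1 ≤ L := by linarith only [hL4]
  have hL0 : 0 < L := by linarith only [hL1]
  obtain ⟨B, hB⟩ : ∃ B, B = (range q).filter (fun a => (18 / 5 + δ) / (Nat.totient q * L) * X <
      (pcq X q a : ℝ)) := ⟨_, rfl⟩
  rw [← hB]
  have hBq : (B.card : ℝ) ≤ q := by
    have := Finset.card_le_card (Finset.filter_subset (fun a =>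
      (18 / 5 + δ) / (Nat.totient q * L) * X < (pcq X q a : ℝ)) (range q))
    rw [← hB, Finset.card_range] at this
    exact_mod_cast this
  have hXκ0 : (0 : ℝ) < (X : ℝ) ^ (-κ) := Real.rpow_pos_of_pos hXp _
  have hL22 : 1 ≤ L ^ 22 := one_le_pow₀ hL1
  -- the trivial case
  rcases le_or_gt (1 : ℝ) (L ^ 22 * (q / X)) with htr | hntr
  · refine hBq.trans ?_
    calc (q : ℝ) = q * 1 := (mul_one _).symm
      _ ≤ q * (L ^ 22 * (q / X)) := mul_le_mul_of_nonneg_left htr hq0.le
      _ ≤ q * (L ^ 22 * ((X : ℝ) ^ (-κ) + q / X)) := by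
          apply mul_le_mul_of_nonneg_left _ hq0.le
          apply mul_le_mul_of_nonneg_left _ (by positivity)
          linarith only [hXκ0]
      _ = _ := by ring
  have hqX2 : 2 * (q : ℝ) ≤ X := by
    have h1 : L ^ 22 * (q / X) * X = L ^ 22 * q := by field_simp
    have h2 : L ^ 22 * q < X := by
      have h3 := mul_lt_mul_of_pos_right hntr hXp
      rw [h1, one_mul] at h3
      exact h3
    have h4 : (2 : ℝ) ≤ L ^ 22 := by
      calc (2 : ℝ) ≤ L := by linarith only [hL4]
        _ = L ^ 1 := (pow_one L).symm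
        _ ≤ L ^ 22 := pow_le_pow_right₀ hL1 (by norm_num)
    have h5 := mul_le_mul_of_nonneg_right h4 hq0.le
    linarith only [h2, h5]
  obtain ⟨H, hH⟩ : ∃ H : ℝ, H = min ((X : ℝ) ^ κ) (X / q) := ⟨_, rfl⟩
  have hXq1 : 1 ≤ (X : ℝ) / q := by
    rw [le_div_iff₀ hq0, one_mul]
    linarith only [hqX2, hq0]
  have hH1 : 1 ≤ H := by
    rw [hH]
    exact le_min (Real.one_le_rpow hX1 hκ.le) hXq1
  have hH0 : 0 < H := by linarith only [hH1]
  have hHκ : H ≤ (X : ℝ) ^ κ₀ := by
    rw [hH]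
    exact (min_le_left _ _).trans (Real.rpow_le_rpow_of_exponent_le hX1 hκκ)
  have hqH : q * H ≤ X := by
    have h1 : H ≤ X / q := by rw [hH]; exact min_le_right _ _
    calc (q : ℝ) * H ≤ q * (X / q) := mul_le_mul_of_nonneg_left h1 hq0.le
      _ = X := by field_simp
  have hmain := hN₀ X hX0 q hq H hH1 hHκ hqH
  rw [← hL] at hmain
  have hcm := card_mul_le (X := X) (q := q) hq B (fun a ha => by
      rw [hB, Finset.mem_filter, Finset.mem_range] at ha
      exact ha.1) ((Icc 1 X).filter (fun n =>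
      n ∈ HiQ X q H ((18 / 5 + δ) / (Nat.totient q * L)))) (by
    intro n hn hnB
    rw [Finset.mem_filter]
    refine ⟨hn, ?_⟩
    rw [Finset.mem_Icc] at hn
    rw [hB, Finset.mem_filter] at hnB
    have h1 := hnB.2
    refine ⟨0, X, by omega, hn.2, le_rfl, ?_, ?_⟩
    · rw [Nat.cast_zero, sub_zero]
      exact hqH
    · rw [Nat.cast_zero, sub_zero]
      exact h1)
  have hcm' : (B.card : ℝ) * ((X / q : ℕ) : ℝ) ≤ X * L ^ 21 / H := by
    have h1 : (B.card : ℝ) * ((X / q : ℕ) : ℝ) ≤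
        (((Icc 1 X).filter (fun n =>
          n ∈ HiQ X q H ((18 / 5 + δ) / (Nat.totient q * L)))).card : ℝ) := by
      exact_mod_cast hcm
    exact h1.trans hmain
  have hfl : (X : ℝ) / (2 * q) ≤ ((X / q : ℕ) : ℝ) := by
    have h1 : (X : ℝ) / q < ((X / q : ℕ) : ℝ) + 1 := by
      rw [div_lt_iff₀ hq0]
      have h2 : X < (X / q + 1) * q := by
        rw [mul_comm]
        exact Nat.lt_mul_div_succ X (by omega)
      exact_mod_cast h2
    have h3 : (X : ℝ) / (2 * q) = X / q / 2 := by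
      rw [div_div, mul_comm]
    have h4 : 2 ≤ (X : ℝ) / q := by
      rw [le_div_iff₀ hq0]
      exact hqX2
    rw [h3]
    linarith only [h1, h4]
  have h1 : (B.card : ℝ) * (X / (2 * q)) ≤ X * L ^ 21 / H :=
    (mul_le_mul_of_nonneg_left hfl (Nat.cast_nonneg _)).trans hcm'
  have h2 : (B.card : ℝ) ≤ 2 * q * L ^ 21 * (1 / H) := by
    have h3 : (B.card : ℝ) = (B.card : ℝ) * (X / (2 * q)) * (2 * q / X) := by
      field_simp
    rw [h3]
    calc (B.card : ℝ) * (X / (2 * q)) * (2 * q / X) ≤ X * L ^ 21 / H * (2 * q / X) :=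
          mul_le_mul_of_nonneg_right h1 (by positivity)
      _ = _ := by field_simp
  have h3 : 1 / H ≤ (X : ℝ) ^ (-κ) + q / X := by
    rw [hH]
    rcases le_total ((X : ℝ) ^ κ) (X / q) with h | h
    · rw [min_eq_left h, Real.rpow_neg hXp.le, one_div]
      have : 0 ≤ (q : ℝ) / X := by positivity
      linarith only [this]
    · rw [min_eq_right h, one_div_div]
      linarith only [hXκ0]
  refine h2.trans ?_
  have h4 : 2 * (q : ℝ) * L ^ 21 ≤ q * L ^ 22 := by
    have h5 : L ^ 22 = L * L ^ 21 := by ring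
    rw [h5]
    have h6 : 0 ≤ (q : ℝ) * L ^ 21 := by positivity
    nlinarith only [h6, hL4]
  exact mul_le_mul h4 h3 (by positivity) (by positivity)

theorem cq : St_CQ := classU (winUQ coreq)

end Pool.Agent.R516
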