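import Mathlib
import Pool.Agent.R516.QG
import Pool.Agent.TH847.LM.Key2

/-! Classes of an arbitrary modulus which contain a small prime: the constant `5 / 18`. -/

set_option autoImplicit false

namespace Pool.Agent.R516

open Finset Filter Pool.Agent.W301.SS Pool.Agent.H807R2.Dav Pool.Agent.TH847.LM

lemma ff_pcq {m J n : ℕ} (hm : 0 < m) :
    ff m J n ≤ Real.log ((J + 1) * m : ℕ) * pcq ((J + 1) * m) m (n % m) := by
  classical
  rw [ff_congr (rp_modEq m n).symm, ff_eq (rp_mem hm n)]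
  have hr := rp_mem hm n
  have hrm : rp m n % m = n % m := rp_modEq m n
  rw [mem_Ioc] at hr
  obtain ⟨r, hrd⟩ : ∃ r, r = rp m n := ⟨_, rfl⟩
  rw [← hrd] at hr hrm ⊢
  have hN1 : 1 ≤ (J + 1) * m := Nat.mul_pos (by omega) hm
  have hlN : 0 ≤ Real.log ((J + 1) * m : ℕ) := Real.log_nonneg (by exact_mod_cast hN1)
  have hle : ∀ h ∈ Ioc 0 J, r + h * m ≤ (J + 1) * m := by
    intro h hh
    rw [mem_Ioc] at hh
    have h1 : h * m ≤ J * m := Nat.mul_le_mul_right m hh.2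
    have e1 : (J + 1) * m = J * m + m := by ring
    omega
  have h1 : ∑ h ∈ Ioc 0 J, om (r + h * m) ≤
      ∑ h ∈ (Ioc 0 J).filter (fun h => (r + h * m).Prime), Real.log ((J + 1) * m : ℕ) := by
    rw [Finset.sum_filter]
    apply Finset.sum_le_sum
    intro h hh
    unfold om
    split_ifs with hp
    · exact Real.log_le_log (by exact_mod_cast hp.pos) (by exact_mod_cast hle h hh)
    · exact le_rfl
  refine h1.trans ?_
  rw [Finset.sum_const, nsmul_eq_mul, mul_comm]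
  apply mul_le_mul_of_nonneg_left _ hlN
  have h2 : ((Ioc 0 J).filter (fun h => (r + h * m).Prime)).card ≤
      pcq ((J + 1) * m) m (n % m) := by
    unfold pcq
    apply Finset.card_le_card_of_injOn (fun h => r + h * m)
    · intro h hh
      have hh' := Finset.mem_filter.1 (Finset.mem_coe.1 hh)
      have : r + h * m ∈ (Ioc 0 ((J + 1) * m)).filter (fun p => p.Prime ∧ p % m = n % m) := by
        rw [mem_filter, mem_Ioc]
        refine ⟨⟨by omega, hle h hh'.1⟩, hh'.2, ?_⟩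
        rw [Nat.add_mul_mod_self_right]
        exact hrm
      exact Finset.mem_coe.2 this
    · intro a _ b _ he
      have h3 : a * m = b * m := Nat.add_left_cancel he
      exact Nat.eq_of_mul_eq_mul_right hm h3
  exact_mod_cast h2

lemma ff_triv {m J n : ℕ} (hm : 0 < m) : ff m J n ≤ Real.log ((J + 1) * m : ℕ) * J := by
  rw [ff_congr (rp_modEq m n).symm, ff_eq (rp_mem hm n)]
  have hr := rp_mem hm n
  rw [mem_Ioc] at hr
  have hN1 : 1 ≤ (J + 1) * m := Nat.mul_pos (by omega) hm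
  have hlN : 0 ≤ Real.log ((J + 1) * m : ℕ) := Real.log_nonneg (by exact_mod_cast hN1)
  have h1 : ∀ h ∈ Ioc 0 J, om (rp m n + h * m) ≤ Real.log ((J + 1) * m : ℕ) := by
    intro h hh
    rw [mem_Ioc] at hh
    have h1 : h * m ≤ J * m := Nat.mul_le_mul_right m hh.2
    have e1 : (J + 1) * m = J * m + m := by ring
    have hle : rp m n + h * m ≤ (J + 1) * m := by omega
    unfold om
    split_ifs with hp
    · exact Real.log_le_log (by exact_mod_cast hp.pos) (by exact_mod_cast hle)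
    · exact hlN
  refine (Finset.sum_le_sum h1).trans ?_
  rw [Finset.sum_const, nsmul_eq_mul, Nat.card_Ioc, Nat.sub_zero, mul_comm]

/-- the upper bound for the classes in a set -/
lemma key5 {m J : ℕ} (hm : 0 < m) {T U : ℝ} (hT : 0 ≤ T)
    (hU : (((range m).filter (fun a => T < (pcq ((J + 1) * m) m a : ℝ))).card : ℝ) ≤ U)
    {G : Finset ℕ} (hG : ∀ a ∈ G, a < m) (b : ℕ) :
    ∑ a ∈ G, ff m J (a + b) ≤ Real.log ((J + 1) * m : ℕ) * (T * G.card + U * J) := by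
  classical
  have hN1 : 1 ≤ (J + 1) * m := Nat.mul_pos (by omega) hm
  have hlN : 0 ≤ Real.log ((J + 1) * m : ℕ) := Real.log_nonneg (by exact_mod_cast hN1)
  obtain ⟨B, hB⟩ : ∃ B, B = (range m).filter (fun a => T < (pcq ((J + 1) * m) m a : ℝ)) :=
    ⟨_, rfl⟩
  rw [← hB] at hU
  have h1 : ∀ a ∈ G, ff m J (a + b) ≤ Real.log ((J + 1) * m : ℕ) * T +
      (if (a + b) % m ∈ B then Real.log ((J + 1) * m : ℕ) * J else 0) := by
    intro a _
    have hlT : 0 ≤ Real.log ((J + 1) * m : ℕ) * T := mul_nonneg hlN hT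
    split_ifs with hb
    · have := ff_triv (m := m) (J := J) (n := a + b) hm
      linarith only [this, hlT]
    · rw [add_zero]
      refine (ff_pcq hm).trans (mul_le_mul_of_nonneg_left ?_ hlN)
      rw [hB, mem_filter, mem_range] at hb
      by_contra hcon
      exact hb ⟨Nat.mod_lt _ hm, not_le.1 hcon⟩
  refine (Finset.sum_le_sum h1).trans ?_
  rw [Finset.sum_add_distrib, Finset.sum_const, nsmul_eq_mul, ← Finset.sum_filter,
    Finset.sum_const, nsmul_eq_mul]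
  have h2 : ((G.filter (fun a => (a + b) % m ∈ B)).card : ℝ) ≤ U := by
    refine le_trans ?_ hU
    have : (G.filter (fun a => (a + b) % m ∈ B)).card ≤ B.card := by
      apply Finset.card_le_card_of_injOn (fun a => (a + b) % m)
      · intro a ha
        exact Finset.mem_coe.2 (Finset.mem_filter.1 (Finset.mem_coe.1 ha)).2
      · intro a ha a' ha' he
        have h1 := hG a (Finset.mem_filter.1 (Finset.mem_coe.1 ha)).1
        have h2 := hG a' (Finset.mem_filter.1 (Finset.mem_coe.1 ha')).1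
        have h3 : a + b ≡ a' + b [MOD m] := he
        have h4 := Nat.ModEq.add_right_cancel' b h3
        unfold Nat.ModEq at h4
        rwa [Nat.mod_eq_of_lt h1, Nat.mod_eq_of_lt h2] at h4
    exact_mod_cast this
  have h3 : ((G.filter (fun a => (a + b) % m ∈ B)).card : ℝ) *
      (Real.log ((J + 1) * m : ℕ) * J) ≤ U * (Real.log ((J + 1) * m : ℕ) * J) :=
    mul_le_mul_of_nonneg_right h2 (mul_nonneg hlN (Nat.cast_nonneg _))
  have e : Real.log ((J + 1) * m : ℕ) * (T * G.card + U * J) =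
      G.card * (Real.log ((J + 1) * m : ℕ) * T) + U * (Real.log ((J + 1) * m : ℕ) * J) := by ring
  rw [e]
  linarith only [h3]

/-- the inequality for one translate -/
theorem core5 {m J : ℕ} (hm : 2 ≤ m) (hJ : 1 ≤ J) {A : Finset ℕ} (hA : ∀ a ∈ A, a < m)
    {W : ℝ} (hW : 2 ≤ W) {δ : ℝ} (hδ0 : 0 < δ) (hδ : δ ≤ 1 / 8)
    (hTh : (1 - δ) * ((J : ℝ) * m) ≤ Th m J) {U : ℝ}
    (hU : (((range m).filter (fun a => (18 / 5 + δ) / (Nat.totient m *
      Real.log ((J + 1) * m : ℕ)) * ((J + 1) * m : ℕ) < (pcq ((J + 1) * m) m a : ℝ))).card : ℝ) ≤ U)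
    (hUA : Real.log ((J + 1) * m : ℕ) * U ≤ A.card / (2 * W)) (hJδ : 1 ≤ δ * J) (b : ℕ)
    (h1 : |∑ a ∈ A, FF m J (a + b)| ≤ (J : ℝ) * A.card / (2 * W)) :
      (5 / 18 - δ) * (Ab m b A).card - A.card / W ≤ (Gb m J b A).card := by
  classical
  have hm0 : 0 < m := by omega
  have hmr : (0 : ℝ) < m := by exact_mod_cast hm0
  have hm2 : (2 : ℝ) ≤ m := by exact_mod_cast hm
  have hJr : (0 : ℝ) < J := by exact_mod_cast hJ
  have hJ1 : (1 : ℝ) ≤ J := by exact_mod_cast hJ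
  have hW0 : 0 < W := by linarith
  have hφ0 : 0 < Nat.totient m := Nat.totient_pos.2 hm0
  have hφr : (0 : ℝ) < Nat.totient m := by exact_mod_cast hφ0
  have hφm : (Nat.totient m : ℝ) ≤ m := by exact_mod_cast Nat.totient_le m
  obtain ⟨φ, hφ⟩ : ∃ φ : ℝ, φ = (Nat.totient m : ℝ) := ⟨_, rfl⟩
  obtain ⟨L, hL⟩ : ∃ L, L = Real.log ((J + 1) * m : ℕ) := ⟨_, rfl⟩
  have hNr : (((J + 1) * m : ℕ) : ℝ) = (J + 1) * m := by push_cast; ring
  have hL0 : 0 < L := by
    rw [hL, hNr]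
    apply Real.log_pos
    nlinarith only [hm2, hJ1]
  rw [← hL] at hU hUA
  rw [← hφ] at hU hφr hφm
  have hT0 : 0 ≤ (18 / 5 + δ) / (φ * L) * ((J + 1) * m : ℕ) := by positivity
  obtain ⟨nA, hnA⟩ : ∃ nA : ℝ, nA = ((Ab m b A).card : ℝ) := ⟨_, rfl⟩
  obtain ⟨nG, hnG⟩ : ∃ nG : ℝ, nG = ((Gb m J b A).card : ℝ) := ⟨_, rfl⟩
  have hnA0 : 0 ≤ nA := by rw [hnA]; exact Nat.cast_nonneg _
  have hnG0 : 0 ≤ nG := by rw [hnG]; exact Nat.cast_nonneg _
  have h2 : ∑ a ∈ A, FF m J (a + b) = ∑ a ∈ A, ff m J (a + b) - Th m J / φ * nA := by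
    unfold FF
    rw [Finset.sum_sub_distrib, ← Finset.mul_sum, ← Finset.sum_filter, Finset.sum_const,
      nsmul_eq_mul, mul_one, hφ, hnA]
    unfold Pool.Agent.TH847.LM.Ab
    congr 3
  have h3 : ∑ a ∈ A, ff m J (a + b) = ∑ a ∈ Gb m J b A, ff m J (a + b) := by
    unfold Gb
    exact (Finset.sum_filter_ne_zero A).symm
  have hGA : Gb m J b A ⊆ A := by unfold Gb; exact Finset.filter_subset _ _
  have h4 := key5 (m := m) (J := J) hm0 hT0 hU (G := Gb m J b A)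
    (fun a ha => hA a (hGA ha)) b
  rw [← hL, ← h3, ← hnG] at h4
  rw [h2] at h1
  have h5 := (abs_le.1 h1).1
  rw [← hnA, ← hnG]
  -- the main inequality
  have h6 : L * ((18 / 5 + δ) / (φ * L) * ((J + 1) * m : ℕ) * nG + U * J) =
      (18 / 5 + δ) * ((J + 1) * (m / φ)) * nG + J * (L * U) := by
    rw [hNr]
    field_simp
  rw [h6] at h4
  have h7 : J * (L * U) ≤ J * (A.card / (2 * W)) := mul_le_mul_of_nonneg_left hUA hJr.le
  have h8 : (1 - δ) * (J * (m / φ)) * nA ≤ Th m J / φ * nA := by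
    apply mul_le_mul_of_nonneg_right _ hnA0
    rw [le_div_iff₀ hφr]
    refine le_trans (le_of_eq ?_) hTh
    field_simp
  have h9 : (18 / 5 + δ) * ((J + 1) * (m / φ)) * nG ≤
      (18 / 5 + δ) * ((1 + δ) * (J * (m / φ))) * nG := by
    apply mul_le_mul_of_nonneg_right _ hnG0
    apply mul_le_mul_of_nonneg_left _ (by positivity)
    have : 0 ≤ (m : ℝ) / φ := by positivity
    nlinarith only [this, hJδ]
  have h10 : (J : ℝ) * A.card / (2 * W) + J * (A.card / (2 * W)) = J * (A.card / W) := by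
    field_simp
    ring
  have h11 : (J * (m / φ)) * ((1 - δ) * nA) ≤
      (J * (m / φ)) * ((18 / 5 + δ) * (1 + δ) * nG + (φ / m) * (A.card / W)) := by
    have e : (J * (m / φ)) * ((18 / 5 + δ) * (1 + δ) * nG + (φ / m) * (A.card / W)) =
        (18 / 5 + δ) * ((1 + δ) * (J * (m / φ))) * nG + J * (A.card / W) := by
      field_simp
    have e2 : (J * (m / φ)) * ((1 - δ) * nA) = (1 - δ) * (J * (m / φ)) * nA := by ring
    rw [e, e2]
    linarith only [h4, h5, h7, h8, h9, h10]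
  have h12 : (1 - δ) * nA ≤ (18 / 5 + δ) * (1 + δ) * nG + (φ / m) * (A.card / W) :=
    le_of_mul_le_mul_left h11 (by positivity)
  have hAW : 0 ≤ (A.card : ℝ) / W := by positivity
  have h13 : (φ / m) * (A.card / W) ≤ A.card / W := by
    have h14 : φ / m ≤ 1 := by rw [div_le_one hmr]; exact hφm
    nlinarith only [h14, hAW]
  have h14 : (5 / 18 - δ) * ((18 / 5 + δ) * (1 + δ)) ≤ 1 - δ := by
    nlinarith only [hδ0, hδ, mul_pos hδ0 hδ0, mul_pos (mul_pos hδ0 hδ0) hδ0]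
  have h15 : ((18 / 5 + δ) * (1 + δ)) * ((5 / 18 - δ) * nA - A.card / W) ≤
      ((18 / 5 + δ) * (1 + δ)) * nG := by
    have h16 := mul_le_mul_of_nonneg_right h14 hnA0
    have h17 : 1 ≤ (18 / 5 + δ) * (1 + δ) := by nlinarith only [hδ0]
    have h18 : (A.card : ℝ) / W ≤ ((18 / 5 + δ) * (1 + δ)) * (A.card / W) := by
      nlinarith only [h17, hAW]
    have e : ((18 / 5 + δ) * (1 + δ)) * ((5 / 18 - δ) * nA - A.card / W) =
        (5 / 18 - δ) * ((18 / 5 + δ) * (1 + δ)) * nA -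
          ((18 / 5 + δ) * (1 + δ)) * (A.card / W) := by ring
    rw [e]
    linarith only [h12, h13, h16, h18]
  exact le_of_mul_le_mul_left h15 (by positivity)

/-- the parameters -/
theorem param5 (δ : ℝ) (hδ : 0 < δ) (hδ1 : δ ≤ 1 / 8) : ∃ κ : ℝ, 0 < κ ∧ κ ≤ δ / 2 ∧
    ∀ᶠ m : ℕ in atTop, ∀ (J : ℕ) (W : ℝ), 2 ≤ W →
    (Real.log m ^ 12 * W ^ 3) ^ 2 ≤ J → (J : ℝ) ≤ (m : ℝ) ^ κ →
    ∀ A : Finset ℕ, (∀ a ∈ A, a < m) → (m : ℝ) / W ≤ A.card → ∀ b : ℕ,
    |∑ a ∈ A, FF m J (a + b)| ≤ (J : ℝ) * A.card / (2 * W) →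
      (5 / 18 - δ) * (Ab m b A).card - A.card / W ≤ (Gb m J b A).card := by
  classical
  obtain ⟨N₀, hN₀⟩ := eventually_atTop.1 (pnt_unif 1)
  obtain ⟨κ₀, hκ₀, X₀, hX₀⟩ := cq δ hδ
  obtain ⟨κ, hκ, hκκ, hκδ⟩ : ∃ κ : ℝ, 0 < κ ∧ κ ≤ κ₀ ∧ κ ≤ δ / 2 :=
    ⟨min κ₀ (δ / 2), lt_min hκ₀ (by positivity), min_le_left _ _, min_le_right _ _⟩
  refine ⟨κ, hκ, hκδ, ?_⟩
  filter_upwards [sizes δ hδ hδ1, ev_L (4 / δ + 2 ^ 26), eventually_ge_atTop 16,
    eventually_ge_atTop N₀, eventually_ge_atTop X₀] with m hs h1 hm16 hmN₀ hmX₀ J W hW hJ1 hJκ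
    A hA hAc b hb
  have hmr : (16 : ℝ) ≤ m := by exact_mod_cast hm16
  have hm0 : (0 : ℝ) < m := by linarith
  have hm1 : (1 : ℝ) ≤ m := by linarith
  have hJ2 : (J : ℝ) ≤ (m : ℝ) ^ (δ / 2) :=
    hJκ.trans (Real.rpow_le_rpow_of_exponent_le hm1 hκδ)
  obtain ⟨ℓ, hℓ⟩ : ∃ ℓ, ℓ = Real.log m := ⟨_, rfl⟩
  have hd1 : 0 < 4 / δ := by positivity
  have hW0 : 0 < W := by linarith
  have hW31 : 1 ≤ W ^ 3 := one_le_pow₀ (by linarith)
  have hℓ4 : 2 ^ 26 ≤ ℓ := by rw [hℓ]; linarith only [h1, hd1]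
  have hℓ1 : 1 ≤ ℓ := by
    refine le_trans ?_ hℓ4
    norm_num
  have hℓ0 : 0 < ℓ := by linarith
  have hJ10 : (Real.log m ^ 10 * W ^ 3) ^ 2 ≤ J := by
    refine le_trans ?_ hJ1
    rw [← hℓ]
    apply pow_le_pow_left₀ (by positivity)
    apply mul_le_mul_of_nonneg_right _ (by positivity)
    exact pow_le_pow_right₀ hℓ1 (by norm_num)
  obtain ⟨hJ, hW3m, hN2, hLN, hLN2⟩ := hs J W hW hJ10 hJ2
  rw [← hℓ] at hLN hLN2 hJ1
  have hJr : (1 : ℝ) ≤ J := by exact_mod_cast hJ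
  have hJ0 : (0 : ℝ) < J := by linarith
  obtain ⟨N, hNdef⟩ : ∃ N, N = (J + 1) * m := ⟨_, rfl⟩
  have hN : (N : ℝ) = (J + 1) * m := by rw [hNdef]; push_cast; ring
  have hN0 : (0 : ℝ) < N := by rw [hN]; positivity
  have hmN : m ≤ N := by
    rw [hNdef]
    exact Nat.le_mul_of_pos_left m (by omega)
  have hmNr : (m : ℝ) ≤ N := by exact_mod_cast hmN
  have hX := hX₀ N (hmX₀.trans hmN) m (by omega)
  rw [← hNdef] at hN2 hLN hLN2
  have hLN1 : Real.log N ≤ 2 * ℓ := by nlinarith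
  have hLN0 : 0 < Real.log N := by linarith
  refine core5 (δ := δ) (U := m * (Real.log N) ^ 22 * ((N : ℝ) ^ (-κ₀) + m / N)) (by omega) hJ hA hW
    hδ hδ1 ?_ ?_ ?_ ?_ b hb
  · -- the total mass
    have a1 := hN₀ N (hmN₀.trans hmN) N (by omega)
    have a2 := hN₀ N (hmN₀.trans hmN) m (by omega)
    rw [pow_one] at a1 a2
    have a3 : (N : ℝ) / Real.log N ≤ δ / 2 * (J * m) := by
      rw [div_le_iff₀ hLN0]
      have b1 : 4 ≤ δ * Real.log N := by
        have : 4 / δ ≤ Real.log N := by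
          rw [← hℓ] at h1
          linarith only [h1, hLN2]
        rw [div_le_iff₀ hδ] at this
        linarith
      calc (N : ℝ) ≤ 2 * (J * m) := hN2
        _ = 1 / 2 * 4 * (J * m) := by ring
        _ ≤ 1 / 2 * (δ * Real.log N) * (J * m) := by gcongr
        _ = _ := by ring
    unfold Th
    rw [← hNdef]
    rw [abs_le] at a1 a2
    have e : (N : ℝ) = J * m + m := by rw [hN]; ring
    linarith [a1.1, a2.2]
  · rw [← hNdef]
    convert hX using 1
  · rw [← hNdef]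
    have c1 : (N : ℝ) ^ (-κ₀) ≤ 1 / J := by
      rw [Real.rpow_neg hN0.le, ← one_div]
      apply one_div_le_one_div_of_le hJ0
      calc (J : ℝ) ≤ (m : ℝ) ^ κ := hJκ
        _ ≤ (m : ℝ) ^ κ₀ := Real.rpow_le_rpow_of_exponent_le hm1 hκκ
        _ ≤ (N : ℝ) ^ κ₀ := Real.rpow_le_rpow hm0.le hmNr hκ₀.le
    have c2 : (m : ℝ) / N ≤ 1 / J := by
      rw [div_le_div_iff₀ hN0 hJ0, hN]
      nlinarith only [hm0, hJ0]
    have c3 : m * (Real.log N) ^ 22 * ((N : ℝ) ^ (-κ₀) + m / N) ≤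
        m * (2 * ℓ) ^ 22 * (1 / J + 1 / J) := by
      gcongr
    have c4 : Real.log N * (m * (Real.log N) ^ 22 * ((N : ℝ) ^ (-κ₀) + m / N)) ≤
        (2 * ℓ) * (m * (2 * ℓ) ^ 22 * (1 / J + 1 / J)) :=
      mul_le_mul hLN1 c3 (by positivity) (by positivity)
    refine c4.trans ?_
    have c5 : (m : ℝ) / W / (2 * W) ≤ A.card / (2 * W) := by gcongr
    refine le_trans ?_ c5
    have c6 : (2 * ℓ) * (m * (2 * ℓ) ^ 22 * (1 / J + 1 / J)) = m * (2 ^ 24 * ℓ ^ 23 / J) := by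
      field_simp
      norm_num
    rw [c6, div_div, ← mul_one_div (m : ℝ) (W * (2 * W))]
    apply mul_le_mul_of_nonneg_left _ hm0.le
    rw [div_le_div_iff₀ hJ0 (by positivity), one_mul]
    refine le_trans ?_ hJ1
    have c7 : (ℓ ^ 12 * W ^ 3) ^ 2 = ℓ ^ 23 * (ℓ * W ^ 6) := by ring
    rw [c7]
    have c8 : 2 ^ 24 * ℓ ^ 23 * (W * (2 * W)) = ℓ ^ 23 * (2 ^ 25 * W ^ 2) := by ring
    rw [c8]
    apply mul_le_mul_of_nonneg_left _ (by positivity)
    have c9 : (2 : ℝ) ^ 25 ≤ ℓ := by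
      refine le_trans ?_ hℓ4
      norm_num
    have c10 : W ^ 2 ≤ W ^ 6 := pow_le_pow_right₀ (by linarith) (by norm_num)
    exact mul_le_mul c9 c10 (by positivity) (by positivity)
  · have d1 : 4 / δ ≤ J := by
      have d2 : ℓ ≤ (ℓ ^ 12 * W ^ 3) ^ 2 := by
        calc ℓ ≤ ℓ ^ 24 := le_self_pow₀ hℓ1 (by norm_num)
          _ = ℓ ^ 24 * 1 := (mul_one _).symm
          _ ≤ ℓ ^ 24 * (W ^ 3) ^ 2 := by
              apply mul_le_mul_of_nonneg_left _ (by positivity)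
              exact one_le_pow₀ hW31
          _ = _ := by ring
      rw [← hℓ] at h1
      have : 4 / δ ≤ ℓ := by
        have : (0 : ℝ) ≤ 2 ^ 26 := by norm_num
        linarith only [h1, this]
      linarith only [d2, hJ1, this]
    rw [div_le_iff₀ hδ] at d1
    linarith only [d1]

end Pool.Agent.R516
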