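import Mathlib
import Pool.Agent.R516.QH
import Pool.Agent.TH847.LM.Poly

/-! Least primes below `m (log m) ^ B` for `5 / 18` of the classes of every modulus. -/

set_option autoImplicit false

namespace Pool.Agent.R516

open Finset Filter Pool.Agent.W301.SS Pool.Agent.H807R2.Dav Pool.Agent.TH847.LM

theorem analysis5 (δ : ℝ) (hδ : 0 < δ) (hδ1 : δ ≤ 1 / 8) : ∃ κ : ℝ, 0 < κ ∧ κ ≤ δ / 2 ∧
    ∀ᶠ m : ℕ in atTop, ∀ (J : ℕ) (W : ℝ), 2 ≤ W →
    (Real.log m ^ 12 * W ^ 3) ^ 2 ≤ J → (J : ℝ) ≤ (m : ℝ) ^ κ →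
    (∀ c ∈ range m, ((m / c.gcd m : ℕ) : ℝ) < (Real.log m ^ 10 * W ^ 3) ^ 2 →
      ‖∑ n ∈ range m, ((FF m J n : ℝ) : ℂ) * ee ((n : ℝ) * ((c : ℝ) / m))‖ ≤ (J : ℝ) * m / W ^ 3) →
    ∀ A : Finset ℕ, (∀ a ∈ A, a < m) → (m : ℝ) / W ≤ A.card →
    ∃ E : Finset ℕ, E ⊆ range m ∧ (E.card : ℝ) ≤ m / W ∧ ∀ b ∈ range m, b ∉ E →
      (5 / 18 - δ) * (Pool.Agent.TH847.LM.Ab m b A).card - A.card / W ≤ (Gb m J b A).card := by
  classical
  obtain ⟨κ, hκ, hκδ, hev⟩ := param5 δ hδ hδ1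
  refine ⟨κ, hκ, hκδ, ?_⟩
  filter_upwards [hev, four_ana δ hδ hδ1, ev_L 1, eventually_ge_atTop 2] with
    m hana hfour hL1 hm J W hW hJ1 hJκ hsmall A hA hAc
  have hmr : (2 : ℝ) ≤ m := by exact_mod_cast hm
  have hm0 : (0 : ℝ) < m := by linarith
  have hm1 : (1 : ℝ) ≤ m := by linarith
  have hW0 : 0 < W := by linarith
  have hJ2 : (J : ℝ) ≤ (m : ℝ) ^ (δ / 2) :=
    hJκ.trans (Real.rpow_le_rpow_of_exponent_le hm1 hκδ)
  have hJ10 : (Real.log m ^ 10 * W ^ 3) ^ 2 ≤ J := by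
    refine le_trans ?_ hJ1
    have h0 : 0 ≤ Real.log m := by linarith
    apply pow_le_pow_left₀ (by positivity)
    apply mul_le_mul_of_nonneg_right _ (by positivity)
    exact pow_le_pow_right₀ hL1 (by norm_num)
  have hJpos : (1 : ℝ) ≤ J := by
    refine le_trans ?_ hJ10
    apply one_le_pow₀
    have a1 : 1 ≤ Real.log m ^ 10 := one_le_pow₀ hL1
    have a2 : 1 ≤ W ^ 3 := one_le_pow₀ (by linarith)
    nlinarith
  have hJr : (0 : ℝ) < J := by linarith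
  have hF : ∀ c ∈ range m, ‖∑ n ∈ range m, ((FF m J n : ℝ) : ℂ) * ee ((n : ℝ) * ((c : ℝ) / m))‖ ≤
      (J : ℝ) * m / W ^ 3 := by
    intro c hc
    by_cases hq : ((m / c.gcd m : ℕ) : ℝ) < (Real.log m ^ 10 * W ^ 3) ^ 2
    · exact hsmall c hc hq
    · exact hfour J W hW hJ10 hJ2 c (not_lt.1 hq)
  set lam : ℝ := (J : ℝ) * A.card / (2 * W) with hlam
  have hlam0 : 0 ≤ lam := by rw [hlam]; positivity
  set E : Finset ℕ := (range m).filter (fun b => lam < |∑ a ∈ A, FF m J (a + b)|) with hE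
  have hbad := badQ (M := m) (by omega) (FF m J) (FF_per m J) A hA ((J : ℝ) * m / W ^ 3) hF lam hlam0
  rw [← hE] at hbad
  refine ⟨E, filter_subset _ _, ?_, fun b hb hbE => ?_⟩
  · -- the exceptional set
    have hAr : (0 : ℝ) < A.card := lt_of_lt_of_le (by positivity) hAc
    have h1 : (E.card : ℝ) * ((J : ℝ) ^ 2 * A.card ^ 2 / (4 * W ^ 2)) ≤
        A.card * ((J : ℝ) ^ 2 * m ^ 2 / W ^ 6) := by
      have e1 : lam ^ 2 = (J : ℝ) ^ 2 * A.card ^ 2 / (4 * W ^ 2) := by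
        rw [hlam]; field_simp; ring
      have e2 : ((J : ℝ) * m / W ^ 3) ^ 2 = (J : ℝ) ^ 2 * m ^ 2 / W ^ 6 := by
        field_simp
      rw [e1, e2] at hbad
      exact hbad
    have h2 : (E.card : ℝ) * A.card ≤ 4 * m ^ 2 / W ^ 4 := by
      have h3 : ((J : ℝ) ^ 2 * A.card / (4 * W ^ 2)) * ((E.card : ℝ) * A.card) ≤
          ((J : ℝ) ^ 2 * A.card / (4 * W ^ 2)) * (4 * m ^ 2 / W ^ 4) := by
        calc _ = (E.card : ℝ) * ((J : ℝ) ^ 2 * A.card ^ 2 / (4 * W ^ 2)) := by ring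
          _ ≤ _ := h1
          _ = _ := by field_simp
      exact le_of_mul_le_mul_left h3 (by positivity)
    have h3 : (E.card : ℝ) * (m / W) ≤ 4 * m ^ 2 / W ^ 4 :=
      (mul_le_mul_of_nonneg_left hAc (Nat.cast_nonneg _)).trans h2
    have h4 : (E.card : ℝ) ≤ 4 * m / W ^ 3 := by
      have h5 : (m / W) * (E.card : ℝ) ≤ (m / W) * (4 * m / W ^ 3) := by
        calc _ = (E.card : ℝ) * (m / W) := by ring
          _ ≤ _ := h3
          _ = _ := by field_simp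
      exact le_of_mul_le_mul_left h5 (by positivity)
    refine h4.trans ?_
    rw [div_le_div_iff₀ (by positivity) hW0]
    have : 4 ≤ W ^ 2 := by nlinarith
    calc 4 * (m : ℝ) * W ≤ W ^ 2 * m * W := by gcongr
      _ = _ := by ring
  · have h1 : |∑ a ∈ A, FF m J (a + b)| ≤ lam := by
      by_contra hc
      exact hbE (mem_filter.2 ⟨hb, not_le.1 hc⟩)
    exact hana J W hW hJ1 hJκ A hA hAc b h1

open Classical in
/-- The set version. -/
theorem sets_poly5 (ε : ℝ) (hε : 0 < ε) (C : ℕ) : ∃ B : ℕ, ∀ᶠ m : ℕ in atTop,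
    ∀ A : Finset ℕ, (∀ a ∈ A, a < m) → (m : ℝ) / Real.log m ^ C ≤ A.card →
    ∃ E : Finset ℕ, E ⊆ range m ∧ (E.card : ℝ) ≤ m / Real.log m ^ C ∧ ∀ b ∈ range m, b ∉ E →
      (5 / 18 - ε) * (A.filter (fun a => (a + b).Coprime m)).card - A.card / Real.log m ^ C ≤
        (A.filter (fun a => Good m B (a + b))).card := by
  set δ : ℝ := min (ε / 2) (1 / 8) with hδdef
  have hδ : 0 < δ := lt_min (by linarith) (by norm_num)
  have hδ8 : δ ≤ 1 / 8 := min_le_right _ _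
  have hδε : δ ≤ ε / 2 := min_le_left _ _
  set K : ℕ := 6 * C + 30 with hK
  obtain ⟨κ, hκ, hκδ, hev⟩ := analysis5 δ hδ hδ8
  obtain ⟨N₁, hsm⟩ := four_small K (K + 3 * (C + 1) + 1)
  obtain ⟨N₂, hN₂⟩ := eventually_atTop.1 (ev_log (K + 1 + 3 * (C + 1)) 32 (1 / 2) (by norm_num))
  refine ⟨K + 2, ?_⟩
  filter_upwards [hev, ev_L 16, eventually_ge_atTop 2, eventually_ge_atTop N₁,
    eventually_ge_atTop N₂, ev_log (K + 1) 1 κ hκ] with
    m hana h16 hm hmN1 hmN2 hKm A hA hAc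
  have hmr : (2 : ℝ) ≤ m := by exact_mod_cast hm
  have hm0 : (0 : ℝ) < m := by linarith
  have hm1 : (1 : ℝ) ≤ m := by linarith
  set ℓ := Real.log m with hℓ
  have hℓ1 : 1 ≤ ℓ := by linarith
  have hℓ0 : 0 < ℓ := by linarith
  set W : ℝ := ℓ ^ (C + 1) with hW
  have hW2 : 2 ≤ W := by
    calc (2 : ℝ) ≤ ℓ := by linarith
      _ ≤ ℓ ^ (C + 1) := le_self_pow₀ hℓ1 (by omega)
  have hW0 : 0 < W := by linarith
  set J : ℕ := ⌊ℓ ^ (K + 1)⌋₊ with hJ
  have hJle : (J : ℝ) ≤ ℓ ^ (K + 1) := Nat.floor_le (by positivity)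
  have hPW : (ℓ ^ 12 * W ^ 3) ^ 2 = ℓ ^ K := by rw [hW, hK]; ring
  have hJge : ℓ ^ K ≤ J := by
    have h1 := Nat.lt_floor_add_one (ℓ ^ (K + 1))
    rw [← hJ] at h1
    have h2 : 1 ≤ ℓ ^ K := one_le_pow₀ hℓ1
    have h3 : ℓ ^ (K + 1) = ℓ ^ K * ℓ := pow_succ _ _
    nlinarith
  have hJ1 : (1 : ℝ) ≤ J := le_trans (one_le_pow₀ hℓ1) hJge
  have hJ2 : (J : ℝ) ≤ (m : ℝ) ^ κ := by
    refine hJle.trans ?_
    rw [one_mul] at hKm
    exact hKm
  have hsmall : ∀ c ∈ range m, ((m / c.gcd m : ℕ) : ℝ) < (ℓ ^ 10 * W ^ 3) ^ 2 →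
      ‖∑ n ∈ range m, ((FF m J n : ℝ) : ℂ) * ee ((n : ℝ) * ((c : ℝ) / m))‖ ≤ (J : ℝ) * m / W ^ 3 := by
    intro c _ hc
    replace hc : ((m / c.gcd m : ℕ) : ℝ) < ℓ ^ K := by
      refine hc.trans_le ?_
      rw [← hPW]
      apply pow_le_pow_left₀ (by positivity)
      apply mul_le_mul_of_nonneg_right _ (by positivity)
      exact pow_le_pow_right₀ hℓ1 (by norm_num)
    set N : ℕ := (J + 1) * m with hNdef
    have hmN : m ≤ N := Nat.le_mul_of_pos_left m (by omega)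
    have hN : (N : ℝ) = (J + 1) * m := by rw [hNdef]; push_cast; ring
    have hN0 : (0 : ℝ) < N := by rw [hN]; positivity
    have hNle : (N : ℝ) ≤ 2 * (J * m) := by rw [hN]; nlinarith
    have hLN : ℓ ≤ Real.log N := Real.log_le_log hm0 (by exact_mod_cast hmN)
    set LN := Real.log N with hLNdef
    have hLN0 : 0 < LN := by linarith
    have h1 := hsm m J c (by omega) (by rw [← hNdef]; omega) (by
      rw [← hNdef, ← hLNdef]
      exact hc.le.trans (pow_le_pow_left₀ hℓ0.le hLN K))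
    rw [← hNdef, ← hLNdef] at h1
    refine h1.trans ?_
    have hW3 : W ^ 3 = ℓ ^ (3 * (C + 1)) := by rw [hW]; ring
    rw [hW3]
    set U : ℕ := 3 * (C + 1) with hU
    have h2 : LN ^ K * (4 * ((N : ℝ) / LN ^ (K + U + 1))) ≤ 1 / 4 * (N / ℓ ^ U) := by
      have e : LN ^ K * (4 * ((N : ℝ) / LN ^ (K + U + 1))) = 4 / LN * (N / LN ^ U) := by
        have : LN ^ (K + U + 1) = LN ^ K * LN ^ U * LN := by ring
        rw [this]
        field_simp
      rw [e]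
      have a1 : 4 / LN ≤ 1 / 4 := by
        rw [div_le_div_iff₀ hLN0 (by norm_num)]
        linarith
      have a2 : (N : ℝ) / LN ^ U ≤ N / ℓ ^ U := by gcongr
      exact mul_le_mul a1 a2 (by positivity) (by norm_num)
    have h3 : LN ^ K * (8 * (√(N : ℝ) * LN)) ≤ 1 / 4 * (N / ℓ ^ U) := by
      have b1 := hN₂ N (by omega)
      rw [← hLNdef] at b1
      have e : (N : ℝ) ^ (1 / 2 : ℝ) = √(N : ℝ) := (Real.sqrt_eq_rpow _).symm
      rw [e] at b1
      rw [← mul_div_assoc, le_div_iff₀ (by positivity)]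
      calc LN ^ K * (8 * (√(N : ℝ) * LN)) * ℓ ^ U ≤ LN ^ K * (8 * (√(N : ℝ) * LN)) * LN ^ U := by gcongr
        _ = 1 / 4 * (√(N : ℝ) * (32 * LN ^ (K + 1 + U))) := by ring
        _ ≤ 1 / 4 * (√(N : ℝ) * √(N : ℝ)) := by gcongr
        _ = _ := by rw [Real.mul_self_sqrt hN0.le]
    calc LN ^ K * (4 * ((N : ℝ) / LN ^ (K + U + 1)) + 8 * (√(N : ℝ) * LN)) =
          LN ^ K * (4 * ((N : ℝ) / LN ^ (K + U + 1))) + LN ^ K * (8 * (√(N : ℝ) * LN)) := by ring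
      _ ≤ 1 / 4 * (N / ℓ ^ U) + 1 / 4 * (N / ℓ ^ U) := add_le_add h2 h3
      _ = (1 / 2 * N) / ℓ ^ U := by ring
      _ ≤ _ := by
        apply div_le_div_of_nonneg_right _ (by positivity)
        linarith
  have hCW : (m : ℝ) / W ≤ m / ℓ ^ C := by
    have : ℓ ^ C ≤ W := pow_le_pow_right₀ hℓ1 (by omega)
    gcongr
  obtain ⟨E, hE1, hE2, hE3⟩ := hana J W hW2 (by rw [hPW]; exact hJge) hJ2 hsmall A hA (hCW.trans hAc)
  refine ⟨E, hE1, hE2.trans hCW, fun b hb hbE => ?_⟩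
  have h1 := hE3 b hb hbE
  have h2 : Gb m J b A ⊆ A.filter (fun a => Good m (K + 2) (a + b)) := by
    intro a ha
    unfold Gb at ha
    rw [mem_filter] at ha
    obtain ⟨p, hp, hp1, _, hp3⟩ := ff_prime ha.2
    rw [mem_filter]
    refine ⟨ha.1, ff_cop (by omega) ha.2, p, hp, hp1, ?_⟩
    have hp4 : (p : ℝ) ≤ (J + 1) * m := by exact_mod_cast hp3
    have h3 : 1 ≤ ℓ ^ (K + 1) := one_le_pow₀ hℓ1
    have h4 : ℓ ^ (K + 2) = ℓ ^ (K + 1) * ℓ := pow_succ _ _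
    have h5 : (J : ℝ) + 1 ≤ ℓ ^ (K + 2) := by nlinarith
    calc (p : ℝ) ≤ (J + 1) * m := hp4
      _ ≤ ℓ ^ (K + 2) * m := by gcongr
      _ = _ := mul_comm _ _
  have h3 : ((Gb m J b A).card : ℝ) ≤ (A.filter (fun a => Good m (K + 2) (a + b))).card := by
    exact_mod_cast card_le_card h2
  refine le_trans ?_ h3
  refine le_trans ?_ h1
  have h4 : ((Pool.Agent.TH847.LM.Ab m b A).card : ℝ) = ((A.filter (fun a => (a + b).Coprime m)).card : ℝ) := by
    unfold Pool.Agent.TH847.LM.Ab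
    congr!
  rw [h4]
  set nA : ℝ := ((A.filter (fun a => (a + b).Coprime m)).card : ℝ) with hnA
  have hnA0 : 0 ≤ nA := Nat.cast_nonneg _
  have h5 : 5 / 18 - ε ≤ 5 / 18 - δ := by linarith
  have h6 : (A.card : ℝ) / W ≤ A.card / ℓ ^ C := by
    have : ℓ ^ C ≤ W := pow_le_pow_right₀ hℓ1 (by omega)
    gcongr
  have h7 := mul_le_mul_of_nonneg_right h5 hnA0
  linarith

open Classical in
/-- Sets and intervals. -/
theorem poly5 (ε : ℝ) (hε : 0 < ε) (C : ℕ) : ∃ B : ℕ, ∀ᶠ m : ℕ in atTop,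
    (∀ x H : ℕ, (m : ℝ) / Real.log m ^ C ≤ H → H ≤ m →
      (5 / 18 - ε) * ((Nat.totient m : ℝ) / m * H) ≤ ((Ioc x (x + H)).filter (Good m B)).card) ∧
    ∀ A : Finset ℕ, (∀ a ∈ A, a < m) → (m : ℝ) / Real.log m ^ C ≤ A.card →
    ∃ E : Finset ℕ, E ⊆ range m ∧ (E.card : ℝ) ≤ m / Real.log m ^ C ∧ ∀ b ∈ range m, b ∉ E →
      (5 / 18 - ε) * (A.filter (fun a => (a + b).Coprime m)).card - A.card / Real.log m ^ C ≤
        (A.filter (fun a => Good m B (a + b))).card := by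
  set ε' : ℝ := min (ε / 2) (1 / 8) with hε'def
  have hε' : 0 < ε' := lt_min (by linarith) (by norm_num)
  have hε8 : ε' ≤ 1 / 8 := min_le_right _ _
  have hεε : ε' ≤ ε / 2 := min_le_left _ _
  obtain ⟨B, hB⟩ := sets_poly5 ε' hε' (C + 3)
  refine ⟨B, ?_⟩
  filter_upwards [hB, ev_L (12 / ε' + 4), eventually_ge_atTop 2,
    ev_log (C + 1) (12 / ε') (1 / 2) (by norm_num)] with m hset h1 hm hlog
  have hmr : (2 : ℝ) ≤ m := by exact_mod_cast hm
  have hm0 : (0 : ℝ) < m := by linarith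
  set ℓ := Real.log m with hℓ
  have hp12 : 0 < 12 / ε' := by positivity
  have hℓ4 : 4 ≤ ℓ := by linarith
  have hℓ1 : 1 ≤ ℓ := by linarith
  have hℓ0 : 0 < ℓ := by linarith
  have hℓC : 0 < ℓ ^ C := by positivity
  have hCC : (m : ℝ) / ℓ ^ (C + 3) ≤ m / ℓ ^ C := by
    have : ℓ ^ C ≤ ℓ ^ (C + 3) := pow_le_pow_right₀ hℓ1 (by omega)
    gcongr
  refine ⟨fun x H hH hHm => ?_, fun A hA hAc => ?_⟩
  · have hHr : (0 : ℝ) < H := lt_of_lt_of_le (by positivity) hH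
    set W : ℝ := ℓ ^ (C + 3) with hW
    have hW0 : 0 < W := by positivity
    set s : ℕ := ⌊(m : ℝ) / W⌋₊ with hs
    have hs1 : (m : ℝ) / W < s + 1 := Nat.lt_floor_add_one _
    have hs2 : (s : ℝ) ≤ m / W := Nat.floor_le (by positivity)
    have hmW : (m : ℝ) / W ≤ H / ℓ ^ 3 := by
      have e : (m : ℝ) / W = (m / ℓ ^ C) / ℓ ^ 3 := by rw [hW, pow_add]; field_simp
      rw [e]
      gcongr
    have hℓ3 : (64 : ℝ) ≤ ℓ ^ 3 := by
      calc (64 : ℝ) = 4 ^ 3 := by norm_num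
        _ ≤ ℓ ^ 3 := pow_le_pow_left₀ (by norm_num) hℓ4 3
    have hH64 : (H : ℝ) / ℓ ^ 3 ≤ H / 64 := by gcongr
    have hHmr : (H : ℝ) ≤ m := by exact_mod_cast hHm
    have hsH : s ≤ H := by
      have : (s : ℝ) ≤ H := by linarith
      exact_mod_cast this
    have hsm : s < m := by
      have : (s : ℝ) < m := by linarith
      exact_mod_cast this
    have hP : ∀ n, Good m B (n + m) ↔ Good m B n := by
      intro n
      unfold Good
      have e1 : (n + m).Coprime m ↔ n.Coprime m := by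
        unfold Nat.Coprime
        rw [Nat.gcd_add_self_left]
      have e2 : ∀ p : ℕ, p ≡ n + m [MOD m] ↔ p ≡ n [MOD m] := by
        intro p
        unfold Nat.ModEq
        rw [Nat.add_mod_right]
      simp only [e1, e2]
    have hmain := int_of_sets (m := m) (by omega) (Good m B) hP
      (5 / 18 - ε') (by linarith) W hset x H s hHm hs1 hsH hsm (by linarith)
    refine le_trans ?_ hmain
    set r : ℝ := (Nat.totient m : ℝ) / m with hr
    have hφ := phi_low m (by omega)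
    rw [← hℓ] at hφ
    have hr1 : 1 ≤ 3 * ℓ * r := by
      rw [hr, mul_div_assoc', le_div_iff₀ hm0, one_mul]
      refine hφ.trans ?_
      gcongr
      linarith
    have hr0 : 0 < r := by
      by_contra hc
      push Not at hc
      nlinarith
    have hr2 : r ≤ 1 := by
      rw [hr, div_le_one hm0]
      exact_mod_cast Nat.totient_le m
    have k0 : 12 ≤ ε' * ℓ := by
      have : 12 / ε' ≤ ℓ := by linarith
      rw [div_le_iff₀ hε'] at this
      linarith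
    -- the three losses
    have k1 : (H : ℝ) / ℓ ^ 3 ≤ ε' / 4 * (r * H) := by
      rw [div_le_iff₀ (by positivity)]
      have a1 : 4 ≤ ε' * ℓ ^ 2 / 3 := by nlinarith
      calc (H : ℝ) = 1 * H := by ring
        _ ≤ (3 * ℓ * r) * H := by gcongr
        _ = 1 / 4 * (4 * 3 * ℓ * r * H) := by ring
        _ ≤ 1 / 4 * (ε' * ℓ ^ 2 / 3 * 3 * ℓ * r * H) := by gcongr
        _ = _ := by ring
    have k2 : √(m : ℝ) ≤ ε' / 4 * (r * H) := by
      have e : (m : ℝ) ^ (1 / 2 : ℝ) = √(m : ℝ) := (Real.sqrt_eq_rpow _).symm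
      rw [e] at hlog
      have a1 : 12 * ℓ ^ (C + 1) ≤ ε' * √(m : ℝ) := by
        calc 12 * ℓ ^ (C + 1) = ε' * (12 / ε' * ℓ ^ (C + 1)) := by field_simp
          _ ≤ _ := by gcongr
      have a2 : 12 * ℓ ^ (C + 1) * √(m : ℝ) ≤ ε' * m := by
        calc 12 * ℓ ^ (C + 1) * √(m : ℝ) ≤ ε' * √(m : ℝ) * √(m : ℝ) := by gcongr
          _ = _ := by rw [mul_assoc, Real.mul_self_sqrt hm0.le]
      have a3 : ε' * (m : ℝ) ≤ ε' * (H * ℓ ^ C) := by
        rw [div_le_iff₀ hℓC] at hH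
        gcongr
      have a4 : 12 * ℓ * √(m : ℝ) ≤ ε' * H := by
        have : ℓ ^ C * (12 * ℓ * √(m : ℝ)) ≤ ℓ ^ C * (ε' * H) := by
          calc _ = 12 * ℓ ^ (C + 1) * √(m : ℝ) := by ring
            _ ≤ ε' * m := a2
            _ ≤ _ := a3
            _ = _ := by ring
        exact le_of_mul_le_mul_left this hℓC
      calc √(m : ℝ) = 1 * √(m : ℝ) := by ring
        _ ≤ (3 * ℓ * r) * √(m : ℝ) := by gcongr
        _ = 1 / 4 * r * (12 * ℓ * √(m : ℝ)) := by ring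
        _ ≤ 1 / 4 * r * (ε' * H) := by gcongr
        _ = _ := by ring
    have k3 : (5 / 18 - ε') * (r * s) ≤ H / ℓ ^ 3 := by
      have : (0 : ℝ) ≤ s := Nat.cast_nonneg _
      have b1 : r * s ≤ s := by nlinarith
      have b2 : 0 ≤ r * s := by positivity
      nlinarith
    have k4 : ((H : ℝ) - s) / W ≤ H / ℓ ^ 3 := by
      have b1 : ℓ ^ 3 ≤ W := pow_le_pow_right₀ hℓ1 (by omega)
      calc ((H : ℝ) - s) / W ≤ H / W := by
            apply div_le_div_of_nonneg_right _ hW0.le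
            have : (0 : ℝ) ≤ s := Nat.cast_nonneg _
            linarith
        _ ≤ _ := by gcongr
    have k5 : (5 / 18 - ε') * (2 * √(m : ℝ)) ≤ √(m : ℝ) := by
      have := Real.sqrt_nonneg (m : ℝ)
      nlinarith
    have hrH : 0 ≤ r * H := by positivity
    have k6 : ε' * (r * H) ≤ (ε - ε') * (r * H) := by
      apply mul_le_mul_of_nonneg_right _ hrH
      linarith
    have e : (5 / 18 - ε') * (r * ((H : ℝ) - s) - 2 * √(m : ℝ)) - ((H : ℝ) - s) / W =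
        (5 / 18 - ε') * (r * H) - (5 / 18 - ε') * (r * s) - (5 / 18 - ε') * (2 * √(m : ℝ)) -
          ((H : ℝ) - s) / W := by ring
    rw [e]
    linarith
  · obtain ⟨E, hE1, hE2, hE3⟩ := hset A hA (hCC.trans hAc)
    refine ⟨E, hE1, hE2.trans hCC, fun b hb hbE => ?_⟩
    refine le_trans ?_ (hE3 b hb hbE)
    have h2 : (A.card : ℝ) / ℓ ^ (C + 3) ≤ A.card / ℓ ^ C := by
      have : ℓ ^ C ≤ ℓ ^ (C + 3) := pow_le_pow_right₀ hℓ1 (by omega)
      gcongr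
    have h3 : (5 / 18 - ε) * ((A.filter (fun a => (a + b).Coprime m)).card : ℝ) ≤
        (5 / 18 - ε') * ((A.filter (fun a => (a + b).Coprime m)).card : ℝ) := by
      apply mul_le_mul_of_nonneg_right _ (Nat.cast_nonneg _)
      linarith
    linarith

end Pool.Agent.R516
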