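import Mathlib
import Pool.Agent.R516.QI
import Pool.Agent.TH847.LM.Inter3

/-! Least primes below `m ^ (1 + ε)` for `5 / 18` of the classes of every modulus. -/

set_option autoImplicit false

namespace Pool.Agent.R516

open Finset Filter Pool.Agent.W301.SS Pool.Agent.H807R2.Dav Pool.Agent.TH847.LM

lemma inter_ana5 (δ : ℝ) (hδ : 0 < δ) (hδ1 : δ ≤ 1 / 8) : ∃ κ : ℝ, 0 < κ ∧ κ ≤ δ / 2 ∧
    ∀ᶠ m : ℕ in atTop, ∀ (J : ℕ) (W : ℝ), 4 ≤ W →
    (Real.log m ^ 12 * W ^ 3) ^ 2 ≤ J → (J : ℝ) ≤ (m : ℝ) ^ κ →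
    ∀ H : ℕ, H ≤ m → (m : ℝ) / W ≤ H →
    ∃ E : Finset ℕ, E ⊆ range m ∧ (E.card : ℝ) ≤ m / W ∧ ∀ b ∈ range m, b ∉ E →
      (5 / 18 - δ) * (Pool.Agent.TH847.LM.Ab m b (range H)).card - H / W ≤ (Gb m J b (range H)).card := by
  classical
  obtain ⟨κ, hκ, hκδ, hev⟩ := param5 δ hδ hδ1
  refine ⟨κ, hκ, hκδ, ?_⟩
  filter_upwards [sizes δ hδ hδ1, four_ana δ hδ hδ1, hev, ev_L 64, eventually_ge_atTop 2,
    ev_log 22 1 (1 / 2) (by norm_num)] with m hs hfour hana hℓ64 hm h22 J W hW hJ1a hJ2a H hHm hH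
  have hm1a : (1 : ℝ) ≤ m := by
    have : 1 ≤ m := by omega
    exact_mod_cast this
  have hJ1 : (Real.log m ^ 10 * W ^ 3) ^ 2 ≤ J := by
    refine le_trans ?_ hJ1a
    have h0 : 1 ≤ Real.log m := by linarith
    apply pow_le_pow_left₀ (by positivity)
    apply mul_le_mul_of_nonneg_right _ (by positivity)
    exact pow_le_pow_right₀ h0 (by norm_num)
  have hJ2 : (J : ℝ) ≤ (m : ℝ) ^ (δ / 2) :=
    hJ2a.trans (Real.rpow_le_rpow_of_exponent_le hm1a hκδ)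
  obtain ⟨hJ, hW3m, hN2, hLN, hLN2⟩ := hs J W (by linarith) hJ1 hJ2
  have hmr : (2 : ℝ) ≤ m := by exact_mod_cast hm
  have hm0 : (0 : ℝ) < m := by linarith
  have hm1 : (1 : ℝ) ≤ m := by linarith
  set ℓ := Real.log m with hℓ
  have hℓ1 : 1 ≤ ℓ := by linarith
  have hℓ0 : 0 < ℓ := by linarith
  have hW0 : 0 < W := by linarith
  have hW1 : 1 ≤ W := by linarith
  have hJr : (1 : ℝ) ≤ J := by exact_mod_cast hJ
  have hJ0 : (0 : ℝ) < J := by linarith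
  have hHr : (0 : ℝ) < H := lt_of_lt_of_le (by positivity) hH
  set T : ℝ := ℓ ^ 2 * W ^ 3 with hT
  have hT0 : 0 < T := by positivity
  set LN := Real.log ((J + 1) * m : ℕ) with hLNdef
  -- the Fourier coefficients at the near frequencies
  have hnear : ∀ c ∈ range m, ¬ (T ≤ c ∧ T ≤ (m : ℝ) - c) →
      ‖∑ n ∈ range m, ((FF m J n : ℝ) : ℂ) * ee ((n : ℝ) * ((c : ℝ) / m))‖ ≤ (J : ℝ) * m / W ^ 3 := by
    intro c hc hcT
    rw [mem_range] at hc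
    rcases Nat.eq_zero_or_pos c with h0 | hc0
    · rw [h0, FF_zero (by omega), norm_zero]
      positivity
    · apply hfour J W (by linarith) hJ1 hJ2
      have hg : ((c.gcd m : ℕ) : ℝ) ≤ T := by
        by_cases h1 : T ≤ c
        · have h2 : ¬ T ≤ (m : ℝ) - c := fun h => hcT ⟨h1, h⟩
          have h3 : c.gcd m ∣ m - c := Nat.dvd_sub (Nat.gcd_dvd_right _ _) (Nat.gcd_dvd_left _ _)
          have h4 : c.gcd m ≤ m - c := Nat.le_of_dvd (by omega) h3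
          have h5 : ((c.gcd m : ℕ) : ℝ) ≤ ((m - c : ℕ) : ℝ) := by exact_mod_cast h4
          rw [Nat.cast_sub hc.le] at h5
          linarith
        · have h4 : c.gcd m ≤ c := Nat.le_of_dvd hc0 (Nat.gcd_dvd_left _ _)
          have h5 : ((c.gcd m : ℕ) : ℝ) ≤ c := by exact_mod_cast h4
          linarith
      have hg0 : 0 < c.gcd m := Nat.gcd_pos_of_pos_left _ hc0
      have hg0r : (0 : ℝ) < (c.gcd m : ℕ) := by exact_mod_cast hg0
      rw [Nat.cast_div (Nat.gcd_dvd_right _ _) hg0r.ne']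
      have h1 : (ℓ ^ 10 * W ^ 3) ^ 2 * T ≤ m := by
        have hW31 : 0 ≤ W ^ 3 := by positivity
        have a1 : W ^ 9 ≤ (m : ℝ) ^ (1 / 2 : ℝ) := by
          calc W ^ 9 = (W ^ 3) ^ 3 := by ring
            _ ≤ ((m : ℝ) ^ (δ / 4)) ^ 3 := pow_le_pow_left₀ hW31 hW3m 3
            _ = (m : ℝ) ^ (δ / 4 * 3) := by
              rw [← Real.rpow_natCast, ← Real.rpow_mul hm0.le]
              norm_num
            _ ≤ _ := Real.rpow_le_rpow_of_exponent_le hm1 (by linarith)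
        have a2 : ℓ ^ 22 ≤ (m : ℝ) ^ (1 / 2 : ℝ) := by
          rw [one_mul] at h22
          exact h22
        calc (ℓ ^ 10 * W ^ 3) ^ 2 * T = ℓ ^ 22 * W ^ 9 := by rw [hT]; ring
          _ ≤ (m : ℝ) ^ (1 / 2 : ℝ) * (m : ℝ) ^ (1 / 2 : ℝ) := by gcongr
          _ = m := by rw [← Real.rpow_add hm0]; norm_num
      rw [le_div_iff₀ hg0r]
      refine le_trans ?_ h1
      gcongr
  -- the variance
  set G : ℕ → ℝ := fun b => ∑ a ∈ range H, FF m J (a + b) with hG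
  have hvar := varE (M := m) (by omega) (FF m J) (FF_per m J) (range H)
  have hpars := parsevalF (M := m) (by omega) (fun n => ((FF m J n : ℝ) : ℂ))
  have hFFabs : ∀ n, (FF m J n) ^ 2 ≤ 196 * (J : ℝ) ^ 2 * ℓ ^ 2 := by
    intro n
    have h1 := FF_abs (m := m) (by omega) hJ n
    rw [← hLNdef, ← hℓ] at h1
    have h2 : |FF m J n| ≤ 14 * J * ℓ := by
      refine h1.trans ?_
      have : LN ≤ 2 * ℓ := by nlinarith
      calc (J : ℝ) * LN + 4 * J * (1 + 2 * ℓ) ≤ J * (2 * ℓ) + 4 * J * (ℓ + 2 * ℓ) := by gcongr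
        _ = _ := by ring
    calc (FF m J n) ^ 2 = |FF m J n| ^ 2 := (sq_abs _).symm
      _ ≤ (14 * J * ℓ) ^ 2 := pow_le_pow_left₀ (abs_nonneg _) h2 2
      _ = _ := by ring
  have hFFsum : ∑ n ∈ range m, ‖((FF m J n : ℝ) : ℂ)‖ ^ 2 ≤ m * (196 * (J : ℝ) ^ 2 * ℓ ^ 2) := by
    have : ∀ n ∈ range m, ‖((FF m J n : ℝ) : ℂ)‖ ^ 2 ≤ 196 * (J : ℝ) ^ 2 * ℓ ^ 2 := by
      intro n _
      rw [Complex.norm_real, Real.norm_eq_abs, sq_abs]
      exact hFFabs n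
    refine (sum_le_sum this).trans ?_
    rw [sum_const, card_range, nsmul_eq_mul]
  have hH0 : ∀ a ∈ range H, a < m := fun a ha => by rw [mem_range] at ha; omega
  have hpA := parseval (M := m) (by omega) (range H) hH0
  rw [card_range] at hpA
  have hV1 : (m : ℝ) * ∑ b ∈ range m, (G b) ^ 2 ≤
      ((J : ℝ) * m / W ^ 3) ^ 2 * (m * H) + (m / T) ^ 2 * (m * (m * (196 * (J : ℝ) ^ 2 * ℓ ^ 2))) := by
    rw [hG]
    simp only []
    rw [hvar]
    have h1 : ∀ c ∈ range m, ‖FA (range H) ((c : ℝ) / m)‖ ^ 2 *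
        ‖∑ n ∈ range m, ((FF m J n : ℝ) : ℂ) * ee ((n : ℝ) * ((c : ℝ) / m))‖ ^ 2 ≤
        ((J : ℝ) * m / W ^ 3) ^ 2 * ‖FA (range H) ((c : ℝ) / m)‖ ^ 2 +
        (m / T) ^ 2 * ‖∑ n ∈ range m, ((FF m J n : ℝ) : ℂ) * ee ((n : ℝ) * ((c : ℝ) / m))‖ ^ 2 := by
      intro c hc
      set X := ‖FA (range H) ((c : ℝ) / m)‖ with hX
      set Y := ‖∑ n ∈ range m, ((FF m J n : ℝ) : ℂ) * ee ((n : ℝ) * ((c : ℝ) / m))‖ with hY
      have hX0 : 0 ≤ X := norm_nonneg _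
      have hY0 : 0 ≤ Y := norm_nonneg _
      by_cases hcT : T ≤ c ∧ T ≤ (m : ℝ) - c
      · have h2 := FA_range (m := m) (by omega) H c (mem_range.1 hc) T hT0 hcT.1 hcT.2
        rw [← hX] at h2
        have h3 : X ^ 2 ≤ (m / T) ^ 2 := pow_le_pow_left₀ hX0 h2 2
        have h4 : 0 ≤ ((J : ℝ) * m / W ^ 3) ^ 2 * X ^ 2 := by positivity
        have h5 : X ^ 2 * Y ^ 2 ≤ (m / T) ^ 2 * Y ^ 2 := mul_le_mul_of_nonneg_right h3 (by positivity)
        linarith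
      · have h2 := hnear c hc hcT
        rw [← hY] at h2
        have h3 : Y ^ 2 ≤ ((J : ℝ) * m / W ^ 3) ^ 2 := pow_le_pow_left₀ hY0 h2 2
        have h4 : 0 ≤ ((m : ℝ) / T) ^ 2 * Y ^ 2 := by positivity
        have h5 : X ^ 2 * Y ^ 2 ≤ ((J : ℝ) * m / W ^ 3) ^ 2 * X ^ 2 := by
          rw [mul_comm]
          exact mul_le_mul_of_nonneg_right h3 (by positivity)
        linarith
    refine (sum_le_sum h1).trans ?_
    rw [sum_add_distrib, ← mul_sum, ← mul_sum, hpA, hpars]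
    gcongr
  -- the exceptional set
  set lam : ℝ := (J : ℝ) * H / (2 * W) with hlam
  have hlam0 : 0 < lam := by positivity
  set E : Finset ℕ := (range m).filter (fun b => lam < |G b|) with hE
  have hEV : (E.card : ℝ) * lam ^ 2 ≤ ∑ b ∈ range m, (G b) ^ 2 := by
    calc (E.card : ℝ) * lam ^ 2 = ∑ b ∈ E, lam ^ 2 := by rw [sum_const, nsmul_eq_mul]
      _ ≤ ∑ b ∈ E, (G b) ^ 2 := by
        apply sum_le_sum
        intro b hb
        rw [hE, mem_filter] at hb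
        rw [← sq_abs (G b)]
        exact pow_le_pow_left₀ hlam0.le hb.2.le 2
      _ ≤ _ := sum_le_sum_of_subset_of_nonneg (filter_subset _ _) (fun _ _ _ => sq_nonneg _)
  refine ⟨E, filter_subset _ _, ?_, ?_⟩
  · have h1 : (E.card : ℝ) * ((J : ℝ) ^ 2 * H ^ 2 / (4 * W ^ 2)) ≤
        (J : ℝ) ^ 2 * m ^ 2 * H / W ^ 6 + 196 * (J : ℝ) ^ 2 * m ^ 3 / (ℓ ^ 2 * W ^ 6) := by
      have e1 : lam ^ 2 = (J : ℝ) ^ 2 * H ^ 2 / (4 * W ^ 2) := by rw [hlam]; field_simp; ring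
      rw [← e1]
      have h2 : (m : ℝ) * ((E.card : ℝ) * lam ^ 2) ≤
          m * ((J : ℝ) ^ 2 * m ^ 2 * H / W ^ 6 + 196 * (J : ℝ) ^ 2 * m ^ 3 / (ℓ ^ 2 * W ^ 6)) := by
        calc (m : ℝ) * ((E.card : ℝ) * lam ^ 2) ≤ m * ∑ b ∈ range m, (G b) ^ 2 := by gcongr
          _ ≤ _ := hV1
          _ = _ := by rw [hT]; field_simp
      exact le_of_mul_le_mul_left h2 hm0
    have h3 : (E.card : ℝ) * H ^ 2 ≤ 4 * m ^ 2 * H / W ^ 4 + 784 * m ^ 3 / (ℓ ^ 2 * W ^ 4) := by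
      have h4 : ((J : ℝ) ^ 2 / (4 * W ^ 2)) * ((E.card : ℝ) * H ^ 2) ≤
          ((J : ℝ) ^ 2 / (4 * W ^ 2)) * (4 * m ^ 2 * H / W ^ 4 + 784 * m ^ 3 / (ℓ ^ 2 * W ^ 4)) := by
        calc _ = (E.card : ℝ) * ((J : ℝ) ^ 2 * H ^ 2 / (4 * W ^ 2)) := by ring
          _ ≤ _ := h1
          _ = _ := by field_simp; ring
      exact le_of_mul_le_mul_left h4 (by positivity)
    have hmH : (m : ℝ) ≤ W * H := by
      rw [div_le_iff₀ hW0] at hH
      linarith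
    have h5 : 4 * (m : ℝ) ^ 2 * H / W ^ 4 ≤ (4 / W ^ 3) * m * H ^ 2 := by
      calc 4 * (m : ℝ) ^ 2 * H / W ^ 4 = 4 * m * H / W ^ 4 * m := by ring
        _ ≤ 4 * m * H / W ^ 4 * (W * H) := by gcongr
        _ = _ := by field_simp
    have h6 : 784 * (m : ℝ) ^ 3 / (ℓ ^ 2 * W ^ 4) ≤ (784 / (ℓ ^ 2 * W ^ 2)) * m * H ^ 2 := by
      calc 784 * (m : ℝ) ^ 3 / (ℓ ^ 2 * W ^ 4) = 784 * m / (ℓ ^ 2 * W ^ 4) * m ^ 2 := by ring
        _ ≤ 784 * m / (ℓ ^ 2 * W ^ 4) * (W * H) ^ 2 := by gcongr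
        _ = _ := by field_simp
    have h7 : (E.card : ℝ) * H ^ 2 ≤ (m / W) * H ^ 2 := by
      have a1 : 4 / W ^ 3 ≤ 1 / (2 * W) := by
        rw [div_le_div_iff₀ (by positivity) (by positivity)]
        nlinarith [pow_pos hW0 2]
      have a2 : 784 / (ℓ ^ 2 * W ^ 2) ≤ 1 / (2 * W) := by
        rw [div_le_div_iff₀ (by positivity) (by positivity)]
        have : 4096 ≤ ℓ ^ 2 := by nlinarith
        have b2 : 4 * W ≤ W ^ 2 := by nlinarith
        calc 784 * (2 * W) ≤ 4096 * (4 * W) := by linarith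
          _ ≤ ℓ ^ 2 * W ^ 2 := by gcongr
          _ = _ := by ring
      calc (E.card : ℝ) * H ^ 2 ≤ (4 / W ^ 3) * m * H ^ 2 + (784 / (ℓ ^ 2 * W ^ 2)) * m * H ^ 2 := by
            linarith
        _ ≤ (1 / (2 * W)) * m * H ^ 2 + (1 / (2 * W)) * m * H ^ 2 := by gcongr
        _ = _ := by field_simp; ring
    exact le_of_mul_le_mul_right h7 (by positivity)
  · intro b hb hbE
    have h1 : |G b| ≤ lam := by
      by_contra hc
      exact hbE (mem_filter.2 ⟨hb, not_le.1 hc⟩)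
    have h2 := hana J W (by linarith) hJ1a hJ2a (range H) hH0 (by rw [card_range]; exact hH) b
      (by rw [card_range]; exact h1)
    rw [card_range] at h2
    exact h2

open Classical in
theorem power_int5 (ε : ℝ) (hε : 0 < ε) : ∃ κ : ℝ, 0 < κ ∧ ∀ᶠ m : ℕ in atTop,
    ∀ x H : ℕ, (m : ℝ) ^ (1 - κ) ≤ H → H ≤ m →
      (5 / 18 - ε) * ((Nat.totient m : ℝ) / m * H) ≤ ((Ioc x (x + H)).filter (GoodE m ε)).card := by
  set δ : ℝ := min (ε / 4) (1 / 16) with hδdef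
  have hδ : 0 < δ := lt_min (by linarith) (by norm_num)
  have hδ8 : δ ≤ 1 / 16 := min_le_right _ _
  have hδε : δ ≤ ε / 4 := min_le_left _ _
  obtain ⟨κ₁, hκ₁, hκ₁δ, hevi⟩ := inter_ana5 δ hδ (by linarith)
  set κ : ℝ := κ₁ / 8 with hκ
  have hκ0 : 0 < κ := by rw [hκ]; positivity
  set ε' : ℝ := δ with hε'
  have hε'0 : 0 < ε' := hδ
  refine ⟨κ, hκ0, ?_⟩
  filter_upwards [hevi, Gb_sub ε δ hδ (by linarith), ev_L (12 / ε' + 4),
    eventually_ge_atTop 2, ev_log 1 (12 / ε') (1 / 2 - κ) (by linarith),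
    ev_log 43 1 (κ₁ / 4) (by positivity)] with m hana hgb h1 hm hlog h39 x H hH hHm
  have hmr : (2 : ℝ) ≤ m := by exact_mod_cast hm
  have hm0 : (0 : ℝ) < m := by linarith
  have hm1 : (1 : ℝ) ≤ m := by linarith
  set ℓ := Real.log m with hℓ
  have hp12 : 0 < 12 / ε' := by positivity
  have hℓ4 : 4 ≤ ℓ := by linarith
  have hℓ1 : 1 ≤ ℓ := by linarith
  have hℓ0 : 0 < ℓ := by linarith
  have hHr : (0 : ℝ) < H := lt_of_lt_of_le (by positivity) hH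
  have hHmr : (H : ℝ) ≤ m := by exact_mod_cast hHm
  -- the parameters
  set W : ℝ := ℓ ^ 3 * (m : ℝ) ^ κ with hW
  have hmκ1 : 1 ≤ (m : ℝ) ^ κ := Real.one_le_rpow hm1 hκ0.le
  have hℓ3 : (64 : ℝ) ≤ ℓ ^ 3 := by
    calc (64 : ℝ) = 4 ^ 3 := by norm_num
      _ ≤ ℓ ^ 3 := pow_le_pow_left₀ (by norm_num) hℓ4 3
  have hW3 : ℓ ^ 3 ≤ W := by rw [hW]; nlinarith
  have hW4 : 4 ≤ W := by linarith
  have hW0 : 0 < W := by linarith
  have hmW : (m : ℝ) / W ≤ H / ℓ ^ 3 := by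
    have e : (m : ℝ) / W = (m : ℝ) ^ (1 - κ) / ℓ ^ 3 := by
      rw [hW, Real.rpow_sub hm0, Real.rpow_one]
      field_simp
    rw [e]
    gcongr
  have hH64 : (H : ℝ) / ℓ ^ 3 ≤ H / 64 := by gcongr
  set J : ℕ := ⌊(m : ℝ) ^ κ₁⌋₊ with hJdef
  have hJ2a : (J : ℝ) ≤ (m : ℝ) ^ κ₁ := Nat.floor_le (by positivity)
  have hJ2 : (J : ℝ) ≤ (m : ℝ) ^ (δ / 2) :=
    hJ2a.trans (Real.rpow_le_rpow_of_exponent_le hm1 hκ₁δ)
  have hPJ : (ℓ ^ 12 * W ^ 3) ^ 2 ≤ J := by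
    have e : (ℓ ^ 12 * W ^ 3) ^ 2 = ℓ ^ 42 * (m : ℝ) ^ (3 * κ₁ / 4) := by
      have e1 : ((m : ℝ) ^ κ) ^ 6 = (m : ℝ) ^ (3 * κ₁ / 4) := by
        rw [← Real.rpow_natCast, ← Real.rpow_mul hm0.le]
        congr 1
        rw [hκ]; push_cast; ring
      rw [hW, ← e1]; ring
    have h2 : 2 * (ℓ ^ 42 * (m : ℝ) ^ (3 * κ₁ / 4)) ≤ (m : ℝ) ^ κ₁ := by
      rw [one_mul] at h39
      have e2 : (m : ℝ) ^ κ₁ = (m : ℝ) ^ (κ₁ / 4) * (m : ℝ) ^ (3 * κ₁ / 4) := by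
        rw [← Real.rpow_add hm0]
        congr 1; ring
      rw [e2]
      calc 2 * (ℓ ^ 42 * (m : ℝ) ^ (3 * κ₁ / 4)) = (2 * ℓ ^ 42) * (m : ℝ) ^ (3 * κ₁ / 4) := by ring
        _ ≤ ℓ ^ 43 * (m : ℝ) ^ (3 * κ₁ / 4) := by
          apply mul_le_mul_of_nonneg_right _ (by positivity)
          have : ℓ ^ 43 = ℓ * ℓ ^ 42 := by ring
          rw [this]
          apply mul_le_mul_of_nonneg_right _ (by positivity)
          linarith
        _ ≤ _ := by gcongr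
    have h3 := Nat.lt_floor_add_one ((m : ℝ) ^ κ₁)
    rw [← hJdef] at h3
    have h4 : 1 ≤ ℓ ^ 42 * (m : ℝ) ^ (3 * κ₁ / 4) := by
      have a1 : 1 ≤ ℓ ^ 42 := one_le_pow₀ hℓ1
      have a2 : 1 ≤ (m : ℝ) ^ (3 * κ₁ / 4) := Real.one_le_rpow hm1 (by positivity)
      nlinarith
    rw [e]
    linarith
  have hJ1 : 1 ≤ J := by
    have h2 : 1 ≤ (ℓ ^ 12 * W ^ 3) ^ 2 := by
      apply one_le_pow₀
      have a1 : 1 ≤ ℓ ^ 12 := one_le_pow₀ hℓ1
      have a2 : 1 ≤ W ^ 3 := one_le_pow₀ (by linarith)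
      nlinarith
    exact_mod_cast h2.trans hPJ
  set s : ℕ := ⌊(m : ℝ) / W⌋₊ with hs
  have hs1 : (m : ℝ) / W < s + 1 := Nat.lt_floor_add_one _
  have hs2 : (s : ℝ) ≤ m / W := Nat.floor_le (by positivity)
  have hsH : s ≤ H := by
    have : (s : ℝ) ≤ H := by linarith
    exact_mod_cast this
  have hsm : s < m := by
    have : (s : ℝ) < m := by linarith
    exact_mod_cast this
  have hcast : ((H - s : ℕ) : ℝ) = (H : ℝ) - s := Nat.cast_sub hsH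
  obtain ⟨E, hE1, hE2, hE3⟩ := hana J W hW4 hPJ hJ2a (H - s) (by omega) (by rw [hcast]; linarith)
  have hmain := int_of_int (m := m) (by omega) (GoodE m ε) (GoodE_per m ε) (5 / 18 - ε')
    (by linarith) W x H s hHm hs1 hsH hsm ⟨E, hE1, hE2, fun b hb hbE => by
      have h2 := hE3 b hb hbE
      have h3 : Gb m J b (range (H - s)) ⊆ (range (H - s)).filter (fun a => GoodE m ε (a + b)) := by
        intro a ha
        unfold Gb at ha
        rw [mem_filter] at ha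
        rw [mem_filter]
        exact ⟨ha.1, hgb J hJ1 hJ2 _ ha.2⟩
      have h4 : ((Gb m J b (range (H - s))).card : ℝ) ≤
          ((range (H - s)).filter (fun a => GoodE m ε (a + b))).card := by
        exact_mod_cast card_le_card h3
      have h5 : ((Pool.Agent.TH847.LM.Ab m b (range (H - s))).card : ℝ) =
          (((range (H - s)).filter (fun a => (a + b).Coprime m)).card : ℝ) := by
        unfold Pool.Agent.TH847.LM.Ab
        congr!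
      rw [h5, hcast] at h2
      linarith⟩
  refine le_trans ?_ hmain
  set r : ℝ := (Nat.totient m : ℝ) / m with hr
  have hφ := phi_low m (by omega)
  rw [← hℓ] at hφ
  have hr1 : 1 ≤ 3 * ℓ * r := by
    rw [hr, mul_div_assoc', le_div_iff₀ hm0, one_mul]
    refine hφ.trans ?_
    gcongr
    linarith
  have hr0 : 0 < r := by
    by_contra hc
    push Not at hc
    nlinarith
  have hr2 : r ≤ 1 := by
    rw [hr, div_le_one hm0]
    exact_mod_cast Nat.totient_le m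
  have k0 : 12 ≤ ε' * ℓ := by
    have : 12 / ε' ≤ ℓ := by linarith
    rw [div_le_iff₀ hε'0] at this
    linarith
  have k1 : (H : ℝ) / ℓ ^ 3 ≤ ε' / 4 * (r * H) := by
    rw [div_le_iff₀ (by positivity)]
    have a1 : 4 ≤ ε' * ℓ ^ 2 / 3 := by nlinarith
    calc (H : ℝ) = 1 * H := by ring
      _ ≤ (3 * ℓ * r) * H := by gcongr
      _ = 1 / 4 * (4 * 3 * ℓ * r * H) := by ring
      _ ≤ 1 / 4 * (ε' * ℓ ^ 2 / 3 * 3 * ℓ * r * H) := by gcongr
      _ = _ := by ring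
  have k2 : √(m : ℝ) ≤ ε' / 4 * (r * H) := by
    rw [pow_one] at hlog
    have a4 : 12 * ℓ * √(m : ℝ) ≤ ε' * H := by
      have e : (m : ℝ) ^ (1 - κ) = (m : ℝ) ^ (1 / 2 - κ) * √(m : ℝ) := by
        rw [Real.sqrt_eq_rpow, ← Real.rpow_add hm0]
        congr 1; ring
      calc 12 * ℓ * √(m : ℝ) = ε' * ((12 / ε' * ℓ) * √(m : ℝ)) := by field_simp
        _ ≤ ε' * ((m : ℝ) ^ (1 / 2 - κ) * √(m : ℝ)) := by gcongr
        _ = ε' * (m : ℝ) ^ (1 - κ) := by rw [e]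
        _ ≤ _ := by gcongr
    calc √(m : ℝ) = 1 * √(m : ℝ) := by ring
      _ ≤ (3 * ℓ * r) * √(m : ℝ) := by gcongr
      _ = 1 / 4 * r * (12 * ℓ * √(m : ℝ)) := by ring
      _ ≤ 1 / 4 * r * (ε' * H) := by gcongr
      _ = _ := by ring
  have hθ1 : 5 / 18 - ε' ≤ 1 := by linarith
  have hθ0 : 0 ≤ 5 / 18 - ε' := by linarith
  have k3 : (5 / 18 - ε') * (r * s) ≤ H / ℓ ^ 3 := by
    have : (0 : ℝ) ≤ s := Nat.cast_nonneg _
    have b1 : r * s ≤ s := by nlinarith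
    have b2 : 0 ≤ r * s := by positivity
    nlinarith
  have k4 : ((H : ℝ) - s) / W ≤ H / ℓ ^ 3 := by
    calc ((H : ℝ) - s) / W ≤ H / W := by
          apply div_le_div_of_nonneg_right _ hW0.le
          have : (0 : ℝ) ≤ s := Nat.cast_nonneg _
          linarith
      _ ≤ _ := by gcongr
  have k5 : (5 / 18 - ε') * (2 * √(m : ℝ)) ≤ √(m : ℝ) := by
    have := Real.sqrt_nonneg (m : ℝ)
    nlinarith
  have hrH : 0 ≤ r * H := by positivity
  have k6 : ε' * (r * H) ≤ (ε - ε') * (r * H) := by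
    apply mul_le_mul_of_nonneg_right _ hrH
    linarith
  have e : (5 / 18 - ε') * (r * ((H : ℝ) - s) - 2 * √(m : ℝ)) - ((H : ℝ) - s) / W =
      (5 / 18 - ε') * (r * H) - (5 / 18 - ε') * (r * s) - (5 / 18 - ε') * (2 * √(m : ℝ)) -
        ((H : ℝ) - s) / W := by ring
  rw [e]
  linarith

open Classical in
theorem power_sets5 (ε θ : ℝ) (hε : 0 < ε) (hθ : 0 < θ) (hθ1 : θ ≤ 1) : ∃ κ : ℝ, 0 < κ ∧
    ∀ᶠ m : ℕ in atTop, (∀ p : ℕ, p.Prime → p ∣ m → (m : ℝ) ^ θ ≤ p) →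
    ∀ A : Finset ℕ, (∀ a ∈ A, a < m) → (m : ℝ) ^ (1 - κ) ≤ A.card →
    ∃ E : Finset ℕ, E ⊆ range m ∧ (E.card : ℝ) ≤ (m : ℝ) ^ (1 - κ) ∧ ∀ b ∈ range m, b ∉ E →
      (5 / 18 - ε) * A.card ≤ (A.filter (fun a => GoodE m ε (a + b))).card := by
  set δ : ℝ := min (ε / 4) (1 / 16) with hδdef
  have hδ : 0 < δ := lt_min (by linarith) (by norm_num)
  have hδ8 : δ ≤ 1 / 16 := min_le_right _ _
  have hδε : δ ≤ ε / 4 := min_le_left _ _
  obtain ⟨κ₁, hκ₁, hκ₁δ, hevi⟩ := analysis5 δ hδ (by linarith)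
  set κ : ℝ := min (κ₁ / 8) (θ / 16) with hκ
  have hκ0 : 0 < κ := lt_min (by positivity) (by positivity)
  have hκ1 : κ ≤ κ₁ / 8 := min_le_left _ _
  have hκ2 : κ ≤ θ / 16 := min_le_right _ _
  refine ⟨κ, hκ0, ?_⟩
  filter_upwards [hevi, Gb_sub ε δ hδ (by linarith), ev_L 4,
    eventually_ge_atTop 2, ev_log 0 (4 / ε + 2) κ hκ0, ev_log 1 (8 / ε) (θ / 2) (by positivity),
    ev_log 25 1 (κ₁ / 4) (by positivity), ev_log 25 1 (θ / 2) (by positivity)] with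
    m hana hgb h1 hm hWb hlogθ h21 h21θ hp A hA hAc
  have hmr : (2 : ℝ) ≤ m := by exact_mod_cast hm
  have hm0 : (0 : ℝ) < m := by linarith
  have hm1 : (1 : ℝ) ≤ m := by linarith
  set ℓ := Real.log m with hℓ
  have hℓ1 : 1 ≤ ℓ := by linarith
  have hℓ0 : 0 < ℓ := by linarith
  rw [pow_zero, mul_one] at hWb
  rw [one_mul] at h21 h21θ
  rw [pow_one] at hlogθ
  have hε4 : 0 < 4 / ε := by positivity
  set W : ℝ := (m : ℝ) ^ κ with hW
  have hW2 : 2 ≤ W := by linarith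
  have hW0 : 0 < W := by linarith
  have hmW : (m : ℝ) / W = (m : ℝ) ^ (1 - κ) := by
    rw [hW, Real.rpow_sub hm0, Real.rpow_one]
  have hW6 : (ℓ ^ 12 * W ^ 3) ^ 2 = ℓ ^ 24 * (m : ℝ) ^ (6 * κ) := by
    have e1 : ((m : ℝ) ^ κ) ^ 6 = (m : ℝ) ^ (6 * κ) := by
      rw [← Real.rpow_natCast, ← Real.rpow_mul hm0.le]
      congr 1
      push_cast; ring
    rw [hW, ← e1]; ring
  set J : ℕ := ⌊(m : ℝ) ^ κ₁⌋₊ with hJdef
  have hJ2a : (J : ℝ) ≤ (m : ℝ) ^ κ₁ := Nat.floor_le (by positivity)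
  have hJ2 : (J : ℝ) ≤ (m : ℝ) ^ (δ / 2) :=
    hJ2a.trans (Real.rpow_le_rpow_of_exponent_le hm1 hκ₁δ)
  have hPJ : (ℓ ^ 12 * W ^ 3) ^ 2 ≤ J := by
    have h2 : 2 * (ℓ ^ 24 * (m : ℝ) ^ (6 * κ)) ≤ (m : ℝ) ^ κ₁ := by
      have e2 : (m : ℝ) ^ κ₁ = (m : ℝ) ^ (κ₁ / 4) * (m : ℝ) ^ (3 * κ₁ / 4) := by
        rw [← Real.rpow_add hm0]
        congr 1; ring
      rw [e2]
      calc 2 * (ℓ ^ 24 * (m : ℝ) ^ (6 * κ)) = (2 * ℓ ^ 24) * (m : ℝ) ^ (6 * κ) := by ring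
        _ ≤ ℓ ^ 25 * (m : ℝ) ^ (3 * κ₁ / 4) := by
          apply mul_le_mul _ _ (by positivity) (by positivity)
          · have : ℓ ^ 25 = ℓ * ℓ ^ 24 := by ring
            rw [this]
            apply mul_le_mul_of_nonneg_right _ (by positivity)
            linarith
          · exact Real.rpow_le_rpow_of_exponent_le hm1 (by linarith)
        _ ≤ _ := by gcongr
    have h3 := Nat.lt_floor_add_one ((m : ℝ) ^ κ₁)
    rw [← hJdef] at h3
    have h4 : 1 ≤ ℓ ^ 24 * (m : ℝ) ^ (6 * κ) := by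
      have a1 : 1 ≤ ℓ ^ 24 := one_le_pow₀ hℓ1
      have a2 : 1 ≤ (m : ℝ) ^ (6 * κ) := Real.one_le_rpow hm1 (by positivity)
      nlinarith
    rw [hW6]
    linarith
  have hJ1 : 1 ≤ J := by
    have h2 : 1 ≤ (ℓ ^ 12 * W ^ 3) ^ 2 := by
      apply one_le_pow₀
      have a1 : 1 ≤ ℓ ^ 12 := one_le_pow₀ hℓ1
      have a2 : 1 ≤ W ^ 3 := one_le_pow₀ (by linarith)
      nlinarith
    exact_mod_cast h2.trans hPJ
  -- no small denominators
  have hθbig : (ℓ ^ 10 * W ^ 3) ^ 2 ≤ (m : ℝ) ^ θ := by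
    have hl12 : (ℓ ^ 10 * W ^ 3) ^ 2 ≤ (ℓ ^ 12 * W ^ 3) ^ 2 := by
      apply pow_le_pow_left₀ (by positivity)
      apply mul_le_mul_of_nonneg_right _ (by positivity)
      exact pow_le_pow_right₀ hℓ1 (by norm_num)
    refine hl12.trans ?_
    rw [hW6]
    have e2 : (m : ℝ) ^ θ = (m : ℝ) ^ (θ / 2) * (m : ℝ) ^ (θ / 2) := by
      rw [← Real.rpow_add hm0]; norm_num
    rw [e2]
    apply mul_le_mul _ _ (by positivity) (by positivity)
    · refine le_trans ?_ h21θ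
      exact pow_le_pow_right₀ hℓ1 (by norm_num)
    · exact Real.rpow_le_rpow_of_exponent_le hm1 (by linarith)
  have hsmall : ∀ c ∈ range m, ((m / c.gcd m : ℕ) : ℝ) < (ℓ ^ 10 * W ^ 3) ^ 2 →
      ‖∑ n ∈ range m, ((FF m J n : ℝ) : ℂ) * ee ((n : ℝ) * ((c : ℝ) / m))‖ ≤ (J : ℝ) * m / W ^ 3 := by
    intro c hc hcq
    rw [mem_range] at hc
    rcases Nat.eq_zero_or_pos c with h0 | hc0
    · rw [h0, FF_zero (by omega), norm_zero]
      positivity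
    · exfalso
      have hg0 : 0 < c.gcd m := Nat.gcd_pos_of_pos_left _ hc0
      have hgc : c.gcd m ≤ c := Nat.le_of_dvd hc0 (Nat.gcd_dvd_left _ _)
      obtain ⟨q, hq⟩ : c.gcd m ∣ m := Nat.gcd_dvd_right _ _
      have hmq : m / c.gcd m = q := Nat.div_eq_of_eq_mul_right hg0 hq
      rw [hmq] at hcq
      have hq1 : q ≠ 1 := by
        intro h
        rw [h, mul_one] at hq
        omega
      obtain ⟨p, hp1, hp2⟩ := Nat.exists_prime_and_dvd hq1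
      have hpm : p ∣ m := hp2.trans ⟨c.gcd m, by rw [mul_comm]; exact hq⟩
      have hq0 : 0 < q := by
        rcases Nat.eq_zero_or_pos q with h | h
        · rw [h, mul_zero] at hq; omega
        · exact h
      have h2 := hp p hp1 hpm
      have h3 : (p : ℝ) ≤ q := by exact_mod_cast Nat.le_of_dvd hq0 hp2
      linarith
  obtain ⟨E, hE1, hE2, hE3⟩ := hana J W hW2 hPJ hJ2a hsmall A hA (by rw [hmW]; exact hAc)
  refine ⟨E, hE1, by rw [← hmW]; exact hE2, fun b hb hbE => ?_⟩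
  have h2 := hE3 b hb hbE
  have h3 : Gb m J b A ⊆ A.filter (fun a => GoodE m ε (a + b)) := by
    intro a ha
    unfold Gb at ha
    rw [mem_filter] at ha
    rw [mem_filter]
    exact ⟨ha.1, hgb J hJ1 hJ2 _ ha.2⟩
  have h4 : ((Gb m J b A).card : ℝ) ≤ (A.filter (fun a => GoodE m ε (a + b))).card := by
    exact_mod_cast card_le_card h3
  refine le_trans ?_ h4
  refine le_trans ?_ h2
  have h5 := nocop hm θ hp A hA b
  rw [← hℓ] at h5
  have hAr : (0 : ℝ) < A.card := lt_of_lt_of_le (by positivity) hAc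
  -- the two losses
  have h6 : 2 * ℓ * (m : ℝ) ^ (1 - θ) ≤ ε / 4 * A.card := by
    have e : (m : ℝ) ^ (1 - θ / 2) = (m : ℝ) ^ (1 - θ) * (m : ℝ) ^ (θ / 2) := by
      rw [← Real.rpow_add hm0]
      congr 1; ring
    calc 2 * ℓ * (m : ℝ) ^ (1 - θ) = ε / 4 * ((m : ℝ) ^ (1 - θ) * (8 / ε * ℓ)) := by field_simp; ring
      _ ≤ ε / 4 * ((m : ℝ) ^ (1 - θ) * (m : ℝ) ^ (θ / 2)) := by gcongr
      _ = ε / 4 * (m : ℝ) ^ (1 - θ / 2) := by rw [e]
      _ ≤ ε / 4 * (m : ℝ) ^ (1 - κ) := by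
        apply mul_le_mul_of_nonneg_left _ (by positivity)
        exact Real.rpow_le_rpow_of_exponent_le hm1 (by linarith)
      _ ≤ _ := by gcongr
  have h7 : (A.card : ℝ) / W ≤ ε / 4 * A.card := by
    rw [div_le_iff₀ hW0]
    have : 4 / ε ≤ W := by linarith
    rw [div_le_iff₀ hε] at this
    nlinarith
  have hδ0 : 0 ≤ 5 / 18 - δ := by linarith
  have h8 : (5 / 18 - δ) * ((A.card : ℝ) - ε / 4 * A.card) ≤
      (5 / 18 - δ) * (Pool.Agent.TH847.LM.Ab m b A).card := by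
    apply mul_le_mul_of_nonneg_left _ hδ0
    linarith
  have h9 : 5 / 18 - 3 / 8 * ε ≤ (5 / 18 - δ) * (1 - ε / 4) := by
    have : 0 ≤ δ * ε := by positivity
    nlinarith
  have h10 := mul_le_mul_of_nonneg_right h9 hAr.le
  have h11 : (5 / 18 - δ) * ((A.card : ℝ) - ε / 4 * A.card) =
      (5 / 18 - δ) * (1 - ε / 4) * A.card := by ring
  have h12 : 0 ≤ ε * (A.card : ℝ) := by positivity
  linarith

end Pool.Agent.R516
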