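import Mathlib
import Pool.Agent.R516.QG
import Pool.Agent.R516.QC

/-! Primes in almost all classes to every modulus, uniformly in the length. -/

set_option autoImplicit false

namespace Pool.Agent.R516

open Finset Filter Topology

/-- uniformity in the length -/
def St_KQ : Prop := ∀ δ : ℝ, 0 < δ → ∀ R : ℝ, 1 ≤ R → ∃ κ : ℝ, 0 < κ ∧ ∃ q₀ : ℕ, ∀ q : ℕ, q₀ ≤ q →
  ∀ y₀ : ℕ, q ≤ y₀ → ∀ B : Finset ℕ, (∀ a ∈ B, a < q ∧ ∃ y : ℕ, y₀ ≤ y ∧ (y : ℝ) ≤ (q : ℝ) ^ R ∧
    (18 / 5 + δ) / (Nat.totient q * Real.log y) * y < (pcq y q a : ℝ)) →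
    (B.card : ℝ) ≤ q * (Real.log q) ^ 23 * ((q : ℝ) ^ (-κ) + q / y₀)

open Classical in
theorem stepK {δ κ : ℝ} (hδ : 0 < δ) (hκ : 0 < κ) {N M q : ℕ} (hq : 1 ≤ q) (hM : q ≤ M) (hNM : N = 2 * M)
    (hN3 : 3 ≤ N)
    (hmain : ∀ H : ℝ, 1 ≤ H → H ≤ (N : ℝ) ^ κ → q * H ≤ N →
    (((Icc 1 N).filter (fun n =>
      n ∈ HiQ N q H ((18 / 5 + δ) / (Nat.totient q * Real.log N)))).card : ℝ) ≤
      N * (Real.log N) ^ 21 / H)
    (B : Finset ℕ) (hB : ∀ a ∈ B, a < q ∧ ∃ y : ℕ, M ≤ y ∧ y ≤ N ∧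
      (18 / 5 + δ) / (Nat.totient q * Real.log y) * y < (pcq y q a : ℝ)) :
    (B.card : ℝ) ≤ 4 * q * (Real.log N) ^ 21 * ((N : ℝ) ^ (-κ) + q / M) := by
  classical
  have hq0 : (0 : ℝ) < q := by exact_mod_cast hq
  have hMr : (q : ℝ) ≤ M := by exact_mod_cast hM
  have hM0 : (0 : ℝ) < M := lt_of_lt_of_le hq0 hMr
  have hNr : (N : ℝ) = 2 * M := by rw [hNM]; push_cast; ring
  have hN3r : (3 : ℝ) ≤ N := by exact_mod_cast hN3
  have hN0 : (0 : ℝ) < N := by linarith only [hN3r]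
  have hN1 : (1 : ℝ) ≤ N := by linarith only [hN3r]
  have hφ0 : (0 : ℝ) < Nat.totient q := by exact_mod_cast Nat.totient_pos.2 hq
  obtain ⟨H, hH⟩ : ∃ H : ℝ, H = min ((N : ℝ) ^ κ) (M / q) := ⟨_, rfl⟩
  have hMq1 : 1 ≤ (M : ℝ) / q := by
    rw [le_div_iff₀ hq0, one_mul]
    exact hMr
  have hH1 : 1 ≤ H := by
    rw [hH]
    exact le_min (Real.one_le_rpow hN1 hκ.le) hMq1
  have hH0 : 0 < H := by linarith only [hH1]
  have hHκ : H ≤ (N : ℝ) ^ κ := by
    rw [hH]
    exact min_le_left _ _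
  have hqH : q * H ≤ M := by
    have h1 : H ≤ M / q := by rw [hH]; exact min_le_right _ _
    calc (q : ℝ) * H ≤ q * (M / q) := mul_le_mul_of_nonneg_left h1 hq0.le
      _ = M := by field_simp
  have hmn := hmain H hH1 hHκ (by linarith only [hqH, hNr, hM0])
  have hcm := card_mul_le (X := M) (q := q) hq B (fun a ha => (hB a ha).1) ((Icc 1 N).filter (fun n =>
      n ∈ HiQ N q H ((18 / 5 + δ) / (Nat.totient q * Real.log N)))) (by
    intro n hn hnB
    obtain ⟨_, y, hy1, hy2, hy3⟩ := hB _ hnB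
    rw [Finset.mem_Icc] at hn
    rw [Finset.mem_filter, Finset.mem_Icc]
    refine ⟨⟨hn.1, by omega⟩, ?_⟩
    have hyr : (M : ℝ) ≤ y := by exact_mod_cast hy1
    refine ⟨0, y, by omega, by omega, hy2, ?_, ?_⟩
    · rw [Nat.cast_zero, sub_zero]
      linarith only [hqH, hyr]
    · rw [Nat.cast_zero, sub_zero]
      have h1 : (18 / 5 + δ) / (Nat.totient q * Real.log N) * (y : ℝ) ≤
          (18 / 5 + δ) / (Nat.totient q * Real.log y) * y := by
        by_cases hy1' : y ≤ 1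
        · exfalso
          have h2 : pcq y q (n % q) = 0 := by
            unfold pcq
            rw [Finset.card_eq_zero, Finset.filter_eq_empty_iff]
            intro p hp hpp
            rw [Finset.mem_Ioc] at hp
            have := hpp.1.two_le
            omega
          rw [h2, Nat.cast_zero] at hy3
          have h3 : 0 ≤ (18 / 5 + δ) / (Nat.totient q * Real.log y) * (y : ℝ) := by
            have : 0 ≤ Real.log y := Real.log_natCast_nonneg y
            positivity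
          linarith only [hy3, h3]
        · apply mul_le_mul_of_nonneg_right _ (Nat.cast_nonneg _)
          have hy2' : (1 : ℝ) < y := by exact_mod_cast (by omega : 1 < y)
          apply div_le_div_of_nonneg_left (by positivity)
          · exact mul_pos hφ0 (Real.log_pos hy2')
          · apply mul_le_mul_of_nonneg_left _ hφ0.le
            exact Real.log_le_log (by linarith only [hy2']) (by exact_mod_cast hy2)
      exact lt_of_le_of_lt h1 hy3)
  have hcm' : (B.card : ℝ) * ((M / q : ℕ) : ℝ) ≤ N * (Real.log N) ^ 21 / H := by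
    have h1 : (B.card : ℝ) * ((M / q : ℕ) : ℝ) ≤
        (((Icc 1 N).filter (fun n =>
          n ∈ HiQ N q H ((18 / 5 + δ) / (Nat.totient q * Real.log N)))).card : ℝ) := by
      exact_mod_cast hcm
    exact h1.trans hmn
  have hfl : (M : ℝ) / (2 * q) ≤ ((M / q : ℕ) : ℝ) := by
    have h1 : (M : ℝ) / q < ((M / q : ℕ) : ℝ) + 1 := by
      rw [div_lt_iff₀ hq0]
      have h2 : M < (M / q + 1) * q := by
        rw [mul_comm]
        exact Nat.lt_mul_div_succ M (by omega)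
      exact_mod_cast h2
    have h3 : (M : ℝ) / (2 * q) = M / q / 2 := by
      rw [div_div, mul_comm]
    have h4 : (1 : ℝ) ≤ ((M / q : ℕ) : ℝ) := by
      have : 1 ≤ M / q := (Nat.one_le_div_iff (by omega)).2 hM
      exact_mod_cast this
    rw [h3]
    linarith only [h1, h4]
  have h1 : (B.card : ℝ) * (M / (2 * q)) ≤ N * (Real.log N) ^ 21 / H :=
    (mul_le_mul_of_nonneg_left hfl (Nat.cast_nonneg _)).trans hcm'
  have h2 : (B.card : ℝ) ≤ 4 * q * (Real.log N) ^ 21 * (1 / H) := by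
    have h3 : (B.card : ℝ) = (B.card : ℝ) * (M / (2 * q)) * (2 * q / M) := by
      field_simp
    rw [h3]
    calc (B.card : ℝ) * (M / (2 * q)) * (2 * q / M) ≤ N * (Real.log N) ^ 21 / H * (2 * q / M) :=
          mul_le_mul_of_nonneg_right h1 (by positivity)
      _ = _ := by
          rw [hNr]
          field_simp
          ring
  have h3 : 1 / H ≤ (N : ℝ) ^ (-κ) + q / M := by
    rw [hH]
    rcases le_total ((N : ℝ) ^ κ) (M / q) with h | h
    · rw [min_eq_left h, Real.rpow_neg hN0.le, one_div]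
      have : 0 ≤ (q : ℝ) / M := by positivity
      linarith only [this]
    · rw [min_eq_right h, one_div_div]
      have : 0 ≤ (N : ℝ) ^ (-κ) := Real.rpow_nonneg hN0.le _
      linarith only [this]
  refine h2.trans ?_
  have hL0 : 0 ≤ Real.log N := Real.log_natCast_nonneg N
  exact mul_le_mul_of_nonneg_left h3 (by positivity)

theorem unifK (hU : St_UQ) : St_KQ := by
  classical
  intro δ hδ R hR
  obtain ⟨κ, hκ, N₀, hN₀⟩ := hU δ hδ
  refine ⟨κ, hκ, ?_⟩
  rw [← Filter.eventually_atTop]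
  have hR0 : 0 < R := by linarith
  filter_upwards [eventually_ge_atTop N₀, eventually_ge_atTop 3,
    ev_log' (4 * (4 * R) * (2 * R) ^ 21 + 8)] with q hqN hq3 hL y₀ hy₀ B hB
  have hqr : (3 : ℝ) ≤ q := by exact_mod_cast hq3
  have hq0 : (0 : ℝ) < q := by linarith only [hqr]
  have hq1 : (1 : ℝ) ≤ q := by linarith only [hqr]
  obtain ⟨ℓ, hℓ⟩ : ∃ ℓ, ℓ = Real.log q := ⟨_, rfl⟩
  rw [← hℓ] at hL ⊢
  have hRp : 0 < 4 * (4 * R) * (2 * R) ^ 21 := by positivity
  have hℓ8 : 8 ≤ ℓ := by linarith only [hL, hRp]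
  have hℓ0 : 0 < ℓ := by linarith only [hℓ8]
  have hy0 : (0 : ℝ) < y₀ := by
    have : (q : ℝ) ≤ y₀ := by exact_mod_cast hy₀
    linarith only [this, hq0]
  -- the dyadic decomposition
  obtain ⟨K, hK⟩ : ∃ K : ℕ, K = ⌊4 * R * ℓ⌋₊ := ⟨_, rfl⟩
  have hKle : (K : ℝ) ≤ 4 * R * ℓ := by
    rw [hK]
    exact Nat.floor_le (by positivity)
  obtain ⟨Bj, hBj⟩ : ∃ Bj : ℕ → Finset ℕ, Bj = fun j => B.filter (fun a => ∃ y : ℕ, 2 ^ j * y₀ ≤ y ∧
      y ≤ 2 * (2 ^ j * y₀) ∧ (y : ℝ) ≤ (q : ℝ) ^ R ∧ (18 / 5 + δ) / (Nat.totient q * Real.log y) * y < (pcq y q a : ℝ)) :=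
    ⟨_, rfl⟩
  have hsub : B ⊆ (range K).biUnion Bj := by
    intro a ha
    obtain ⟨_, y, hy1, hy2, hy3⟩ := hB a ha
    rw [Finset.mem_biUnion]
    have hy0' : 0 < y₀ := by omega
    refine ⟨Nat.log 2 (y / y₀), ?_, ?_⟩
    · rw [Finset.mem_range, hK]
      have hne : y / y₀ ≠ 0 := by
        have := Nat.div_pos hy1 hy0'
        omega
      have h1 : 2 ^ (Nat.log 2 (y / y₀)) ≤ y / y₀ := Nat.pow_log_le_self 2 hne
      have h2 : ((2 : ℝ) ^ (Nat.log 2 (y / y₀))) ≤ (q : ℝ) ^ R := by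
        have h3 : ((2 : ℝ) ^ (Nat.log 2 (y / y₀))) ≤ ((y / y₀ : ℕ) : ℝ) := by exact_mod_cast h1
        have h4 : ((y / y₀ : ℕ) : ℝ) ≤ y := by exact_mod_cast Nat.div_le_self y y₀
        linarith only [h3, h4, hy2]
      have h3 := Real.log_le_log (by positivity) h2
      rw [Real.log_pow, Real.log_rpow hq0, ← hℓ] at h3
      have h4 : (1 : ℝ) / 2 < Real.log 2 := by linarith only [Real.log_two_gt_d9]
      have h5 : ((Nat.log 2 (y / y₀) : ℕ) : ℝ) ≤ 2 * (R * ℓ) := by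
        have h6 : (0 : ℝ) ≤ (Nat.log 2 (y / y₀) : ℕ) := Nat.cast_nonneg _
        nlinarith only [h3, h4, h6]
      apply Nat.lt_of_lt_of_le (Nat.lt_succ_self _)
      apply Nat.le_floor
      push_cast
      have h7 : 8 ≤ R * ℓ := by nlinarith only [hR, hℓ8]
      linarith only [h5, h7]
    · rw [hBj]
      beta_reduce
      rw [Finset.mem_filter]
      refine ⟨ha, y, ?_, ?_, hy2, hy3⟩
      · have hne : y / y₀ ≠ 0 := by
          have := Nat.div_pos hy1 hy0'
          omega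
        have h1 : 2 ^ (Nat.log 2 (y / y₀)) ≤ y / y₀ := Nat.pow_log_le_self 2 hne
        calc 2 ^ (Nat.log 2 (y / y₀)) * y₀ ≤ (y / y₀) * y₀ := Nat.mul_le_mul_right _ h1
          _ ≤ y := Nat.div_mul_le_self y y₀
      · have h1 : y / y₀ < 2 ^ (Nat.log 2 (y / y₀) + 1) := Nat.lt_pow_succ_log_self (by norm_num) _
        have h2 : y < 2 ^ (Nat.log 2 (y / y₀) + 1) * y₀ := (Nat.div_lt_iff_lt_mul hy0').1 h1
        have e : 2 ^ (Nat.log 2 (y / y₀) + 1) * y₀ = 2 * (2 ^ (Nat.log 2 (y / y₀)) * y₀) := by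
          rw [pow_succ]
          ring
        omega
  -- each scale
  have hj : ∀ j ∈ range K, ((Bj j).card : ℝ) ≤
      4 * q * ((2 * R) * ℓ) ^ 21 * ((q : ℝ) ^ (-κ) + q / y₀) := by
    intro j _
    by_cases hemp : (Bj j) = ∅
    · rw [hemp, Finset.card_empty, Nat.cast_zero]
      positivity
    obtain ⟨a₀, ha₀⟩ := Finset.nonempty_iff_ne_empty.2 hemp
    -- the scale is at most `q ^ R`
    obtain ⟨M, hM⟩ : ∃ M, M = 2 ^ j * y₀ := ⟨_, rfl⟩
    obtain ⟨N, hN⟩ : ∃ N, N = 2 * M := ⟨_, rfl⟩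
    have hyM : y₀ ≤ M := by
      rw [hM]
      exact Nat.le_mul_of_pos_left _ (by positivity)
    have hqM : q ≤ M := hy₀.trans hyM
    by_cases hMR : (M : ℝ) ≤ (q : ℝ) ^ R
    · have hqN' : (q : ℝ) ≤ N := by
        have : q ≤ N := by omega
        exact_mod_cast this
      have hN0 : (0 : ℝ) < N := by linarith only [hqN', hq0]
      have hstep := stepK (N := N) (M := M) (q := q) hδ hκ (by omega) hqM hN (by omega)
        (hN₀ N (by omega) q (by omega)) (Bj j) (by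
          intro a ha
          rw [hBj] at ha
          beta_reduce at ha
          rw [Finset.mem_filter] at ha
          obtain ⟨haB, y, h1, h2, _, h3⟩ := ha
          rw [← hM] at h1 h2
          exact ⟨(hB a haB).1, y, h1, by omega, h3⟩)
      refine hstep.trans ?_
      have hlogN : Real.log N ≤ 2 * R * ℓ := by
        have h1 : (N : ℝ) ≤ 2 * (q : ℝ) ^ R := by
          have : (N : ℝ) = 2 * M := by rw [hN]; push_cast; ring
          rw [this]
          linarith only [hMR]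
        have h2 := Real.log_le_log hN0 h1
        rw [Real.log_mul (by norm_num) (by positivity), Real.log_rpow hq0, ← hℓ] at h2
        have h3 := Real.log_two_lt_d9
        have h7 : 8 ≤ R * ℓ := by nlinarith only [hR, hℓ8]
        linarith only [h2, h3, h7]
      have hlogN0 : 0 ≤ Real.log N := Real.log_natCast_nonneg N
      have h1 : (N : ℝ) ^ (-κ) ≤ (q : ℝ) ^ (-κ) := by
        rw [Real.rpow_neg hN0.le, Real.rpow_neg hq0.le]
        apply inv_anti₀ (Real.rpow_pos_of_pos hq0 _)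
        exact Real.rpow_le_rpow hq0.le hqN' hκ.le
      have h2 : (q : ℝ) / M ≤ q / y₀ := by
        apply div_le_div_of_nonneg_left hq0.le hy0
        exact_mod_cast hyM
      gcongr
    · exfalso
      rw [hBj] at ha₀
      beta_reduce at ha₀
      rw [Finset.mem_filter] at ha₀
      obtain ⟨haB, y, h1, h2, h3, _⟩ := ha₀
      rw [← hM] at h1
      have h4 : (M : ℝ) ≤ y := by exact_mod_cast h1
      linarith only [h3, h4, hMR]
  have h1 : (B.card : ℝ) ≤ ∑ j ∈ range K, ((Bj j).card : ℝ) := by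
    have h2 := (Finset.card_le_card hsub).trans Finset.card_biUnion_le
    exact_mod_cast h2
  refine h1.trans ((Finset.sum_le_sum hj).trans ?_)
  rw [Finset.sum_const, Finset.card_range, nsmul_eq_mul]
  have hpos : 0 ≤ (q : ℝ) ^ (-κ) + q / y₀ := by positivity
  calc (K : ℝ) * (4 * q * ((2 * R) * ℓ) ^ 21 * ((q : ℝ) ^ (-κ) + q / y₀)) ≤
      (4 * R * ℓ) * (4 * q * ((2 * R) * ℓ) ^ 21 * ((q : ℝ) ^ (-κ) + q / y₀)) :=
        mul_le_mul_of_nonneg_right hKle (by positivity)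
    _ = (4 * (4 * R) * (2 * R) ^ 21) * (q * ℓ ^ 22 * ((q : ℝ) ^ (-κ) + q / y₀)) := by ring
    _ ≤ ℓ * (q * ℓ ^ 22 * ((q : ℝ) ^ (-κ) + q / y₀)) :=
        mul_le_mul_of_nonneg_right (by linarith only [hL]) (by positivity)
    _ = _ := by ring

theorem kq : St_KQ := unifK (winUQ coreq)

end Pool.Agent.R516
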