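import Mathlib
import Pool.Agent.R516.QG
import Pool.Agent.TH847.LM.Four

/-! The function `ψ(x, q, a)` for almost all classes of every modulus. -/

set_option autoImplicit false

namespace Pool.Agent.R516

open Finset Filter Topology

/-- `ψ(N, q, a)` -/
noncomputable def psq (N q a : ℕ) : ℝ :=
  ∑ n ∈ (Icc 1 N).filter (fun n => n ≡ a [MOD q]), ArithmeticFunction.vonMangoldt n

/-- the part of the proper prime powers -/
noncomputable def rsq (N q a : ℕ) : ℝ :=
  ∑ n ∈ (Icc 1 N).filter (fun n => n % q = a ∧ ¬ n.Prime), ArithmeticFunction.vonMangoldt n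

theorem psq_nonneg (N q a : ℕ) : 0 ≤ psq N q a :=
  Finset.sum_nonneg fun _ _ => ArithmeticFunction.vonMangoldt_nonneg

theorem psq_eq {N q a : ℕ} (ha : a < q) : psq N q a =
    ∑ n ∈ (Icc 1 N).filter (fun n => n % q = a), ArithmeticFunction.vonMangoldt n := by
  unfold psq
  congr 1
  apply Finset.filter_congr
  intro n _
  unfold Nat.ModEq
  rw [Nat.mod_eq_of_lt ha]

theorem psq_le {N q a : ℕ} (hN : 1 ≤ N) (ha : a < q) :
    psq N q a ≤ Real.log N * pcq N q a + rsq N q a := by
  classical
  rw [psq_eq ha, ← Finset.sum_filter_add_sum_filter_not _ (fun n : ℕ => n.Prime)]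
  rw [Finset.filter_filter, Finset.filter_filter]
  unfold rsq
  apply add_le_add _ le_rfl
  have h1 : ∀ n ∈ (Icc 1 N).filter (fun n => n % q = a ∧ n.Prime),
      ArithmeticFunction.vonMangoldt n ≤ Real.log N := by
    intro n hn
    rw [Finset.mem_filter, Finset.mem_Icc] at hn
    refine ArithmeticFunction.vonMangoldt_le_log.trans ?_
    exact Real.log_le_log (by exact_mod_cast hn.1.1) (by exact_mod_cast hn.1.2)
  refine (Finset.sum_le_sum h1).trans ?_
  rw [Finset.sum_const, nsmul_eq_mul, mul_comm]
  apply mul_le_mul_of_nonneg_left _ (Real.log_natCast_nonneg N)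
  unfold pcq
  have h2 : ((Icc 1 N).filter (fun n => n % q = a ∧ n.Prime)).card ≤
      ((Ioc 0 N).filter (fun p => p.Prime ∧ p % q = a)).card := by
    apply Finset.card_le_card
    intro n hn
    rw [Finset.mem_filter, Finset.mem_Icc] at hn
    rw [Finset.mem_filter, Finset.mem_Ioc]
    exact ⟨⟨by omega, hn.1.2⟩, hn.2.2, hn.2.1⟩
  exact_mod_cast h2

theorem rsq_nonneg (N q a : ℕ) : 0 ≤ rsq N q a :=
  Finset.sum_nonneg fun _ _ => ArithmeticFunction.vonMangoldt_nonneg

theorem rsq_sum {N q : ℕ} (hN : 1 ≤ N) (hq : 1 ≤ q) :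
    ∑ a ∈ range q, rsq N q a ≤ 2 * √(N : ℝ) * Real.log N := by
  classical
  have h1 : ∑ a ∈ range q, rsq N q a =
      ∑ n ∈ (Icc 1 N).filter (fun n => ¬ n.Prime), ArithmeticFunction.vonMangoldt n := by
    rw [← Finset.sum_fiberwise_of_maps_to (s := (Icc 1 N).filter (fun n => ¬ n.Prime))
      (t := range q) (g := fun n => n % q)
      (fun n _ => Finset.mem_range.2 (Nat.mod_lt n (by omega)))]
    apply Finset.sum_congr rfl
    intro a _
    unfold rsq
    congr 1
    rw [Finset.filter_filter]
    apply Finset.filter_congr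
    intro n _
    exact And.comm
  have h2 := Chebyshev.psi_sub_theta_eq_sum_not_prime (N : ℝ)
  have h3 := Chebyshev.psi_sub_theta_le (x := (N : ℝ)) (by exact_mod_cast hN)
  rw [h1]
  refine le_trans (le_of_eq ?_) h3
  rw [h2, Nat.floor_natCast]
  rfl

theorem psq_triv {N q a : ℕ} (hN : 1 ≤ N) (ha : a < q) :
    psq N q a ≤ (N / q + 1) * Real.log N := by
  classical
  rw [psq_eq ha]
  have h1 : ∀ n ∈ (Icc 1 N).filter (fun n => n % q = a),
      ArithmeticFunction.vonMangoldt n ≤ Real.log N := by
    intro n hn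
    rw [Finset.mem_filter, Finset.mem_Icc] at hn
    refine ArithmeticFunction.vonMangoldt_le_log.trans ?_
    exact Real.log_le_log (by exact_mod_cast hn.1.1) (by exact_mod_cast hn.1.2)
  refine (Finset.sum_le_sum h1).trans ?_
  rw [Finset.sum_const, nsmul_eq_mul]
  apply mul_le_mul_of_nonneg_right _ (Real.log_natCast_nonneg N)
  have hq : 0 < q := by omega
  have h2 : ((Icc 1 N).filter (fun n => n % q = a)).card ≤ N / q + 1 := by
    have h3 : (Icc 1 N).filter (fun n => n % q = a) ⊆ (range (N / q + 1)).image (fun k => a + q * k) := by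
      intro n hn
      rw [Finset.mem_filter, Finset.mem_Icc] at hn
      rw [Finset.mem_image]
      refine ⟨n / q, ?_, ?_⟩
      · rw [Finset.mem_range]
        have := Nat.div_le_div_right (c := q) hn.1.2
        omega
      · rw [← hn.2]
        exact Nat.mod_add_div n q
    refine (Finset.card_le_card h3).trans ?_
    refine Finset.card_image_le.trans ?_
    rw [Finset.card_range]
  have h4 : (((Icc 1 N).filter (fun n => n % q = a)).card : ℝ) ≤ ((N / q : ℕ) : ℝ) + 1 := by
    exact_mod_cast h2
  have h5 : ((N / q : ℕ) : ℝ) ≤ (N : ℝ) / q := Nat.cast_div_le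
  linarith only [h4, h5]

theorem psq_sum {N q : ℕ} (hq : 1 ≤ q) :
    ∑ a ∈ range q, psq N q a = Chebyshev.psi (N : ℝ) := by
  classical
  have h1 : ∀ a ∈ range q, psq N q a =
      ∑ n ∈ (Icc 1 N).filter (fun n => n % q = a), ArithmeticFunction.vonMangoldt n := fun a ha =>
    psq_eq (Finset.mem_range.1 ha)
  rw [Finset.sum_congr rfl h1, Finset.sum_fiberwise_of_maps_to (s := Icc 1 N)
      (t := range q) (g := fun n => n % q)
      (fun n _ => Finset.mem_range.2 (Nat.mod_lt n (by omega)))]
  unfold Chebyshev.psi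
  rw [Nat.floor_natCast]
  rfl

theorem psq_sum_ge {N q : ℕ} (hq : 1 ≤ q) :
    Chebyshev.theta (N : ℝ) - Real.log q ≤
      ∑ a ∈ (range q).filter (fun a => a.Coprime q), psq N q a := by
  classical
  have h1 : ∀ a ∈ (range q).filter (fun a => a.Coprime q), psq N q a =
      ∑ n ∈ (Icc 1 N).filter (fun n => n % q = a), ArithmeticFunction.vonMangoldt n := fun a ha =>
    psq_eq (Finset.mem_range.1 (Finset.mem_filter.1 ha).1)
  rw [Finset.sum_congr rfl h1]
  have h2 : ∑ a ∈ (range q).filter (fun a => a.Coprime q),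
      ∑ n ∈ (Icc 1 N).filter (fun n => n % q = a), ArithmeticFunction.vonMangoldt n =
      ∑ n ∈ (Icc 1 N).filter (fun n => n.Coprime q), ArithmeticFunction.vonMangoldt n := by
    rw [← Finset.sum_fiberwise_of_maps_to (s := (Icc 1 N).filter (fun n => n.Coprime q))
      (t := (range q).filter (fun a => a.Coprime q)) (g := fun n => n % q)]
    · apply Finset.sum_congr rfl
      intro a ha
      rw [Finset.mem_filter] at ha
      congr 1
      rw [Finset.filter_filter]
      apply Finset.filter_congr
      intro n _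
      constructor
      · intro h
        refine ⟨?_, h⟩
        unfold Nat.Coprime at ha ⊢
        rw [← h, ← Nat.gcd_rec, Nat.gcd_comm] at ha
        exact ha.2
      · exact fun h => h.2
    · intro n hn
      rw [Finset.mem_filter] at hn
      rw [Finset.mem_filter, Finset.mem_range]
      refine ⟨Nat.mod_lt n (by omega), ?_⟩
      have h3 := hn.2
      unfold Nat.Coprime at h3 ⊢
      rw [← Nat.gcd_rec, Nat.gcd_comm]
      exact h3
  rw [h2]
  -- the primes
  have h3 : ∑ n ∈ (Icc 1 N).filter (fun n => n.Prime ∧ n.Coprime q), Real.log n ≤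
      ∑ n ∈ (Icc 1 N).filter (fun n => n.Coprime q), ArithmeticFunction.vonMangoldt n := by
    have h4 : ∑ n ∈ (Icc 1 N).filter (fun n => n.Prime ∧ n.Coprime q), Real.log n =
        ∑ n ∈ (Icc 1 N).filter (fun n => n.Prime ∧ n.Coprime q),
          ArithmeticFunction.vonMangoldt n := by
      apply Finset.sum_congr rfl
      intro n hn
      rw [ArithmeticFunction.vonMangoldt_apply_prime (Finset.mem_filter.1 hn).2.1]
    rw [h4]
    apply Finset.sum_le_sum_of_subset_of_nonneg
    · intro n hn
      rw [Finset.mem_filter] at hn ⊢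
      exact ⟨hn.1, hn.2.2⟩
    · intro _ _ _
      exact ArithmeticFunction.vonMangoldt_nonneg
  refine le_trans ?_ h3
  have h5 : Chebyshev.theta (N : ℝ) = ∑ n ∈ (Icc 1 N).filter (fun n => n.Prime), Real.log n := by
    unfold Chebyshev.theta
    rw [Nat.floor_natCast]
    rfl
  have h6 : ∑ n ∈ (Icc 1 N).filter (fun n => n.Prime), Real.log n =
      ∑ n ∈ (Icc 1 N).filter (fun n => n.Prime ∧ n.Coprime q), Real.log n +
      ∑ n ∈ (Icc 1 N).filter (fun n => n.Prime ∧ ¬ n.Coprime q), Real.log n := by
    rw [← Finset.sum_filter_add_sum_filter_not ((Icc 1 N).filter (fun n => n.Prime))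
      (fun n : ℕ => n.Coprime q), Finset.filter_filter, Finset.filter_filter]
  have h7 : ∑ n ∈ (Icc 1 N).filter (fun n => n.Prime ∧ ¬ n.Coprime q), Real.log n ≤
      Real.log q := by
    have h8 : (Icc 1 N).filter (fun n => n.Prime ∧ ¬ n.Coprime q) ⊆ q.primeFactors := by
      intro n hn
      rw [Finset.mem_filter] at hn
      rw [Nat.mem_primeFactors]
      refine ⟨hn.2.1, ?_, by omega⟩
      by_contra hnd
      exact hn.2.2 ((Nat.Prime.coprime_iff_not_dvd hn.2.1).2 hnd)
    have h9 : ∑ n ∈ q.primeFactors, Real.log n ≤ Real.log q := by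
      rw [← Real.log_prod]
      · apply Real.log_le_log
        · apply Finset.prod_pos
          intro p hp
          exact_mod_cast (Nat.prime_of_mem_primeFactors hp).pos
        · have h10 : ∏ p ∈ q.primeFactors, p ≤ q :=
            Nat.le_of_dvd (by omega) (Nat.prod_primeFactors_dvd q)
          have h11 : ((∏ p ∈ q.primeFactors, p : ℕ) : ℝ) ≤ q := by exact_mod_cast h10
          rwa [Nat.cast_prod] at h11
      · intro p hp
        exact_mod_cast (Nat.prime_of_mem_primeFactors hp).ne_zero
    refine le_trans ?_ h9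
    apply Finset.sum_le_sum_of_subset_of_nonneg h8
    intro p _ _
    exact Real.log_natCast_nonneg p
  rw [h5, h6]
  linarith only [h7]

end Pool.Agent.R516
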