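import Mathlib
import Pool.Agent.R516.QL
import Pool.Agent.W301.SS.Asym

/-! The distribution of `ψ(x, q, a)` over the classes of every modulus. -/

set_option autoImplicit false

namespace Pool.Agent.R516

open Finset Filter Topology

/-- the reduced classes -/
def redc (q : ℕ) : Finset ℕ := (range q).filter (fun a => a.Coprime q)

theorem redc_card (q : ℕ) : (redc q).card = Nat.totient q := by
  unfold redc
  rw [Nat.totient_eq_card_coprime]
  congr 1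
  apply Finset.filter_congr
  intro a _
  exact Nat.coprime_comm

/-- abstract form of the argument -/
theorem distr_abs {R G : Finset ℕ} (hGR : G ⊆ R) {f : ℕ → ℝ} (hf : ∀ a ∈ R, 0 ≤ f a) {E c δ : ℝ}
    (hE : 0 < E) (hδ : 0 < δ) (hδ1 : δ ≤ 1 / 8) (hc : c = 18 / 5 + 2 * δ) (hG : ∀ a ∈ G, f a ≤ c * E)
    (hbad1 : ∑ a ∈ R \ G, f a ≤ δ * (R.card * E)) (hbad2 : ∑ a ∈ R \ G, f a ^ 2 ≤ δ * (R.card * E ^ 2))
    (hS1 : (1 - δ) * (R.card * E) ≤ ∑ a ∈ R, f a) (hS2 : ∑ a ∈ R, f a ≤ (1 + δ) * (R.card * E)) :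
    (∀ μ : ℝ, 0 ≤ μ → μ ≤ 1 → ((1 - μ) / (18 / 5 - μ) - 2 * δ) * R.card ≤
      ((G.filter (fun a => μ * E ≤ f a)).card : ℝ)) ∧
    ∑ a ∈ R, (f a - E) ^ 2 ≤ (13 / 5 + 12 * δ) * (R.card * E ^ 2) := by
  classical
  have hsplit : ∀ g : ℕ → ℝ, ∑ a ∈ R, g a = ∑ a ∈ R \ G, g a + ∑ a ∈ G, g a := fun g =>
    (Finset.sum_sdiff hGR).symm
  have hRc : (0 : ℝ) ≤ R.card := Nat.cast_nonneg _
  have hGc : (G.card : ℝ) ≤ R.card := by exact_mod_cast Finset.card_le_card hGR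
  refine ⟨fun μ hμ0 hμ1 => ?_, ?_⟩
  · have h1 := hsplit f
    have h2 := Finset.sum_filter_add_sum_filter_not G (fun a => μ * E ≤ f a) f
    have h3 : ∑ a ∈ G.filter (fun a => μ * E ≤ f a), f a ≤
        (G.filter (fun a => μ * E ≤ f a)).card * (c * E) := by
      rw [← nsmul_eq_mul, ← Finset.sum_const]
      exact Finset.sum_le_sum fun a ha => hG a (Finset.mem_filter.1 ha).1
    have h4 : ∑ a ∈ G.filter (fun a => ¬ μ * E ≤ f a), f a ≤
        (G.filter (fun a => ¬ μ * E ≤ f a)).card * (μ * E) := by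
      rw [← nsmul_eq_mul, ← Finset.sum_const]
      exact Finset.sum_le_sum fun a ha => (not_le.1 (Finset.mem_filter.1 ha).2).le
    have h5 : ((G.filter (fun a => μ * E ≤ f a)).card : ℝ) +
        (G.filter (fun a => ¬ μ * E ≤ f a)).card = G.card := by
      exact_mod_cast Finset.card_filter_add_card_filter_not (s := G) (fun a => μ * E ≤ f a)
    obtain ⟨x, hx⟩ : ∃ x : ℝ, x = ((G.filter (fun a => μ * E ≤ f a)).card : ℝ) := ⟨_, rfl⟩
    obtain ⟨y, hy⟩ : ∃ y : ℝ, y = ((G.filter (fun a => ¬ μ * E ≤ f a)).card : ℝ) := ⟨_, rfl⟩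
    obtain ⟨r, hr⟩ : ∃ r : ℝ, r = (R.card : ℝ) := ⟨_, rfl⟩
    rw [← hx] at h3 h5 ⊢
    rw [← hy] at h4 h5
    rw [← hr] at hbad1 hS1 hRc hGc ⊢
    have hx0 : 0 ≤ x := by rw [hx]; exact Nat.cast_nonneg _
    have h6 : (1 - 2 * δ - μ) * r ≤ (c - μ) * x := by
      have h7 : E * ((1 - 2 * δ - μ) * r) ≤ E * ((c - μ) * x) := by
        have h8 : y * (μ * E) ≤ (r - x) * (μ * E) :=
          mul_le_mul_of_nonneg_right (by linarith only [h5, hGc]) (by positivity)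
        nlinarith only [h1, h2, h3, h4, h8, hS1, hbad1]
      exact le_of_mul_le_mul_left h7 hE
    have hcμ : 0 < 18 / 5 - μ := by linarith only [hμ1]
    have h9 : ((1 - μ) / (18 / 5 - μ) - 2 * δ) * (c - μ) ≤ 1 - 2 * δ - μ := by
      have h10 : (1 - μ) / (18 / 5 - μ) * (c - μ) = (1 - μ) + (1 - μ) / (18 / 5 - μ) * (2 * δ) := by
        have e : c - μ = (18 / 5 - μ) + 2 * δ := by rw [hc]; ring
        rw [e, mul_add, div_mul_cancel₀ _ hcμ.ne']
      have h11 : (1 - μ) / (18 / 5 - μ) ≤ 1 / 2 := by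
        rw [div_le_div_iff₀ hcμ (by norm_num)]
        linarith only [hμ0]
      have h12 : (1 - μ) / (18 / 5 - μ) * (2 * δ) ≤ 1 / 2 * (2 * δ) :=
        mul_le_mul_of_nonneg_right h11 (by positivity)
      rw [sub_mul, h10, hc]
      nlinarith only [h12, hδ, hμ0, hμ1, mul_pos hδ hδ]
    have hcμ' : 0 < c - μ := by rw [hc]; linarith only [hμ1, hδ]
    have h13 : (c - μ) * (((1 - μ) / (18 / 5 - μ) - 2 * δ) * r) ≤ (c - μ) * x := by
      have := mul_le_mul_of_nonneg_right h9 hRc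
      linarith only [this, h6]
    exact le_of_mul_le_mul_left h13 hcμ'
  · have h1 : ∑ a ∈ R, (f a - E) ^ 2 = ∑ a ∈ R, f a ^ 2 - 2 * E * ∑ a ∈ R, f a + R.card * E ^ 2 := by
      have : ∀ a ∈ R, (f a - E) ^ 2 = f a ^ 2 - 2 * E * f a + E ^ 2 := fun a _ => by ring
      rw [Finset.sum_congr rfl this, Finset.sum_add_distrib, Finset.sum_sub_distrib, Finset.sum_const,
        nsmul_eq_mul, ← Finset.mul_sum]
    have h2 : ∑ a ∈ G, f a ^ 2 ≤ c * E * ∑ a ∈ G, f a := by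
      rw [Finset.mul_sum]
      apply Finset.sum_le_sum
      intro a ha
      rw [sq]
      exact mul_le_mul_of_nonneg_right (hG a ha) (hf a (hGR ha))
    have h3 := hsplit f
    have h4 := hsplit (fun a => f a ^ 2)
    beta_reduce at h4
    have h5 : 0 ≤ ∑ a ∈ R \ G, f a := Finset.sum_nonneg fun a ha =>
      hf a (Finset.mem_sdiff.1 ha).1
    have hcE : 0 ≤ c * E := by rw [hc]; positivity
    obtain ⟨r, hr⟩ : ∃ r : ℝ, r = (R.card : ℝ) := ⟨_, rfl⟩
    rw [h1]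
    rw [← hr] at hbad1 hbad2 hS1 hS2 hRc ⊢
    have h6 : c * E * ∑ a ∈ G, f a ≤ c * E * ((1 + δ) * (r * E)) :=
      mul_le_mul_of_nonneg_left (by linarith only [h3, h5, hS2]) hcE
    have h7 : 2 * E * ((1 - δ) * (r * E)) ≤ 2 * E * ∑ a ∈ R, f a :=
      mul_le_mul_of_nonneg_left hS1 (by positivity)
    have h8 : ∑ a ∈ R, f a ^ 2 - 2 * E * ∑ a ∈ R, f a + r * E ^ 2 ≤
        (δ + c * (1 + δ) - 2 * (1 - δ) + 1) * (r * E ^ 2) := by
      rw [h4]
      linarith only [h2, h6, h7, hbad2]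
    refine h8.trans ?_
    apply mul_le_mul_of_nonneg_right _ (by positivity)
    rw [hc]
    nlinarith only [hδ, hδ1]

end Pool.Agent.R516
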