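import Mathlib
import Pool.Agent.R516.QM
import Pool.Agent.W301.SS.Asym

/-! The distribution of `ψ(x, q, a)` over the classes of every modulus: the theorem. -/

set_option autoImplicit false

namespace Pool.Agent.R516

open Finset Filter Topology

theorem evr_log (k : ℕ) (c : ℝ) {δ : ℝ} (hδ : 0 < δ) : ∀ᶠ x : ℝ in atTop,
    c * Real.log x ^ k ≤ x ^ δ := by
  have h1 : (fun x : ℝ => Real.log x ^ k) =o[atTop] (fun x : ℝ => x ^ δ) := by
    have := isLittleO_log_rpow_rpow_atTop (s := δ) (k : ℝ) hδ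
    refine this.congr_left fun x => ?_
    rw [Real.rpow_natCast]
  have h2 : ∀ᶠ x : ℝ in atTop, ‖Real.log x ^ k‖ ≤ (1 / (|c| + 1)) * ‖x ^ δ‖ :=
    h1.bound (by positivity)
  filter_upwards [h2, eventually_ge_atTop (1 : ℝ)] with x h4 h5
  have h6 : 0 ≤ Real.log x := Real.log_nonneg h5
  have hx0 : 0 ≤ x := by linarith
  rw [Real.norm_of_nonneg (by positivity), Real.norm_of_nonneg (by positivity)] at h4
  have h7 : (0 : ℝ) < |c| + 1 := by positivity
  have h8 : (|c| + 1) * Real.log x ^ k ≤ x ^ δ := by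
    calc (|c| + 1) * Real.log x ^ k ≤ (|c| + 1) * (1 / (|c| + 1) * x ^ δ) :=
          mul_le_mul_of_nonneg_left h4 h7.le
      _ = _ := by field_simp
  refine le_trans ?_ h8
  apply mul_le_mul_of_nonneg_right _ (by positivity)
  have := le_abs_self c
  linarith

/-- the good classes -/
noncomputable def goodc (δ x : ℝ) (q : ℕ) : Finset ℕ :=
  (redc q).filter (fun a => psq ⌊x⌋₊ q a ≤ (18 / 5 + 2 * δ) * (x / Nat.totient q))

theorem mainPQ (δ : ℝ) (hδ : 0 < δ) (hδ1 : δ ≤ 1 / 8) : ∃ κ : ℝ, 0 < κ ∧ ∀ᶠ x : ℝ in atTop,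
    ∀ q : ℕ, 1 ≤ q → q * (Real.log x) ^ 27 ≤ x →
    (((redc q) \ (goodc δ x q)).card : ℝ) ≤
      Nat.totient q * (x ^ (-κ) + (Real.log x) ^ 24 * q / x) ∧
    (∀ μ : ℝ, 0 ≤ μ → μ ≤ 1 → ((1 - μ) / (18 / 5 - μ) - 2 * δ) * Nat.totient q ≤
      (((goodc δ x q).filter (fun a => μ * (x / Nat.totient q) ≤ psq ⌊x⌋₊ q a)).card : ℝ)) ∧
    ∑ a ∈ redc q, (psq ⌊x⌋₊ q a - x / Nat.totient q) ^ 2 ≤
      (13 / 5 + 12 * δ) * (x ^ 2 / Nat.totient q) := by
  classical
  obtain ⟨κ₁, hκ₁, X₀, hX₀⟩ := cq δ hδ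
  obtain ⟨κ₀, hκ₀, hκκ, hκ1⟩ : ∃ κ : ℝ, 0 < κ ∧ κ ≤ κ₁ ∧ κ ≤ 1 / 2 :=
    ⟨min κ₁ (1 / 2), lt_min hκ₁ (by norm_num), min_le_left _ _, min_le_right _ _⟩
  refine ⟨κ₀ / 2, by positivity, ?_⟩
  have hfl := (tendsto_nat_floor_atTop (α := ℝ)).eventually
    ((eventually_ge_atTop X₀).and ((Pool.Agent.W301.SS.pnt_unif 1).and (eventually_ge_atTop 3)))
  filter_upwards [hfl, Real.tendsto_log_atTop.eventually_ge_atTop (100 / δ), eventually_ge_atTop (100 / δ),
    evr_log 23 24 (by positivity : 0 < κ₀ / 2), evr_log 2 (100 / δ) (by positivity : 0 < κ₀ / 2),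
    evr_log 1 (100 / δ) (by norm_num : (0 : ℝ) < 1 / 4)]
    with x hxfl hxL hxδ hx23 hx2 hx1 q hq hq27
  obtain ⟨hN0, hpnt, hN3⟩ := hxfl
  obtain ⟨N, hN⟩ : ∃ N, N = ⌊x⌋₊ := ⟨_, rfl⟩
  rw [← hN] at hN0 hpnt hN3 ⊢
  obtain ⟨L, hL⟩ : ∃ L, L = Real.log x := ⟨_, rfl⟩
  rw [← hL] at hxL hx23 hx2 hx1 hq27 ⊢
  have h100 : 800 ≤ 100 / δ := by
    rw [le_div_iff₀ hδ]
    linarith only [hδ1]
  have hx800 : 800 ≤ x := h100.trans hxδ
  have hx0 : 0 < x := by linarith only [hx800]
  have hx1' : 1 ≤ x := by linarith only [hx800]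
  have hδx : 0 < δ * x := mul_pos hδ hx0
  have hL800 : 800 ≤ L := h100.trans hxL
  have hL0 : 0 < L := by linarith only [hL800]
  have hL1 : 1 ≤ L := by linarith only [hL800]
  have hδL : 100 ≤ δ * L := by
    rw [div_le_iff₀ hδ] at hxL
    linarith only [hxL]
  have hNx : (N : ℝ) ≤ x := by rw [hN]; exact Nat.floor_le hx0.le
  have hNx1 : x < N + 1 := by rw [hN]; exact Nat.lt_floor_add_one x
  have hN3r : (3 : ℝ) ≤ N := by exact_mod_cast hN3
  have hNp : (0 : ℝ) < N := by linarith only [hN3r]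
  have hNge : x / 2 ≤ N := by linarith only [hNx1, hN3r]
  have hN1 : 1 ≤ N := by omega
  have hlN : Real.log N ≤ L := by rw [hL]; exact Real.log_le_log hNp hNx
  have hlN0 : 0 < Real.log N := Real.log_pos (by linarith only [hN3r])
  have hlN2 : L ≤ Real.log N + 1 := by
    have h1 : x ≤ 2 * N := by linarith only [hNge]
    have h2 := Real.log_le_log hx0 h1
    rw [Real.log_mul (by norm_num) (by positivity), ← hL] at h2
    linarith only [h2, Real.log_two_lt_d9]
  have hq0 : (0 : ℝ) < q := by exact_mod_cast hq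
  have hq1 : (1 : ℝ) ≤ q := by exact_mod_cast hq
  have hL27 : 1 ≤ L ^ 27 := one_le_pow₀ hL1
  have hqx : (q : ℝ) ≤ x := by
    have := mul_le_mul_of_nonneg_left hL27 hq0.le
    linarith only [this, hq27]
  obtain ⟨φ, hφ⟩ : ∃ φ : ℝ, φ = (Nat.totient q : ℝ) := ⟨_, rfl⟩
  have hφ0 : 0 < φ := by rw [hφ]; exact_mod_cast Nat.totient_pos.2 hq
  have hφq : φ ≤ q := by rw [hφ]; exact_mod_cast Nat.totient_le q
  have hlq : Real.log q ≤ L := by rw [hL]; exact Real.log_le_log hq0 hqx
  have hqφ : (q : ℝ) ≤ 3 * L * φ := by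
    have h1 := Pool.Agent.TH847.LM.phi_low q hq
    rw [← hφ] at h1
    refine h1.trans ?_
    apply mul_le_mul_of_nonneg_right _ hφ0.le
    linarith only [hlq, hL1]
  obtain ⟨E, hE⟩ : ∃ E : ℝ, E = x / φ := ⟨_, rfl⟩
  have hE0 : 0 < E := by rw [hE]; positivity
  obtain ⟨T, hT⟩ : ∃ T : ℝ, T = x ^ (-(κ₀ / 2)) + L ^ 24 * q / x := ⟨_, rfl⟩
  have hT0 : 0 ≤ T := by rw [hT]; positivity
  -- the exceptional classes
  have hX := hX₀ N hN0 q hq
  obtain ⟨B1, hB1⟩ : ∃ B1, B1 = (range q).filter (fun a => (18 / 5 + δ) / (Nat.totient q *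
      Real.log N) * N < (pcq N q a : ℝ)) := ⟨_, rfl⟩
  obtain ⟨B2, hB2⟩ : ∃ B2, B2 = (range q).filter (fun a => δ * E < rsq N q a) := ⟨_, rfl⟩
  have hB1c : (B1.card : ℝ) ≤ q * (Real.log N) ^ 22 * ((N : ℝ) ^ (-κ₁) + q / N) := by
    rw [hB1]
    convert hX using 1
  have hB2c : (B2.card : ℝ) * (δ * E) ≤ 2 * √(N : ℝ) * Real.log N := by
    calc (B2.card : ℝ) * (δ * E) = ∑ a ∈ B2, δ * E := by rw [Finset.sum_const, nsmul_eq_mul]
      _ ≤ ∑ a ∈ B2, rsq N q a := Finset.sum_le_sum fun a ha => by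
          rw [hB2, Finset.mem_filter] at ha
          exact ha.2.le
      _ ≤ ∑ a ∈ range q, rsq N q a := by
          apply Finset.sum_le_sum_of_subset_of_nonneg
          · rw [hB2]
            exact Finset.filter_subset _ _
          · intro _ _ _
            exact rsq_nonneg _ _ _
      _ ≤ _ := rsq_sum hN1 hq
  have hsub : (redc q) \ (goodc δ x q) ⊆ B1 ∪ B2 := by
    intro a ha
    rw [Finset.mem_sdiff] at ha
    obtain ⟨ha1, ha2⟩ := ha
    have haq : a < q := by
      unfold redc at ha1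
      exact Finset.mem_range.1 (Finset.mem_filter.1 ha1).1
    by_contra hcon
    rw [Finset.mem_union, not_or] at hcon
    apply ha2
    unfold goodc
    rw [Finset.mem_filter]
    refine ⟨ha1, ?_⟩
    have h1 : (pcq N q a : ℝ) ≤ (18 / 5 + δ) / (Nat.totient q * Real.log N) * N := by
      by_contra h
      apply hcon.1
      rw [hB1, Finset.mem_filter, Finset.mem_range]
      exact ⟨haq, not_le.1 h⟩
    have h2 : rsq N q a ≤ δ * E := by
      by_contra h
      apply hcon.2
      rw [hB2, Finset.mem_filter, Finset.mem_range]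
      exact ⟨haq, not_le.1 h⟩
    rw [← hN, ← hφ, ← hE]
    rw [← hφ] at h1
    calc psq N q a ≤ Real.log N * pcq N q a + rsq N q a := psq_le hN1 haq
      _ ≤ Real.log N * ((18 / 5 + δ) / (φ * Real.log N) * N) + δ * E :=
          add_le_add (mul_le_mul_of_nonneg_left h1 hlN0.le) h2
      _ = (18 / 5 + δ) * (N / φ) + δ * E := by field_simp
      _ ≤ (18 / 5 + δ) * (x / φ) + δ * E := by gcongr
      _ = (18 / 5 + 2 * δ) * E := by rw [hE]; ring
  have hcard : (((redc q) \ (goodc δ x q)).card : ℝ) ≤ φ * T := by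
    have h1 : (((redc q) \ (goodc δ x q)).card : ℝ) ≤ B1.card + B2.card := by
      have := (Finset.card_le_card hsub).trans (Finset.card_union_le _ _)
      exact_mod_cast this
    have h2 : (B2.card : ℝ) ≤ φ * (2 / δ * L * x ^ (-(1 / 2) : ℝ)) := by
      have h3 : 2 * √(N : ℝ) * Real.log N ≤ 2 * √x * L := by
        gcongr
      have h4 : (B2.card : ℝ) ≤ 2 * √x * L / (δ * E) := by
        rw [le_div_iff₀ (by positivity)]
        exact hB2c.trans h3
      refine h4.trans (le_of_eq ?_)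
      have h5 : x ^ (-(1 / 2) : ℝ) = √x / x := by
        rw [Real.rpow_neg hx0.le, ← Real.sqrt_eq_rpow, inv_eq_one_div, div_eq_div_iff (by positivity)
          hx0.ne', one_mul, Real.mul_self_sqrt hx0.le]
      rw [h5, hE]
      field_simp
    have h3 : (B1.card : ℝ) ≤ φ * (12 * L ^ 23 * (x ^ (-κ₀) + q / x)) := by
      refine hB1c.trans ?_
      have h4 : (N : ℝ) ^ (-κ₁) ≤ 2 * x ^ (-κ₀) := by
        have h5 : (N : ℝ) ^ (-κ₁) ≤ (N : ℝ) ^ (-κ₀) :=
          Real.rpow_le_rpow_of_exponent_le (by linarith only [hN3r]) (by linarith only [hκκ])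
        refine h5.trans ?_
        rw [Real.rpow_neg hNp.le, Real.rpow_neg hx0.le, ← one_div, mul_comm, ← div_eq_inv_mul,
          div_le_div_iff₀ (by positivity) (by positivity), one_mul]
        have h6 : x ^ κ₀ ≤ (2 * (N : ℝ)) ^ κ₀ :=
          Real.rpow_le_rpow hx0.le (by linarith only [hNge]) hκ₀.le
        refine h6.trans ?_
        rw [Real.mul_rpow (by norm_num) hNp.le]
        apply mul_le_mul_of_nonneg_right _ (by positivity)
        calc (2 : ℝ) ^ κ₀ ≤ (2 : ℝ) ^ (1 : ℝ) :=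
              Real.rpow_le_rpow_of_exponent_le (by norm_num) (by linarith only [hκ1])
          _ = 2 := Real.rpow_one 2
      have h7 : (q : ℝ) / N ≤ 2 * (q / x) := by
        rw [← mul_div_assoc, div_le_div_iff₀ hNp hx0]
        nlinarith only [hNge, hq0]
      have h8 : q * (Real.log N) ^ 22 * ((N : ℝ) ^ (-κ₁) + q / N) ≤
          (3 * L * φ) * L ^ 22 * (2 * x ^ (-κ₀) + 2 * (q / x)) := by
        apply mul_le_mul
        · apply mul_le_mul hqφ _ (by positivity) (by positivity)
          exact pow_le_pow_left₀ hlN0.le hlN 22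
        · exact add_le_add h4 h7
        · positivity
        · positivity
      refine h8.trans ?_
      have h9 : (3 * L * φ) * L ^ 22 * (2 * x ^ (-κ₀) + 2 * (q / x)) =
          φ * (6 * L ^ 23 * (x ^ (-κ₀) + q / x)) := by ring
      rw [h9]
      gcongr
      norm_num
    refine h1.trans ((add_le_add h3 h2).trans ?_)
    rw [← mul_add]
    apply mul_le_mul_of_nonneg_left _ hφ0.le
    rw [hT]
    have h4 : 12 * L ^ 23 * x ^ (-κ₀) ≤ 1 / 2 * x ^ (-(κ₀ / 2)) := by
      have e : x ^ (-(κ₀ / 2)) = x ^ (κ₀ / 2) * x ^ (-κ₀) := by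
        rw [← Real.rpow_add hx0]
        congr 1
        ring
      rw [e]
      have h5 : 0 ≤ x ^ (-κ₀) := by positivity
      nlinarith only [hx23, h5]
    have h5 : 12 * L ^ 23 * (q / x) ≤ L ^ 24 * q / x := by
      have e : L ^ 24 * q / x = L * (L ^ 23 * (q / x)) := by ring
      rw [e]
      have h6 : 0 ≤ L ^ 23 * (q / x) := by positivity
      nlinarith only [h6, hL800]
    have h6 : 2 / δ * L * x ^ (-(1 / 2) : ℝ) ≤ 1 / 2 * x ^ (-(κ₀ / 2)) := by
      have h7 : x ^ (-(1 / 4) : ℝ) ≤ x ^ (-(κ₀ / 2)) :=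
        Real.rpow_le_rpow_of_exponent_le hx1' (by linarith only [hκ1])
      have e : x ^ (-(1 / 4) : ℝ) = x ^ (1 / 4 : ℝ) * x ^ (-(1 / 2) : ℝ) := by
        rw [← Real.rpow_add hx0]
        norm_num
      have h8 : 0 ≤ x ^ (-(1 / 2) : ℝ) := by positivity
      rw [pow_one] at hx1
      have h9 : 2 / δ * L ≤ 1 / 2 * x ^ (1 / 4 : ℝ) := by
        have e2 : 2 / δ * L = 1 / 50 * (100 / δ * L) := by
          field_simp
          norm_num
        rw [e2]
        have : 0 ≤ 100 / δ * L := by positivity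
        linarith only [hx1, this]
      calc 2 / δ * L * x ^ (-(1 / 2) : ℝ) ≤ 1 / 2 * x ^ (1 / 4 : ℝ) * x ^ (-(1 / 2) : ℝ) :=
            mul_le_mul_of_nonneg_right h9 h8
        _ = 1 / 2 * x ^ (-(1 / 4) : ℝ) := by rw [e]; ring
        _ ≤ _ := by linarith only [h7]
    rw [mul_add]
    linarith only [h4, h5, h6]
  have htriv : ∀ a ∈ redc q, psq N q a ≤ 2 * x / q * L := by
    intro a ha
    have haq : a < q := by
      unfold redc at ha
      exact Finset.mem_range.1 (Finset.mem_filter.1 ha).1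
    refine (psq_triv hN1 haq).trans ?_
    apply mul_le_mul _ hlN hlN0.le (by positivity)
    have h1 : (N : ℝ) / q ≤ x / q := by gcongr
    have h2 : 1 ≤ x / q := by
      rw [le_div_iff₀ hq0, one_mul]
      exact hqx
    have h3 : 2 * x / q = x / q + x / q := by ring
    linarith only [h1, h2, h3]
  have hRc : ((redc q).card : ℝ) = φ := by rw [redc_card, hφ]
  have hRE : φ * E = x := by rw [hE]; field_simp
  have hκT : x ^ (-(κ₀ / 2)) ≤ δ / (100 * L ^ 2) := by
    rw [Real.rpow_neg hx0.le, ← one_div, div_le_div_iff₀ (by positivity) (by positivity), one_mul]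
    have : 100 / δ * L ^ 2 ≤ x ^ (κ₀ / 2) := hx2
    calc 100 * L ^ 2 = δ * (100 / δ * L ^ 2) := by field_simp
      _ ≤ δ * x ^ (κ₀ / 2) := mul_le_mul_of_nonneg_left this hδ.le
  have hqT : L ^ 24 * q / x ≤ 1 / L ^ 3 := by
    rw [div_le_div_iff₀ hx0 (by positivity), one_mul]
    calc L ^ 24 * q * L ^ 3 = q * L ^ 27 := by ring
      _ ≤ x := hq27
  have hTL : T * (8 * L ^ 2) ≤ δ := by
    rw [hT, add_mul]
    have h1 : x ^ (-(κ₀ / 2)) * (8 * L ^ 2) ≤ δ / (100 * L ^ 2) * (8 * L ^ 2) :=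
      mul_le_mul_of_nonneg_right hκT (by positivity)
    have h2 : δ / (100 * L ^ 2) * (8 * L ^ 2) = 8 / 100 * δ := by field_simp
    have h3 : L ^ 24 * q / x * (8 * L ^ 2) ≤ 1 / L ^ 3 * (8 * L ^ 2) :=
      mul_le_mul_of_nonneg_right hqT (by positivity)
    have h4 : 1 / L ^ 3 * (8 * L ^ 2) = 8 / L := by field_simp
    have h5 : 8 / L ≤ 8 / 100 * δ := by
      rw [div_le_iff₀ hL0]
      linarith only [hδL]
    linarith only [h1, h2, h3, h4, h5, hδ]
  refine ⟨?_, ?_⟩
  · rw [← hφ]
    refine hcard.trans (le_of_eq ?_)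
    rw [hT]
  have hmain := distr_abs (R := redc q) (G := goodc δ x q) (f := psq N q) (E := E)
    (c := 18 / 5 + 2 * δ) (δ := δ) (by unfold goodc; exact Finset.filter_subset _ _)
    (fun a _ => psq_nonneg N q a) hE0 hδ hδ1 rfl (by
      intro a ha
      unfold goodc at ha
      rw [Finset.mem_filter, ← hN, ← hφ, ← hE] at ha
      exact ha.2) (by
      have h1 : ∑ a ∈ (redc q) \ (goodc δ x q), psq N q a ≤
          ((redc q) \ (goodc δ x q)).card * (2 * x / q * L) := by
        rw [← nsmul_eq_mul, ← Finset.sum_const]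
        exact Finset.sum_le_sum fun a ha => htriv a (Finset.mem_sdiff.1 ha).1
      refine h1.trans ?_
      rw [hRc, hRE]
      calc (((redc q) \ (goodc δ x q)).card : ℝ) * (2 * x / q * L) ≤ φ * T * (2 * x / q * L) :=
            mul_le_mul_of_nonneg_right hcard (by positivity)
        _ = (φ / q) * (T * (2 * L)) * x := by field_simp
        _ ≤ 1 * (T * (8 * L ^ 2)) * x := by
            apply mul_le_mul_of_nonneg_right _ hx0.le
            apply mul_le_mul
            · rw [div_le_one hq0]; exact hφq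
            · apply mul_le_mul_of_nonneg_left _ hT0
              nlinarith only [hL1]
            · positivity
            · norm_num
        _ ≤ δ * x := by
            rw [one_mul]
            exact mul_le_mul_of_nonneg_right hTL hx0.le) (by
      have h1 : ∑ a ∈ (redc q) \ (goodc δ x q), psq N q a ^ 2 ≤
          ((redc q) \ (goodc δ x q)).card * (2 * x / q * L) ^ 2 := by
        rw [← nsmul_eq_mul, ← Finset.sum_const]
        exact Finset.sum_le_sum fun a ha =>
          pow_le_pow_left₀ (psq_nonneg N q a) (htriv a (Finset.mem_sdiff.1 ha).1) 2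
      refine h1.trans ?_
      rw [hRc]
      have e1 : φ * E ^ 2 = x ^ 2 / φ := by rw [hE]; field_simp
      rw [e1]
      calc (((redc q) \ (goodc δ x q)).card : ℝ) * (2 * x / q * L) ^ 2 ≤
            φ * T * (2 * x / q * L) ^ 2 :=
            mul_le_mul_of_nonneg_right hcard (by positivity)
        _ = (φ / q) ^ 2 * (T * (4 * L ^ 2)) * (x ^ 2 / φ) := by
            field_simp
            ring
        _ ≤ 1 * (T * (8 * L ^ 2)) * (x ^ 2 / φ) := by
            apply mul_le_mul_of_nonneg_right _ (by positivity)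
            apply mul_le_mul
            · apply pow_le_one₀ (by positivity)
              rw [div_le_one hq0]; exact hφq
            · apply mul_le_mul_of_nonneg_left _ hT0
              have : 0 ≤ L ^ 2 := by positivity
              linarith only [this]
            · positivity
            · norm_num
        _ ≤ δ * (x ^ 2 / φ) := by
            rw [one_mul]
            exact mul_le_mul_of_nonneg_right hTL (by positivity)) (by
      rw [hRc, hRE]
      refine le_trans ?_ (psq_sum_ge hq)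
      have h1 := (abs_le.1 (hpnt N (by omega))).1
      rw [pow_one] at h1
      have h2 : (N : ℝ) / Real.log N ≤ δ / 4 * x := by
        rw [div_le_iff₀ hlN0]
        have h3 : 99 ≤ δ * Real.log N := by
          have : δ * L ≤ δ * (Real.log N + 1) := mul_le_mul_of_nonneg_left hlN2 hδ.le
          linarith only [this, hδL, hδ1]
        nlinarith only [h3, hNx, hx0]
      have h3 : Real.log q + 1 ≤ δ / 4 * x := by
        rw [pow_one] at hx1
        have h4 : x ^ (1 / 4 : ℝ) ≤ x := by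
          calc x ^ (1 / 4 : ℝ) ≤ x ^ (1 : ℝ) :=
                Real.rpow_le_rpow_of_exponent_le hx1' (by norm_num)
            _ = x := Real.rpow_one x
        have h5 : 100 * L ≤ δ * x := by
          have h6 := hx1.trans h4
          calc 100 * L = δ * (100 / δ * L) := by field_simp
            _ ≤ δ * x := mul_le_mul_of_nonneg_left h6 hδ.le
        linarith only [h5, hlq, hL800]
      linarith only [h1, h2, h3, hNx1, hδx]) (by
      rw [hRc, hRE]
      have h0 : ∑ a ∈ redc q, psq N q a ≤ ∑ a ∈ range q, psq N q a := by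
        apply Finset.sum_le_sum_of_subset_of_nonneg
        · unfold redc
          exact Finset.filter_subset _ _
        · intro _ _ _
          exact psq_nonneg _ _ _
      refine h0.trans ?_
      rw [psq_sum hq]
      have h1 := (abs_le.1 (hpnt N (by omega))).2
      rw [pow_one] at h1
      have h2 : (N : ℝ) / Real.log N ≤ δ / 4 * x := by
        rw [div_le_iff₀ hlN0]
        have h3 : 99 ≤ δ * Real.log N := by
          have : δ * L ≤ δ * (Real.log N + 1) := mul_le_mul_of_nonneg_left hlN2 hδ.le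
          linarith only [this, hδL, hδ1]
        nlinarith only [h3, hNx, hx0]
      have h3 := Chebyshev.psi_sub_theta_le (x := (N : ℝ)) (by linarith only [hN3r])
      have h4 : 2 * √(N : ℝ) * Real.log N ≤ δ / 4 * x := by
        have h5 : 2 * √(N : ℝ) * Real.log N ≤ 2 * √x * L := by gcongr
        refine h5.trans ?_
        rw [pow_one] at hx1
        have h6 : 100 * L ≤ δ * x ^ (1 / 4 : ℝ) := by
          calc 100 * L = δ * (100 / δ * L) := by field_simp
            _ ≤ δ * x ^ (1 / 4 : ℝ) := mul_le_mul_of_nonneg_left hx1 hδ.le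
        have h7 : √x * x ^ (1 / 4 : ℝ) ≤ x := by
          rw [Real.sqrt_eq_rpow, ← Real.rpow_add hx0]
          calc x ^ (1 / 2 + 1 / 4 : ℝ) ≤ x ^ (1 : ℝ) :=
                Real.rpow_le_rpow_of_exponent_le hx1' (by norm_num)
            _ = x := Real.rpow_one x
        have h8 : √x * (100 * L) ≤ √x * (δ * x ^ (1 / 4 : ℝ)) :=
          mul_le_mul_of_nonneg_left h6 (Real.sqrt_nonneg x)
        have h9 : δ * (√x * x ^ (1 / 4 : ℝ)) ≤ δ * x := mul_le_mul_of_nonneg_left h7 hδ.le
        have h10 : 0 ≤ √x * L := by positivity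
        linarith only [h8, h9, h10]
      linarith only [h1, h2, h3, h4, hNx, hδx])
  rw [hRc] at hmain
  have e1 : φ * E ^ 2 = x ^ 2 / φ := by rw [hE]; field_simp
  rw [e1] at hmain
  rw [← hφ, ← hE]
  exact hmain

end Pool.Agent.R516
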