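import Mathlib
import Pool.Agent.R516.TwoC

/-! Both bounds, at all scales, to the right of a positive proportion of the integers. -/

set_option autoImplicit false

namespace Pool.Agent.R516

open Finset Filter Topology

theorem pcn_add {a b c : ℕ} (hab : a ≤ b) (hbc : b ≤ c) : pcn a b + pcn b c = pcn a c :=
  Pool.Agent.H357R2.SI.pc_add hab hbc

theorem pcn_le (a b : ℕ) (hab : a ≤ b) : (pcn a b : ℝ) ≤ (b : ℝ) - a := by
  have h : pcn a b ≤ b - a := by
    unfold pcn
    refine (Finset.card_filter_le _ _).trans ?_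
    rw [Nat.card_Ioc]
  have h2 : (pcn a b : ℝ) ≤ ((b - a : ℕ) : ℝ) := by exact_mod_cast h
  rwa [Nat.cast_sub hab] at h2

open Classical in
/-- the good points for the lower bound -/
theorem low_points (N W : ℕ) (hW : 1 ≤ W) (hWN : 2 * W ≤ N) (c μ L : ℝ) (hL : 0 < L) (hμ : 0 ≤ μ)
    (hμc : μ < c) (B : Finset ℕ)
    (hB : ∀ n, n + W ≤ N → n + 1 ∉ B → (pcn n (n + W) : ℝ) ≤ c * W / L) :
    ∃ G : Finset ℕ, G ⊆ range (N - W) ∧
      (L * ((Nat.primeCounting N : ℝ) - 2 * W) - L * B.card - μ * N ≤ (c - μ) * G.card) ∧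
      ∀ n ∈ G, ∀ b, n ≤ b → b ≤ N → μ * ((b : ℝ) - n - W) / L ≤ (pcn n b : ℝ) := by
  have hW0 : (0 : ℝ) < W := by exact_mod_cast hW
  obtain ⟨N', hN'⟩ : ∃ N', N' = N - W := ⟨_, rfl⟩
  set D : ℕ → ℝ := fun n => L * (pcn n (n + W) : ℝ) / W with hD
  have hDsum : ∀ n, D n = L / W * ∑ h ∈ Icc 1 W, wp (n + h) := by
    intro n
    have e : ∑ h ∈ Icc 1 W, wp (n + h) = ∑ m ∈ Ioc n (n + W), wp m := by
      have e1 : Ioc n (n + W) = (Icc 1 W).image (fun h => n + h) := by
        ext m
        rw [Finset.mem_image, Finset.mem_Ioc]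
        constructor
        · intro hm
          exact ⟨m - n, by rw [Finset.mem_Icc]; omega, by omega⟩
        · rintro ⟨h, hh, rfl⟩
          rw [Finset.mem_Icc] at hh
          omega
      rw [e1, Finset.sum_image (fun x _ y _ hxy => Nat.add_left_cancel hxy)]
    rw [e, wp_sum]
    simp only [hD]
    ring
  have hD0 : ∀ n, 0 ≤ D n := by
    intro n
    simp only [hD]
    positivity
  -- rising sun
  have hsun := sun_fw (fun k => μ - D (k - 1)) N'
  set F := (range N').filter (fun k => k ∈ Fw (fun k => μ - D (k - 1)) N') with hF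
  refine ⟨range N' \ F, ?_, ?_, ?_⟩
  · rw [hN']
    exact Finset.sdiff_subset
  · have h1 : ∑ k ∈ F, D k ≤ μ * F.card := by
      have e : ∑ k ∈ F, (μ - D (k + 1 - 1)) = μ * F.card - ∑ k ∈ F, D k := by
        rw [Finset.sum_sub_distrib, Finset.sum_const, nsmul_eq_mul, mul_comm]
        rfl
      linarith
    have h2 : ∑ k ∈ range N' \ F, D k ≤ c * (range N' \ F).card + L * B.card := by
      have h3 : ∀ k ∈ range N' \ F, D k ≤ c + (if k + 1 ∈ B then L else 0) := by
        intro k hk
        rw [Finset.mem_sdiff, Finset.mem_range] at hk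
        split_ifs with hkB
        · have h4 := pcn_le k (k + W) (by omega)
          push_cast at h4
          have h5 : D k ≤ L := by
            simp only [hD]
            rw [div_le_iff₀ hW0]
            apply mul_le_mul_of_nonneg_left _ hL.le
            linarith
          linarith
        · have h4 := hB k (by omega) hkB
          rw [add_zero]
          simp only [hD]
          rw [div_le_iff₀ hW0]
          rw [le_div_iff₀ hL] at h4
          linarith
      refine (Finset.sum_le_sum h3).trans ?_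
      rw [Finset.sum_add_distrib, Finset.sum_const, nsmul_eq_mul, mul_comm c]
      have h6 : ∑ k ∈ range N' \ F, (if k + 1 ∈ B then L else 0) ≤ L * B.card := by
        rw [← Finset.sum_filter, Finset.sum_const, nsmul_eq_mul, mul_comm]
        apply mul_le_mul_of_nonneg_left _ hL.le
        have : ((range N' \ F).filter (fun k => k + 1 ∈ B)).card ≤ B.card := by
          apply Finset.card_le_card_of_injOn (fun k => k + 1)
          · intro k hk
            rw [Finset.mem_coe, Finset.mem_filter] at hk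
            exact hk.2
          · intro x _ y _ hxy
            exact Nat.add_right_cancel hxy
        exact_mod_cast this
      linarith
    have h3 : L * ((Nat.primeCounting N : ℝ) - 2 * W) ≤ ∑ k ∈ range N', D k := by
      have h4 : W * ∑ m ∈ Ioc W N', wp m ≤ ∑ n ∈ Ico 0 N', ∑ h ∈ Icc 1 W, wp (n + h) := by
        have := avg_win wp wp_nonneg W W N' hW le_rfl
        rwa [Nat.sub_self] at this
      rw [wp_sum, ← Finset.range_eq_Ico] at h4
      have h5 : ∑ k ∈ range N', D k = L / W * ∑ n ∈ range N', ∑ h ∈ Icc 1 W, wp (n + h) := by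
        rw [Finset.mul_sum]
        exact Finset.sum_congr rfl fun k _ => hDsum k
      rw [h5]
      have h6 : (Nat.primeCounting N : ℝ) - 2 * W ≤ pcn W N' := by
        have g1 := pcn_add (Nat.zero_le W) (by omega : W ≤ N')
        have g2 := pcn_add (Nat.zero_le N') (by omega : N' ≤ N)
        have g3 := pcn_le 0 W (Nat.zero_le _)
        have g4 := pcn_le N' N (by omega)
        have g5 := pcn_zero N
        have g6 : (N' : ℝ) = N - W := by rw [hN', Nat.cast_sub (by omega)]
        have g7 : ((pcn 0 W : ℝ) + pcn W N') + pcn N' N = pcn 0 N := by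
          exact_mod_cast (by rw [g1, g2] : (pcn 0 W + pcn W N') + pcn N' N = pcn 0 N)
        rw [Nat.cast_zero, sub_zero] at g3
        linarith
      calc L * ((Nat.primeCounting N : ℝ) - 2 * W) ≤ L * pcn W N' :=
            mul_le_mul_of_nonneg_left h6 hL.le
        _ = L / W * (W * (pcn W N' : ℝ)) := by field_simp
        _ ≤ _ := mul_le_mul_of_nonneg_left h4 (by positivity)
    have hFs : F ⊆ range N' := Finset.filter_subset _ _
    have h7 : ∑ k ∈ range N', D k = ∑ k ∈ range N' \ F, D k + ∑ k ∈ F, D k :=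
      (Finset.sum_sdiff hFs).symm
    have h8 : ((range N' \ F).card : ℝ) + F.card = N' := by
      have := Finset.card_sdiff_add_card_eq_card hFs
      rw [Finset.card_range] at this
      exact_mod_cast this
    have h9 : (N' : ℝ) ≤ N := by exact_mod_cast (by omega : N' ≤ N)
    have h10 : μ * (((range N' \ F).card : ℝ) + F.card) ≤ μ * N := by
      rw [h8]
      exact mul_le_mul_of_nonneg_left h9 hμ
    linarith
  · intro n hn b hnb hbN
    rw [Finset.mem_sdiff, Finset.mem_range] at hn
    rcases Nat.lt_or_ge b (n + W + 1) with hb | hb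
    · have h1 : (b : ℝ) - n - W ≤ 0 := by
        have : (b : ℝ) ≤ n + W := by exact_mod_cast (by omega : b ≤ n + W)
        linarith
      have h2 : μ * ((b : ℝ) - n - W) / L ≤ 0 := by
        apply div_nonpos_of_nonpos_of_nonneg _ hL.le
        exact mul_nonpos_of_nonneg_of_nonpos hμ h1
      exact h2.trans (Nat.cast_nonneg _)
    · obtain ⟨b', hb'⟩ : ∃ b', b' = b - W := ⟨_, rfl⟩
      have hnF : n ∉ Fw (fun k => μ - D (k - 1)) N' := by
        intro hh
        apply hn.2
        rw [hF, Finset.mem_filter, Finset.mem_range]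
        exact ⟨hn.1, hh⟩
      have h1 : ∑ m ∈ Ioc n b', (μ - D (m - 1)) ≤ 0 := by
        by_contra hc
        push Not at hc
        exact hnF ⟨b', by omega, by omega, hc⟩
      rw [Finset.sum_sub_distrib, Finset.sum_const, Nat.card_Ioc, nsmul_eq_mul] at h1
      have h2 : ∑ m ∈ Ioc n b', D (m - 1) = ∑ k ∈ Ico n b', D k := by
        have e : Ioc n b' = (Ico n b').image (fun n => n + 1) := by
          ext k
          rw [Finset.mem_image, Finset.mem_Ioc]
          constructor
          · intro h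
            exact ⟨k - 1, by rw [Finset.mem_Ico]; omega, by omega⟩
          · rintro ⟨n, hn, rfl⟩
            rw [Finset.mem_Ico] at hn
            omega
        rw [e, Finset.sum_image (fun x _ y _ hxy => Nat.add_right_cancel hxy)]
        rfl
      have h3 : ∑ k ∈ Ico n b', D k ≤ L * (pcn n b : ℝ) := by
        have h4 : ∑ k ∈ Ico n b', D k = L / W * ∑ h ∈ Icc 1 W, ∑ k ∈ Ico n b', wp (k + h) := by
          rw [Finset.sum_comm, Finset.mul_sum]
          exact Finset.sum_congr rfl fun k _ => hDsum k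
        rw [h4]
        have h5 : ∀ h ∈ Icc 1 W, ∑ k ∈ Ico n b', wp (k + h) ≤ (pcn n b : ℝ) := by
          intro h hh
          rw [Finset.mem_Icc] at hh
          rw [← wp_sum, ← Finset.sum_image (f := wp) (g := fun k => k + h)
            (fun x _ y _ hxy => Nat.add_right_cancel hxy)]
          apply Finset.sum_le_sum_of_subset_of_nonneg
          · intro m hm
            rw [Finset.mem_image] at hm
            obtain ⟨k, hk, rfl⟩ := hm
            rw [Finset.mem_Ico] at hk
            rw [Finset.mem_Ioc]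
            omega
          · intro m _ _
            exact wp_nonneg m
        have h6 := Finset.sum_le_sum h5
        rw [Finset.sum_const (pcn n b : ℝ), Nat.card_Icc, nsmul_eq_mul, Nat.add_sub_cancel] at h6
        calc L / W * ∑ h ∈ Icc 1 W, ∑ k ∈ Ico n b', wp (k + h) ≤ L / W * (W * (pcn n b : ℝ)) :=
              mul_le_mul_of_nonneg_left h6 (by positivity)
          _ = _ := by field_simp
      rw [h2] at h1
      have h7 : ((b' - n : ℕ) : ℝ) = (b : ℝ) - n - W := by
        rw [Nat.cast_sub (by omega), hb', Nat.cast_sub (by omega)]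
        ring
      rw [h7] at h1
      rw [div_le_iff₀ hL]
      linarith

theorem log_ge (s : ℝ) (hs : 0 < s) : ∀ᶠ N : ℕ in atTop, ∀ n : ℕ, s * N ≤ n →
    (1 - s) * Real.log N ≤ Real.log n := by
  filter_upwards [ev_log' (-Real.log s / s), eventually_ge_atTop 1] with N h1 h2 n hn
  have hN0 : (0 : ℝ) < N := by exact_mod_cast h2
  rw [div_le_iff₀ hs] at h1
  have h3 : Real.log (s * N) ≤ Real.log n := Real.log_le_log (by positivity) hn
  rw [Real.log_mul hs.ne' hN0.ne'] at h3
  linarith

open Classical in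
/-- for `0 < μ < 1`, at least `((1 - μ) / (18 / 5 - μ) - δ) N` integers `n ≤ N` satisfy
`μ H / log n ≤ π(n, H) ≤ (18 / 5 + δ) H / log n` for all real `H ∈ [(log n) ^ 23, n]` -/
theorem thmI (hU : St_U) (μ δ : ℝ) (hμ : 0 < μ) (hμ1 : μ < 1) (hδ : 0 < δ) : ∀ᶠ N : ℕ in atTop,
    ((1 - μ) / (18 / 5 - μ) - δ) * N ≤
      (((Icc 1 N).filter (fun n : ℕ => ∀ H : ℝ, (Real.log n) ^ 23 ≤ H → H ≤ n →
        μ * H / Real.log n ≤ (pcn n ⌊n + H⌋₊ : ℝ) ∧
          (pcn n ⌊n + H⌋₊ : ℝ) ≤ (18 / 5 + δ) * H / Real.log n)).card : ℝ) := by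
  -- small parameters
  obtain ⟨s, hs, hs1, hs2, hs3⟩ : ∃ s : ℝ, 0 < s ∧ s ≤ δ / 20 ∧ s ≤ (1 - μ) / 4 ∧ s ≤ 1 / 20 :=
    ⟨min (δ / 20) (min ((1 - μ) / 4) (1 / 20)), lt_min (by positivity)
      (lt_min (by linarith) (by norm_num)), min_le_left _ _,
      (min_le_right _ _).trans (min_le_left _ _), (min_le_right _ _).trans (min_le_right _ _)⟩
  obtain ⟨e, he, he1⟩ : ∃ e : ℝ, 0 < e ∧ e = s / 16 := ⟨s / 16, by positivity, rfl⟩
  obtain ⟨κ, hκ, N₀, hN₀⟩ := hU s hs
  obtain ⟨X₀, hX3, hX₀⟩ := Pool.Agent.H357R2.SI.pnt e he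
  obtain ⟨X₁, -, hX₁⟩ := Pool.Agent.H357R2.SI.pc_window_upper (e * e) (by positivity)
  obtain ⟨X₂, -, hX₂⟩ := Pool.Agent.H357R2.SI.pc_window_lower (e * e) (by positivity)
    (by rw [he1]; nlinarith only [hs, hs3])
  filter_upwards [eventually_ge_atTop N₀, eventually_ge_atTop X₀, ev_log' (40 / e),
    ev_logpow' 22 hκ, ev_logpow' 23 (by norm_num : (0 : ℝ) < 1 / 2), log_ge e he,
    ev_rpow' (40 / e) (by norm_num : (0 : ℝ) < 1 / 2),
    ev_rpow' ((X₁ + X₂ : ℕ) / e) (by norm_num : (0 : ℝ) < 1)]
    with N h1 h2 h3 h4 h5 h6 h7 h8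
  have he10 : e ≤ 1 / 320 := by rw [he1]; linarith
  have he0i : 0 < 40 / e := by positivity
  have hbig : 12800 ≤ 40 / e := by
    rw [le_div_iff₀ he]
    linarith
  obtain ⟨L, hL⟩ : ∃ L : ℝ, L = Real.log N := ⟨_, rfl⟩
  rw [← hL] at h3 h4 h5 h6
  have hL1 : 12800 ≤ L := by linarith
  have hL0 : 0 < L := by linarith
  have hNpos : 0 < N := by
    rcases Nat.eq_zero_or_pos N with h | h
    · rw [hL, h, Nat.cast_zero, Real.log_zero] at hL1
      norm_num at hL1
    · exact h
  have hN0 : (0 : ℝ) < N := by exact_mod_cast hNpos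
  have hN1 : (1 : ℝ) ≤ N := by exact_mod_cast hNpos
  rw [Real.rpow_one] at h8
  have hNh : (N : ℝ) ^ (1 / 2 : ℝ) * (N : ℝ) ^ (1 / 2 : ℝ) = N := by
    rw [← Real.rpow_add hN0]
    norm_num
  obtain ⟨hp1, -⟩ := hX₀ N h2
  rw [← hL] at hp1
  have hL22 : 1 ≤ L ^ 22 := one_le_pow₀ (by linarith)
  have hHi := hN₀ N h1 (L ^ 22) hL22 h4
  rw [← hL] at hHi
  have hHi2 : N * L ^ 20 / L ^ 22 = N / L * (1 / L) := by
    field_simp
  rw [hHi2] at hHi
  -- the window
  obtain ⟨W, hW⟩ : ∃ W : ℕ, W = ⌈L ^ 22⌉₊ := ⟨_, rfl⟩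
  have hW1 : L ^ 22 ≤ W := by rw [hW]; exact Nat.le_ceil _
  have hW2 : (W : ℝ) ≤ 2 * L ^ 22 := by
    have : (W : ℝ) < L ^ 22 + 1 := by rw [hW]; exact Nat.ceil_lt_add_one (by positivity)
    linarith
  have hWr1 : (1 : ℝ) ≤ W := by linarith
  have hWn : 1 ≤ W := by exact_mod_cast hWr1
  have hL23 : L * L ^ 22 = L ^ 23 := by ring
  have hWe : (W : ℝ) ≤ e * L ^ 23 := by
    rw [← hL23]
    have h9 : 40 ≤ e * L := by
      rw [div_le_iff₀ he] at h3
      linarith
    calc (W : ℝ) ≤ 2 * L ^ 22 := hW2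
      _ ≤ (e * L) * L ^ 22 := by gcongr; linarith
      _ = _ := by ring
  have hL23N : L ^ 23 ≤ e * N := by
    refine h5.trans ?_
    have h9 : 1 ≤ e * (N : ℝ) ^ (1 / 2 : ℝ) := by
      rw [div_le_iff₀ he] at h7
      linarith
    calc (N : ℝ) ^ (1 / 2 : ℝ) = 1 * (N : ℝ) ^ (1 / 2 : ℝ) := (one_mul _).symm
      _ ≤ (e * (N : ℝ) ^ (1 / 2 : ℝ)) * (N : ℝ) ^ (1 / 2 : ℝ) := by gcongr
      _ = e * N := by rw [mul_assoc, hNh]
  have hWN : (W : ℝ) ≤ e * (e * N) := hWe.trans (mul_le_mul_of_nonneg_left hL23N he.le)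
  have hWNn : 2 * W ≤ N := by
    have : 2 * (W : ℝ) ≤ N := by nlinarith only [hWN, he10, he, mul_pos he hN0, hN0]
    exact_mod_cast this
  set B := (Icc 1 N).filter (fun n => n ∈ Hi N (L ^ 22) ((18 / 5 + s) / L)) with hBd
  have hBU : ∀ n b : ℕ, n < b → b ≤ N → L ^ 22 ≤ (b : ℝ) - n → n + 1 ∉ B →
      (pcn n b : ℝ) ≤ (18 / 5 + s) * ((b : ℝ) - n) / L := by
    intro n b hnb hbN hlen hB
    by_contra hc
    push Not at hc
    apply hB
    rw [hBd, Finset.mem_filter, Finset.mem_Icc]
    refine ⟨⟨by omega, by omega⟩, n, b, by omega, by omega, hbN, hlen, ?_⟩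
    calc (18 / 5 + s) / L * ((b : ℝ) - n) = (18 / 5 + s) * ((b : ℝ) - n) / L := by ring
      _ < _ := hc
  obtain ⟨G, hG1, hG2, hG3⟩ := low_points N W hWn hWNn (18 / 5 + s) (μ + s) L hL0 (by linarith)
    (by linarith) B (by
      intro n hn hB
      have := hBU n (n + W) (by omega) hn (by push_cast; linarith) hB
      push_cast at this
      rwa [add_sub_cancel_left] at this)
  -- the good set
  have hsub : (G \ range ⌈e * N⌉₊).filter (fun n : ℕ => n + 1 ∉ B ∧ (n : ℝ) ≤ (1 - e) * N) ⊆
      (Icc 1 N).filter (fun n : ℕ => ∀ H : ℝ, (Real.log n) ^ 23 ≤ H → H ≤ n →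
        μ * H / Real.log n ≤ (pcn n ⌊n + H⌋₊ : ℝ) ∧
          (pcn n ⌊n + H⌋₊ : ℝ) ≤ (18 / 5 + δ) * H / Real.log n) := by
    intro n hn
    rw [Finset.mem_filter, Finset.mem_sdiff, Finset.mem_range] at hn
    obtain ⟨⟨hnG, hnr⟩, hnB, hnN⟩ := hn
    push Not at hnr
    have hne : e * N ≤ n := (Nat.le_ceil _).trans (by exact_mod_cast hnr)
    have hn0 : (0 : ℝ) < n := lt_of_lt_of_le (by positivity) hne
    have hnN' : n < N - W := Finset.mem_range.1 (hG1 hnG)
    have hln := h6 n hne
    have hlnL : Real.log n ≤ L := by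
      rw [hL]
      exact Real.log_le_log hn0 (by exact_mod_cast (by omega : n ≤ N))
    have hln0 : 0 < Real.log n := lt_of_lt_of_le (by
      have : 0 < 1 - e := by linarith
      positivity) hln
    rw [Finset.mem_filter, Finset.mem_Icc]
    refine ⟨⟨by exact_mod_cast hn0, by omega⟩, fun H hH1 hH2 => ?_⟩
    -- size of H
    have hHL : L ^ 23 / 2 ≤ H := by
      refine le_trans ?_ hH1
      have g1 : ((1 - e) * L) ^ 23 ≤ (Real.log n) ^ 23 :=
        pow_le_pow_left₀ (by
          have : 0 < 1 - e := by linarith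
          positivity) hln 23
      refine le_trans ?_ g1
      rw [mul_pow]
      have g2 : 1 / 2 ≤ (1 - e) ^ 23 := by
        have := one_add_mul_le_pow (a := -e) (by linarith) 23
        push_cast at this
        have e3 : (1 + -e) = 1 - e := by ring
        rw [e3] at this
        linarith
      have g3 : 0 ≤ L ^ 23 := by positivity
      nlinarith only [mul_le_mul_of_nonneg_right g2 g3]
    have hH0 : 0 < H := lt_of_lt_of_le (by positivity) hHL
    have hWH : (W : ℝ) ≤ 2 * e * H := by
      refine hWe.trans ?_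
      nlinarith only [mul_le_mul_of_nonneg_left hHL he.le]
    have hH100 : 1 ≤ e * H := by
      have : 1 ≤ (W : ℝ) := hWr1
      have g4 : 2 * (W : ℝ) ≤ L ^ 23 * e := by
        have g5 : 40 ≤ e * L := by
          rw [div_le_iff₀ he] at h3
          linarith
        calc 2 * (W : ℝ) ≤ 2 * (2 * L ^ 22) := by gcongr
          _ ≤ (e * L) * L ^ 22 := by
              have g6 := mul_le_mul_of_nonneg_right g5 (by positivity : (0:ℝ) ≤ L ^ 22)
              linarith only [g6, hL22]
          _ = L ^ 23 * e := by ring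
      nlinarith only [this, g4, mul_le_mul_of_nonneg_left hHL he.le]
    obtain ⟨b, hb⟩ : ∃ b, b = ⌊(n : ℝ) + H⌋₊ := ⟨_, rfl⟩
    rw [← hb]
    have hb1 : (b : ℝ) ≤ n + H := by rw [hb]; exact Nat.floor_le (by positivity)
    have hb2 : (n : ℝ) + H < b + 1 := by rw [hb]; exact Nat.lt_floor_add_one _
    have hbn : n < b := by
      have : (n : ℝ) < b := by
        have : 1 < H := by nlinarith only [hH100, he10, hH0, he]
        linarith
      exact_mod_cast this
    have hbH : (1 - e) * H ≤ (b : ℝ) - n := by linarith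
    have hbH' : (b : ℝ) - n ≤ H := by linarith
    have hHl : 0 < H / Real.log n := by positivity
    rcases Nat.lt_or_ge N b with hbN | hbN
    · -- long windows, prime number theorem
      have hHN : e * N ≤ H := by
        have : (N : ℝ) < b := by exact_mod_cast hbN
        linarith
      obtain ⟨H', hH'⟩ : ∃ H' : ℕ, H' = b - n := ⟨_, rfl⟩
      have hbH2 : b = n + H' := by omega
      have hH'r : (H' : ℝ) = (b : ℝ) - n := by rw [hH', Nat.cast_sub hbn.le]
      have hX12 : ((X₁ + X₂ : ℕ) : ℝ) ≤ n := by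
        rw [div_le_iff₀ he] at h8
        linarith
      have hX12n : X₁ + X₂ ≤ n := by exact_mod_cast hX12
      have hH'n : H' ≤ n := by
        have : (H' : ℝ) ≤ n := by linarith
        exact_mod_cast this
      have u1 := hX₁ n H' (by omega)
      have u2 := hX₂ n H' (by omega) hH'n
      rw [← pcn_eq, ← hbH2, hH'r] at u1 u2
      have hnN1 : (n : ℝ) ≤ N := by exact_mod_cast (by omega : n ≤ N)
      have hen : e * n ≤ H := (mul_le_mul_of_nonneg_left hnN1 he.le).trans hHN
      constructor
      · rw [div_le_iff₀ hln0]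
        have v1 : 5 * (e * e) * n ≤ 5 * e * H := by nlinarith only [mul_le_mul_of_nonneg_left hen (by positivity : (0:ℝ) ≤ 5 * e)]
        have v2 : μ * H ≤ (1 - 6 * e) * H := by
          apply mul_le_mul_of_nonneg_right _ hH0.le
          linarith
        linarith
      · rw [le_div_iff₀ hln0]
        have v1 : e * e * (2 * n + ((b : ℝ) - n)) ≤ 3 * e * H := by
          have : e * e * (2 * n + ((b : ℝ) - n)) ≤ e * e * (3 * n) := by
            have : (b : ℝ) - n ≤ n := by linarith
            have he2 : 0 < e * e := by positivity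
            nlinarith only [mul_le_mul_of_nonneg_left this he2.le]
          nlinarith only [this, mul_le_mul_of_nonneg_left hen (by positivity : (0:ℝ) ≤ 3 * e)]
        have v3 : H + 3 * e * H ≤ (18 / 5 + δ) * H := by nlinarith only [mul_le_mul_of_nonneg_right he10 hH0.le, mul_pos hδ hH0, hH0]
        linarith
    · -- short windows
      constructor
      · have w1 := hG3 n hnG b hbn.le hbN
        refine le_trans ?_ w1
        rw [div_le_div_iff₀ hln0 hL0]
        have w2 : (1 - 3 * e) * H ≤ (b : ℝ) - n - W := by linarith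
        have w3 : μ * L * H ≤ (μ + s) * ((1 - 3 * e) * H) * ((1 - e) * L) := by
          have w4 : μ ≤ (μ + s) * ((1 - 3 * e) * (1 - e)) := by
            have w5 : 1 - 4 * e ≤ (1 - 3 * e) * (1 - e) := by nlinarith only [mul_pos he he]
            have w6 : (μ + s) * (1 - 4 * e) ≤ (μ + s) * ((1 - 3 * e) * (1 - e)) :=
              mul_le_mul_of_nonneg_left w5 (by linarith)
            have w7 : (μ + s) * (4 * e) ≤ s := by
              rw [he1]
              nlinarith only [mul_pos hs hs, hs, hs3, mul_le_mul_of_nonneg_left hμ1.le hs.le]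
            linarith
          have w8 : 0 ≤ L * H := by positivity
          have w9 := mul_le_mul_of_nonneg_right w4 w8
          linarith
        calc μ * H * L = μ * L * H := by ring
          _ ≤ (μ + s) * ((1 - 3 * e) * H) * ((1 - e) * L) := w3
          _ ≤ (μ + s) * ((b : ℝ) - n - W) * Real.log n := by
              apply mul_le_mul _ hln _ _
              · exact mul_le_mul_of_nonneg_left w2 (by linarith)
              · have : 0 < 1 - e := by linarith
                positivity
              · have : 0 ≤ (1 - 3 * e) * H := by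
                  have : 0 < 1 - 3 * e := by linarith
                  positivity
                have : 0 ≤ (b : ℝ) - n - W := by linarith
                have : 0 ≤ μ + s := by linarith
                positivity
      · have hlen : L ^ 22 ≤ (b : ℝ) - n := by
          have : L ^ 22 ≤ L ^ 23 / 4 := by
            rw [← hL23]
            nlinarith only [mul_le_mul_of_nonneg_right hL1 (by positivity : (0:ℝ) ≤ L ^ 22), (by positivity : (0:ℝ) ≤ L ^ 22)]
          have g3 : 0 ≤ L ^ 23 := by positivity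
          nlinarith only [this, g3, hbH, hHL, mul_le_mul_of_nonneg_right he10 hH0.le]
        have w1 := hBU n b hbn hbN hlen hnB
        refine w1.trans ?_
        rw [div_le_div_iff₀ hL0 hln0]
        have w2 : (18 / 5 + s) * ((b : ℝ) - n) ≤ (18 / 5 + δ) * H := by
          apply mul_le_mul (by linarith) hbH' (by linarith) (by linarith)
        exact mul_le_mul w2 hlnL hln0.le (by positivity)
  -- counting
  have hcnt : (G.card : ℝ) ≤ ((G \ range ⌈e * N⌉₊).filter
      (fun n : ℕ => n + 1 ∉ B ∧ (n : ℝ) ≤ (1 - e) * N)).card + (e * N + 1) + B.card + (e * N + 1) := by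
    have c1 : G ⊆ (G \ range ⌈e * N⌉₊).filter (fun n : ℕ => n + 1 ∉ B ∧ (n : ℝ) ≤ (1 - e) * N) ∪
        (range ⌈e * N⌉₊ ∪ ((G.filter (fun n => n + 1 ∈ B)) ∪
          (range N).filter (fun n : ℕ => (1 - e) * N < (n : ℝ)))) := by
      intro n hn
      have hnN : n < N - W := Finset.mem_range.1 (hG1 hn)
      by_cases q1 : n < ⌈e * N⌉₊
      · exact Finset.mem_union_right _ (Finset.mem_union_left _ (Finset.mem_range.2 q1))
      · by_cases q2 : n + 1 ∈ B
        · exact Finset.mem_union_right _ (Finset.mem_union_right _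
            (Finset.mem_union_left _ (Finset.mem_filter.2 ⟨hn, q2⟩)))
        · by_cases q3 : (n : ℝ) ≤ (1 - e) * N
          · exact Finset.mem_union_left _ (Finset.mem_filter.2
              ⟨Finset.mem_sdiff.2 ⟨hn, fun hh => q1 (Finset.mem_range.1 hh)⟩, q2, q3⟩)
          · exact Finset.mem_union_right _ (Finset.mem_union_right _ (Finset.mem_union_right _
              (Finset.mem_filter.2 ⟨Finset.mem_range.2 (by omega), not_le.1 q3⟩)))
    have c2 := Finset.card_le_card c1
    have c3 := (c2.trans (Finset.card_union_le _ _)).trans (Nat.add_le_add_left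
      ((Finset.card_union_le _ _).trans (Nat.add_le_add_left (Finset.card_union_le _ _) _)) _)
    have c4 : ((G.filter (fun n => n + 1 ∈ B)).card : ℝ) ≤ B.card := by
      have : (G.filter (fun n => n + 1 ∈ B)).card ≤ B.card := by
        apply Finset.card_le_card_of_injOn (fun k => k + 1)
        · intro k hk
          rw [Finset.mem_coe, Finset.mem_filter] at hk
          exact hk.2
        · intro x _ y _ hxy
          exact Nat.add_right_cancel hxy
      exact_mod_cast this
    have c5 : ((range ⌈e * N⌉₊).card : ℝ) ≤ e * N + 1 := by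
      rw [Finset.card_range]
      exact (Nat.ceil_lt_add_one (by positivity)).le
    have c6 : (((range N).filter (fun n : ℕ => (1 - e) * N < (n : ℝ))).card : ℝ) ≤ e * N + 1 := by
      have c7 : (range N).filter (fun n : ℕ => (1 - e) * N < (n : ℝ)) ⊆
          Ico ⌊(1 - e) * (N : ℝ)⌋₊ N := by
        intro n hn
        rw [Finset.mem_filter, Finset.mem_range] at hn
        rw [Finset.mem_Ico]
        exact ⟨(Nat.floor_le_of_le hn.2.le), hn.1⟩
      have c8 := Finset.card_le_card c7
      rw [Nat.card_Ico] at c8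
      have c9 : (((range N).filter (fun n : ℕ => (1 - e) * N < (n : ℝ))).card : ℝ) ≤
          ((N - ⌊(1 - e) * (N : ℝ)⌋₊ : ℕ) : ℝ) := by exact_mod_cast c8
      refine c9.trans ?_
      have c10 : ⌊(1 - e) * (N : ℝ)⌋₊ ≤ N := by
        apply Nat.floor_le_of_le
        nlinarith only [mul_pos he hN0]
      rw [Nat.cast_sub c10]
      have := Nat.lt_floor_add_one ((1 - e) * (N : ℝ))
      linarith
    have c11 : (G.card : ℝ) ≤ ((G \ range ⌈e * N⌉₊).filter
        (fun n : ℕ => n + 1 ∉ B ∧ (n : ℝ) ≤ (1 - e) * N)).card + ((range ⌈e * N⌉₊).card +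
        ((G.filter (fun n => n + 1 ∈ B)).card +
          ((range N).filter (fun n : ℕ => (1 - e) * N < (n : ℝ))).card)) := by
      exact_mod_cast c3
    linarith
  have hfin : (((G \ range ⌈e * N⌉₊).filter
      (fun n : ℕ => n + 1 ∉ B ∧ (n : ℝ) ≤ (1 - e) * N)).card : ℝ) ≤
      (((Icc 1 N).filter (fun n : ℕ => ∀ H : ℝ, (Real.log n) ^ 23 ≤ H → H ≤ n →
        μ * H / Real.log n ≤ (pcn n ⌊n + H⌋₊ : ℝ) ∧
          (pcn n ⌊n + H⌋₊ : ℝ) ≤ (18 / 5 + δ) * H / Real.log n)).card : ℝ) := by
    exact_mod_cast Finset.card_le_card hsub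
  refine le_trans ?_ hfin
  -- numerical bounds
  have hB1 : L * (B.card : ℝ) ≤ e * N := by
    have d1 : L * (B.card : ℝ) ≤ L * (N / L * (1 / L)) := mul_le_mul_of_nonneg_left hHi hL0.le
    have d2 : L * (N / L * (1 / L)) = N * (1 / L) := by field_simp
    have d3 : 1 / L ≤ e := by
      rw [div_le_iff₀ hL0]
      rw [div_le_iff₀ he] at h3
      linarith
    rw [d2] at d1
    nlinarith only [d1, mul_le_mul_of_nonneg_right d3 hN0.le]
  have hB2 : (B.card : ℝ) ≤ e * N := by
    have : (B.card : ℝ) ≤ L * (B.card : ℝ) := by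
      have : (0 : ℝ) ≤ B.card := Nat.cast_nonneg _
      nlinarith only [mul_le_mul_of_nonneg_right (by linarith only [hL1] : (1:ℝ) ≤ L) this]
    linarith
  have hLW : L * (2 * W) ≤ 4 * e * N := by
    calc L * (2 * W) ≤ L * (2 * (2 * L ^ 22)) := by gcongr
      _ = 4 * L ^ 23 := by ring
      _ ≤ 4 * (e * N) := by gcongr
      _ = _ := by ring
  have hLp : (1 - e) * N ≤ L * Nat.primeCounting N := by
    rw [div_le_iff₀ hL0] at hp1
    linarith
  have hN1e : 1 ≤ e * N := by
    have : 1 ≤ L ^ 23 := one_le_pow₀ (by linarith)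
    linarith
  have hG4 : (1 - (μ + s) - 6 * e) * N ≤ (18 / 5 + s - (μ + s)) * G.card := by
    have : L * ((Nat.primeCounting N : ℝ) - 2 * W) = L * Nat.primeCounting N - L * (2 * W) := by
      ring
    rw [this] at hG2
    linarith
  have hcμ : 0 < 18 / 5 - μ := by linarith
  have hG5 : ((1 - μ) / (18 / 5 - μ) - (s + 6 * e)) * N ≤ G.card := by
    have d1 : 18 / 5 + s - (μ + s) = 18 / 5 - μ := by ring
    rw [d1] at hG4
    have d2 : ((1 - μ) / (18 / 5 - μ) - (s + 6 * e)) ≤ (1 - (μ + s) - 6 * e) / (18 / 5 - μ) := by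
      rw [le_div_iff₀ hcμ, sub_mul, div_mul_cancel₀ _ hcμ.ne']
      nlinarith only [mul_pos he hcμ, mul_pos hs hcμ, hμ1, mul_pos he (by linarith only [hμ1] : 0 < 1 - μ), mul_pos hs (by linarith only [hμ1] : 0 < 1 - μ)]
    calc _ ≤ (1 - (μ + s) - 6 * e) / (18 / 5 - μ) * N := mul_le_mul_of_nonneg_right d2 hN0.le
      _ = ((1 - (μ + s) - 6 * e) * N) / (18 / 5 - μ) := by ring
      _ ≤ _ := by
          rw [div_le_iff₀ hcμ]
          linarith
  have hes : e ≤ s := by rw [he1]; linarith
  have hNs : e * N ≤ s * N := mul_le_mul_of_nonneg_right hes hN0.le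
  have hNδ : s * N ≤ δ / 20 * N := mul_le_mul_of_nonneg_right hs1 hN0.le
  linarith

end Pool.Agent.R516
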