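import Mathlib
import Pool.Agent.R402.Fact

/-!
Blaschke factors of a vertical strip, and the three lines theorem with finitely many zeros
divided out.
-/

set_option autoImplicit false

open Complex Filter Topology Set

namespace Pool.Agent.R516.ZF

/-- squared norm of the cosine -/
lemma sq_norm_cos (w : ℂ) : ‖Complex.cos w‖ ^ 2 = Real.cos w.re ^ 2 + Real.sinh w.im ^ 2 := by
  rw [Complex.sq_norm, Complex.cos_eq, Complex.normSq_apply]
  rw [← Complex.ofReal_cos, ← Complex.ofReal_sin, ← Complex.ofReal_cosh, ← Complex.ofReal_sinh]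
  simp only [Complex.sub_re, Complex.sub_im, Complex.mul_re, Complex.mul_im, Complex.ofReal_re,
    Complex.ofReal_im, Complex.I_re, Complex.I_im]
  have h1 := Real.cosh_sq w.im
  have h2 := Real.sin_sq_add_cos_sq w.re
  ring_nf
  rw [h1]
  nlinarith

/-- squared norm of the sine -/
lemma sq_norm_sin (w : ℂ) : ‖Complex.sin w‖ ^ 2 = Real.sin w.re ^ 2 + Real.sinh w.im ^ 2 := by
  rw [Complex.sq_norm, Complex.sin_eq, Complex.normSq_apply]
  rw [← Complex.ofReal_cos, ← Complex.ofReal_sin, ← Complex.ofReal_cosh, ← Complex.ofReal_sinh]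
  simp only [Complex.add_re, Complex.add_im, Complex.mul_re, Complex.mul_im, Complex.ofReal_re,
    Complex.ofReal_im, Complex.I_re, Complex.I_im]
  have h1 := Real.cosh_sq w.im
  have h2 := Real.sin_sq_add_cos_sq w.re
  ring_nf
  rw [h1]
  nlinarith

/-- the numerator of the inverse Blaschke factor -/
noncomputable def Nf (c : ℝ) (p z : ℂ) : ℂ := Complex.cos (c * (z + (starRingEnd ℂ) p))

/-- the denominator of the inverse Blaschke factor -/
noncomputable def Df (c : ℝ) (p z : ℂ) : ℂ := Complex.sin (c * (z - p))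

/-- `sin (c w) / w` -/
noncomputable def Ef (c : ℝ) (w : ℂ) : ℂ := dslope (fun w : ℂ => Complex.sin (c * w)) 0 w

lemma sin_eq_mul_Ef (c : ℝ) (w : ℂ) : Complex.sin (c * w) = w * Ef c w := by
  have h := sub_smul_dslope (fun w : ℂ => Complex.sin (c * w)) 0 w
  simp only [sub_zero, mul_zero, Complex.sin_zero, smul_eq_mul] at h
  exact h.symm

lemma Ef_diff (c : ℝ) : Differentiable ℂ (Ef c) := by
  have h1 : Differentiable ℂ (fun w : ℂ => Complex.sin (c * w)) := by fun_prop
  have h2 : DifferentiableOn ℂ (dslope (fun w : ℂ => Complex.sin (c * w)) 0) univ :=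
    (Complex.differentiableOn_dslope univ_mem).2 h1.differentiableOn
  exact differentiableOn_univ.1 h2

lemma Ef_zero (c : ℝ) : Ef c 0 = c := by
  unfold Ef
  rw [dslope_same]
  have h : HasDerivAt (fun w : ℂ => Complex.sin (c * w)) (Complex.cos (c * 0) * (c * 1)) 0 :=
    ((hasDerivAt_id' (0:ℂ)).const_mul (c:ℂ)).csin
  rw [h.deriv]
  simp

lemma sin_ne_zero_of {w : ℂ} (h1 : |w.re| < Real.pi) (h0 : w ≠ 0) : Complex.sin w ≠ 0 := by
  intro h
  have h2 := sq_norm_sin w
  rw [h, norm_zero] at h2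
  have h3 : Real.sinh w.im ^ 2 = 0 := by nlinarith [sq_nonneg (Real.sin w.re), sq_nonneg (Real.sinh w.im)]
  have h4 : Real.sin w.re ^ 2 = 0 := by nlinarith [sq_nonneg (Real.sin w.re), sq_nonneg (Real.sinh w.im)]
  have h5 : w.im = 0 := by
    have := pow_eq_zero_iff (two_ne_zero) |>.1 h3
    exact Real.sinh_eq_zero.1 this
  have h6 : w.re = 0 := by
    have h7 := pow_eq_zero_iff (two_ne_zero) |>.1 h4
    rw [abs_lt] at h1
    exact (Real.sin_eq_zero_iff_of_lt_of_lt h1.1 h1.2).1 h7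
  exact h0 (Complex.ext h6 h5)

lemma Ef_ne_zero {c : ℝ} (hc : 0 < c) {w : ℂ} (h : |c * w.re| < Real.pi) : Ef c w ≠ 0 := by
  by_cases h0 : w = 0
  · rw [h0, Ef_zero]
    exact_mod_cast hc.ne'
  · intro h1
    have h2 := sin_eq_mul_Ef c w
    rw [h1, mul_zero] at h2
    refine sin_ne_zero_of (w := c * w) ?_ ?_ h2
    · rw [Complex.re_ofReal_mul]; exact h
    · exact mul_ne_zero (by exact_mod_cast hc.ne') h0

lemma Df_eq (c : ℝ) (p z : ℂ) : Df c p z = (z - p) * Ef c (z - p) := sin_eq_mul_Ef c (z - p)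

/-- on the two edges of the strip numerator and denominator have the same size -/
lemma Nf_eq_edge {c h : ℝ} (hch : c * h = Real.pi / 4) (p : ℂ) {z : ℂ}
    (hz : z.re = h ∨ z.re = -h) : ‖Nf c p z‖ = ‖Df c p z‖ := by
  unfold Nf Df
  have e0 : ‖Complex.sin (c * (z - p))‖ =
      ‖Complex.sin (c * ((starRingEnd ℂ) z - (starRingEnd ℂ) p))‖ := by
    rw [← Complex.norm_conj, ← Complex.sin_conj]
    simp
  rw [e0]
  have hch' : (c : ℂ) * (h : ℂ) = (Real.pi : ℂ) / 4 := by exact_mod_cast hch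
  rcases hz with hz | hz
  · have e1 : (starRingEnd ℂ) z = 2 * (h : ℂ) - z := by
      apply Complex.ext
      · simp [hz]; ring
      · simp
    have e2 : (c : ℂ) * ((starRingEnd ℂ) z - (starRingEnd ℂ) p) =
        (Real.pi : ℂ) / 2 - c * (z + (starRingEnd ℂ) p) := by
      rw [e1]
      linear_combination 2 * hch'
    rw [e2, Complex.sin_pi_div_two_sub]
  · have e1 : (starRingEnd ℂ) z = -(2 * (h : ℂ)) - z := by
      apply Complex.ext
      · simp [hz]; ring
      · simp
    have e2 : (c : ℂ) * ((starRingEnd ℂ) z - (starRingEnd ℂ) p) =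
        -((Real.pi : ℂ) / 2 + c * (z + (starRingEnd ℂ) p)) := by
      rw [e1]
      linear_combination -2 * hch'
    rw [e2, Complex.sin_neg, norm_neg, add_comm ((Real.pi : ℂ) / 2), Complex.sin_add_pi_div_two]

lemma Df_ne_zero {c h : ℝ} (hc : 0 < c) (hch : c * h = Real.pi / 4) {p z : ℂ}
    (hp : |p.re| < h) (hz : |z.re| ≤ h) (hzp : z ≠ p) : Df c p z ≠ 0 := by
  rw [Df_eq]
  refine mul_ne_zero (sub_ne_zero.2 hzp) (Ef_ne_zero hc ?_)
  rw [abs_mul, abs_of_pos hc, Complex.sub_re]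
  have h1 : |z.re - p.re| ≤ |z.re| + |p.re| := abs_sub _ _
  have hpi := Real.pi_pos
  calc c * |z.re - p.re| ≤ c * (h + h) := by gcongr; linarith
    _ = Real.pi / 2 := by linarith
    _ < Real.pi := by linarith

lemma Ef_sub_ne_zero {c h : ℝ} (hc : 0 < c) (hch : c * h = Real.pi / 4) {p z : ℂ}
    (hp : |p.re| < h) (hz : |z.re| ≤ h) : Ef c (z - p) ≠ 0 := by
  refine Ef_ne_zero hc ?_
  rw [abs_mul, abs_of_pos hc, Complex.sub_re]
  have h1 : |z.re - p.re| ≤ |z.re| + |p.re| := abs_sub _ _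
  have hpi := Real.pi_pos
  calc c * |z.re - p.re| ≤ c * (h + h) := by gcongr; linarith
    _ = Real.pi / 2 := by linarith
    _ < Real.pi := by linarith

/-- far from the zero, the inverse Blaschke factor is bounded -/
lemma Nf_le_two {c : ℝ} (hc : 1 ≤ c) (p : ℂ) {z : ℂ} (hz : 1 ≤ |z.im - p.im|) :
    ‖Nf c p z‖ ≤ 2 * ‖Df c p z‖ := by
  unfold Nf Df
  have h1 := sq_norm_cos (c * (z + (starRingEnd ℂ) p))
  have h2 := sq_norm_sin (c * (z - p))
  have e1 : ((c : ℂ) * (z + (starRingEnd ℂ) p)).im = c * (z.im - p.im) := by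
    rw [Complex.im_ofReal_mul, Complex.add_im, Complex.conj_im]; ring
  have e2 : ((c : ℂ) * (z - p)).im = c * (z.im - p.im) := by
    rw [Complex.im_ofReal_mul]; simp
  rw [e1] at h1
  rw [e2] at h2
  set Y := c * (z.im - p.im) with hY
  have h3 : 1 ≤ |Y| := by
    rw [hY, abs_mul, abs_of_pos (by linarith)]
    nlinarith
  have h4 : 1 ≤ Real.sinh Y ^ 2 := by
    rw [← sq_abs, Real.abs_sinh]
    have h5 : |Y| ≤ Real.sinh |Y| := Real.self_le_sinh_iff.2 (abs_nonneg _)
    nlinarith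
  have h5 := Real.cos_sq_le_one ((c : ℂ) * (z + (starRingEnd ℂ) p)).re
  have h6 : ‖Complex.cos (c * (z + (starRingEnd ℂ) p))‖ ^ 2 ≤
      (2 * ‖Complex.sin (c * (z - p))‖) ^ 2 := by
    rw [mul_pow, h1, h2]
    nlinarith [sq_nonneg (Real.sin ((c : ℂ) * (z - p)).re)]
  exact abs_le_of_sq_le_sq' h6 (by positivity) |>.2

end Pool.Agent.R516.ZF
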