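import Pool.Agent.R516.ZFA

/-!
The three lines theorem with finitely many zeros divided out.
-/

set_option autoImplicit false

open Complex Filter Topology Set

namespace Pool.Agent.R516.ZF

/-- the function with the zeros divided out -/
noncomputable def Wf (c : ℝ) (S : Finset ℂ) (m : ℂ → ℕ) (g : ℂ → ℂ) (z : ℂ) : ℂ :=
  g z * ∏ p ∈ S, (Nf c p z / Ef c (z - p)) ^ m p

section
variable {c h : ℝ} {S : Finset ℂ} {m : ℂ → ℕ} {g f : ℂ → ℂ}

lemma Wf_mul (hfg : ∀ z, f z = (∏ p ∈ S, (z - p) ^ m p) * g z) {z : ℂ}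
    (hE : ∀ p ∈ S, Ef c (z - p) ≠ 0) :
    Wf c S m g z * ∏ p ∈ S, Df c p z ^ m p = f z * ∏ p ∈ S, Nf c p z ^ m p := by
  unfold Wf
  rw [hfg z]
  have e1 : (∏ p ∈ S, (Nf c p z / Ef c (z - p)) ^ m p) * ∏ p ∈ S, Df c p z ^ m p =
      (∏ p ∈ S, (z - p) ^ m p) * ∏ p ∈ S, Nf c p z ^ m p := by
    rw [← Finset.prod_mul_distrib, ← Finset.prod_mul_distrib]
    refine Finset.prod_congr rfl fun p hp => ?_
    rw [← mul_pow, ← mul_pow]
    congr 1
    rw [Df_eq]
    have := hE p hp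
    field_simp
  calc g z * (∏ p ∈ S, (Nf c p z / Ef c (z - p)) ^ m p) * ∏ p ∈ S, Df c p z ^ m p
      = g z * ((∏ p ∈ S, (Nf c p z / Ef c (z - p)) ^ m p) * ∏ p ∈ S, Df c p z ^ m p) := by ring
    _ = g z * ((∏ p ∈ S, (z - p) ^ m p) * ∏ p ∈ S, Nf c p z ^ m p) := by rw [e1]
    _ = _ := by ring

lemma Wf_diffAt (hg : Differentiable ℂ g) {z : ℂ} (hE : ∀ p ∈ S, Ef c (z - p) ≠ 0) :
    DifferentiableAt ℂ (Wf c S m g) z := by
  unfold Wf
  refine (hg z).mul ?_
  refine DifferentiableAt.fun_finsetProd fun p hp => ?_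
  refine DifferentiableAt.pow ?_ _
  refine DifferentiableAt.div ?_ ?_ (hE p hp)
  · unfold Nf
    fun_prop
  · exact ((Ef_diff c) (z - p)).comp z (by fun_prop)

/-- **Three lines theorem with zeros divided out.** -/
theorem three_lines (hh : 0 < h) (hc : 1 ≤ c) (hch : c * h = Real.pi / 4)
    (hf : Differentiable ℂ f) {A B : ℝ}
    (hgr : ∀ z : ℂ, |z.re| ≤ h → ‖f z‖ ≤ Real.exp (A + B * |z.im|))
    {a b : ℝ} (ha0 : 0 ≤ a) (hb0 : 0 ≤ b)
    (ha : ∀ y : ℝ, ‖f ((-h : ℝ) + y * I)‖ * Real.exp (-y ^ 2) ≤ a)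
    (hb : ∀ y : ℝ, ‖f ((h : ℝ) + y * I)‖ * Real.exp (-y ^ 2) ≤ b)
    (hS : ∀ p ∈ S, |p.re| < h) :
    ‖f 0‖ ≤ Real.exp (h ^ 2) * (a ^ (1 / 2 : ℝ) * b ^ (1 / 2 : ℝ)) *
      ∏ p ∈ S, ‖Complex.tan (c * p)‖ ^ analyticOrderNatAt f p := by
  have hc0 : 0 < c := by linarith
  obtain ⟨g, hg, hfg⟩ := Pool.Agent.R402.Fact.factor_all hf S
  set m : ℂ → ℕ := fun p => analyticOrderNatAt f p with hm
  have hE : ∀ z : ℂ, |z.re| ≤ h → ∀ p ∈ S, Ef c (z - p) ≠ 0 := fun z hz p hp =>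
    Ef_sub_ne_zero hc0 hch (hS p hp) hz
  have hW : ∀ z : ℂ, |z.re| ≤ h → Wf c S m g z * ∏ p ∈ S, Df c p z ^ m p =
      f z * ∏ p ∈ S, Nf c p z ^ m p := fun z hz => Wf_mul hfg (hE z hz)
  -- the norm on the edges
  have hedge : ∀ z : ℂ, (z.re = h ∨ z.re = -h) → ‖Wf c S m g z‖ = ‖f z‖ := by
    intro z hz
    have hz' : |z.re| ≤ h := by
      rcases hz with hz | hz <;> rw [hz]
      · exact (abs_of_pos hh).le
      · rw [abs_neg]; exact (abs_of_pos hh).le
    have hz2 : |z.re| = h := by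
      rcases hz with hz | hz <;> rw [hz]
      · exact (abs_of_pos hh)
      · rw [abs_neg]; exact (abs_of_pos hh)
    have h1 := congrArg norm (hW z hz')
    rw [norm_mul, norm_mul, norm_prod, norm_prod] at h1
    have h2 : ∏ p ∈ S, ‖Nf c p z ^ m p‖ = ∏ p ∈ S, ‖Df c p z ^ m p‖ := by
      refine Finset.prod_congr rfl fun p _ => ?_
      rw [norm_pow, norm_pow, Nf_eq_edge hch p hz]
    rw [h2] at h1
    have h3 : ∏ p ∈ S, ‖Df c p z ^ m p‖ ≠ 0 := by
      refine Finset.prod_ne_zero_iff.2 fun p hp => ?_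
      rw [norm_ne_zero_iff]
      refine pow_ne_zero _ (Df_ne_zero hc0 hch (hS p hp) hz' ?_)
      rintro rfl
      have := hS _ hp
      linarith
    exact mul_right_cancel₀ h3 h1
  -- the norm far away
  obtain ⟨R0, hR0⟩ : ∃ R0 : ℝ, ∀ p ∈ S, |p.im| + 1 ≤ R0 := by
    refine ⟨∑ p ∈ S, (|p.im| + 1), fun p hp => ?_⟩
    exact Finset.single_le_sum (f := fun p : ℂ => |p.im| + 1) (fun p _ => by positivity) hp
  have hfar : ∀ z : ℂ, |z.re| ≤ h → R0 ≤ |z.im| → ‖Wf c S m g z‖ ≤ 2 ^ (∑ p ∈ S, m p) * ‖f z‖ := by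
    intro z hz hzi
    have hd : ∀ p ∈ S, 1 ≤ |z.im - p.im| := by
      intro p hp
      have h1 := hR0 p hp
      have h2 := abs_sub_abs_le_abs_sub z.im p.im
      linarith
    have h1 := congrArg norm (hW z hz)
    rw [norm_mul, norm_mul, norm_prod, norm_prod] at h1
    have h2 : ∏ p ∈ S, ‖Nf c p z ^ m p‖ ≤ 2 ^ (∑ p ∈ S, m p) * ∏ p ∈ S, ‖Df c p z ^ m p‖ := by
      rw [← Finset.prod_pow_eq_pow_sum, ← Finset.prod_mul_distrib]
      refine Finset.prod_le_prod (fun p _ => norm_nonneg _) fun p hp => ?_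
      rw [norm_pow, norm_pow, ← mul_pow]
      exact pow_le_pow_left₀ (norm_nonneg _) (Nf_le_two hc p (hd p hp)) _
    have h3 : 0 < ∏ p ∈ S, ‖Df c p z ^ m p‖ := by
      refine Finset.prod_pos fun p hp => ?_
      rw [norm_pos_iff]
      refine pow_ne_zero _ (Df_ne_zero hc0 hch (hS p hp) hz ?_)
      rintro rfl
      have := hd _ hp
      simp at this
      linarith
    refine le_of_mul_le_mul_right ?_ h3
    rw [h1]
    calc ‖f z‖ * ∏ p ∈ S, ‖Nf c p z ^ m p‖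
        ≤ ‖f z‖ * (2 ^ (∑ p ∈ S, m p) * ∏ p ∈ S, ‖Df c p z ^ m p‖) := by gcongr
      _ = _ := by ring
  -- the function
  set T : ℂ → ℂ := fun z => Wf c S m g z * cexp (z ^ 2) with hT
  have hexp : ∀ z : ℂ, |z.re| ≤ h → ‖cexp (z ^ 2)‖ ≤ Real.exp (h ^ 2) * Real.exp (-z.im ^ 2) := by
    intro z hz
    rw [Complex.norm_exp, ← Real.exp_add]
    apply Real.exp_le_exp.2
    rw [sq, Complex.mul_re]
    have h1 : z.re ^ 2 ≤ h ^ 2 := by
      rw [← sq_abs]
      exact pow_le_pow_left₀ (abs_nonneg _) hz 2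
    nlinarith
  have hTd : ∀ z : ℂ, |z.re| ≤ h → DifferentiableAt ℂ T z := by
    intro z hz
    exact (Wf_diffAt hg (hE z hz)).mul (by fun_prop)
  -- boundedness
  have hbdd : ∃ M : ℝ, ∀ z : ℂ, |z.re| ≤ h → ‖T z‖ ≤ M := by
    set K : Set ℂ := Icc (-h) h ×ℂ Icc (-|R0|) |R0| with hK
    have hKc : IsCompact K := isCompact_Icc.reProdIm isCompact_Icc
    have hcont : ContinuousOn T K := by
      intro z hz
      refine (hTd z ?_).continuousAt.continuousWithinAt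
      rw [abs_le]
      exact hz.1
    obtain ⟨M1, hM1⟩ := hKc.exists_bound_of_continuousOn hcont
    refine ⟨max M1 (2 ^ (∑ p ∈ S, m p) * (Real.exp (A + B ^ 2 / 4) * Real.exp (h ^ 2))),
      fun z hz => ?_⟩
    rcases le_or_gt |z.im| |R0| with hi | hi
    · refine (hM1 z ⟨abs_le.1 hz, abs_le.1 hi⟩).trans (le_max_left _ _)
    · refine le_trans ?_ (le_max_right _ _)
      have h1 := hfar z hz ((le_abs_self R0).trans hi.le)
      have h2 := hgr z hz
      have h3 := hexp z hz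
      rw [hT]
      simp only [norm_mul]
      have h4 : Real.exp (A + B * |z.im|) * Real.exp (-z.im ^ 2) ≤ Real.exp (A + B ^ 2 / 4) := by
        rw [← Real.exp_add]
        apply Real.exp_le_exp.2
        rw [← sq_abs]
        nlinarith [sq_nonneg (|z.im| - B / 2)]
      calc ‖Wf c S m g z‖ * ‖cexp (z ^ 2)‖
          ≤ (2 ^ (∑ p ∈ S, m p) * Real.exp (A + B * |z.im|)) *
            (Real.exp (h ^ 2) * Real.exp (-z.im ^ 2)) := by
            refine mul_le_mul (h1.trans ?_) h3 (norm_nonneg _) (by positivity)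
            gcongr
        _ = 2 ^ (∑ p ∈ S, m p) * ((Real.exp (A + B * |z.im|) * Real.exp (-z.im ^ 2)) *
            Real.exp (h ^ 2)) := by ring
        _ ≤ _ := by gcongr
  have key := HadamardThreeLines.norm_le_interp_of_mem_verticalClosedStrip'
    (f := T) (z := 0) (a := Real.exp (h ^ 2) * a) (b := Real.exp (h ^ 2) * b)
    (l := -h) (u := h) (by linarith)
    (show (0 : ℂ).re ∈ Set.Icc (-h) h from by simp [hh.le])
    (by
      apply DifferentiableOn.diffContOnCl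
      intro z hz
      have hz' : z.re ∈ Set.Icc (-h) h := by
        have h3 : closure (HadamardThreeLines.verticalStrip (-h) h) ⊆
            Complex.re ⁻¹' (Set.Icc (-h) h) := by
          apply closure_minimal
          · intro w hw
            exact Set.Ioo_subset_Icc_self hw
          · exact isClosed_Icc.preimage Complex.continuous_re
        exact h3 hz
      exact (hTd z (abs_le.2 hz')).differentiableWithinAt)
    (by
      obtain ⟨M, hM⟩ := hbdd
      refine ⟨M, ?_⟩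
      rintro _ ⟨z, hz, rfl⟩
      exact hM z (abs_le.2 hz))
    (by
      intro z hz
      have hz' : z.re = -h := hz
      have h1 : z = ((-h : ℝ) : ℂ) + z.im * I := by
        conv_lhs => rw [← Complex.re_add_im z, hz']
      have h2 := ha z.im
      rw [← h1] at h2
      have h3 := hexp z (by rw [hz', abs_neg]; exact (abs_of_pos hh).le)
      have h4 : ‖T z‖ = ‖f z‖ * ‖cexp (z ^ 2)‖ := by
        rw [hT]
        simp only [norm_mul]
        rw [hedge z (Or.inr hz')]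
      rw [h4]
      calc ‖f z‖ * ‖cexp (z ^ 2)‖ ≤ ‖f z‖ * (Real.exp (h ^ 2) * Real.exp (-z.im ^ 2)) := by gcongr
        _ = Real.exp (h ^ 2) * (‖f z‖ * Real.exp (-z.im ^ 2)) := by ring
        _ ≤ _ := by gcongr)
    (by
      intro z hz
      have hz' : z.re = h := hz
      have h1 : z = ((h : ℝ) : ℂ) + z.im * I := by
        conv_lhs => rw [← Complex.re_add_im z, hz']
      have h2 := hb z.im
      rw [← h1] at h2
      have h3 := hexp z (by rw [hz']; exact (abs_of_pos hh).le)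
      have h4 : ‖T z‖ = ‖f z‖ * ‖cexp (z ^ 2)‖ := by
        rw [hT]
        simp only [norm_mul]
        rw [hedge z (Or.inl hz')]
      rw [h4]
      calc ‖f z‖ * ‖cexp (z ^ 2)‖ ≤ ‖f z‖ * (Real.exp (h ^ 2) * Real.exp (-z.im ^ 2)) := by gcongr
        _ = Real.exp (h ^ 2) * (‖f z‖ * Real.exp (-z.im ^ 2)) := by ring
        _ ≤ _ := by gcongr)
  have e1 : 1 - ((0 : ℂ).re - -h) / (h - -h) = 1 / 2 := by
    rw [Complex.zero_re]
    field_simp
    ring
  have e2 : ((0 : ℂ).re - -h) / (h - -h) = 1 / 2 := by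
    rw [Complex.zero_re]
    field_simp
    ring
  rw [e1, e2] at key
  have e3 : (Real.exp (h ^ 2) * a) ^ (1 / 2 : ℝ) * (Real.exp (h ^ 2) * b) ^ (1 / 2 : ℝ) =
      Real.exp (h ^ 2) * (a ^ (1 / 2 : ℝ) * b ^ (1 / 2 : ℝ)) := by
    have hE0 := (Real.exp_pos (h ^ 2)).le
    rw [Real.mul_rpow hE0 ha0, Real.mul_rpow hE0 hb0]
    have : Real.exp (h ^ 2) ^ (1 / 2 : ℝ) * Real.exp (h ^ 2) ^ (1 / 2 : ℝ) = Real.exp (h ^ 2) := by
      rw [← Real.rpow_add (Real.exp_pos _)]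
      norm_num
    linear_combination (a ^ (1 / 2 : ℝ) * b ^ (1 / 2 : ℝ)) * this
  rw [e3] at key
  have e4 : T 0 = Wf c S m g 0 := by
    rw [hT]
    simp
  rw [e4] at key
  -- value at the centre
  have h1 := congrArg norm (hW 0 (by simp [hh.le]))
  rw [norm_mul, norm_mul, norm_prod, norm_prod] at h1
  have hcos : ∀ p ∈ S, Complex.cos (c * p) ≠ 0 := by
    intro p hp h2
    have h3 := sq_norm_cos (c * p)
    rw [h2, norm_zero] at h3
    have h4 : 0 < Real.cos ((c : ℂ) * p).re := by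
      rw [Complex.re_ofReal_mul]
      apply Real.cos_pos_of_mem_Ioo
      have h5 : |c * p.re| < Real.pi / 2 := by
        rw [abs_mul, abs_of_pos hc0]
        have := hS p hp
        have hpi := Real.pi_pos
        calc c * |p.re| ≤ c * h := by gcongr
          _ = Real.pi / 4 := hch
          _ < Real.pi / 2 := by linarith
      rw [abs_lt] at h5
      exact ⟨by linarith [h5.1], h5.2⟩
    nlinarith [sq_nonneg (Real.sinh ((c : ℂ) * p).im)]
  have hN0 : ∀ p ∈ S, ‖Nf c p 0‖ = ‖Complex.cos (c * p)‖ := by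
    intro p _
    unfold Nf
    rw [zero_add, ← Complex.norm_conj, ← Complex.cos_conj]
    simp
  have hD0 : ∀ p ∈ S, ‖Df c p 0‖ = ‖Complex.sin (c * p)‖ := by
    intro p _
    unfold Df
    rw [zero_sub, mul_neg, Complex.sin_neg, norm_neg]
  have e5 : ∏ p ∈ S, ‖Nf c p 0 ^ m p‖ = ∏ p ∈ S, ‖Complex.cos (c * p)‖ ^ m p :=
    Finset.prod_congr rfl fun p hp => by rw [norm_pow, hN0 p hp]
  have e6 : ∏ p ∈ S, ‖Df c p 0 ^ m p‖ = (∏ p ∈ S, ‖Complex.tan (c * p)‖ ^ m p) *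
      ∏ p ∈ S, ‖Complex.cos (c * p)‖ ^ m p := by
    rw [← Finset.prod_mul_distrib]
    refine Finset.prod_congr rfl fun p hp => ?_
    rw [norm_pow, hD0 p hp, ← mul_pow, ← norm_mul, Complex.tan_mul_cos (hcos p hp)]
  rw [e5, e6] at h1
  have h3 : 0 < ∏ p ∈ S, ‖Complex.cos (c * p)‖ ^ m p :=
    Finset.prod_pos fun p hp => pow_pos (norm_pos_iff.2 (hcos p hp)) _
  have h4 : ‖f 0‖ = ‖Wf c S m g 0‖ * ∏ p ∈ S, ‖Complex.tan (c * p)‖ ^ m p := by
    refine mul_right_cancel₀ h3.ne' ?_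
    rw [← h1]
    ring
  rw [h4]
  gcongr

end

end Pool.Agent.R516.ZF
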