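import Pool.Agent.R516.ZFB
import Pool.Agent.R402.Core

/-!
The Green function form of the convexity bound.
-/

set_option autoImplicit false

open Complex Filter Topology Set

namespace Pool.Agent.R516.ZF

open Pool.Agent.R402.MeanSq Pool.Agent.R402.Ser Pool.Agent.R402.Core

lemma tsum_x_le {c : ℕ → ℂ} {σ κ : ℝ} (hκ : 0 < κ) (hσ : 1 < σ) (hP : Summable (P c σ)) :
    2 * ∑' n, x c σ n ≤ 2 * κ * ∑' n, P c σ n + 1 / (2 * κ) * ∑' n, v σ n := by
  have hv := summable_v hσ
  have h1 : ∀ n, x c σ n ≤ κ * P c σ n + 1 / (4 * κ) * v σ n := by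
    intro n
    unfold x P
    have h2 := v_nonneg σ n
    have h3 : ‖c n‖ ≤ κ * ‖c n‖ ^ 2 + 1 / (4 * κ) := by
      have h4 : 0 ≤ (2 * κ * ‖c n‖ - 1) ^ 2 / (4 * κ) := by positivity
      have h5 : (2 * κ * ‖c n‖ - 1) ^ 2 / (4 * κ) = κ * ‖c n‖ ^ 2 + 1 / (4 * κ) - ‖c n‖ := by
        field_simp
        ring
      linarith
    have h6 := mul_le_mul_of_nonneg_left h3 h2
    linarith
  have h2 : ∑' n, x c σ n ≤ ∑' n, (κ * P c σ n + 1 / (4 * κ) * v σ n) :=
    (summable_x hσ hP).tsum_le_tsum h1 ((hP.mul_left κ).add (hv.mul_left _))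
  rw [(hP.mul_left κ).tsum_add (hv.mul_left _), tsum_mul_left, tsum_mul_left] at h2
  have h3 : 1 / (2 * κ) = 2 * (1 / (4 * κ)) := by
    field_simp
    ring
  rw [h3]
  linarith

/-- the constant -/
noncomputable def KK (d Cn A h ε : ℝ) : ℝ :=
  Real.exp (h ^ 2) * ((Cn * Real.exp ((d * h) ^ 2 / 4)) ^ (1 / 2 : ℝ) *
    Real.exp (ε / (h - 1 / 2) + (|A| + 1) / ε * ∑' n, v (1 / 2 + h) n))

theorem core {d Cn θ A h ε : ℝ} (hd : 0 ≤ d) (hCn : 1 ≤ Cn) (hh : 1 / 2 < h) (hh1 : h ≤ 3 / 4)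
    (hε : 0 < ε) {Q0 : ℝ} {c : ℕ → ℂ} {F : ℂ → ℂ} (H : Hyp d Cn θ A Q0 c F)
    {S : Finset ℂ} (hS : ∀ p ∈ S, |p.re| < h) :
    ‖F (1 / 2)‖ ≤ KK d Cn A h ε * Q0 ^ (h / 2 + ε) *
      ∏ p ∈ S, ‖Complex.tan (((Real.pi / (4 * h) : ℝ) : ℂ) * p)‖ ^
        analyticOrderNatAt (fun z => F (1 / 2 + z)) p := by
  have hpi := Real.pi_gt_three
  have hh0 : 0 < h := by linarith
  have hσ : 1 < 1 / 2 + h := by linarith
  have hQ0 : 0 < Q0 := by linarith [H.one_le]
  have hlQ : 0 ≤ Real.log Q0 := Real.log_nonneg H.one_le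
  have hc1 : 1 ≤ Real.pi / (4 * h) := by
    rw [le_div_iff₀ (by positivity)]
    linarith
  have hch : Real.pi / (4 * h) * h = Real.pi / 4 := by
    field_simp
  have hP := H.summ _ hσ
  set κ : ℝ := ε / (2 * (|A| + 1)) with hκdef
  have hA0 := abs_nonneg A
  have hκ : 0 < κ := by positivity
  set V : ℝ := ∑' n, v (1 / 2 + h) n with hV
  have hV0 : 0 ≤ V := tsum_nonneg fun n => v_nonneg _ n
  set M : ℝ := Real.exp (ε / (h - 1 / 2) + (|A| + 1) / ε * V) * Q0 ^ ε with hM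
  have hM0 : 0 < M := by positivity
  have hx : 2 * ∑' n, x c (1 / 2 + h) n ≤
      ε / (h - 1 / 2) + (|A| + 1) / ε * V + Real.log Q0 * ε := by
    have h1 := tsum_x_le hκ hσ hP
    have h2 := H.rankin _ hσ (by linarith)
    have h3 : (1 / 2 + h) - 1 = h - 1 / 2 := by ring
    rw [h3] at h2
    have h4 : 0 < h - 1 / 2 := by linarith
    have h5 : A * (1 / (h - 1 / 2) + Real.log Q0) ≤
        (|A| + 1) * (1 / (h - 1 / 2) + Real.log Q0) := by
      have : 0 ≤ 1 / (h - 1 / 2) + Real.log Q0 := by positivity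
      have h6 : A ≤ |A| + 1 := by linarith [le_abs_self A]
      gcongr
    have h6 : 2 * κ * ∑' n, P c (1 / 2 + h) n ≤
        2 * κ * ((|A| + 1) * (1 / (h - 1 / 2) + Real.log Q0)) := by
      gcongr
      exact h2.trans h5
    have h7 : 2 * κ * ((|A| + 1) * (1 / (h - 1 / 2) + Real.log Q0)) =
        ε / (h - 1 / 2) + Real.log Q0 * ε := by
      rw [hκdef]
      have : |A| + 1 ≠ 0 := by positivity
      have h8 : h - 1 / 2 ≠ 0 := h4.ne'
      field_simp
    have h8 : 1 / (2 * κ) = (|A| + 1) / ε := by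
      rw [hκdef]
      have : |A| + 1 ≠ 0 := by positivity
      field_simp
    rw [h8] at h1
    linarith
  have hright : ∀ y : ℝ, ‖F (((1 / 2 + h : ℝ) : ℂ) + y * I)‖ ≤ M := by
    intro y
    rw [H.exp_eq _ _ hσ, Complex.norm_exp, hM, Real.rpow_def_of_pos hQ0, ← Real.exp_add]
    apply Real.exp_le_exp.2
    refine (Complex.re_le_norm _).trans ((G_norm_le hσ hP y).trans ?_)
    exact hx
  obtain ⟨A1, B1, _, hgr⟩ := H.growth
  have hf : Differentiable ℂ (fun z => F (1 / 2 + z)) := H.diff.comp (by fun_prop)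
  have hexp1 : ∀ y : ℝ, Real.exp (-y ^ 2) ≤ 1 := fun y => by
    rw [Real.exp_le_one_iff]
    nlinarith [sq_nonneg y]
  have key := three_lines (f := fun z => F (1 / 2 + z)) (S := S) (A := A1) (B := B1)
    (a := Cn * Real.exp ((d * h) ^ 2 / 4) * Q0 ^ h * M) (b := M) hh0 hc1 hch hf
    (by
      intro z hz
      rw [abs_le] at hz
      have h1 := hgr (1 / 2 + z) (by
        rw [Complex.add_re]
        norm_num
        linarith) (by
        rw [Complex.add_re]
        norm_num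
        linarith)
      have h2 : (1 / 2 + z).im = z.im := by simp
      rw [h2] at h1
      rcases eq_or_ne (F (1 / 2 + z)) 0 with h0 | h0
      · rw [h0, norm_zero]
        positivity
      · have h3 : Real.log ‖F (1 / 2 + z)‖ ≤ A1 + B1 * |z.im| :=
          le_trans (by rw [Real.posLog_apply]; exact le_max_right _ _) h1
        rw [← Real.log_le_iff_le_exp (norm_pos_iff.2 h0)]
        exact h3)
    (by positivity) hM0.le
    (by
      intro y
      have h1 := H.refl h y hh0.le hh1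
      have h2 : (1 / 2 : ℂ) + (((-h : ℝ) : ℂ) + y * I) = ((1 / 2 - h : ℝ) : ℂ) + y * I := by
        push_cast
        ring
      simp only [h2]
      have h3 : (1 + |y|) ^ (d * h) * Real.exp (-y ^ 2) ≤ Real.exp ((d * h) ^ 2 / 4) := by
        have h4 : (1 + |y|) ^ (d * h) ≤ Real.exp (|y| * (d * h)) := by
          rw [Real.exp_mul]
          refine Real.rpow_le_rpow (by positivity) ?_ (by positivity)
          have := Real.add_one_le_exp |y|
          linarith
        calc (1 + |y|) ^ (d * h) * Real.exp (-y ^ 2)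
            ≤ Real.exp (|y| * (d * h)) * Real.exp (-y ^ 2) := by gcongr
          _ = Real.exp (|y| * (d * h) + -y ^ 2) := by rw [Real.exp_add]
          _ ≤ _ := by
            apply Real.exp_le_exp.2
            rw [← sq_abs y]
            nlinarith [sq_nonneg (|y| - d * h / 2)]
      have h5 : (Q0 * (1 + |y|) ^ d) ^ h = Q0 ^ h * (1 + |y|) ^ (d * h) := by
        rw [Real.mul_rpow hQ0.le (by positivity), ← Real.rpow_mul (by positivity)]
      rw [h5] at h1
      calc ‖F (((1 / 2 - h : ℝ) : ℂ) + y * I)‖ * Real.exp (-y ^ 2)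
          ≤ (Cn * (Q0 ^ h * (1 + |y|) ^ (d * h)) * ‖F (((1 / 2 + h : ℝ) : ℂ) + y * I)‖) *
            Real.exp (-y ^ 2) := by gcongr
        _ ≤ (Cn * (Q0 ^ h * (1 + |y|) ^ (d * h)) * M) * Real.exp (-y ^ 2) := by
            gcongr
            exact hright y
        _ = Cn * ((1 + |y|) ^ (d * h) * Real.exp (-y ^ 2)) * Q0 ^ h * M := by ring
        _ ≤ _ := by gcongr)
    (by
      intro y
      have h2 : (1 / 2 : ℂ) + (((h : ℝ) : ℂ) + y * I) = ((1 / 2 + h : ℝ) : ℂ) + y * I := by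
        push_cast
        ring
      simp only [h2]
      have h3 := hright y
      have h4 := hexp1 y
      calc ‖F (((1 / 2 + h : ℝ) : ℂ) + y * I)‖ * Real.exp (-y ^ 2) ≤ M * 1 := by gcongr
        _ = M := mul_one M) hS
  simp only [add_zero] at key
  refine key.trans (le_of_eq ?_)
  congr 1
  have e1 : (Cn * Real.exp ((d * h) ^ 2 / 4) * Q0 ^ h * M) ^ (1 / 2 : ℝ) * M ^ (1 / 2 : ℝ) =
      (Cn * Real.exp ((d * h) ^ 2 / 4)) ^ (1 / 2 : ℝ) * Q0 ^ (h / 2) * M := by
    rw [Real.mul_rpow (by positivity) hM0.le, Real.mul_rpow (by positivity) (by positivity),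
      ← Real.rpow_mul hQ0.le, mul_one_div, mul_assoc, mul_assoc, mul_assoc, ← Real.rpow_add hM0]
    norm_num
  rw [e1, hM]
  unfold KK
  rw [Real.rpow_add hQ0]
  ring

end Pool.Agent.R516.ZF
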