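import Pool.Agent.R516.ZFC

/-!
Elementary bounds for the Green function, and translation of orders of vanishing.
-/

set_option autoImplicit false

open Complex Filter Topology Set

namespace Pool.Agent.R516.ZF

/-- the squared norm of the tangent -/
lemma sq_norm_tan {w : ℂ} (hk : 0 ≤ Real.cos (2 * w.re)) : ‖Complex.tan w‖ ^ 2 =
    (Real.cosh (2 * w.im) - Real.cos (2 * w.re)) / (Real.cosh (2 * w.im) + Real.cos (2 * w.re)) := by
  have h1 := sq_norm_sin w
  have h2 := sq_norm_cos w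
  have e1 : Real.cosh (2 * w.im) = 1 + 2 * Real.sinh w.im ^ 2 := by
    rw [Real.cosh_two_mul, Real.cosh_sq]
    ring
  have e2 : Real.cos (2 * w.re) = 1 - 2 * Real.sin w.re ^ 2 := by
    rw [Real.cos_two_mul, Real.cos_sq']
    ring
  have e3 : Real.cos (2 * w.re) = 2 * Real.cos w.re ^ 2 - 1 := Real.cos_two_mul _
  have h3 : 0 < Real.cosh (2 * w.im) + Real.cos (2 * w.re) := by
    have := Real.cosh_pos (2 * w.im)
    linarith
  have h4 : 0 < ‖Complex.cos w‖ ^ 2 := by
    rw [h2]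
    linarith
  rw [Complex.tan_eq_sin_div_cos, norm_div, div_pow, h1, h2, div_eq_div_iff (by rw [← h2]; exact h4.ne') h3.ne']
  rw [e1, e2]
  have h5 := Real.sin_sq_add_cos_sq w.re
  have h6 : Real.cos w.re ^ 2 = 1 - Real.sin w.re ^ 2 := by linarith
  rw [h6]
  ring

lemma cos_two_nonneg {c x : ℝ} (hc : 0 ≤ c) (hc2 : c ≤ Real.pi / 2) (hx : |x| ≤ 1 / 2) :
    0 ≤ Real.cos (2 * (c * x)) := by
  apply Real.cos_nonneg_of_mem_Icc
  have hpi := Real.pi_pos
  have h1 : |2 * (c * x)| ≤ Real.pi / 2 := by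
    rw [abs_mul, abs_mul, abs_of_nonneg hc, abs_of_pos (by norm_num : (0:ℝ) < 2)]
    calc 2 * (c * |x|) ≤ 2 * (Real.pi / 2 * (1 / 2)) := by gcongr
      _ = Real.pi / 2 := by ring
  rw [abs_le] at h1
  exact ⟨by linarith [h1.1], h1.2⟩

/-- the tangents increase with the frequency -/
lemma tan_mono {c : ℝ} (hc : 0 < c) (hc2 : c ≤ Real.pi / 2) {p : ℂ} (hp : |p.re| ≤ 1 / 2) :
    ‖Complex.tan ((c : ℂ) * p)‖ ≤ ‖Complex.tan (((Real.pi / 2 : ℝ) : ℂ) * p)‖ := by
  have hpi := Real.pi_pos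
  have r1 : ((c : ℂ) * p).re = c * p.re := Complex.re_ofReal_mul _ _
  have r2 : ((c : ℂ) * p).im = c * p.im := Complex.im_ofReal_mul _ _
  have r3 : (((Real.pi / 2 : ℝ) : ℂ) * p).re = Real.pi / 2 * p.re := Complex.re_ofReal_mul _ _
  have r4 : (((Real.pi / 2 : ℝ) : ℂ) * p).im = Real.pi / 2 * p.im := Complex.im_ofReal_mul _ _
  have k1 := cos_two_nonneg hc.le hc2 hp
  have k2 := cos_two_nonneg (by positivity : (0:ℝ) ≤ Real.pi / 2) le_rfl hp
  have h1 := sq_norm_tan (w := (c : ℂ) * p) (by rw [r1]; exact k1)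
  have h2 := sq_norm_tan (w := ((Real.pi / 2 : ℝ) : ℂ) * p) (by rw [r3]; exact k2)
  rw [r1, r2] at h1
  rw [r3, r4] at h2
  have hk : Real.cos (2 * (Real.pi / 2 * p.re)) ≤ Real.cos (2 * (c * p.re)) := by
    rw [← Real.cos_abs (2 * (Real.pi / 2 * p.re)), ← Real.cos_abs (2 * (c * p.re))]
    have e1 : |2 * (Real.pi / 2 * p.re)| = 2 * (Real.pi / 2 * |p.re|) := by
      rw [abs_mul, abs_mul, abs_of_pos (by positivity : 0 < Real.pi / 2),
        abs_of_pos (by norm_num : (0:ℝ) < 2)]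
    have e2 : |2 * (c * p.re)| = 2 * (c * |p.re|) := by
      rw [abs_mul, abs_mul, abs_of_pos hc, abs_of_pos (by norm_num : (0:ℝ) < 2)]
    rw [e1, e2]
    apply Real.cos_le_cos_of_nonneg_of_le_pi (by positivity)
    · have : 2 * (Real.pi / 2 * |p.re|) ≤ 2 * (Real.pi / 2 * (1 / 2)) := by gcongr
      linarith
    · gcongr
  have hC : Real.cosh (2 * (c * p.im)) ≤ Real.cosh (2 * (Real.pi / 2 * p.im)) := by
    rw [Real.cosh_le_cosh, abs_mul, abs_mul, abs_mul, abs_mul, abs_of_pos hc,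
      abs_of_pos (by positivity : 0 < Real.pi / 2)]
    gcongr
  have hC1 := Real.cosh_pos (2 * (c * p.im))
  have hC2 := Real.cosh_pos (2 * (Real.pi / 2 * p.im))
  have h3 : ‖Complex.tan ((c : ℂ) * p)‖ ^ 2 ≤ ‖Complex.tan (((Real.pi / 2 : ℝ) : ℂ) * p)‖ ^ 2 := by
    rw [h1, h2, div_le_div_iff₀ (by linarith) (by linarith)]
    have h4 : Real.cosh (2 * (c * p.im)) * Real.cos (2 * (Real.pi / 2 * p.re)) ≤
        Real.cosh (2 * (Real.pi / 2 * p.im)) * Real.cos (2 * (c * p.re)) := by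
      gcongr
    nlinarith
  exact abs_le_of_sq_le_sq' h3 (norm_nonneg _) |>.2

lemma sinh_le_mul_cosh {u : ℝ} (hu : 0 ≤ u) : Real.sinh u ≤ u * Real.cosh u := by
  have h1 : MonotoneOn (fun u : ℝ => u * Real.cosh u - Real.sinh u) (Ici 0) := by
    apply monotoneOn_of_deriv_nonneg (convex_Ici 0)
    · fun_prop
    · fun_prop
    · intro x hx
      rw [interior_Ici] at hx
      have h2 : HasDerivAt (fun u : ℝ => u * Real.cosh u - Real.sinh u)
          ((1 * Real.cosh x + x * Real.sinh x) - Real.cosh x) x :=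
        ((hasDerivAt_id' x).mul (Real.hasDerivAt_cosh x)).sub (Real.hasDerivAt_sinh x)
      rw [h2.deriv]
      have h3 : 0 ≤ Real.sinh x := Real.sinh_nonneg_iff.2 (le_of_lt hx)
      have h4 : 0 ≤ x := le_of_lt hx
      have := mul_nonneg h4 h3
      linarith
  have h2 := h1 (show (0:ℝ) ∈ Ici 0 from self_mem_Ici) (show u ∈ Ici (0:ℝ) from hu) hu
  simp only [zero_mul, Real.sinh_zero, sub_zero] at h2
  linarith

lemma exp_bound {u : ℝ} (hu : 0 ≤ u) : (1 - u) / (1 + u) ≤ Real.exp (-u) ^ 2 := by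
  have h1 := sinh_le_mul_cosh hu
  rw [div_le_iff₀ (by linarith), sq]
  rw [Real.sinh_eq, Real.cosh_eq] at h1
  have h2 : Real.exp u * Real.exp (-u) = 1 := by rw [← Real.exp_add]; simp
  have h3 := Real.exp_pos (-u)
  have h4 : (1 - u) * Real.exp u ≤ (1 + u) * Real.exp (-u) := by linarith
  have h5 := mul_le_mul_of_nonneg_right h4 h3.le
  calc 1 - u = (1 - u) * (Real.exp u * Real.exp (-u)) := by rw [h2, mul_one]
    _ = (1 - u) * Real.exp u * Real.exp (-u) := by ring
    _ ≤ (1 + u) * Real.exp (-u) * Real.exp (-u) := h5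
    _ = _ := by ring

/-- the Green function of the strip is at least `cos (π x) / cosh (π y)` -/
lemma tan_le_exp {p : ℂ} (hp : |p.re| ≤ 1 / 2) :
    ‖Complex.tan (((Real.pi / 2 : ℝ) : ℂ) * p)‖ ≤
      Real.exp (-(Real.cos (Real.pi * p.re) / Real.cosh (Real.pi * p.im))) := by
  have hpi := Real.pi_pos
  have r3 : (((Real.pi / 2 : ℝ) : ℂ) * p).re = Real.pi / 2 * p.re := Complex.re_ofReal_mul _ _
  have r4 : (((Real.pi / 2 : ℝ) : ℂ) * p).im = Real.pi / 2 * p.im := Complex.im_ofReal_mul _ _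
  have k2 := cos_two_nonneg (by positivity : (0:ℝ) ≤ Real.pi / 2) le_rfl hp
  have h2 := sq_norm_tan (w := ((Real.pi / 2 : ℝ) : ℂ) * p) (by rw [r3]; exact k2)
  rw [r3, r4] at h2
  have e1 : 2 * (Real.pi / 2 * p.re) = Real.pi * p.re := by ring
  have e2 : 2 * (Real.pi / 2 * p.im) = Real.pi * p.im := by ring
  rw [e1] at k2
  rw [e1, e2] at h2
  have hC := Real.cosh_pos (Real.pi * p.im)
  have h3 : (Real.cosh (Real.pi * p.im) - Real.cos (Real.pi * p.re)) /
      (Real.cosh (Real.pi * p.im) + Real.cos (Real.pi * p.re)) =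
      (1 - Real.cos (Real.pi * p.re) / Real.cosh (Real.pi * p.im)) /
        (1 + Real.cos (Real.pi * p.re) / Real.cosh (Real.pi * p.im)) := by
    rw [div_eq_div_iff (by linarith) (by positivity)]
    field_simp
  rw [h3] at h2
  have h4 := exp_bound (u := Real.cos (Real.pi * p.re) / Real.cosh (Real.pi * p.im))
    (by positivity)
  rw [← h2] at h4
  exact abs_le_of_sq_le_sq' h4 (Real.exp_pos _).le |>.2

/-- translation of orders -/
lemma order_shift (L : ℂ → ℂ) (b p : ℂ) :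
    analyticOrderNatAt (fun z => L (z + b)) p = analyticOrderNatAt L (p + b) := by
  unfold analyticOrderNatAt
  have h1 : (fun z => L (z + b)) = L ∘ (fun z => z + b) := rfl
  rw [h1, analyticOrderAt_comp_of_deriv_ne_zero (g := fun z : ℂ => z + b) (by fun_prop) (by
    have : HasDerivAt (fun z : ℂ => z + b) 1 p := (hasDerivAt_id' p).add_const b
    rw [this.deriv]
    exact one_ne_zero)]

end Pool.Agent.R516.ZF
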