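import Pool.Agent.R516.ZFB

/-!
Dividing out finitely many zeros in a strip: the resulting function.
-/

set_option autoImplicit false

open Complex Filter Topology Set
open Real (posLog)
open scoped Real

namespace Pool.Agent.R516.ZG

open Pool.Agent.R516.ZF

section
variable {c h : ℝ} {S : Finset ℂ} {f : ℂ → ℂ}

theorem exists_W (hh : 0 < h) (hc : 1 ≤ c) (hch : c * h = Real.pi / 4)
    (hf : Differentiable ℂ f) {A B : ℝ} (hB : 0 ≤ B)
    (hgr : ∀ z : ℂ, |z.re| ≤ h → log⁺ ‖f z‖ ≤ A + B * |z.im|)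
    (hS : ∀ p ∈ S, |p.re| < h) :
    ∃ W : ℂ → ℂ, (∀ z : ℂ, |z.re| ≤ h → AnalyticAt ℂ W z) ∧
      (∃ A' : ℝ, ∀ z : ℂ, |z.re| ≤ h → log⁺ ‖W z‖ ≤ A' + B * |z.im|) ∧
      (∀ z : ℂ, (z.re = h ∨ z.re = -h) → ‖W z‖ = ‖f z‖) ∧
      ‖f 0‖ = ‖W 0‖ * ∏ p ∈ S, ‖Complex.tan (c * p)‖ ^ analyticOrderNatAt f p := by
  have hc0 : 0 < c := by linarith
  obtain ⟨g, hg, hfg⟩ := Pool.Agent.R402.Fact.factor_all hf S
  set m : ℂ → ℕ := fun p => analyticOrderNatAt f p with hm
  have hE : ∀ z : ℂ, |z.re| ≤ h → ∀ p ∈ S, Ef c (z - p) ≠ 0 := fun z hz p hp =>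
    Ef_sub_ne_zero hc0 hch (hS p hp) hz
  have hE2 : ∀ z : ℂ, |z.re| < 2 * h → ∀ p ∈ S, Ef c (z - p) ≠ 0 := by
    intro z hz p hp
    refine Ef_ne_zero hc0 ?_
    rw [abs_mul, abs_of_pos hc0, Complex.sub_re]
    have h1 : |z.re - p.re| ≤ |z.re| + |p.re| := abs_sub _ _
    have h2 := hS p hp
    have hpi := Real.pi_pos
    calc c * |z.re - p.re| ≤ c * (2 * h + h) := by gcongr; linarith
      _ = 3 * (c * h) := by ring
      _ = 3 * (Real.pi / 4) := by rw [hch]
      _ < Real.pi := by linarith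
  have hW : ∀ z : ℂ, |z.re| ≤ h → Wf c S m g z * ∏ p ∈ S, Df c p z ^ m p =
      f z * ∏ p ∈ S, Nf c p z ^ m p := fun z hz => Wf_mul hfg (hE z hz)
  have hopen : IsOpen {z : ℂ | |z.re| < 2 * h} :=
    isOpen_lt (by fun_prop) continuous_const
  have hana : ∀ z : ℂ, |z.re| ≤ h → AnalyticAt ℂ (Wf c S m g) z := by
    intro z hz
    have h1 : DifferentiableOn ℂ (Wf c S m g) {z : ℂ | |z.re| < 2 * h} := fun z hz =>
      (Wf_diffAt hg (hE2 z hz)).differentiableWithinAt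
    exact h1.analyticAt (hopen.mem_nhds (show |z.re| < 2 * h by linarith))
  refine ⟨Wf c S m g, hana, ?_, ?_, ?_⟩
  · -- the norm far away
    obtain ⟨R0, hR0⟩ : ∃ R0 : ℝ, ∀ p ∈ S, |p.im| + 1 ≤ R0 := by
      refine ⟨∑ p ∈ S, (|p.im| + 1), fun p hp => ?_⟩
      exact Finset.single_le_sum (f := fun p : ℂ => |p.im| + 1) (fun p _ => by positivity) hp
    have hfar : ∀ z : ℂ, |z.re| ≤ h → R0 ≤ |z.im| →
        ‖Wf c S m g z‖ ≤ 2 ^ (∑ p ∈ S, m p) * ‖f z‖ := by
      intro z hz hzi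
      have hd : ∀ p ∈ S, 1 ≤ |z.im - p.im| := by
        intro p hp
        have h1 := hR0 p hp
        have h2 := abs_sub_abs_le_abs_sub z.im p.im
        linarith
      have h1 := congrArg norm (hW z hz)
      rw [norm_mul, norm_mul, norm_prod, norm_prod] at h1
      have h2 : ∏ p ∈ S, ‖Nf c p z ^ m p‖ ≤ 2 ^ (∑ p ∈ S, m p) * ∏ p ∈ S, ‖Df c p z ^ m p‖ := by
        rw [← Finset.prod_pow_eq_pow_sum, ← Finset.prod_mul_distrib]
        refine Finset.prod_le_prod (fun p _ => norm_nonneg _) fun p hp => ?_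
        rw [norm_pow, norm_pow, ← mul_pow]
        exact pow_le_pow_left₀ (norm_nonneg _) (Nf_le_two hc p (hd p hp)) _
      have h3 : 0 < ∏ p ∈ S, ‖Df c p z ^ m p‖ := by
        refine Finset.prod_pos fun p hp => ?_
        rw [norm_pos_iff]
        refine pow_ne_zero _ (Df_ne_zero hc0 hch (hS p hp) hz ?_)
        rintro rfl
        have := hd _ hp
        simp at this
        linarith
      refine le_of_mul_le_mul_right ?_ h3
      rw [h1]
      calc ‖f z‖ * ∏ p ∈ S, ‖Nf c p z ^ m p‖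
          ≤ ‖f z‖ * (2 ^ (∑ p ∈ S, m p) * ∏ p ∈ S, ‖Df c p z ^ m p‖) := by gcongr
        _ = _ := by ring
    set K : Set ℂ := Icc (-h) h ×ℂ Icc (-|R0|) |R0| with hK
    have hKc : IsCompact K := isCompact_Icc.reProdIm isCompact_Icc
    have hcont : ContinuousOn (Wf c S m g) K := by
      intro z hz
      refine (hana z ?_).continuousAt.continuousWithinAt
      rw [abs_le]
      exact hz.1
    obtain ⟨M1, hM1⟩ := hKc.exists_bound_of_continuousOn hcont
    refine ⟨max (log⁺ M1) (log⁺ ((2 : ℝ) ^ (∑ p ∈ S, m p)) + A), fun z hz => ?_⟩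
    have hBz : 0 ≤ B * |z.im| := by positivity
    rcases le_or_gt |z.im| |R0| with hi | hi
    · have h1 := hM1 z ⟨abs_le.1 hz, abs_le.1 hi⟩
      have h2 : log⁺ ‖Wf c S m g z‖ ≤ log⁺ M1 := Real.posLog_le_posLog (norm_nonneg _) h1
      have h3 := le_max_left (log⁺ M1) (log⁺ ((2 : ℝ) ^ (∑ p ∈ S, m p)) + A)
      linarith
    · have h1 := hfar z hz ((le_abs_self R0).trans hi.le)
      have h2 : log⁺ ‖Wf c S m g z‖ ≤ log⁺ ((2 : ℝ) ^ (∑ p ∈ S, m p) * ‖f z‖) :=
        Real.posLog_le_posLog (norm_nonneg _) h1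
      have h3 := Real.posLog_mul (x := (2 : ℝ) ^ (∑ p ∈ S, m p)) (y := ‖f z‖)
      have h4 := hgr z hz
      have h5 := le_max_right (log⁺ M1) (log⁺ ((2 : ℝ) ^ (∑ p ∈ S, m p)) + A)
      linarith
  · -- the norm on the edges
    intro z hz
    have hz2 : |z.re| = h := by
      rcases hz with hz | hz <;> rw [hz]
      · exact (abs_of_pos hh)
      · rw [abs_neg]; exact (abs_of_pos hh)
    have hz' : |z.re| ≤ h := hz2.le
    have h1 := congrArg norm (hW z hz')
    rw [norm_mul, norm_mul, norm_prod, norm_prod] at h1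
    have h2 : ∏ p ∈ S, ‖Nf c p z ^ m p‖ = ∏ p ∈ S, ‖Df c p z ^ m p‖ := by
      refine Finset.prod_congr rfl fun p _ => ?_
      rw [norm_pow, norm_pow, Nf_eq_edge hch p hz]
    rw [h2] at h1
    have h3 : ∏ p ∈ S, ‖Df c p z ^ m p‖ ≠ 0 := by
      refine Finset.prod_ne_zero_iff.2 fun p hp => ?_
      rw [norm_ne_zero_iff]
      refine pow_ne_zero _ (Df_ne_zero hc0 hch (hS p hp) hz' ?_)
      rintro rfl
      have := hS _ hp
      linarith
    exact mul_right_cancel₀ h3 h1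
  · -- value at the centre
    have h1 := congrArg norm (hW 0 (by simp [hh.le]))
    rw [norm_mul, norm_mul, norm_prod, norm_prod] at h1
    have hcos : ∀ p ∈ S, Complex.cos (c * p) ≠ 0 := by
      intro p hp h2
      have h3 := sq_norm_cos (c * p)
      rw [h2, norm_zero] at h3
      have h4 : 0 < Real.cos ((c : ℂ) * p).re := by
        rw [Complex.re_ofReal_mul]
        apply Real.cos_pos_of_mem_Ioo
        have h5 : |c * p.re| < Real.pi / 2 := by
          rw [abs_mul, abs_of_pos hc0]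
          have := hS p hp
          have hpi := Real.pi_pos
          calc c * |p.re| ≤ c * h := by gcongr
            _ = Real.pi / 4 := hch
            _ < Real.pi / 2 := by linarith
        rw [abs_lt] at h5
        exact ⟨by linarith [h5.1], h5.2⟩
      nlinarith [sq_nonneg (Real.sinh ((c : ℂ) * p).im)]
    have hN0 : ∀ p ∈ S, ‖Nf c p 0‖ = ‖Complex.cos (c * p)‖ := by
      intro p _
      unfold Nf
      rw [zero_add, ← Complex.norm_conj, ← Complex.cos_conj]
      simp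
    have hD0 : ∀ p ∈ S, ‖Df c p 0‖ = ‖Complex.sin (c * p)‖ := by
      intro p _
      unfold Df
      rw [zero_sub, mul_neg, Complex.sin_neg, norm_neg]
    have e5 : ∏ p ∈ S, ‖Nf c p 0 ^ m p‖ = ∏ p ∈ S, ‖Complex.cos (c * p)‖ ^ m p :=
      Finset.prod_congr rfl fun p hp => by rw [norm_pow, hN0 p hp]
    have e6 : ∏ p ∈ S, ‖Df c p 0 ^ m p‖ = (∏ p ∈ S, ‖Complex.tan (c * p)‖ ^ m p) *
        ∏ p ∈ S, ‖Complex.cos (c * p)‖ ^ m p := by
      rw [← Finset.prod_mul_distrib]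
      refine Finset.prod_congr rfl fun p hp => ?_
      rw [norm_pow, hD0 p hp, ← mul_pow, ← norm_mul, Complex.tan_mul_cos (hcos p hp)]
    rw [e5, e6] at h1
    have h3 : 0 < ∏ p ∈ S, ‖Complex.cos (c * p)‖ ^ m p :=
      Finset.prod_pos fun p hp => pow_pos (norm_pos_iff.2 (hcos p hp)) _
    refine mul_right_cancel₀ h3.ne' ?_
    rw [← h1]
    ring

end

end Pool.Agent.R516.ZG
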