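import Pool.Agent.R516.ZFD

/-!
Comparison of the Green functions of two strips.
-/

set_option autoImplicit false

open Filter Topology Set

namespace Pool.Agent.R516.ZG

open Pool.Agent.R516.ZF

/-- numerator of the squared norm of the tangent -/
noncomputable def nu (a b s : ℝ) : ℝ := Real.cosh (2 * s * b) - Real.cos (2 * s * a)

/-- denominator of the squared norm of the tangent -/
noncomputable def de (a b s : ℝ) : ℝ := Real.cosh (2 * s * b) + Real.cos (2 * s * a)

lemma nu_deriv (a b s : ℝ) : HasDerivAt (nu a b)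
    (2 * b * Real.sinh (2 * s * b) + 2 * a * Real.sin (2 * s * a)) s := by
  unfold nu
  have h1 : HasDerivAt (fun s : ℝ => 2 * s * b) (2 * b) s := by
    have := ((hasDerivAt_id' s).const_mul 2).mul_const b
    simpa using this
  have h2 : HasDerivAt (fun s : ℝ => 2 * s * a) (2 * a) s := by
    have := ((hasDerivAt_id' s).const_mul 2).mul_const a
    simpa using this
  refine (h1.cosh.sub h2.cos).congr_deriv ?_
  ring

lemma de_deriv (a b s : ℝ) : HasDerivAt (de a b)
    (2 * b * Real.sinh (2 * s * b) - 2 * a * Real.sin (2 * s * a)) s := by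
  unfold de
  have h1 : HasDerivAt (fun s : ℝ => 2 * s * b) (2 * b) s := by
    have := ((hasDerivAt_id' s).const_mul 2).mul_const b
    simpa using this
  have h2 : HasDerivAt (fun s : ℝ => 2 * s * a) (2 * a) s := by
    have := ((hasDerivAt_id' s).const_mul 2).mul_const a
    simpa using this
  refine (h1.cosh.add h2.cos).congr_deriv ?_
  ring

lemma key_ineq {X Y : ℝ} (hX : |X| ≤ Real.pi / 2) :
    Y * Real.sinh Y * Real.cos X + X * Real.sin X * Real.cosh Y ≤
      2 * (Real.sinh Y ^ 2 + Real.sin X ^ 2) := by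
  have hpi := Real.pi_pos
  have hpi4 := Real.pi_lt_d2
  have hX' := abs_le.1 hX
  have h1 : 0 ≤ Real.cos X := Real.cos_nonneg_of_mem_Icc ⟨by linarith [hX'.1], hX'.2⟩
  have h2 : Real.cos X ≤ 1 := Real.cos_le_one X
  -- `Y sinh Y ≤ sinh² Y`
  have h3 : Y * Real.sinh Y ≤ Real.sinh Y ^ 2 := by
    rcases le_total 0 Y with h | h
    · have e1 := Real.self_le_sinh_iff.2 h
      have e2 := Real.sinh_nonneg_iff.2 h
      nlinarith
    · have e1 := Real.sinh_le_self_iff.2 h
      have e2 := Real.sinh_nonpos_iff.2 h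
      nlinarith
  have h30 : 0 ≤ Y * Real.sinh Y := by
    rcases le_total 0 Y with h | h
    · exact mul_nonneg h (Real.sinh_nonneg_iff.2 h)
    · exact mul_nonneg_of_nonpos_of_nonpos h (Real.sinh_nonpos_iff.2 h)
  -- `X sin X ≤ π/2 sin² X`
  have h4 : X * Real.sin X ≤ Real.pi / 2 * Real.sin X ^ 2 := by
    rcases le_total 0 X with h | h
    · have e1 := Real.mul_le_sin h hX'.2
      have e2 : X ≤ Real.pi / 2 * Real.sin X := by
        have : Real.pi / 2 * (2 / Real.pi * X) = X := by field_simp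
        have e3 := mul_le_mul_of_nonneg_left e1 (by positivity : 0 ≤ Real.pi / 2)
        linarith
      have e3 : 0 ≤ Real.sin X := Real.sin_nonneg_of_nonneg_of_le_pi h (by linarith [hX'.2])
      nlinarith
    · have e1 := Real.mul_le_sin (x := -X) (by linarith) (by linarith [hX'.1])
      rw [Real.sin_neg] at e1
      have e2 : -X ≤ Real.pi / 2 * (-Real.sin X) := by
        have : Real.pi / 2 * (2 / Real.pi * (-X)) = -X := by field_simp
        have e3 := mul_le_mul_of_nonneg_left e1 (by positivity : 0 ≤ Real.pi / 2)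
        linarith
      have e3 : 0 ≤ -Real.sin X := by
        rw [← Real.sin_neg]
        exact Real.sin_nonneg_of_nonneg_of_le_pi (by linarith) (by linarith [hX'.1])
      nlinarith
  have h5 : Real.cosh Y ≤ 1 + Real.sinh Y ^ 2 / 2 := by
    have e1 := Real.one_le_cosh Y
    have e2 := Real.cosh_sq Y
    nlinarith
  have h6 : Real.sin X ^ 2 ≤ 1 := Real.sin_sq_le_one X
  have hs := sq_nonneg (Real.sinh Y)
  have hs2 := sq_nonneg (Real.sin X)
  have hc := Real.cosh_pos Y
  have h7 : X * Real.sin X * Real.cosh Y ≤ Real.pi / 2 * Real.sin X ^ 2 * (1 + Real.sinh Y ^ 2 / 2) := by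
    calc X * Real.sin X * Real.cosh Y ≤ Real.pi / 2 * Real.sin X ^ 2 * Real.cosh Y := by gcongr
      _ ≤ _ := by gcongr
  have h8 : Y * Real.sinh Y * Real.cos X ≤ Real.sinh Y ^ 2 := by
    calc Y * Real.sinh Y * Real.cos X ≤ Y * Real.sinh Y * 1 := by gcongr
      _ ≤ _ := by rw [mul_one]; exact h3
  have h9 : Real.pi / 2 * Real.sin X ^ 2 * (Real.sinh Y ^ 2 / 2) ≤
      Real.pi / 4 * Real.sinh Y ^ 2 := by
    calc Real.pi / 2 * Real.sin X ^ 2 * (Real.sinh Y ^ 2 / 2)
        ≤ Real.pi / 2 * 1 * (Real.sinh Y ^ 2 / 2) := by gcongr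
      _ = _ := by ring
  nlinarith

lemma cosh_sq_sub (X Y : ℝ) : (Real.cosh Y - Real.cos X) * (Real.cosh Y + Real.cos X) =
    Real.sinh Y ^ 2 + Real.sin X ^ 2 := by
  have e2 := Real.cosh_sq Y
  have e3 := Real.sin_sq_add_cos_sq X
  nlinarith

/-- comparison of the tangents at `w` and `s w` -/
theorem tan_scale {a b lam : ℝ} (hlam : 1 ≤ lam) (ha : |2 * lam * a| ≤ Real.pi / 2)
    (hd : 0 < de a b 1) :
    nu a b lam * de a b 1 ≤ lam ^ 4 * (nu a b 1 * de a b lam) := by
  have hpi := Real.pi_pos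
  have hlam0 : 0 < lam := by linarith
  -- the cosine is nonnegative along the way
  have hXs : ∀ s ∈ Icc 1 lam, |2 * s * a| ≤ Real.pi / 2 := by
    intro s hs
    rw [abs_mul, abs_of_pos (by linarith [hs.1] : 0 < 2 * s)]
    rw [abs_mul, abs_of_pos (by linarith : 0 < 2 * lam)] at ha
    have : 2 * s * |a| ≤ 2 * lam * |a| := by
      have := hs.2
      gcongr
    linarith
  have hk : ∀ s ∈ Icc 1 lam, 0 ≤ Real.cos (2 * s * a) := by
    intro s hs
    have h1 := abs_le.1 (hXs s hs)
    exact Real.cos_nonneg_of_mem_Icc ⟨by linarith [h1.1], h1.2⟩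
  have hde : ∀ s ∈ Icc 1 lam, 0 < de a b s := by
    intro s hs
    unfold de
    have := Real.cosh_pos (2 * s * b)
    linarith [hk s hs]
  have hder : ∀ s ∈ Icc 1 lam, HasDerivAt (fun s => nu a b s / (s ^ 4 * de a b s))
      (((2 * b * Real.sinh (2 * s * b) + 2 * a * Real.sin (2 * s * a)) * (s ^ 4 * de a b s) -
        nu a b s * (4 * s ^ 3 * de a b s + s ^ 4 *
          (2 * b * Real.sinh (2 * s * b) - 2 * a * Real.sin (2 * s * a)))) /
        (s ^ 4 * de a b s) ^ 2) s := by
    intro s hs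
    have hs0 : 0 < s := by linarith [hs.1]
    have h1 := nu_deriv a b s
    have h2 := de_deriv a b s
    have h3 : HasDerivAt (fun s : ℝ => s ^ 4) (4 * s ^ 3) s := by
      simpa using hasDerivAt_pow 4 s
    have h4 := h3.mul h2
    have h5 := h1.div h4 (mul_pos (by positivity) (hde s hs)).ne'
    exact h5
  have hanti : AntitoneOn (fun s => nu a b s / (s ^ 4 * de a b s)) (Icc 1 lam) := by
    apply antitoneOn_of_deriv_nonpos (convex_Icc 1 lam)
    · intro s hs
      exact (hder s hs).continuousAt.continuousWithinAt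
    · intro s hs
      rw [interior_Icc] at hs
      exact (hder s (Ioo_subset_Icc_self hs)).differentiableAt.differentiableWithinAt
    · intro s hs
      rw [interior_Icc] at hs
      have hs' := Ioo_subset_Icc_self hs
      have hs0 : 0 < s := by linarith [hs'.1]
      rw [(hder s hs').deriv]
      apply div_nonpos_of_nonpos_of_nonneg _ (by positivity)
      have h1 := key_ineq (X := 2 * s * a) (Y := 2 * s * b) (hXs s hs')
      have h2 := cosh_sq_sub (2 * s * a) (2 * s * b)
      unfold nu de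
      rw [← h2] at h1
      set C := Real.cosh (2 * s * b)
      set k := Real.cos (2 * s * a)
      set sh := Real.sinh (2 * s * b)
      set sn := Real.sin (2 * s * a)
      have e1 : (2 * b * sh + 2 * a * sn) * (s ^ 4 * (C + k)) - (C - k) * (4 * s ^ 3 * (C + k) +
          s ^ 4 * (2 * b * sh - 2 * a * sn)) =
          2 * s ^ 3 * ((2 * s * b * sh * k + 2 * s * a * sn * C) - 2 * ((C - k) * (C + k))) := by
        ring
      rw [e1]
      have e2 : 2 * s * b * sh * k + 2 * s * a * sn * C - 2 * ((C - k) * (C + k)) ≤ 0 := by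
        linarith
      have e3 : 0 ≤ 2 * s ^ 3 := by positivity
      exact mul_nonpos_of_nonneg_of_nonpos e3 e2
  have h1 := hanti (left_mem_Icc.2 hlam) (right_mem_Icc.2 hlam) hlam
  simp only [one_pow, one_mul] at h1
  have h2 := hde lam (right_mem_Icc.2 hlam)
  rw [div_le_div_iff₀ (by positivity) hd] at h1
  linarith

/-- comparison of the tangents, complex form -/
theorem norm_tan_scale {lam : ℝ} (hlam : 1 ≤ lam) {w : ℂ} (ha : |lam * w.re| ≤ Real.pi / 4) :
    ‖Complex.tan ((lam : ℂ) * w)‖ ≤ lam ^ 2 * ‖Complex.tan w‖ := by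
  have hpi := Real.pi_pos
  have hlam0 : 0 < lam := by linarith
  have ha1 : |2 * lam * w.re| ≤ Real.pi / 2 := by
    rw [mul_assoc, abs_mul, abs_of_pos (by norm_num : (0:ℝ) < 2)]
    linarith
  have ha2 : |2 * w.re| ≤ Real.pi / 2 := by
    refine le_trans ?_ ha1
    rw [abs_mul, abs_mul, abs_of_pos (by norm_num : (0:ℝ) < 2), abs_of_pos (by linarith : 0 < 2 * lam)]
    have := abs_nonneg w.re
    nlinarith
  have c1 : 0 ≤ Real.cos (2 * w.re) := by
    have h1 := abs_le.1 ha2
    exact Real.cos_nonneg_of_mem_Icc ⟨by linarith [h1.1], h1.2⟩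
  have r1 : ((lam : ℂ) * w).re = lam * w.re := Complex.re_ofReal_mul _ _
  have r2 : ((lam : ℂ) * w).im = lam * w.im := Complex.im_ofReal_mul _ _
  have e1 : 2 * (lam * w.re) = 2 * lam * w.re := by ring
  have e2 : 2 * (lam * w.im) = 2 * lam * w.im := by ring
  have c2 : 0 ≤ Real.cos (2 * lam * w.re) := by
    have h1 := abs_le.1 ha1
    exact Real.cos_nonneg_of_mem_Icc ⟨by linarith [h1.1], h1.2⟩
  have h1 := sq_norm_tan (w := (lam : ℂ) * w) (by rw [r1, e1]; exact c2)
  have h2 := sq_norm_tan (w := w) c1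
  rw [r1, r2, e1, e2] at h1
  have hd : 0 < de w.re w.im 1 := by
    unfold de
    rw [mul_one]
    have := Real.cosh_pos (2 * w.im)
    linarith
  have h3 := tan_scale hlam ha1 hd
  unfold nu de at h3
  rw [mul_one] at h3
  have hC1 := Real.cosh_pos (2 * w.im)
  have hC2 := Real.cosh_pos (2 * lam * w.im)
  have h4 : ‖Complex.tan ((lam : ℂ) * w)‖ ^ 2 ≤ (lam ^ 2 * ‖Complex.tan w‖) ^ 2 := by
    rw [mul_pow, h1, h2, mul_div_assoc', div_le_div_iff₀ (by linarith) (by linarith)]
    calc _ ≤ _ := h3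
      _ = _ := by ring
  exact abs_le_of_sq_le_sq' h4 (by positivity) |>.2

/-- the Green function of the smaller strip: zeros inside -/
lemma tan_inner {h : ℝ} (hh : 0 < h) (hh1 : h ≤ 1 / 2) {p : ℂ} (hp : |p.re| ≤ h) :
    ‖Complex.tan (((Real.pi / (4 * h) : ℝ) : ℂ) * p)‖ ≤
      (1 / (2 * h)) ^ 2 * ‖Complex.tan (((Real.pi / 2 : ℝ) : ℂ) * p)‖ := by
  have hpi := Real.pi_pos
  have h1 := norm_tan_scale (lam := 1 / (2 * h)) (w := ((Real.pi / 2 : ℝ) : ℂ) * p)
    (by rw [le_div_iff₀ (by positivity)]; linarith) (by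
      rw [Complex.re_ofReal_mul, abs_mul, abs_mul, abs_of_pos (by positivity : 0 < 1 / (2 * h)),
        abs_of_pos (by positivity : 0 < Real.pi / 2)]
      calc 1 / (2 * h) * (Real.pi / 2 * |p.re|) ≤ 1 / (2 * h) * (Real.pi / 2 * h) := by gcongr
        _ = Real.pi / 4 := by field_simp; norm_num)
  have e1 : ((1 / (2 * h) : ℝ) : ℂ) * (((Real.pi / 2 : ℝ) : ℂ) * p) =
      ((Real.pi / (4 * h) : ℝ) : ℂ) * p := by
    rw [← mul_assoc, ← Complex.ofReal_mul]
    congr 2
    field_simp
    norm_num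
  rw [e1] at h1
  exact h1

/-- zeros near the edges -/
lemma tan_outer {h : ℝ} (hh : 0 < h) {p : ℂ} (hp : h ≤ |p.re|) (hp1 : |p.re| ≤ 1 / 2) :
    1 ≤ (1 / (2 * h)) ^ 2 * ‖Complex.tan (((Real.pi / 2 : ℝ) : ℂ) * p)‖ := by
  have hpi := Real.pi_pos
  have hp0 : 0 < |p.re| := by linarith
  have h1 := norm_tan_scale (lam := 1 / (2 * |p.re|)) (w := ((Real.pi / 2 : ℝ) : ℂ) * p)
    (by rw [le_div_iff₀ (by positivity)]; linarith) (by
      rw [Complex.re_ofReal_mul, abs_mul, abs_mul, abs_of_pos (by positivity : 0 < 1 / (2 * |p.re|)),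
        abs_of_pos (by positivity : 0 < Real.pi / 2)]
      apply le_of_eq
      field_simp
      norm_num)
  set w : ℂ := ((1 / (2 * |p.re|) : ℝ) : ℂ) * (((Real.pi / 2 : ℝ) : ℂ) * p) with hw
  have hwre : |2 * w.re| = Real.pi / 2 := by
    rw [hw, Complex.re_ofReal_mul, Complex.re_ofReal_mul, abs_mul, abs_mul, abs_mul,
      abs_of_pos (by norm_num : (0:ℝ) < 2), abs_of_pos (by positivity : 0 < 1 / (2 * |p.re|)),
      abs_of_pos (by positivity : 0 < Real.pi / 2)]
    field_simp
  have hcos : Real.cos (2 * w.re) = 0 := by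
    rw [← Real.cos_abs, hwre, Real.cos_pi_div_two]
  have h2 := sq_norm_tan (w := w) hcos.ge
  rw [hcos, sub_zero, add_zero, div_self (Real.cosh_pos _).ne'] at h2
  have h3 : ‖Complex.tan w‖ = 1 := by
    have := norm_nonneg (Complex.tan w)
    nlinarith [sq_nonneg (‖Complex.tan w‖ - 1)]
  rw [h3] at h1
  refine h1.trans ?_
  have h4 : 1 / (2 * |p.re|) ≤ 1 / (2 * h) := by gcongr
  gcongr

end Pool.Agent.R516.ZG
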