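import Pool.Agent.R516.ZGA
import Pool.Agent.R516.ZGB
import Pool.Agent.R516.ZGC

/-!
Weak subconvexity with the zeros taken into account.
-/

set_option autoImplicit false

open MeasureTheory Filter Topology Set Real

namespace Pool.Agent.R516.ZG

open Pool.Agent.R402.Core Pool.Agent.R402.Fin

theorem uniform_zeros {d Cn θ : ℝ} (A : ℝ) (hd : 0 ≤ d) (hCn : 1 ≤ Cn) (hθ : θ < 1 / 2) :
    ∃ B : ℝ, 0 ≤ B ∧ ∀ (Q0 : ℝ) (c : ℕ → ℂ) (F : ℂ → ℂ), Hyp d Cn θ A Q0 c F →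
      ∀ S : Finset ℂ, (∀ p ∈ S, |p.re| ≤ 1 / 2) →
      ‖F (1 / 2)‖ ≤ B * (Q0 ^ (1 / 4 : ℝ) * Real.log (Q0 + 16) ^ (-(1 / 2) : ℝ) *
        Real.log (Real.log (Q0 + 16)) ^ 2) *
        Real.exp (8 * (Real.log (Real.log (Q0 + 16)) / Real.log (Q0 + 16)) *
          ∑ p ∈ S, (analyticOrderNatAt (fun z => F (1 / 2 + z)) p : ℝ)) *
        ∏ p ∈ S, ‖Complex.tan (((Real.pi / 2 : ℝ) : ℂ) * p)‖ ^
          analyticOrderNatAt (fun z => F (1 / 2 + z)) p := by
  set δ : ℝ := (1 / 2 - θ) / 2 with hδdef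
  have hδ : 0 < δ := by linarith
  have hδθ : θ + 2 * δ ≤ 1 / 2 := by rw [hδdef]; linarith
  obtain ⟨l0, hl0⟩ := eventually_atTop.1 (par_eventually hδ)
  set C0 : ℝ := |l0| + Real.log 17 with hC0
  have hlog17 : 0 < Real.log 17 := Real.log_pos (by norm_num)
  have hC0p : 0 ≤ C0 := by positivity
  refine ⟨Real.exp (K0 d Cn δ A + C0 / 2) * (Real.log (1 + C0) + 1) ^ 2, by positivity, ?_⟩
  intro Q0 c F H S hS
  have hQ := H.one_le
  have hQ0 : 0 < Q0 := by linarith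
  have hlQ : 0 ≤ Real.log Q0 := Real.log_nonneg hQ
  set l : ℝ := Real.log Q0 + C0 with hl
  have hll0 : l0 ≤ l := by
    have := le_abs_self l0
    rw [hl, hC0]; linarith
  have p := hl0 l hll0
  set y : ℝ := Real.log l - 4 * Real.log (Real.log l) with hy
  have hlpos : 0 < l := by linarith [p.l4]
  have hy2 := p.y2
  have hy0 := p.y0
  have hLpos : 0 < Real.log l := by linarith [p.ll]
  -- dividing out the zeros
  set h : ℝ := 1 / 2 - y / l with hh
  have hyl : 0 ≤ y / l := by positivity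
  have hh0 : 1 / 4 ≤ h := by linarith
  have hhp : 0 < h := by linarith
  have hh1 : h ≤ 1 / 2 := by linarith
  have hpi := Real.pi_gt_three
  have hc1 : 1 ≤ Real.pi / (4 * h) := by
    rw [le_div_iff₀ (by positivity)]
    linarith
  have hch : Real.pi / (4 * h) * h = Real.pi / 4 := by
    field_simp
  have hf : Differentiable ℂ (fun z => F (1 / 2 + z)) := H.diff.comp (by fun_prop)
  obtain ⟨A1, B1, hB1, hgr⟩ := H.growth
  set S1 : Finset ℂ := S.filter (fun p => |p.re| < h) with hS1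
  obtain ⟨W, hWa, ⟨A', hWb⟩, hWe, hW0⟩ := exists_W (S := S1) hhp hc1 hch hf hB1
    (fun z hz => by
      rw [abs_le] at hz
      have h1 := hgr (1 / 2 + z) (by
        rw [Complex.add_re]
        norm_num
        linarith) (by
        rw [Complex.add_re]
        norm_num
        linarith)
      have h2 : (1 / 2 + z).im = z.im := by simp
      rw [h2] at h1
      exact h1)
    (fun p hp => (Finset.mem_filter.1 hp).2)
  have h1 := core_bound_W H hd hCn hδ hδθ p (by linarith : Real.log Q0 ≤ l) hWa hB1 hWb hWe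
  -- the exponent
  have h2 : K0 d Cn δ A + (1 / 2 - y / l) / 2 * Real.log Q0 ≤
      (K0 d Cn δ A + C0 / 2) + (1 / 4 * Real.log Q0 - y / 2) := by
    have e1 : Real.log Q0 = l - C0 := by rw [hl]; ring
    have e2 : y / l * l = y := by field_simp
    have e3 : y / l * Real.log Q0 = y - y / l * C0 := by rw [e1, mul_sub, e2]
    have e4 : y / l * C0 ≤ 1 * C0 := mul_le_mul_of_nonneg_right (by linarith) hC0p
    have e5 : (1 / 2 - y / l) / 2 * Real.log Q0 = 1 / 4 * Real.log Q0 - (y / l * Real.log Q0) / 2 := by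
      ring
    rw [e5, e3]
    linarith
  have h3 : Real.exp (1 / 4 * Real.log Q0 - y / 2) =
      Q0 ^ (1 / 4 : ℝ) * (l ^ (-(1 / 2) : ℝ) * Real.log l ^ 2) := by
    rw [Real.exp_sub, p.ey, Real.rpow_def_of_pos hQ0, Real.rpow_neg hlpos.le,
      ← Real.sqrt_eq_rpow, mul_comm (Real.log Q0)]
    have : √l ≠ 0 := (Real.sqrt_pos.2 hlpos).ne'
    field_simp
  have h4 : ‖W 0‖ ≤ Real.exp (K0 d Cn δ A + C0 / 2) *
      (Q0 ^ (1 / 4 : ℝ) * (l ^ (-(1 / 2) : ℝ) * Real.log l ^ 2)) := by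
    rw [← h3, ← Real.exp_add]
    exact h1.trans (Real.exp_le_exp.2 h2)
  -- comparison of the logarithms
  set m : ℝ := Real.log (Q0 + 16) with hm
  have hm1 : Real.log 17 ≤ m := Real.log_le_log (by norm_num) (by linarith)
  have hln17 : Real.exp 1 ≤ Real.log 17 := by
    have e1 : Real.log 16 ≤ Real.log 17 := Real.log_le_log (by norm_num) (by norm_num)
    have e2 : Real.log 16 = 4 * Real.log 2 := by
      rw [show (16:ℝ) = 2 ^ 4 by norm_num, Real.log_pow]; norm_num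
    have e3 := Real.log_two_gt_d9
    have e4 := Real.exp_one_lt_d9
    linarith
  have hm0 : 0 < m := by linarith
  have hexp1 := Real.add_one_le_exp (1:ℝ)
  have hlm : 1 ≤ Real.log m := by
    rw [Real.le_log_iff_exp_le hm0]; linarith
  have hml : m ≤ l := by
    have e1 : m ≤ Real.log (Q0 * 17) := Real.log_le_log (by linarith) (by linarith)
    rw [Real.log_mul hQ0.ne' (by norm_num)] at e1
    rw [hl, hC0]
    linarith [abs_nonneg l0]
  have hlm2 : l ≤ (1 + C0) * m := by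
    have e1 : Real.log Q0 ≤ m := Real.log_le_log hQ0 (by linarith)
    have e2 : C0 ≤ C0 * m := by nlinarith
    rw [hl]; linarith
  have h5 : l ^ (-(1 / 2) : ℝ) ≤ m ^ (-(1 / 2) : ℝ) :=
    Real.rpow_le_rpow_of_nonpos hm0 hml (by norm_num)
  have hlogC : 0 ≤ Real.log (1 + C0) := Real.log_nonneg (by linarith)
  have h6 : Real.log l ≤ (Real.log (1 + C0) + 1) * Real.log m := by
    have e1 := Real.log_le_log hlpos hlm2
    rw [Real.log_mul (by linarith) hm0.ne'] at e1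
    nlinarith
  have h7 : Real.log l ^ 2 ≤ (Real.log (1 + C0) + 1) ^ 2 * Real.log m ^ 2 := by
    rw [← mul_pow]
    exact pow_le_pow_left₀ hLpos.le h6 2
  have hQr : 0 ≤ Q0 ^ (1 / 4 : ℝ) := Real.rpow_nonneg hQ0.le _
  have hmr : 0 ≤ m ^ (-(1 / 2) : ℝ) := Real.rpow_nonneg hm0.le _
  have hWfin : ‖W 0‖ ≤ Real.exp (K0 d Cn δ A + C0 / 2) * (Real.log (1 + C0) + 1) ^ 2 *
      (Q0 ^ (1 / 4 : ℝ) * m ^ (-(1 / 2) : ℝ) * Real.log m ^ 2) := by
    refine h4.trans ?_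
    calc Real.exp (K0 d Cn δ A + C0 / 2) *
          (Q0 ^ (1 / 4 : ℝ) * (l ^ (-(1 / 2) : ℝ) * Real.log l ^ 2)) ≤
        Real.exp (K0 d Cn δ A + C0 / 2) * (Q0 ^ (1 / 4 : ℝ) * (m ^ (-(1 / 2) : ℝ) *
          ((Real.log (1 + C0) + 1) ^ 2 * Real.log m ^ 2))) := by gcongr
      _ = _ := by ring
  -- the product
  set ord : ℂ → ℕ := fun p => analyticOrderNatAt (fun z => F (1 / 2 + z)) p with hord
  have hprod : ∏ p ∈ S1, ‖Complex.tan (((Real.pi / (4 * h) : ℝ) : ℂ) * p)‖ ^ ord p ≤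
      ∏ p ∈ S, ((1 / (2 * h)) ^ 2 * ‖Complex.tan (((Real.pi / 2 : ℝ) : ℂ) * p)‖) ^ ord p := by
    rw [hS1, Finset.prod_filter]
    refine Finset.prod_le_prod (fun p _ => ?_) fun p hp => ?_
    · split_ifs
      · positivity
      · norm_num
    · split_ifs with hp1
      · exact pow_le_pow_left₀ (norm_nonneg _) (tan_inner hhp hh1 hp1.le) _
      · exact one_le_pow₀ (tan_outer hhp (not_lt.1 hp1) (hS p hp))
  have hsplit : ∏ p ∈ S, ((1 / (2 * h)) ^ 2 * ‖Complex.tan (((Real.pi / 2 : ℝ) : ℂ) * p)‖) ^ ord p =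
      ((1 / (2 * h)) ^ 2) ^ (∑ p ∈ S, ord p) *
        ∏ p ∈ S, ‖Complex.tan (((Real.pi / 2 : ℝ) : ℂ) * p)‖ ^ ord p := by
    rw [← Finset.prod_pow_eq_pow_sum, ← Finset.prod_mul_distrib]
    exact Finset.prod_congr rfl fun p _ => mul_pow _ _ _
  have hyl2 : y / l ≤ Real.log m / m := by
    have e1 : y / l ≤ Real.log l / l := by
      have : 0 ≤ Real.log (Real.log l) := Real.log_nonneg p.ll
      have e2 : y ≤ Real.log l := by rw [hy]; linarith
      gcongr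
    refine e1.trans ?_
    have e3 : Real.exp 1 ≤ m := hln17.trans hm1
    exact Real.log_div_self_antitoneOn (show Real.exp 1 ≤ m from e3)
      (show Real.exp 1 ≤ l from e3.trans hml) hml
  have hlam : (1 / (2 * h)) ^ 2 ≤ Real.exp (8 * (Real.log m / m)) := by
    have e1 : 1 / (2 * h) ≤ Real.exp (4 * (y / l)) := by
      have e2 := Real.add_one_le_exp (4 * (y / l))
      refine le_trans ?_ e2
      rw [div_le_iff₀ (by positivity)]
      have e3 : 2 * h = 1 - 2 * (y / l) := by rw [hh]; ring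
      rw [e3]
      nlinarith
    calc (1 / (2 * h)) ^ 2 ≤ Real.exp (4 * (y / l)) ^ 2 := by gcongr
      _ = Real.exp (8 * (y / l)) := by
        rw [← Real.exp_nat_mul]
        congr 1
        push_cast
        ring
      _ ≤ _ := by
        apply Real.exp_le_exp.2
        linarith
  have hpow : ((1 / (2 * h)) ^ 2) ^ (∑ p ∈ S, ord p) ≤
      Real.exp (8 * (Real.log m / m) * ∑ p ∈ S, (ord p : ℝ)) := by
    calc ((1 / (2 * h)) ^ 2) ^ (∑ p ∈ S, ord p)
        ≤ (Real.exp (8 * (Real.log m / m))) ^ (∑ p ∈ S, ord p) := by gcongr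
      _ = _ := by
        rw [← Real.exp_nat_mul]
        congr 1
        push_cast
        ring
  have hF : ‖F (1 / 2)‖ = ‖W 0‖ *
      ∏ p ∈ S1, ‖Complex.tan (((Real.pi / (4 * h) : ℝ) : ℂ) * p)‖ ^ ord p := by
    rw [← hW0]
    simp
  rw [hF]
  have hT0 : 0 ≤ ∏ p ∈ S, ‖Complex.tan (((Real.pi / 2 : ℝ) : ℂ) * p)‖ ^ ord p :=
    Finset.prod_nonneg fun p _ => by positivity
  have hB0 : 0 ≤ Real.exp (K0 d Cn δ A + C0 / 2) * (Real.log (1 + C0) + 1) ^ 2 *
      (Q0 ^ (1 / 4 : ℝ) * m ^ (-(1 / 2) : ℝ) * Real.log m ^ 2) := by positivity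
  calc ‖W 0‖ * ∏ p ∈ S1, ‖Complex.tan (((Real.pi / (4 * h) : ℝ) : ℂ) * p)‖ ^ ord p
      ≤ (Real.exp (K0 d Cn δ A + C0 / 2) * (Real.log (1 + C0) + 1) ^ 2 *
        (Q0 ^ (1 / 4 : ℝ) * m ^ (-(1 / 2) : ℝ) * Real.log m ^ 2)) *
        (((1 / (2 * h)) ^ 2) ^ (∑ p ∈ S, ord p) *
        ∏ p ∈ S, ‖Complex.tan (((Real.pi / 2 : ℝ) : ℂ) * p)‖ ^ ord p) := by
        refine mul_le_mul hWfin (hprod.trans hsplit.le)
          (Finset.prod_nonneg fun p _ => by positivity) hB0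
    _ ≤ (Real.exp (K0 d Cn δ A + C0 / 2) * (Real.log (1 + C0) + 1) ^ 2 *
        (Q0 ^ (1 / 4 : ℝ) * m ^ (-(1 / 2) : ℝ) * Real.log m ^ 2)) *
        (Real.exp (8 * (Real.log m / m) * ∑ p ∈ S, (ord p : ℝ)) *
        ∏ p ∈ S, ‖Complex.tan (((Real.pi / 2 : ℝ) : ℂ) * p)‖ ^ ord p) := by gcongr
    _ = _ := by ring

end Pool.Agent.R516.ZG
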