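import Mathlib
import Pool.Agent.Results.MP_cf4097_nt.LogPowersFromZeros

/-!
Weak subconvexity with zeros, in terms of an upper bound for the analytic conductor.
-/

set_option autoImplicit false

namespace Pool.Agent.R516.ZH

open Pool.Agent.Results.MP_cf4097_nt.ZeroForm
open Pool.Agent.Results.MP_cf4097_nt.LogPowersFromZeros

/-- `weak` is monotone -/
lemma weak_mono {a b : ℝ} (ha : 1 ≤ a) (hab : a ≤ b) : weak a ≤ weak b := by
  have hexp := Real.exp_one_lt_d9
  have he2 : Real.exp 2 ≤ 17 := by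
    have : Real.exp (2 : ℝ) = Real.exp 1 ^ 2 := by
      rw [← Real.exp_nat_mul]; norm_num
    rw [this]
    have h1 := Real.exp_pos (1 : ℝ)
    nlinarith
  have hla : Real.exp 1 ≤ Real.log (a + 16) :=
    exp_one_le_log17.trans (Real.log_le_log (by norm_num) (by linarith))
  have hlb : Real.log (a + 16) ≤ Real.log (b + 16) := Real.log_le_log (by linarith) (by linarith)
  have hpos := Real.exp_pos (1 : ℝ)
  set La := Real.log (a + 16)
  set Lb := Real.log (b + 16)
  have hLa : 0 < La := by linarith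
  have hLb : 0 < Lb := by linarith
  have hlla : 1 ≤ Real.log La := by rw [Real.le_log_iff_exp_le hLa]; exact hla
  have hllb : Real.log La ≤ Real.log Lb := Real.log_le_log hLa hlb
  have h1 : Real.log La ^ 2 ≤ Real.log Lb ^ 2 := by
    have : 0 ≤ Real.log La := by linarith
    gcongr
  -- the main factor
  have h2 : Lb / Real.sqrt (b + 16) ≤ La / Real.sqrt (a + 16) :=
    Real.log_div_sqrt_antitoneOn (show Real.exp 2 ≤ a + 16 by linarith)
      (show Real.exp 2 ≤ b + 16 by linarith) (by linarith)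
  have hsa : 0 < Real.sqrt (a + 16) := Real.sqrt_pos.2 (by linarith)
  have hsb : 0 < Real.sqrt (b + 16) := Real.sqrt_pos.2 (by linarith)
  rw [div_le_div_iff₀ hsb hsa] at h2
  -- `Lb √(a+16) ≤ La √(b+16)`, so `Lb √a ≤ La √b`
  have h3 : Lb * Real.sqrt a ≤ La * Real.sqrt b := by
    have h4 : Real.sqrt a * Real.sqrt (b + 16) ≤ Real.sqrt b * Real.sqrt (a + 16) := by
      rw [← Real.sqrt_mul (by linarith), ← Real.sqrt_mul (by linarith)]
      apply Real.sqrt_le_sqrt
      nlinarith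
    have h5 : (Lb * Real.sqrt a) * Real.sqrt (b + 16) ≤ (La * Real.sqrt b) * Real.sqrt (b + 16) := by
      calc (Lb * Real.sqrt a) * Real.sqrt (b + 16) = Lb * (Real.sqrt a * Real.sqrt (b + 16)) := by ring
        _ ≤ Lb * (Real.sqrt b * Real.sqrt (a + 16)) := by gcongr
        _ = (Lb * Real.sqrt (a + 16)) * Real.sqrt b := by ring
        _ ≤ (La * Real.sqrt (b + 16)) * Real.sqrt b := by gcongr
        _ = _ := by ring
    exact le_of_mul_le_mul_right h5 hsb
  have h6 : a ^ (1 / 4 : ℝ) / Real.sqrt La ≤ b ^ (1 / 4 : ℝ) / Real.sqrt Lb := by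
    rw [div_le_div_iff₀ (Real.sqrt_pos.2 hLa) (Real.sqrt_pos.2 hLb)]
    have e1 : ∀ z : ℝ, 0 ≤ z → z ^ (1 / 4 : ℝ) = Real.sqrt (Real.sqrt z) := by
      intro z hz
      rw [Real.sqrt_eq_rpow, Real.sqrt_eq_rpow, ← Real.rpow_mul hz]
      norm_num
    rw [e1 a (by linarith), e1 b (by linarith), ← Real.sqrt_mul (Real.sqrt_nonneg _),
      ← Real.sqrt_mul (Real.sqrt_nonneg _)]
    apply Real.sqrt_le_sqrt
    linarith
  unfold weak
  have e2 : ∀ z L : ℝ, z ^ (1 / 4 : ℝ) * Real.log L ^ 2 / Real.sqrt L =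
      z ^ (1 / 4 : ℝ) / Real.sqrt L * Real.log L ^ 2 := fun z L => by ring
  rw [e2, e2]
  have : 0 ≤ b ^ (1 / 4 : ℝ) / Real.sqrt Lb := by
    have : 0 ≤ b := by linarith
    positivity
  gcongr

/-- the size of the bound in terms of `x` when the conductor is at most `C x ^ m` -/
noncomputable def size (m : ℕ) (x : ℝ) : ℝ :=
  x ^ (m / 4 : ℝ) * Real.log (Real.log (x + 16)) ^ 2 / Real.sqrt (Real.log (x + 16))

lemma weak_le_size {C x Q : ℝ} {m : ℕ} (hC : 1 ≤ C) (hx : 1 ≤ x) (hm : 1 ≤ m) (hQ1 : 1 ≤ Q)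
    (hQ : Q ≤ C * x ^ m) :
    weak Q ≤ C ^ (1 / 4 : ℝ) * (1 + Real.log (m + Real.log C)) ^ 2 * size m x := by
  have hpos := Real.exp_pos (1 : ℝ)
  have hexp1 := Real.add_one_le_exp (1 : ℝ)
  have hm1 : (1 : ℝ) ≤ m := by exact_mod_cast hm
  have hlC : 0 ≤ Real.log C := Real.log_nonneg hC
  have hxm : x ≤ x ^ m := by
    calc x = x ^ 1 := (pow_one x).symm
      _ ≤ x ^ m := pow_le_pow_right₀ hx hm
  have hCx : 1 ≤ C * x ^ m := hQ1.trans hQ
  refine (weak_mono hQ1 hQ).trans ?_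
  unfold weak size
  set L := Real.log (x + 16) with hL
  have hl17 : Real.exp 1 ≤ L :=
    exp_one_le_log17.trans (Real.log_le_log (by norm_num) (by linarith))
  have hL0 : 0 < L := by linarith
  have hL1 : 1 ≤ L := by linarith
  have hLL : 1 ≤ Real.log L := by rw [Real.le_log_iff_exp_le hL0]; exact hl17
  set M := Real.log (C * x ^ m + 16) with hM
  have hxC : x ≤ C * x ^ m := by
    calc x ≤ x ^ m := hxm
      _ = 1 * x ^ m := (one_mul _).symm
      _ ≤ C * x ^ m := by gcongr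
  have hLM : L ≤ M := Real.log_le_log (by linarith) (by linarith)
  have hM0 : 0 < M := by linarith
  have hM1 : M ≤ (m + Real.log C) * L := by
    have e1 : C * x ^ m + 16 ≤ C * (x + 16) ^ m := by
      have e2 : x ^ m + 16 ≤ (x + 16) ^ m := by
        obtain ⟨k, rfl⟩ : ∃ k, m = k + 1 := ⟨m - 1, by omega⟩
        have e3 : x ^ k ≤ (x + 16) ^ k := by gcongr; linarith
        have e4 : 1 ≤ (x + 16) ^ k := one_le_pow₀ (by linarith)
        rw [pow_succ, pow_succ]
        nlinarith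
      have e5 : (0:ℝ) ≤ 16 := by norm_num
      nlinarith
    have e6 : M ≤ Real.log (C * (x + 16) ^ m) := Real.log_le_log (by linarith) e1
    rw [Real.log_mul (by linarith) (by positivity), Real.log_pow] at e6
    have e7 : Real.log C ≤ Real.log C * L := by nlinarith
    linarith
  have hLM2 : Real.log M ≤ (1 + Real.log (m + Real.log C)) * Real.log L := by
    have e1 := Real.log_le_log hM0 hM1
    rw [Real.log_mul (by linarith) hL0.ne'] at e1
    have e2 : 0 ≤ Real.log (m + Real.log C) := Real.log_nonneg (by linarith)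
    nlinarith
  have hlM : 0 ≤ Real.log M := by
    have := Real.log_le_log hL0 hLM
    linarith
  have e3 : Real.log M ^ 2 ≤ ((1 + Real.log (m + Real.log C)) * Real.log L) ^ 2 := by gcongr
  have e4 : (C * x ^ m) ^ (1 / 4 : ℝ) = C ^ (1 / 4 : ℝ) * x ^ (m / 4 : ℝ) := by
    rw [Real.mul_rpow (by linarith) (by positivity), ← Real.rpow_natCast x m,
      ← Real.rpow_mul (by linarith)]
    congr 2
    ring
  rw [e4]
  have hCr : 0 ≤ C ^ (1 / 4 : ℝ) := Real.rpow_nonneg (by linarith) _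
  have hxr : 0 ≤ x ^ (m / 4 : ℝ) := Real.rpow_nonneg (by linarith) _
  calc C ^ (1 / 4 : ℝ) * x ^ (m / 4 : ℝ) * Real.log M ^ 2 / Real.sqrt M
      ≤ C ^ (1 / 4 : ℝ) * x ^ (m / 4 : ℝ) *
        ((1 + Real.log (m + Real.log C)) * Real.log L) ^ 2 / Real.sqrt L := by gcongr
    _ = _ := by ring

/-- weak subconvexity with zeros, the conductor being at most `C x ^ m` -/
theorem drop (n m : ℕ) (hm : 1 ≤ m) (θ A C α : ℝ) (hθ : θ < 1 / 2) (hC : 1 ≤ C)
    (hα : 0 < α) (hα2 : α ≤ 1 / 2) :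
    ∃ B : ℝ, ∀ D : StdL n, D.IsStandard θ A → ∀ t x : ℝ, 1 ≤ x →
      D.cond (1 / 2 + t * Complex.I) ≤ C * x ^ m → ∀ S : Finset ℂ,
        (∀ ρ ∈ S, α ≤ ρ.re ∧ ρ.re ≤ 1 - α ∧ |ρ.im - t| ≤ 1) →
        ‖D.L (1 / 2 + t * Complex.I)‖ ≤ B * size m x *
          Real.exp (-(α / 7 * ∑ ρ ∈ S, (analyticOrderNatAt D.L ρ : ℝ))) := by
  obtain ⟨B, hB⟩ := (Pool.Agent.Results.MP_cf4097_nt.LogPowersFromZeros.result n θ A hθ).2 α hα hα2
  refine ⟨|B| * (C ^ (1 / 4 : ℝ) * (1 + Real.log (m + Real.log C)) ^ 2),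
    fun D H t x hx hQ S hS => ?_⟩
  have h1 := (hB D H t S hS).1
  have hQ1 := one_le_cond H.q_pos (1 / 2 + t * Complex.I)
  have h2 := weak_le_size hC hx hm hQ1 hQ
  have h3 : 0 ≤ weak (D.cond (1 / 2 + t * Complex.I)) := by
    unfold weak
    have : 0 ≤ D.cond (1 / 2 + t * Complex.I) := by linarith
    positivity
  refine h1.trans ?_
  have h4 := le_abs_self B
  calc B * weak (D.cond (1 / 2 + t * Complex.I)) *
        Real.exp (-(α / 7 * ∑ ρ ∈ S, (analyticOrderNatAt D.L ρ : ℝ)))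
      ≤ |B| * (C ^ (1 / 4 : ℝ) * (1 + Real.log (m + Real.log C)) ^ 2 * size m x) *
        Real.exp (-(α / 7 * ∑ ρ ∈ S, (analyticOrderNatAt D.L ρ : ℝ))) := by gcongr
    _ = _ := by ring

end Pool.Agent.R516.ZH
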