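import Mathlib
import Pool.Agent.Results.MP_cf4097_nt.ZeroForm

/-!
The central value and the zeros, in terms of an upper bound for the conductor.
-/

set_option autoImplicit false

namespace Pool.Agent.R516.ZI

open Pool.Agent.Results.MP_cf4097_nt.ZeroForm

theorem crit (n : ℕ) (θ A C ε : ℝ) (hθ : θ < 1 / 2) (hC : 1 ≤ C) (hε : 0 < ε) :
    ∃ K : ℝ, ∀ D : StdL n, D.IsStandard θ A → ∀ X : ℝ, 1 ≤ X → D.cond (1 / 2) ≤ C * X ^ 2 →
      ∀ S : Finset ℂ, (∀ ρ ∈ S, 0 ≤ ρ.re ∧ ρ.re ≤ 1) →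
        ‖D.L (1 / 2)‖ ≤ K * X ^ (1 / 2 + ε) *
          ∏ ρ ∈ S, ‖Complex.tan (Real.pi / 2 * (ρ - 1 / 2))‖ ^ analyticOrderNatAt D.L ρ ∧
        ∀ β : ℝ, (1 / 2 - β) * Real.log X ≤
            -∑ ρ ∈ S, analyticOrderNatAt D.L ρ *
              Real.log ‖Complex.tan (Real.pi / 2 * (ρ - 1 / 2))‖ ∨
          (1 / 2 - β) * Real.log X ≤ ∑ ρ ∈ S, analyticOrderNatAt D.L ρ *
            (Real.sin (Real.pi * ρ.re) / Real.cosh (Real.pi * ρ.im)) →
          ‖D.L (1 / 2)‖ ≤ K * X ^ (β + ε) := by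
  obtain ⟨K, hK⟩ := Pool.Agent.Results.MP_cf4097_nt.ZeroForm.result n θ A (ε / 2) hθ (by linarith)
  refine ⟨|K| * C ^ (1 / 4 + ε / 2), fun D H X hX hQX S hS => ?_⟩
  obtain ⟨h1, h2, -⟩ := hK D H 0 S hS
  simp only [Complex.ofReal_zero, zero_mul, add_zero, sub_zero] at h1 h2
  have hQ1 : 1 ≤ D.cond (1 / 2) := one_le_cond H.q_pos _
  have hX0 : 0 < X := by linarith
  have hpow : K * D.cond (1 / 2) ^ (1 / 4 + ε / 2) ≤ |K| * C ^ (1 / 4 + ε / 2) * X ^ (1 / 2 + ε) := by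
    have e1 : D.cond (1 / 2) ^ (1 / 4 + ε / 2) ≤ (C * X ^ 2) ^ (1 / 4 + ε / 2) :=
      Real.rpow_le_rpow (by linarith) hQX (by linarith)
    have e2 : (C * X ^ 2) ^ (1 / 4 + ε / 2) = C ^ (1 / 4 + ε / 2) * X ^ (1 / 2 + ε) := by
      rw [Real.mul_rpow (by linarith) (by positivity), ← Real.rpow_natCast X 2,
        ← Real.rpow_mul hX0.le]
      congr 2
      push_cast
      ring
    rw [e2] at e1
    have e3 := le_abs_self K
    have e4 : 0 ≤ D.cond (1 / 2) ^ (1 / 4 + ε / 2) := Real.rpow_nonneg (by linarith) _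
    calc K * D.cond (1 / 2) ^ (1 / 4 + ε / 2) ≤ |K| * D.cond (1 / 2) ^ (1 / 4 + ε / 2) := by gcongr
      _ ≤ |K| * (C ^ (1 / 4 + ε / 2) * X ^ (1 / 2 + ε)) := by gcongr
      _ = _ := by ring
  set M : ℝ := |K| * C ^ (1 / 4 + ε / 2) with hM
  have hM0 : 0 ≤ M := by positivity
  have first : ‖D.L (1 / 2)‖ ≤ M * X ^ (1 / 2 + ε) *
      ∏ ρ ∈ S, ‖Complex.tan (Real.pi / 2 * (ρ - 1 / 2))‖ ^ analyticOrderNatAt D.L ρ := by
    refine h1.trans ?_
    have : 0 ≤ ∏ ρ ∈ S, ‖Complex.tan (Real.pi / 2 * (ρ - 1 / 2))‖ ^ analyticOrderNatAt D.L ρ :=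
      Finset.prod_nonneg fun _ _ => by positivity
    gcongr
  refine ⟨first, fun β hβ => ?_⟩
  have hfin : ∀ E : ℝ, (1 / 2 - β) * Real.log X ≤ E →
      ‖D.L (1 / 2)‖ ≤ M * X ^ (1 / 2 + ε) * Real.exp (-E) → ‖D.L (1 / 2)‖ ≤ M * X ^ (β + ε) := by
    intro E hE hb
    refine hb.trans ?_
    have e1 : Real.exp (-E) ≤ X ^ (β - 1 / 2) := by
      rw [Real.rpow_def_of_pos hX0]
      apply Real.exp_le_exp.2
      linarith
    calc M * X ^ (1 / 2 + ε) * Real.exp (-E) ≤ M * X ^ (1 / 2 + ε) * X ^ (β - 1 / 2) := by gcongr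
      _ = M * X ^ (β + ε) := by
        rw [mul_assoc, ← Real.rpow_add hX0]
        congr 2
        ring
  rcases hβ with hβ | hβ
  · by_cases hz : ∃ ρ ∈ S, ‖Complex.tan (Real.pi / 2 * (ρ - 1 / 2))‖ ^ analyticOrderNatAt D.L ρ = 0
    · obtain ⟨ρ, hρ, hz⟩ := hz
      rw [Finset.prod_eq_zero hρ hz, mul_zero] at first
      refine first.trans ?_
      positivity
    · push Not at hz
      refine hfin _ hβ (first.trans (le_of_eq ?_))
      congr 1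
      rw [neg_neg, Real.exp_sum]
      refine Finset.prod_congr rfl fun ρ hρ => ?_
      have h4 := hz ρ hρ
      rcases Nat.eq_zero_or_pos (analyticOrderNatAt D.L ρ) with h0 | h0
      · rw [h0]
        simp
      · have h5 : ‖Complex.tan (Real.pi / 2 * (ρ - 1 / 2))‖ ≠ 0 := fun h => h4 (by
          rw [h, zero_pow h0.ne'])
        have h6 : 0 < ‖Complex.tan (Real.pi / 2 * (ρ - 1 / 2))‖ :=
          lt_of_le_of_ne (norm_nonneg _) h5.symm
        rw [Real.exp_nat_mul, Real.exp_log h6]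
  · refine hfin _ hβ (h2.trans ?_)
    gcongr

end Pool.Agent.R516.ZI
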